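import Pool.Agent.Lib.MP_d9bc60_nt.UV.PDefs

section
/-! Row W13 (about 150 lines): Estermann's argument, abstract form. -/

set_option autoImplicit false

namespace Pool.Agent.Lib.MP_d9bc60_nt.UV

open Finset

theorem w13_exp7 : (32 / 5 : ℝ) * Real.exp (-7) ≤ 1 / 128 := by
  have h1 : (2.7182818283 : ℝ) < Real.exp 1 := Real.exp_one_gt_d9
  have h2 : (2.7182818283 : ℝ) ^ 7 < Real.exp 1 ^ 7 :=
    pow_lt_pow_left₀ h1 (by norm_num) (by norm_num)
  have h3 : Real.exp 1 ^ 7 = Real.exp 7 := by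
    rw [← Real.exp_nat_mul]; norm_num
  have h4 : (820 : ℝ) < Real.exp 7 := by
    rw [← h3]; refine lt_trans (by norm_num) h2
  rw [Real.exp_neg, mul_inv_le_iff₀ (Real.exp_pos 7)]
  linarith

theorem w13_pow (k : ℕ) : (27 / 32 : ℝ) ^ (6 * k) ≤ Real.exp (-(k : ℝ)) := by
  have h1 : (27 / 32 : ℝ) ^ 6 ≤ Real.exp (-1) := by
    have h2 : Real.exp 1 < 2.7182818286 := Real.exp_one_lt_d9
    rw [Real.exp_neg, le_inv_comm₀ (by norm_num) (Real.exp_pos 1)]
    refine h2.le.trans ?_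
    norm_num
  rw [pow_mul]
  calc ((27 / 32 : ℝ) ^ 6) ^ k ≤ Real.exp (-1) ^ k := pow_le_pow_left₀ (by norm_num) h1 k
    _ = Real.exp (-(k : ℝ)) := by rw [← Real.exp_nat_mul]; congr 1; ring

/-- Proof. Taylor series at `2` on `|s - 2| < 4/3` (`Complex.hasSum_taylorSeries_on_ball`) with
`x = 2 - α ∈ (1, 9/8)`: `G(α) = ∑ g_m x^m`, `g_m = (-1)^m G^{(m)}(2)/m!`, `‖g_m‖ ≤ M (3/4)^m`
(`Complex.norm_iteratedDeriv_le_of_forall_mem_sphere_norm_le`), `Re g_m ≥ -λ`, `Re g_0 ≥ 1/64 - λ`.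
Choose `m₀ ≤ C(1 + log M)` with `M (27/32)^m₀ · (32/5) ≤ 1/128`. Then
`λ/(1-α) ≥ Re G(α) ≥ 1/64 - λ ∑_{m<m₀} x^m - M ∑_{m ≥ m₀} (27/32)^m ≥ 1/128 - λ (x^m₀ - 1)/(x-1)`
and `x - 1 = 1 - α`, so `λ x^m₀ ≥ (1-α)/128`, and `x^m₀ ≤ exp(m₀(1-α)) ≤ C M^(C(1-α))`. -/
theorem estermann : ∃ C : ℝ, 1 ≤ C ∧ ∀ (G : ℂ → ℂ) (M lam α : ℝ), Differentiable ℂ G → 1 ≤ M →
    0 ≤ lam → 7 / 8 < α → α < 1 → (∀ s ∈ Metric.sphere (2 : ℂ) (4 / 3), ‖G s‖ ≤ M) →
    (∀ m : ℕ, -(lam * m.factorial) ≤ ((-1 : ℂ) ^ m * iteratedDeriv m G 2).re) →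
    1 / 64 - lam ≤ (G 2).re → (G α).re ≤ lam / (1 - α) →
    (1 - α) / C * M ^ (-(C * (1 - α))) ≤ lam := by
  refine ⟨128 * Real.exp 6, ?_, ?_⟩
  · have := Real.one_le_exp (show (0 : ℝ) ≤ 6 by norm_num)
    linarith
  intro G M lam α hG hM hlam hα hα1 hbd hco h0 hup
  set x : ℝ := 2 - α with hx
  have hx1 : 1 < x := by rw [hx]; linarith
  have hx2 : x ≤ 9 / 8 := by rw [hx]; linarith
  have hx0 : 0 < x := by linarith
  have hM0 : 0 < M := by linarith
  -- Taylor series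
  have hT := Complex.hasSum_taylorSeries_of_entire hG 2 (α : ℂ)
  have hterm : ∀ m : ℕ, ((m.factorial : ℂ)⁻¹ • ((α : ℂ) - 2) ^ m • iteratedDeriv m G 2) =
      ((x ^ m / m.factorial : ℝ) : ℂ) * ((-1 : ℂ) ^ m * iteratedDeriv m G 2) := by
    intro m
    have h1 : ((α : ℂ) - 2) = (-1 : ℂ) * (x : ℂ) := by rw [hx]; push_cast; ring
    rw [h1, mul_pow, smul_eq_mul, smul_eq_mul]
    push_cast
    rw [div_eq_mul_inv]
    ring
  set a : ℕ → ℝ := fun m => x ^ m / m.factorial * ((-1 : ℂ) ^ m * iteratedDeriv m G 2).re with ha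
  have hsum : HasSum a (G α).re := by
    have h1 := Complex.hasSum_re hT
    have h2 : a = fun m : ℕ =>
        ((m.factorial : ℂ)⁻¹ • ((α : ℂ) - 2) ^ m • iteratedDeriv m G 2).re := by
      funext m
      rw [hterm m, Complex.re_ofReal_mul]
    rw [h2]
    exact h1
  have hfac : ∀ m : ℕ, (0 : ℝ) < m.factorial := fun m => by exact_mod_cast m.factorial_pos
  have hlow1 : ∀ m, -(lam * x ^ m) ≤ a m := by
    intro m
    have h1 := mul_le_mul_of_nonneg_left (hco m) (show (0 : ℝ) ≤ x ^ m / m.factorial from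
      div_nonneg (pow_nonneg hx0.le m) (hfac m).le)
    have h2 : x ^ m / m.factorial * -(lam * m.factorial) = -(lam * x ^ m) := by
      have := (hfac m).ne'
      field_simp
    rw [h2] at h1
    exact h1
  have hlow2 : ∀ m, -(M * (27 / 32) ^ m) ≤ a m := by
    intro m
    have h1 : ‖iteratedDeriv m G 2‖ ≤ m.factorial * M / (4 / 3) ^ m :=
      Complex.norm_iteratedDeriv_le_of_forall_mem_sphere_norm_le m (by norm_num)
        hG.diffContOnCl hbd
    have h2 : |((-1 : ℂ) ^ m * iteratedDeriv m G 2).re| ≤ m.factorial * M / (4 / 3) ^ m := by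
      refine (Complex.abs_re_le_norm _).trans ?_
      rw [norm_mul, norm_pow, norm_neg, norm_one, one_pow, one_mul]
      exact h1
    have h3 := (abs_le.1 h2).1
    have h4 := mul_le_mul_of_nonneg_left h3 (show (0 : ℝ) ≤ x ^ m / m.factorial from
      div_nonneg (pow_nonneg hx0.le m) (hfac m).le)
    refine le_trans ?_ h4
    have h5 : x ^ m / m.factorial * -(m.factorial * M / (4 / 3) ^ m) = -(M * (x * (3 / 4)) ^ m) := by
      have := (hfac m).ne'
      rw [mul_pow, show (3 / 4 : ℝ) = (4 / 3)⁻¹ by norm_num, inv_pow]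
      field_simp
    rw [h5]
    have h6 : (x * (3 / 4)) ^ m ≤ (27 / 32) ^ m :=
      pow_le_pow_left₀ (by positivity) (by linarith) m
    have := mul_le_mul_of_nonneg_left h6 hM0.le
    linarith
  have ha0 : 1 / 64 - lam ≤ a 0 := by
    have : a 0 = (G 2).re := by
      simp [ha]
    rw [this]; exact h0
  -- the cut
  set k : ℕ := ⌈Real.log M⌉₊ + 7 with hk
  have hlogM : 0 ≤ Real.log M := Real.log_nonneg hM
  have hk1 : Real.log M + 7 ≤ k := by
    rw [hk]; push_cast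
    have := Nat.le_ceil (Real.log M)
    linarith
  have hk2 : (k : ℝ) ≤ Real.log M + 8 := by
    rw [hk]; push_cast
    have := (Nat.ceil_lt_add_one hlogM).le
    linarith
  set m0 : ℕ := 6 * k with hm0
  have htail0 : M * (27 / 32) ^ m0 * (32 / 5) ≤ 1 / 128 := by
    have h1 := w13_pow k
    have h2 : Real.exp (-(k : ℝ)) ≤ Real.exp (-7) / M := by
      rw [le_div_iff₀ hM0]
      calc Real.exp (-(k : ℝ)) * M = Real.exp (-(k : ℝ)) * Real.exp (Real.log M) := by
            rw [Real.exp_log hM0]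
        _ = Real.exp (-(k : ℝ) + Real.log M) := by rw [← Real.exp_add]
        _ ≤ Real.exp (-7) := Real.exp_le_exp.2 (by linarith)
    have h3 : M * (27 / 32 : ℝ) ^ m0 ≤ Real.exp (-7) := by
      have h4 := mul_le_mul_of_nonneg_left (h1.trans h2) hM0.le
      have h5 : M * (Real.exp (-7) / M) = Real.exp (-7) := by field_simp
      rw [h5] at h4
      exact h4
    have h6 := w13_exp7
    nlinarith [h3]
  have hsplit : ∑ i ∈ Finset.range m0, a i + ∑' i, a (i + m0) = (G α).re := by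
    rw [hsum.summable.sum_add_tsum_nat_add m0, hsum.tsum_eq]
  have htail : -(M * (27 / 32) ^ m0 * (32 / 5)) ≤ ∑' i, a (i + m0) := by
    have hg : HasSum (fun i : ℕ => -(M * (27 / 32 : ℝ) ^ m0) * (27 / 32) ^ i)
        (-(M * (27 / 32 : ℝ) ^ m0) * (1 - 27 / 32)⁻¹) :=
      (hasSum_geometric_of_lt_one (by norm_num) (by norm_num)).mul_left _
    have hs : Summable (fun i => a (i + m0)) := (summable_nat_add_iff m0).2 hsum.summable
    have h1 := hg.summable.tsum_le_tsum (fun i => ?_) hs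
    · rw [hg.tsum_eq] at h1
      have h2 : -(M * (27 / 32 : ℝ) ^ m0) * (1 - 27 / 32)⁻¹ = -(M * (27 / 32) ^ m0 * (32 / 5)) := by
        norm_num
      rw [h2] at h1
      exact h1
    · have h3 := hlow2 (i + m0)
      rw [pow_add] at h3
      refine le_trans (le_of_eq ?_) h3
      ring
  have hhead : 1 / 64 - lam * ∑ i ∈ Finset.range m0, x ^ i ≤ ∑ i ∈ Finset.range m0, a i := by
    have hm0' : m0 = (m0 - 1) + 1 := by omega
    rw [hm0', Finset.sum_range_succ', Finset.sum_range_succ', mul_add, Finset.mul_sum]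
    have h1 : ∑ i ∈ Finset.range (m0 - 1), -(lam * x ^ (i + 1)) ≤
        ∑ i ∈ Finset.range (m0 - 1), a (i + 1) := Finset.sum_le_sum fun i _ => hlow1 (i + 1)
    rw [Finset.sum_neg_distrib] at h1
    rw [pow_zero, mul_one]
    linarith
  have hgeo : ∑ i ∈ Finset.range m0, x ^ i = (x ^ m0 - 1) / (1 - α) := by
    rw [geom_sum_eq hx1.ne']
    congr 1
    rw [hx]; ring
  have h1a : 0 < 1 - α := by linarith
  have hmain : (1 - α) / 128 ≤ lam * x ^ m0 := by
    have h1 : 1 / 64 - lam * ((x ^ m0 - 1) / (1 - α)) - 1 / 128 ≤ lam / (1 - α) := by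
      rw [hgeo] at hhead
      linarith
    have h2 : (1 / 64 - lam * ((x ^ m0 - 1) / (1 - α)) - 1 / 128) * (1 - α) ≤
        lam / (1 - α) * (1 - α) := mul_le_mul_of_nonneg_right h1 h1a.le
    have h3 : lam / (1 - α) * (1 - α) = lam := by field_simp
    have h4 : (1 / 64 - lam * ((x ^ m0 - 1) / (1 - α)) - 1 / 128) * (1 - α) =
        (1 - α) / 128 - lam * (x ^ m0 - 1) := by field_simp; ring
    rw [h3, h4] at h2
    linarith
  have hxpow : x ^ m0 ≤ Real.exp 6 * M ^ (6 * (1 - α)) := by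
    have h1 : x ≤ Real.exp (1 - α) := by
      have := Real.add_one_le_exp (1 - α)
      rw [hx]; linarith
    have h2 : x ^ m0 ≤ Real.exp (1 - α) ^ m0 := pow_le_pow_left₀ hx0.le h1 m0
    have h3 : Real.exp (1 - α) ^ m0 = Real.exp (m0 * (1 - α)) := by
      rw [← Real.exp_nat_mul]
    rw [Real.rpow_def_of_pos hM0, ← Real.exp_add]
    refine h2.trans ?_
    rw [h3]
    apply Real.exp_le_exp.2
    rw [hm0]; push_cast
    nlinarith [mul_le_mul_of_nonneg_right hk2 h1a.le]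
  have hMpos : 0 < M ^ (6 * (1 - α)) := Real.rpow_pos_of_pos hM0 _
  have hE : 0 < Real.exp 6 := Real.exp_pos 6
  have h1 : M ^ (-(128 * Real.exp 6 * (1 - α))) ≤ (M ^ (6 * (1 - α)))⁻¹ := by
    rw [← Real.rpow_neg hM0.le]
    apply Real.rpow_le_rpow_of_exponent_le hM
    have h2 : (6 : ℝ) ≤ 128 * Real.exp 6 := by
      have := Real.one_le_exp (show (0 : ℝ) ≤ 6 by norm_num)
      linarith
    nlinarith
  have h2 : (1 - α) / (128 * Real.exp 6) * (M ^ (6 * (1 - α)))⁻¹ ≤ lam := by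
    rw [← div_eq_mul_inv, div_div, div_le_iff₀ (by positivity)]
    have h3 := hmain.trans (mul_le_mul_of_nonneg_left hxpow hlam)
    linarith
  exact (mul_le_mul_of_nonneg_left h1 (by positivity)).trans h2

end Pool.Agent.Lib.MP_d9bc60_nt.UV
end
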