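import Pool.Agent.Lib.MP_d9bc60_nt.UV.PDefs

section
/-! Row W05 (about 170 lines): derivatives of `ζ` near `Re s = 1`. -/

set_option autoImplicit false

namespace Pool.Agent.Lib.MP_d9bc60_nt.UV

open Finset

/-- `y^{-s}` -/
noncomputable def W05One_E (s : ℂ) (y : ℝ) : ℂ := Complex.exp (-s * ((Real.log y : ℝ) : ℂ))

/-- `(log y)^j y^{-s}` -/
noncomputable def W05One_f (j : ℕ) (s : ℂ) (y : ℝ) : ℂ :=
  ((Real.log y : ℝ) : ℂ) ^ j * W05One_E s y

/-- a primitive of `f` -/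
noncomputable def W05One_F (s : ℂ) (y : ℝ) : ℕ → ℂ
  | 0 => -((y : ℂ) * W05One_E s y) / (s - 1)
  | (j + 1) => -((y : ℂ) * W05One_E s y) * ((Real.log y : ℝ) : ℂ) ^ (j + 1) / (s - 1) +
      ((j + 1 : ℕ) : ℂ) / (s - 1) * W05One_F s y j

theorem W05One_E_norm (s : ℂ) (y : ℝ) : ‖W05One_E s y‖ = Real.exp (-s.re * Real.log y) := by
  unfold W05One_E
  rw [Complex.norm_exp]
  simp

theorem W05One_E_norm_le (s : ℂ) (hs : 1 ≤ s.re) (y : ℝ) (hy : 1 ≤ y) : ‖W05One_E s y‖ ≤ y⁻¹ := by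
  rw [W05One_E_norm]
  have hy0 : 0 < y := by linarith
  have hl : 0 ≤ Real.log y := Real.log_nonneg hy
  have h1 : -s.re * Real.log y ≤ -Real.log y := by nlinarith
  calc Real.exp (-s.re * Real.log y) ≤ Real.exp (-Real.log y) := Real.exp_le_exp.2 h1
    _ = y⁻¹ := by rw [Real.exp_neg, Real.exp_log hy0]

theorem W05One_E_deriv (s : ℂ) (y : ℝ) (hy : 0 < y) :
    HasDerivAt (W05One_E s) (W05One_E s y * (-s * ((y⁻¹ : ℝ) : ℂ))) y := by
  unfold W05One_E
  have h1 : HasDerivAt (fun y : ℝ => ((Real.log y : ℝ) : ℂ)) ((y⁻¹ : ℝ) : ℂ) y :=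
    (Real.hasDerivAt_log hy.ne').ofReal_comp
  exact (h1.const_mul (-s)).cexp

theorem W05One_L_deriv (j : ℕ) (y : ℝ) (hy : 0 < y) :
    HasDerivAt (fun y : ℝ => ((Real.log y : ℝ) : ℂ) ^ j)
      ((j : ℂ) * ((Real.log y : ℝ) : ℂ) ^ (j - 1) * ((y⁻¹ : ℝ) : ℂ)) y := by
  have h1 : HasDerivAt (fun y : ℝ => ((Real.log y : ℝ) : ℂ)) ((y⁻¹ : ℝ) : ℂ) y :=
    (Real.hasDerivAt_log hy.ne').ofReal_comp
  exact h1.pow j

theorem W05One_f_deriv (j : ℕ) (s : ℂ) (y : ℝ) (hy : 0 < y) :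
    HasDerivAt (W05One_f j s) ((j : ℂ) * ((Real.log y : ℝ) : ℂ) ^ (j - 1) * ((y⁻¹ : ℝ) : ℂ) *
      W05One_E s y + ((Real.log y : ℝ) : ℂ) ^ j * (W05One_E s y * (-s * ((y⁻¹ : ℝ) : ℂ)))) y :=
  (W05One_L_deriv j y hy).mul (W05One_E_deriv s y hy)

theorem W05One_f_deriv_le (j : ℕ) (s : ℂ) (hs : 1 ≤ s.re) (y : ℝ) (hy : 1 ≤ y) :
    ‖(j : ℂ) * ((Real.log y : ℝ) : ℂ) ^ (j - 1) * ((y⁻¹ : ℝ) : ℂ) *
      W05One_E s y + ((Real.log y : ℝ) : ℂ) ^ j * (W05One_E s y * (-s * ((y⁻¹ : ℝ) : ℂ)))‖ ≤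
      (j + ‖s‖) * ((2 * j + 1) + Real.log y) ^ j / y ^ 2 := by
  have hy0 : 0 < y := by linarith
  have hl : 0 ≤ Real.log y := Real.log_nonneg hy
  have hE := W05One_E_norm_le s hs y hy
  set A : ℝ := (2 * j + 1) + Real.log y with hA
  have hA1 : 1 ≤ A := by rw [hA]; have : (0 : ℝ) ≤ j := Nat.cast_nonneg _; linarith
  have hAl : Real.log y ≤ A := by rw [hA]; have : (0 : ℝ) ≤ j := Nat.cast_nonneg _; linarith
  have h1 : Real.log y ^ (j - 1) ≤ A ^ j :=
    (pow_le_pow_left₀ hl hAl _).trans (pow_le_pow_right₀ hA1 (Nat.sub_le _ _))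
  have h2 : Real.log y ^ j ≤ A ^ j := pow_le_pow_left₀ hl hAl _
  refine (norm_add_le _ _).trans ?_
  have hyi : ‖((y⁻¹ : ℝ) : ℂ)‖ = y⁻¹ := by
    rw [Complex.norm_real, Real.norm_eq_abs, abs_of_pos (inv_pos.2 hy0)]
  have hln : ‖((Real.log y : ℝ) : ℂ)‖ = Real.log y := by
    rw [Complex.norm_real, Real.norm_eq_abs, abs_of_nonneg hl]
  rw [norm_mul, norm_mul, norm_mul, norm_mul, norm_mul, norm_mul, norm_pow, norm_pow, norm_neg,
    hyi, hln, Complex.norm_natCast]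
  have hyi0 : 0 ≤ y⁻¹ := (inv_pos.2 hy0).le
  have e1 : (j : ℝ) * Real.log y ^ (j - 1) * y⁻¹ * ‖W05One_E s y‖ ≤ j * A ^ j * y⁻¹ * y⁻¹ := by
    apply mul_le_mul _ hE (norm_nonneg _) (by positivity)
    apply mul_le_mul_of_nonneg_right _ hyi0
    exact mul_le_mul_of_nonneg_left h1 (Nat.cast_nonneg _)
  have e2 : Real.log y ^ j * (‖W05One_E s y‖ * (‖s‖ * y⁻¹)) ≤ A ^ j * (y⁻¹ * (‖s‖ * y⁻¹)) := by
    apply mul_le_mul h2 _ (by positivity) (by positivity)
    exact mul_le_mul_of_nonneg_right hE (by positivity)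
  refine (add_le_add e1 e2).trans (le_of_eq ?_)
  field_simp

theorem W05One_F_deriv (s : ℂ) (hs : s ≠ 1) (y : ℝ) (hy : 0 < y) (j : ℕ) :
    HasDerivAt (fun y => W05One_F s y j) (W05One_f j s y) y := by
  have hs1 : s - 1 ≠ 0 := sub_ne_zero.2 hs
  have hy0 : (y : ℂ) ≠ 0 := by exact_mod_cast hy.ne'
  have hyE : HasDerivAt (fun y : ℝ => -((y : ℂ) * W05One_E s y)) ((s - 1) * W05One_E s y) y := by
    have h1 : HasDerivAt (fun y : ℝ => (y : ℂ)) 1 y := by
      have := (hasDerivAt_id y).ofReal_comp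
      simpa using this
    have h2 := (h1.mul (W05One_E_deriv s y hy)).neg
    have h3 : -(1 * W05One_E s y + (y : ℂ) * (W05One_E s y * (-s * ((y⁻¹ : ℝ) : ℂ)))) =
        (s - 1) * W05One_E s y := by
      push_cast
      field_simp
      ring
    rw [← h3]
    exact h2
  induction j with
  | zero =>
    have h := hyE.div_const (s - 1)
    have h2 : W05One_f 0 s y = (s - 1) * W05One_E s y / (s - 1) := by
      unfold W05One_f
      field_simp
    rw [h2]
    exact h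
  | succ j ih =>
    have h := ((hyE.mul (W05One_L_deriv (j + 1) y hy)).div_const (s - 1)).add
      (ih.const_mul (((j + 1 : ℕ) : ℂ) / (s - 1)))
    simp only [Nat.add_sub_cancel] at h
    have h3 : ((s - 1) * W05One_E s y * ((Real.log y : ℝ) : ℂ) ^ (j + 1) +
        -((y : ℂ) * W05One_E s y) * (((j + 1 : ℕ) : ℂ) * ((Real.log y : ℝ) : ℂ) ^ j *
          ((y⁻¹ : ℝ) : ℂ))) / (s - 1) + ((j + 1 : ℕ) : ℂ) / (s - 1) * W05One_f j s y =
        W05One_f (j + 1) s y := by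
      unfold W05One_f
      push_cast
      field_simp
      ring
    rw [← h3]
    exact h

theorem W05One_F_norm (s : ℂ) (hs : s ≠ 1) (y : ℝ) (hy : 1 ≤ y) (M : ℝ) (hM1 : Real.log y ≤ M)
    (hM2 : 1 / ‖s - 1‖ ≤ M) (j : ℕ) :
    ‖W05One_F s y j‖ ≤ (Nat.factorial (j + 1) : ℝ) * M ^ (j + 1) *
      Real.exp (-(s.re - 1) * Real.log y) := by
  have hy0 : 0 < y := by linarith
  have hl : 0 ≤ Real.log y := Real.log_nonneg hy
  have hM0 : 0 ≤ M := hl.trans hM1
  have hs1 : 0 < ‖s - 1‖ := norm_pos_iff.2 (sub_ne_zero.2 hs)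
  have hB : ‖s - 1‖⁻¹ ≤ M := by rw [← one_div]; exact hM2
  have hyE : ‖(y : ℂ) * W05One_E s y‖ = Real.exp (-(s.re - 1) * Real.log y) := by
    rw [norm_mul, W05One_E_norm, Complex.norm_real, Real.norm_eq_abs, abs_of_pos hy0]
    have : y = Real.exp (Real.log y) := (Real.exp_log hy0).symm
    nth_rw 1 [this]
    rw [← Real.exp_add]
    congr 1; ring
  set X : ℝ := Real.exp (-(s.re - 1) * Real.log y) with hX
  have hX0 : 0 ≤ X := (Real.exp_pos _).le
  have hln : ‖((Real.log y : ℝ) : ℂ)‖ = Real.log y := by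
    rw [Complex.norm_real, Real.norm_eq_abs, abs_of_nonneg hl]
  induction j with
  | zero =>
    unfold W05One_F
    rw [norm_div, norm_neg, hyE, div_eq_mul_inv]
    simp only [zero_add, Nat.factorial_one, Nat.cast_one, one_mul, pow_one]
    rw [mul_comm]
    exact mul_le_mul_of_nonneg_right hB hX0
  | succ j ih =>
    have h0 : W05One_F s y (j + 1) = -((y : ℂ) * W05One_E s y) * ((Real.log y : ℝ) : ℂ) ^ (j + 1) /
        (s - 1) + ((j + 1 : ℕ) : ℂ) / (s - 1) * W05One_F s y j := rfl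
    rw [h0]
    refine (norm_add_le _ _).trans ?_
    rw [norm_div, norm_mul, norm_neg, hyE, norm_pow, hln, norm_mul, norm_div, Complex.norm_natCast,
      div_eq_mul_inv, div_eq_mul_inv]
    have e1 : X * Real.log y ^ (j + 1) * ‖s - 1‖⁻¹ ≤ X * M ^ (j + 1) * M := by
      apply mul_le_mul _ hB (by positivity) (by positivity)
      exact mul_le_mul_of_nonneg_left (pow_le_pow_left₀ hl hM1 _) hX0
    have e2 : ((j + 1 : ℕ) : ℝ) * ‖s - 1‖⁻¹ * ‖W05One_F s y j‖ ≤ ((j + 1 : ℕ) : ℝ) * M *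
        ((Nat.factorial (j + 1) : ℝ) * M ^ (j + 1) * X) := by
      apply mul_le_mul _ ih (norm_nonneg _) (by positivity)
      exact mul_le_mul_of_nonneg_left hB (Nat.cast_nonneg _)
    refine (add_le_add e1 e2).trans ?_
    have e3 : (1 : ℝ) ≤ (Nat.factorial (j + 1) : ℝ) := by
      exact_mod_cast Nat.one_le_iff_ne_zero.2 (Nat.factorial_ne_zero _)
    have e4 : (Nat.factorial (j + 1 + 1) : ℝ) = ((j + 1 : ℕ) + 1 : ℝ) * Nat.factorial (j + 1) := by
      rw [Nat.factorial_succ (j + 1)]; push_cast; ring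
    rw [e4]
    have e5 : (0 : ℝ) ≤ X * M ^ (j + 1) * M := by positivity
    have e6 : X * M ^ (j + 1) * M * 1 ≤ X * M ^ (j + 1) * M * (Nat.factorial (j + 1) : ℝ) :=
      mul_le_mul_of_nonneg_left e3 e5
    calc _ = X * M ^ (j + 1) * M * 1 + ((j + 1 : ℕ) : ℝ) * M *
        ((Nat.factorial (j + 1) : ℝ) * M ^ (j + 1) * X) := by ring
      _ ≤ X * M ^ (j + 1) * M * (Nat.factorial (j + 1) : ℝ) + ((j + 1 : ℕ) : ℝ) * M *
        ((Nat.factorial (j + 1) : ℝ) * M ^ (j + 1) * X) := by linarith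
      _ = _ := by ring

theorem W05One_F_tendsto (s : ℂ) (hs : 1 < s.re) (j : ℕ) :
    Filter.Tendsto (fun n : ℕ => W05One_F s (n : ℝ) j) Filter.atTop (nhds 0) := by
  have hne : s ≠ 1 := by rintro rfl; simp at hs
  have hs1 : 0 < ‖s - 1‖ := norm_pos_iff.2 (sub_ne_zero.2 hne)
  have hc : 0 < s.re - 1 := by linarith
  -- the real bound
  have hL : Filter.Tendsto (fun n : ℕ => Real.log (n : ℝ)) Filter.atTop Filter.atTop :=
    Real.tendsto_log_atTop.comp tendsto_natCast_atTop_atTop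
  have hcL : Filter.Tendsto (fun n : ℕ => (s.re - 1) * Real.log (n : ℝ)) Filter.atTop
      Filter.atTop := hL.const_mul_atTop hc
  have h1 := (Real.tendsto_pow_mul_exp_neg_atTop_nhds_zero (j + 1)).comp hcL
  have h2 := h1.const_mul ((Nat.factorial (j + 1) : ℝ) * ((s.re - 1)⁻¹) ^ (j + 1))
  rw [mul_zero] at h2
  apply squeeze_zero_norm' _ h2
  have hev : ∀ᶠ n : ℕ in Filter.atTop, 1 / ‖s - 1‖ ≤ Real.log (n : ℝ) :=
    hL.eventually_ge_atTop _
  filter_upwards [hev, Filter.eventually_ge_atTop 1] with n hn hn1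
  have hn1' : (1 : ℝ) ≤ n := by exact_mod_cast hn1
  refine (W05One_F_norm s hne n hn1' (Real.log n) le_rfl hn j).trans (le_of_eq ?_)
  simp only [Function.comp]
  rw [mul_pow, neg_mul, inv_pow]
  have : (s.re - 1) ^ (j + 1) ≠ 0 := pow_ne_zero _ hc.ne'
  field_simp

/-- the comparison function -/
noncomputable def W05One_h (j : ℕ) (y : ℝ) : ℝ := ((2 * j + 1) + Real.log y) ^ j / y

theorem W05One_h_diff (j n : ℕ) (hn : 1 ≤ n) :
    ((2 * j + 1) + Real.log n) ^ j / ((n : ℝ) + 1) ^ 2 ≤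
      2 * (W05One_h j n - W05One_h j ((n : ℝ) + 1)) := by
  have hn1 : (1 : ℝ) ≤ n := by exact_mod_cast hn
  have hj0 : (0 : ℝ) ≤ j := Nat.cast_nonneg _
  have hder : ∀ y : ℝ, 0 < y → HasDerivAt (W05One_h j)
      (((j : ℝ) * ((2 * j + 1) + Real.log y) ^ (j - 1) * y⁻¹ * y -
        ((2 * j + 1) + Real.log y) ^ j * 1) / y ^ 2) y := by
    intro y hy
    have h1 : HasDerivAt (fun y : ℝ => (2 * (j : ℝ) + 1) + Real.log y) y⁻¹ y :=
      (Real.hasDerivAt_log hy.ne').const_add _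
    exact (h1.pow j).div (hasDerivAt_id y) hy.ne'
  obtain ⟨ξ, ⟨hξ1, hξ2⟩, hξ⟩ := exists_hasDerivAt_eq_slope (W05One_h j) _
    (show (n : ℝ) < (n : ℝ) + 1 by linarith)
    (fun y hy => (hder y (by linarith [hy.1])).continuousAt.continuousWithinAt)
    (fun y hy => hder y (by linarith [hy.1]))
  have hξ0 : 0 < ξ := by linarith
  rw [show (n : ℝ) + 1 - n = 1 by ring, div_one] at hξ
  set A : ℝ := (2 * j + 1) + Real.log ξ with hA
  have hlξ : Real.log n ≤ Real.log ξ := Real.log_le_log (by linarith) hξ1.le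
  have hln : 0 ≤ Real.log n := Real.log_nonneg hn1
  have hA1 : 2 * (j : ℝ) ≤ A := by rw [hA]; linarith
  have hA0 : 0 < A := by rw [hA]; linarith
  have hkey : (j : ℝ) * A ^ (j - 1) ≤ A ^ j / 2 := by
    rcases Nat.eq_zero_or_pos j with h | h
    · subst h; simp
    · obtain ⟨i, rfl⟩ := Nat.exists_eq_succ_of_ne_zero h.ne'
      simp only [Nat.succ_eq_add_one, Nat.add_sub_cancel]
      have : (0 : ℝ) ≤ A ^ i := by positivity
      rw [pow_succ]
      simp only [Nat.succ_eq_add_one] at hA1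
      nlinarith
  have h2 : A ^ j / (2 * ξ ^ 2) ≤ W05One_h j n - W05One_h j ((n : ℝ) + 1) := by
    have h3 : W05One_h j n - W05One_h j ((n : ℝ) + 1) =
        -(((j : ℝ) * A ^ (j - 1) * ξ⁻¹ * ξ - A ^ j * 1) / ξ ^ 2) := by
      rw [hξ]; ring
    rw [h3]
    have h4 : (j : ℝ) * A ^ (j - 1) * ξ⁻¹ * ξ = (j : ℝ) * A ^ (j - 1) := by
      field_simp
    rw [h4, mul_one, ← neg_div, show A ^ j / (2 * ξ ^ 2) = (A ^ j / 2) / ξ ^ 2 by
      field_simp]
    apply div_le_div_of_nonneg_right _ (by positivity)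
    linarith
  have h5 : ((2 * j + 1) + Real.log n) ^ j / ((n : ℝ) + 1) ^ 2 ≤ A ^ j / ξ ^ 2 := by
    apply div_le_div₀ (by positivity) _ (by positivity) _
    · exact pow_le_pow_left₀ (by linarith) (by rw [hA]; linarith) _
    · exact pow_le_pow_left₀ hξ0.le hξ2.le _
  have h6 : A ^ j / ξ ^ 2 = 2 * (A ^ j / (2 * ξ ^ 2)) := by field_simp
  rw [h6] at h5
  linarith

theorem W05One_h_nonneg (j : ℕ) (y : ℝ) (hy : 1 ≤ y) : 0 ≤ W05One_h j y := by
  unfold W05One_h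
  have hl : 0 ≤ Real.log y := Real.log_nonneg hy
  positivity

/-- the error on one interval -/
theorem W05One_step_const (j n : ℕ) (hn : 1 ≤ n) (s : ℂ) :
    (j + ‖s‖) * ((2 * j + 1) + Real.log ((n : ℝ) + 1)) ^ j / (n : ℝ) ^ 2 ≤
      (j + ‖s‖) * 2 ^ (j + 3) * (W05One_h j n - W05One_h j ((n : ℝ) + 1)) := by
  have hn1 : (1 : ℝ) ≤ n := by exact_mod_cast hn
  have hj0 : (0 : ℝ) ≤ j := Nat.cast_nonneg _
  have hln : 0 ≤ Real.log n := Real.log_nonneg hn1
  have h1 : Real.log ((n : ℝ) + 1) ≤ Real.log 2 + Real.log n := by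
    rw [← Real.log_mul (by norm_num) (by linarith)]
    exact Real.log_le_log (by linarith) (by linarith)
  have hl2 : Real.log 2 ≤ 1 := by
    have := Real.log_two_lt_d9; linarith
  have hln1 : 0 ≤ Real.log ((n : ℝ) + 1) := Real.log_nonneg (by linarith)
  have h2 : ((2 * j + 1) + Real.log ((n : ℝ) + 1)) ^ j ≤
      2 ^ j * ((2 * j + 1) + Real.log n) ^ j := by
    rw [← mul_pow]
    apply pow_le_pow_left₀ (by positivity)
    linarith
  have h3 : (1 : ℝ) / (n : ℝ) ^ 2 ≤ 4 / ((n : ℝ) + 1) ^ 2 := by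
    rw [div_le_div_iff₀ (by positivity) (by positivity)]
    nlinarith
  have h4 := W05One_h_diff j n hn
  have hs0 : 0 ≤ (j : ℝ) + ‖s‖ := by positivity
  calc (j + ‖s‖) * ((2 * j + 1) + Real.log ((n : ℝ) + 1)) ^ j / (n : ℝ) ^ 2
      = (j + ‖s‖) * (((2 * j + 1) + Real.log ((n : ℝ) + 1)) ^ j * (1 / (n : ℝ) ^ 2)) := by ring
    _ ≤ (j + ‖s‖) * ((2 ^ j * ((2 * j + 1) + Real.log n) ^ j) * (4 / ((n : ℝ) + 1) ^ 2)) := by
        apply mul_le_mul_of_nonneg_left _ hs0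
        exact mul_le_mul h2 h3 (by positivity) (by positivity)
    _ = (j + ‖s‖) * (2 ^ j * 4) * (((2 * j + 1) + Real.log n) ^ j / ((n : ℝ) + 1) ^ 2) := by ring
    _ ≤ (j + ‖s‖) * (2 ^ j * 4) * (2 * (W05One_h j n - W05One_h j ((n : ℝ) + 1))) :=
        mul_le_mul_of_nonneg_left h4 (by positivity)
    _ = _ := by ring

theorem W05One_step (j n : ℕ) (hn : 1 ≤ n) (s : ℂ) (hs : 1 < s.re) :
    ‖W05One_f j s ((n : ℝ) + 1) - (W05One_F s ((n : ℝ) + 1) j - W05One_F s n j)‖ ≤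
      (j + ‖s‖) * 2 ^ (j + 3) * (W05One_h j n - W05One_h j ((n : ℝ) + 1)) := by
  have hn1 : (1 : ℝ) ≤ n := by exact_mod_cast hn
  have hj0 : (0 : ℝ) ≤ j := Nat.cast_nonneg _
  have hne : s ≠ 1 := by rintro rfl; simp at hs
  refine le_trans ?_ (W05One_step_const j n hn s)
  set C : ℝ := (j + ‖s‖) * ((2 * j + 1) + Real.log ((n : ℝ) + 1)) ^ j / (n : ℝ) ^ 2 with hC
  have hCbound : ∀ y ∈ Set.Icc (n : ℝ) ((n : ℝ) + 1),
      ‖(j : ℂ) * ((Real.log y : ℝ) : ℂ) ^ (j - 1) * ((y⁻¹ : ℝ) : ℂ) *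
      W05One_E s y + ((Real.log y : ℝ) : ℂ) ^ j * (W05One_E s y * (-s * ((y⁻¹ : ℝ) : ℂ)))‖ ≤ C := by
    rintro y ⟨hy1, hy2⟩
    refine (W05One_f_deriv_le j s hs.le y (by linarith)).trans ?_
    have hly : 0 ≤ Real.log y := Real.log_nonneg (by linarith)
    have hly2 : Real.log y ≤ Real.log ((n : ℝ) + 1) := Real.log_le_log (by linarith) hy2
    apply div_le_div₀ _ _ (by positivity) _
    · exact mul_nonneg (by positivity) (by
        have : 0 ≤ Real.log ((n : ℝ) + 1) := hly.trans hly2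
        positivity)
    · apply mul_le_mul_of_nonneg_left _ (by positivity)
      exact pow_le_pow_left₀ (by positivity) (by linarith) _
    · exact pow_le_pow_left₀ (by linarith) hy1 _
  have hmem : ((n : ℝ) + 1) ∈ Set.Icc (n : ℝ) ((n : ℝ) + 1) := ⟨by linarith, le_rfl⟩
  have hmem' : (n : ℝ) ∈ Set.Icc (n : ℝ) ((n : ℝ) + 1) := ⟨le_rfl, by linarith⟩
  have hf : ∀ y ∈ Set.Icc (n : ℝ) ((n : ℝ) + 1), ‖W05One_f j s y - W05One_f j s ((n : ℝ) + 1)‖ ≤ C := by
    intro y hy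
    have h1 := Convex.norm_image_sub_le_of_norm_hasDerivWithin_le (f := W05One_f j s)
      (fun x hx => (W05One_f_deriv j s x (by linarith [hx.1])).hasDerivWithinAt) hCbound
      (convex_Icc _ _) hmem hy
    refine h1.trans ?_
    have hC0 : 0 ≤ C := (norm_nonneg _).trans (hCbound _ hmem)
    have h2 : ‖y - ((n : ℝ) + 1)‖ ≤ 1 := by
      rw [Real.norm_eq_abs, abs_le]; constructor <;> linarith [hy.1, hy.2]
    calc C * ‖y - ((n : ℝ) + 1)‖ ≤ C * 1 := mul_le_mul_of_nonneg_left h2 hC0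
      _ = C := mul_one C
  have hG : ∀ y ∈ Set.Icc (n : ℝ) ((n : ℝ) + 1), HasDerivWithinAt
      (fun y : ℝ => W05One_F s y j - W05One_f j s ((n : ℝ) + 1) * (y : ℂ))
      (W05One_f j s y - W05One_f j s ((n : ℝ) + 1)) (Set.Icc (n : ℝ) ((n : ℝ) + 1)) y := by
    intro y hy
    have h1 : HasDerivAt (fun y : ℝ => (y : ℂ)) 1 y := by
      have := (hasDerivAt_id y).ofReal_comp
      simpa using this
    have h2 := (W05One_F_deriv s hne y (by linarith [hy.1]) j).sub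
      (h1.const_mul (W05One_f j s ((n : ℝ) + 1)))
    rw [mul_one] at h2
    exact h2.hasDerivWithinAt
  have h1 := Convex.norm_image_sub_le_of_norm_hasDerivWithin_le hG hf (convex_Icc _ _) hmem' hmem
  have h2 : ‖((n : ℝ) + 1) - (n : ℝ)‖ = 1 := by simp
  rw [h2, mul_one] at h1
  refine le_trans (le_of_eq ?_) h1
  rw [← norm_neg]
  congr 1
  push_cast
  ring

theorem W05One_partial (j N : ℕ) (hN : 1 ≤ N) (s : ℂ) (hs : 1 < s.re) (M : ℕ) (hM : N ≤ M) :
    ‖∑ n ∈ Ico N M, W05One_f j s ((n : ℝ) + 1) - (W05One_F s M j - W05One_F s N j)‖ ≤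
      (j + ‖s‖) * 2 ^ (j + 3) * (W05One_h j N - W05One_h j M) := by
  induction M, hM using Nat.le_induction with
  | base => simp
  | succ M hM ih =>
    rw [Finset.sum_Ico_succ_top hM]
    have h1 := W05One_step j M (hN.trans hM) s hs
    have h2 : ∑ n ∈ Ico N M, W05One_f j s ((n : ℝ) + 1) + W05One_f j s ((M : ℝ) + 1) -
        (W05One_F s ((M + 1 : ℕ) : ℝ) j - W05One_F s N j) =
        (∑ n ∈ Ico N M, W05One_f j s ((n : ℝ) + 1) - (W05One_F s M j - W05One_F s N j)) +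
        (W05One_f j s ((M : ℝ) + 1) - (W05One_F s ((M : ℝ) + 1) j - W05One_F s M j)) := by
      push_cast; ring
    rw [h2]
    refine (norm_add_le _ _).trans ((add_le_add ih h1).trans (le_of_eq ?_))
    push_cast
    ring

theorem W05One_term (j : ℕ) (s : ℂ) (n : ℕ) (hn : n ≠ 0) :
    LSeries.term (lp (fun _ => 1) j) s n = W05One_f j s n := by
  rw [LSeries.term_of_ne_zero hn]
  unfold lp W05One_f W05One_E
  rw [one_mul, div_eq_mul_inv, Complex.cpow_def_of_ne_zero (by exact_mod_cast hn), ← Complex.exp_neg]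
  congr 2
  rw [Complex.natCast_log]
  ring

theorem W05One_head (j N : ℕ) (s : ℂ) (hs : 1 < s.re) :
    ‖∑ n ∈ Icc 1 N, W05One_f j s n‖ ≤ Real.log N ^ j * (1 + Real.log N) := by
  rcases Nat.eq_zero_or_pos N with h | h
  · subst h
    simp
  have h1 : ∀ n ∈ Icc 1 N, ‖W05One_f j s n‖ ≤ Real.log N ^ j * ((n : ℝ))⁻¹ := by
    intro n hn
    obtain ⟨hn1, hn2⟩ := Finset.mem_Icc.1 hn
    have hn1' : (1 : ℝ) ≤ n := by exact_mod_cast hn1
    have hn2' : (n : ℝ) ≤ N := by exact_mod_cast hn2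
    unfold W05One_f
    rw [norm_mul, norm_pow, Complex.norm_real, Real.norm_eq_abs, abs_of_nonneg (Real.log_nonneg hn1')]
    apply mul_le_mul _ (W05One_E_norm_le s hs.le n hn1') (norm_nonneg _)
    · exact pow_nonneg (Real.log_nonneg (hn1'.trans hn2')) _
    · exact pow_le_pow_left₀ (Real.log_nonneg hn1') (Real.log_le_log (by linarith) hn2') _
  refine (norm_sum_le _ _).trans ((Finset.sum_le_sum h1).trans ?_)
  rw [← Finset.mul_sum]
  have hlN : 0 ≤ Real.log N := Real.log_nonneg (by exact_mod_cast h)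
  apply mul_le_mul_of_nonneg_left _ (pow_nonneg hlN _)
  have h2 := harmonic_le_one_add_log N
  rw [harmonic_eq_sum_Icc] at h2
  push_cast at h2
  exact h2

/-- Proof. `N = ⌈2+|t|⌉`, `ℓ = log N`, `f(y) = (log y)^j y^{-s}`. Terms `n ≤ N`: `≤ ℓ^j(1+ℓ)`. For
`n > N`: `‖f(n) - ∫_{n-1}^n f‖ ≤ ∫_{n-1}^n |f'|`, so `∑_{n>N} f(n) = ∫_N^∞ f + O(∫_N^∞ |f'|)` with
`∫_N^∞ |f'| ≤ C_j (|s|+1) ℓ^j/N ≤ C ℓ^j`, and `I_j = ∫_N^∞ (log y)^j y^{-s} dy` satisfies
`I_j = N^{1-s} ℓ^j/(s-1) + (j/(s-1)) I_{j-1}`, so `|I_j| ≤ C_j ∑_{i=1}^{j+1} ℓ^(j+1-i)/|s-1|^i ≤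
C_j (ℓ^(j+1) + |s-1|^(-(j+1)))`. (Alternative: `ζ = s/(s-1) - s∫{y}y^{-s-1}dy` and Cauchy estimates
give weaker but also the `ζ` side via `LSeries_iteratedDeriv`; any proof is fine.) -/
theorem lp_one (j : ℕ) : ∃ C : ℝ, 1 ≤ C ∧ ∀ s : ℂ, 1 < s.re → s.re ≤ 2 →
    ‖LSeries (lp (fun _ => 1) j) s‖ ≤
      C * (Real.log (2 + |s.im|) ^ (j + 1) + 1 / ‖s - 1‖ ^ (j + 1)) := by
  refine ⟨2 ^ (j + 2) + (Nat.factorial (j + 1) : ℝ) * 2 ^ (j + 1) + (j + 1) * 2 ^ (j + 3) * 2 *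
    (4 * j + 4) ^ j, ?_, ?_⟩
  · have h1 : (1 : ℝ) ≤ 2 ^ (j + 2) := one_le_pow₀ (by norm_num)
    have h2 : (0 : ℝ) ≤ (Nat.factorial (j + 1) : ℝ) * 2 ^ (j + 1) + (j + 1) * 2 ^ (j + 3) * 2 *
      (4 * j + 4) ^ j := by positivity
    linarith
  intro s hs hs2
  have hne : s ≠ 1 := by rintro rfl; simp at hs
  have hs1 : 0 < ‖s - 1‖ := norm_pos_iff.2 (sub_ne_zero.2 hne)
  set T : ℝ := 2 + |s.im| with hT
  have hT2 : 2 ≤ T := by rw [hT]; linarith [abs_nonneg s.im]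
  set lam : ℝ := Real.log T with hlam
  have hlam0 : 1 / 2 ≤ lam := by
    have h1 := Real.log_two_gt_d9
    have h2 : Real.log 2 ≤ Real.log T := Real.log_le_log (by norm_num) hT2
    rw [hlam]; linarith
  set N : ℕ := ⌈T⌉₊ with hN
  have hNT : T ≤ N := Nat.le_ceil T
  have hNT2 : (N : ℝ) < T + 1 := Nat.ceil_lt_add_one (by linarith)
  have hN1 : 1 ≤ N := by
    have : (1 : ℝ) ≤ N := by linarith
    exact_mod_cast this
  have hN1' : (1 : ℝ) ≤ N := by exact_mod_cast hN1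
  set l : ℝ := Real.log N with hl
  have hl0 : 0 ≤ l := Real.log_nonneg hN1'
  have hl2 : l ≤ 2 * lam := by
    rw [hl, hlam, ← Real.log_rpow (by linarith)]
    apply Real.log_le_log (by linarith)
    have : T ^ (2 : ℝ) = T ^ 2 := by norm_cast
    rw [this]
    nlinarith
  -- constants
  have hj0 : (0 : ℝ) ≤ j := Nat.cast_nonneg _
  set K : ℝ := (j + ‖s‖) * 2 ^ (j + 3) with hK
  have hK0 : 0 ≤ K := by rw [hK]; positivity
  have hsN : ‖s‖ ≤ N := by
    have h1 : ‖s‖ ≤ |s.re| + |s.im| := Complex.norm_le_abs_re_add_abs_im s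
    rw [abs_of_pos (by linarith)] at h1
    rw [hT] at hNT
    linarith
  have hKh : K * W05One_h j N ≤ (j + 1) * 2 ^ (j + 3) * 2 * (4 * j + 4) ^ j * lam ^ (j + 1) := by
    rw [hK]
    unfold W05One_h
    have h1 : (j : ℝ) + ‖s‖ ≤ (j + 1) * N := by nlinarith
    have h2 : ((2 * j + 1) + Real.log N) ^ j ≤ (4 * j + 4) ^ j * lam ^ j := by
      rw [← mul_pow]
      apply pow_le_pow_left₀ (by positivity)
      rw [← hl]
      nlinarith
    have h3 : (0 : ℝ) ≤ ((2 * j + 1) + Real.log N) ^ j := by positivity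
    calc (j + ‖s‖) * 2 ^ (j + 3) * (((2 * j + 1) + Real.log N) ^ j / N)
        ≤ ((j + 1) * N) * 2 ^ (j + 3) * (((4 * j + 4) ^ j * lam ^ j) / N) := by
          apply mul_le_mul _ _ (by positivity) (by positivity)
          · exact mul_le_mul_of_nonneg_right h1 (by positivity)
          · exact div_le_div_of_nonneg_right h2 (by positivity)
      _ = (j + 1) * 2 ^ (j + 3) * (4 * j + 4) ^ j * lam ^ j * 1 := by
          field_simp
      _ ≤ (j + 1) * 2 ^ (j + 3) * (4 * j + 4) ^ j * lam ^ j * (2 * lam) := by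
          apply mul_le_mul_of_nonneg_left _ (by positivity)
          linarith
      _ = _ := by ring
  have hhead : l ^ j * (1 + l) ≤ 2 ^ (j + 2) * lam ^ (j + 1) := by
    calc l ^ j * (1 + l) ≤ (2 * lam) ^ j * (4 * lam) := by
          apply mul_le_mul (pow_le_pow_left₀ hl0 hl2 _) (by linarith) (by linarith) (by positivity)
      _ = _ := by rw [mul_pow]; ring
  have hF : ‖W05One_F s N j‖ ≤ (Nat.factorial (j + 1) : ℝ) * (2 ^ (j + 1) *
      (lam ^ (j + 1) + 1 / ‖s - 1‖ ^ (j + 1))) := by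
    set M : ℝ := max (2 * lam) (1 / ‖s - 1‖) with hM
    have h1 := W05One_F_norm s hne N hN1' M (hl2.trans (le_max_left _ _)) (le_max_right _ _) j
    have h2 : Real.exp (-(s.re - 1) * Real.log N) ≤ 1 := by
      rw [Real.exp_le_one_iff]
      have : 0 ≤ (s.re - 1) * Real.log N := mul_nonneg (by linarith) hl0
      linarith
    have h3 : M ^ (j + 1) ≤ 2 ^ (j + 1) * (lam ^ (j + 1) + 1 / ‖s - 1‖ ^ (j + 1)) := by
      rcases le_total (2 * lam) (1 / ‖s - 1‖) with h | h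
      · rw [hM, max_eq_right h, div_pow, one_pow]
        have h4 : (1 : ℝ) ≤ 2 ^ (j + 1) := one_le_pow₀ (by norm_num)
        have h5 : (0 : ℝ) ≤ lam ^ (j + 1) := by positivity
        have h6 : (0 : ℝ) ≤ 1 / ‖s - 1‖ ^ (j + 1) := by positivity
        nlinarith
      · rw [hM, max_eq_left h, mul_pow]
        apply mul_le_mul_of_nonneg_left _ (by positivity)
        have h6 : (0 : ℝ) ≤ 1 / ‖s - 1‖ ^ (j + 1) := by positivity
        linarith
    have hM0 : 0 ≤ M := le_trans (by positivity) (le_max_left _ _)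
    calc ‖W05One_F s N j‖ ≤ _ := h1
      _ ≤ (Nat.factorial (j + 1) : ℝ) * M ^ (j + 1) * 1 :=
          mul_le_mul_of_nonneg_left h2 (by positivity)
      _ ≤ _ := by rw [mul_one]; exact mul_le_mul_of_nonneg_left h3 (by positivity)
  have hRHS0 : 0 ≤ lam ^ (j + 1) + 1 / ‖s - 1‖ ^ (j + 1) := by positivity
  have htotal : l ^ j * (1 + l) + ‖W05One_F s N j‖ + K * W05One_h j N ≤
      (2 ^ (j + 2) + (Nat.factorial (j + 1) : ℝ) * 2 ^ (j + 1) + (j + 1) * 2 ^ (j + 3) * 2 *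
      (4 * j + 4) ^ j) * (lam ^ (j + 1) + 1 / ‖s - 1‖ ^ (j + 1)) := by
    have hB0 : 0 ≤ 1 / ‖s - 1‖ ^ (j + 1) := by positivity
    have h1 : (0 : ℝ) ≤ 2 ^ (j + 2) * (1 / ‖s - 1‖ ^ (j + 1)) := by positivity
    have h2 : (0 : ℝ) ≤ (j + 1) * 2 ^ (j + 3) * 2 * (4 * j + 4) ^ j * (1 / ‖s - 1‖ ^ (j + 1)) := by
      positivity
    calc l ^ j * (1 + l) + ‖W05One_F s N j‖ + K * W05One_h j N ≤
        2 ^ (j + 2) * lam ^ (j + 1) + (Nat.factorial (j + 1) : ℝ) * (2 ^ (j + 1) *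
        (lam ^ (j + 1) + 1 / ‖s - 1‖ ^ (j + 1))) +
        (j + 1) * 2 ^ (j + 3) * 2 * (4 * j + 4) ^ j * lam ^ (j + 1) :=
          add_le_add (add_le_add hhead hF) hKh
      _ ≤ 2 ^ (j + 2) * lam ^ (j + 1) + (Nat.factorial (j + 1) : ℝ) * (2 ^ (j + 1) *
        (lam ^ (j + 1) + 1 / ‖s - 1‖ ^ (j + 1))) +
        (j + 1) * 2 ^ (j + 3) * 2 * (4 * j + 4) ^ j * lam ^ (j + 1) +
        (2 ^ (j + 2) * (1 / ‖s - 1‖ ^ (j + 1)) +
        (j + 1) * 2 ^ (j + 3) * 2 * (4 * j + 4) ^ j * (1 / ‖s - 1‖ ^ (j + 1))) := by linarith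
      _ = _ := by ring
  refine le_trans ?_ htotal
  by_cases hsum : LSeriesSummable (lp (fun _ => 1) j) s
  · have h1 : Filter.Tendsto (fun M : ℕ => ∑ n ∈ range (M + 1),
        LSeries.term (lp (fun _ => 1) j) s n) Filter.atTop
        (nhds (LSeries (lp (fun _ => 1) j) s)) :=
      (hsum.hasSum.tendsto_sum_nat).comp (Filter.tendsto_add_atTop_nat 1)
    have h2 := h1.norm
    have h3 : Filter.Tendsto (fun M : ℕ => l ^ j * (1 + l) + (‖W05One_F s (M : ℝ) j‖ +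
        ‖W05One_F s N j‖) + K * W05One_h j N) Filter.atTop
        (nhds (l ^ j * (1 + l) + (‖(0 : ℂ)‖ + ‖W05One_F s N j‖) + K * W05One_h j N)) := by
      exact ((((W05One_F_tendsto s hs j).norm).add_const _).const_add _).add_const _
    rw [norm_zero, zero_add] at h3
    refine le_of_tendsto_of_tendsto h2 h3 ?_
    filter_upwards [Filter.eventually_ge_atTop N] with M hM
    have h4 : ∑ n ∈ range (M + 1), LSeries.term (lp (fun _ => 1) j) s n =
        ∑ n ∈ Icc 1 N, W05One_f j s n + ∑ n ∈ Ico N M, W05One_f j s ((n : ℝ) + 1) := by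
      have h5 : ∑ n ∈ Ico N M, W05One_f j s ((n : ℝ) + 1) = ∑ n ∈ Ico (N + 1) (M + 1),
          W05One_f j s (n : ℝ) := by
        rw [← Finset.sum_Ico_add' (fun n : ℕ => W05One_f j s (n : ℝ)) N M 1]
        refine Finset.sum_congr rfl fun n _ => ?_
        push_cast; rfl
      have h6 : Icc 1 N = Ico 1 (N + 1) := by ext x; simp
      rw [h5, h6, Finset.sum_Ico_consecutive _ (by omega) (by omega), Finset.range_eq_Ico,
        Finset.sum_eq_sum_Ico_succ_bot (by omega)]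
      rw [LSeries.term_zero, zero_add]
      refine Finset.sum_congr rfl fun n hn => ?_
      exact W05One_term j s n (by have := (Finset.mem_Ico.1 hn).1; omega)
    rw [h4]
    have h7 := W05One_partial j N hN1 s hs M hM
    have h8 := W05One_head j N s hs
    have hM1 : (1 : ℝ) ≤ M := by
      have : (N : ℝ) ≤ M := by exact_mod_cast hM
      linarith
    have h9 : K * (W05One_h j N - W05One_h j M) ≤ K * W05One_h j N := by
      apply mul_le_mul_of_nonneg_left _ hK0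
      linarith [W05One_h_nonneg j M hM1]
    have h10 : ‖∑ n ∈ Ico N M, W05One_f j s ((n : ℝ) + 1)‖ ≤
        (‖W05One_F s (M : ℝ) j‖ + ‖W05One_F s N j‖) + K * W05One_h j N := by
      have h11 : ∑ n ∈ Ico N M, W05One_f j s ((n : ℝ) + 1) =
          (∑ n ∈ Ico N M, W05One_f j s ((n : ℝ) + 1) - (W05One_F s M j - W05One_F s N j)) +
          (W05One_F s M j - W05One_F s N j) := by ring
      rw [h11]
      refine (norm_add_le _ _).trans ?_
      have h12 := norm_sub_le (W05One_F s M j) (W05One_F s N j)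
      linarith
    refine (norm_add_le _ _).trans ?_
    linarith
  · have h1 : LSeries (lp (fun _ => 1) j) s = 0 := tsum_eq_zero_of_not_summable hsum
    rw [h1, norm_zero]
    have := W05One_h_nonneg j N hN1'
    positivity

end Pool.Agent.Lib.MP_d9bc60_nt.UV
end

section
/-! Row W21 (about 150 lines): `-ζ'/ζ - ζ` is smooth near `[1,2] × [-1,1]`. -/

set_option autoImplicit false

namespace Pool.Agent.Lib.MP_d9bc60_nt.UV

open Finset

/-- `(s-1) ζ(s)`, extended by `1` at `1`. -/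
noncomputable def w21Z : ℂ → ℂ := Function.update (fun s => (s - 1) * riemannZeta s) 1 1

theorem w21Z_one : w21Z 1 = 1 := by simp [w21Z]

theorem w21Z_ne {s : ℂ} (hs : s ≠ 1) : w21Z s = (s - 1) * riemannZeta s := by
  simp [w21Z, Function.update_of_ne hs]

theorem w21Z_diff : Differentiable ℂ w21Z := by
  rw [← differentiableOn_univ,
    ← Complex.differentiableOn_compl_singleton_and_continuousAt_iff (c := 1) Filter.univ_mem]
  refine ⟨DifferentiableOn.congr (f := fun s ↦ (s - 1) * riemannZeta s) ?_ ?_,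
    continuousWithinAt_compl_self.mp ?_⟩
  · intro z hz
    have hz1 : z ≠ 1 := by simpa using hz
    exact ((differentiableAt_id.sub_const 1).mul (differentiableAt_riemannZeta hz1)).differentiableWithinAt
  · intro z hz
    exact w21Z_ne (by simpa using hz)
  · simp only [w21Z, continuousWithinAt_update_same]
    simpa [w21Z] using riemannZeta_residue_one

theorem w21Z_ne_zero {s : ℂ} (hs : 1 ≤ s.re) : w21Z s ≠ 0 := by
  by_cases h : s = 1
  · rw [h, w21Z_one]; exact one_ne_zero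
  · rw [w21Z_ne h]
    exact mul_ne_zero (sub_ne_zero.mpr h) (riemannZeta_ne_zero_of_one_le_re hs)

/-- `-Z'/Z - dslope Z 1`. -/
noncomputable def w21H : ℂ → ℂ := fun s => -deriv w21Z s / w21Z s - dslope w21Z 1 s

theorem w21H_analytic : AnalyticOnNhd ℂ w21H {s | w21Z s ≠ 0} := by
  have hZ : AnalyticOnNhd ℂ w21Z Set.univ := by
    intro z _
    exact (w21Z_diff.differentiableOn (s := Set.univ)).analyticAt Filter.univ_mem
  have hD : AnalyticOnNhd ℂ (dslope w21Z 1) Set.univ := by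
    intro z _
    have h1 : DifferentiableOn ℂ (dslope w21Z 1) Set.univ :=
      (Complex.differentiableOn_dslope Filter.univ_mem).mpr w21Z_diff.differentiableOn
    exact h1.analyticAt Filter.univ_mem
  intro z hz
  exact ((hZ.deriv z trivial).neg.div (hZ z trivial) hz).sub (hD z trivial)

theorem w21_eq {s : ℂ} (hs : 1 < s.re) : LSeries (fun n => (vm n : ℂ) - 1) s = w21H s := by
  have hs1 : s ≠ 1 := by rintro rfl; simp at hs
  have h1 : LSeries (fun n => (vm n : ℂ) - 1) s = LSeries (fun n => (vm n : ℂ)) s - LSeries 1 s :=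
    LSeries_sub (ArithmeticFunction.LSeriesSummable_vonMangoldt hs) (LSeriesSummable_one_iff.mpr hs)
  have h2 : LSeries (fun n => (vm n : ℂ)) s = - deriv riemannZeta s / riemannZeta s :=
    ArithmeticFunction.LSeries_vonMangoldt_eq_deriv_riemannZeta_div hs
  have hz : riemannZeta s ≠ 0 := riemannZeta_ne_zero_of_one_le_re hs.le
  have hd : deriv w21Z s = (s - 1) * deriv riemannZeta s + riemannZeta s := by
    have H : deriv w21Z s = deriv (fun w ↦ (w - 1) * riemannZeta w) s := by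
      apply Filter.EventuallyEq.deriv_eq
      filter_upwards [isOpen_ne.mem_nhds hs1] with w hw
      exact w21Z_ne hw
    rw [H, deriv_fun_mul (by fun_prop) (differentiableAt_riemannZeta hs1), deriv_sub_const,
      deriv_id'', one_mul, add_comm]
  rw [h1, h2, LSeries_one_eq_riemannZeta hs, w21H, hd, dslope_of_ne _ hs1, slope_def_field,
    w21Z_ne hs1, w21Z_one]
  have h3 : s - 1 ≠ 0 := sub_ne_zero.mpr hs1
  field_simp
  ring

theorem w21_iter (a : ℕ → ℂ) (j : ℕ) : (LSeries.logMul^[j] a) = lp a j := by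
  induction j with
  | zero => funext n; simp [lp]
  | succ j ih =>
    rw [Function.iterate_succ_apply', ih]
    funext n
    simp only [LSeries.logMul, lp]
    rw [← Complex.natCast_log]
    ring

/-- Proof. `Z(s) = (s-1)ζ(s)` (extended by `Z(1) = 1`) is entire and nonzero on `Re s ≥ 1`
(`riemannZeta_ne_zero_of_one_le_re`). For `Re s > 1`:
`LSeries (Λ - 1) = -ζ'/ζ - ζ = -Z'/Z - (Z - 1)/(s-1) = -Z'/Z - dslope Z 1`, the right side is
analytic on the open set `{Z ≠ 0}`, which contains the compact set `[1,2] × [-1,1]`, so its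
`k`-th derivative is bounded there (continuity of `iteratedDeriv`); and
`LSeries (lp u k) = (-1)^k (LSeries u)^{(k)}` on `Re s > 1` (`LSeries_iteratedDeriv`). Mathlib has
`DirichletCharacter.LFunctionTrivChar₁` (level `1` gives `Z`) and its differentiability. -/
theorem soft_zeta (k : ℕ) : ∃ C : ℝ, 1 ≤ C ∧ ∀ s : ℂ, 1 < s.re → s.re ≤ 2 → |s.im| ≤ 1 →
    ‖LSeries (lp (fun n => (vm n : ℂ) - 1) k) s‖ ≤ C := by
  have hcomp : IsCompact (Set.Icc (1 : ℝ) 2 ×ℂ Set.Icc (-1 : ℝ) 1) := isCompact_Icc.reProdIm isCompact_Icc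
  have hsub : (Set.Icc (1 : ℝ) 2 ×ℂ Set.Icc (-1 : ℝ) 1) ⊆ {s | w21Z s ≠ 0} := by
    intro z hz
    exact w21Z_ne_zero hz.1.1
  have hcont : ContinuousOn (iteratedDeriv k w21H) (Set.Icc (1 : ℝ) 2 ×ℂ Set.Icc (-1 : ℝ) 1) := by
    have h := (w21H_analytic.iterated_deriv k).continuousOn
    rw [← iteratedDeriv_eq_iterate] at h
    exact h.mono hsub
  obtain ⟨C, hC⟩ := hcomp.exists_bound_of_continuousOn hcont
  refine ⟨max C 1, le_max_right _ _, ?_⟩
  intro s hs1 hs2 hs3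
  have hmem : s ∈ (Set.Icc (1 : ℝ) 2 ×ℂ Set.Icc (-1 : ℝ) 1) :=
    ⟨⟨hs1.le, hs2⟩, abs_le.mp hs3⟩
  have h1 := hC s hmem
  have habs : LSeries.abscissaOfAbsConv (fun n => (vm n : ℂ) - 1) < s.re := by
    refine lt_of_le_of_lt (b := ((1 : ℝ) : EReal)) ?_ (by exact_mod_cast hs1)
    apply LSeries.abscissaOfAbsConv_le_of_forall_lt_LSeriesSummable
    intro y hy
    have hy' : 1 < ((y : ℂ)).re := by simpa using hy
    exact (ArithmeticFunction.LSeriesSummable_vonMangoldt hy').sub (LSeriesSummable_one_iff.mpr hy')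
  have h2 := LSeries_iteratedDeriv k habs
  have h3 : LSeries.logMul^[k] (fun n => (vm n : ℂ) - 1) = lp (fun n => (vm n : ℂ) - 1) k :=
    w21_iter _ k
  have h4 : iteratedDeriv k (LSeries (fun n => (vm n : ℂ) - 1)) s = iteratedDeriv k w21H s := by
    apply Filter.EventuallyEq.iteratedDeriv_eq
    have hopen : IsOpen {z : ℂ | 1 < z.re} := isOpen_lt continuous_const Complex.continuous_re
    filter_upwards [hopen.mem_nhds hs1] with z hz
    exact w21_eq hz
  rw [h3, h4] at h2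
  have h5 : ‖LSeries (lp (fun n => (vm n : ℂ) - 1) k) s‖ = ‖iteratedDeriv k w21H s‖ := by
    rw [h2, norm_mul, norm_pow, norm_neg, norm_one, one_pow, one_mul]
  rw [h5]
  exact h1.trans (le_max_left _ _)

end Pool.Agent.Lib.MP_d9bc60_nt.UV
end
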