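import Pool.Agent.Lib.MP_d9bc60_nt.UV.PLBa
import Pool.Agent.Lib.MP_d9bc60_nt.UV.PZeta

section
/-! Row W07 (about 110 lines): upper bounds for `L^{(j)}(s, χ)` on `1 < Re s ≤ 2`. -/

set_option autoImplicit false

namespace Pool.Agent.Lib.MP_d9bc60_nt.UV

open Finset

/-- The coefficients of `L(s, χ)`. -/
noncomputable def ch {q : ℕ} (χ : DirichletCharacter ℂ q) : ℕ → ℂ := fun n => χ (n : ZMod q)

theorem w07_log (k : ℕ) (ε : ℝ) (hε : 0 < ε) : ∃ K : ℝ, 1 ≤ K ∧ ∀ y : ℝ, 1 ≤ y →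
    Real.log y ^ k ≤ K * y ^ ε := by
  rcases Nat.eq_zero_or_pos k with rfl | hk
  · refine ⟨1, le_refl _, fun y hy => ?_⟩
    rw [pow_zero, one_mul]
    exact Real.one_le_rpow hy hε.le
  set δ : ℝ := ε / k with hδ
  have hk' : (0 : ℝ) < k := by exact_mod_cast hk
  have hδ0 : 0 < δ := by positivity
  refine ⟨1 + (1 / δ) ^ k, by
    have : 0 ≤ (1 / δ) ^ k := by positivity
    linarith, fun y hy => ?_⟩
  have hy0 : 0 ≤ y := by linarith
  have h1 : Real.log y ≤ y ^ δ / δ := Real.log_le_rpow_div hy0 hδ0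
  have h2 : 0 ≤ Real.log y := Real.log_nonneg hy
  have h3 : Real.log y ^ k ≤ (y ^ δ / δ) ^ k := pow_le_pow_left₀ h2 h1 k
  have h4 : (y ^ δ / δ) ^ k = (1 / δ) ^ k * y ^ ε := by
    rw [div_eq_mul_one_div, mul_pow, ← Real.rpow_natCast (y ^ δ) k, ← Real.rpow_mul hy0]
    have h6 : δ * (k : ℝ) = ε := by
      rw [hδ, div_mul_cancel₀ _ hk'.ne']
    rw [h6, mul_comm]
  have h5 : 0 ≤ y ^ ε := Real.rpow_nonneg hy0 _
  rw [h4] at h3
  nlinarith

theorem w07_summable (a : ℕ → ℂ) (ha : ∀ n, ‖a n‖ ≤ 2) (j : ℕ) (s : ℂ) (hs : 1 < s.re) :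
    LSeriesSummable (lp a j) s := by
  obtain ⟨K, hK1, hK⟩ := w07_log j ((s.re - 1) / 2) (by linarith)
  refine LSeriesSummable_of_le_const_mul_rpow (x := (s.re + 1) / 2) (by linarith)
    ⟨2 * K, fun n hn => ?_⟩
  have hn1 : (1 : ℝ) ≤ n := by exact_mod_cast Nat.one_le_iff_ne_zero.mpr hn
  have h1 := hK n hn1
  have h2 : (s.re + 1) / 2 - 1 = (s.re - 1) / 2 := by ring
  rw [h2]
  unfold lp
  rw [norm_mul, norm_pow, Complex.norm_real, Real.norm_of_nonneg (Real.log_nonneg hn1)]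
  have h3 : 0 ≤ Real.log n ^ j := pow_nonneg (Real.log_nonneg hn1) _
  calc ‖a n‖ * Real.log n ^ j ≤ 2 * Real.log n ^ j := by
        exact mul_le_mul_of_nonneg_right (ha n) h3
    _ ≤ 2 * (K * (n : ℝ) ^ ((s.re - 1) / 2)) := by linarith
    _ = 2 * K * (n : ℝ) ^ ((s.re - 1) / 2) := by ring

/-- Proof. `χ ≠ 1`: `lp_bdd` with `a = ch χ`, `q` replaced by `2q` (`char_sum`). `χ = 1`:
`ch χ = κ + a`, `κ = φ(q)/q ≤ 1`, `‖a‖ ≤ 2`, partial sums `≤ 2q`; `lp_bdd` for `a`, `lp_one` for `1`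
(`LSeries_add`, summability for `Re s > 1`). Finally `(log y)^(j+1) ≤ C y^ε`, and
`log(2+|t|) ≤ log(2q(2+|t|))`. -/
theorem L_upper (j : ℕ) (ε : ℝ) (hε : 0 < ε) : ∃ C : ℝ, 1 ≤ C ∧
    ∀ (q : ℕ) [NeZero q] (χ : DirichletCharacter ℂ q) (s : ℂ), 1 < s.re → s.re ≤ 2 →
    ‖LSeries (lp (ch χ) j) s‖ ≤ C * ((q : ℝ) * (2 + |s.im|)) ^ ε *
      (1 + if χ = 1 then 1 / ‖s - 1‖ ^ (j + 1) else 0) := by
  obtain ⟨C₁, hC₁, h1⟩ := lp_bdd j
  obtain ⟨C₂, hC₂, h2⟩ := lp_one j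
  obtain ⟨K, hK1, hK⟩ := w07_log (j + 1) ε hε
  have h2ε : (0 : ℝ) < (2 : ℝ) ^ ε := Real.rpow_pos_of_pos (by norm_num) _
  refine ⟨C₁ * (K * 2 ^ ε) + C₂ * K + C₂, ?_, ?_⟩
  · have : 0 ≤ C₁ * (K * 2 ^ ε) := by positivity
    have : 0 ≤ C₂ * K := by positivity
    linarith
  intro q _ χ s hs1 hs2
  have hq1 : (1 : ℝ) ≤ q := by exact_mod_cast Nat.one_le_iff_ne_zero.mpr (NeZero.ne q)
  have hq0 : (0 : ℝ) < q := by linarith
  have ht : (2 : ℝ) ≤ 2 + |s.im| := by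
    have := abs_nonneg s.im
    linarith
  set y : ℝ := (q : ℝ) * (2 + |s.im|) with hy
  have hy1 : 1 ≤ y := by nlinarith
  have hyε : 1 ≤ y ^ ε := Real.one_le_rpow hy1 hε.le
  have hy2 : (2 * (q : ℝ)) * (2 + |s.im|) = 2 * y := by rw [hy]; ring
  have hlog : Real.log ((2 * (q : ℝ)) * (2 + |s.im|)) ^ (j + 1) ≤ K * 2 ^ ε * y ^ ε := by
    rw [hy2]
    refine (hK (2 * y) (by linarith)).trans_eq ?_
    rw [Real.mul_rpow (by norm_num) (by linarith)]
    ring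
  have hlog2 : Real.log (2 + |s.im|) ^ (j + 1) ≤ K * y ^ ε := by
    refine (hK _ (by linarith)).trans ?_
    refine mul_le_mul_of_nonneg_left ?_ (by linarith)
    exact Real.rpow_le_rpow (by linarith) (by rw [hy]; nlinarith) hε.le
  by_cases hχ : χ = 1
  · rw [if_pos hχ]
    set κ : ℂ := (q.totient : ℂ) / q with hκ
    have hκn : ‖κ‖ ≤ 1 := by
      rw [hκ, norm_div, Complex.norm_natCast, Complex.norm_natCast]
      rw [div_le_one hq0]
      exact_mod_cast Nat.totient_le q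
    set a : ℕ → ℂ := fun n => χ (n : ZMod q) - κ with ha
    have han : ∀ n, ‖a n‖ ≤ 2 := by
      intro n
      have h3 : ‖χ (n : ZMod q)‖ ≤ 1 := χ.norm_le_one _
      calc ‖a n‖ ≤ ‖χ (n : ZMod q)‖ + ‖κ‖ := norm_sub_le _ _
        _ ≤ 2 := by linarith
    have hsum : ∀ N : ℕ, ‖∑ n ∈ Icc 1 N, a n‖ ≤ 2 * (q : ℝ) := by
      intro N
      have h3 := char_sum q χ N
      rw [if_pos hχ] at h3
      have h4 : ∑ n ∈ Icc 1 N, a n = ∑ n ∈ Icc 1 N, χ (n : ZMod q) - κ * N := by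
        rw [ha, Finset.sum_sub_distrib, Finset.sum_const, Nat.card_Icc]
        simp only [add_tsub_cancel_right, nsmul_eq_mul]
        ring
      rw [h4]
      exact h3
    have h3 := h1 a (2 * q) (by linarith) han hsum s hs1 hs2
    have h4 := h2 s hs1 hs2
    have h5 : lp (ch χ) j = lp a j + κ • lp (fun _ => 1) j := by
      funext n
      simp only [lp, ch, ha, Pi.add_apply, Pi.smul_apply, smul_eq_mul]
      ring
    have h6 : LSeries (lp (ch χ) j) s = LSeries (lp a j) s + κ * LSeries (lp (fun _ => 1) j) s := by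
      rw [h5, LSeries_add (w07_summable a han j s hs1)
        ((w07_summable (fun _ => 1) (fun _ => by simp) j s hs1).smul κ), LSeries_smul]
    rw [h6]
    set z : ℝ := 1 / ‖s - 1‖ ^ (j + 1) with hz
    have hz0 : 0 ≤ z := by positivity
    have h7 : ‖LSeries (lp a j) s‖ ≤ C₁ * (K * 2 ^ ε) * y ^ ε := by
      refine h3.trans ?_
      calc C₁ * Real.log ((2 * (q : ℝ)) * (2 + |s.im|)) ^ (j + 1) ≤ C₁ * (K * 2 ^ ε * y ^ ε) :=
            mul_le_mul_of_nonneg_left hlog (by linarith)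
        _ = C₁ * (K * 2 ^ ε) * y ^ ε := by ring
    have h8 : ‖κ * LSeries (lp (fun _ => 1) j) s‖ ≤ C₂ * (K * y ^ ε + z) := by
      rw [norm_mul]
      calc ‖κ‖ * ‖LSeries (lp (fun _ => 1) j) s‖ ≤ 1 * ‖LSeries (lp (fun _ => 1) j) s‖ :=
            mul_le_mul_of_nonneg_right hκn (norm_nonneg _)
        _ ≤ C₂ * (Real.log (2 + |s.im|) ^ (j + 1) + z) := by rw [one_mul]; exact h4
        _ ≤ C₂ * (K * y ^ ε + z) := by
            refine mul_le_mul_of_nonneg_left ?_ (by linarith)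
            linarith
    have h9 : 0 ≤ C₁ * (K * 2 ^ ε) * y ^ ε * z := by positivity
    have h10 : 0 ≤ C₂ * K * y ^ ε * z := by positivity
    have h11 : C₂ * z ≤ C₂ * y ^ ε * z := by
      have : C₂ ≤ C₂ * y ^ ε := by nlinarith
      exact mul_le_mul_of_nonneg_right this hz0
    have h12 : 0 ≤ C₂ * y ^ ε := by positivity
    calc ‖LSeries (lp a j) s + κ * LSeries (lp (fun _ => 1) j) s‖
        ≤ ‖LSeries (lp a j) s‖ + ‖κ * LSeries (lp (fun _ => 1) j) s‖ := norm_add_le _ _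
      _ ≤ C₁ * (K * 2 ^ ε) * y ^ ε + C₂ * (K * y ^ ε + z) := add_le_add h7 h8
      _ ≤ (C₁ * (K * 2 ^ ε) + C₂ * K + C₂) * y ^ ε * (1 + z) := by nlinarith
  · rw [if_neg hχ]
    have hsum : ∀ N : ℕ, ‖∑ n ∈ Icc 1 N, ch χ n‖ ≤ 2 * (q : ℝ) := by
      intro N
      have h3 := char_sum q χ N
      rw [if_neg hχ, zero_mul, sub_zero] at h3
      exact h3
    have h3 := h1 (ch χ) (2 * q) (by linarith)
      (fun n => (χ.norm_le_one _).trans (by norm_num)) hsum s hs1 hs2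
    refine h3.trans ?_
    rw [add_zero, mul_one]
    calc C₁ * Real.log ((2 * (q : ℝ)) * (2 + |s.im|)) ^ (j + 1) ≤ C₁ * (K * 2 ^ ε * y ^ ε) :=
          mul_le_mul_of_nonneg_left hlog (by linarith)
      _ ≤ (C₁ * (K * 2 ^ ε) + C₂ * K + C₂) * y ^ ε := by
          have : 0 ≤ C₂ * K * y ^ ε := by positivity
          have : 0 ≤ C₂ * y ^ ε := by positivity
          nlinarith

end Pool.Agent.Lib.MP_d9bc60_nt.UV
end

section
/-! Row W08 (about 60 lines): the trivial bounds. -/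

set_option autoImplicit false

namespace Pool.Agent.Lib.MP_d9bc60_nt.UV

open Finset

/-- the trivial bound for a Dirichlet series with coefficients of modulus at most one -/
theorem w08_bound (a : ℕ → ℂ) (ha : ∀ n, ‖a n‖ ≤ 1) (s : ℂ) (hs : 1 < s.re) :
    ‖LSeries a s‖ ≤ 1 + 1 / (s.re - 1) := by
  have hsum : Summable (fun n : ℕ => 1 / (n : ℝ) ^ s.re) := Real.summable_one_div_nat_rpow.2 hs
  have hle : ∀ n : ℕ, ‖LSeries.term a s n‖ ≤ 1 / (n : ℝ) ^ s.re := by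
    intro n
    rw [LSeries.norm_term_eq]
    split_ifs with h
    · positivity
    · exact div_le_div_of_nonneg_right (ha n) (by positivity)
  have hsn : Summable (fun n => ‖LSeries.term a s n‖) :=
    Summable.of_nonneg_of_le (fun n => norm_nonneg _) hle hsum
  have h1 : ‖LSeries a s‖ ≤ ∑' n, ‖LSeries.term a s n‖ := norm_tsum_le_tsum_norm hsn
  have h2 : ∑' n, ‖LSeries.term a s n‖ ≤ ∑' n : ℕ, 1 / (n : ℝ) ^ s.re := hsn.tsum_le_tsum hle hsum
  have h3 : ∑' n : ℕ, 1 / (n : ℝ) ^ s.re = ∑' n : ℕ, 1 / ((n : ℝ) + 1) ^ s.re := by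
    rw [hsum.tsum_eq_zero_add]
    have h4 : (1 : ℝ) / ((0 : ℕ) : ℝ) ^ s.re = 0 := by
      rw [Nat.cast_zero, Real.zero_rpow (by linarith), div_zero]
    rw [h4, zero_add]
    push_cast
    rfl
  have h5 := ZetaAsymptotics.zeta_limit_aux1 hs
  have h6 : 0 ≤ ZetaAsymptotics.termTSum s.re :=
    tsum_nonneg (fun n => ZetaAsymptotics.term_nonneg _ _)
  have h7 : 0 ≤ s.re * ZetaAsymptotics.termTSum s.re := mul_nonneg (by linarith) h6
  linarith

/-- Proof. `‖L(s,χ)‖ ≤ ∑ n^{-σ} ≤ 1 + 1/(σ-1)`. -/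
theorem L_le_triv (q : ℕ) [NeZero q] (χ : DirichletCharacter ℂ q) (s : ℂ) (hs : 1 < s.re) :
    ‖LSeries (ch χ) s‖ ≤ 1 + 1 / (s.re - 1) :=
  w08_bound (ch χ) (fun _ => χ.norm_le_one _) s hs

/-- Proof. `L(s,χ) · LSeries (χ μ) s = 1` (`DirichletCharacter.LSeries.mul_mu_eq_one`) and
`‖LSeries (χμ) s‖ ≤ ∑ n^{-σ} ≤ 1 + 1/(σ-1) = σ/(σ-1)`. -/
theorem L_ge_triv (q : ℕ) [NeZero q] (χ : DirichletCharacter ℂ q) (s : ℂ) (hs : 1 < s.re) :
    (s.re - 1) / s.re ≤ ‖LSeries (ch χ) s‖ := by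
  have h1 : LSeries (ch χ) s * LSeries ((fun n : ℕ => χ (n : ZMod q)) *
      fun n => ((ArithmeticFunction.moebius n : ℤ) : ℂ)) s = 1 :=
    DirichletCharacter.LSeries.mul_mu_eq_one χ hs
  have h2 : ‖LSeries ((fun n : ℕ => χ (n : ZMod q)) *
      fun n => ((ArithmeticFunction.moebius n : ℤ) : ℂ)) s‖ ≤ 1 + 1 / (s.re - 1) := by
    refine w08_bound _ (fun n => ?_) s hs
    rw [Pi.mul_apply, norm_mul]
    have h3 : ‖χ (n : ZMod q)‖ ≤ 1 := χ.norm_le_one _
    have h4 : ‖((ArithmeticFunction.moebius n : ℤ) : ℂ)‖ ≤ 1 := by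
      rw [Complex.norm_intCast]
      exact_mod_cast ArithmeticFunction.abs_moebius_le_one
    calc ‖χ (n : ZMod q)‖ * ‖((ArithmeticFunction.moebius n : ℤ) : ℂ)‖ ≤ 1 * 1 :=
          mul_le_mul h3 h4 (norm_nonneg _) zero_le_one
      _ = 1 := one_mul _
  have h5 := congrArg norm h1
  rw [norm_mul, norm_one] at h5
  have hσ : 0 < s.re - 1 := by linarith
  have hσ' : 0 < s.re := by linarith
  have h6 : 1 + 1 / (s.re - 1) = s.re / (s.re - 1) := by field_simp; ring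
  rw [h6] at h2
  have h7 : 1 ≤ ‖LSeries (ch χ) s‖ * (s.re / (s.re - 1)) :=
    h5.symm.le.trans (mul_le_mul_of_nonneg_left h2 (norm_nonneg _))
  rw [div_le_iff₀ hσ']
  have h8 : ‖LSeries (ch χ) s‖ * (s.re / (s.re - 1)) * (s.re - 1) = ‖LSeries (ch χ) s‖ * s.re := by
    field_simp
  have h9 := mul_le_mul_of_nonneg_right h7 hσ.le
  rw [h8, one_mul] at h9
  exact h9

end Pool.Agent.Lib.MP_d9bc60_nt.UV
end

section
/-! Row W09 (about 190 lines): the 3-4-1 lower bound. -/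

set_option autoImplicit false

namespace Pool.Agent.Lib.MP_d9bc60_nt.UV

open Finset

theorem w09_lp_zero (a : ℕ → ℂ) : lp a 0 = a := by
  funext n
  simp [lp]

theorem w09_lp_one (a : ℕ → ℂ) : lp a 1 = LSeries.logMul a := by
  funext n
  rw [lp, LSeries.logMul, pow_one, mul_comm, ← Complex.natCast_log]

theorem w09_deriv {q : ℕ} [NeZero q] (χ : DirichletCharacter ℂ q) {s : ℂ} (hs : 1 < s.re) :
    HasDerivAt (LSeries (ch χ)) (-LSeries (lp (ch χ) 1) s) s := by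
  rw [w09_lp_one]
  refine LSeries_hasDerivAt ?_
  have h1 : LSeries.abscissaOfAbsConv (ch χ) = 1 :=
    DirichletCharacter.absicssaOfAbsConv_eq_one (NeZero.ne q) χ
  rw [h1]
  exact_mod_cast hs

/-- mean value inequality on a horizontal segment -/
theorem w09_mvt {q : ℕ} [NeZero q] (χ : DirichletCharacter ℂ q) {σ x t B : ℝ} (hσ : 1 < σ)
    (hx : σ ≤ 1 + x) (hx1 : x ≤ 1)
    (hB : ∀ s : ℂ, 1 < s.re → s.re ≤ 2 → s.im = t → ‖LSeries (lp (ch χ) 1) s‖ ≤ B) :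
    ‖LSeries (ch χ) (1 + x + Complex.I * t)‖ ≤
      ‖LSeries (ch χ) (σ + Complex.I * t)‖ + B * x := by
  have hB0 : 0 ≤ B := (norm_nonneg _).trans (hB (2 + Complex.I * t) (by simp) (by simp)
    (by simp))
  set S : Set ℂ := {z | 1 < z.re ∧ z.re ≤ 2 ∧ z.im = t} with hS
  have hconv : Convex ℝ S := by
    intro z hz w hw a b ha hb hab
    have hre : (a • z + b • w).re = a * z.re + b * w.re := by simp
    have him : (a • z + b • w).im = a * z.im + b * w.im := by simp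
    obtain ⟨h1, h2, h3⟩ := hz
    obtain ⟨h4, h5, h6⟩ := hw
    refine ⟨?_, ?_, ?_⟩
    · rw [hre]
      rcases eq_or_lt_of_le ha with h | h
      · rw [← h] at hab ⊢
        have : b = 1 := by linarith
        rw [this]
        linarith
      · nlinarith
    · rw [hre]
      nlinarith
    · rw [him, h3, h6, ← add_mul, hab, one_mul]
  have h1 := Convex.norm_image_sub_le_of_norm_hasDerivWithin_le (f := LSeries (ch χ))
    (f' := fun s => -LSeries (lp (ch χ) 1) s) (C := B) (s := S)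
    (x := (σ + Complex.I * t : ℂ)) (y := (1 + x + Complex.I * t : ℂ))
    (fun s hs => (w09_deriv χ hs.1).hasDerivWithinAt)
    (fun s hs => by
      rw [norm_neg]
      exact hB s hs.1 hs.2.1 hs.2.2) hconv
    (by
      refine ⟨?_, ?_, ?_⟩
      · simpa using hσ
      · simp
        linarith
      · simp)
    (by
      refine ⟨?_, ?_, ?_⟩
      · simp
        linarith
      · simp
        linarith
      · simp)
  have h2 : ‖(1 + x + Complex.I * t : ℂ) - (σ + Complex.I * t : ℂ)‖ ≤ x := by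
    have h3 : (1 + x + Complex.I * t : ℂ) - (σ + Complex.I * t : ℂ) = ((1 + x - σ : ℝ) : ℂ) := by
      push_cast
      ring
    rw [h3, Complex.norm_real, Real.norm_eq_abs, abs_of_nonneg (by linarith)]
    linarith
  have h4 := norm_sub_norm_le (LSeries (ch χ) (1 + x + Complex.I * t))
    (LSeries (ch χ) (σ + Complex.I * t))
  have h5 := mul_le_mul_of_nonneg_left h2 hB0
  linarith

theorem w09_real {l x B : ℝ} (hl : 0 ≤ l) (hB : 1 ≤ B) (hx : x = (2 : ℝ)⁻¹ ^ 12 * B⁻¹ ^ 5)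
    (h : 1 ≤ (2 / x) ^ 3 * l ^ 4 * B) : (2 : ℝ)⁻¹ ^ 10 * B⁻¹ ^ 4 ≤ l := by
  have hB0 : 0 < B := by linarith
  by_contra hlt
  push Not at hlt
  have h1 : l ^ 4 < ((2 : ℝ)⁻¹ ^ 10 * B⁻¹ ^ 4) ^ 4 := pow_lt_pow_left₀ hlt hl (by norm_num)
  have hx0 : 0 < x := by rw [hx]; positivity
  have h2 : (2 / x) ^ 3 * l ^ 4 * B < (2 / x) ^ 3 * ((2 : ℝ)⁻¹ ^ 10 * B⁻¹ ^ 4) ^ 4 * B := by
    have : 0 < (2 / x) ^ 3 := by positivity
    exact mul_lt_mul_of_pos_right (mul_lt_mul_of_pos_left h1 this) hB0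
  have h3 : (2 / x) ^ 3 * ((2 : ℝ)⁻¹ ^ 10 * B⁻¹ ^ 4) ^ 4 * B = 1 / 2 := by
    have hBB : B * B⁻¹ = 1 := mul_inv_cancel₀ hB0.ne'
    have h2x : 2 / x = 2 ^ 13 * B ^ 5 := by
      rw [hx, div_eq_iff (by positivity)]
      calc (2 : ℝ) = 2 * (B * B⁻¹) ^ 5 := by rw [hBB]; norm_num
        _ = 2 ^ 13 * B ^ 5 * ((2 : ℝ)⁻¹ ^ 12 * B⁻¹ ^ 5) := by ring
    rw [h2x]
    calc ((2 : ℝ) ^ 13 * B ^ 5) ^ 3 * ((2 : ℝ)⁻¹ ^ 10 * B⁻¹ ^ 4) ^ 4 * B =
          ((2 : ℝ) ^ 39 * (2 : ℝ)⁻¹ ^ 40) * (B * B⁻¹) ^ 16 := by ring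
      _ = 1 / 2 := by rw [hBB]; norm_num
  linarith

/-- Proof. `B = C (q(2+|t|))^ε' τ^(-2)`, `C` large, bounds (i) `‖L(σ'+2it, χ²)‖` for all
`σ' ∈ (1,2]` (`L_upper 0`; if `χ² = 1` then `‖σ'+2it-1‖ ≥ 2|t| ≥ 2τ`) and (ii)
`‖L'(σ'+it, χ)‖ = ‖LSeries (lp (ch χ) 1)‖` for all `σ' ∈ (1,2]` (`L_upper 1`; if `χ = 1` then
`χ² = 1`, so `|t| ≥ τ`). For `0 < x ≤ 1`: `DirichletCharacter.norm_LSeries_product_ge_one` and
`L_le_triv` for `L(1+x, 1) ≤ 2/x` give
`‖L(1+x+it, χ)‖ ≥ (x/2)^(3/4) B^(-1/4)`. Let `x₀ = 2^(-12) B^(-5) ≤ 1`. If `σ ≥ 1 + x₀`: `L_ge_triv`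
gives `‖L‖ ≥ x₀/2`. If `σ < 1 + x₀`: `‖L(σ+it) - L(1+x₀+it)‖ ≤ x₀ B` (mean value inequality,
`LSeries_hasDerivAt`), and `x₀ B ≤ ½ (x₀/2)^(3/4) B^(-1/4)`. In both cases
`‖L‖ ≥ c B^(-5)`, so take `ε' = ε/5`. -/
theorem L_lower (ε : ℝ) (hε : 0 < ε) : ∃ c : ℝ, 0 < c ∧
    ∀ (q : ℕ) [NeZero q] (χ : DirichletCharacter ℂ q) (τ : ℝ) (s : ℂ), 0 < τ → τ ≤ 1 →
    1 < s.re → s.re ≤ 2 → (χ ^ 2 ≠ 1 ∨ τ ≤ |s.im|) →
    c * τ ^ 10 * ((q : ℝ) * (2 + |s.im|)) ^ (-ε) ≤ ‖LSeries (ch χ) s‖ := by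
  have hε5 : 0 < ε / 5 := by linarith
  obtain ⟨C0, hC0, hU0⟩ := L_upper 0 (ε / 5) hε5
  obtain ⟨C1, hC1, hU1⟩ := L_upper 1 (ε / 5) hε5
  set K : ℝ := 2 * (2 : ℝ) ^ (ε / 5) * C0 * C1 with hK
  have h2ε : (1 : ℝ) ≤ (2 : ℝ) ^ (ε / 5) := Real.one_le_rpow (by norm_num) hε5.le
  have hK1 : 1 ≤ K := by
    rw [hK]
    have h2 : (1 : ℝ) ≤ 2 * (2 : ℝ) ^ (ε / 5) := by linarith
    exact one_le_mul_of_one_le_of_one_le (one_le_mul_of_one_le_of_one_le h2 hC0) hC1
  have hKa : 2 * (2 : ℝ) ^ (ε / 5) * C0 ≤ K := by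
    rw [hK]
    exact le_mul_of_one_le_right (by positivity) hC1
  have hKb : 2 * C1 ≤ K := by
    rw [hK]
    have h1 : (1 : ℝ) ≤ (2 : ℝ) ^ (ε / 5) * C0 := one_le_mul_of_one_le_of_one_le h2ε hC0
    calc 2 * C1 = 1 * (2 * C1) := by ring
      _ ≤ ((2 : ℝ) ^ (ε / 5) * C0) * (2 * C1) :=
          mul_le_mul_of_nonneg_right h1 (by linarith)
      _ = 2 * (2 : ℝ) ^ (ε / 5) * C0 * C1 := by ring
  refine ⟨(2 : ℝ)⁻¹ ^ 13 * K⁻¹ ^ 5, by positivity, ?_⟩
  intro q _ χ τ s hτ hτ1 hs hs2 hor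
  set t : ℝ := s.im with ht
  set σ : ℝ := s.re with hσ
  have hq1 : (1 : ℝ) ≤ q := by exact_mod_cast NeZero.one_le
  set D : ℝ := (q : ℝ) * (2 + |t|) with hD
  have hD2 : 2 ≤ D := by
    rw [hD]
    have h1 : (2 : ℝ) ≤ 2 + |t| := by linarith [abs_nonneg t]
    exact h1.trans (le_mul_of_one_le_left (by linarith) hq1)
  set E : ℝ := D ^ (ε / 5) with hE
  have hE1 : 1 ≤ E := Real.one_le_rpow (by linarith) hε5.le
  have hE0 : 0 < E := by linarith
  have hτi : 1 ≤ τ⁻¹ := (one_le_inv₀ hτ).mpr hτ1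
  have hτi2 : 1 ≤ τ⁻¹ ^ 2 := one_le_pow₀ hτi
  set B : ℝ := K * E * τ⁻¹ ^ 2 with hB
  have hB1 : 1 ≤ B := by
    rw [hB]
    exact one_le_mul_of_one_le_of_one_le (one_le_mul_of_one_le_of_one_le hK1 hE1) hτi2
  have hB0 : 0 < B := by linarith
  -- the derivative
  have hder : ∀ s' : ℂ, 1 < s'.re → s'.re ≤ 2 → s'.im = t → ‖LSeries (lp (ch χ) 1) s'‖ ≤ B := by
    intro s' h1 h2 h3
    have h4 := hU1 q χ s' h1 h2
    rw [h3] at h4
    have h5 : (1 + if χ = 1 then 1 / ‖s' - 1‖ ^ (1 + 1) else 0 : ℝ) ≤ 2 * τ⁻¹ ^ 2 := by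
      split_ifs with hχ
      · have hτt : τ ≤ |t| := by
          rcases hor with h | h
          · exact absurd (by rw [hχ, one_pow]) h
          · exact h
        have h6 : |t| ≤ ‖s' - 1‖ := by
          have h7 := Complex.abs_im_le_norm (s' - 1)
          rw [Complex.sub_im, Complex.one_im, sub_zero, h3] at h7
          exact h7
        have h8 : 1 / ‖s' - 1‖ ^ (1 + 1) ≤ τ⁻¹ ^ 2 := by
          rw [inv_pow, one_div]
          exact inv_anti₀ (by positivity) (pow_le_pow_left₀ hτ.le (hτt.trans h6) 2)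
        linarith
      · linarith
    calc ‖LSeries (lp (ch χ) 1) s'‖ ≤ C1 * E * (1 + if χ = 1 then 1 / ‖s' - 1‖ ^ (1 + 1) else 0) :=
          h4
      _ ≤ C1 * E * (2 * τ⁻¹ ^ 2) := mul_le_mul_of_nonneg_left h5 (by positivity)
      _ = (2 * C1) * E * τ⁻¹ ^ 2 := by ring
      _ ≤ B := by
          rw [hB]
          exact mul_le_mul_of_nonneg_right (mul_le_mul_of_nonneg_right hKb hE0.le) (by positivity)
  -- the square
  have hsq : ∀ x : ℝ, 0 < x → x ≤ 1 →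
      ‖LSeries (ch (χ ^ 2)) (1 + x + 2 * Complex.I * t)‖ ≤ B := by
    intro x hx hx1
    have hre : (1 + x + 2 * Complex.I * t : ℂ).re = 1 + x := by simp
    have him : (1 + x + 2 * Complex.I * t : ℂ).im = 2 * t := by simp
    have h4 := hU0 q (χ ^ 2) (1 + x + 2 * Complex.I * t) (by rw [hre]; linarith)
      (by rw [hre]; linarith)
    rw [w09_lp_zero, him] at h4
    have h5 : (1 + if χ ^ 2 = 1 then 1 / ‖(1 + x + 2 * Complex.I * t : ℂ) - 1‖ ^ (0 + 1) else 0 : ℝ)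
        ≤ 2 * τ⁻¹ ^ 2 := by
      split_ifs with hχ
      · have hτt : τ ≤ |t| := by
          rcases hor with h | h
          · exact absurd hχ h
          · exact h
        have h6 : |t| ≤ ‖(1 + x + 2 * Complex.I * t : ℂ) - 1‖ := by
          have h7 := Complex.abs_im_le_norm ((1 + x + 2 * Complex.I * t : ℂ) - 1)
          rw [Complex.sub_im, Complex.one_im, sub_zero, him, abs_mul, abs_two] at h7
          linarith [abs_nonneg t]
        have h8 : 1 / ‖(1 + x + 2 * Complex.I * t : ℂ) - 1‖ ^ (0 + 1) ≤ τ⁻¹ := by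
          rw [one_div, zero_add, pow_one]
          exact inv_anti₀ hτ (hτt.trans h6)
        have h9 : τ⁻¹ ≤ τ⁻¹ ^ 2 := le_self_pow₀ hτi (by norm_num)
        linarith
      · linarith
    have h6 : ((q : ℝ) * (2 + |2 * t|)) ^ (ε / 5) ≤ (2 : ℝ) ^ (ε / 5) * E := by
      rw [hE, ← Real.mul_rpow (by norm_num) (by linarith)]
      refine Real.rpow_le_rpow (by positivity) ?_ hε5.le
      rw [hD, abs_mul, abs_two]
      have h9 : (q : ℝ) * (2 + 2 * |t|) ≤ q * (2 * (2 + |t|)) :=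
        mul_le_mul_of_nonneg_left (by linarith [abs_nonneg t]) (by linarith)
      linarith
    calc ‖LSeries (ch (χ ^ 2)) (1 + x + 2 * Complex.I * t)‖ ≤
          C0 * ((q : ℝ) * (2 + |2 * t|)) ^ (ε / 5) *
            (1 + if χ ^ 2 = 1 then 1 / ‖(1 + x + 2 * Complex.I * t : ℂ) - 1‖ ^ (0 + 1) else 0) := h4
      _ ≤ C0 * ((2 : ℝ) ^ (ε / 5) * E) * (2 * τ⁻¹ ^ 2) := by
          refine mul_le_mul (mul_le_mul_of_nonneg_left h6 (by linarith)) h5 ?_ (by positivity)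
          split_ifs
          · positivity
          · norm_num
      _ = (2 * (2 : ℝ) ^ (ε / 5) * C0) * E * τ⁻¹ ^ 2 := by ring
      _ ≤ B := by
          rw [hB]
          exact mul_le_mul_of_nonneg_right (mul_le_mul_of_nonneg_right hKa hE0.le) (by positivity)
  -- choice of x
  set x : ℝ := (2 : ℝ)⁻¹ ^ 12 * B⁻¹ ^ 5 with hx
  have hx0 : 0 < x := by positivity
  have hBi : B⁻¹ ≤ 1 := inv_le_one_of_one_le₀ hB1
  have hBi0 : 0 < B⁻¹ := by positivity
  have hBi5 : B⁻¹ ^ 5 ≤ 1 := pow_le_one₀ hBi0.le hBi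
  have hx1 : x ≤ 1 := by
    rw [hx]
    have : (2 : ℝ)⁻¹ ^ 12 ≤ 1 := by norm_num
    exact mul_le_one₀ this (pow_nonneg hBi0.le 5) hBi5
  have hmain : (2 : ℝ)⁻¹ ^ 13 * B⁻¹ ^ 5 ≤ ‖LSeries (ch χ) s‖ := by
    rcases le_or_gt (1 + x) σ with h | h
    · have h1 := L_ge_triv q χ s hs
      have h2 : x / 2 ≤ (s.re - 1) / s.re := by
        rw [div_le_div_iff₀ (by norm_num) (by linarith)]
        have h9 : x * s.re ≤ (s.re - 1) * s.re :=
          mul_le_mul_of_nonneg_right (by linarith) (by linarith)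
        have h10 : (s.re - 1) * s.re ≤ (s.re - 1) * 2 :=
          mul_le_mul_of_nonneg_left hs2 (by linarith)
        linarith
      have h3 : (2 : ℝ)⁻¹ ^ 13 * B⁻¹ ^ 5 = x / 2 := by
        rw [hx]
        ring
      rw [h3]
      exact h2.trans h1
    · have h1 := w09_mvt χ (σ := σ) (x := x) (t := t) (B := B) hs h.le hx1 hder
      have hseq : (σ + Complex.I * t : ℂ) = s := by
        rw [hσ, ht, mul_comm]
        exact Complex.re_add_im s
      rw [hseq] at h1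
      have h2 := DirichletCharacter.norm_LSeries_product_ge_one χ hx0 t
      rw [norm_mul, norm_mul, norm_pow, norm_pow] at h2
      have h3 : ‖LSeries (ch (1 : DirichletCharacter ℂ q)) (1 + x)‖ ≤ 2 / x := by
        have h4 := L_le_triv q (1 : DirichletCharacter ℂ q) (1 + x) (by simp; exact hx0)
        refine h4.trans ?_
        have h5 : ((1 : ℂ) + x).re - 1 = x := by simp
        rw [h5]
        have h6 : 1 ≤ 1 / x := by
          rw [le_div_iff₀ hx0]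
          linarith
        have h7 : 2 / x = 1 / x + 1 / x := by ring
        rw [h7]
        linarith
      have h4 := hsq x hx0 hx1
      have h5 : 1 ≤ (2 / x) ^ 3 * ‖LSeries (ch χ) (1 + x + Complex.I * t)‖ ^ 4 * B := by
        refine le_trans h2 ?_
        refine mul_le_mul ?_ h4 (norm_nonneg _) (by positivity)
        exact mul_le_mul_of_nonneg_right (pow_le_pow_left₀ (norm_nonneg _) h3 3) (by positivity)
      have h6 := w09_real (norm_nonneg _) hB1 hx h5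
      have h7 : B * x = (2 : ℝ)⁻¹ ^ 12 * B⁻¹ ^ 4 := by
        rw [hx]
        field_simp
      rw [h7] at h1
      have h8 : B⁻¹ ^ 5 ≤ B⁻¹ ^ 4 := pow_le_pow_of_le_one hBi0.le hBi (by norm_num)
      have h9 : (0 : ℝ) < B⁻¹ ^ 4 := by positivity
      have h10 : (2 : ℝ)⁻¹ ^ 13 * B⁻¹ ^ 5 ≤ (2 : ℝ)⁻¹ ^ 13 * B⁻¹ ^ 4 :=
        mul_le_mul_of_nonneg_left h8 (by positivity)
      have h11 : (2 : ℝ)⁻¹ ^ 13 * B⁻¹ ^ 4 + (2 : ℝ)⁻¹ ^ 12 * B⁻¹ ^ 4 ≤
          (2 : ℝ)⁻¹ ^ 10 * B⁻¹ ^ 4 := by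
        rw [← add_mul]
        exact mul_le_mul_of_nonneg_right (by norm_num) h9.le
      linarith
  refine le_trans (le_of_eq ?_) hmain
  have h12 : E ^ 5 = D ^ ε := by
    rw [hE, ← Real.rpow_natCast, ← Real.rpow_mul (by linarith)]
    congr 1
    push_cast
    ring
  have h13 : B⁻¹ ^ 5 = K⁻¹ ^ 5 * τ ^ 10 * D ^ (-ε) := by
    rw [hB, Real.rpow_neg (by linarith), ← h12]
    field_simp
  rw [h13]
  ring

end Pool.Agent.Lib.MP_d9bc60_nt.UV
end

section
/-! Row W19 (about 170 lines): derivatives of the logarithmic derivative, pointwise. -/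

set_option autoImplicit false

namespace Pool.Agent.Lib.MP_d9bc60_nt.UV

open Finset

/-- The coefficients `χ(n) Λ(n)`. -/
noncomputable def chL {q : ℕ} (χ : DirichletCharacter ℂ q) : ℕ → ℂ :=
  fun n => χ (n : ZMod q) * (vm n : ℂ)

theorem w19_iter (a : ℕ → ℂ) (j : ℕ) : (LSeries.logMul^[j] a) = lp a j := by
  induction j with
  | zero => funext n; simp [lp]
  | succ j ih =>
    rw [Function.iterate_succ_apply', ih]
    funext n
    simp only [LSeries.logMul, lp]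
    rw [← Complex.natCast_log]
    ring

theorem w19_abs_chL {q : ℕ} (χ : DirichletCharacter ℂ q) {s : ℂ} (hs : 1 < s.re) :
    LSeries.abscissaOfAbsConv (chL χ) < s.re := by
  refine lt_of_le_of_lt (b := ((1 : ℝ) : EReal)) ?_ (by exact_mod_cast hs)
  apply LSeries.abscissaOfAbsConv_le_of_forall_lt_LSeriesSummable
  intro y hy
  have h := DirichletCharacter.LSeriesSummable_twist_vonMangoldt χ (s := (y : ℂ)) (by simpa using hy)
  exact h

theorem w19_abs_ch {q : ℕ} [NeZero q] (χ : DirichletCharacter ℂ q) {s : ℂ} (hs : 1 < s.re) :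
    LSeries.abscissaOfAbsConv (ch χ) < s.re := by
  refine lt_of_le_of_lt (b := ((1 : ℝ) : EReal)) ?_ (by exact_mod_cast hs)
  apply LSeries.abscissaOfAbsConv_le_of_forall_lt_LSeriesSummable
  intro y hy
  exact (DirichletCharacter.LSeriesSummable_iff (NeZero.ne q) χ).mpr (by simpa using hy)

theorem w19_mul {q : ℕ} [NeZero q] (χ : DirichletCharacter ℂ q) {s : ℂ} (hs : 1 < s.re) :
    LSeries (chL χ) s * LSeries (ch χ) s = LSeries (lp (ch χ) 1) s := by
  have hχ : LSeriesSummable (ch χ) s := (DirichletCharacter.LSeriesSummable_iff (NeZero.ne q) χ).mpr hs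
  have h1 : LSeries (chL χ) s = -deriv (LSeries (ch χ)) s / LSeries (ch χ) s :=
    DirichletCharacter.LSeries_twist_vonMangoldt_eq χ hs
  have h2 : LSeries (ch χ) s ≠ 0 := DirichletCharacter.LSeries_ne_zero_of_one_lt_re χ hs
  rw [eq_div_iff h2] at h1
  have h3 := LSeries_deriv (w19_abs_ch χ hs)
  have h4 := w19_iter (ch χ) 1
  rw [← h4]
  have h5 : LSeries (chL χ) s * LSeries (ch χ) s = -deriv (LSeries (ch χ)) s := h1
  rw [h5, h3, neg_neg]
  rfl

/-- Leibniz. -/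
theorem w19_leib {q : ℕ} [NeZero q] (χ : DirichletCharacter ℂ q) {s : ℂ} (hs : 1 < s.re) (k : ℕ) :
    ∑ i ∈ range (k + 1), (k.choose i : ℂ) * LSeries (lp (chL χ) i) s * LSeries (lp (ch χ) (k - i)) s
      = LSeries (lp (ch χ) (k + 1)) s := by
  have hopen : IsOpen {z : ℂ | 1 < z.re} := isOpen_lt continuous_const Complex.continuous_re
  have hev : (fun z => LSeries (chL χ) z * LSeries (ch χ) z) =ᶠ[nhds s]
      (fun z => LSeries (lp (ch χ) 1) z) := by
    filter_upwards [hopen.mem_nhds hs] with z hz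
    exact w19_mul χ hz
  have h1 := hev.iteratedDeriv_eq k
  have hf : ContDiffAt ℂ k (LSeries (chL χ)) s :=
    ((LSeries_analyticOnNhd (chL χ)) s (w19_abs_chL χ hs)).contDiffAt
  have hg : ContDiffAt ℂ k (LSeries (ch χ)) s :=
    ((LSeries_analyticOnNhd (ch χ)) s (w19_abs_ch χ hs)).contDiffAt
  have h2 : iteratedDeriv k (fun z => LSeries (chL χ) z * LSeries (ch χ) z) s =
      ∑ i ∈ range (k + 1), (k.choose i : ℂ) * iteratedDeriv i (LSeries (chL χ)) s *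
        iteratedDeriv (k - i) (LSeries (ch χ)) s := iteratedDeriv_mul hf hg
  have h3 : iteratedDeriv k (fun z => LSeries (lp (ch χ) 1) z) s =
      (-1) ^ k * LSeries (lp (ch χ) (k + 1)) s := by
    have h4 : LSeries.abscissaOfAbsConv (lp (ch χ) 1) < s.re := by
      rw [← w19_iter, LSeries.absicssaOfAbsConv_logPowMul]
      exact w19_abs_ch χ hs
    have h5 := LSeries_iteratedDeriv k h4
    rw [← w19_iter (ch χ) (k + 1), Function.iterate_succ_apply, ← w19_iter (ch χ) 1] at *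
    exact h5
  rw [h2, h3] at h1
  have h6 : ∀ i ∈ range (k + 1), (k.choose i : ℂ) * iteratedDeriv i (LSeries (chL χ)) s *
        iteratedDeriv (k - i) (LSeries (ch χ)) s = (-1) ^ k * ((k.choose i : ℂ) *
        LSeries (lp (chL χ) i) s * LSeries (lp (ch χ) (k - i)) s) := by
    intro i hi
    rw [mem_range] at hi
    rw [LSeries_iteratedDeriv i (w19_abs_chL χ hs), LSeries_iteratedDeriv (k - i) (w19_abs_ch χ hs),
      w19_iter, w19_iter]
    have h7 : ((-1 : ℂ)) ^ k = (-1) ^ i * (-1) ^ (k - i) := by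
      rw [← pow_add]; congr 1; omega
    rw [h7]
    ring
  rw [sum_congr rfl h6, ← mul_sum] at h1
  exact mul_left_cancel₀ (pow_ne_zero _ (by norm_num)) h1

/-- Proof. On `Re s > 1`: `f = LSeries (chL χ)`, `l = LSeries (ch χ)`, `f · l = -l'`
(`DirichletCharacter.LSeries_twist_vonMangoldt_eq`). Differentiate `k` times (both analytic on the
open half plane; Leibniz `iteratedDeriv_mul` or `iteratedDerivWithin_mul`):
`∑_{i ≤ k} C(k,i) f^{(i)} l^{(k-i)} = -l^{(k+1)}`. Up to sign `f^{(i)} = LSeries (lp (chL χ) i)`,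
`l^{(i)} = LSeries (lp (ch χ) i)` (`LSeries_iteratedDeriv`, `logMul`; note `Complex.log n = Real.log n`
as `Complex.ofReal`). So `‖f^{(k)}‖ ≤ U (U + 2^k U max_{i<k} ‖f^{(i)}‖)` and induction (strong, with the
same `U`) gives `‖f^{(k)}‖ ≤ C_k U^(2k+2)`. (Alternative: the convolution identity
`χ(n)(log n)^(k+1) = ∑_i C(k,i) (χΛ log^i * χ log^(k-i))(n)`.) -/
theorem logder (k : ℕ) : ∃ C : ℝ, 1 ≤ C ∧
    ∀ (q : ℕ) [NeZero q] (χ : DirichletCharacter ℂ q) (s : ℂ) (U : ℝ), 1 ≤ U → 1 < s.re →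
    (∀ j ≤ k + 1, ‖LSeries (lp (ch χ) j) s‖ ≤ U) → 1 / U ≤ ‖LSeries (ch χ) s‖ →
    ‖LSeries (lp (chL χ) k) s‖ ≤ C * U ^ (2 * k + 2) := by
  induction k using Nat.strong_induction_on with
  | _ k ih =>
    choose! c hc1 hc2 using ih
    refine ⟨1 + ∑ i ∈ range k, (k.choose i : ℝ) * c i, ?_, ?_⟩
    · have : 0 ≤ ∑ i ∈ range k, (k.choose i : ℝ) * c i := by
        apply sum_nonneg
        intro i hi
        have := hc1 i (mem_range.mp hi)
        positivity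
      linarith
    · intro q _ χ s U hU hs hup hlo
      have hU0 : 0 < U := by linarith
      have h1 := w19_leib χ hs k
      rw [sum_range_succ, Nat.choose_self, Nat.sub_self] at h1
      have h0 : lp (ch χ) 0 = ch χ := by funext n; simp [lp]
      rw [h0] at h1
      have h2 : LSeries (lp (chL χ) k) s * LSeries (ch χ) s = LSeries (lp (ch χ) (k + 1)) s -
          ∑ i ∈ range k, (k.choose i : ℂ) * LSeries (lp (chL χ) i) s *
            LSeries (lp (ch χ) (k - i)) s := by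
        rw [← h1]; push_cast; ring
      have h3 : ‖LSeries (lp (chL χ) k) s‖ * ‖LSeries (ch χ) s‖ ≤
          U + ∑ i ∈ range k, (k.choose i : ℝ) * (c i * U ^ (2 * i + 2)) * U := by
        rw [← norm_mul, h2]
        refine (norm_sub_le _ _).trans ?_
        refine add_le_add (hup (k + 1) le_rfl) ?_
        refine (norm_sum_le _ _).trans ?_
        apply sum_le_sum
        intro i hi
        rw [mem_range] at hi
        rw [norm_mul, norm_mul, Complex.norm_natCast]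
        have h4 : ‖LSeries (lp (chL χ) i) s‖ ≤ c i * U ^ (2 * i + 2) :=
          hc2 i hi q χ s U hU hs (fun j hj => hup j (by omega)) hlo
        have h5 : ‖LSeries (lp (ch χ) (k - i)) s‖ ≤ U := hup _ (by omega)
        have h6 := hc1 i hi
        gcongr
      have h7 : ‖LSeries (lp (chL χ) k) s‖ ≤ U * (‖LSeries (lp (chL χ) k) s‖ * ‖LSeries (ch χ) s‖) := by
        have h8 : 1 ≤ U * ‖LSeries (ch χ) s‖ := by
          have := mul_le_mul_of_nonneg_left hlo hU0.le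
          rwa [mul_one_div_cancel hU0.ne'] at this
        nlinarith [norm_nonneg (LSeries (lp (chL χ) k) s)]
      have h9 : U * (U + ∑ i ∈ range k, (k.choose i : ℝ) * (c i * U ^ (2 * i + 2)) * U) ≤
          (1 + ∑ i ∈ range k, (k.choose i : ℝ) * c i) * U ^ (2 * k + 2) := by
        rw [mul_add, add_mul, one_mul, mul_sum, sum_mul]
        apply add_le_add
        · calc U * U = U ^ 2 := by ring
            _ ≤ U ^ (2 * k + 2) := pow_le_pow_right₀ hU (by omega)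
        · apply sum_le_sum
          intro i hi
          rw [mem_range] at hi
          have h6 := hc1 i hi
          calc U * ((k.choose i : ℝ) * (c i * U ^ (2 * i + 2)) * U)
              = (k.choose i : ℝ) * c i * U ^ (2 * i + 4) := by ring
            _ ≤ (k.choose i : ℝ) * c i * U ^ (2 * k + 2) :=
                mul_le_mul_of_nonneg_left (pow_le_pow_right₀ hU (by omega)) (by positivity)
      exact h7.trans ((mul_le_mul_of_nonneg_left h3 hU0.le).trans h9)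

end Pool.Agent.Lib.MP_d9bc60_nt.UV
end
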