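import Pool.Agent.Lib.MP_d9bc60_nt.UV.PDefs

section
/-! Basic facts on `e` and `nn`. -/

set_option autoImplicit false

namespace Pool.Agent.Lib.MP_d9bc60_nt.UV

open Finset

theorem e_add (x y : ℝ) : e (x + y) = e x * e y := by
  unfold e
  rw [← Complex.exp_add]
  congr 1
  push_cast
  ring

theorem e_zero : e 0 = 1 := by simp [e]

theorem norm_e (x : ℝ) : ‖e x‖ = 1 := by
  unfold e
  exact Complex.norm_exp_ofReal_mul_I _

theorem e_int (n : ℤ) : e n = 1 := by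
  unfold e
  rw [Complex.exp_eq_one_iff]
  exact ⟨n, by push_cast; ring⟩

theorem e_nat (n : ℕ) : e n = 1 := by
  have := e_int (n : ℤ)
  simpa using this

theorem e_neg (x : ℝ) : e (-x) = (starRingEnd ℂ) (e x) := by
  unfold e
  rw [← Complex.exp_conj]
  congr 1
  rw [map_mul, Complex.conj_ofReal, Complex.conj_I]
  push_cast
  ring

theorem e_sub (x y : ℝ) : e (x - y) = e x * (starRingEnd ℂ) (e y) := by
  rw [sub_eq_add_neg, e_add, e_neg]

theorem e_add_int (x : ℝ) (n : ℤ) : e (x + n) = e x := by rw [e_add, e_int, mul_one]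

theorem e_mul_nat (x : ℝ) (n : ℕ) : e (x * n) = e x ^ n := by
  unfold e
  rw [← Complex.exp_nat_mul]
  congr 1
  push_cast
  ring

theorem nn_nonneg (x : ℝ) : 0 ≤ nn x := abs_nonneg _

theorem nn_le_half (x : ℝ) : nn x ≤ 1 / 2 := abs_sub_round x

theorem nn_le_int (x : ℝ) (n : ℤ) : nn x ≤ |x - n| := round_le x n

theorem nn_le_abs (x : ℝ) : nn x ≤ |x| := by simpa using nn_le_int x 0

theorem nn_exists (x : ℝ) : ∃ n : ℤ, nn x = |x - n| := ⟨round x, rfl⟩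

theorem nn_add_int (x : ℝ) (n : ℤ) : nn (x + n) = nn x := by
  unfold nn
  rw [round_add_intCast]
  congr 1
  push_cast
  ring

theorem nn_sub_int (x : ℝ) (n : ℤ) : nn (x - n) = nn x := by
  have := nn_add_int (x - n) n
  rw [← this]
  congr 1
  ring

theorem nn_neg (x : ℝ) : nn (-x) = nn x := by
  apply le_antisymm
  · obtain ⟨n, hn⟩ := nn_exists x
    rw [hn]
    refine (nn_le_int (-x) (-n)).trans (le_of_eq ?_)
    rw [← abs_neg]
    congr 1
    push_cast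
    ring
  · obtain ⟨n, hn⟩ := nn_exists (-x)
    rw [hn]
    refine (nn_le_int x (-n)).trans (le_of_eq ?_)
    rw [← abs_neg]
    congr 1
    push_cast
    ring

theorem nn_add_le (x y : ℝ) : nn (x + y) ≤ nn x + nn y := by
  obtain ⟨n, hn⟩ := nn_exists x
  obtain ⟨m, hm⟩ := nn_exists y
  rw [hn, hm]
  refine (nn_le_int (x + y) (n + m)).trans ?_
  have : x + y - ((n + m : ℤ) : ℝ) = (x - n) + (y - m) := by push_cast; ring
  rw [this]
  exact abs_add_le _ _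

theorem nn_sub_le (x y : ℝ) : nn (x - y) ≤ nn x + nn y := by
  rw [sub_eq_add_neg, ← nn_neg y]
  exact nn_add_le _ _

theorem nn_nat_mul (n : ℕ) (x : ℝ) : nn (n * x) ≤ n * nn x := by
  obtain ⟨m, hm⟩ := nn_exists x
  rw [hm]
  refine (nn_le_int (n * x) (n * m)).trans (le_of_eq ?_)
  have : (n : ℝ) * x - ((n * m : ℤ) : ℝ) = n * (x - m) := by push_cast; ring
  rw [this, abs_mul, Nat.abs_cast]

theorem nn_int_mul (n : ℤ) (x : ℝ) : nn (n * x) ≤ |(n : ℝ)| * nn x := by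
  obtain ⟨m, hm⟩ := nn_exists x
  rw [hm]
  refine (nn_le_int (n * x) (n * m)).trans (le_of_eq ?_)
  have : (n : ℝ) * x - ((n * m : ℤ) : ℝ) = n * (x - m) := by push_cast; ring
  rw [this, abs_mul]

theorem nn_int (n : ℤ) : nn n = 0 := by
  apply le_antisymm _ (nn_nonneg _)
  simpa using nn_le_int (n : ℝ) n

theorem nn_of_abs_le_half {x : ℝ} (h : |x| ≤ 1 / 2) : nn x = |x| := by
  apply le_antisymm (nn_le_abs x)
  obtain ⟨n, hn⟩ := nn_exists x
  rw [hn]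
  by_cases h0 : n = 0
  · simp [h0]
  · have h1 : (1 : ℝ) ≤ |(n : ℝ)| := by
      have : (1 : ℤ) ≤ |n| := Int.one_le_abs h0
      exact_mod_cast this
    have h2 : |(n : ℝ)| - |x| ≤ |x - n| := by
      rw [abs_sub_comm]
      exact abs_sub_abs_le_abs_sub _ _
    linarith

/-- `|e(x) - 1| ≤ 2π|x|`. -/
theorem norm_e_sub_one_le (x : ℝ) : ‖e x - 1‖ ≤ 2 * Real.pi * |x| := by
  have h := Real.norm_exp_I_mul_ofReal_sub_one_le (x := 2 * Real.pi * x)
  rw [mul_comm Complex.I] at h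
  refine h.trans (le_of_eq ?_)
  rw [Real.norm_eq_abs, abs_mul, abs_of_pos Real.two_pi_pos]

theorem norm_e_sub_e_le (x y : ℝ) : ‖e x - e y‖ ≤ 2 * Real.pi * |x - y| := by
  have h : e x - e y = (e (x - y) - 1) * e y := by
    have : e x = e (x - y) * e y := by rw [← e_add]; congr 1; ring
    rw [this]; ring
  rw [h, norm_mul, norm_e, mul_one]
  exact norm_e_sub_one_le _

theorem e_eq_of_int {x : ℝ} (n : ℤ) : e (x - n) = e x := by
  have := e_add_int (x - n) n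
  rw [← this]; congr 1; ring

/-- `|e(x) - 1| ≥ 4 nn(x)`. -/
theorem four_nn_le (x : ℝ) : 4 * nn x ≤ ‖e x - 1‖ := by
  obtain ⟨n, hn⟩ := nn_exists x
  have h1 : e x = e (x - n) := (e_eq_of_int n).symm
  set y : ℝ := x - n with hy
  have hy2 : |y| ≤ 1 / 2 := by rw [← hn]; exact nn_le_half x
  rw [h1, hn]
  have h2 : ‖e y - 1‖ = 2 * |Real.sin (Real.pi * y)| := by
    unfold e
    have h3 : Complex.exp (((2 * Real.pi * y : ℝ) : ℂ) * Complex.I) - 1
        = Complex.exp (((Real.pi * y : ℝ) : ℂ) * Complex.I) *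
          (2 * Complex.I * ((Real.sin (Real.pi * y) : ℝ) : ℂ)) := by
      rw [Complex.ofReal_sin, Complex.sin]
      have h4 : Complex.exp (((2 * Real.pi * y : ℝ) : ℂ) * Complex.I)
          = Complex.exp (((Real.pi * y : ℝ) : ℂ) * Complex.I) *
            Complex.exp (((Real.pi * y : ℝ) : ℂ) * Complex.I) := by
        rw [← Complex.exp_add]; congr 1; push_cast; ring
      have h5 : Complex.exp (((Real.pi * y : ℝ) : ℂ) * Complex.I) *
            Complex.exp (-((Real.pi * y : ℝ) : ℂ) * Complex.I) = 1 := by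
        rw [← Complex.exp_add]; simp
      have h6 : Complex.exp (((Real.pi * y : ℝ) : ℂ) * Complex.I) *
          (2 * Complex.I * ((Complex.exp (-((Real.pi * y : ℝ) : ℂ) * Complex.I) -
            Complex.exp (((Real.pi * y : ℝ) : ℂ) * Complex.I)) * Complex.I / 2))
          = -(Complex.I * Complex.I) *
            (Complex.exp (((Real.pi * y : ℝ) : ℂ) * Complex.I) *
            Complex.exp (((Real.pi * y : ℝ) : ℂ) * Complex.I)
            - Complex.exp (((Real.pi * y : ℝ) : ℂ) * Complex.I) *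
            Complex.exp (-((Real.pi * y : ℝ) : ℂ) * Complex.I)) := by ring
      rw [h6, h5, h4, Complex.I_mul_I]
      ring
    rw [h3, norm_mul, Complex.norm_exp_ofReal_mul_I, one_mul, norm_mul, norm_mul, Complex.norm_I,
      Complex.norm_real, Real.norm_eq_abs]
    norm_num
  rw [h2]
  have h7 : 2 * |y| ≤ |Real.sin (Real.pi * y)| := by
    have hpi := Real.pi_pos
    have key : ∀ z : ℝ, 0 ≤ z → z ≤ 1 / 2 → 2 * z ≤ Real.sin (Real.pi * z) := by
      intro z hz0 hz1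
      have := Real.mul_le_sin (x := Real.pi * z) (by positivity) (by nlinarith)
      have h8 : 2 / Real.pi * (Real.pi * z) = 2 * z := by field_simp
      rwa [h8] at this
    rcases abs_cases y with ⟨ha, hb⟩ | ⟨ha, hb⟩
    · rw [ha]
      have := key y hb (by rw [← ha]; exact hy2)
      exact this.trans (le_abs_self _)
    · rw [ha]
      have := key (-y) (by linarith) (by rw [← ha]; exact hy2)
      refine this.trans ?_
      have h9 : Real.pi * -y = -(Real.pi * y) := by ring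
      rw [h9, Real.sin_neg]
      exact neg_le_abs _
  linarith

end Pool.Agent.Lib.MP_d9bc60_nt.UV
end

section
/-! Row A2 (about 80 lines): geometric sums. -/

set_option autoImplicit false

namespace Pool.Agent.Lib.MP_d9bc60_nt.UV

open Finset

theorem a2geom_range (θ α : ℝ) (N : ℕ) (h : 0 < nn α) :
    ‖∑ i ∈ range N, e (θ + α * i)‖ ≤ 1 / (2 * nn α) := by
  have h4 := four_nn_le α
  have hz : e α - 1 ≠ 0 := by
    intro h0
    rw [h0, norm_zero] at h4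
    linarith
  have hz' : e α ≠ 1 := sub_ne_zero.mp hz
  have h1 : ∑ i ∈ range N, e (θ + α * i) = e θ * ((e α ^ N - 1) / (e α - 1)) := by
    rw [← geom_sum_eq hz', Finset.mul_sum]
    refine Finset.sum_congr rfl fun i _ => ?_
    rw [e_add, e_mul_nat]
  have h2 : ‖e α ^ N - 1‖ ≤ 2 := by
    refine (norm_sub_le _ _).trans ?_
    rw [norm_pow, norm_e, one_pow, norm_one]
    norm_num
  have h3 : 0 < ‖e α - 1‖ := norm_pos_iff.mpr hz
  rw [h1, norm_mul, norm_e, one_mul, norm_div, div_le_div_iff₀ h3 (by positivity)]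
  nlinarith

/-- Proof: with `z = e α`, `(z - 1) ∑_{u < n ≤ v} z^n = z^(v+1) - z^(u+1)` (for `u ≤ v`; else the sum is
empty), so the norm is `≤ 2/‖z-1‖ ≤ 2/(4 nn α)` by `four_nn_le`. Use `e_mul_nat`. -/
theorem geom_le (α : ℝ) (u v : ℕ) (h : 0 < nn α) :
    ‖∑ n ∈ Ioc u v, e (α * n)‖ ≤ 1 / (2 * nn α) := by
  have h1 : ∑ n ∈ Ioc u v, e (α * n) = ∑ i ∈ range (v - u), e (α * (u + 1) + α * i) := by
    have h2 : Ioc u v = Ico (u + 1) (v + 1) := by
      ext x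
      simp only [Finset.mem_Ioc, Finset.mem_Ico]
      omega
    rw [h2, Finset.sum_Ico_eq_sum_range]
    have h3 : v + 1 - (u + 1) = v - u := by omega
    rw [h3]
    refine Finset.sum_congr rfl fun i _ => ?_
    congr 1
    push_cast
    ring
  rw [h1]
  exact a2geom_range _ α _ h

theorem a2geom_thr (q r u : ℕ) (hq : 0 < q) : ∃ j₀ : ℕ, ∀ j, u < q * j + r ↔ j₀ ≤ j := by
  by_cases hu : u < r
  · exact ⟨0, fun j => ⟨fun _ => Nat.zero_le _, fun _ => by omega⟩⟩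
  · refine ⟨(u - r) / q + 1, fun j => ?_⟩
    have h1 := Nat.div_lt_iff_lt_mul (x := u - r) (y := j) hq
    rw [mul_comm j q] at h1
    omega

/-- Proof: for `r < q` the elements of the set are `m = r + q j` with `j` in an interval of naturals
(`j ∈ Ioc`/`Icc`/`range` differences), so the sum is `e(η r)` times a geometric sum of ratio
`e(q η)`; for `r ≥ q` the sum is empty. -/
theorem geom_ap_le (η : ℝ) (q r u v : ℕ) (hq : 0 < q) (h : 0 < nn (q * η)) :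
    ‖∑ m ∈ (Ioc u v).filter (fun m => m % q = r), e (η * m)‖ ≤ 1 / (2 * nn (q * η)) := by
  by_cases hr : r < q
  · obtain ⟨j₀, hj₀⟩ := a2geom_thr q r u hq
    obtain ⟨j₁, hj₁⟩ := a2geom_thr q r v hq
    have hset : (Ioc u v).filter (fun m => m % q = r) = (Ico j₀ j₁).image (fun j => q * j + r) := by
      ext m
      simp only [Finset.mem_filter, Finset.mem_Ioc, Finset.mem_image, Finset.mem_Ico]
      constructor
      · rintro ⟨⟨h1, h2⟩, h3⟩
        have h4 : q * (m / q) + r = m := by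
          rw [← h3]
          exact Nat.div_add_mod m q
        refine ⟨m / q, ⟨(hj₀ _).mp (by omega), ?_⟩, h4⟩
        by_contra h5
        have := (hj₁ (m / q)).mpr (by omega)
        omega
      · rintro ⟨j, ⟨h1, h2⟩, rfl⟩
        refine ⟨⟨(hj₀ j).mpr h1, ?_⟩, ?_⟩
        · by_contra h5
          have := (hj₁ j).mp (by omega)
          omega
        · rw [Nat.mul_add_mod, Nat.mod_eq_of_lt hr]
    rw [hset, Finset.sum_image, Finset.sum_Ico_eq_sum_range]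
    · have h1 : ∑ k ∈ range (j₁ - j₀), e (η * ((q * (j₀ + k) + r : ℕ) : ℝ))
          = ∑ i ∈ range (j₁ - j₀), e (η * (q * j₀ + r) + (q * η) * i) := by
        refine Finset.sum_congr rfl fun i _ => ?_
        congr 1
        push_cast
        ring
      rw [h1]
      exact a2geom_range _ _ _ h
    · intro a _ b _ hab
      simp only at hab
      have : q * a = q * b := by omega
      exact Nat.eq_of_mul_eq_mul_left hq this
  · have hset : (Ioc u v).filter (fun m => m % q = r) = ∅ := by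
      apply Finset.filter_false_of_mem
      intro m _ h1
      have := Nat.mod_lt m hq
      omega
    rw [hset, Finset.sum_empty, norm_zero]
    positivity

end Pool.Agent.Lib.MP_d9bc60_nt.UV
end

section
/-! Row A3 (about 110 lines): a sum over residues. -/

set_option autoImplicit false

namespace Pool.Agent.Lib.MP_d9bc60_nt.UV

open Finset

/-- the summand as a function of the difference -/
noncomputable def a3_F (B : ℕ) (M : ℝ) (w : ℤ) : ℝ :=
  if (B : ℤ) ∣ w then M else 1 / nn ((w : ℝ) / B)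

theorem a3_F_nonneg (B : ℕ) (M : ℝ) (hM : 0 ≤ M) (w : ℤ) : 0 ≤ a3_F B M w := by
  unfold a3_F
  split_ifs
  · exact hM
  · exact one_div_nonneg.mpr (nn_nonneg _)

theorem a3_F_add (B : ℕ) (hB : 0 < B) (M : ℝ) (w k : ℤ) : a3_F B M (w + B * k) = a3_F B M w := by
  have hB' : (B : ℝ) ≠ 0 := by exact_mod_cast hB.ne'
  unfold a3_F
  have h1 : ((B : ℤ) ∣ w + B * k) ↔ ((B : ℤ) ∣ w) := by
    constructor
    · intro h
      have h2 : (B : ℤ) ∣ w + B * k - B * k := dvd_sub h (dvd_mul_right _ _)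
      simpa using h2
    · intro h
      exact dvd_add h (dvd_mul_right _ _)
  have h2 : (((w + B * k : ℤ) : ℝ) / B) = (w : ℝ) / B + (k : ℤ) := by
    push_cast
    field_simp
  rw [h2, nn_add_int]
  simp only [h1]

theorem a3_F_mod (B : ℕ) (hB : 0 < B) (M : ℝ) (w : ℤ) : a3_F B M (w % B) = a3_F B M w := by
  have h := Int.emod_add_mul_ediv w B
  conv_rhs => rw [← h]
  rw [a3_F_add B hB]

theorem a3_min_le (x : ℝ) (h0 : 0 < x) (h1 : x < 1) : min x (1 - x) ≤ nn x := by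
  obtain ⟨n, hn⟩ := nn_exists x
  rw [hn]
  rcases le_or_gt n 0 with h | h
  · have : (n : ℝ) ≤ 0 := by exact_mod_cast h
    rw [abs_of_pos (by linarith)]
    exact (min_le_left _ _).trans (by linarith)
  · have : (1 : ℝ) ≤ n := by exact_mod_cast h
    rw [abs_of_neg (by linarith)]
    exact (min_le_right _ _).trans (by linarith)

theorem a3_term (B j : ℕ) (M : ℝ) (h0 : 0 < j) (h1 : j < B) :
    a3_F B M (j : ℤ) ≤ (B : ℝ) * ((j : ℝ)⁻¹ + ((B - j : ℕ) : ℝ)⁻¹) := by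
  have hB' : (0 : ℝ) < B := by exact_mod_cast (h0.trans h1)
  have hj : (0 : ℝ) < j := by exact_mod_cast h0
  have hjB : (j : ℝ) < B := by exact_mod_cast h1
  have hBj : (0 : ℝ) < (B : ℝ) - j := by linarith
  have hnd : ¬ ((B : ℤ) ∣ (j : ℤ)) := by
    intro h
    have := Nat.le_of_dvd h0 (by exact_mod_cast h)
    omega
  unfold a3_F
  rw [if_neg hnd, Nat.cast_sub h1.le]
  have hx0 : 0 < ((j : ℤ) : ℝ) / B := by
    push_cast
    positivity
  have hx1 : ((j : ℤ) : ℝ) / B < 1 := by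
    push_cast
    rw [div_lt_one hB']
    exact hjB
  have hmin := a3_min_le _ hx0 hx1
  push_cast at hmin hx0 hx1 ⊢
  have hpos : 0 < min ((j : ℝ) / B) (1 - (j : ℝ) / B) := lt_min hx0 (by linarith)
  refine (one_div_le_one_div_of_le hpos hmin).trans ?_
  rcases min_cases ((j : ℝ) / B) (1 - (j : ℝ) / B) with ⟨h, _⟩ | ⟨h, _⟩
  · rw [h, one_div_div]
    have : (B : ℝ) / j = B * (j : ℝ)⁻¹ := by rw [div_eq_mul_inv]
    rw [this, mul_add]
    have : 0 ≤ (B : ℝ) * ((B : ℝ) - j)⁻¹ := by positivity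
    linarith
  · rw [h]
    have h3 : 1 - (j : ℝ) / B = ((B : ℝ) - j) / B := by field_simp
    rw [h3, one_div_div]
    have : (B : ℝ) / ((B : ℝ) - j) = B * ((B : ℝ) - j)⁻¹ := by rw [div_eq_mul_inv]
    rw [this, mul_add]
    have : 0 ≤ (B : ℝ) * (j : ℝ)⁻¹ := by positivity
    linarith

theorem a3_harm (n : ℕ) : ∑ j ∈ range n, ((j + 1 : ℕ) : ℝ)⁻¹ ≤ 1 + Real.log n := by
  have h := harmonic_le_one_add_log n
  unfold harmonic at h
  push_cast at h ⊢
  exact h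

theorem a3_full (B : ℕ) (hB : 0 < B) (M : ℝ) :
    ∑ j ∈ range B, a3_F B M (j : ℤ) ≤ M + 2 * B * (1 + Real.log B) := by
  obtain ⟨b, rfl⟩ : ∃ b, B = b + 1 := ⟨B - 1, by omega⟩
  rw [sum_range_succ']
  have h0 : a3_F (b + 1) M ((0 : ℕ) : ℤ) = M := by
    unfold a3_F
    rw [if_pos (by simp)]
  rw [h0]
  have h1 : ∑ j ∈ range b, a3_F (b + 1) M ((j + 1 : ℕ) : ℤ) ≤
      ∑ j ∈ range b, ((b + 1 : ℕ) : ℝ) * (((j + 1 : ℕ) : ℝ)⁻¹ + ((b + 1 - (j + 1) : ℕ) : ℝ)⁻¹) := by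
    apply sum_le_sum
    intro j hj
    rw [mem_range] at hj
    exact a3_term (b + 1) (j + 1) M (by omega) (by omega)
  rw [← mul_sum, sum_add_distrib] at h1
  have h2 : ∑ j ∈ range b, ((b + 1 - (j + 1) : ℕ) : ℝ)⁻¹ = ∑ j ∈ range b, ((j + 1 : ℕ) : ℝ)⁻¹ := by
    rw [← sum_range_reflect]
    apply sum_congr rfl
    intro j hj
    rw [mem_range] at hj
    congr 2
    omega
  rw [h2] at h1
  have h3 := a3_harm b
  have h4 : Real.log b ≤ Real.log ((b + 1 : ℕ) : ℝ) := by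
    rcases Nat.eq_zero_or_pos b with hb | hb
    · subst hb
      simp
    · apply Real.log_le_log (by exact_mod_cast hb)
      push_cast
      linarith
  have h5 : (0 : ℝ) < ((b + 1 : ℕ) : ℝ) := by positivity
  nlinarith [h1, h3, h4, h5, mul_le_mul_of_nonneg_left (h3.trans (by linarith : 1 + Real.log b ≤
    1 + Real.log ((b + 1 : ℕ) : ℝ))) h5.le]

theorem a3_block (B : ℕ) (hB : 0 < B) (M : ℝ) (u : ℤ) :
    ∑ i ∈ range B, a3_F B M (u - ((i + 1 : ℕ) : ℤ)) = ∑ j ∈ range B, a3_F B M (j : ℤ) := by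
  have hBz : (0 : ℤ) < B := by exact_mod_cast hB
  have hmaps : Set.MapsTo (fun i : ℕ => ((u - ((i + 1 : ℕ) : ℤ)) % B).toNat)
      (range B : Set ℕ) (range B : Set ℕ) := by
    intro i _
    rw [mem_coe, mem_range]
    have h1 := Int.emod_nonneg (u - ((i + 1 : ℕ) : ℤ)) hBz.ne'
    have h2 := Int.emod_lt_of_pos (u - ((i + 1 : ℕ) : ℤ)) hBz
    show ((u - ((i + 1 : ℕ) : ℤ)) % B).toNat < B
    omega
  have hinj : Set.InjOn (fun i : ℕ => ((u - ((i + 1 : ℕ) : ℤ)) % B).toNat) (range B : Set ℕ) := by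
    intro i hi j hj hij
    rw [mem_coe, mem_range] at hi hj
    have h1 := Int.emod_nonneg (u - ((i + 1 : ℕ) : ℤ)) hBz.ne'
    have h2 := Int.emod_nonneg (u - ((j + 1 : ℕ) : ℤ)) hBz.ne'
    have h3 : (u - ((i + 1 : ℕ) : ℤ)) % B = (u - ((j + 1 : ℕ) : ℤ)) % B := by
      have h4 : ((u - ((i + 1 : ℕ) : ℤ)) % B).toNat = ((u - ((j + 1 : ℕ) : ℤ)) % B).toNat := hij
      omega
    have h4 : (B : ℤ) ∣ (u - ((i + 1 : ℕ) : ℤ)) - (u - ((j + 1 : ℕ) : ℤ)) :=
      Int.ModEq.dvd h3.symm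
    have h5 : (u - ((i + 1 : ℕ) : ℤ)) - (u - ((j + 1 : ℕ) : ℤ)) = (j : ℤ) - i := by
      push_cast
      ring
    rw [h5] at h4
    have h6 := Int.eq_zero_of_abs_lt_dvd h4 (by rw [abs_lt]; constructor <;> omega)
    omega
  have hsurj : Set.SurjOn (fun i : ℕ => ((u - ((i + 1 : ℕ) : ℤ)) % B).toNat)
      (range B : Set ℕ) (range B : Set ℕ) :=
    surjOn_of_injOn_of_card_le _ hmaps hinj le_rfl
  apply sum_nbij (fun i : ℕ => ((u - ((i + 1 : ℕ) : ℤ)) % B).toNat)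
  · intro i hi
    exact hmaps (mem_coe.mpr hi)
  · exact hinj
  · exact hsurj
  · intro i _
    have h1 := Int.emod_nonneg (u - ((i + 1 : ℕ) : ℤ)) hBz.ne'
    rw [Int.toNat_of_nonneg h1, a3_F_mod B hB]

theorem a3_blocks (B : ℕ) (hB : 0 < B) (M : ℝ) (u : ℤ) (k : ℕ) :
    ∑ i ∈ range (B * k), a3_F B M (u - ((i + 1 : ℕ) : ℤ)) =
      k * ∑ j ∈ range B, a3_F B M (j : ℤ) := by
  induction k with
  | zero => simp
  | succ k ih =>
    rw [mul_add, mul_one, sum_range_add, ih]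
    have : ∑ i ∈ range B, a3_F B M (u - ((B * k + i + 1 : ℕ) : ℤ)) =
        ∑ j ∈ range B, a3_F B M (j : ℤ) := by
      rw [← a3_block B hB M u]
      apply sum_congr rfl
      intro i _
      rw [← a3_F_add B hB M (u - ((B * k + i + 1 : ℕ) : ℤ)) k]
      congr 1
      push_cast
      ring
    rw [this]
    push_cast
    ring

/-- Proof: cut `[1,V]` into at most `V/B + 1` blocks of `B` consecutive integers. In a block
`w = u - v` runs through distinct residues mod `B`; residue `0` gives `M`, residue `j ∈ [1,B-1]` gives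
`1/nn(j/B) = B/min(j, B-j)`, and `∑_{j=1}^{B-1} B/min(j,B-j) ≤ 2B ∑_{j ≤ B} 1/j ≤ 2B(1 + log B)`. -/
theorem spaced_sum (B V : ℕ) (hB : 0 < B) (u : ℤ) (M : ℝ) (hM : 0 ≤ M) :
    ∑ v ∈ Icc 1 V, (if (B : ℤ) ∣ (u - (v : ℤ)) then M else 1 / nn (((u : ℝ) - v) / B)) ≤
      ((V : ℝ) / B + 1) * (M + 2 * B * (1 + Real.log B)) := by
  have hB' : (0 : ℝ) < B := by exact_mod_cast hB
  have h1 : ∑ v ∈ Icc 1 V, (if (B : ℤ) ∣ (u - (v : ℤ)) then M else 1 / nn (((u : ℝ) - v) / B)) =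
      ∑ i ∈ range V, a3_F B M (u - ((i + 1 : ℕ) : ℤ)) := by
    have h2 : Icc 1 V = (range V).image (fun i => i + 1) := by
      ext v
      rw [mem_Icc, mem_image]
      constructor
      · intro h
        exact ⟨v - 1, mem_range.mpr (by omega), by omega⟩
      · rintro ⟨i, hi, rfl⟩
        rw [mem_range] at hi
        omega
    rw [h2, sum_image (by intro a _ b _ hab; simpa using hab)]
    apply sum_congr rfl
    intro i _
    unfold a3_F
    push_cast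
    rfl
  rw [h1]
  have h2 : V ≤ B * (V / B + 1) := by
    have := Nat.lt_mul_div_succ V hB
    exact this.le
  have h3 : ∑ i ∈ range V, a3_F B M (u - ((i + 1 : ℕ) : ℤ)) ≤
      ∑ i ∈ range (B * (V / B + 1)), a3_F B M (u - ((i + 1 : ℕ) : ℤ)) :=
    sum_le_sum_of_subset_of_nonneg (range_subset_range.mpr h2)
      (fun i _ _ => a3_F_nonneg B M hM _)
  rw [a3_blocks B hB] at h3
  refine h3.trans ?_
  have h4 : ((V / B + 1 : ℕ) : ℝ) ≤ (V : ℝ) / B + 1 := by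
    push_cast
    have := @Nat.cast_div_le ℝ _ _ _ V B
    linarith
  have h5 := a3_full B hB M
  have h6 : 0 ≤ ∑ j ∈ range B, a3_F B M (j : ℤ) := sum_nonneg (fun j _ => a3_F_nonneg B M hM _)
  exact mul_le_mul h4 h5 h6 (by positivity)

end Pool.Agent.Lib.MP_d9bc60_nt.UV
end

section
/-! Row A4 (about 100 lines): averages of the divisor function. -/

set_option autoImplicit false

namespace Pool.Agent.Lib.MP_d9bc60_nt.UV

open Finset

theorem a4_swap (N : ℕ) (F : ℕ → ℕ → ℝ) :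
    ∑ n ∈ Icc 1 N, ∑ d ∈ n.divisors, F d n =
      ∑ d ∈ Icc 1 N, ∑ m ∈ Icc 1 (N / d), F d (d * m) := by
  rw [Finset.sum_sigma', Finset.sum_sigma']
  refine Finset.sum_bij' (fun x _ => ⟨x.2, x.1 / x.2⟩) (fun x _ => ⟨x.1 * x.2, x.1⟩) ?_ ?_ ?_ ?_ ?_
  · rintro ⟨n, d⟩ h
    simp only [Finset.mem_sigma, Finset.mem_Icc, Nat.mem_divisors] at h ⊢
    obtain ⟨⟨h1, h2⟩, h3, h4⟩ := h
    have hd : 0 < d := Nat.pos_of_dvd_of_pos h3 h1
    refine ⟨⟨hd, (Nat.le_of_dvd h1 h3).trans h2⟩, ?_, Nat.div_le_div_right h2⟩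
    exact Nat.div_pos (Nat.le_of_dvd h1 h3) hd
  · rintro ⟨d, m⟩ h
    simp only [Finset.mem_sigma, Finset.mem_Icc, Nat.mem_divisors] at h ⊢
    obtain ⟨⟨h1, h2⟩, h3, h4⟩ := h
    have h5 : d * m ≤ N := (Nat.mul_le_mul_left d h4).trans (Nat.mul_div_le N d)
    have h6 : 0 < d * m := Nat.mul_pos h1 h3
    exact ⟨⟨h6, h5⟩, Dvd.intro _ rfl, h6.ne'⟩
  · rintro ⟨n, d⟩ h
    simp only [Finset.mem_sigma, Finset.mem_Icc, Nat.mem_divisors] at h ⊢
    rw [Nat.mul_div_cancel' h.2.1]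
  · rintro ⟨d, m⟩ h
    simp only [Finset.mem_sigma, Finset.mem_Icc] at h ⊢
    rw [Nat.mul_div_cancel_left _ h.1.1]
  · rintro ⟨n, d⟩ h
    simp only [Finset.mem_sigma, Finset.mem_Icc, Nat.mem_divisors] at h ⊢
    rw [Nat.mul_div_cancel' h.2.1]

theorem a4_harm (N : ℕ) : ∑ d ∈ Icc 1 N, ((d : ℝ))⁻¹ ≤ 1 + Real.log N := by
  have h1 := harmonic_le_one_add_log N
  rw [harmonic_eq_sum_Icc] at h1
  push_cast at h1
  exact h1

theorem a4_harm_nonneg (N : ℕ) : 0 ≤ ∑ d ∈ Icc 1 N, ((d : ℝ))⁻¹ :=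
  Finset.sum_nonneg fun d _ => inv_nonneg.mpr (Nat.cast_nonneg d)

theorem a4_mul (d m : ℕ) : ((d * m).divisors.card : ℝ) ≤ d.divisors.card * m.divisors.card := by
  rw [Nat.divisors_mul]
  exact_mod_cast Finset.card_mul_le

/-- Proof: `∑_{n ≤ N} τ(n) = ∑_{d ≤ N} ⌊N/d⌋ ≤ N (1 + log N)`. -/
theorem sum_tau_le (N : ℕ) : ∑ n ∈ Icc 1 N, (n.divisors.card : ℝ) ≤ N * (1 + Real.log N) := by
  have h0 : ∑ n ∈ Icc 1 N, (n.divisors.card : ℝ) = ∑ n ∈ Icc 1 N, ∑ _d ∈ n.divisors, (1 : ℝ) := by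
    refine Finset.sum_congr rfl fun n _ => ?_
    simp
  rw [h0, a4_swap N (fun _ _ => 1)]
  calc ∑ d ∈ Icc 1 N, ∑ _m ∈ Icc 1 (N / d), (1 : ℝ)
      ≤ ∑ d ∈ Icc 1 N, (N : ℝ) * ((d : ℝ))⁻¹ := by
        refine Finset.sum_le_sum fun d _ => ?_
        rw [Finset.sum_const, Nat.card_Icc, nsmul_eq_mul, mul_one, Nat.add_sub_cancel]
        exact Nat.cast_div_le.trans (le_of_eq (div_eq_mul_inv _ _))
    _ = N * ∑ d ∈ Icc 1 N, ((d : ℝ))⁻¹ := by rw [Finset.mul_sum]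
    _ ≤ N * (1 + Real.log N) := mul_le_mul_of_nonneg_left (a4_harm N) (Nat.cast_nonneg _)

/-- Proof: partial summation from `sum_tau_le`, or directly
`∑_{n ≤ N} τ(n)/n = ∑_{d ≤ N} 1/d ∑_{m ≤ N/d} 1/m ≤ (1 + log N)^2`. -/
theorem sum_tau_div_le (N : ℕ) : ∑ n ∈ Icc 1 N, (n.divisors.card : ℝ) / n ≤ (1 + Real.log N) ^ 2 := by
  have h0 : ∑ n ∈ Icc 1 N, (n.divisors.card : ℝ) / n =
      ∑ n ∈ Icc 1 N, ∑ _d ∈ n.divisors, ((n : ℝ))⁻¹ := by
    refine Finset.sum_congr rfl fun n _ => ?_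
    rw [Finset.sum_const, nsmul_eq_mul, div_eq_mul_inv]
  rw [h0, a4_swap N (fun _ n => ((n : ℝ))⁻¹)]
  calc ∑ d ∈ Icc 1 N, ∑ m ∈ Icc 1 (N / d), (((d * m : ℕ) : ℝ))⁻¹
      ≤ ∑ d ∈ Icc 1 N, ((d : ℝ))⁻¹ * ∑ m ∈ Icc 1 N, ((m : ℝ))⁻¹ := by
        refine Finset.sum_le_sum fun d _ => ?_
        rw [Finset.mul_sum]
        calc ∑ m ∈ Icc 1 (N / d), (((d * m : ℕ) : ℝ))⁻¹
            = ∑ m ∈ Icc 1 (N / d), ((d : ℝ))⁻¹ * ((m : ℝ))⁻¹ := by
              refine Finset.sum_congr rfl fun m _ => ?_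
              push_cast
              rw [mul_inv]
          _ ≤ ∑ m ∈ Icc 1 N, ((d : ℝ))⁻¹ * ((m : ℝ))⁻¹ :=
              Finset.sum_le_sum_of_subset_of_nonneg
                (Finset.Icc_subset_Icc_right (Nat.div_le_self N d))
                fun m _ _ => mul_nonneg (inv_nonneg.mpr (Nat.cast_nonneg _))
                  (inv_nonneg.mpr (Nat.cast_nonneg _))
    _ = (∑ d ∈ Icc 1 N, ((d : ℝ))⁻¹) * ∑ m ∈ Icc 1 N, ((m : ℝ))⁻¹ := by rw [Finset.sum_mul]
    _ ≤ (1 + Real.log N) ^ 2 := by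
        rw [sq]
        exact mul_le_mul (a4_harm N) (a4_harm N) (a4_harm_nonneg N)
          ((a4_harm_nonneg N).trans (a4_harm N))

/-- Proof: `∑_{n ≤ N} τ(n)^2 = ∑_{n ≤ N} τ(n) ∑_{d ∣ n} 1 = ∑_{d ≤ N} ∑_{m ≤ N/d} τ(dm) ≤
∑_d τ(d) ∑_{m ≤ N/d} τ(m) ≤ N (1 + log N) ∑_d τ(d)/d` (`τ(dm) ≤ τ(d) τ(m)`). -/
theorem sum_tau_sq_le (N : ℕ) :
    ∑ n ∈ Icc 1 N, (n.divisors.card : ℝ) ^ 2 ≤ N * (1 + Real.log N) ^ 3 := by
  have hL : 0 ≤ 1 + Real.log N := (a4_harm_nonneg N).trans (a4_harm N)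
  have h0 : ∑ n ∈ Icc 1 N, (n.divisors.card : ℝ) ^ 2 =
      ∑ n ∈ Icc 1 N, ∑ _d ∈ n.divisors, (n.divisors.card : ℝ) := by
    refine Finset.sum_congr rfl fun n _ => ?_
    rw [Finset.sum_const, nsmul_eq_mul, sq]
  rw [h0, a4_swap N (fun _ n => (n.divisors.card : ℝ))]
  calc ∑ d ∈ Icc 1 N, ∑ m ∈ Icc 1 (N / d), ((d * m).divisors.card : ℝ)
      ≤ ∑ d ∈ Icc 1 N, (N * (1 + Real.log N)) * ((d.divisors.card : ℝ) / d) := by
        refine Finset.sum_le_sum fun d hd => ?_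
        have hd1 : 1 ≤ d := (Finset.mem_Icc.mp hd).1
        have hd2 : d ≤ N := (Finset.mem_Icc.mp hd).2
        calc ∑ m ∈ Icc 1 (N / d), ((d * m).divisors.card : ℝ)
            ≤ ∑ m ∈ Icc 1 (N / d), (d.divisors.card : ℝ) * m.divisors.card :=
              Finset.sum_le_sum fun m _ => a4_mul d m
          _ = d.divisors.card * ∑ m ∈ Icc 1 (N / d), (m.divisors.card : ℝ) := by
              rw [Finset.mul_sum]
          _ ≤ d.divisors.card * (((N / d : ℕ) : ℝ) * (1 + Real.log ((N / d : ℕ) : ℝ))) :=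
              mul_le_mul_of_nonneg_left (sum_tau_le _) (Nat.cast_nonneg _)
          _ ≤ d.divisors.card * (((N : ℝ) / d) * (1 + Real.log N)) := by
              refine mul_le_mul_of_nonneg_left ?_ (Nat.cast_nonneg _)
              have h1 : 0 < N / d := Nat.div_pos hd2 hd1
              have h2 : Real.log ((N / d : ℕ) : ℝ) ≤ Real.log N :=
                Real.log_le_log (by exact_mod_cast h1) (by exact_mod_cast Nat.div_le_self N d)
              refine mul_le_mul Nat.cast_div_le (by linarith) ?_ (by positivity)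
              have h3 : 0 ≤ Real.log ((N / d : ℕ) : ℝ) := Real.log_natCast_nonneg _
              linarith
          _ = (N * (1 + Real.log N)) * ((d.divisors.card : ℝ) / d) := by ring
    _ = (N * (1 + Real.log N)) * ∑ d ∈ Icc 1 N, (d.divisors.card : ℝ) / d := by
        rw [Finset.mul_sum]
    _ ≤ (N * (1 + Real.log N)) * (1 + Real.log N) ^ 2 :=
        mul_le_mul_of_nonneg_left (sum_tau_div_le N) (mul_nonneg (Nat.cast_nonneg _) hL)
    _ = N * (1 + Real.log N) ^ 3 := by ring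

end Pool.Agent.Lib.MP_d9bc60_nt.UV
end

section
/-! Row A5 (about 90 lines): the divisor bound. -/

set_option autoImplicit false

namespace Pool.Agent.Lib.MP_d9bc60_nt.UV

open Finset

theorem a5_succ_le_two_pow (v : ℕ) : ((v : ℝ) + 1) ≤ 2 ^ v := by
  have h : v + 1 ≤ 2 ^ v := Nat.lt_two_pow_self
  exact_mod_cast h

theorem a5_large (ε : ℝ) (hε : 0 < ε) (p v : ℕ) (hp : (2 : ℝ) ^ (1 / ε) ≤ p) :
    ((v : ℝ) + 1) ≤ ((p : ℝ) ^ v) ^ ε := by
  have h1 : (2 : ℝ) ≤ (p : ℝ) ^ ε := by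
    have h2 : ((2 : ℝ) ^ (1 / ε)) ^ ε ≤ (p : ℝ) ^ ε :=
      Real.rpow_le_rpow (by positivity) hp hε.le
    rwa [← Real.rpow_mul (by norm_num), one_div_mul_cancel hε.ne', Real.rpow_one] at h2
  have h3 : ((p : ℝ) ^ v) ^ ε = ((p : ℝ) ^ ε) ^ v := by
    rw [← Real.rpow_natCast, ← Real.rpow_natCast, ← Real.rpow_mul (by positivity),
      ← Real.rpow_mul (by positivity), mul_comm]
  rw [h3]
  exact (a5_succ_le_two_pow v).trans (pow_le_pow_left₀ (by norm_num) h1 v)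

theorem a5_small (ε : ℝ) (hε : 0 < ε) (p v : ℕ) (hp : 2 ≤ p) :
    ((v : ℝ) + 1) ≤ (1 + 1 / (ε * Real.log 2)) * ((p : ℝ) ^ v) ^ ε := by
  have hlog : 0 < Real.log 2 := Real.log_pos (by norm_num)
  have h0 : 0 < ε * Real.log 2 := mul_pos hε hlog
  have hp' : (2 : ℝ) ≤ p := by exact_mod_cast hp
  have h1 : ((2 : ℝ) ^ v) ^ ε ≤ ((p : ℝ) ^ v) ^ ε :=
    Real.rpow_le_rpow (by positivity) (pow_le_pow_left₀ (by norm_num) hp' v) hε.le
  have h2 : 1 + v * (ε * Real.log 2) ≤ ((2 : ℝ) ^ v) ^ ε := by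
    have h3 : ((2 : ℝ) ^ v) ^ ε = Real.exp (v * (ε * Real.log 2)) := by
      rw [Real.rpow_def_of_pos (by positivity), Real.log_pow]
      congr 1
      ring
    rw [h3]
    have h4 := Real.add_one_le_exp ((v : ℝ) * (ε * Real.log 2))
    linarith
  have h5 : ((v : ℝ) + 1) ≤ (1 + 1 / (ε * Real.log 2)) * (1 + v * (ε * Real.log 2)) := by
    have h6 : (1 + 1 / (ε * Real.log 2)) * (1 + v * (ε * Real.log 2)) =
        ((v : ℝ) + 1) + (v * (ε * Real.log 2) + 1 / (ε * Real.log 2)) := by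
      field_simp
      ring
    rw [h6]
    have h7 : 0 ≤ (v : ℝ) * (ε * Real.log 2) + 1 / (ε * Real.log 2) := by positivity
    linarith
  exact h5.trans (mul_le_mul_of_nonneg_left (h2.trans h1) (by positivity))

/-- Proof: `τ(n)/n^ε = ∏_{p ∣ n} (v_p(n) + 1)/p^(ε v_p(n))`. If `p^ε ≥ 2` the factor is `≤ 1`
(`v + 1 ≤ 2^v`); for the finitely many `p < 2^(1/ε)` it is `≤ 1 + 1/(ε log 2)` (from
`2^(εv) ≥ 1 + εv log 2`), hence `≤ C` with `C = (1 + 1/(ε log 2))^(⌈2^(1/ε)⌉)`. -/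
theorem tau_le (ε : ℝ) (hε : 0 < ε) : ∃ C : ℝ, 1 ≤ C ∧ ∀ n : ℕ, 1 ≤ n →
    (n.divisors.card : ℝ) ≤ C * (n : ℝ) ^ ε := by
  have hlog : 0 < Real.log 2 := Real.log_pos (by norm_num)
  have h0 : 0 < ε * Real.log 2 := mul_pos hε hlog
  have hB : 1 ≤ 1 + 1 / (ε * Real.log 2) := by
    have : 0 ≤ 1 / (ε * Real.log 2) := by positivity
    linarith
  refine ⟨(1 + 1 / (ε * Real.log 2)) ^ ⌈(2 : ℝ) ^ (1 / ε)⌉₊, one_le_pow₀ hB, ?_⟩
  intro n hn
  have hn0 : n ≠ 0 := by omega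
  have hcard : (n.divisors.card : ℝ) = ∏ p ∈ n.primeFactors, ((n.factorization p : ℝ) + 1) := by
    rw [Nat.card_divisors hn0]
    push_cast
    rfl
  have hK : ∀ p ∈ n.primeFactors, ((n.factorization p : ℝ) + 1) ≤
      (if p < ⌈(2 : ℝ) ^ (1 / ε)⌉₊ then (1 + 1 / (ε * Real.log 2)) else 1) *
        ((p : ℝ) ^ (n.factorization p)) ^ ε := by
    intro p hp
    split_ifs with h
    · exact a5_small ε hε p _ (Nat.prime_of_mem_primeFactors hp).two_le
    · rw [one_mul]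
      refine a5_large ε hε p _ ?_
      exact (Nat.le_ceil _).trans (by exact_mod_cast not_lt.1 h)
  have hprod : ∏ p ∈ n.primeFactors, ((p : ℝ) ^ (n.factorization p)) ^ ε = (n : ℝ) ^ ε := by
    rw [Real.finsetProd_rpow _ _ (fun p _ => by positivity)]
    congr 1
    have h := Nat.prod_factorization_pow_eq_self hn0
    rw [Finsupp.prod, Nat.support_factorization] at h
    exact_mod_cast h
  have hconst : ∏ p ∈ n.primeFactors,
      (if p < ⌈(2 : ℝ) ^ (1 / ε)⌉₊ then (1 + 1 / (ε * Real.log 2)) else 1) ≤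
      (1 + 1 / (ε * Real.log 2)) ^ ⌈(2 : ℝ) ^ (1 / ε)⌉₊ := by
    rw [Finset.prod_ite, Finset.prod_const_one, mul_one, Finset.prod_const]
    refine pow_le_pow_right₀ hB ?_
    have hsub : n.primeFactors.filter (fun p => p < ⌈(2 : ℝ) ^ (1 / ε)⌉₊) ⊆
        Finset.range ⌈(2 : ℝ) ^ (1 / ε)⌉₊ := by
      intro p hp
      exact Finset.mem_range.2 (Finset.mem_filter.1 hp).2
    exact (Finset.card_le_card hsub).trans (Finset.card_range _).le
  rw [hcard]
  calc ∏ p ∈ n.primeFactors, ((n.factorization p : ℝ) + 1)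
      ≤ ∏ p ∈ n.primeFactors,
        ((if p < ⌈(2 : ℝ) ^ (1 / ε)⌉₊ then (1 + 1 / (ε * Real.log 2)) else 1) *
        ((p : ℝ) ^ (n.factorization p)) ^ ε) :=
        Finset.prod_le_prod (fun p _ => by positivity) hK
    _ = (∏ p ∈ n.primeFactors,
        (if p < ⌈(2 : ℝ) ^ (1 / ε)⌉₊ then (1 + 1 / (ε * Real.log 2)) else 1)) * (n : ℝ) ^ ε := by
        rw [Finset.prod_mul_distrib, hprod]
    _ ≤ _ := mul_le_mul_of_nonneg_right hconst (by positivity)

end Pool.Agent.Lib.MP_d9bc60_nt.UV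
end

section
/-! Row A6 (about 150 lines): partial summation. All four are discrete Abel summation. -/

set_option autoImplicit false

namespace Pool.Agent.Lib.MP_d9bc60_nt.UV

open Finset

theorem a6_abel (f g : ℕ → ℂ) (u v : ℕ) (huv : u ≤ v) :
    ∑ m ∈ Ioc u v, f m * g m = (∑ m ∈ Ioc u v, f m) * g v -
      ∑ t ∈ Ico u v, (∑ m ∈ Ioc u t, f m) * (g (t + 1) - g t) := by
  induction v, huv using Nat.le_induction with
  | base => simp
  | succ v hv ih =>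
    rw [Finset.sum_Ioc_succ_top hv, Finset.sum_Ioc_succ_top hv, Finset.sum_Ico_succ_top hv, ih]
    ring

theorem a6_norm (f g : ℕ → ℂ) (u v : ℕ) (huv : u ≤ v) :
    ‖∑ m ∈ Ioc u v, f m * g m‖ ≤ ‖∑ m ∈ Ioc u v, f m‖ * ‖g v‖ +
      ∑ t ∈ Ico u v, ‖∑ m ∈ Ioc u t, f m‖ * ‖g (t + 1) - g t‖ := by
  rw [a6_abel f g u v huv]
  refine (norm_sub_le _ _).trans (add_le_add (norm_mul_le _ _) ?_)
  exact norm_sum_le_of_le _ fun t _ => norm_mul_le _ _

theorem a6_Icc (N : ℕ) : Icc 1 N = Ioc 0 N := by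
  ext x
  simp [Nat.succ_le_iff]

/-- the bound with a constant for the partial sums -/
theorem a6_const (f g : ℕ → ℂ) (u v : ℕ) (huv : u ≤ v) (E : ℝ)
    (h : ∀ t ≤ v, ‖∑ m ∈ Ioc u t, f m‖ ≤ E) (w : ℕ → ℝ)
    (hw : ∀ t, ‖g (t + 1) - g t‖ ≤ w (t + 1) - w t) :
    ‖∑ m ∈ Ioc u v, f m * g m‖ ≤ E * (‖g v‖ + (w v - w u)) := by
  have hE : 0 ≤ E := (norm_nonneg _).trans (h v le_rfl)
  refine (a6_norm f g u v huv).trans ?_
  rw [mul_add]
  refine add_le_add (mul_le_mul_of_nonneg_right (h v le_rfl) (norm_nonneg _)) ?_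
  calc ∑ t ∈ Ico u v, ‖∑ m ∈ Ioc u t, f m‖ * ‖g (t + 1) - g t‖
      ≤ ∑ t ∈ Ico u v, E * (w (t + 1) - w t) := by
        refine Finset.sum_le_sum fun t ht => ?_
        exact mul_le_mul (h t (Finset.mem_Ico.mp ht).2.le) (hw t) (norm_nonneg _) hE
    _ = E * ∑ t ∈ Ico u v, (w (t + 1) - w t) := by rw [Finset.mul_sum]
    _ = E * (w v - w u) := by rw [Finset.sum_Ico_sub w huv]

/-- Proof: with `F(t) = ∑_{n ≤ t} f(n)`, the sum is
`F(N) e(βN) - ∑_{t < N} F(t) (e(β(t+1)) - e(βt))`; `norm_e_sub_e_le`. -/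
theorem abel_e (f : ℕ → ℂ) (β : ℝ) (N : ℕ) (E : ℝ) (h : ∀ t ≤ N, ‖∑ n ∈ Icc 1 t, f n‖ ≤ E) :
    ‖∑ n ∈ Icc 1 N, f n * e (β * n)‖ ≤ (1 + 2 * Real.pi * |β| * N) * E := by
  have h1 := a6_const f (fun n => e (β * n)) 0 N (Nat.zero_le _) E
    (fun t ht => by rw [← a6_Icc]; exact h t ht) (fun t => 2 * Real.pi * |β| * t) (fun t => by
      refine (norm_e_sub_e_le _ _).trans (le_of_eq ?_)
      have h2 : β * ((t + 1 : ℕ) : ℝ) - β * t = β := by push_cast; ring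
      rw [h2]
      push_cast
      ring)
  rw [a6_Icc]
  refine h1.trans (le_of_eq ?_)
  rw [norm_e]
  push_cast
  ring

/-- Proof: as `abel_e` for each `i`:
`‖S_i‖ ≤ ‖F_i(N)‖ + 2π|β| ∑_{t < N} ‖F_i(t)‖`, so
`‖S_i‖² ≤ 2‖F_i(N)‖² + 2(2πβ)² N ∑_{t<N} ‖F_i(t)‖²`; sum over `i`. -/
theorem abel_sq {ι : Type*} (I : Finset ι) (c : ι → ℝ) (f : ℕ → ℂ) (β : ℝ) (N : ℕ) (E : ℝ)
    (h : ∀ t ≤ N, ∑ i ∈ I, ‖∑ n ∈ Icc 1 t, f n * e (c i * n)‖ ^ 2 ≤ E) :
    ∑ i ∈ I, ‖∑ n ∈ Icc 1 N, f n * e ((c i + β) * n)‖ ^ 2 ≤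
      2 * (1 + (2 * Real.pi * β * N) ^ 2) * E := by
  have hE : 0 ≤ E := (Finset.sum_nonneg fun i _ => sq_nonneg _).trans (h N le_rfl)
  have h1 : ∀ i : ι, ‖∑ n ∈ Icc 1 N, f n * e ((c i + β) * n)‖ ^ 2 ≤
      2 * ‖∑ n ∈ Icc 1 N, f n * e (c i * n)‖ ^ 2 + 2 * ((2 * Real.pi * |β|) ^ 2 *
        (N * ∑ t ∈ Ico 0 N, ‖∑ n ∈ Icc 1 t, f n * e (c i * n)‖ ^ 2)) := by
    intro i
    have h2 : ∑ n ∈ Icc 1 N, f n * e ((c i + β) * n) =
        ∑ n ∈ Ioc 0 N, (f n * e (c i * n)) * e (β * n) := by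
      rw [a6_Icc]
      refine Finset.sum_congr rfl fun n _ => ?_
      rw [add_mul, e_add, mul_assoc]
    have h3 := a6_norm (fun n => f n * e (c i * n)) (fun n => e (β * n)) 0 N (Nat.zero_le _)
    have h4 : ‖∑ n ∈ Icc 1 N, f n * e ((c i + β) * n)‖ ≤
        ‖∑ n ∈ Icc 1 N, f n * e (c i * n)‖ + (2 * Real.pi * |β|) *
          ∑ t ∈ Ico 0 N, ‖∑ n ∈ Icc 1 t, f n * e (c i * n)‖ := by
      rw [h2]
      refine h3.trans ?_
      rw [norm_e, mul_one, a6_Icc, Finset.mul_sum]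
      refine add_le_add le_rfl (Finset.sum_le_sum fun t _ => ?_)
      rw [mul_comm, a6_Icc]
      refine mul_le_mul_of_nonneg_right ?_ (norm_nonneg _)
      refine (norm_e_sub_e_le _ _).trans (le_of_eq ?_)
      have h5 : β * ((t + 1 : ℕ) : ℝ) - β * t = β := by push_cast; ring
      rw [h5]
    have h6 : (∑ t ∈ Ico 0 N, ‖∑ n ∈ Icc 1 t, f n * e (c i * n)‖) ^ 2 ≤
        N * ∑ t ∈ Ico 0 N, ‖∑ n ∈ Icc 1 t, f n * e (c i * n)‖ ^ 2 := by
      have h7 := sq_sum_le_card_mul_sum_sq (s := Ico 0 N)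
        (f := fun t => ‖∑ n ∈ Icc 1 t, f n * e (c i * n)‖)
      rw [Nat.card_Ico, Nat.sub_zero] at h7
      exact h7
    calc ‖∑ n ∈ Icc 1 N, f n * e ((c i + β) * n)‖ ^ 2
        ≤ (‖∑ n ∈ Icc 1 N, f n * e (c i * n)‖ + (2 * Real.pi * |β|) *
          ∑ t ∈ Ico 0 N, ‖∑ n ∈ Icc 1 t, f n * e (c i * n)‖) ^ 2 :=
          pow_le_pow_left₀ (norm_nonneg _) h4 2
      _ ≤ 2 * (‖∑ n ∈ Icc 1 N, f n * e (c i * n)‖ ^ 2 + ((2 * Real.pi * |β|) *
          ∑ t ∈ Ico 0 N, ‖∑ n ∈ Icc 1 t, f n * e (c i * n)‖) ^ 2) := add_sq_le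
      _ ≤ _ := by
          rw [mul_pow, mul_add]
          refine add_le_add le_rfl (mul_le_mul_of_nonneg_left ?_ zero_le_two)
          exact mul_le_mul_of_nonneg_left h6 (sq_nonneg _)
  calc ∑ i ∈ I, ‖∑ n ∈ Icc 1 N, f n * e ((c i + β) * n)‖ ^ 2
      ≤ ∑ i ∈ I, (2 * ‖∑ n ∈ Icc 1 N, f n * e (c i * n)‖ ^ 2 + 2 * ((2 * Real.pi * |β|) ^ 2 *
        (N * ∑ t ∈ Ico 0 N, ‖∑ n ∈ Icc 1 t, f n * e (c i * n)‖ ^ 2))) :=
        Finset.sum_le_sum fun i _ => h1 i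
    _ = 2 * ∑ i ∈ I, ‖∑ n ∈ Icc 1 N, f n * e (c i * n)‖ ^ 2 + 2 * ((2 * Real.pi * |β|) ^ 2 *
        (N * ∑ t ∈ Ico 0 N, ∑ i ∈ I, ‖∑ n ∈ Icc 1 t, f n * e (c i * n)‖ ^ 2)) := by
        rw [Finset.sum_add_distrib, ← Finset.mul_sum, ← Finset.mul_sum, ← Finset.mul_sum,
          ← Finset.mul_sum, Finset.sum_comm]
    _ ≤ 2 * E + 2 * ((2 * Real.pi * |β|) ^ 2 * (N * (N * E))) := by
        refine add_le_add (mul_le_mul_of_nonneg_left (h N le_rfl) zero_le_two) ?_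
        refine mul_le_mul_of_nonneg_left ?_ zero_le_two
        refine mul_le_mul_of_nonneg_left ?_ (sq_nonneg _)
        refine mul_le_mul_of_nonneg_left ?_ (Nat.cast_nonneg _)
        calc ∑ t ∈ Ico 0 N, ∑ i ∈ I, ‖∑ n ∈ Icc 1 t, f n * e (c i * n)‖ ^ 2
            ≤ ∑ _t ∈ Ico 0 N, E :=
              Finset.sum_le_sum fun t ht => h t (Finset.mem_Ico.mp ht).2.le
          _ = N * E := by
              rw [Finset.sum_const, Nat.card_Ico, Nat.sub_zero, nsmul_eq_mul]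
    _ = 2 * (1 + (2 * Real.pi * β * N) ^ 2) * E := by
        rw [mul_pow _ |β|, sq_abs]
        ring

/-- Proof: `∑ log n f(n) = F(N) log N - ∑_{1 ≤ t < N} F(t) (log(t+1) - log t)`. -/
theorem abel_log (f : ℕ → ℂ) (N : ℕ) (E : ℝ) (h : ∀ t ≤ N, ‖∑ n ∈ Icc 1 t, f n‖ ≤ E) :
    ‖∑ n ∈ Icc 1 N, ((Real.log n : ℝ) : ℂ) * f n‖ ≤ 2 * Real.log N * E := by
  have h1 := a6_const f (fun n => ((Real.log n : ℝ) : ℂ)) 0 N (Nat.zero_le _) E
    (fun t ht => by rw [← a6_Icc]; exact h t ht) (fun t => Real.log t) (fun t => by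
      rw [← Complex.ofReal_sub, Complex.norm_real, Real.norm_eq_abs, abs_of_nonneg]
      rw [sub_nonneg]
      rcases Nat.eq_zero_or_pos t with h0 | h0
      · rw [h0]
        simp
      · exact Real.log_le_log (by exact_mod_cast h0) (by push_cast; linarith))
  rw [a6_Icc]
  have h2 : ∑ n ∈ Ioc 0 N, ((Real.log n : ℝ) : ℂ) * f n =
      ∑ n ∈ Ioc 0 N, f n * ((Real.log n : ℝ) : ℂ) :=
    Finset.sum_congr rfl fun n _ => mul_comm _ _
  rw [h2]
  refine h1.trans (le_of_eq ?_)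
  rw [Complex.norm_real, Real.norm_eq_abs, abs_of_nonneg (Real.log_natCast_nonneg N)]
  simp only [Nat.cast_zero, Real.log_zero, sub_zero]
  ring

/-- Proof: Abel summation over `Ioc u v`, total variation of `e(β m²)` is
`≤ 2π|β| ∑ ((m+1)² - m²) ≤ 2π|β| v²`. -/
theorem abel_quad (F : ℕ → ℂ) (β : ℝ) (u v : ℕ) (E : ℝ)
    (h : ∀ v' ≤ v, ‖∑ m ∈ Ioc u v', F m‖ ≤ E) :
    ‖∑ m ∈ Ioc u v, F m * e (β * (m : ℝ) ^ 2)‖ ≤ (1 + 2 * Real.pi * |β| * (v : ℝ) ^ 2) * E := by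
  have hE : 0 ≤ E := (norm_nonneg _).trans (h 0 (Nat.zero_le _))
  rcases lt_or_ge v u with huv | huv
  · rw [Finset.Ioc_eq_empty (by omega), Finset.sum_empty, norm_zero]
    positivity
  · have h1 := a6_const F (fun n => e (β * (n : ℝ) ^ 2)) u v huv E h
      (fun t => 2 * Real.pi * |β| * (t : ℝ) ^ 2) (fun t => by
        refine (norm_e_sub_e_le _ _).trans (le_of_eq ?_)
        have h2 : β * ((t + 1 : ℕ) : ℝ) ^ 2 - β * (t : ℝ) ^ 2 =
            β * (((t + 1 : ℕ) : ℝ) ^ 2 - (t : ℝ) ^ 2) := by ring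
        have h3 : 0 ≤ ((t + 1 : ℕ) : ℝ) ^ 2 - (t : ℝ) ^ 2 := by
          push_cast
          nlinarith [Nat.cast_nonneg (α := ℝ) t]
        rw [h2, abs_mul, abs_of_nonneg h3]
        ring)
    refine h1.trans ?_
    rw [norm_e, mul_comm]
    refine mul_le_mul_of_nonneg_right ?_ hE
    have h4 : 0 ≤ 2 * Real.pi * |β| * (u : ℝ) ^ 2 := by positivity
    linarith

end Pool.Agent.Lib.MP_d9bc60_nt.UV
end
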