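import Pool.Agent.Lib.MP_d9bc60_nt.UV.PLBa
import Pool.Agent.Lib.MP_d9bc60_nt.UV.PLBounds
import Pool.Agent.Lib.MP_d9bc60_nt.UV.PZeta
import Pool.Agent.Lib.MP_d9bc60_nt.UV.PEst
import Pool.Agent.Lib.MP_d9bc60_nt.UV.PTools

section
/-! Row W10 (about 150 lines): a bound for `L(s, χ)` in `Re s > 0`. -/

set_option autoImplicit false

namespace Pool.Agent.Lib.MP_d9bc60_nt.UV

open Finset

/-- the partial sums, cut off below `1` -/
noncomputable def w10_A {q : ℕ} (χ : DirichletCharacter ℂ q) (t : ℝ) : ℂ :=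
  Set.indicator (Set.Ioi (1 : ℝ)) (fun t => ∑ k ∈ Icc 1 ⌊t⌋₊, χ (k : ZMod q)) t

theorem w10_sum_le (q : ℕ) [NeZero q] (χ : DirichletCharacter ℂ q) (hχ : χ ≠ 1) (N : ℕ) :
    ‖∑ n ∈ Icc 1 N, χ (n : ZMod q)‖ ≤ 2 * q := by
  have := char_sum q χ N
  rwa [if_neg hχ, zero_mul, sub_zero] at this

theorem w10_A_le (q : ℕ) [NeZero q] (χ : DirichletCharacter ℂ q) (hχ : χ ≠ 1) (t : ℝ) :
    ‖w10_A χ t‖ ≤ 2 * q := by
  unfold w10_A
  rw [Set.indicator_apply]
  split_ifs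
  · exact w10_sum_le q χ hχ _
  · rw [norm_zero]; positivity

theorem w10_A_meas {q : ℕ} (χ : DirichletCharacter ℂ q) : Measurable (w10_A χ) := by
  unfold w10_A
  apply Measurable.indicator _ measurableSet_Ioi
  exact (measurable_from_nat (f := fun N : ℕ => ∑ k ∈ Icc 1 N, χ (k : ZMod q))).comp
    Nat.measurable_floor

open MeasureTheory Filter Topology in
theorem w10_diff (q : ℕ) [NeZero q] (χ : DirichletCharacter ℂ q) (hχ : χ ≠ 1) (s : ℂ)
    (hs : 0 < s.re) : DifferentiableAt ℂ (fun s => mellin (w10_A χ) (-s)) s := by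
  have h1 : DifferentiableAt ℂ (mellin (w10_A χ)) (-s) := by
    refine mellin_differentiableAt_of_isBigO_rpow (a := 0) (b := (-s).re - 1) ?_ ?_ ?_ ?_ ?_
    · apply LocallyIntegrable.locallyIntegrableOn
      intro x
      refine ⟨Set.Icc (x - 1) (x + 1), Icc_mem_nhds (by linarith) (by linarith), ?_⟩
      refine Measure.integrableOn_of_bounded (M := 2 * q) (by simp) 
        (w10_A_meas χ).aestronglyMeasurable ?_
      exact Filter.Eventually.of_forall fun t => w10_A_le q χ hχ t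
    · simp only [neg_zero, Real.rpow_zero]
      exact Asymptotics.isBigO_of_le' (c := 2 * q) _ fun t => by
        simpa using w10_A_le q χ hχ t
    · simp only [Complex.neg_re]; linarith
    · refine Filter.EventuallyEq.trans_isBigO (f₂ := fun _ : ℝ => (0 : ℂ)) ?_
        (Asymptotics.isBigO_zero _ _)
      have h2 : ∀ᶠ t in 𝓝[>] (0 : ℝ), t < 1 := by
        filter_upwards [Ioo_mem_nhdsGT (zero_lt_one (α := ℝ))] with t ht
        exact ht.2
      filter_upwards [h2] with t ht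
      unfold w10_A
      rw [Set.indicator_of_notMem]
      exact not_lt.2 ht.le
    · linarith
  exact h1.comp s differentiableAt_id.neg

open MeasureTheory in
theorem w10_mellin {q : ℕ} (χ : DirichletCharacter ℂ q) (s : ℂ) :
    mellin (w10_A χ) (-s) = ∫ t in Set.Ioi (1 : ℝ), (∑ k ∈ Icc 1 ⌊t⌋₊, χ (k : ZMod q)) *
      (t : ℂ) ^ (-(s + 1)) := by
  unfold mellin
  have e : ∀ t : ℝ, (t : ℂ) ^ (-s - 1) • w10_A χ t =
      Set.indicator (Set.Ioi (1 : ℝ)) (fun t : ℝ => (∑ k ∈ Icc 1 ⌊t⌋₊, χ (k : ZMod q)) *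
      (t : ℂ) ^ (-(s + 1))) t := by
    intro t
    unfold w10_A
    rw [Set.indicator_apply, Set.indicator_apply]
    split_ifs
    · rw [smul_eq_mul, mul_comm]
      congr 2
      ring
    · rw [smul_zero]
  simp_rw [e]
  rw [setIntegral_indicator measurableSet_Ioi]
  congr 2
  rw [Set.Ioi_inter_Ioi]
  simp

open MeasureTheory Filter Topology in
theorem w10_eq (q : ℕ) [NeZero q] (χ : DirichletCharacter ℂ q) (hχ : χ ≠ 1) (s : ℂ)
    (hs : 0 < s.re) : DirichletCharacter.LFunction χ s = s * mellin (w10_A χ) (-s) := by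
  have hU : IsOpen {s : ℂ | 0 < s.re} := isOpen_lt continuous_const Complex.continuous_re
  have hf : AnalyticOnNhd ℂ (DirichletCharacter.LFunction χ) {s : ℂ | 0 < s.re} := fun z _ =>
    (DirichletCharacter.differentiable_LFunction hχ).analyticAt z
  have hg : AnalyticOnNhd ℂ (fun s => s * mellin (w10_A χ) (-s)) {s : ℂ | 0 < s.re} := by
    apply DifferentiableOn.analyticOnNhd _ hU
    intro z hz
    exact (differentiableAt_id.mul (w10_diff q χ hχ z hz)).differentiableWithinAt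
  have hpre : IsPreconnected {s : ℂ | 0 < s.re} := (convex_halfSpace_re_gt 0).isPreconnected
  have h2 : (2 : ℂ) ∈ {s : ℂ | 0 < s.re} := by simp
  refine hf.eqOn_of_preconnected_of_eventuallyEq hg hpre h2 ?_ hs
  have hev : ∀ᶠ z : ℂ in 𝓝 (2 : ℂ), 1 < z.re :=
    (isOpen_lt continuous_const Complex.continuous_re).mem_nhds (by simp)
  filter_upwards [hev] with z hz
  rw [DirichletCharacter.LFunction_eq_LSeries χ hz, w10_mellin]
  refine LSeries_eq_mul_integral (fun n : ℕ => χ (n : ZMod q)) le_rfl (by linarith)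
    (DirichletCharacter.LSeriesSummable_of_one_lt_re χ hz) ?_
  simp only [Real.rpow_zero]
  exact Asymptotics.isBigO_of_le' (c := 2 * q) _ fun n => by
    simpa using w10_sum_le q χ hχ n

/-- Proof. `A(t) = ∑_{n ≤ t} χ(n)`, `‖A‖ ≤ 2q`. For `Re s > 1`,
`L(s,χ) = s ∫_1^∞ A(t) t^{-s-1} dt` (`LSeries_eq_mul_integral` with `r = 0`). Both sides are analytic
on `Re s > 0` (right side: `mellin_differentiableAt_of_isBigO_rpow` or differentiation under the
integral sign), and `LFunction χ` is entire for `χ ≠ 1`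
(`DirichletCharacter.differentiable_LFunction`), so they agree on `Re s > 0`
(`AnalyticOnNhd.eqOn_of_preconnected_of_eventuallyEq`), and
`|s| · 2q ∫_1^∞ t^{-σ-1} dt = 2q|s|/σ`. -/
theorem LFunction_le (q : ℕ) [NeZero q] (χ : DirichletCharacter ℂ q) (hχ : χ ≠ 1) (s : ℂ)
    (hs : 0 < s.re) : ‖DirichletCharacter.LFunction χ s‖ ≤ 2 * q * ‖s‖ / s.re := by
  rw [w10_eq q χ hχ s hs, norm_mul, w10_mellin]
  have h1 : ‖∫ t in Set.Ioi (1 : ℝ), (∑ k ∈ Icc 1 ⌊t⌋₊, χ (k : ZMod q)) *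
      (t : ℂ) ^ (-(s + 1))‖ ≤ ∫ t in Set.Ioi (1 : ℝ), (2 * q) * t ^ (-(s.re + 1)) := by
    apply MeasureTheory.norm_integral_le_of_norm_le
    · exact (integrableOn_Ioi_rpow_of_lt (by linarith) zero_lt_one).const_mul _
    · refine (MeasureTheory.ae_restrict_iff' measurableSet_Ioi).2 (Filter.Eventually.of_forall ?_)
      intro t ht
      have ht0 : (0 : ℝ) < t := zero_lt_one.trans ht
      rw [norm_mul, Complex.norm_cpow_eq_rpow_re_of_pos ht0]
      have e : (-(s + 1)).re = -(s.re + 1) := by simp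
      rw [e]
      exact mul_le_mul_of_nonneg_right (w10_sum_le q χ hχ _) (Real.rpow_nonneg ht0.le _)
  rw [MeasureTheory.integral_const_mul, integral_Ioi_rpow_of_lt (by linarith) zero_lt_one,
    Real.one_rpow] at h1
  have e2 : (2 * (q : ℝ)) * (-1 / (-(s.re + 1) + 1)) = 2 * q / s.re := by
    have : -(s.re + 1) + 1 = -s.re := by ring
    rw [this, neg_div_neg_eq]
    ring
  rw [e2] at h1
  calc ‖s‖ * _ ≤ ‖s‖ * (2 * q / s.re) := mul_le_mul_of_nonneg_left h1 (norm_nonneg _)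
    _ = 2 * q * ‖s‖ / s.re := by ring

open Filter Topology in
/-- Proof. `L(1+x, χ) → L(1, χ)` as `x → 0+` (continuity), and `L_upper 0 ε` with `t = 0`. -/
theorem LFunction_one_le (ε : ℝ) (hε : 0 < ε) : ∃ C : ℝ, 1 ≤ C ∧
    ∀ (q : ℕ) [NeZero q] (χ : DirichletCharacter ℂ q), χ ≠ 1 →
    ‖DirichletCharacter.LFunction χ 1‖ ≤ C * (q : ℝ) ^ ε := by
  obtain ⟨C, hC, hL⟩ := L_upper 0 ε hε
  have h2 : (1 : ℝ) ≤ 2 ^ ε := Real.one_le_rpow (by norm_num) hε.le
  refine ⟨C * 2 ^ ε, by nlinarith, fun q _ χ hχ => ?_⟩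
  have hcont : Tendsto (fun x : ℝ => ‖DirichletCharacter.LFunction χ (1 + x)‖) (𝓝[>] 0)
      (𝓝 ‖DirichletCharacter.LFunction χ 1‖) := by
    have h3 : Continuous fun x : ℝ => ‖DirichletCharacter.LFunction χ (1 + x)‖ :=
      ((DirichletCharacter.differentiable_LFunction hχ).continuous.comp
        (continuous_const.add Complex.continuous_ofReal)).norm
    have h4 := h3.tendsto 0
    simp only [Complex.ofReal_zero, add_zero] at h4
    exact h4.mono_left nhdsWithin_le_nhds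
  refine le_of_tendsto hcont ?_
  filter_upwards [Ioo_mem_nhdsGT (zero_lt_one (α := ℝ))] with x hx
  have hre : ((1 : ℂ) + x).re = 1 + x := by simp
  have him : ((1 : ℂ) + x).im = 0 := by simp
  have h5 := hL q χ (1 + x) (by rw [hre]; linarith [hx.1]) (by rw [hre]; linarith [hx.2])
  rw [if_neg hχ, him, abs_zero, add_zero, add_zero, mul_one] at h5
  have e : LSeries (lp (ch χ) 0) (1 + x) = DirichletCharacter.LFunction χ (1 + x) := by
    rw [DirichletCharacter.LFunction_eq_LSeries χ (by rw [hre]; linarith [hx.1])]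
    congr 1
    funext n
    simp [lp, ch]
  rw [e] at h5
  refine h5.trans (le_of_eq ?_)
  rw [Real.mul_rpow (Nat.cast_nonneg _) (by norm_num)]
  ring

end Pool.Agent.Lib.MP_d9bc60_nt.UV
end

section
/-! Row W11 (about 170 lines): nonnegativity of the derivatives at `2`. -/

set_option autoImplicit false

namespace Pool.Agent.Lib.MP_d9bc60_nt.UV

open Finset

/-- `F(s) = ζ(s) L(s,χ₁) L(s,χ₂) L(s,χ₁χ₂)` on `Re s > 1`. -/
noncomputable def FF {q : ℕ} (χ₁ χ₂ : DirichletCharacter ℂ q) (s : ℂ) : ℂ :=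
  LSeries (fun _ => 1) s * LSeries (ch χ₁) s * LSeries (ch χ₂) s * LSeries (ch (χ₁ * χ₂)) s

theorem w11_real {q : ℕ} (χ : DirichletCharacter ℂ q) (h : χ ^ 2 = 1) :
    ∃ g : ℕ → ℝ, (∀ n, ch χ n = (g n : ℂ)) ∧ (∀ n, |g n| ≤ 1) ∧ g 1 = 1 := by
  classical
  have h0 : ∀ n : ℕ, ∃ r : ℝ, ch χ n = (r : ℂ) ∧ |r| ≤ 1 := by
    intro n
    by_cases hu : IsUnit (n : ZMod q)
    · have h1 : χ (n : ZMod q) ^ 2 = 1 := by
        rw [← MulChar.pow_apply' χ two_ne_zero, h, MulChar.one_apply hu]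
      rw [pow_two] at h1
      rcases mul_self_eq_one_iff.mp h1 with h2 | h2
      · exact ⟨1, by rw [ch, h2]; simp, by simp⟩
      · exact ⟨-1, by rw [ch, h2]; simp, by simp⟩
    · exact ⟨0, by rw [ch, MulChar.map_nonunit χ hu]; simp, by simp⟩
  choose g hg hg1 using h0
  refine ⟨g, hg, hg1, ?_⟩
  have h1 := hg 1
  have h2 : ch χ 1 = 1 := by simp [ch]
  rw [h2] at h1
  exact_mod_cast h1.symm

theorem w11_term (g : ℕ → ℝ) (n : ℕ) : LSeries.term (fun n => (g n : ℂ)) 2 n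
    = ((g n * (1 / (n : ℝ) ^ 2) : ℝ) : ℂ) := by
  rw [LSeries.term_def]
  by_cases hn : n = 0
  · rw [if_pos hn, hn]; simp
  · rw [if_neg hn]
    have : ((n : ℂ) ^ (2 : ℂ)) = (n : ℂ) ^ (2 : ℕ) := by
      rw [← Complex.cpow_natCast]; norm_num
    rw [this]; push_cast; ring

theorem w11_val (g : ℕ → ℝ) (hg : ∀ n, |g n| ≤ 1) (h1 : g 1 = 1) :
    ∃ r : ℝ, LSeries (fun n => (g n : ℂ)) 2 = (r : ℂ) ∧ 1 / 4 ≤ r := by
  have hz := hasSum_zeta_two
  have hs : Summable (fun n : ℕ => g n * (1 / (n : ℝ) ^ 2)) := by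
    refine Summable.of_norm_bounded hz.summable (fun n => ?_)
    rw [Real.norm_eq_abs, abs_mul]
    have h2 : |1 / (n : ℝ) ^ 2| = 1 / (n : ℝ) ^ 2 := abs_of_nonneg (by positivity)
    rw [h2]
    have h3 : 0 ≤ 1 / (n : ℝ) ^ 2 := by positivity
    nlinarith [hg n]
  refine ⟨∑' n : ℕ, g n * (1 / (n : ℝ) ^ 2), ?_, ?_⟩
  · rw [LSeries, Complex.ofReal_tsum]
    exact tsum_congr (fun n => w11_term g n)
  · have h4 : ∑' n : ℕ, (g n * (1 / (n : ℝ) ^ 2) + 1 / (n : ℝ) ^ 2)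
        = ∑' n : ℕ, g n * (1 / (n : ℝ) ^ 2) + Real.pi ^ 2 / 6 := by
      rw [hs.tsum_add hz.summable, hz.tsum_eq]
    have h5 : (g 1 * (1 / ((1 : ℕ) : ℝ) ^ 2) + 1 / ((1 : ℕ) : ℝ) ^ 2)
        ≤ ∑' n : ℕ, (g n * (1 / (n : ℝ) ^ 2) + 1 / (n : ℝ) ^ 2) := by
      refine (hs.add hz.summable).le_tsum 1 (fun n _ => ?_)
      have h3 : 0 ≤ 1 / (n : ℝ) ^ 2 := by positivity
      have := (abs_le.mp (hg n)).1
      nlinarith
    rw [h4, h1] at h5
    have h6 := Real.pi_lt_d2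
    have h7 := Real.pi_pos
    have h8 : Real.pi ^ 2 < 10 := by nlinarith
    have e1 : (1 : ℝ) * (1 / ((1 : ℕ) : ℝ) ^ 2) + 1 / ((1 : ℕ) : ℝ) ^ 2 = 2 := by norm_num
    rw [e1] at h5
    linarith

theorem w11_zeta : ∃ r : ℝ, LSeries (fun _ => 1) 2 = (r : ℂ) ∧ 1 ≤ r := by
  have hz := hasSum_zeta_two
  refine ⟨Real.pi ^ 2 / 6, ?_, ?_⟩
  · rw [LSeries, ← hz.tsum_eq, Complex.ofReal_tsum]
    refine tsum_congr (fun n => ?_)
    have := w11_term (fun _ => 1) n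
    simp only [Complex.ofReal_one, one_mul] at this
    exact this
  · have h6 := Real.pi_gt_three
    nlinarith

theorem w11_two (q : ℕ) (χ₁ χ₂ : DirichletCharacter ℂ q) (h1 : χ₁ ^ 2 = 1)
    (h2 : χ₂ ^ 2 = 1) : ∃ r : ℝ, FF χ₁ χ₂ 2 = (r : ℂ) ∧ 1 / 64 ≤ r := by
  obtain ⟨g1, hg1, hb1, ho1⟩ := w11_real χ₁ h1
  obtain ⟨g2, hg2, hb2, ho2⟩ := w11_real χ₂ h2
  obtain ⟨g3, hg3, hb3, ho3⟩ := w11_real (χ₁ * χ₂) (by rw [mul_pow, h1, h2, one_mul])
  obtain ⟨r0, hr0, hp0⟩ := w11_zeta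
  obtain ⟨r1, hr1, hp1⟩ := w11_val g1 hb1 ho1
  obtain ⟨r2, hr2, hp2⟩ := w11_val g2 hb2 ho2
  obtain ⟨r3, hr3, hp3⟩ := w11_val g3 hb3 ho3
  refine ⟨r0 * r1 * r2 * r3, ?_, ?_⟩
  · rw [FF, hr0, show ch χ₁ = fun n => (g1 n : ℂ) from funext hg1,
      show ch χ₂ = fun n => (g2 n : ℂ) from funext hg2,
      show ch (χ₁ * χ₂) = fun n => (g3 n : ℂ) from funext hg3, hr1, hr2, hr3]
    push_cast; ring
  · have a1 : 1 / 4 ≤ r0 * r1 := by nlinarith
    have a2 : 1 / 16 ≤ r0 * r1 * r2 := by nlinarith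
    nlinarith

/-- the coefficients of `-F'/F` -/
noncomputable def w11_a {q : ℕ} (χ₁ χ₂ : DirichletCharacter ℂ q) : ℕ → ℂ :=
  fun n => (1 + ch χ₁ n) * (1 + ch χ₂ n) * (ArithmeticFunction.vonMangoldt n : ℂ)

theorem w11_a_eq {q : ℕ} (χ₁ χ₂ : DirichletCharacter ℂ q) : w11_a χ₁ χ₂ =
    (((fun n : ℕ => ((ArithmeticFunction.vonMangoldt n : ℝ) : ℂ)) +
      ((fun n : ℕ => χ₁ (n : ZMod q)) * fun n : ℕ => ((ArithmeticFunction.vonMangoldt n : ℝ) : ℂ))) +
      ((fun n : ℕ => χ₂ (n : ZMod q)) * fun n : ℕ => ((ArithmeticFunction.vonMangoldt n : ℝ) : ℂ))) +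
      ((fun n : ℕ => (χ₁ * χ₂) (n : ZMod q)) *
        fun n : ℕ => ((ArithmeticFunction.vonMangoldt n : ℝ) : ℂ)) := by
  funext n
  simp only [w11_a, ch, Pi.add_apply, Pi.mul_apply, MulChar.mul_apply]
  ring

theorem w11_summ {q : ℕ} (χ₁ χ₂ : DirichletCharacter ℂ q) {s : ℂ} (hs : 1 < s.re) :
    LSeriesSummable (w11_a χ₁ χ₂) s := by
  rw [w11_a_eq]
  have h0 := ArithmeticFunction.LSeriesSummable_vonMangoldt hs
  have h1 := DirichletCharacter.LSeriesSummable_twist_vonMangoldt χ₁ hs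
  have h2 := DirichletCharacter.LSeriesSummable_twist_vonMangoldt χ₂ hs
  have h3 := DirichletCharacter.LSeriesSummable_twist_vonMangoldt (χ₁ * χ₂) hs
  exact ((h0.add h1).add h2).add h3

theorem w11_sum {q : ℕ} (χ₁ χ₂ : DirichletCharacter ℂ q) {s : ℂ} (hs : 1 < s.re) :
    LSeries (w11_a χ₁ χ₂) s = -deriv (LSeries (fun _ => 1)) s / LSeries (fun _ => 1) s
      + -deriv (LSeries (ch χ₁)) s / LSeries (ch χ₁) s
      + -deriv (LSeries (ch χ₂)) s / LSeries (ch χ₂) s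
      + -deriv (LSeries (ch (χ₁ * χ₂))) s / LSeries (ch (χ₁ * χ₂)) s := by
  rw [w11_a_eq]
  have h0 := ArithmeticFunction.LSeriesSummable_vonMangoldt hs
  have h1 := DirichletCharacter.LSeriesSummable_twist_vonMangoldt χ₁ hs
  have h2 := DirichletCharacter.LSeriesSummable_twist_vonMangoldt χ₂ hs
  have h3 := DirichletCharacter.LSeriesSummable_twist_vonMangoldt (χ₁ * χ₂) hs
  rw [LSeries_add ((h0.add h1).add h2) h3, LSeries_add (h0.add h1) h2, LSeries_add h0 h1,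
    ArithmeticFunction.LSeries_vonMangoldt_eq hs,
    DirichletCharacter.LSeries_twist_vonMangoldt_eq χ₁ hs,
    DirichletCharacter.LSeries_twist_vonMangoldt_eq χ₂ hs,
    DirichletCharacter.LSeries_twist_vonMangoldt_eq (χ₁ * χ₂) hs]
  rfl

theorem w11_absc {a : ℕ → ℂ} (h : ∀ s : ℂ, 1 < s.re → LSeriesSummable a s) {s : ℂ}
    (hs : 1 < s.re) : LSeries.abscissaOfAbsConv a < s.re := by
  have h1 : LSeries.abscissaOfAbsConv a ≤ ((1 : ℝ) : EReal) :=
    LSeries.abscissaOfAbsConv_le_of_forall_lt_LSeriesSummable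
      (fun y hy => h y (by simpa using hy))
  exact lt_of_le_of_lt h1 (by exact_mod_cast hs)

theorem w11_diff {a : ℕ → ℂ} (h : ∀ s : ℂ, 1 < s.re → LSeriesSummable a s) {s : ℂ}
    (hs : 1 < s.re) : AnalyticAt ℂ (LSeries a) s :=
  LSeries_analyticOnNhd a s (w11_absc h hs)

theorem w11_one_summ {s : ℂ} (hs : 1 < s.re) : LSeriesSummable (fun _ => 1) s :=
  LSeriesSummable_one_iff.mpr hs

theorem w11_deriv {q : ℕ} (χ₁ χ₂ : DirichletCharacter ℂ q) {s : ℂ} (hs : 1 < s.re) :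
    deriv (FF χ₁ χ₂) s = -(LSeries (w11_a χ₁ χ₂) s * FF χ₁ χ₂ s) := by
  have d0 := (w11_diff (a := fun _ => 1) (fun s hs => w11_one_summ hs) hs).differentiableAt.hasDerivAt
  have d1 := (w11_diff (a := ch χ₁)
    (fun s hs => DirichletCharacter.LSeriesSummable_of_one_lt_re χ₁ hs) hs).differentiableAt.hasDerivAt
  have d2 := (w11_diff (a := ch χ₂)
    (fun s hs => DirichletCharacter.LSeriesSummable_of_one_lt_re χ₂ hs) hs).differentiableAt.hasDerivAt
  have d3 := (w11_diff (a := ch (χ₁ * χ₂)) (fun s hs =>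
    DirichletCharacter.LSeriesSummable_of_one_lt_re (χ₁ * χ₂) hs) hs).differentiableAt.hasDerivAt
  have hd := ((d0.mul d1).mul d2).mul d3
  have n0 : LSeries (fun _ => 1) s ≠ 0 := LSeries_one_ne_zero_of_one_lt_re hs
  have n1 : LSeries (ch χ₁) s ≠ 0 := DirichletCharacter.LSeries_ne_zero_of_one_lt_re χ₁ hs
  have n2 : LSeries (ch χ₂) s ≠ 0 := DirichletCharacter.LSeries_ne_zero_of_one_lt_re χ₂ hs
  have n3 : LSeries (ch (χ₁ * χ₂)) s ≠ 0 :=
    DirichletCharacter.LSeries_ne_zero_of_one_lt_re (χ₁ * χ₂) hs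
  have hd' : deriv (FF χ₁ χ₂) s = _ := HasDerivAt.deriv hd
  rw [hd', w11_sum χ₁ χ₂ hs, FF]
  simp only [Pi.mul_apply]
  field_simp
  ring

theorem w11_FF_an {q : ℕ} (χ₁ χ₂ : DirichletCharacter ℂ q) {s : ℂ} (hs : 1 < s.re) :
    AnalyticAt ℂ (FF χ₁ χ₂) s := by
  have d0 := w11_diff (a := fun _ => 1) (fun s hs => w11_one_summ hs) hs
  have d1 := w11_diff (a := ch χ₁)
    (fun s hs => DirichletCharacter.LSeriesSummable_of_one_lt_re χ₁ hs) hs
  have d2 := w11_diff (a := ch χ₂)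
    (fun s hs => DirichletCharacter.LSeriesSummable_of_one_lt_re χ₂ hs) hs
  have d3 := w11_diff (a := ch (χ₁ * χ₂)) (fun s hs =>
    DirichletCharacter.LSeriesSummable_of_one_lt_re (χ₁ * χ₂) hs) hs
  exact ((d0.mul d1).mul d2).mul d3

open ComplexOrder in
theorem w11_a_nonneg {q : ℕ} (χ₁ χ₂ : DirichletCharacter ℂ q) (h1 : χ₁ ^ 2 = 1)
    (h2 : χ₂ ^ 2 = 1) : 0 ≤ w11_a χ₁ χ₂ := by
  obtain ⟨g1, hg1, hb1, ho1⟩ := w11_real χ₁ h1
  obtain ⟨g2, hg2, hb2, ho2⟩ := w11_real χ₂ h2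
  intro n
  have h3 : w11_a χ₁ χ₂ n = (((1 + g1 n) * (1 + g2 n) * ArithmeticFunction.vonMangoldt n : ℝ) : ℂ) := by
    rw [w11_a, hg1, hg2]; push_cast; ring
  rw [h3]
  have h4 : 0 ≤ (1 + g1 n) * (1 + g2 n) * ArithmeticFunction.vonMangoldt n := by
    have a1 := (abs_le.mp (hb1 n)).1
    have a2 := (abs_le.mp (hb2 n)).1
    have a3 : 0 ≤ ArithmeticFunction.vonMangoldt n := ArithmeticFunction.vonMangoldt_nonneg
    have a4 : 0 ≤ 1 + g1 n := by linarith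
    have a5 : 0 ≤ 1 + g2 n := by linarith
    positivity
  simpa using (Complex.zero_le_real.mpr h4)

open ComplexOrder in
theorem w11_main {q : ℕ} (χ₁ χ₂ : DirichletCharacter ℂ q) (h1 : χ₁ ^ 2 = 1)
    (h2 : χ₂ ^ 2 = 1) (m : ℕ) : 0 ≤ (-1 : ℂ) ^ m * iteratedDeriv m (FF χ₁ χ₂) 2 := by
  have h2re : (1 : ℝ) < (2 : ℂ).re := by norm_num
  induction m using Nat.strong_induction_on with
  | _ m ih =>
    rcases m with _ | m
    · obtain ⟨r, hr, hr1⟩ := w11_two q χ₁ χ₂ h1 h2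
      simp only [pow_zero, one_mul, iteratedDeriv_zero]
      rw [hr]
      exact Complex.zero_le_real.mpr (by linarith)
    · have hev : deriv (FF χ₁ χ₂) =ᶠ[nhds 2]
          fun s => -(LSeries (w11_a χ₁ χ₂) s * FF χ₁ χ₂ s) := by
        have hopen : IsOpen {s : ℂ | 1 < s.re} := isOpen_lt continuous_const Complex.continuous_re
        filter_upwards [hopen.mem_nhds h2re] with s hs
        exact w11_deriv χ₁ χ₂ hs
      have hH : ContDiffAt ℂ m (LSeries (w11_a χ₁ χ₂)) 2 :=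
        (w11_diff (fun s hs => w11_summ χ₁ χ₂ hs) h2re).contDiffAt
      have hF : ContDiffAt ℂ m (FF χ₁ χ₂) 2 := (w11_FF_an χ₁ χ₂ h2re).contDiffAt
      rw [iteratedDeriv_succ', hev.iteratedDeriv_eq m, iteratedDeriv_fun_neg,
        iteratedDeriv_fun_mul hH hF]
      have h3 : (-1 : ℂ) ^ (m + 1) * -∑ i ∈ Finset.range (m + 1), (m.choose i : ℂ) *
          iteratedDeriv i (LSeries (w11_a χ₁ χ₂)) 2 * iteratedDeriv (m - i) (FF χ₁ χ₂) 2
          = ∑ i ∈ Finset.range (m + 1), (m.choose i : ℂ) *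
          (((-1 : ℂ) ^ i * iteratedDeriv i (LSeries (w11_a χ₁ χ₂)) 2) *
            ((-1 : ℂ) ^ (m - i) * iteratedDeriv (m - i) (FF χ₁ χ₂) 2)) := by
        rw [pow_succ, mul_neg_one, neg_mul_neg, Finset.mul_sum]
        refine Finset.sum_congr rfl (fun i hi => ?_)
        have hi' : i + (m - i) = m := by
          have := Finset.mem_range.mp hi; omega
        have h4 : (-1 : ℂ) ^ m = (-1 : ℂ) ^ i * (-1 : ℂ) ^ (m - i) := by rw [← pow_add, hi']
        rw [h4]; ring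
      rw [h3]
      refine Finset.sum_nonneg (fun i hi => ?_)
      have hi' := Finset.mem_range.mp hi
      have h5 : 0 ≤ (-1 : ℂ) ^ i * iteratedDeriv i (LSeries (w11_a χ₁ χ₂)) 2 := by
        have h6 := LSeries.iteratedDeriv_alternating (w11_a_nonneg χ₁ χ₂ h1 h2) (x := 2)
          (by
            have := w11_absc (fun s hs => w11_summ χ₁ χ₂ hs) (s := 2) h2re
            simpa using this) i
        simpa using h6
      have h7 := ih (m - i) (by omega)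
      have h8 : (0 : ℂ) ≤ (m.choose i : ℂ) := by exact_mod_cast Nat.zero_le _
      exact mul_nonneg h8 (mul_nonneg h5 h7)

/-- Proof. `F = LSeries f` near `2`, with `f = r * (χ₂ r)` (Dirichlet convolution), `r = 1 * χ₁`
(`DirichletCharacter.zetaMul`, nonnegative by `zetaMul_nonneg`); `χ₂ * (χ₁χ₂) = χ₂ · (1 * χ₁)`
(`DirichletCharacter.mul_convolution_distrib`). `f ≥ 0`: `f` is multiplicative and at a prime power
`f(p^k) = ∑_{i+j=k} r(p^i) r(p^j) χ₂(p)^j`; real characters have values in `{0, 1, -1}`. If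
`χ₂(p) ∈ {0,1}` all terms are `≥ 0`; if `χ₂(p) = -1`, `r(p^i)` is `i+1`, `1`, or `[i even]`
according as `χ₁(p) = 1, 0, -1`, and `∑_{i+j=k} (-1)^j r(p^i) r(p^j) ≥ 0` in each case (it is the
coefficient of `(1-T²)^(-2)`, `(1-T²)^(-1)`, `(1-T²)^(-2)`). Then
`LSeries.iteratedDeriv_alternating`. Alternative without coefficients: `-F'/F = ∑ Λ(n)(1+χ₁(n))
(1+χ₂(n)) n^{-s}` has nonnegative coefficients, and Leibniz' rule for `-F' = (−F'/F) F` gives the
claim by induction from `F(2) > 0`; and `L(2,χ) ≥ 1 - ∑_{n≥2} n^{-2} ≥ 1/4`, `ζ(2) ≥ 1`. -/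
theorem FF_pos (q : ℕ) [NeZero q] (χ₁ χ₂ : DirichletCharacter ℂ q) (h1 : χ₁ ^ 2 = 1)
    (h2 : χ₂ ^ 2 = 1) (m : ℕ) : 0 ≤ ((-1 : ℂ) ^ m * iteratedDeriv m (FF χ₁ χ₂) 2).re := by
  exact (Complex.nonneg_iff.mp (w11_main χ₁ χ₂ h1 h2 m)).1

theorem FF_two (q : ℕ) [NeZero q] (χ₁ χ₂ : DirichletCharacter ℂ q) (h1 : χ₁ ^ 2 = 1)
    (h2 : χ₂ ^ 2 = 1) : 1 / 64 ≤ (FF χ₁ χ₂ 2).re := by
  obtain ⟨r, hr, hr1⟩ := w11_two q χ₁ χ₂ h1 h2
  rw [hr, Complex.ofReal_re]
  exact hr1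

end Pool.Agent.Lib.MP_d9bc60_nt.UV
end

section
/-! Row W12 (about 130 lines): `F(s) - λ/(s-1)` on the circle `|s - 2| = 4/3`. -/

set_option autoImplicit false

namespace Pool.Agent.Lib.MP_d9bc60_nt.UV

open Finset

/-- `λ = L(1,χ₁) L(1,χ₂) L(1,χ₁χ₂)`. -/
noncomputable def lam3 {q : ℕ} [NeZero q] (χ₁ χ₂ : DirichletCharacter ℂ q) : ℂ :=
  DirichletCharacter.LFunction χ₁ 1 * DirichletCharacter.LFunction χ₂ 1 *
    DirichletCharacter.LFunction (χ₁ * χ₂) 1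

/-- The entire function `Z L₁ L₂ L₁₂`. -/
noncomputable def w12F {q : ℕ} [NeZero q] (χ₁ χ₂ : DirichletCharacter ℂ q) : ℂ → ℂ := fun s =>
  w21Z s * (DirichletCharacter.LFunction χ₁ s * DirichletCharacter.LFunction χ₂ s *
    DirichletCharacter.LFunction (χ₁ * χ₂) s)

theorem w12F_diff {q : ℕ} [NeZero q] (χ₁ χ₂ : DirichletCharacter ℂ q) (h1 : χ₁ ≠ 1) (h2 : χ₂ ≠ 1)
    (h3 : χ₁ * χ₂ ≠ 1) : Differentiable ℂ (w12F χ₁ χ₂) :=
  w21Z_diff.mul (((DirichletCharacter.differentiable_LFunction h1).mul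
    (DirichletCharacter.differentiable_LFunction h2)).mul
    (DirichletCharacter.differentiable_LFunction h3))

/-- Proof. `Z(s) = (s-1)ζ(s)` extends to an entire function with `Z(1) = 1` (e.g.
`DirichletCharacter.LFunctionTrivChar₁` at level `1`, or `Function.update` with
`riemannZeta_residue_one` and `Complex.differentiableOn_update_limUnder_of_bddAbove`). Let
`F₀ = Z L₁ L₂ L₁₂` (entire), `G = dslope F₀ 1` (entire), so for `s ≠ 1`
`G(s) = (F₀(s) - λ)/(s-1)`. On the circle `Re s ≥ 2/3`, `|s| ≤ 10/3`, `|s-1| ≥ 1/3`, `Z` is bounded by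
compactness, and each `‖L‖ ≤ 10 q` (`LFunction_le`), `‖λ‖ ≤ (2q)³`. -/
theorem circle_bound : ∃ C : ℝ, 1 ≤ C ∧ ∀ (q : ℕ) [NeZero q] (χ₁ χ₂ : DirichletCharacter ℂ q),
    χ₁ ≠ 1 → χ₂ ≠ 1 → χ₁ * χ₂ ≠ 1 → ∃ G : ℂ → ℂ, Differentiable ℂ G ∧
      (∀ s : ℂ, s ≠ 1 → G s = riemannZeta s * DirichletCharacter.LFunction χ₁ s *
        DirichletCharacter.LFunction χ₂ s * DirichletCharacter.LFunction (χ₁ * χ₂) s -
        lam3 χ₁ χ₂ / (s - 1)) ∧
      ∀ s ∈ Metric.sphere (2 : ℂ) (4 / 3), ‖G s‖ ≤ C * (q : ℝ) ^ 3 := by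
  obtain ⟨M, hM⟩ := (isCompact_sphere (2 : ℂ) (4 / 3)).exists_bound_of_continuousOn
    w21Z_diff.continuous.continuousOn
  have hM0 : 0 ≤ max M 0 := le_max_right _ _
  refine ⟨3 * (max M 0 * 1000 + 8), by nlinarith, ?_⟩
  intro q _ χ₁ χ₂ h1 h2 h3
  have hval : ∀ s : ℂ, s ≠ 1 → dslope (w12F χ₁ χ₂) 1 s = (w12F χ₁ χ₂ s - lam3 χ₁ χ₂) / (s - 1) := by
    intro s hs
    rw [dslope_of_ne _ hs, slope_def_field]
    congr 2
    simp only [w12F, w21Z_one, one_mul, lam3]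
  refine ⟨dslope (w12F χ₁ χ₂) 1, ?_, ?_, ?_⟩
  · rw [← differentiableOn_univ]
    exact (Complex.differentiableOn_dslope Filter.univ_mem).mpr
      (w12F_diff χ₁ χ₂ h1 h2 h3).differentiableOn
  · intro s hs
    rw [hval s hs]
    have h4 : s - 1 ≠ 0 := sub_ne_zero.mpr hs
    simp only [w12F, w21Z_ne hs]
    field_simp
  · intro s hs
    rw [mem_sphere_iff_norm] at hs
    have hre : 2 / 3 ≤ s.re := by
      have h4 := Complex.abs_re_le_norm (s - 2)
      rw [hs] at h4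
      have h5 : (s - 2).re = s.re - 2 := by simp
      rw [h5] at h4
      have := (abs_le.mp h4).1
      linarith
    have hns : ‖s‖ ≤ 10 / 3 := by
      calc ‖s‖ = ‖(s - 2) + 2‖ := by ring_nf
        _ ≤ ‖s - 2‖ + ‖(2 : ℂ)‖ := norm_add_le _ _
        _ = 4 / 3 + 2 := by rw [hs]; norm_num
        _ = 10 / 3 := by norm_num
    have hs1 : 1 / 3 ≤ ‖s - 1‖ := by
      have h4 : ‖s - 2‖ ≤ ‖s - 1‖ + ‖(1 : ℂ)‖ := by
        calc ‖s - 2‖ = ‖(s - 1) - 1‖ := by ring_nf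
          _ ≤ _ := norm_sub_le _ _
      rw [hs, norm_one] at h4
      linarith
    have hsne : s ≠ 1 := by
      rintro rfl
      norm_num at hs1
    have hq1 : (1 : ℝ) ≤ q := by
      exact_mod_cast Nat.one_le_iff_ne_zero.mpr (NeZero.ne q)
    have hL : ∀ χ : DirichletCharacter ℂ q, χ ≠ 1 → ‖DirichletCharacter.LFunction χ s‖ ≤ 10 * q := by
      intro χ hχ
      refine (LFunction_le q χ hχ s (by linarith)).trans ?_
      rw [div_le_iff₀ (by linarith)]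
      nlinarith
    have hL1 : ∀ χ : DirichletCharacter ℂ q, χ ≠ 1 → ‖DirichletCharacter.LFunction χ 1‖ ≤ 2 * q := by
      intro χ hχ
      have := LFunction_le q χ hχ 1 (by simp)
      simpa using this
    have hZ : ‖w21Z s‖ ≤ max M 0 := (hM s (by rw [mem_sphere_iff_norm]; exact hs)).trans (le_max_left _ _)
    have hF : ‖w12F χ₁ χ₂ s‖ ≤ max M 0 * (10 * q * (10 * q) * (10 * q)) := by
      simp only [w12F, norm_mul]
      have ha := hL χ₁ h1
      have hb := hL χ₂ h2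
      have hc := hL (χ₁ * χ₂) h3
      gcongr
    have hlam : ‖lam3 χ₁ χ₂‖ ≤ 2 * q * (2 * q) * (2 * q) := by
      simp only [lam3, norm_mul]
      have ha := hL1 χ₁ h1
      have hb := hL1 χ₂ h2
      have hc := hL1 (χ₁ * χ₂) h3
      gcongr
    rw [hval s hsne, norm_div, div_le_iff₀ (by linarith)]
    calc ‖w12F χ₁ χ₂ s - lam3 χ₁ χ₂‖ ≤ ‖w12F χ₁ χ₂ s‖ + ‖lam3 χ₁ χ₂‖ := norm_sub_le _ _
      _ ≤ max M 0 * (10 * q * (10 * q) * (10 * q)) + 2 * q * (2 * q) * (2 * q) := add_le_add hF hlam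
      _ = 3 * (max M 0 * 1000 + 8) * (q : ℝ) ^ 3 * (1 / 3) := by ring
      _ ≤ 3 * (max M 0 * 1000 + 8) * (q : ℝ) ^ 3 * ‖s - 1‖ := by gcongr

end Pool.Agent.Lib.MP_d9bc60_nt.UV
end

section
/-! Row W14 (about 130 lines): a lower bound for `λ` if `F(α) ≤ 0`. -/

set_option autoImplicit false

namespace Pool.Agent.Lib.MP_d9bc60_nt.UV

open Finset

theorem w14_inv_contDiff (m : ℕ) : ContDiffAt ℂ m (fun s : ℂ => (s - 1)⁻¹) 2 := by
  refine ContDiffAt.inv (contDiffAt_id.sub contDiffAt_const) ?_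
  norm_num

theorem w14_inv_deriv (m : ℕ) :
    iteratedDeriv m (fun s : ℂ => (s - 1)⁻¹) 2 = (-1) ^ m * (m.factorial : ℂ) := by
  rw [iteratedDeriv_eq_iterate]
  have h := congrFun (iter_deriv_inv_linear_sub (𝕜 := ℂ) m 1 1) 2
  simp only [one_mul] at h
  rw [h]
  have h2 : (2 : ℂ) - 1 = 1 := by norm_num
  rw [h2, one_pow, one_zpow, mul_one, mul_one]

/-- Proof. `G` from `circle_bound`, `M = C₁ q³`, `lam = ‖λ‖`. Near `2` (`Re s > 1`) `G(s) = FF(s) -
λ/(s-1)` (`LFunction_eq_LSeries`, `LSeries_one_eq_riemannZeta`), so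
`(-1)^m G^{(m)}(2) = (-1)^m FF^{(m)}(2) - m! λ` (`iteratedDeriv` of `(s-1)^{-1}` at `2` is
`(-1)^m m!`; use `Filter.EventuallyEq.iteratedDeriv_eq`), and `FF_pos`, `FF_two` give the
hypotheses of `estermann`. At `α`: `Re G(α) = Re F(α) + Re λ/(1-α) ≤ ‖λ‖/(1-α)`. Finally
`M^(-C(1-α)) ≥ c q^(-3C(1-α))`. -/
theorem lam_ge : ∃ C : ℝ, 1 ≤ C ∧ ∀ (q : ℕ) [NeZero q] (χ₁ χ₂ : DirichletCharacter ℂ q) (α : ℝ),
    χ₁ ^ 2 = 1 → χ₂ ^ 2 = 1 → χ₁ ≠ 1 → χ₂ ≠ 1 → χ₁ * χ₂ ≠ 1 → 7 / 8 < α → α < 1 →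
    (riemannZeta α * DirichletCharacter.LFunction χ₁ α * DirichletCharacter.LFunction χ₂ α *
      DirichletCharacter.LFunction (χ₁ * χ₂) α).re ≤ 0 →
    (1 - α) / C * (q : ℝ) ^ (-(C * (1 - α))) ≤ ‖lam3 χ₁ χ₂‖ := by
  obtain ⟨C₁, hC₁, hcirc⟩ := circle_bound
  obtain ⟨C, hC, hest⟩ := estermann
  have hC₁C : (1 : ℝ) ≤ C₁ ^ C := Real.one_le_rpow hC₁ (by linarith)
  refine ⟨3 * C * C₁ ^ C, by nlinarith, ?_⟩
  intro q _ χ₁ χ₂ α h1 h2 hn1 hn2 hn12 hα1 hα2 hF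
  obtain ⟨G, hG, hGF, hGb⟩ := hcirc q χ₁ χ₂ hn1 hn2 hn12
  have hq1 : (1 : ℝ) ≤ q := by exact_mod_cast Nat.one_le_iff_ne_zero.mpr (NeZero.ne q)
  have hM : 1 ≤ C₁ * (q : ℝ) ^ 3 := by
    have : 1 ≤ (q : ℝ) ^ 3 := one_le_pow₀ hq1
    nlinarith
  set lam : ℂ := lam3 χ₁ χ₂ with hlam
  have hFF : ∀ s : ℂ, 1 < s.re → FF χ₁ χ₂ s = riemannZeta s * DirichletCharacter.LFunction χ₁ s *
      DirichletCharacter.LFunction χ₂ s * DirichletCharacter.LFunction (χ₁ * χ₂) s := by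
    intro s hs
    unfold FF ch
    rw [DirichletCharacter.LFunction_eq_LSeries χ₁ hs, DirichletCharacter.LFunction_eq_LSeries χ₂ hs,
      DirichletCharacter.LFunction_eq_LSeries (χ₁ * χ₂) hs, ← LSeries_one_eq_riemannZeta hs]
    rfl
  have hne : ∀ s : ℂ, 1 < s.re → s ≠ 1 := by
    rintro s hs rfl
    simp at hs
  have hopen : ∀ᶠ s in nhds (2 : ℂ), 1 < s.re :=
    (Complex.continuous_re.isOpen_preimage _ isOpen_Ioi).mem_nhds (by simp)
  have hev : FF χ₁ χ₂ =ᶠ[nhds 2] (G + fun s => lam * (s - 1)⁻¹) := by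
    filter_upwards [hopen] with s hs
    rw [hFF s hs, Pi.add_apply, hGF s (hne s hs)]
    ring
  have hGc : ∀ m : ℕ, ContDiffAt ℂ m G 2 := fun m => hG.contDiff.contDiffAt
  have hderiv : ∀ m : ℕ, (-1 : ℂ) ^ m * iteratedDeriv m G 2 =
      (-1 : ℂ) ^ m * iteratedDeriv m (FF χ₁ χ₂) 2 - (m.factorial : ℂ) * lam := by
    intro m
    rw [hev.iteratedDeriv_eq m, iteratedDeriv_add (hGc m)
      (contDiffAt_const.mul (w14_inv_contDiff m)), iteratedDeriv_const_mul_field,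
      w14_inv_deriv]
    have h3 : (-1 : ℂ) ^ m * (-1 : ℂ) ^ m = 1 := by
      rw [← mul_pow]
      norm_num
    linear_combination -(lam * (m.factorial : ℂ)) * h3
  have hA : ∀ m : ℕ, -(‖lam‖ * m.factorial) ≤ ((-1 : ℂ) ^ m * iteratedDeriv m G 2).re := by
    intro m
    rw [hderiv m, Complex.sub_re]
    have h3 := FF_pos q χ₁ χ₂ h1 h2 m
    have h4 : ((m.factorial : ℂ) * lam).re ≤ ‖lam‖ * m.factorial := by
      calc ((m.factorial : ℂ) * lam).re ≤ ‖(m.factorial : ℂ) * lam‖ := Complex.re_le_norm _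
        _ = ‖lam‖ * m.factorial := by
          rw [norm_mul, Complex.norm_natCast, mul_comm]
    linarith
  have hB : 1 / 64 - ‖lam‖ ≤ (G 2).re := by
    have h3 := hGF 2 (by norm_num)
    rw [← hFF 2 (by norm_num)] at h3
    have h4 : G 2 = FF χ₁ χ₂ 2 - lam := by
      rw [h3]
      have : (2 : ℂ) - 1 = 1 := by norm_num
      rw [this, div_one]
    rw [h4, Complex.sub_re]
    have h5 := FF_two q χ₁ χ₂ h1 h2
    have h6 := Complex.re_le_norm lam
    linarith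
  have hD : (G α).re ≤ ‖lam‖ / (1 - α) := by
    have hα' : ((α : ℝ) : ℂ) ≠ 1 := by exact_mod_cast hα2.ne
    rw [hGF α hα', Complex.sub_re]
    have h3 : (lam / ((α : ℂ) - 1)).re = -(lam.re / (1 - α)) := by
      have h4 : (α : ℂ) - 1 = ((α - 1 : ℝ) : ℂ) := by push_cast; rfl
      rw [h4, Complex.div_ofReal_re, ← div_neg, neg_sub]
    rw [h3]
    have h4 : lam.re / (1 - α) ≤ ‖lam‖ / (1 - α) :=
      div_le_div_of_nonneg_right (Complex.re_le_norm lam) (by linarith)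
    linarith
  have hfin := hest G (C₁ * (q : ℝ) ^ 3) ‖lam‖ α hG hM (norm_nonneg _) hα1 hα2 hGb hA hB hD
  refine le_trans ?_ hfin
  set t : ℝ := 1 - α with ht
  have ht0 : 0 < t := by linarith
  have ht1 : t ≤ 1 := by linarith
  have hq0 : (0 : ℝ) < q := by linarith
  have hC0 : (0 : ℝ) < C := by linarith
  have hC₁0 : (0 : ℝ) < C₁ := by linarith
  have h3 : (C₁ * (q : ℝ) ^ 3) ^ (-(C * t)) = C₁ ^ (-(C * t)) * (q : ℝ) ^ (-(3 * C * t)) := by
    rw [Real.mul_rpow hC₁0.le (by positivity), ← Real.rpow_natCast (q : ℝ) 3,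
      ← Real.rpow_mul hq0.le]
    congr 2
    push_cast
    ring
  have h4 : C₁ ^ (-C) ≤ C₁ ^ (-(C * t)) :=
    Real.rpow_le_rpow_of_exponent_le hC₁ (by nlinarith)
  have h5 : (q : ℝ) ^ (-(3 * C * C₁ ^ C * t)) ≤ (q : ℝ) ^ (-(3 * C * t)) := by
    refine Real.rpow_le_rpow_of_exponent_le hq1 ?_
    have : 3 * C * t ≤ 3 * C * C₁ ^ C * t := by
      have h6 : 3 * C ≤ 3 * C * C₁ ^ C := by nlinarith
      exact mul_le_mul_of_nonneg_right h6 ht0.le
    linarith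
  rw [h3]
  have h7 : 0 < C₁ ^ C := by linarith
  have h8 : t / (3 * C * C₁ ^ C) ≤ t / C * C₁ ^ (-C) := by
    rw [Real.rpow_neg hC₁0.le, ← div_eq_mul_inv, div_div]
    refine div_le_div_of_nonneg_left ht0.le (by positivity) ?_
    have : 0 < C * C₁ ^ C := by positivity
    nlinarith
  calc t / (3 * C * C₁ ^ C) * (q : ℝ) ^ (-(3 * C * C₁ ^ C * t))
      ≤ (t / C * C₁ ^ (-C)) * (q : ℝ) ^ (-(3 * C * t)) :=
        mul_le_mul h8 h5 (Real.rpow_nonneg hq0.le _) (by positivity)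
    _ ≤ (t / C * C₁ ^ (-(C * t))) * (q : ℝ) ^ (-(3 * C * t)) := by
        refine mul_le_mul_of_nonneg_right ?_ (Real.rpow_nonneg hq0.le _)
        exact mul_le_mul_of_nonneg_left h4 (by positivity)
    _ = t / C * (C₁ ^ (-(C * t)) * (q : ℝ) ^ (-(3 * C * t))) := by ring

end Pool.Agent.Lib.MP_d9bc60_nt.UV
end

section
/-! Row W15 (about 150 lines): real characters on the real axis. -/

set_option autoImplicit false

namespace Pool.Agent.Lib.MP_d9bc60_nt.UV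

open Finset

theorem w15_frequently : ∃ᶠ z in nhdsWithin (2 : ℂ) {2}ᶜ, ∃ x : ℝ, 1 < x ∧ z = (x : ℂ) := by
  have h1 : Filter.Tendsto (fun n : ℕ => (2 : ℂ) + 1 / ((n : ℂ) + 1)) Filter.atTop
      (nhdsWithin (2 : ℂ) {2}ᶜ) := by
    rw [tendsto_nhdsWithin_iff]
    constructor
    · have h2 : Filter.Tendsto (fun n : ℕ => (2 : ℂ) + 1 / ((n : ℂ) + 1)) Filter.atTop
          (nhds (2 + 0)) :=
        tendsto_const_nhds.add tendsto_one_div_add_atTop_nhds_zero_nat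
      simpa using h2
    · refine Filter.Eventually.of_forall fun n => ?_
      have h3 : ((n : ℂ) + 1) ≠ 0 := by exact_mod_cast Nat.succ_ne_zero n
      have h4 : 1 / ((n : ℂ) + 1) ≠ 0 := one_div_ne_zero h3
      simp only [Set.mem_compl_iff, Set.mem_singleton_iff]
      intro h5
      exact h4 (by linear_combination h5)
  refine h1.frequently (Filter.Eventually.frequently (Filter.Eventually.of_forall fun n => ?_))
  refine ⟨2 + 1 / ((n : ℝ) + 1), ?_, by push_cast; rfl⟩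
  have : (0 : ℝ) < 1 / ((n : ℝ) + 1) := by positivity
  linarith

/-- A holomorphic function on a connected symmetric open set that is real on `(1, ∞)` is real on
the real axis. -/
theorem w15_real {f : ℂ → ℂ} {U : Set ℂ} (hU : IsOpen U) (hc : IsPreconnected U)
    (hconj : ∀ z ∈ U, (starRingEnd ℂ) z ∈ U) (hf : DifferentiableOn ℂ f U) (h2 : (2 : ℂ) ∈ U)
    (hreal : ∀ x : ℝ, 1 < x → (f x).im = 0) {x : ℝ} (hx : (x : ℂ) ∈ U) : (f x).im = 0 := by
  have hg : DifferentiableOn ℂ (fun z => (starRingEnd ℂ) (f ((starRingEnd ℂ) z))) U := by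
    intro z hz
    have h3 : DifferentiableAt ℂ f ((starRingEnd ℂ) z) :=
      hf.differentiableAt (hU.mem_nhds (hconj z hz))
    have h4 := h3.conj_conj
    rw [Complex.conj_conj] at h4
    exact h4.differentiableWithinAt
  have h5 := AnalyticOnNhd.eqOn_of_preconnected_of_frequently_eq (hf.analyticOnNhd hU)
    (hg.analyticOnNhd hU) hc h2 (w15_frequently.mono fun z ⟨y, hy, hz⟩ => by
      rw [hz]
      change f y = (starRingEnd ℂ) (f ((starRingEnd ℂ) y))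
      rw [Complex.conj_ofReal]
      exact (Complex.conj_eq_iff_im.mpr (hreal y hy)).symm)
  have h6 := h5 hx
  simp only [Complex.conj_ofReal] at h6
  exact Complex.conj_eq_iff_im.mp h6.symm

theorem w15_term_im {q : ℕ} (χ : DirichletCharacter ℂ q) (h : χ ^ 2 = 1) (x : ℝ) (n : ℕ) :
    (LSeries.term (fun n => χ (n : ZMod q)) (x : ℂ) n).im = 0 := by
  rcases Nat.eq_zero_or_pos n with rfl | hn
  · simp
  rw [LSeries.term_of_ne_zero hn.ne']
  have h1 : ((n : ℂ) ^ (x : ℂ)) = (((n : ℝ) ^ x : ℝ) : ℂ) := by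
    rw [Complex.ofReal_cpow (Nat.cast_nonneg n)]
    simp
  rw [h1]
  rcases (MulChar.isQuadratic_iff_sq_eq_one.mpr h) (n : ZMod q) with h2 | h2 | h2
  · simp [h2]
  · rw [h2, ← Complex.ofReal_one, ← Complex.ofReal_div]
    exact Complex.ofReal_im _
  · rw [h2, ← Complex.ofReal_one, ← Complex.ofReal_neg, ← Complex.ofReal_div]
    exact Complex.ofReal_im _

theorem w15_real_gt {q : ℕ} [NeZero q] (χ : DirichletCharacter ℂ q) (h : χ ^ 2 = 1) (x : ℝ)
    (hx : 1 < x) : (DirichletCharacter.LFunction χ (x : ℂ)).im = 0 := by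
  rw [DirichletCharacter.LFunction_eq_LSeries χ (by simpa using hx)]
  have hs : LSeriesSummable (fun n => χ (n : ZMod q)) (x : ℂ) :=
    DirichletCharacter.LSeriesSummable_of_one_lt_re χ (by simpa using hx)
  unfold LSeries
  rw [Complex.im_tsum hs]
  simp only [w15_term_im χ h, tsum_zero]

/-- Proof. The values of `χ` are real (`χ² = 1`), so `conj (L(s,χ)) = L(conj s, χ)` for `Re s > 1`
(termwise), and everywhere by the identity theorem for the entire functions `L(·,χ)` and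
`s ↦ conj (L(conj s, χ))`. -/
theorem LFunction_real (q : ℕ) [NeZero q] (χ : DirichletCharacter ℂ q) (h : χ ^ 2 = 1)
    (hχ : χ ≠ 1) (x : ℝ) : (DirichletCharacter.LFunction χ (x : ℂ)).im = 0 := by
  exact w15_real isOpen_univ isPreconnected_univ (fun _ _ => Set.mem_univ _)
    (DirichletCharacter.differentiable_LFunction hχ).differentiableOn (Set.mem_univ _)
    (w15_real_gt χ h) (Set.mem_univ _)

theorem w15_two_pos {q : ℕ} [NeZero q] (χ : DirichletCharacter ℂ q) :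
    0 < (DirichletCharacter.LFunction χ ((2 : ℝ) : ℂ)).re := by
  rw [DirichletCharacter.LFunction_eq_LSeries χ (by simp)]
  have hs : LSeriesSummable (fun n => χ (n : ZMod q)) ((2 : ℝ) : ℂ) :=
    DirichletCharacter.LSeriesSummable_of_one_lt_re χ (by simp)
  set f : ℕ → ℂ := LSeries.term (fun n => χ (n : ZMod q)) ((2 : ℝ) : ℂ) with hf
  have h1 : HasSum (fun n : ℕ => f n - (if n = 1 then 1 else 0)) ((∑' n, f n) - 1) :=
    hs.hasSum.sub (hasSum_ite_eq 1 (1 : ℂ))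
  have h2 : HasSum (fun n : ℕ => 1 / (n : ℝ) ^ 2 - (if n = 1 then 1 else 0))
      (Real.pi ^ 2 / 6 - 1) := hasSum_zeta_two.sub (hasSum_ite_eq 1 (1 : ℝ))
  have h3 : ∀ n : ℕ, ‖f n - (if n = 1 then 1 else 0)‖ ≤
      1 / (n : ℝ) ^ 2 - (if n = 1 then 1 else 0) := by
    intro n
    rcases Nat.eq_zero_or_pos n with rfl | hn
    · simp [hf]
    by_cases hn1 : n = 1
    · subst hn1
      simp [hf, LSeries.term]
    · rw [if_neg hn1, if_neg hn1, sub_zero, sub_zero, hf, LSeries.term_of_ne_zero hn.ne',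
        norm_div, Complex.norm_natCast_cpow_of_pos hn, Complex.ofReal_re]
      have h4 : ‖χ (n : ZMod q)‖ ≤ 1 := χ.norm_le_one _
      have h5 : (n : ℝ) ^ (2 : ℝ) = (n : ℝ) ^ 2 := by
        exact_mod_cast Real.rpow_natCast (n : ℝ) 2
      rw [h5]
      exact div_le_div_of_nonneg_right h4 (by positivity)
  have h6 : ‖(∑' n, f n) - 1‖ ≤ Real.pi ^ 2 / 6 - 1 := by
    rw [← h1.tsum_eq]
    exact tsum_of_norm_bounded h2 h3
  have h7 : Real.pi ^ 2 / 6 - 1 < 1 := by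
    have h8 : Real.pi < 3.15 := Real.pi_lt_d2
    have h9 : 0 < Real.pi := Real.pi_pos
    nlinarith
  have h10 : |((∑' n, f n) - 1).re| ≤ ‖(∑' n, f n) - 1‖ := Complex.abs_re_le_norm _
  rw [Complex.sub_re, Complex.one_re] at h10
  have h11 := (abs_le.mp (h10.trans h6)).1
  change 0 < (∑' n, f n).re
  linarith

/-- Proof. `x ↦ Re L(x,χ)` is continuous, real, nonzero on `[α, 1]` by hypothesis and on
`[1, 2]` (`DirichletCharacter.LFunction_ne_zero_of_one_le_re`), and positive at `2`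
(`Re L(2,χ) ≥ 1 - ∑_{n ≥ 2} n^{-2} > 0`). Intermediate value theorem. -/
theorem LFunction_real_pos (q : ℕ) [NeZero q] (χ : DirichletCharacter ℂ q) (h : χ ^ 2 = 1)
    (hχ : χ ≠ 1) (α : ℝ) (hα : α ≤ 1)
    (h0 : ∀ x : ℝ, α ≤ x → x ≤ 1 → DirichletCharacter.LFunction χ (x : ℂ) ≠ 0) :
    0 < (DirichletCharacter.LFunction χ (α : ℂ)).re := by
  by_contra hcon
  push Not at hcon
  have hcont : Continuous fun x : ℝ => (DirichletCharacter.LFunction χ (x : ℂ)).re :=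
    Complex.continuous_re.comp
      ((DirichletCharacter.differentiable_LFunction hχ).continuous.comp Complex.continuous_ofReal)
  have h2 := intermediate_value_Icc (show α ≤ 2 by linarith) hcont.continuousOn
  obtain ⟨x, ⟨hx1, hx2⟩, hx3⟩ := h2 ⟨hcon, (w15_two_pos χ).le⟩
  have hzero : DirichletCharacter.LFunction χ (x : ℂ) = 0 :=
    Complex.ext hx3 (LFunction_real q χ h hχ x)
  rcases le_or_gt x 1 with h3 | h3
  · exact h0 x hx1 h3 hzero
  · exact DirichletCharacter.LFunction_ne_zero_of_one_le_re χ (Or.inl hχ)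
      (by simpa using h3.le) hzero

/-- Proof. `(x-1)ζ(x) → 1` as `x → 1` (`riemannZeta_residue_one`), and `ζ` is real on the real axis
near `1` (conjugation symmetry; Mathlib may have `riemannZeta_conj`/`riemannZeta_im_eq_zero`). -/
theorem zeta_neg : ∃ ε : ℝ, 0 < ε ∧ ε < 1 / 8 ∧ ∀ x : ℝ, 1 - ε < x → x < 1 →
    (riemannZeta (x : ℂ)).re < 0 ∧ (riemannZeta (x : ℂ)).im = 0 := by
  have him : ∀ x : ℝ, x ≠ 1 → (riemannZeta (x : ℂ)).im = 0 := by
    intro x hx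
    refine w15_real (U := {1}ᶜ) isOpen_compl_singleton
      (isConnected_compl_singleton_of_one_lt_rank (by simp) 1).isPreconnected ?_ ?_ ?_
      (fun y hy => riemannZeta_im_eq_zero_of_one_lt hy) ?_
    · intro z hz hz2
      apply hz
      have := congrArg (starRingEnd ℂ) (Set.mem_singleton_iff.mp hz2)
      rw [Complex.conj_conj, map_one] at this
      exact this
    · intro z hz
      exact (differentiableAt_riemannZeta hz).differentiableWithinAt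
    · simp
    · simpa using hx
  have h1 := riemannZeta_residue_one
  have h2 : ∀ᶠ s in nhdsWithin (1 : ℂ) {1}ᶜ, ‖(s - 1) * riemannZeta s - 1‖ < 1 := by
    have := (Metric.tendsto_nhds.mp h1) 1 one_pos
    simpa [dist_eq_norm] using this
  rw [eventually_nhdsWithin_iff, Metric.eventually_nhds_iff] at h2
  obtain ⟨δ, hδ, h3⟩ := h2
  refine ⟨min δ (1 / 16), by positivity, by
    have := min_le_right δ (1 / 16)
    linarith, fun x hx1 hx2 => ⟨?_, him x hx2.ne⟩⟩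
  have h4 : dist (x : ℂ) 1 < δ := by
    rw [← Complex.ofReal_one, Complex.dist_of_im_eq (by simp)]
    simp only [Complex.ofReal_re]
    rw [Real.dist_eq, abs_sub_comm, abs_of_pos (by linarith)]
    have := min_le_left δ (1 / 16)
    linarith
  have h5 := h3 h4 (by
    simp only [Set.mem_compl_iff, Set.mem_singleton_iff]
    exact_mod_cast hx2.ne)
  have h6 : |(((x : ℂ) - 1) * riemannZeta x - 1).re| < 1 :=
    (Complex.abs_re_le_norm _).trans_lt h5
  have h7 : (((x : ℂ) - 1) * riemannZeta x - 1).re = (x - 1) * (riemannZeta x).re - 1 := by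
    rw [Complex.sub_re, Complex.one_re, ← Complex.ofReal_one, ← Complex.ofReal_sub,
      Complex.re_ofReal_mul]
  rw [h7] at h6
  have h8 := (abs_lt.mp h6).1
  by_contra h9
  push Not at h9
  nlinarith

end Pool.Agent.Lib.MP_d9bc60_nt.UV
end

section
/-! Row W16 (about 110 lines): changing the level at `s = 1`. -/

set_option autoImplicit false

namespace Pool.Agent.Lib.MP_d9bc60_nt.UV

open Finset

theorem w16_two_pow (Q : ℕ) (hQ : Q ≠ 0) : (2 : ℝ) ^ Q.primeFactors.card ≤ (Q.divisors.card : ℝ) := by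
  have h : 2 ^ Q.primeFactors.card ≤ Q.divisors.card := by
    rw [Nat.card_divisors hQ]
    refine Finset.pow_card_le_prod _ _ _ fun p hp => ?_
    have h1 := Nat.mem_primeFactors.1 hp
    have h2 := h1.1.factorization_pos_of_dvd hQ h1.2.1
    omega
  exact_mod_cast h

theorem w16_factor (q : ℕ) (χ : DirichletCharacter ℂ q) (p : ℕ) (hp : p.Prime) :
    ‖(1 : ℂ) - χ p * (p : ℂ) ^ (-(1 : ℂ))‖ ≤ 2 ∧ 1 / 2 ≤ ‖(1 : ℂ) - χ p * (p : ℂ) ^ (-(1 : ℂ))‖ := by
  have h1 : ‖χ p * (p : ℂ) ^ (-(1 : ℂ))‖ ≤ 1 / 2 := by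
    rw [norm_mul, Complex.cpow_neg_one, norm_inv, Complex.norm_natCast]
    have h2 : (2 : ℝ) ≤ p := by exact_mod_cast hp.two_le
    have h3 : (p : ℝ)⁻¹ ≤ 1 / 2 := by
      rw [one_div]
      exact inv_anti₀ (by norm_num) h2
    have h4 : 0 ≤ (p : ℝ)⁻¹ := by positivity
    have h5 := DirichletCharacter.norm_le_one χ (p : ZMod q)
    calc ‖χ p‖ * (p : ℝ)⁻¹ ≤ 1 * (1 / 2) := mul_le_mul h5 h3 h4 zero_le_one
      _ = 1 / 2 := one_mul _
  constructor
  · refine (norm_sub_le _ _).trans ?_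
    rw [norm_one]
    linarith
  · have := norm_sub_norm_le (1 : ℂ) (χ p * (p : ℂ) ^ (-(1 : ℂ)))
    rw [norm_one] at this
    linarith

/-- Proof. `DirichletCharacter.LFunction_changeLevel` at `s = 1`: the factor is
`∏_{p ∣ Q} (1 - χ(p)/p)`, of norm between `∏ (1 - 1/p) = φ(Q)/Q` and `∏ (1 + 1/p) ≤ Q/φ(Q)`, and
`Q/φ(Q) ≤ ∏_{p ∣ Q} 2 ≤ τ(Q) ≤ C Q^ε`; or `Q/φ(Q) ≤ 1 + log₂ Q` as `1 + 1/(p_i - 1) ≤ 1 + 1/i` for
the `i`-th prime factor. Any route to `C_ε Q^ε` is fine (`tau_le` in `A5Divisor` may be imported). -/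
theorem lift_bounds (ε : ℝ) (hε : 0 < ε) : ∃ C : ℝ, 1 ≤ C ∧
    ∀ (q Q : ℕ) [NeZero q] [NeZero Q] (h : q ∣ Q) (χ : DirichletCharacter ℂ q), χ ≠ 1 →
    ‖DirichletCharacter.LFunction (DirichletCharacter.changeLevel h χ) 1‖ ≤
      C * (Q : ℝ) ^ ε * ‖DirichletCharacter.LFunction χ 1‖ ∧
    ‖DirichletCharacter.LFunction χ 1‖ ≤
      C * (Q : ℝ) ^ ε * ‖DirichletCharacter.LFunction (DirichletCharacter.changeLevel h χ) 1‖ := by
  obtain ⟨C, hC, hτ⟩ := tau_le ε hε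
  refine ⟨C, hC, fun q Q _ _ h χ hχ => ?_⟩
  have hQ : Q ≠ 0 := NeZero.ne Q
  have h1 := DirichletCharacter.LFunction_changeLevel h χ (s := 1) (Or.inl hχ)
  have h2 : (2 : ℝ) ^ Q.primeFactors.card ≤ C * (Q : ℝ) ^ ε := (w16_two_pow Q hQ).trans (hτ Q (by omega))
  have h3 : ‖∏ p ∈ Q.primeFactors, ((1 : ℂ) - χ p * (p : ℂ) ^ (-(1 : ℂ)))‖ ≤ 2 ^ Q.primeFactors.card := by
    rw [norm_prod, ← Finset.prod_const]
    exact Finset.prod_le_prod (fun _ _ => norm_nonneg _)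
      fun p hp => (w16_factor q χ p (Nat.prime_of_mem_primeFactors hp)).1
  have h4 : (1 / 2 : ℝ) ^ Q.primeFactors.card ≤ ‖∏ p ∈ Q.primeFactors, ((1 : ℂ) - χ p * (p : ℂ) ^ (-(1 : ℂ)))‖ := by
    rw [norm_prod, ← Finset.prod_const]
    exact Finset.prod_le_prod (fun _ _ => by norm_num)
      fun p hp => (w16_factor q χ p (Nat.prime_of_mem_primeFactors hp)).2
  rw [h1, norm_mul]
  constructor
  · rw [mul_comm]
    exact mul_le_mul_of_nonneg_right (h3.trans h2) (norm_nonneg _)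
  · have h5 : 1 ≤ C * (Q : ℝ) ^ ε * ‖∏ p ∈ Q.primeFactors, ((1 : ℂ) - χ p * (p : ℂ) ^ (-(1 : ℂ)))‖ := by
      have h6 := mul_le_mul h2 h4 (by positivity) ((by positivity : (0 : ℝ) ≤ 2 ^ Q.primeFactors.card).trans h2)
      rw [← mul_pow, show (2 : ℝ) * (1 / 2) = 1 by norm_num, one_pow] at h6
      exact h6
    calc ‖DirichletCharacter.LFunction χ 1‖ = ‖DirichletCharacter.LFunction χ 1‖ * 1 := (mul_one _).symm
      _ ≤ ‖DirichletCharacter.LFunction χ 1‖ * (C * (Q : ℝ) ^ ε *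
            ‖∏ p ∈ Q.primeFactors, ((1 : ℂ) - χ p * (p : ℂ) ^ (-(1 : ℂ)))‖) :=
          mul_le_mul_of_nonneg_left h5 (norm_nonneg _)
      _ = _ := by ring

end Pool.Agent.Lib.MP_d9bc60_nt.UV
end

section
/-! Row W17 (about 180 lines): Siegel's theorem. -/

set_option autoImplicit false

namespace Pool.Agent.Lib.MP_d9bc60_nt.UV

open Finset

/-- The auxiliary character. -/
theorem w17_base (ε₁ : ℝ) (hε₁ : 0 < ε₁)
    (hζ : ∀ x : ℝ, 1 - ε₁ < x → x < 1 →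
      (riemannZeta (x : ℂ)).re < 0 ∧ (riemannZeta (x : ℂ)).im = 0)
    (hex : ∃ (q : ℕ) (_ : NeZero q) (χ : DirichletCharacter ℂ q), χ ^ 2 = 1 ∧ χ ≠ 1) :
    ∃ (q₁ : ℕ) (_ : NeZero q₁) (χ₁ : DirichletCharacter ℂ q₁) (α : ℝ), χ₁ ^ 2 = 1 ∧ χ₁ ≠ 1 ∧
      1 - ε₁ < α ∧ α < 1 ∧
      ∀ (Q : ℕ) [NeZero Q] (h : q₁ ∣ Q) (ψ : DirichletCharacter ℂ Q), ψ ^ 2 = 1 → ψ ≠ 1 →
        DirichletCharacter.changeLevel h χ₁ * ψ ≠ 1 →
        (riemannZeta α * DirichletCharacter.LFunction (DirichletCharacter.changeLevel h χ₁) α *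
          DirichletCharacter.LFunction ψ α *
          DirichletCharacter.LFunction (DirichletCharacter.changeLevel h χ₁ * ψ) α).re ≤ 0 := by
  by_cases hA : ∃ (q₁ : ℕ) (_ : NeZero q₁) (χ₁ : DirichletCharacter ℂ q₁) (α : ℝ),
      χ₁ ^ 2 = 1 ∧ χ₁ ≠ 1 ∧ 1 - ε₁ < α ∧ α < 1 ∧ DirichletCharacter.LFunction χ₁ (α : ℂ) = 0
  · obtain ⟨q₁, hq₁, χ₁, α, h1, h2, h3, h4, h5⟩ := hA
    refine ⟨q₁, hq₁, χ₁, α, h1, h2, h3, h4, ?_⟩
    intro Q _ h ψ _ _ _
    rw [DirichletCharacter.LFunction_changeLevel h χ₁ (Or.inl h2), h5]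
    simp
  · push Not at hA
    obtain ⟨q₁, hq₁, χ₁, h1, h2⟩ := hex
    refine ⟨q₁, hq₁, χ₁, 1 - ε₁ / 2, h1, h2, by linarith, by linarith, ?_⟩
    intro Q _ h ψ hψ hψ1 hprod
    have hα1 : (1 - ε₁ / 2 : ℝ) < 1 := by linarith
    have key : ∀ φ : DirichletCharacter ℂ Q, φ ^ 2 = 1 → φ ≠ 1 →
        0 < (DirichletCharacter.LFunction φ ((1 - ε₁ / 2 : ℝ) : ℂ)).re ∧
        (DirichletCharacter.LFunction φ ((1 - ε₁ / 2 : ℝ) : ℂ)).im = 0 := by
      intro φ hφ hφ1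
      refine ⟨LFunction_real_pos Q φ hφ hφ1 _ hα1.le ?_, LFunction_real Q φ hφ hφ1 _⟩
      intro x hx1 hx2
      rcases lt_or_eq_of_le hx2 with hx | hx
      · exact hA Q inferInstance φ x hφ hφ1 (by linarith) hx
      · subst hx
        simpa using DirichletCharacter.LFunction_apply_one_ne_zero hφ1
    have hψ₁ : (DirichletCharacter.changeLevel h χ₁) ^ 2 = 1 := by
      rw [← map_pow, h1, map_one]
    have hψ₁1 : DirichletCharacter.changeLevel h χ₁ ≠ 1 := by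
      intro hc
      exact h2 ((DirichletCharacter.changeLevel_eq_one_iff h).mp hc)
    have k1 := key _ hψ₁ hψ₁1
    have k2 := key ψ hψ hψ1
    have k3 := key (DirichletCharacter.changeLevel h χ₁ * ψ) (by rw [mul_pow, hψ₁, hψ, mul_one])
      hprod
    have k0 := hζ (1 - ε₁ / 2) (by linarith) hα1
    simp only [Complex.mul_re, Complex.mul_im, k0.2, k1.2, k2.2, k3.2, mul_zero, zero_mul,
      sub_zero, add_zero]
    have e1 := mul_neg_of_neg_of_pos k0.1 k1.1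
    have e2 := mul_neg_of_neg_of_pos e1 k2.1
    exact (mul_neg_of_neg_of_pos e2 k3.1).le

/-- Proof. Let `ε₁ = min(ε/(4C), ε_ζ)` with `C` from `lam_ge`, `ε_ζ` from `zeta_neg`.
Case A: some real `χ₁ ≠ 1` mod some `q₁` has `L(α, χ₁) = 0` for some `α ∈ (1-ε₁, 1)`; fix `q₁, χ₁, α`.
Case B: none; take `q₁ = 4`, `χ₁ = ZMod.χ₄` (as a complex character; real, `≠ 1`) and
`α = 1 - ε₁/2`. Now let `χ` mod `q` be real, `≠ 1`, `Q = q₁ q`, and let `ψ₁, ψ` be the lifts of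
`χ₁, χ` to level `Q` (`changeLevel`, injective, so real and `≠ 1`).
If `ψ₁ψ = 1` then `ψ = ψ₁` (`ψ₁² = 1`), so by `lift_bounds` twice `‖L(1,χ)‖ ≥ c Q^(-2ε') ‖L(1,χ₁)‖`
with `L(1,χ₁) ≠ 0` fixed. Otherwise the product in `lam_ge` is `≤ 0` at `α`: in case A it
is `0` (`LFunction_changeLevel` at `α`), in case B `ζ(α) < 0` and the three `L`-values are real
and `> 0` by `LFunction_real_pos` (no zero of the real characters `ψ₁, ψ, ψ₁ψ` of level `Q` in
`[α, 1)`, and none at `1`). So `‖L(1,ψ₁) L(1,ψ) L(1,ψ₁ψ)‖ ≥ c Q^(-ε/4)`; `LFunction_one_le` bounds the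
first and third factor by `C Q^ε'`, and `lift_bounds` passes from `ψ` to `χ`. -/
theorem siegel (ε : ℝ) (hε : 0 < ε) : ∃ c : ℝ, 0 < c ∧
    ∀ (q : ℕ) [NeZero q] (χ : DirichletCharacter ℂ q), χ ^ 2 = 1 → χ ≠ 1 →
    c * (q : ℝ) ^ (-ε) ≤ ‖DirichletCharacter.LFunction χ 1‖ := by
  by_cases hex : ∃ (q : ℕ) (_ : NeZero q) (χ : DirichletCharacter ℂ q), χ ^ 2 = 1 ∧ χ ≠ 1
  swap
  · push Not at hex
    exact ⟨1, one_pos, fun q _ χ h1 h2 => absurd (hex q inferInstance χ h1) h2⟩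
  obtain ⟨C0, hC0, hlam⟩ := lam_ge
  obtain ⟨εζ, hεζ, hεζ8, hζ⟩ := zeta_neg
  obtain ⟨C1, hC1, hone⟩ := LFunction_one_le (ε / 8) (by positivity)
  obtain ⟨C2, hC2, hlift⟩ := lift_bounds (ε / 8) (by positivity)
  have hC0' : 0 < C0 := by linarith
  have hC1' : 0 < C1 := by linarith
  have hC2' : 0 < C2 := by linarith
  set ε₁ : ℝ := min (ε / (4 * C0)) εζ with hε₁def
  have hε₁ : 0 < ε₁ := lt_min (by positivity) hεζ
  have hε₁a : ε₁ ≤ ε / (4 * C0) := min_le_left _ _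
  have hε₁b : ε₁ ≤ εζ := min_le_right _ _
  obtain ⟨q₁, hq₁, χ₁, α, h1, h2, hα1, hα2, hbase⟩ := w17_base ε₁ hε₁
    (fun x hx1 hx2 => hζ x (by linarith) hx2) hex
  have hL1 : 0 < ‖DirichletCharacter.LFunction χ₁ 1‖ :=
    norm_pos_iff.mpr (DirichletCharacter.LFunction_apply_one_ne_zero h2)
  have hq₁pos : (0 : ℝ) < q₁ := by exact_mod_cast Nat.pos_of_ne_zero (NeZero.ne q₁)
  have h1α : 0 < 1 - α := by linarith
  refine ⟨min ((1 - α) / (C0 * C1 ^ 2 * C2)) (‖DirichletCharacter.LFunction χ₁ 1‖ / C2 ^ 2) *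
    (q₁ : ℝ) ^ (-ε), ?_, ?_⟩
  · have : 0 < min ((1 - α) / (C0 * C1 ^ 2 * C2))
      (‖DirichletCharacter.LFunction χ₁ 1‖ / C2 ^ 2) :=
      lt_min (by positivity) (by positivity)
    exact mul_pos this (Real.rpow_pos_of_pos hq₁pos _)
  · intro q _ χ hχ hχ1
    have hqpos : (0 : ℝ) < q := by exact_mod_cast Nat.pos_of_ne_zero (NeZero.ne q)
    haveI : NeZero (q₁ * q) := ⟨mul_ne_zero (NeZero.ne q₁) (NeZero.ne q)⟩
    have hd1 : q₁ ∣ q₁ * q := dvd_mul_right _ _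
    have hd : q ∣ q₁ * q := dvd_mul_left _ _
    set ψ₁ := DirichletCharacter.changeLevel hd1 χ₁ with hψ₁def
    set ψ := DirichletCharacter.changeLevel hd χ with hψdef
    have hψ₁ : ψ₁ ^ 2 = 1 := by rw [hψ₁def, ← map_pow, h1, map_one]
    have hψ₁1 : ψ₁ ≠ 1 := fun hc => h2 ((DirichletCharacter.changeLevel_eq_one_iff hd1).mp hc)
    have hψ : ψ ^ 2 = 1 := by rw [hψdef, ← map_pow, hχ, map_one]
    have hψ1 : ψ ≠ 1 := fun hc => hχ1 ((DirichletCharacter.changeLevel_eq_one_iff hd).mp hc)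
    set Q : ℝ := ((q₁ * q : ℕ) : ℝ) with hQdef
    have hQmul : Q = q₁ * q := by rw [hQdef]; push_cast; ring
    have hQ1 : 1 ≤ Q := by
      rw [hQdef]
      exact_mod_cast Nat.one_le_iff_ne_zero.mpr (NeZero.ne (q₁ * q))
    have hQ0 : 0 < Q := by linarith
    have hla := hlift q (q₁ * q) hd χ hχ1
    have hlb := hlift q₁ (q₁ * q) hd1 χ₁ h2
    rw [← hψdef, ← hQdef] at hla
    rw [← hψ₁def, ← hQdef] at hlb
    set X := ‖DirichletCharacter.LFunction χ 1‖ with hX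
    have hX0 : 0 ≤ X := norm_nonneg _
    set T : ℝ := Q ^ (ε / 8) with hT
    have hT0 : 0 < T := Real.rpow_pos_of_pos hQ0 _
    have hT1 : 1 ≤ T := Real.one_le_rpow hQ1 (by positivity)
    have hTε : T ^ 8 = Q ^ ε := by
      rw [hT, ← Real.rpow_natCast, ← Real.rpow_mul hQ0.le]
      congr 1
      push_cast
      ring
    -- reduction of the target
    have hgoal : ∀ c : ℝ, 0 ≤ c → c ≤ X * T ^ 8 →
        c * (q₁ : ℝ) ^ (-ε) * (q : ℝ) ^ (-ε) ≤ X := by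
      intro c hc hcX
      rw [mul_assoc, ← Real.mul_rpow hq₁pos.le hqpos.le, ← hQmul, Real.rpow_neg hQ0.le, ← hTε,
        ← div_eq_mul_inv, div_le_iff₀ (by positivity)]
      exact hcX
    apply hgoal
    · exact le_min (by positivity) (by positivity)
    by_cases hcase : ψ₁ * ψ = 1
    · -- same character
      have heq : ψ = ψ₁ := by
        calc ψ = ψ₁ ^ 2 * ψ := by rw [hψ₁, one_mul]
          _ = ψ₁ * (ψ₁ * ψ) := by rw [sq, mul_assoc]
          _ = ψ₁ := by rw [hcase, mul_one]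
      rw [← heq] at hlb
      have h3 : ‖DirichletCharacter.LFunction χ₁ 1‖ ≤ C2 * T * (C2 * T * X) := by
        refine hlb.2.trans ?_
        exact mul_le_mul_of_nonneg_left hla.1 (by positivity)
      refine (min_le_right _ _).trans ?_
      rw [div_le_iff₀ (by positivity)]
      refine h3.trans ?_
      have h4 : T ^ 2 ≤ T ^ 8 := pow_le_pow_right₀ hT1 (by norm_num)
      calc C2 * T * (C2 * T * X) = C2 ^ 2 * X * T ^ 2 := by ring
        _ ≤ C2 ^ 2 * X * T ^ 8 := mul_le_mul_of_nonneg_left h4 (by positivity)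
        _ = X * T ^ 8 * C2 ^ 2 := by ring
    · have h5 := hlam (q₁ * q) ψ₁ ψ α hψ₁ hψ hψ₁1 hψ1 hcase (by linarith) hα2
        (hbase (q₁ * q) hd1 ψ hψ hψ1 hcase)
      rw [← hQdef] at h5
      have h6 : T ^ (-2 : ℤ) ≤ Q ^ (-(C0 * (1 - α))) := by
        rw [hT, ← Real.rpow_intCast, ← Real.rpow_mul hQ0.le]
        apply Real.rpow_le_rpow_of_exponent_le hQ1
        push_cast
        have h7 : C0 * (1 - α) ≤ ε / 4 := by
          have h8 : 1 - α ≤ ε / (4 * C0) := by linarith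
          calc C0 * (1 - α) ≤ C0 * (ε / (4 * C0)) := mul_le_mul_of_nonneg_left h8 hC0'.le
            _ = ε / 4 := by field_simp
        linarith
      have h8 : ‖lam3 ψ₁ ψ‖ ≤ (C1 * T) * (C2 * T * X) * (C1 * T) := by
        rw [lam3, norm_mul, norm_mul]
        have a1 := hone (q₁ * q) ψ₁ hψ₁1
        have a2 := hone (q₁ * q) (ψ₁ * ψ) hcase
        rw [← hQdef] at a1 a2
        have a3 := hla.1
        gcongr
      have h9 : (1 - α) / C0 * T ^ (-2 : ℤ) ≤ (C1 * T) * (C2 * T * X) * (C1 * T) :=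
        ((mul_le_mul_of_nonneg_left h6 (by positivity)).trans h5).trans h8
      refine (min_le_left _ _).trans ?_
      rw [div_le_iff₀ (by positivity)]
      have h10 : (1 - α) ≤ C0 * T ^ 2 * ((C1 * T) * (C2 * T * X) * (C1 * T)) := by
        have h11 : (1 - α) / C0 * T ^ (-2 : ℤ) = (1 - α) / (C0 * T ^ 2) := by
          rw [zpow_neg]
          field_simp
        rw [h11, div_le_iff₀ (by positivity)] at h9
        linarith
      refine h10.trans ?_
      have h12 : T ^ 5 ≤ T ^ 8 := pow_le_pow_right₀ hT1 (by norm_num)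
      calc C0 * T ^ 2 * ((C1 * T) * (C2 * T * X) * (C1 * T)) =
          C0 * C1 ^ 2 * C2 * X * T ^ 5 := by ring
        _ ≤ C0 * C1 ^ 2 * C2 * X * T ^ 8 := mul_le_mul_of_nonneg_left h12 (by positivity)
        _ = X * T ^ 8 * (C0 * C1 ^ 2 * C2) := by ring

end Pool.Agent.Lib.MP_d9bc60_nt.UV
end
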