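import Pool.Agent.Lib.MP_d9bc60_nt.UV.PDefs

section
/-! Row W01 (about 200 lines): the Riesz mean as an absolutely convergent integral. -/

set_option autoImplicit false

namespace Pool.Agent.Lib.MP_d9bc60_nt.UV

open Finset

section w01

open MeasureTheory Filter Topology Complex FourierTransform

/-- the kernel on the positive side -/
private noncomputable def w01_k (σ : ℝ) (u : ℝ) : ℂ := ((max 0 u * Real.exp (-σ * u) : ℝ) : ℂ)

private lemma w01_cont (σ : ℝ) : Continuous (w01_k σ) := by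
  unfold w01_k
  fun_prop

private lemma w01_int (σ : ℝ) (hσ : 0 < σ) : Integrable (w01_k σ) := by
  have h1 : IntegrableOn (fun x : ℝ => x ^ (1 : ℝ) * Real.exp (-σ * x ^ (1 : ℝ))) (Set.Ioi 0) :=
    integrableOn_rpow_mul_exp_neg_mul_rpow (by norm_num) (by norm_num) hσ
  have h2 : Integrable ((Set.Ioi (0 : ℝ)).indicator
      (fun x : ℝ => x ^ (1 : ℝ) * Real.exp (-σ * x ^ (1 : ℝ)))) :=
    (integrable_indicator_iff measurableSet_Ioi).mpr h1
  have h3 : Integrable (fun u : ℝ => max 0 u * Real.exp (-σ * u)) := by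
   refine h2.congr (Eventually.of_forall fun x => ?_)
   simp only [Real.rpow_one]
   by_cases hx : 0 < x
   · rw [Set.indicator_of_mem (Set.mem_Ioi.mpr hx), max_eq_right hx.le]
   · rw [Set.indicator_of_notMem (by simpa using hx), max_eq_left (not_lt.mp hx), zero_mul]
  exact h3.ofReal

private lemma w01_decay (σ : ℝ) (hσ : 0 < σ) :
    Tendsto (fun u : ℝ => u * Real.exp (-σ * u)) atTop (𝓝 0) := by
  have h := tendsto_rpow_mul_exp_neg_mul_atTop_nhds_zero 1 σ hσ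
  simpa using h

private lemma w01_decay0 (σ : ℝ) (hσ : 0 < σ) :
    Tendsto (fun u : ℝ => Real.exp (-σ * u)) atTop (𝓝 0) := by
  have h := tendsto_rpow_mul_exp_neg_mul_atTop_nhds_zero 0 σ hσ
  simpa using h

private lemma w01_laplace (s : ℂ) (hs : 0 < s.re) :
    ∫ u in Set.Ioi (0 : ℝ), (u : ℂ) * cexp (-s * u) = 1 / s ^ 2 := by
  have hs0 : s ≠ 0 := by
    rintro rfl
    simp at hs
  have hn : ∀ u : ℝ, ‖cexp (-s * u)‖ = Real.exp (-s.re * u) := by
    intro u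
    rw [Complex.norm_exp]
    congr 1
    simp
  have hint : IntegrableOn (fun u : ℝ => (u : ℂ) * cexp (-s * u)) (Set.Ioi 0) := by
    have h1 : IntegrableOn (fun x : ℝ => x ^ (1 : ℝ) * Real.exp (-s.re * x ^ (1 : ℝ)))
        (Set.Ioi 0) := integrableOn_rpow_mul_exp_neg_mul_rpow (by norm_num) (by norm_num) hs
    refine Integrable.mono' h1 (by fun_prop) ?_
    refine (ae_restrict_iff' measurableSet_Ioi).mpr (Eventually.of_forall fun u hu => ?_)
    rw [norm_mul, hn, Real.rpow_one, Complex.norm_real, Real.norm_of_nonneg (le_of_lt hu)]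
  have hd : ∀ u ∈ Set.Ici (0 : ℝ), HasDerivAt
      (fun u : ℝ => -((u : ℂ) / s + 1 / s ^ 2) * cexp (-s * u)) ((u : ℂ) * cexp (-s * u)) u := by
    intro u _
    have h1 : HasDerivAt (fun u : ℝ => (u : ℂ)) 1 u := Complex.ofRealCLM.hasDerivAt
    have h2 : HasDerivAt (fun u : ℝ => cexp (-s * u)) (cexp (-s * u) * (-s * 1)) u :=
      (h1.const_mul (-s)).cexp
    have h3 : HasDerivAt (fun u : ℝ => -((u : ℂ) / s + 1 / s ^ 2)) (-(1 / s)) u :=
      ((h1.div_const s).add_const _).neg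
    have h4 := h3.mul h2
    refine h4.congr_deriv ?_
    field_simp
    ring
  have hlim : Tendsto (fun u : ℝ => -((u : ℂ) / s + 1 / s ^ 2) * cexp (-s * u)) atTop (𝓝 0) := by
    have h1 := (w01_decay s.re hs).const_mul (1 / ‖s‖)
    have h2 := (w01_decay0 s.re hs).const_mul (1 / ‖s‖ ^ 2)
    have h3 := h1.add h2
    rw [mul_zero, mul_zero, add_zero] at h3
    refine squeeze_zero_norm' ?_ h3
    filter_upwards [eventually_ge_atTop (0 : ℝ)] with u hu
    rw [norm_mul, norm_neg, hn]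
    have h4 : ‖(u : ℂ) / s + 1 / s ^ 2‖ ≤ u / ‖s‖ + 1 / ‖s‖ ^ 2 := by
      refine (norm_add_le _ _).trans (le_of_eq ?_)
      rw [norm_div, norm_div, norm_pow, norm_one, Complex.norm_real, Real.norm_of_nonneg hu]
    calc _ ≤ (u / ‖s‖ + 1 / ‖s‖ ^ 2) * Real.exp (-s.re * u) :=
          mul_le_mul_of_nonneg_right h4 (Real.exp_pos _).le
      _ = _ := by ring
  rw [integral_Ioi_of_hasDerivAt_of_tendsto' hd hint hlim]
  simp

private lemma w01_fourier (σ : ℝ) (hσ : 0 < σ) (ξ : ℝ) :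
    𝓕 (w01_k σ) ξ = 1 / ((σ : ℂ) + (2 * Real.pi * ξ : ℝ) * I) ^ 2 := by
  rw [Real.fourier_real_eq_integral_exp_smul, ← w01_laplace _ (by simpa using hσ),
    ← integral_indicator measurableSet_Ioi]
  refine integral_congr_ae (Eventually.of_forall fun u => ?_)
  simp only [smul_eq_mul]
  by_cases hu : 0 < u
  · rw [Set.indicator_of_mem (Set.mem_Ioi.mpr hu)]
    unfold w01_k
    rw [max_eq_right hu.le]
    push_cast
    rw [mul_left_comm, ← Complex.exp_add]
    congr 2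
    ring
  · rw [Set.indicator_of_notMem (by simpa using hu)]
    unfold w01_k
    rw [max_eq_left (not_lt.mp hu), zero_mul]
    simp

private lemma w01_norm_sq (σ ξ : ℝ) :
    ‖(σ : ℂ) + (2 * Real.pi * ξ : ℝ) * I‖ ^ 2 = σ ^ 2 + (2 * Real.pi * ξ) ^ 2 := by
  rw [← Complex.normSq_eq_norm_sq, Complex.normSq_add_mul_I]

private lemma w01_dom_int (σ : ℝ) (hσ : 1 < σ) :
    Integrable (fun ξ : ℝ => 1 / (σ ^ 2 + (2 * Real.pi * ξ) ^ 2)) := by
  refine integrable_inv_one_add_sq.mono' ?_ (Eventually.of_forall fun ξ => ?_)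
  · refine Continuous.aestronglyMeasurable ?_
    refine continuous_const.div (by fun_prop) fun ξ => ?_
    positivity
  · have h1 : 0 < σ ^ 2 + (2 * Real.pi * ξ) ^ 2 := by positivity
    rw [Real.norm_of_nonneg (by positivity), ← one_div]
    refine one_div_le_one_div_of_le (by positivity) ?_
    have h2 : 1 ≤ σ ^ 2 := one_le_pow₀ hσ.le
    have h3 : 3 < Real.pi := Real.pi_gt_three
    have h4 : 1 ≤ (2 * Real.pi) ^ 2 := one_le_pow₀ (le_trans (by norm_num) (mul_le_mul_of_nonneg_left h3.le zero_le_two))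
    have h5 := mul_le_mul_of_nonneg_right h4 (sq_nonneg ξ)
    rw [one_mul, ← mul_pow] at h5
    exact add_le_add h2 h5

private lemma w01_aesm (σ : ℝ) (hσ : 1 < σ) :
    Continuous (fun ξ : ℝ => 1 / ((σ : ℂ) + (2 * Real.pi * ξ : ℝ) * I) ^ 2) := by
  refine continuous_const.div (by fun_prop) fun ξ => ?_
  intro h
  have h2 := w01_norm_sq σ ξ
  rw [pow_eq_zero_iff (by norm_num)] at h
  rw [h, norm_zero] at h2
  have : 0 < σ ^ 2 + (2 * Real.pi * ξ) ^ 2 := by positivity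
  rw [← h2, zero_pow two_ne_zero] at this
  exact lt_irrefl 0 this

private lemma w01_fint (σ : ℝ) (hσ : 1 < σ) :
    Integrable (fun ξ : ℝ => 1 / ((σ : ℂ) + (2 * Real.pi * ξ : ℝ) * I) ^ 2) := by
  refine (w01_dom_int σ hσ).mono' (w01_aesm σ hσ).aestronglyMeasurable
    (Eventually.of_forall fun ξ => le_of_eq ?_)
  rw [norm_div, norm_one, norm_pow, w01_norm_sq]

private lemma w01_inv (σ : ℝ) (hσ : 1 < σ) (u : ℝ) :
    w01_k σ u = ∫ ξ : ℝ, cexp (((2 * Real.pi * (ξ * u) : ℝ) : ℂ) * I) *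
      (1 / ((σ : ℂ) + (2 * Real.pi * ξ : ℝ) * I) ^ 2) := by
  have hσ0 : 0 < σ := one_pos.trans hσ
  have hf : 𝓕 (w01_k σ) = fun ξ : ℝ => 1 / ((σ : ℂ) + (2 * Real.pi * ξ : ℝ) * I) ^ 2 :=
    funext fun ξ => w01_fourier σ hσ0 ξ
  have h := (w01_cont σ).fourierInv_fourier_eq (w01_int σ hσ0) (by rw [hf]; exact w01_fint σ hσ)
  have h2 := congrFun h u
  rw [← h2, Real.fourierInv_eq', hf]
  refine integral_congr_ae (Eventually.of_forall fun ξ => ?_)
  simp only [smul_eq_mul]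
  rw [real_inner_eq_re_inner, RCLike.inner_apply]
  simp [mul_comm]

private lemma w01_g_deriv (ξ : ℝ) (h : 0 ≤ ξ) : HasDerivAt
    (fun ξ : ℝ => -(2 / Real.pi) * (1 + 2 * Real.pi * ξ) ^ (-(1 / 2) : ℝ))
    (2 * (1 + 2 * Real.pi * ξ) ^ (-(3 / 2) : ℝ)) ξ := by
  have hp : 0 < 1 + 2 * Real.pi * ξ := by positivity
  have h1 : HasDerivAt (fun ξ : ℝ => 1 + 2 * Real.pi * ξ) (2 * Real.pi * 1) ξ :=
    ((hasDerivAt_id ξ).const_mul (2 * Real.pi)).const_add 1
  have h2 := (h1.rpow_const (p := -(1 / 2)) (Or.inl hp.ne')).const_mul (-(2 / Real.pi))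
  refine h2.congr_deriv ?_
  rw [show (-(1 / 2) - 1 : ℝ) = -(3 / 2) by norm_num]
  have := Real.pi_pos.ne'
  field_simp

private lemma w01_g_lim : Tendsto
    (fun ξ : ℝ => -(2 / Real.pi) * (1 + 2 * Real.pi * ξ) ^ (-(1 / 2) : ℝ)) atTop (𝓝 0) := by
  have h1 : Tendsto (fun ξ : ℝ => 1 + 2 * Real.pi * ξ) atTop atTop :=
    tendsto_atTop_add_const_left _ _ (tendsto_id.const_mul_atTop (by positivity))
  have h2 := ((tendsto_rpow_neg_atTop (show (0 : ℝ) < 1 / 2 by norm_num)).comp h1).const_mul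
    (-(2 / Real.pi))
  rw [mul_zero] at h2
  exact h2

private lemma w01_g_int : Integrable
    (fun ξ : ℝ => 2 * (1 + 2 * Real.pi * |ξ|) ^ (-(3 / 2) : ℝ)) ∧
    ∫ ξ : ℝ, 2 * (1 + 2 * Real.pi * |ξ|) ^ (-(3 / 2) : ℝ) ≤ 2 := by
  have hd : ∀ ξ ∈ Set.Ici (0 : ℝ), HasDerivAt
    (fun ξ : ℝ => -(2 / Real.pi) * (1 + 2 * Real.pi * ξ) ^ (-(1 / 2) : ℝ))
    (2 * (1 + 2 * Real.pi * ξ) ^ (-(3 / 2) : ℝ)) ξ := fun ξ h => w01_g_deriv ξ h
  have hp : ∀ ξ ∈ Set.Ioi (0 : ℝ), 0 ≤ 2 * (1 + 2 * Real.pi * ξ) ^ (-(3 / 2) : ℝ) := by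
    intro ξ hξ
    have : (0 : ℝ) < ξ := hξ
    positivity
  have hi := integrableOn_Ioi_deriv_of_nonneg' hd hp w01_g_lim
  have he := integral_Ioi_of_hasDerivAt_of_nonneg' hd hp w01_g_lim
  have hval : ∫ ξ : ℝ, 2 * (1 + 2 * Real.pi * |ξ|) ^ (-(3 / 2) : ℝ) = 2 * (2 / Real.pi) := by
    rw [integral_comp_abs (f := fun ξ : ℝ => 2 * (1 + 2 * Real.pi * ξ) ^ (-(3 / 2) : ℝ)), he]
    simp
  have hle : 2 * (2 / Real.pi) ≤ 2 := by
    have := Real.pi_gt_three
    have h2 : 2 / Real.pi ≤ 1 := by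
      rw [div_le_one Real.pi_pos]
      exact (by norm_num : (2 : ℝ) ≤ 3).trans this.le
    exact (mul_le_mul_of_nonneg_left h2 zero_le_two).trans (mul_one _).le
  refine ⟨?_, hval.trans_le hle⟩
  by_contra hno
  rw [integral_undef hno] at hval
  have : 0 < 2 * (2 / Real.pi) := by positivity
  exact this.ne hval

private lemma w01_sqrt_le (σ ξ : ℝ) (hσ : 1 < σ) :
    Real.sqrt (1 + |2 * Real.pi * ξ|) * (1 / (σ ^ 2 + (2 * Real.pi * ξ) ^ 2)) ≤
      2 * (1 + 2 * Real.pi * |ξ|) ^ (-(3 / 2) : ℝ) := by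
  have e1 : |2 * Real.pi * ξ| = 2 * Real.pi * |ξ| := by
    rw [abs_mul, abs_of_pos (by positivity : (0 : ℝ) < 2 * Real.pi)]
  have e2 : (2 * Real.pi * ξ) ^ 2 = (2 * Real.pi * |ξ|) ^ 2 := by
    rw [← e1, sq_abs]
  rw [e1, e2]
  have hy : 0 ≤ 2 * Real.pi * |ξ| := by positivity
  set y := 2 * Real.pi * |ξ|
  have h1 : 0 < 1 + y := add_pos_of_pos_of_nonneg one_pos hy
  have h2 : (1 + y) ^ (-(3 / 2) : ℝ) = Real.sqrt (1 + y) / (1 + y) ^ 2 := by
    rw [Real.sqrt_eq_rpow, ← Real.rpow_natCast (1 + y) 2, ← Real.rpow_sub h1]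
    norm_num
  rw [h2, div_eq_mul_one_div (Real.sqrt (1 + y))]
  have h3 : 0 ≤ Real.sqrt (1 + y) := Real.sqrt_nonneg _
  rw [mul_left_comm]
  refine mul_le_mul_of_nonneg_left ?_ h3
  rw [mul_div_assoc', mul_one]
  rw [div_le_div_iff₀ (by positivity) (by positivity)]
  have h4 : 1 ≤ σ ^ 2 := one_le_pow₀ hσ.le
  have h5 : (1 + y) ^ 2 + (y - 1) ^ 2 = 2 * (1 + y ^ 2) := by ring
  linarith only [h4, h5, sq_nonneg (y - 1)]

end w01

/-- Proof. Let `k(v) = max(0, -v) e^{σ v}` on `ℝ` (continuous, integrable); its Fourier transform is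
`k̂(ξ) = ∫_{-∞}^0 (-v) e^{(σ - 2πiξ) v} dv = 1/(σ - 2πiξ)²`, integrable. Fourier inversion
(`MeasureTheory.Integrable.fourierInv_fourier_eq` or `Continuous.fourierInv_fourier_eq`):
`max(0,-v) e^{σv} = ∫ e^{2πiξv}/(σ - 2πiξ)² dξ`. Put `v = log(n/x)` and multiply by
`(x/n)^σ`: `max(0, log(x/n)) = x^σ n^{-σ} ∫ n^{2πiξ} x^{-2πiξ}/(σ-2πiξ)² dξ`. Multiply by `v(n)`, sum
over `n` (absolutely convergent, Fubini `integral_tsum`/`hasSum_integral_of_summable_integral_norm`):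
`∑_{n ≤ x} v(n) log(x/n) = x^σ ∫ x^{-2πiξ} F(σ - 2πiξ)/(σ - 2πiξ)² dξ`, `F = LSeries v`. The norm is
`≤ x^σ ∫ H √(1+2π|ξ|)/(1 + 4π²ξ²) dξ ≤ 2 H x^σ` (`√(1+y)/(1+y²) ≤ 2(1+y)^(-3/2)`). Any
constant `≤ 10` will do. -/
theorem riesz_fourier (v : ℕ → ℂ) (σ H : ℝ) (hσ : 1 < σ) (hs : LSeriesSummable v σ)
    (hb : ∀ t : ℝ, ‖LSeries v (σ + t * Complex.I)‖ ≤ H * Real.sqrt (1 + |t|)) (x : ℝ) (hx : 1 ≤ x) :
    ‖∑ n ∈ Icc 1 ⌊x⌋₊, v n * ((Real.log (x / n) : ℝ) : ℂ)‖ ≤ 10 * H * x ^ σ := by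

  classical
  have hσ0 : 0 < σ := one_pos.trans hσ
  have hx0 : 0 < x := one_pos.trans_le hx
  have hH : 0 ≤ H := by
    have h0 := hb 0
    simp only [abs_zero, add_zero, Real.sqrt_one, mul_one] at h0
    exact (norm_nonneg _).trans h0
  -- the summands
  set D : ℝ → ℂ := fun ξ => (σ : ℂ) + (2 * Real.pi * ξ : ℝ) * Complex.I with hD
  set E : ℝ → ℂ := fun ξ => Complex.exp (((2 * Real.pi * (ξ * Real.log x) : ℝ) : ℂ) * Complex.I)
    with hE
  have hEn : ∀ ξ, ‖E ξ‖ = 1 := fun ξ => Complex.norm_exp_ofReal_mul_I _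
  set Fn : ℕ → ℝ → ℂ := fun n ξ => LSeries.term v (D ξ) n * (E ξ * (1 / D ξ ^ 2)) with hFn
  have hDre : ∀ ξ, (D ξ).re = σ := by
    intro ξ
    simp [hD]
  have hterm : ∀ n ξ, ‖LSeries.term v (D ξ) n‖ = ‖LSeries.term v σ n‖ := by
    intro n ξ
    rw [LSeries.norm_term_eq, LSeries.norm_term_eq, hDre, Complex.ofReal_re]
  have hnorm : ∀ n ξ, ‖Fn n ξ‖ = ‖LSeries.term v σ n‖ * (1 / (σ ^ 2 + (2 * Real.pi * ξ) ^ 2)) := by
    intro n ξ
    rw [hFn]
    simp only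
    rw [norm_mul, hterm, norm_mul, hEn, one_mul, norm_div, norm_one, norm_pow, w01_norm_sq]
  have hFc : ∀ n, Continuous (Fn n) := by
    intro n
    refine Continuous.mul ?_ (Continuous.mul (by fun_prop) (w01_aesm σ hσ))
    rcases Nat.eq_zero_or_pos n with rfl | hn
    · simp only [LSeries.term_zero]
      exact continuous_const
    · have hn0 : (n : ℂ) ≠ 0 := by exact_mod_cast hn.ne'
      simp only [LSeries.term_of_ne_zero hn.ne']
      refine continuous_const.div ?_ fun ξ => ?_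
      · refine Continuous.const_cpow (by fun_prop) (Or.inl hn0)
      · rw [Ne, Complex.cpow_eq_zero_iff]
        tauto
  have hFint : ∀ n, MeasureTheory.Integrable (Fn n) := by
    intro n
    refine ((w01_dom_int σ hσ).const_mul ‖LSeries.term v σ n‖).mono'
      (hFc n).aestronglyMeasurable (Filter.Eventually.of_forall fun ξ => (hnorm n ξ).le)
  have hFsum : Summable fun n => ∫ ξ, ‖Fn n ξ‖ := by
    have : (fun n => ∫ ξ, ‖Fn n ξ‖) = fun n => ‖LSeries.term v σ n‖ *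
        ∫ ξ : ℝ, (1 / (σ ^ 2 + (2 * Real.pi * ξ) ^ 2)) := by
      funext n
      rw [← MeasureTheory.integral_const_mul]
      exact MeasureTheory.integral_congr_ae (Filter.Eventually.of_forall fun ξ => hnorm n ξ)
    rw [this]
    exact (Summable.norm hs).mul_right _
  have hHS := MeasureTheory.hasSum_integral_of_summable_integral_norm hFint hFsum
  -- values of the integrals
  have hval : ∀ n : ℕ, ∫ ξ, Fn n ξ = if n ∈ Icc 1 ⌊x⌋₊ then
      (((x ^ σ)⁻¹ : ℝ) : ℂ) * (v n * ((Real.log (x / n) : ℝ) : ℂ)) else 0 := by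
    intro n
    rcases Nat.eq_zero_or_pos n with rfl | hn
    · simp [hFn]
    · have hnR : (0 : ℝ) < n := by exact_mod_cast hn
      have hnC : (n : ℂ) ≠ 0 := by exact_mod_cast hn.ne'
      have hk := w01_inv σ hσ (Real.log (x / n))
      have e1 : ∫ ξ, Fn n ξ = (v n * (((n : ℝ) ^ σ)⁻¹ : ℝ)) * w01_k σ (Real.log (x / n)) := by
        rw [hk, ← MeasureTheory.integral_const_mul]
        refine MeasureTheory.integral_congr_ae (Filter.Eventually.of_forall fun ξ => ?_)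
        simp only [hFn, hE]
        rw [LSeries.term_of_ne_zero hn.ne']
        have e2 : (n : ℂ) ^ (D ξ) = (((n : ℝ) ^ σ : ℝ) : ℂ) *
            Complex.exp (((2 * Real.pi * (ξ * Real.log n) : ℝ) : ℂ) * Complex.I) := by
          rw [hD]
          simp only
          rw [Complex.cpow_add _ _ hnC, Complex.ofReal_cpow hnR.le, Complex.ofReal_natCast]
          congr 1
          rw [Complex.cpow_def_of_ne_zero hnC]
          congr 1
          rw [← Complex.ofReal_natCast, ← Complex.ofReal_log hnR.le]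
          push_cast
          ring
        have e3 : Complex.exp (((2 * Real.pi * (ξ * Real.log (x / n)) : ℝ) : ℂ) * Complex.I) =
            Complex.exp (((2 * Real.pi * (ξ * Real.log x) : ℝ) : ℂ) * Complex.I) /
            Complex.exp (((2 * Real.pi * (ξ * Real.log n) : ℝ) : ℂ) * Complex.I) := by
          rw [← Complex.exp_sub, Real.log_div hx0.ne' hnR.ne']
          congr 1
          push_cast
          ring
        rw [e2, e3]
        have e4 : (((n : ℝ) ^ σ : ℝ) : ℂ) ≠ 0 := by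
          exact_mod_cast (Real.rpow_pos_of_pos hnR σ).ne'
        have e5 := Complex.exp_ne_zero (((2 * Real.pi * (ξ * Real.log n) : ℝ) : ℂ) * Complex.I)
        rw [Complex.ofReal_inv]
        have e8 : D ξ = (σ : ℂ) + (2 * Real.pi * ξ : ℝ) * Complex.I := rfl
        rw [← e8]
        generalize 1 / D ξ ^ 2 = c
        generalize (((n : ℝ) ^ σ : ℝ) : ℂ) = A
        generalize Complex.exp (((2 * Real.pi * (ξ * Real.log n) : ℝ) : ℂ) * Complex.I) = B
        generalize Complex.exp (((2 * Real.pi * (ξ * Real.log x) : ℝ) : ℂ) * Complex.I) = F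
        rw [div_mul_eq_div_div, div_eq_mul_inv (v n) A, div_mul_eq_mul_div, mul_div_assoc,
          div_mul_eq_mul_div F]
      rw [e1]
      split_ifs with hm
      · rw [mem_Icc] at hm
        have hnx : (n : ℝ) ≤ x := (Nat.le_floor_iff hx0.le).mp hm.2
        have hlog : 0 ≤ Real.log (x / n) := Real.log_nonneg (by rwa [le_div_iff₀ hnR, one_mul])
        unfold w01_k
        rw [max_eq_right hlog]
        have e6 : Real.exp (-σ * Real.log (x / n)) = (n : ℝ) ^ σ * (x ^ σ)⁻¹ := by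
          rw [mul_comm, Real.log_div hx0.ne' hnR.ne', Real.rpow_def_of_pos hnR,
            Real.rpow_def_of_pos hx0, ← Real.exp_neg, ← Real.exp_add]
          congr 1
          ring
        rw [e6]
        have e7 : (((n : ℝ) ^ σ : ℝ) : ℂ) ≠ 0 := by
          exact_mod_cast (Real.rpow_pos_of_pos hnR σ).ne'
        simp only [Complex.ofReal_mul, Complex.ofReal_inv]
        generalize ((x ^ σ : ℝ) : ℂ)⁻¹ = a
        generalize ((Real.log (x / n) : ℝ) : ℂ) = b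
        generalize (((n : ℝ) ^ σ : ℝ) : ℂ) = c at e7 ⊢
        rw [mul_left_comm b, mul_assoc, inv_mul_cancel_left₀ e7, mul_comm b, mul_left_comm]
      · have hnx : x < n := by
          by_contra hle
          push Not at hle
          exact hm (mem_Icc.mpr ⟨hn, Nat.le_floor hle⟩)
        have hlog : Real.log (x / n) ≤ 0 :=
          Real.log_nonpos (by positivity) (by rw [div_le_one hnR]; exact hnx.le)
        unfold w01_k
        rw [max_eq_left hlog, zero_mul]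
        simp
  have hsum1 : HasSum (fun n : ℕ => ∫ ξ, Fn n ξ)
      ((((x ^ σ)⁻¹ : ℝ) : ℂ) * ∑ n ∈ Icc 1 ⌊x⌋₊, v n * ((Real.log (x / n) : ℝ) : ℂ)) := by
    rw [mul_sum]
    have h2 : (fun n : ℕ => ∫ ξ, Fn n ξ) = fun n : ℕ => if n ∈ Icc 1 ⌊x⌋₊ then
      (((x ^ σ)⁻¹ : ℝ) : ℂ) * (v n * ((Real.log (x / n) : ℝ) : ℂ)) else 0 := funext hval
    rw [h2]
    have h3 := hasSum_sum_of_ne_finset_zero (L := SummationFilter.unconditional ℕ)
      (f := fun n : ℕ => if n ∈ Icc 1 ⌊x⌋₊ then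
      (((x ^ σ)⁻¹ : ℝ) : ℂ) * (v n * ((Real.log (x / n) : ℝ) : ℂ)) else 0)
      (s := Icc 1 ⌊x⌋₊) (fun n hn => if_neg hn)
    convert h3 using 1
    exact sum_congr rfl fun n hn => (if_pos hn).symm
  have heq := hsum1.unique hHS
  have hts : ∀ ξ, ∑' n, Fn n ξ = LSeries v (D ξ) * (E ξ * (1 / D ξ ^ 2)) := by
    intro ξ
    rw [hFn]
    simp only
    rw [tsum_mul_right]
    rfl
  have hbound : ‖∫ ξ, ∑' n, Fn n ξ‖ ≤ H * 2 := by
    obtain ⟨gi, gle⟩ := w01_g_int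
    calc ‖∫ ξ, ∑' n, Fn n ξ‖ ≤ ∫ ξ : ℝ, H * (2 * (1 + 2 * Real.pi * |ξ|) ^ (-(3 / 2) : ℝ)) := by
          refine MeasureTheory.norm_integral_le_of_norm_le (gi.const_mul H)
            (Filter.Eventually.of_forall fun ξ => ?_)
          rw [hts, norm_mul, norm_mul, hEn, one_mul, norm_div, norm_one, norm_pow]
          have h4 := hb (2 * Real.pi * ξ)
          have h5 := w01_norm_sq σ ξ
          rw [hD]
          simp only
          rw [h5]
          have h6 : 0 ≤ 1 / (σ ^ 2 + (2 * Real.pi * ξ) ^ 2) := by positivity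
          refine (mul_le_mul_of_nonneg_right h4 h6).trans ?_
          rw [mul_assoc]
          exact mul_le_mul_of_nonneg_left (w01_sqrt_le σ ξ hσ) hH
      _ = H * ∫ ξ : ℝ, (2 * (1 + 2 * Real.pi * |ξ|) ^ (-(3 / 2) : ℝ)) :=
          MeasureTheory.integral_const_mul _ _
      _ ≤ H * 2 := mul_le_mul_of_nonneg_left gle hH
  rw [← heq, norm_mul, Complex.norm_real, Real.norm_of_nonneg (by positivity)] at hbound
  have hxp : 0 < x ^ σ := Real.rpow_pos_of_pos hx0 σ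
  rw [inv_mul_le_iff₀ hxp] at hbound
  refine hbound.trans ?_
  rw [mul_assoc 10, mul_comm (x ^ σ), mul_right_comm, mul_comm _ (2 : ℝ)]
  exact mul_le_mul_of_nonneg_right (by norm_num) (mul_nonneg hH hxp.le)

end Pool.Agent.Lib.MP_d9bc60_nt.UV
end

section
/-! Row W02 (about 90 lines): from Riesz means to sums. -/

set_option autoImplicit false

namespace Pool.Agent.Lib.MP_d9bc60_nt.UV

open Finset

/-- Proof. With `R(y) = ∑_{n ≤ y} v(n) log(y/n)` and `y = x e^δ`: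
`R(y) - R(x) = δ ∑_{n ≤ x} v(n) + ∑_{x < n ≤ y} v(n) log(y/n)` and `0 ≤ log(y/n) ≤ δ` in the last
sum, which has at most `x(e^δ - 1) + 1 ≤ 2δx + 1` terms, all `≤ 3x`. Divide by `δ`. -/
theorem riesz_to_sum (v : ℕ → ℂ) (x δ E B : ℝ) (hx : 1 ≤ x) (hδ : 0 < δ) (hδ1 : δ ≤ 1)
    (h1 : ‖∑ n ∈ Icc 1 ⌊x⌋₊, v n * ((Real.log (x / n) : ℝ) : ℂ)‖ ≤ E)
    (h2 : ‖∑ n ∈ Icc 1 ⌊x * Real.exp δ⌋₊, v n * ((Real.log (x * Real.exp δ / n) : ℝ) : ℂ)‖ ≤ E)
    (hB : ∀ n : ℕ, (n : ℝ) ≤ 3 * x → ‖v n‖ ≤ B) :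
    ‖∑ n ∈ Icc 1 ⌊x⌋₊, v n‖ ≤ 2 * E / δ + B * (2 * δ * x + 1) := by
  have hx0 : 0 < x := one_pos.trans_le hx
  have he : 1 < Real.exp δ := Real.one_lt_exp_iff.mpr hδ
  have he3 : Real.exp δ ≤ 1 + 2 * δ := by
    have h := Real.abs_exp_sub_one_sub_id_le (x := δ) (by rw [abs_of_pos hδ]; exact hδ1)
    have h' := (abs_le.mp h).2
    have h'' : δ ^ 2 ≤ δ := by rw [sq]; exact mul_le_of_le_one_left hδ.le hδ1
    linarith only [h', h'']
  set y := x * Real.exp δ with hy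
  have hy0 : 0 < y := by positivity
  have hxy : x ≤ y := by
    rw [hy]
    exact le_mul_of_one_le_right hx0.le he.le
  have hfl : ⌊x⌋₊ ≤ ⌊y⌋₊ := Nat.floor_mono hxy
  -- splitting
  have hsplit : Icc 1 ⌊y⌋₊ = Icc 1 ⌊x⌋₊ ∪ Ioc ⌊x⌋₊ ⌊y⌋₊ := by
    ext n
    simp only [mem_Icc, mem_union, mem_Ioc]
    omega
  have hdisj : Disjoint (Icc 1 ⌊x⌋₊) (Ioc ⌊x⌋₊ ⌊y⌋₊) := by
    rw [disjoint_left]
    intro n h h'
    rw [mem_Icc] at h
    rw [mem_Ioc] at h'
    omega
  rw [hsplit, sum_union hdisj] at h2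
  have hmain : ∑ n ∈ Icc 1 ⌊x⌋₊, v n * ((Real.log (y / n) : ℝ) : ℂ) =
      ∑ n ∈ Icc 1 ⌊x⌋₊, v n * ((Real.log (x / n) : ℝ) : ℂ) + (δ : ℂ) * ∑ n ∈ Icc 1 ⌊x⌋₊, v n := by
    rw [mul_sum, ← sum_add_distrib]
    apply sum_congr rfl
    intro n hn
    rw [mem_Icc] at hn
    have hn0 : (0 : ℝ) < n := by exact_mod_cast hn.1
    have : Real.log (y / n) = Real.log (x / n) + δ := by
      have h3 : y / n = x / n * Real.exp δ := by rw [hy]; ring
      rw [h3, Real.log_mul (by positivity) (Real.exp_pos δ).ne', Real.log_exp]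
    rw [this]
    push_cast
    ring
  rw [hmain] at h2
  set S := ∑ n ∈ Icc 1 ⌊x⌋₊, v n with hS
  set R := ∑ n ∈ Icc 1 ⌊x⌋₊, v n * ((Real.log (x / n) : ℝ) : ℂ) with hR
  set T := ∑ n ∈ Ioc ⌊x⌋₊ ⌊y⌋₊, v n * ((Real.log (y / n) : ℝ) : ℂ) with hT
  have hB0 : 0 ≤ B := (norm_nonneg _).trans (hB 0 (by rw [Nat.cast_zero]; positivity))
  -- bound for T
  have hTb : ‖T‖ ≤ δ * B * (2 * δ * x + 1) := by
    have h3 : ‖T‖ ≤ ∑ n ∈ Ioc ⌊x⌋₊ ⌊y⌋₊, B * δ := by
      apply norm_sum_le_of_le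
      intro n hn
      rw [mem_Ioc] at hn
      have hn1 : x < n := (Nat.floor_lt hx0.le).mp hn.1
      have hn2 : (n : ℝ) ≤ y := (Nat.le_floor_iff hy0.le).mp hn.2
      have hn0 : (0 : ℝ) < n := hx0.trans hn1
      rw [norm_mul, Complex.norm_real, Real.norm_eq_abs]
      apply mul_le_mul
      · apply hB
        rw [hy] at hn2
        exact hn2.trans ((mul_le_mul_of_nonneg_left
          (by linarith only [he3, hδ1] : Real.exp δ ≤ 3) hx0.le).trans (mul_comm _ _).le)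
      · have h4 : 0 ≤ Real.log (y / n) := Real.log_nonneg (by rw [le_div_iff₀ hn0, one_mul]; exact hn2)
        rw [abs_of_nonneg h4]
        have h5 : Real.log (y / n) ≤ Real.log (Real.exp δ) := by
          apply Real.log_le_log (by positivity)
          rw [div_le_iff₀ hn0, hy]
          rw [mul_comm]
          exact mul_le_mul_of_nonneg_left hn1.le (Real.exp_pos δ).le
        rwa [Real.log_exp] at h5
      · exact abs_nonneg _
      · exact hB0
    rw [sum_const, Nat.card_Ioc, nsmul_eq_mul] at h3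
    have h4 : ((⌊y⌋₊ - ⌊x⌋₊ : ℕ) : ℝ) ≤ 2 * δ * x + 1 := by
      rw [Nat.cast_sub hfl]
      have h5 := Nat.floor_le hy0.le
      have h6 := Nat.lt_floor_add_one x
      rw [hy] at h5
      have h7 := mul_le_mul_of_nonneg_left he3 hx0.le
      linarith only [h5, h6, h7]
    have h5 : 0 ≤ B * δ := by positivity
    refine h3.trans ((mul_le_mul_of_nonneg_right h4 h5).trans (le_of_eq ?_))
    rw [mul_comm, mul_comm B]
  -- conclusion
  have h3 : (δ : ℂ) * S = (R + δ * S + T) - R - T := by ring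
  have h4 : δ * ‖S‖ ≤ E + E + δ * B * (2 * δ * x + 1) := by
    have h5 : ‖(δ : ℂ) * S‖ = δ * ‖S‖ := by
      rw [norm_mul, Complex.norm_real, Real.norm_eq_abs, abs_of_pos hδ]
    rw [← h5, h3]
    exact (norm_sub_le _ _).trans (add_le_add ((norm_sub_le _ _).trans (add_le_add h2 h1)) hTb)
  refine le_of_mul_le_mul_left (h4.trans_eq ?_) hδ
  rw [mul_add δ, mul_div_cancel₀ _ hδ.ne', two_mul E, mul_assoc δ B]

end Pool.Agent.Lib.MP_d9bc60_nt.UV
end

section
/-! Row W03 (about 200 lines): bounds for the `K`-th derivative on `Re s > 1` give a saving of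
`(log x)^k`, `K = 2k+1`. -/

set_option autoImplicit false

namespace Pool.Agent.Lib.MP_d9bc60_nt.UV

open Finset

private lemma w03_abel (v : ℕ → ℂ) (w : ℕ → ℝ) (a : ℕ) (M : ℝ)
    (hw : ∀ n, a < n → 0 ≤ w n) (hanti : ∀ n, a < n → w (n + 1) ≤ w n) (N : ℕ) (haN : a < N)
    (hV : ∀ m, a ≤ m → m ≤ N → ‖∑ n ∈ Icc 1 m, v n‖ ≤ M) :
    ‖∑ n ∈ Ioc a N, v n * ((w n : ℝ) : ℂ)‖ ≤ 2 * w (a + 1) * M := by
  have key : ∀ N, a < N → (∀ m, a ≤ m → m ≤ N → ‖∑ n ∈ Icc 1 m, v n‖ ≤ M) →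
      ‖∑ n ∈ Ioc a N, v n * ((w n : ℝ) : ℂ) - (∑ n ∈ Icc 1 N, v n) * ((w N : ℝ) : ℂ)‖ ≤
        M * (2 * w (a + 1) - w N) := by
    intro N hN
    induction N, hN using Nat.le_induction with
    | base =>
      intro h
      have e1 : Ioc a (a + 1) = {a + 1} := by
        ext n; simp only [Finset.mem_Ioc, Finset.mem_singleton]; omega
      have e2 : ∑ n ∈ Icc 1 (a + 1), v n = (∑ n ∈ Icc 1 a, v n) + v (a + 1) :=
        Finset.sum_Icc_succ_top (by omega) _
      have e3 : ∑ n ∈ Ioc a (a + 1), v n * ((w n : ℝ) : ℂ) -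
          (∑ n ∈ Icc 1 (a + 1), v n) * ((w (a + 1) : ℝ) : ℂ) =
          -((∑ n ∈ Icc 1 a, v n) * ((w (a + 1) : ℝ) : ℂ)) := by
        rw [e1, e2, Finset.sum_singleton]; ring
      rw [Nat.succ_eq_add_one, e3, norm_neg, norm_mul, Complex.norm_real,
        Real.norm_of_nonneg (hw _ (by omega))]
      have := mul_le_mul_of_nonneg_right (h a le_rfl (by omega)) (hw (a + 1) (by omega))
      linarith only [this]
    | succ N hN ih =>
      intro h
      have hN' : a < N := hN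
      have ih' := ih (fun m h1 h2 => h m h1 (by omega))
      have e1 : ∑ n ∈ Ioc a (N + 1), v n * ((w n : ℝ) : ℂ) =
          ∑ n ∈ Ioc a N, v n * ((w n : ℝ) : ℂ) + v (N + 1) * ((w (N + 1) : ℝ) : ℂ) :=
        Finset.sum_Ioc_succ_top (by omega) _
      have e2 : ∑ n ∈ Icc 1 (N + 1), v n = (∑ n ∈ Icc 1 N, v n) + v (N + 1) :=
        Finset.sum_Icc_succ_top (by omega) _
      have e3 : ∑ n ∈ Ioc a (N + 1), v n * ((w n : ℝ) : ℂ) -
          (∑ n ∈ Icc 1 (N + 1), v n) * ((w (N + 1) : ℝ) : ℂ) =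
          (∑ n ∈ Ioc a N, v n * ((w n : ℝ) : ℂ) - (∑ n ∈ Icc 1 N, v n) * ((w N : ℝ) : ℂ)) +
          (∑ n ∈ Icc 1 N, v n) * (((w N - w (N + 1) : ℝ)) : ℂ) := by
        rw [e1, e2]; push_cast; ring
      rw [e3]
      refine (norm_add_le _ _).trans ?_
      have h1 : ‖(∑ n ∈ Icc 1 N, v n) * (((w N - w (N + 1) : ℝ)) : ℂ)‖ ≤
          M * (w N - w (N + 1)) := by
        rw [norm_mul, Complex.norm_real, Real.norm_of_nonneg (sub_nonneg.mpr (hanti N hN'))]
        exact mul_le_mul_of_nonneg_right (h N (by omega) (by omega)) (sub_nonneg.mpr (hanti N hN'))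
      linarith only [ih', h1]
  have h1 := key N haN hV
  have h2 : ‖(∑ n ∈ Icc 1 N, v n) * ((w N : ℝ) : ℂ)‖ ≤ M * w N := by
    rw [norm_mul, Complex.norm_real, Real.norm_of_nonneg (hw N haN)]
    exact mul_le_mul_of_nonneg_right (hV N (by omega) le_rfl) (hw N haN)
  have h3 : ∑ n ∈ Ioc a N, v n * ((w n : ℝ) : ℂ) =
      (∑ n ∈ Ioc a N, v n * ((w n : ℝ) : ℂ) - (∑ n ∈ Icc 1 N, v n) * ((w N : ℝ) : ℂ)) +
      (∑ n ∈ Icc 1 N, v n) * ((w N : ℝ) : ℂ) := by ring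
  rw [h3]
  refine (norm_add_le _ _).trans ((add_le_add h1 h2).trans (le_of_eq ?_))
  ring

private lemma w03_triv (u : ℕ → ℂ) (hu : ∀ n, ‖u n‖ ≤ Real.log n + 1) (a x : ℕ) (hax : a ≤ x) :
    ‖∑ n ∈ Icc 1 a, u n‖ ≤ a * (Real.log x + 1) := by
  refine (norm_sum_le _ _).trans ?_
  have h1 : ∀ n ∈ Icc 1 a, ‖u n‖ ≤ Real.log x + 1 := by
    intro n hn
    rw [Finset.mem_Icc] at hn
    refine (hu n).trans ?_
    have : Real.log n ≤ Real.log x :=
      Real.log_le_log (by exact_mod_cast hn.1) (by exact_mod_cast hn.2.trans hax)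
    exact add_le_add_left this 1
  refine (Finset.sum_le_sum h1).trans ?_
  rw [Finset.sum_const, Nat.card_Icc, nsmul_eq_mul]
  simp

private lemma w03_vbound (u : ℕ → ℂ) (hu : ∀ n, ‖u n‖ ≤ Real.log n + 1) (K n : ℕ) :
    ‖lp u K n‖ ≤ (Real.log n + 1) * Real.log n ^ K := by
  have h0 : 0 ≤ Real.log n := Real.log_natCast_nonneg n
  unfold lp
  rw [norm_mul, norm_pow, Complex.norm_real, Real.norm_of_nonneg h0]
  exact mul_le_mul_of_nonneg_right (hu n) (pow_nonneg h0 K)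

private lemma w03_summable (u : ℕ → ℂ) (hu : ∀ n, ‖u n‖ ≤ Real.log n + 1) (K : ℕ) (σ : ℝ)
    (hσ : 1 < σ) : LSeriesSummable (lp u K) (σ : ℂ) := by
  set ε : ℝ := (σ - 1) / (2 * (K + 1)) with hε
  have hK : (0 : ℝ) < K + 1 := by positivity
  have hε0 : 0 < ε := by rw [hε]; exact div_pos (sub_pos.mpr hσ) (by positivity)
  refine LSeriesSummable_of_le_const_mul_rpow (x := (σ + 1) / 2)
    (by rw [Complex.ofReal_re]; linarith only [hσ]) ⟨(1 / ε + 1) * (1 / ε) ^ K, ?_⟩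
  intro n hn
  refine (w03_vbound u hu K n).trans ?_
  have hn1 : (1 : ℝ) ≤ n := by exact_mod_cast Nat.one_le_iff_ne_zero.mpr hn
  have h0 : 0 ≤ Real.log n := Real.log_natCast_nonneg n
  have h1 : Real.log n ≤ (n : ℝ) ^ ε / ε := Real.log_le_rpow_div (by positivity) hε0
  have h2 : (1 : ℝ) ≤ (n : ℝ) ^ ε := Real.one_le_rpow hn1 hε0.le
  have h3 : Real.log n + 1 ≤ (1 / ε + 1) * (n : ℝ) ^ ε := by
    have : (1 / ε + 1) * (n : ℝ) ^ ε = (n : ℝ) ^ ε / ε + (n : ℝ) ^ ε := by ring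
    rw [this]; exact add_le_add h1 h2
  have h4 : Real.log n ^ K ≤ (1 / ε) ^ K * ((n : ℝ) ^ ε) ^ K := by
    rw [← mul_pow]
    refine pow_le_pow_left₀ h0 (h1.trans (le_of_eq ?_)) K
    ring
  have h5 : (n : ℝ) ^ ((σ + 1) / 2 - 1) = (n : ℝ) ^ ε * ((n : ℝ) ^ ε) ^ K := by
    rw [← Real.rpow_mul_natCast (by positivity), ← Real.rpow_add (one_pos.trans_le hn1)]
    congr 1
    rw [hε]
    field_simp
    ring
  rw [h5]
  calc (Real.log n + 1) * Real.log n ^ K
      ≤ ((1 / ε + 1) * (n : ℝ) ^ ε) * ((1 / ε) ^ K * ((n : ℝ) ^ ε) ^ K) :=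
        mul_le_mul h3 h4 (pow_nonneg h0 K) (by positivity)
    _ = _ := mul_mul_mul_comm _ _ _ _

private lemma w03_e3 : Real.exp 1 ≤ 3 := Real.exp_one_lt_d9.le.trans (by norm_num)

private lemma w03_riesz (u : ℕ → ℂ) (hu : ∀ n, ‖u n‖ ≤ Real.log n + 1) (K : ℕ) (H : ℝ)
    (hH : 1 ≤ H)
    (hF : ∀ s : ℂ, 1 < s.re → s.re ≤ 2 → ‖LSeries (lp u K) s‖ ≤ H * Real.sqrt (1 + |s.im|))
    (y : ℝ) (hy : Real.exp 1 ≤ y) :
    ‖∑ n ∈ Icc 1 ⌊y⌋₊, lp u K n * ((Real.log (y / n) : ℝ) : ℂ)‖ ≤ 30 * H * y := by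
  have he : (1 : ℝ) < Real.exp 1 := by
    have := Real.add_one_lt_exp (x := 1) (by norm_num)
    exact lt_trans (by norm_num) this
  have hy0 : 0 < y := (one_pos.trans he).trans_le hy
  have hl : 1 ≤ Real.log y := by
    rw [Real.le_log_iff_exp_le hy0]; exact hy
  have hσ : 1 < 1 + 1 / Real.log y := by
    have : 0 < 1 / Real.log y := by positivity
    exact lt_add_of_pos_right 1 this
  have hσ2 : 1 + 1 / Real.log y ≤ 2 := by
    have : 1 / Real.log y ≤ 1 := by rw [div_le_one (one_pos.trans_le hl)]; exact hl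
    exact (add_le_add_right this 1).trans_eq one_add_one_eq_two
  have h := riesz_fourier (lp u K) (1 + 1 / Real.log y) H hσ (w03_summable u hu K _ hσ)
    (fun t => by
      have := hF ((1 + 1 / Real.log y : ℝ) + t * Complex.I) (by simpa using hσ)
        (by simpa using hσ2)
      simpa using this) y (he.le.trans hy)
  refine h.trans ?_
  have h2 : y ^ (1 + 1 / Real.log y) = y * Real.exp 1 := by
    rw [Real.rpow_add hy0, Real.rpow_one]
    congr 1
    rw [Real.rpow_def_of_pos hy0]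
    congr 1
    field_simp
  rw [h2]
  have h3 : Real.exp 1 ≤ 3 := w03_e3
  have h4 : 10 * H * (y * Real.exp 1) = (10 * H * y) * Real.exp 1 := by ring
  rw [h4]
  have h5 : (10 * H * y) * Real.exp 1 ≤ (10 * H * y) * 3 :=
    mul_le_mul_of_nonneg_left h3 (by positivity)
  exact h5.trans_eq (by ring)

private lemma w03_V (u : ℕ → ℂ) (hu : ∀ n, ‖u n‖ ≤ Real.log n + 1) (k : ℕ) (H : ℝ)
    (hH : 1 ≤ H)
    (hF : ∀ s : ℂ, 1 < s.re → s.re ≤ 2 →
      ‖LSeries (lp u (2 * k + 1)) s‖ ≤ H * Real.sqrt (1 + |s.im|))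
    (x : ℕ) (hx : 9 ≤ x) (hL2 : 2 ≤ Real.log x) (hHL : H < Real.log x ^ (2 * k + 2))
    (m : ℕ) (hm3 : 3 ≤ m) (hmx : m ≤ x) :
    ‖∑ n ∈ Icc 1 m, lp u (2 * k + 1) n‖ ≤
      (180 + 6 * 2 ^ (2 * k + 1)) * (x * Real.sqrt H * Real.log x ^ (k + 1)) +
        3 * 2 ^ (2 * k + 1) * Real.log x ^ (2 * k + 2) := by
  set L : ℝ := Real.log x with hLdef
  have hL0 : 0 < L := two_pos.trans_le hL2
  set δ : ℝ := Real.sqrt H / L ^ (k + 1) with hδdef
  have hsH : 1 ≤ Real.sqrt H := Real.one_le_sqrt.mpr hH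
  have hsH2 : Real.sqrt H * Real.sqrt H = H := Real.mul_self_sqrt (zero_le_one.trans hH)
  have hδ0 : 0 < δ := by rw [hδdef]; positivity
  have hδ1 : δ ≤ 1 := by
    rw [hδdef, div_le_one (by positivity), Real.sqrt_le_left (by positivity), ← pow_mul]
    have : (k + 1) * 2 = 2 * k + 2 := by ring
    rw [this]; exact hHL.le
  have hm1 : (3 : ℝ) ≤ m := by exact_mod_cast hm3
  have hmx' : (m : ℝ) ≤ x := by exact_mod_cast hmx
  have hx9 : (9 : ℝ) ≤ x := by exact_mod_cast hx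
  have he3 : Real.exp 1 ≤ 3 := w03_e3
  have hed : Real.exp δ ≤ 3 := (Real.exp_le_exp.mpr hδ1).trans he3
  have hed1 : 1 ≤ Real.exp δ := Real.one_le_exp hδ0.le
  have hB : ∀ n : ℕ, (n : ℝ) ≤ 3 * (m : ℝ) → ‖lp u (2 * k + 1) n‖ ≤
      3 * 2 ^ (2 * k + 1) * L ^ (2 * k + 2) := by
    intro n hn
    refine (w03_vbound u hu (2 * k + 1) n).trans ?_
    have hln0 : 0 ≤ Real.log n := Real.log_natCast_nonneg n
    have hlog : Real.log n ≤ L + 1.1 := by
      rcases Nat.eq_zero_or_pos n with h0 | h0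
      · rw [h0, Nat.cast_zero, Real.log_zero]; positivity
      · have h1 : Real.log n ≤ Real.log (3 * x) :=
          Real.log_le_log (by exact_mod_cast h0) (hn.trans (mul_le_mul_of_nonneg_left hmx' (by norm_num)))
        rw [Real.log_mul (by norm_num) (by positivity)] at h1
        have h3 : Real.log 3 ≤ 1.1 := by
          rw [Real.log_le_iff_le_exp (by norm_num)]
          have h4 : Real.exp 1.1 = Real.exp 1 * Real.exp 0.1 := by
            rw [← Real.exp_add]; norm_num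
          have h5' : (1.105 : ℝ) ≤ Real.exp 0.1 := by
            have := Real.quadratic_le_exp_of_nonneg (x := 0.1) (by norm_num)
            norm_num at this ⊢
            exact this
          have h6 := Real.exp_one_gt_d9
          rw [h4]
          exact le_trans (by norm_num : (3 : ℝ) ≤ 2.7182818283 * 1.105)
            (mul_le_mul h6.le h5' (by norm_num) (Real.exp_pos 1).le)
        exact h1.trans ((add_le_add_left h3 _).trans_eq (add_comm _ _))
    have h1 : Real.log n + 1 ≤ 3 * L := by linarith only [hL2, hlog]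
    have h2 : Real.log n ≤ 2 * L := by linarith only [hL2, hlog]
    calc (Real.log n + 1) * Real.log n ^ (2 * k + 1)
        ≤ (3 * L) * (2 * L) ^ (2 * k + 1) :=
          mul_le_mul h1 (pow_le_pow_left₀ hln0 h2 _) (by positivity) (by positivity)
      _ = 3 * 2 ^ (2 * k + 1) * L ^ (2 * k + 2) := by
          rw [mul_pow, pow_succ' L (2 * k + 1)]
          exact mul_mul_mul_comm _ _ _ _
  have hE : ∀ z : ℝ, (m : ℝ) ≤ z → z ≤ 3 * m →
      ‖∑ n ∈ Icc 1 ⌊z⌋₊, lp u (2 * k + 1) n * ((Real.log (z / n) : ℝ) : ℂ)‖ ≤ 90 * H * x := by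
    intro z hz1 hz2
    refine (w03_riesz u hu (2 * k + 1) H hH hF z (he3.trans (hm1.trans hz1))).trans ?_
    have : 30 * H * z ≤ 30 * H * (3 * x) :=
      mul_le_mul_of_nonneg_left (hz2.trans (mul_le_mul_of_nonneg_left hmx' (by norm_num))) (by positivity)
    exact this.trans_eq (by ring)
  have h := riesz_to_sum (lp u (2 * k + 1)) m δ (90 * H * x)
    (3 * 2 ^ (2 * k + 1) * L ^ (2 * k + 2)) (le_trans (by norm_num) hm1) hδ0 hδ1
    (hE m le_rfl (le_mul_of_one_le_left (Nat.cast_nonneg m) (by norm_num)))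
    (hE (m * Real.exp δ) (le_mul_of_one_le_right (Nat.cast_nonneg m) hed1)
      ((mul_le_mul_of_nonneg_left hed (Nat.cast_nonneg m)).trans (mul_comm _ _).le)) hB
  rw [Nat.floor_natCast] at h
  refine h.trans ?_
  have e1 : 2 * (90 * H * (x : ℝ)) / δ = 180 * (x * Real.sqrt H * L ^ (k + 1)) := by
    rw [hδdef]
    rw [div_div_eq_mul_div, div_eq_iff (by positivity)]
    nth_rewrite 1 [← hsH2]
    ring
  have e2 : 3 * 2 ^ (2 * k + 1) * L ^ (2 * k + 2) * (2 * δ * (m : ℝ) + 1) ≤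
      3 * 2 ^ (2 * k + 1) * L ^ (2 * k + 2) * (2 * δ * (x : ℝ) + 1) := by
    refine mul_le_mul_of_nonneg_left ?_ (by positivity)
    have : 2 * δ * (m : ℝ) ≤ 2 * δ * (x : ℝ) :=
      mul_le_mul_of_nonneg_left hmx' (by positivity)
    exact add_le_add_left this 1
  have e3 : L ^ (2 * k + 2) * δ = Real.sqrt H * L ^ (k + 1) := by
    rw [hδdef]
    have : L ^ (2 * k + 2) = L ^ (k + 1) * L ^ (k + 1) := by rw [← pow_add]; congr 1; ring
    rw [this]
    field_simp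
  have e4 : 3 * 2 ^ (2 * k + 1) * L ^ (2 * k + 2) * (2 * δ * (x : ℝ) + 1) =
      6 * 2 ^ (2 * k + 1) * x * (L ^ (2 * k + 2) * δ) +
        3 * 2 ^ (2 * k + 1) * L ^ (2 * k + 2) := by ring
  rw [e1]
  refine (add_le_add_right e2 _).trans ?_
  rw [e4, e3]
  generalize (2 : ℝ) ^ (2 * k + 1) = p
  generalize L ^ (k + 1) = q
  generalize L ^ (2 * k + 2) = r
  exact le_of_eq (by ring)

/-- Proof. `K = 2k+1`, `L = log x`, `v = lp u K`, `V(y) = ∑_{n ≤ y} v(n)`.
If `H ≥ L^(K+1)`: trivially `‖∑ u‖ ≤ x (L+1)` and `x √H / L^k ≥ x L`; small `x` is absorbed in `C`.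
Otherwise let `δ = (H/L^(K+1))^(1/2) < 1`. For `e ≤ y ≤ 3x` use `riesz_fourier` with
`σ = 1 + 1/log y ≤ 2`, `y^σ = e y`: `‖R(y)‖ ≤ 30 H y`. So by `riesz_to_sum` (with
`‖v n‖ ≤ (log n + 1)(log n)^K ≤ C L^(K+1)` for `n ≤ 9x`) for `√x ≤ y ≤ x`:
`‖V(y)‖ ≤ C H x/δ + C L^(K+1)(δx + 1) ≤ C x √H L^((K+1)/2) + C L^(K+1)`. Abel summation with the
decreasing weights `(log n)^(-K)` over `√x < n ≤ x`:
`‖∑_{√x<n≤x} u(n)‖ ≤ 2 (log √x)^(-K) sup ‖V‖ ≤ C x √H L^((1-K)/2) + C L`, and `(1-K)/2 = -k`. The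
`n ≤ √x` contribute `≤ √x (L + 1)`. (`LSeriesSummable` of `lp u K` at `σ > 1`: compare with
`n^((σ-1)/2 - σ)`.) -/
theorem tauber (k : ℕ) : ∃ C : ℝ, 1 ≤ C ∧ ∀ (u : ℕ → ℂ) (H : ℝ), 1 ≤ H →
    (∀ n, ‖u n‖ ≤ Real.log n + 1) →
    (∀ s : ℂ, 1 < s.re → s.re ≤ 2 →
      ‖LSeries (lp u (2 * k + 1)) s‖ ≤ H * Real.sqrt (1 + |s.im|)) →
    ∀ x : ℕ, 2 ≤ x → ‖∑ n ∈ Icc 1 x, u n‖ ≤
      C * (x * Real.sqrt H / Real.log x ^ k + Real.sqrt x * Real.log x) := by
  set P : ℝ := 2 ^ (2 * k + 1) with hP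
  have hP1 : 1 ≤ P := one_le_pow₀ (by norm_num)
  have hPP : 0 ≤ 2 * P * (180 + 6 * P) := by positivity
  refine ⟨2 * P * (180 + 6 * P) + 9, le_add_of_nonneg_of_le hPP (by norm_num), ?_⟩
  intro u H hH hu hF x hx
  have hx2 : (2 : ℝ) ≤ x := by exact_mod_cast hx
  set L : ℝ := Real.log x with hLdef
  have hLl : 0.69 ≤ L := by
    have h1 : Real.log 2 ≤ L := Real.log_le_log (by norm_num) hx2
    exact (by norm_num : (0.69 : ℝ) ≤ 0.6931471803).trans (Real.log_two_gt_d9.le.trans h1)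
  have hL0 : 0 < L := lt_of_lt_of_le (by norm_num) hLl
  have hsH : 1 ≤ Real.sqrt H := Real.one_le_sqrt.mpr hH
  have hsx0 : 0 ≤ Real.sqrt x := Real.sqrt_nonneg _
  have hsx : Real.sqrt x * Real.sqrt x = x := Real.mul_self_sqrt (Nat.cast_nonneg x)
  have hA0 : 0 ≤ x * Real.sqrt H / L ^ k := by positivity
  have hB0 : 0 ≤ Real.sqrt x * L := by positivity
  have hLL : L + 1 ≤ 3 * L := by linarith only [hLl, hL0]
  by_cases hx9 : x < 9
  · have h1 := w03_triv u hu x x le_rfl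
    refine h1.trans ?_
    have h8 : (x : ℝ) ≤ 8 := by
      have : x ≤ 8 := by omega
      exact_mod_cast this
    have h3 : Real.sqrt x ≤ 3 := by
      rw [Real.sqrt_le_left (by norm_num)]; exact h8.trans (by norm_num)
    have h2 : (x : ℝ) * (L + 1) ≤ 9 * (Real.sqrt x * L) := by
      have h4 : (x : ℝ) ≤ 3 * Real.sqrt x := hsx.ge.trans (mul_le_mul_of_nonneg_right h3 hsx0)
      calc (x : ℝ) * (L + 1) ≤ (3 * Real.sqrt x) * (3 * L) :=
            mul_le_mul h4 hLL (add_nonneg hL0.le zero_le_one) (by positivity)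
        _ = 9 * (Real.sqrt x * L) := by ring
    have q : 0 ≤ 2 * P * (180 + 6 * P) * (x * Real.sqrt H / L ^ k + Real.sqrt x * L) :=
      mul_nonneg hPP (add_nonneg hA0 hB0)
    refine h2.trans ?_
    rw [add_mul]
    exact (mul_le_mul_of_nonneg_left (le_add_of_nonneg_left hA0) (by norm_num)).trans
      (le_add_of_nonneg_left q)
  push Not at hx9
  have hx9' : (9 : ℝ) ≤ x := by exact_mod_cast hx9
  have hL2 : 2 ≤ L := by
    rw [hLdef, Real.le_log_iff_exp_le (lt_of_lt_of_le (by norm_num) hx9')]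
    have h1 : Real.exp 2 = Real.exp 1 * Real.exp 1 := by rw [← Real.exp_add]; norm_num
    have h2 := Real.exp_one_lt_d9
    have h3 := Real.exp_pos 1
    rw [h1]
    have h4 : Real.exp 1 ≤ 3 := w03_e3
    have h5 : Real.exp 1 * Real.exp 1 ≤ 3 * 3 := mul_le_mul h4 h4 h3.le (by norm_num)
    exact h5.trans (le_trans (by norm_num) hx9')
  by_cases hHL : L ^ (2 * k + 2) ≤ H
  · have h1 := w03_triv u hu x x le_rfl
    refine h1.trans ?_
    have h2 : L ^ (k + 1) ≤ Real.sqrt H := by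
      rw [Real.le_sqrt (by positivity) (zero_le_one.trans hH), ← pow_mul]
      have : (k + 1) * 2 = 2 * k + 2 := by ring
      rw [this]; exact hHL
    have h3 : (x : ℝ) * L ≤ x * Real.sqrt H / L ^ k := by
      rw [le_div_iff₀ (by positivity), mul_assoc, ← pow_succ']
      exact mul_le_mul_of_nonneg_left h2 (by positivity)
    have h4 : (x : ℝ) * (L + 1) ≤ 3 * (x * Real.sqrt H / L ^ k) := by
      have : (x : ℝ) * (L + 1) ≤ x * (3 * L) := mul_le_mul_of_nonneg_left hLL (by positivity)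
      linarith only [h3, this]
    have q : 0 ≤ 2 * P * (180 + 6 * P) * (x * Real.sqrt H / L ^ k + Real.sqrt x * L) :=
      mul_nonneg hPP (add_nonneg hA0 hB0)
    refine h4.trans ?_
    rw [add_mul]
    exact (mul_le_mul (by norm_num) (le_add_of_nonneg_right hB0) hA0 (by norm_num)).trans
      (le_add_of_nonneg_left q)
  push Not at hHL
  set a : ℕ := Nat.sqrt x with ha
  have ha3 : 3 ≤ a := by rw [ha, Nat.le_sqrt']; omega
  have hax : a < x := by rw [ha]; exact Nat.sqrt_lt_self (by omega)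
  have hasx : (a : ℝ) ≤ Real.sqrt x := by
    rw [ha]; exact Real.nat_sqrt_le_real_sqrt
  have hasx1 : Real.sqrt x ≤ a + 1 := by
    rw [ha]; exact Real.real_sqrt_le_nat_sqrt_succ
  set M : ℝ := (180 + 6 * 2 ^ (2 * k + 1)) * (x * Real.sqrt H * L ^ (k + 1)) +
        3 * 2 ^ (2 * k + 1) * L ^ (2 * k + 2) with hM
  have hV : ∀ m, a ≤ m → m ≤ x → ‖∑ n ∈ Icc 1 m, lp u (2 * k + 1) n‖ ≤ M := by
    intro m h1 h2
    exact w03_V u hu k H hH hF x hx9 hL2 hHL m (by omega) h2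
  have hM0 : 0 ≤ M := by rw [hM]; positivity
  set w : ℕ → ℝ := fun n => (Real.log n ^ (2 * k + 1))⁻¹ with hw
  have hwpos : ∀ n, a < n → 0 < Real.log n := by
    intro n hn
    exact Real.log_pos (by
      have : 1 < n := by omega
      exact_mod_cast this)
  have hab := w03_abel (lp u (2 * k + 1)) w a M
    (fun n hn => by
      have := hwpos n hn
      rw [hw]; positivity)
    (fun n hn => by
      have h1 := hwpos n hn
      rw [hw]
      refine inv_anti₀ (by positivity) (pow_le_pow_left₀ h1.le ?_ _)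
      exact Real.log_le_log (by
        have : 0 < n := by omega
        exact_mod_cast this) (by push_cast; exact (lt_add_one _).le))
    x hax hV
  have hsum : ∑ n ∈ Ioc a x, lp u (2 * k + 1) n * ((w n : ℝ) : ℂ) = ∑ n ∈ Ioc a x, u n := by
    refine Finset.sum_congr rfl (fun n hn => ?_)
    rw [Finset.mem_Ioc] at hn
    have h1 := hwpos n hn.1
    have h2 : ((Real.log n : ℝ) : ℂ) ≠ 0 := by exact_mod_cast h1.ne'
    rw [hw]
    unfold lp
    simp only [Complex.ofReal_inv, Complex.ofReal_pow]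
    rw [mul_assoc, mul_inv_cancel₀ (pow_ne_zero _ h2), mul_one]
  rw [hsum] at hab
  have hsplit : ∑ n ∈ Icc 1 x, u n = ∑ n ∈ Icc 1 a, u n + ∑ n ∈ Ioc a x, u n := by
    rw [← Finset.sum_union]
    · congr 1
      ext n
      simp only [Finset.mem_Icc, Finset.mem_union, Finset.mem_Ioc]
      omega
    · rw [Finset.disjoint_left]
      intro n h1 h2
      rw [Finset.mem_Icc] at h1
      rw [Finset.mem_Ioc] at h2
      omega
  have hlow := w03_triv u hu a x hax.le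
  have hwa : w (a + 1) ≤ P / L ^ (2 * k + 1) := by
    have h1 : L / 2 ≤ Real.log ((a + 1 : ℕ) : ℝ) := by
      have h2 : Real.log (Real.sqrt x) = L / 2 := by
        rw [Real.log_sqrt (Nat.cast_nonneg x)]
      rw [← h2]
      refine Real.log_le_log (Real.sqrt_pos.mpr (lt_of_lt_of_le (by norm_num) hx9')) ?_
      push_cast; exact hasx1
    rw [hw]
    have h3 : (L / 2) ^ (2 * k + 1) ≤ Real.log ((a + 1 : ℕ) : ℝ) ^ (2 * k + 1) :=
      pow_le_pow_left₀ (half_pos (two_pos.trans_le hL2) |>.le) h1 _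
    have h4 : P / L ^ (2 * k + 1) = ((L / 2) ^ (2 * k + 1))⁻¹ := by
      rw [div_pow, inv_div]
    rw [h4]
    exact inv_anti₀ (by positivity) h3
  have hmain : 2 * w (a + 1) * M ≤ 2 * P * (180 + 6 * P) * (x * Real.sqrt H / L ^ k) +
      6 * P * P * L := by
    have h1 : 2 * w (a + 1) * M ≤ 2 * (P / L ^ (2 * k + 1)) * M :=
      mul_le_mul_of_nonneg_right (mul_le_mul_of_nonneg_left hwa zero_le_two) hM0
    refine h1.trans (le_of_eq ?_)
    rw [hM, ← hP]
    have h2 : L ^ (2 * k + 1) = L ^ k * L ^ (k + 1) := by rw [← pow_add]; congr 1; ring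
    have h3 : L ^ (2 * k + 2) = L * (L ^ k * L ^ (k + 1)) := by
      rw [← pow_add, ← pow_succ']; congr 1; ring
    rw [h2, h3]
    field_simp
    ring
  have hLx : L ≤ Real.sqrt x * L := by
    have : 1 ≤ Real.sqrt x := Real.one_le_sqrt.mpr (le_trans (by norm_num) hx9')
    exact le_mul_of_one_le_left hL0.le this
  have hlow2 : (a : ℝ) * (L + 1) ≤ 3 * (Real.sqrt x * L) := by
    calc (a : ℝ) * (L + 1) ≤ Real.sqrt x * (3 * L) :=
          mul_le_mul hasx hLL (add_nonneg hL0.le zero_le_one) hsx0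
      _ = _ := by ring
  rw [hsplit]
  refine (norm_add_le _ _).trans ?_
  have hP2 : 6 * P * P * L ≤ 6 * P * P * (Real.sqrt x * L) :=
    mul_le_mul_of_nonneg_left hLx (by positivity)
  have hP0 : 0 ≤ P := le_trans zero_le_one hP1
  have q1 : 0 ≤ P * P * (Real.sqrt x * L) := mul_nonneg (mul_nonneg hP0 hP0) hB0
  have q2 : 0 ≤ P * (Real.sqrt x * L) := mul_nonneg hP0 hB0
  refine (add_le_add (hlow.trans hlow2) (hab.trans (hmain.trans (add_le_add_right hP2 _)))).trans ?_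
  generalize (x : ℝ) * Real.sqrt H / L ^ k = A at hA0 ⊢
  generalize Real.sqrt x * L = B at hB0 q1 q2 ⊢
  have e : (2 * P * (180 + 6 * P) + 9) * (A + B) - (3 * B + (2 * P * (180 + 6 * P) * A + 6 * P * P * B)) =
      9 * A + 360 * (P * B) + 6 * (P * P * B) + 6 * B := by ring
  linarith only [e, q1, q2, hA0, hB0]

end Pool.Agent.Lib.MP_d9bc60_nt.UV
end
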