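import Pool.Agent.Lib.MP_d9bc60_nt.UV.PLBounds
import Pool.Agent.Lib.MP_d9bc60_nt.UV.PSiegel
import Pool.Agent.Lib.MP_d9bc60_nt.UV.PZeta
import Pool.Agent.Lib.MP_d9bc60_nt.UV.PTauber

section
/-! Row W18 (about 130 lines): the lower bound for all nonprincipal characters. -/

set_option autoImplicit false

namespace Pool.Agent.Lib.MP_d9bc60_nt.UV

open Finset

theorem w18_logMul {q : ℕ} (χ : DirichletCharacter ℂ q) :
    LSeries.logMul (ch χ) = lp (ch χ) 1 := by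
  funext n
  unfold LSeries.logMul lp
  rw [pow_one, Complex.natCast_log, mul_comm]

theorem w18_deriv {q : ℕ} [NeZero q] (χ : DirichletCharacter ℂ q) (z : ℂ) (hz : 1 < z.re) :
    deriv (DirichletCharacter.LFunction χ) z = -LSeries (lp (ch χ) 1) z := by
  rw [DirichletCharacter.deriv_LFunction_eq_deriv_LSeries χ hz, ← w18_logMul]
  have h1 : LSeries.abscissaOfAbsConv (ch χ) < z.re := by
    have h2 : LSeries.abscissaOfAbsConv (ch χ) = 1 :=
      DirichletCharacter.absicssaOfAbsConv_eq_one (NeZero.ne q) χ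
    rw [h2]
    exact_mod_cast hz
  exact LSeries_deriv h1

/-- The comparison of `L(s)` with `L(1)`. -/
theorem w18_near {q : ℕ} [NeZero q] (χ : DirichletCharacter ℂ q) (hχ : χ ≠ 1) (B : ℝ)
    (hB : ∀ z : ℂ, 1 < z.re → z.re ≤ 2 → |z.im| ≤ 1 → ‖LSeries (lp (ch χ) 1) z‖ ≤ B)
    (τ : ℝ) (hτ : 0 < τ) (hτ1 : τ ≤ 1) (s : ℂ) (hs : 1 < s.re) (hs2 : s.re < 1 + τ)
    (ht : |s.im| < τ) :
    ‖DirichletCharacter.LFunction χ 1‖ ≤ ‖DirichletCharacter.LFunction χ s‖ + B * (2 * τ) := by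
  set S : Set ℂ := {z | 1 < z.re ∧ z.re ≤ 2 ∧ z.im ≤ 1 ∧ -1 ≤ z.im} with hS
  have hconv : Convex ℝ S := by
    have h1 := ((convex_halfSpace_re_gt 1).inter (convex_halfSpace_re_le 2)).inter
      ((convex_halfSpace_im_le 1).inter (convex_halfSpace_im_ge (-1)))
    have h2 : S = ({z : ℂ | 1 < z.re} ∩ {z : ℂ | z.re ≤ 2}) ∩
        ({z : ℂ | z.im ≤ 1} ∩ {z : ℂ | -1 ≤ z.im}) := by
      ext z; simp only [hS, Set.mem_ofPred_eq, Set.mem_inter_iff]; tauto
    rw [h2]; exact h1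
  have hdiff := DirichletCharacter.differentiable_LFunction hχ
  have hB0 : 0 ≤ B := by
    have h1 := hB (3 / 2 : ℝ) (by norm_num) (by norm_num) (by simp)
    exact (norm_nonneg _).trans h1
  have hstep : ∀ x : ℝ, 0 < x → x < τ →
      ‖DirichletCharacter.LFunction χ ((1 + x : ℝ) : ℂ)‖ ≤
        ‖DirichletCharacter.LFunction χ s‖ + B * (2 * τ) := by
    intro x hx hxτ
    have hxS : ((1 + x : ℝ) : ℂ) ∈ S := by
      refine ⟨?_, ?_, ?_, ?_⟩
      · rw [Complex.ofReal_re]; linarith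
      · rw [Complex.ofReal_re]; linarith
      · rw [Complex.ofReal_im]; norm_num
      · rw [Complex.ofReal_im]; norm_num
    have hsS : s ∈ S := by
      have h3 := abs_lt.1 ht
      exact ⟨hs, by linarith, by linarith, by linarith⟩
    have h1 := hconv.norm_image_sub_le_of_norm_deriv_le
      (f := DirichletCharacter.LFunction χ) (C := B) (fun z _ => hdiff z)
      (fun z hz => by
        rw [w18_deriv χ z hz.1, norm_neg]
        exact hB z hz.1 hz.2.1 (abs_le.2 ⟨hz.2.2.2, hz.2.2.1⟩)) hsS hxS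
    have h2 : ‖((1 + x : ℝ) : ℂ) - s‖ ≤ 2 * τ := by
      refine (Complex.norm_le_abs_re_add_abs_im _).trans ?_
      rw [Complex.sub_re, Complex.sub_im, Complex.ofReal_re, Complex.ofReal_im, zero_sub, abs_neg]
      have h3 : |1 + x - s.re| ≤ τ := by
        rw [abs_le]; constructor <;> linarith
      linarith
    have h4 := h1.trans (mul_le_mul_of_nonneg_left h2 hB0)
    have h5 : DirichletCharacter.LFunction χ ((1 + x : ℝ) : ℂ) =
        DirichletCharacter.LFunction χ s +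
          (DirichletCharacter.LFunction χ ((1 + x : ℝ) : ℂ) - DirichletCharacter.LFunction χ s) := by
      ring
    rw [h5]
    exact (norm_add_le _ _).trans (by linarith)
  have hcont : Continuous fun x : ℝ => ‖DirichletCharacter.LFunction χ ((1 + x : ℝ) : ℂ)‖ := by
    refine (hdiff.continuous.comp ?_).norm
    exact Complex.continuous_ofReal.comp (continuous_const.add continuous_id)
  have hlim : Filter.Tendsto (fun x : ℝ => ‖DirichletCharacter.LFunction χ ((1 + x : ℝ) : ℂ)‖)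
      (nhdsWithin 0 (Set.Ioi 0)) (nhds ‖DirichletCharacter.LFunction χ 1‖) := by
    have h1 := (hcont.tendsto 0).mono_left (nhdsWithin_le_nhds (s := Set.Ioi 0))
    simpa using h1
  refine le_of_tendsto hlim ?_
  have hmem : Set.Ioo (0 : ℝ) τ ∈ nhdsWithin (0 : ℝ) (Set.Ioi 0) := Ioo_mem_nhdsGT hτ
  filter_upwards [hmem] with x hx
  exact hstep x hx.1 hx.2

/-- Proof. If `χ² ≠ 1`: `L_lower` with `τ = 1`. Let `χ² = 1`, `ε' = ε/40`, `‖L(1,χ)‖ ≥ c₁ q^(-ε')`
(`siegel`), `‖L'(s,χ)‖ ≤ C₁ (3q)^ε'` for `|t| ≤ 1`, `1 < Re s ≤ 2` (`L_upper 1`). Let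
`τ = c₂ q^(-2ε')` with `c₂` small. If `|t| ≥ τ`: `L_lower` with this `τ` loses `τ^10 ≥ c q^(-20ε')`.
If `|t| < τ` and `σ ≥ 1 + τ`: `L_ge_triv` gives `≥ τ/2`. If `|t| < τ` and `σ < 1 + τ`: for `x → 0+`
compare `L(s)` with `L(1+x)` along a segment in `Re > 1`:
`‖L(s)‖ ≥ ‖L(1)‖ - 2τ C₁(3q)^ε' ≥ (c₁/2) q^(-ε')`. -/
theorem L_lower_full (ε : ℝ) (hε : 0 < ε) : ∃ c : ℝ, 0 < c ∧
    ∀ (q : ℕ) [NeZero q] (χ : DirichletCharacter ℂ q) (s : ℂ), χ ≠ 1 → 1 < s.re → s.re ≤ 2 →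
    c * ((q : ℝ) * (2 + |s.im|)) ^ (-ε) ≤ ‖LSeries (ch χ) s‖ := by
  obtain ⟨c1, hc1, hsieg⟩ := siegel (ε / 40) (by positivity)
  obtain ⟨C1, hC1, hup⟩ := L_upper 1 (ε / 40) (by positivity)
  obtain ⟨c3, hc3, hlow⟩ := L_lower (ε / 2) (by positivity)
  have h3pos : (0 : ℝ) < 3 ^ (ε / 40) := Real.rpow_pos_of_pos (by norm_num) _
  set c2 : ℝ := min 1 (c1 / (4 * C1 * 3 ^ (ε / 40))) with hc2
  have hc2pos : 0 < c2 := lt_min one_pos (by positivity)
  have hc2one : c2 ≤ 1 := min_le_left _ _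
  have hc2le : c2 ≤ c1 / (4 * C1 * 3 ^ (ε / 40)) := min_le_right _ _
  refine ⟨min (c3 * c2 ^ 10) (min (c2 / 2) (c1 / 2)), by positivity, ?_⟩
  intro q _ χ s hχ hs hs2
  have hq1 : (1 : ℝ) ≤ q := by exact_mod_cast NeZero.one_le
  have hq0 : (0 : ℝ) < q := by linarith
  set D : ℝ := (q : ℝ) * (2 + |s.im|) with hD
  have hqD : (q : ℝ) ≤ D := by
    rw [hD]; exact le_mul_of_one_le_right hq0.le (by linarith [abs_nonneg s.im])
  have hD1 : 1 ≤ D := hq1.trans hqD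
  have hD0 : 0 < D := by linarith
  have hmono : ∀ a b : ℝ, b ≤ a → D ^ (-a) ≤ D ^ (-b) := fun a b hab =>
    Real.rpow_le_rpow_of_exponent_le hD1 (by linarith)
  have hqmono : ∀ a : ℝ, 0 ≤ a → D ^ (-a) ≤ (q : ℝ) ^ (-a) := fun a ha =>
    Real.rpow_le_rpow_of_nonpos hq0 hqD (by linarith)
  have hDε : 0 < D ^ (-ε) := Real.rpow_pos_of_pos hD0 _
  have hcA : min (c3 * c2 ^ 10) (min (c2 / 2) (c1 / 2)) ≤ c3 * c2 ^ 10 := min_le_left _ _
  have hcB : min (c3 * c2 ^ 10) (min (c2 / 2) (c1 / 2)) ≤ c2 / 2 :=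
    (min_le_right _ _).trans (min_le_left _ _)
  have hcC : min (c3 * c2 ^ 10) (min (c2 / 2) (c1 / 2)) ≤ c1 / 2 :=
    (min_le_right _ _).trans (min_le_right _ _)
  by_cases hsq : χ ^ 2 = 1
  swap
  · have h1 := hlow q χ 1 s one_pos le_rfl hs hs2 (Or.inl hsq)
    rw [one_pow, mul_one] at h1
    refine le_trans ?_ h1
    have h2 : min (c3 * c2 ^ 10) (min (c2 / 2) (c1 / 2)) ≤ c3 := by
      refine hcA.trans ?_
      have : c2 ^ 10 ≤ 1 := pow_le_one₀ hc2pos.le hc2one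
      exact mul_le_of_le_one_right hc3.le this
    exact mul_le_mul h2 (hmono ε (ε / 2) (by linarith)) hDε.le hc3.le
  · set τ : ℝ := c2 * (q : ℝ) ^ (-(ε / 20)) with hτ
    have hqneg : ∀ a : ℝ, 0 < (q : ℝ) ^ a := fun a => Real.rpow_pos_of_pos hq0 a
    have hτ0 : 0 < τ := mul_pos hc2pos (hqneg _)
    have hτ1 : τ ≤ 1 := by
      have h1 : (q : ℝ) ^ (-(ε / 20)) ≤ 1 :=
        Real.rpow_le_one_of_one_le_of_nonpos hq1 (by linarith)
      rw [hτ]
      have := mul_le_mul hc2one h1 (hqneg _).le zero_le_one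
      linarith
    by_cases ht : τ ≤ |s.im|
    · have h1 := hlow q χ τ s hτ0 hτ1 hs hs2 (Or.inr ht)
      refine le_trans ?_ h1
      have h2 : τ ^ 10 = c2 ^ 10 * (q : ℝ) ^ (-(ε / 2)) := by
        rw [hτ, mul_pow, ← Real.rpow_natCast ((q : ℝ) ^ (-(ε / 20))) 10, ← Real.rpow_mul hq0.le]
        congr 2
        push_cast; ring
      have h3 : D ^ (-ε) = D ^ (-(ε / 2)) * D ^ (-(ε / 2)) := by
        rw [← Real.rpow_add hD0]; congr 1; ring
      rw [h2, ← hD]
      calc min (c3 * c2 ^ 10) (min (c2 / 2) (c1 / 2)) * D ^ (-ε)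
          ≤ (c3 * c2 ^ 10) * D ^ (-ε) := mul_le_mul_of_nonneg_right hcA hDε.le
        _ = (c3 * c2 ^ 10) * (D ^ (-(ε / 2)) * D ^ (-(ε / 2))) := by rw [h3]
        _ ≤ (c3 * c2 ^ 10) * ((q : ℝ) ^ (-(ε / 2)) * D ^ (-(ε / 2))) := by
            refine mul_le_mul_of_nonneg_left ?_ (by positivity)
            exact mul_le_mul_of_nonneg_right (hqmono _ (by linarith))
              (Real.rpow_pos_of_pos hD0 _).le
        _ = c3 * (c2 ^ 10 * (q : ℝ) ^ (-(ε / 2))) * D ^ (-(ε / 2)) := by ring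
    · push Not at ht
      by_cases hσ : 1 + τ ≤ s.re
      · have h1 := L_ge_triv q χ s hs
        refine le_trans ?_ h1
        have h2 : τ / 2 ≤ (s.re - 1) / s.re := by
          rw [div_le_div_iff₀ (by norm_num) (by linarith)]
          exact (mul_le_mul_of_nonneg_left hs2 hτ0.le).trans (by linarith)
        refine le_trans ?_ h2
        have h3 : D ^ (-ε) ≤ (q : ℝ) ^ (-(ε / 20)) :=
          (hmono ε (ε / 20) (by linarith)).trans (hqmono _ (by linarith))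
        calc min (c3 * c2 ^ 10) (min (c2 / 2) (c1 / 2)) * D ^ (-ε)
            ≤ c2 / 2 * (q : ℝ) ^ (-(ε / 20)) :=
              mul_le_mul hcB h3 hDε.le (by positivity)
          _ = τ / 2 := by rw [hτ]; ring
      · push Not at hσ
        have hB : ∀ z : ℂ, 1 < z.re → z.re ≤ 2 → |z.im| ≤ 1 →
            ‖LSeries (lp (ch χ) 1) z‖ ≤ C1 * (q * 3 : ℝ) ^ (ε / 40) := by
          intro z hz1 hz2 hz3
          have h1 := hup q χ z hz1 hz2
          rw [if_neg hχ, add_zero, mul_one] at h1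
          refine h1.trans (mul_le_mul_of_nonneg_left ?_ (by linarith))
          refine Real.rpow_le_rpow (by positivity) ?_ (by positivity)
          exact mul_le_mul_of_nonneg_left (by linarith) hq0.le
        have h1 := w18_near χ hχ _ hB τ hτ0 hτ1 s hs hσ ht
        have h2 := hsieg q χ hsq hχ
        have h3 : C1 * (q * 3 : ℝ) ^ (ε / 40) * (2 * τ) ≤ c1 / 2 * (q : ℝ) ^ (-(ε / 40)) := by
          rw [Real.mul_rpow hq0.le (by norm_num)]
          have h4 : (q : ℝ) ^ (ε / 40) * (q : ℝ) ^ (-(ε / 20)) = (q : ℝ) ^ (-(ε / 40)) := by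
            rw [← Real.rpow_add hq0]; congr 1; ring
          have h5 : c2 * (4 * C1 * 3 ^ (ε / 40)) ≤ c1 := by
            rwa [le_div_iff₀ (by positivity)] at hc2le
          calc C1 * ((q : ℝ) ^ (ε / 40) * 3 ^ (ε / 40)) * (2 * τ)
              = (c2 * (4 * C1 * 3 ^ (ε / 40))) / 2 *
                  ((q : ℝ) ^ (ε / 40) * (q : ℝ) ^ (-(ε / 20))) := by rw [hτ]; ring
            _ = (c2 * (4 * C1 * 3 ^ (ε / 40))) / 2 * (q : ℝ) ^ (-(ε / 40)) := by rw [h4]
            _ ≤ c1 / 2 * (q : ℝ) ^ (-(ε / 40)) :=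
                mul_le_mul_of_nonneg_right (by linarith) (hqneg _).le
        have h6 : DirichletCharacter.LFunction χ s = LSeries (ch χ) s :=
          DirichletCharacter.LFunction_eq_LSeries χ hs
        rw [h6] at h1
        have h7 : c1 / 2 * (q : ℝ) ^ (-(ε / 40)) ≤ ‖LSeries (ch χ) s‖ := by linarith
        refine le_trans ?_ h7
        have h8 : D ^ (-ε) ≤ (q : ℝ) ^ (-(ε / 40)) :=
          (hmono ε (ε / 40) (by linarith)).trans (hqmono _ (by linarith))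
        exact mul_le_mul hcC h8 hDε.le (by positivity)

end Pool.Agent.Lib.MP_d9bc60_nt.UV
end

section
/-! Row W20 (about 90 lines): the derivatives of `L'/L`, uniformly. -/

set_option autoImplicit false

namespace Pool.Agent.Lib.MP_d9bc60_nt.UV

open Finset

theorem w20_aux (k : ℕ) (C₀ M Y ε : ℝ) (hM : 1 ≤ M) (hY : 1 ≤ Y) (hC : 0 ≤ C₀) :
    C₀ * (M * Y ^ (ε / (2 * k + 2))) ^ (2 * k + 2) = C₀ * M ^ (2 * k + 2) * Y ^ ε := by
  have hY0 : 0 ≤ Y := by linarith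
  rw [mul_pow, ← Real.rpow_natCast (Y ^ (ε / (2 * k + 2))), ← Real.rpow_mul hY0]
  have : ε / (2 * k + 2) * ((2 * k + 2 : ℕ) : ℝ) = ε := by
    push_cast
    field_simp
  rw [this]
  ring

/-- Proof. `logder k` with `U = C' (q(2+|t|))^ε'`, `ε' = ε/(2k+2)`: `L_upper j ε'` for `j ≤ k+1` (`χ ≠ 1`)
and `L_lower_full ε'`. -/
theorem logder_char (k : ℕ) (ε : ℝ) (hε : 0 < ε) : ∃ C : ℝ, 1 ≤ C ∧
    ∀ (q : ℕ) [NeZero q] (χ : DirichletCharacter ℂ q) (s : ℂ), χ ≠ 1 → 1 < s.re → s.re ≤ 2 →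
    ‖LSeries (lp (chL χ) k) s‖ ≤ C * ((q : ℝ) * (2 + |s.im|)) ^ ε := by
  have hε' : 0 < ε / (2 * k + 2) := by positivity
  obtain ⟨C₀, hC₀, hlog⟩ := logder k
  choose Cf hCf1 hCf using fun j : ℕ => L_upper j (ε / (2 * k + 2)) hε'
  obtain ⟨c, hc, hlow⟩ := L_lower_full (ε / (2 * k + 2)) hε'
  set M : ℝ := ∑ j ∈ range (k + 2), Cf j + 1 / c with hM
  have hS : ∀ j ≤ k + 1, Cf j ≤ M := by
    intro j hj
    have h1 : Cf j ≤ ∑ j ∈ range (k + 2), Cf j :=
      single_le_sum (f := Cf) (fun i _ => by linarith [hCf1 i]) (mem_range.mpr (by omega))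
    have h2 : 0 ≤ 1 / c := by positivity
    linarith
  have hM1 : 1 ≤ M := (hCf1 0).trans (hS 0 (by omega))
  have hMc : 1 / c ≤ M := by
    have : 0 ≤ ∑ j ∈ range (k + 2), Cf j := sum_nonneg (fun i _ => by linarith [hCf1 i])
    linarith
  refine ⟨C₀ * M ^ (2 * k + 2), ?_, ?_⟩
  · have : 1 ≤ M ^ (2 * k + 2) := one_le_pow₀ hM1
    exact one_le_mul_of_one_le_of_one_le hC₀ this
  intro q _ χ s hχ hs1 hs2
  set Y : ℝ := (q : ℝ) * (2 + |s.im|) with hY
  have hq : (1 : ℝ) ≤ q := by exact_mod_cast Nat.one_le_iff_ne_zero.mpr (NeZero.ne q)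
  have hY1 : 1 ≤ Y := by
    rw [hY]
    exact one_le_mul_of_one_le_of_one_le hq (by linarith [abs_nonneg s.im])
  have hYe : 1 ≤ Y ^ (ε / (2 * k + 2)) := Real.one_le_rpow hY1 hε'.le
  have hYe0 : 0 < Y ^ (ε / (2 * k + 2)) := by linarith
  have h := hlog q χ s (M * Y ^ (ε / (2 * k + 2))) (one_le_mul_of_one_le_of_one_le hM1 hYe) hs1 ?_ ?_
  · rwa [w20_aux k C₀ M Y ε hM1 hY1 (by linarith)] at h
  · intro j hj
    have h1 := hCf j q χ s hs1 hs2
    rw [if_neg hχ, add_zero, mul_one] at h1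
    exact h1.trans (mul_le_mul_of_nonneg_right (hS j hj) hYe0.le)
  · refine le_trans ?_ (hlow q χ s hχ hs1 hs2)
    rw [Real.rpow_neg (by linarith), ← hY]
    rw [one_div, mul_inv]
    apply mul_le_mul_of_nonneg_right _ (by positivity)
    rw [← one_div]
    rw [div_le_iff₀ (by linarith)]
    rw [div_le_iff₀ hc] at hMc
    linarith

/-- Proof. `q = 1`, `χ = 1` in `logder` and in `L_upper` (`‖s - 1‖ ≥ |t| ≥ 1`), `L_lower` with
`τ = 1`; `chL` of the character mod `1` is `Λ`. -/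
theorem logder_zeta (k : ℕ) (ε : ℝ) (hε : 0 < ε) : ∃ C : ℝ, 1 ≤ C ∧
    ∀ s : ℂ, 1 < s.re → s.re ≤ 2 → 1 ≤ |s.im| →
    ‖LSeries (lp (fun n => (vm n : ℂ)) k) s‖ ≤ C * (2 + |s.im|) ^ ε := by
  have hε' : 0 < ε / (2 * k + 2) := by positivity
  obtain ⟨C₀, hC₀, hlog⟩ := logder k
  choose Cf hCf1 hCf using fun j : ℕ => L_upper j (ε / (2 * k + 2)) hε'
  obtain ⟨c, hc, hlow⟩ := L_lower (ε / (2 * k + 2)) hε'
  set M : ℝ := ∑ j ∈ range (k + 2), 2 * Cf j + 1 / c with hM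
  have hS : ∀ j ≤ k + 1, 2 * Cf j ≤ M := by
    intro j hj
    have h1 : 2 * Cf j ≤ ∑ j ∈ range (k + 2), 2 * Cf j :=
      single_le_sum (f := fun j => 2 * Cf j) (fun i _ => by
        show 0 ≤ 2 * Cf i
        linarith [hCf1 i]) (mem_range.mpr (by omega))
    have h2 : 0 ≤ 1 / c := by positivity
    linarith
  have hM1 : 1 ≤ M := by
    have := hS 0 (by omega)
    linarith [hCf1 0]
  have hMc : 1 / c ≤ M := by
    have : 0 ≤ ∑ j ∈ range (k + 2), 2 * Cf j := sum_nonneg (fun i _ => by linarith [hCf1 i])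
    linarith
  refine ⟨C₀ * M ^ (2 * k + 2), ?_, ?_⟩
  · have : 1 ≤ M ^ (2 * k + 2) := one_le_pow₀ hM1
    exact one_le_mul_of_one_le_of_one_le hC₀ this
  intro s hs1 hs2 ht
  set Y : ℝ := 2 + |s.im| with hY
  have hY1 : 1 ≤ Y := by
    rw [hY]
    linarith
  have hYe : 1 ≤ Y ^ (ε / (2 * k + 2)) := Real.one_le_rpow hY1 hε'.le
  have hYe0 : 0 < Y ^ (ε / (2 * k + 2)) := by linarith
  have hcoef : chL (1 : DirichletCharacter ℂ 1) = fun n => (vm n : ℂ) := by
    funext n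
    unfold chL
    have : (1 : DirichletCharacter ℂ 1) (n : ZMod 1) = 1 := by
      apply MulChar.one_apply
      exact isUnit_of_subsingleton _
    rw [this, one_mul]
  have h := hlog 1 (1 : DirichletCharacter ℂ 1) s (M * Y ^ (ε / (2 * k + 2))) (one_le_mul_of_one_le_of_one_le hM1 hYe) hs1 ?_ ?_
  · rw [w20_aux k C₀ M Y ε hM1 hY1 (by linarith), hcoef] at h
    exact h
  · intro j hj
    have h1 := hCf j 1 (1 : DirichletCharacter ℂ 1) s hs1 hs2
    rw [if_pos rfl, Nat.cast_one, one_mul, ← hY] at h1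
    have h2 : 1 ≤ ‖s - 1‖ := by
      refine ht.trans ?_
      have := Complex.abs_im_le_norm (s - 1)
      simpa using this
    have h3 : 1 / ‖s - 1‖ ^ (j + 1) ≤ 1 := by
      rw [div_le_one (by positivity)]
      exact one_le_pow₀ h2
    have h4 : 0 ≤ Cf j * Y ^ (ε / (2 * k + 2)) := by
      have := hCf1 j
      positivity
    calc ‖LSeries (lp (ch (1 : DirichletCharacter ℂ 1)) j) s‖
        ≤ Cf j * Y ^ (ε / (2 * k + 2)) * (1 + 1 / ‖s - 1‖ ^ (j + 1)) := h1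
      _ ≤ Cf j * Y ^ (ε / (2 * k + 2)) * 2 := mul_le_mul_of_nonneg_left (by linarith) h4
      _ = 2 * Cf j * Y ^ (ε / (2 * k + 2)) := by ring
      _ ≤ M * Y ^ (ε / (2 * k + 2)) := mul_le_mul_of_nonneg_right (hS j hj) hYe0.le
  · have h1 := hlow 1 (1 : DirichletCharacter ℂ 1) 1 s one_pos le_rfl hs1 hs2 (Or.inr ht)
    refine le_trans ?_ h1
    rw [one_pow, mul_one, Nat.cast_one, one_mul, ← hY, Real.rpow_neg (by linarith)]
    rw [one_div, mul_inv]
    apply mul_le_mul_of_nonneg_right _ (by positivity)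
    rw [← one_div]
    rw [div_le_iff₀ (by linarith)]
    rw [div_le_iff₀ hc] at hMc
    linarith

end Pool.Agent.Lib.MP_d9bc60_nt.UV
end

section
/-! Row W22 (about 60 lines): the coefficients `Λ - 1`. -/

set_option autoImplicit false

namespace Pool.Agent.Lib.MP_d9bc60_nt.UV

open Finset

theorem w22_abs_vm {s : ℂ} (hs : 1 < s.re) :
    LSeries.abscissaOfAbsConv (fun n => (vm n : ℂ)) < s.re := by
  refine lt_of_le_of_lt (b := ((1 : ℝ) : EReal)) ?_ (by exact_mod_cast hs)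
  apply LSeries.abscissaOfAbsConv_le_of_forall_lt_LSeriesSummable
  intro y hy
  exact ArithmeticFunction.LSeriesSummable_vonMangoldt (by simpa using hy)

theorem w22_abs_one {s : ℂ} (hs : 1 < s.re) :
    LSeries.abscissaOfAbsConv (fun _ => (1 : ℂ)) < s.re := by
  refine lt_of_le_of_lt (b := ((1 : ℝ) : EReal)) ?_ (by exact_mod_cast hs)
  apply LSeries.abscissaOfAbsConv_le_of_forall_lt_LSeriesSummable
  intro y hy
  exact LSeriesSummable_one_iff.mpr (by simpa using hy)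

theorem w22_summable (a : ℕ → ℂ) {s : ℂ} (h : LSeries.abscissaOfAbsConv a < s.re) (k : ℕ) :
    LSeriesSummable (lp a k) s := by
  apply LSeriesSummable_of_abscissaOfAbsConv_lt_re
  rw [← w21_iter, LSeries.absicssaOfAbsConv_logPowMul]
  exact h

/-- Proof. `|t| ≤ 1`: `soft_zeta`. `|t| ≥ 1`: `logder_zeta` minus `lp_one k`
(`‖s-1‖ ≥ 1`, `log^(k+1) ≤ C(·)^ε`). -/
theorem zeta_bound (k : ℕ) (ε : ℝ) (hε : 0 < ε) : ∃ C : ℝ, 1 ≤ C ∧
    ∀ s : ℂ, 1 < s.re → s.re ≤ 2 →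
    ‖LSeries (lp (fun n => (vm n : ℂ) - 1) k) s‖ ≤ C * (2 + |s.im|) ^ ε := by
  obtain ⟨C1, hC1, h1⟩ := soft_zeta k
  obtain ⟨C2, hC2, h2⟩ := logder_zeta k ε hε
  obtain ⟨C3, hC3, h3⟩ := lp_one k
  set δ : ℝ := ε / (k + 1) with hδ
  have hδ0 : 0 < δ := by positivity
  refine ⟨C1 + C2 + C3 * (1 / δ ^ (k + 1) + 1), ?_, ?_⟩
  · have : 0 ≤ C3 * (1 / δ ^ (k + 1) + 1) := by positivity
    linarith
  · intro s hs1 hs2
    have hx1 : (1 : ℝ) ≤ 2 + |s.im| := by have := abs_nonneg s.im; linarith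
    have hx0 : (0 : ℝ) < 2 + |s.im| := by linarith
    have hpow1 : (1 : ℝ) ≤ (2 + |s.im|) ^ ε := Real.one_le_rpow hx1 hε.le
    have hpow0 : (0 : ℝ) ≤ (2 + |s.im|) ^ ε := by linarith
    have hrest : 0 ≤ C3 * (1 / δ ^ (k + 1) + 1) := by positivity
    by_cases ht : |s.im| ≤ 1
    · refine (h1 s hs1 hs2 ht).trans ?_
      calc C1 ≤ C1 * (2 + |s.im|) ^ ε := le_mul_of_one_le_right (by linarith) hpow1
        _ ≤ _ := by
          apply mul_le_mul_of_nonneg_right _ hpow0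
          linarith
    · have ht' : 1 ≤ |s.im| := (not_le.mp ht).le
      have hsplit : lp (fun n => (vm n : ℂ) - 1) k = lp (fun n => (vm n : ℂ)) k - lp (fun _ => 1) k := by
        funext n
        simp only [lp, Pi.sub_apply]
        ring
      have hsub : LSeries (lp (fun n => (vm n : ℂ) - 1) k) s =
          LSeries (lp (fun n => (vm n : ℂ)) k) s - LSeries (lp (fun _ => 1) k) s := by
        rw [hsplit]
        exact LSeries_sub (w22_summable _ (w22_abs_vm hs1) k) (w22_summable _ (w22_abs_one hs1) k)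
      rw [hsub]
      refine (norm_sub_le _ _).trans ?_
      have ha := h2 s hs1 hs2 ht'
      have hb := h3 s hs1 hs2
      have hlog0 : 0 ≤ Real.log (2 + |s.im|) := Real.log_nonneg hx1
      have hlog : Real.log (2 + |s.im|) ^ (k + 1) ≤ (2 + |s.im|) ^ ε * (1 / δ ^ (k + 1)) := by
        have h4 := Real.log_le_rpow_div hx0.le hδ0
        calc Real.log (2 + |s.im|) ^ (k + 1) ≤ ((2 + |s.im|) ^ δ / δ) ^ (k + 1) :=
              pow_le_pow_left₀ hlog0 h4 _
          _ = ((2 + |s.im|) ^ δ) ^ (k + 1) * (1 / δ ^ (k + 1)) := by rw [div_pow]; ring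
          _ = (2 + |s.im|) ^ ε * (1 / δ ^ (k + 1)) := by
            rw [← Real.rpow_natCast, ← Real.rpow_mul hx0.le]
            congr 2
            rw [hδ]
            push_cast
            field_simp
      have hn : 1 / ‖s - 1‖ ^ (k + 1) ≤ (2 + |s.im|) ^ ε := by
        have h5 : 1 ≤ ‖s - 1‖ := by
          have := Complex.abs_im_le_norm (s - 1)
          simp only [Complex.sub_im, Complex.one_im, sub_zero] at this
          linarith
        have h6 : 1 ≤ ‖s - 1‖ ^ (k + 1) := one_le_pow₀ h5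
        calc 1 / ‖s - 1‖ ^ (k + 1) ≤ 1 := by
              rw [div_le_one (by linarith)]; exact h6
          _ ≤ _ := hpow1
      have hb' : ‖LSeries (lp (fun _ => 1) k) s‖ ≤ C3 * (1 / δ ^ (k + 1) + 1) * (2 + |s.im|) ^ ε := by
        refine hb.trans ?_
        calc C3 * (Real.log (2 + |s.im|) ^ (k + 1) + 1 / ‖s - 1‖ ^ (k + 1))
            ≤ C3 * ((2 + |s.im|) ^ ε * (1 / δ ^ (k + 1)) + (2 + |s.im|) ^ ε) := by gcongr
          _ = _ := by ring
      calc _ ≤ C2 * (2 + |s.im|) ^ ε + C3 * (1 / δ ^ (k + 1) + 1) * (2 + |s.im|) ^ ε := add_le_add ha hb'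
        _ ≤ _ := by
          rw [← add_mul]
          exact mul_le_mul_of_nonneg_right (by linarith) hpow0

end Pool.Agent.Lib.MP_d9bc60_nt.UV
end

section
/-! Row W23 (about 130 lines): `ψ(x, χ)` and `ψ(x)`. -/

set_option autoImplicit false

namespace Pool.Agent.Lib.MP_d9bc60_nt.UV

open Finset

theorem w23_large (A : ℕ) (D : ℝ) : ∃ x₀ : ℕ, ∀ x : ℕ, x₀ ≤ x →
    2 ≤ x ∧ 1 ≤ Real.log x ∧ D ≤ Real.log x ∧ D * Real.log x ^ (A + 1) ≤ Real.sqrt x := by
  have h1 : ∀ᶠ x : ℝ in Filter.atTop, (3 : ℝ) ≤ x := Filter.eventually_ge_atTop 3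
  have h2 : ∀ᶠ x : ℝ in Filter.atTop, max 1 D ≤ Real.log x :=
    Real.tendsto_log_atTop.eventually_ge_atTop _
  have h3 : ∀ᶠ x : ℝ in Filter.atTop, D * Real.log x ^ (A + 1) ≤ Real.sqrt x := by
    have h := (isLittleO_log_rpow_rpow_atTop ((A + 1 : ℕ) : ℝ)
      (show (0 : ℝ) < 1 / 2 by norm_num)).bound (show (0 : ℝ) < 1 / (|D| + 1) by positivity)
    filter_upwards [h, h1] with x hx hx4
    rw [Real.norm_eq_abs, Real.norm_eq_abs,
      abs_of_nonneg (Real.rpow_nonneg (Real.log_nonneg (by linarith)) _),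
      abs_of_nonneg (Real.rpow_nonneg (by linarith) _), Real.rpow_natCast,
      ← Real.sqrt_eq_rpow, one_div, ← div_eq_inv_mul, le_div_iff₀ (by positivity)] at hx
    have h5 : 0 ≤ Real.log x ^ (A + 1) := pow_nonneg (Real.log_nonneg (by linarith)) _
    have h6 : D * Real.log x ^ (A + 1) ≤ (|D| + 1) * Real.log x ^ (A + 1) :=
      mul_le_mul_of_nonneg_right (by linarith [le_abs_self D]) h5
    linarith
  obtain ⟨x₀, hx₀⟩ := Filter.eventually_atTop.1
    (tendsto_natCast_atTop_atTop.eventually ((h1.and h2).and h3))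
  refine ⟨x₀, fun x hx => ?_⟩
  obtain ⟨⟨g1, g2⟩, g3⟩ := hx₀ x hx
  refine ⟨?_, (le_max_left _ _).trans g2, (le_max_right _ _).trans g2, g3⟩
  have : (2 : ℝ) ≤ x := by linarith
  exact_mod_cast this

theorem w23_fin {x L S C₁ D h : ℝ} (A B : ℕ) (hC : 0 ≤ C₁) (hL : 1 ≤ L) (hS0 : 0 ≤ S)
    (hS : S * S = x) (hh : h ≤ D * L ^ B) (h1 : 2 * C₁ * D ≤ L) (h2 : 2 * C₁ * L ^ (A + 1) ≤ S) :
    C₁ * (x * h / L ^ (A + B + 1) + S * L) ≤ x / L ^ A := by
  have hL0 : 0 < L := by linarith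
  have hx0 : 0 ≤ x := by rw [← hS]; positivity
  have hLA : 0 < L ^ A := pow_pos hL0 A
  have e1 : C₁ * (x * h / L ^ (A + B + 1)) ≤ x / L ^ A / 2 := by
    have h3 : C₁ * (x * h / L ^ (A + B + 1)) ≤ C₁ * (x * (D * L ^ B) / L ^ (A + B + 1)) := by
      gcongr
    have h4 : C₁ * (x * (D * L ^ B) / L ^ (A + B + 1)) = x / L ^ A * (C₁ * D / L) := by
      have h5 : L ^ (A + B + 1) = L ^ A * L ^ B * L := by ring
      rw [h5]
      field_simp
    have h6 : C₁ * D / L ≤ 1 / 2 := by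
      rw [div_le_iff₀ hL0]
      linarith
    have h7 : 0 ≤ x / L ^ A := by positivity
    calc C₁ * (x * h / L ^ (A + B + 1)) ≤ x / L ^ A * (C₁ * D / L) := h3.trans (le_of_eq h4)
      _ ≤ x / L ^ A * (1 / 2) := mul_le_mul_of_nonneg_left h6 h7
      _ = x / L ^ A / 2 := by ring
  have e2 : C₁ * (S * L) ≤ x / L ^ A / 2 := by
    rw [div_div, le_div_iff₀ (by positivity)]
    calc C₁ * (S * L) * (L ^ A * 2) = S * (2 * C₁ * L ^ (A + 1)) := by ring
      _ ≤ S * S := mul_le_mul_of_nonneg_left h2 hS0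
      _ = x := hS
  calc C₁ * (x * h / L ^ (A + B + 1) + S * L) =
      C₁ * (x * h / L ^ (A + B + 1)) + C₁ * (S * L) := by ring
    _ ≤ x / L ^ A / 2 + x / L ^ A / 2 := add_le_add e1 e2
    _ = x / L ^ A := by ring

theorem w23_sqrt_le {h : ℝ} (hh : 1 ≤ h) : Real.sqrt h ≤ h := by
  rw [Real.sqrt_le_left (by linarith)]
  rw [sq]
  exact le_mul_of_one_le_left (by linarith) hh

theorem w23_vm_le (n : ℕ) : vm n ≤ Real.log n := ArithmeticFunction.vonMangoldt_le_log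

theorem w23_vm_nonneg (n : ℕ) : 0 ≤ vm n := ArithmeticFunction.vonMangoldt_nonneg

/-- Proof. `tauber` with `k = A + B + 1`, `u = chL χ` (at `n = 0` the value is `0`),
`H = C (3q)^(1/2)`-type bound from `logder_char (2k+1) (1/2)`:
`(q(2+|t|))^(1/2) ≤ 2 √q √(1+|t|)`. So `‖ψ(x,χ)‖ ≤ C (x q^(1/4)/(log x)^k + √x log x) ≤
x/(log x)^A` for `q ≤ (log x)^B`, `x` large. -/
theorem psi_chi (A B : ℕ) : ∃ x₀ : ℕ, ∀ x : ℕ, x₀ ≤ x →
    ∀ (q : ℕ) [NeZero q] (χ : DirichletCharacter ℂ q), (q : ℝ) ≤ Real.log x ^ B → χ ≠ 1 →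
    ‖∑ n ∈ Icc 1 x, chL χ n‖ ≤ (x : ℝ) / Real.log x ^ A := by
  obtain ⟨C₁, hC₁, ht⟩ := tauber (A + B + 1)
  obtain ⟨C₂, hC₂, hl⟩ := logder_char (2 * (A + B + 1) + 1) (1 / 2) (by norm_num)
  obtain ⟨x₀, hx₀⟩ := w23_large A (4 * C₁ * C₂)
  refine ⟨x₀, fun x hx q _ χ hq hχ => ?_⟩
  obtain ⟨hx2, hL1, hLD, hLS⟩ := hx₀ x hx
  have hq1 : (1 : ℝ) ≤ q := by
    have : 1 ≤ q := Nat.one_le_iff_ne_zero.2 (NeZero.ne q)
    exact_mod_cast this
  have hsq1 : 1 ≤ Real.sqrt q := Real.one_le_sqrt.2 hq1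
  have hH1 : 1 ≤ 2 * C₂ * Real.sqrt q := one_le_mul_of_one_le_of_one_le (by linarith) hsq1
  have hmain := ht (chL χ) (2 * C₂ * Real.sqrt q) hH1 (fun n => by
    have h1 : ‖chL χ n‖ ≤ vm n := by
      unfold chL
      rw [norm_mul, Complex.norm_real, Real.norm_eq_abs, abs_of_nonneg (w23_vm_nonneg n)]
      exact mul_le_of_le_one_left (w23_vm_nonneg n) (DirichletCharacter.norm_le_one χ _)
    linarith [w23_vm_le n]) (fun s hs1 hs2 => by
    refine (hl q χ s hχ hs1 hs2).trans ?_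
    rw [← Real.sqrt_eq_rpow]
    have h2 : Real.sqrt ((q : ℝ) * (2 + |s.im|)) ≤ Real.sqrt q * (2 * Real.sqrt (1 + |s.im|)) := by
      rw [Real.sqrt_mul (by linarith)]
      refine mul_le_mul_of_nonneg_left ?_ (Real.sqrt_nonneg _)
      have h4 : (2 : ℝ) * Real.sqrt (1 + |s.im|) = Real.sqrt (4 * (1 + |s.im|)) := by
        rw [Real.sqrt_mul (by norm_num), show (4 : ℝ) = 2 ^ 2 by norm_num,
          Real.sqrt_sq (by norm_num)]
      rw [h4]
      exact Real.sqrt_le_sqrt (by linarith [abs_nonneg s.im])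
    calc C₂ * Real.sqrt ((q : ℝ) * (2 + |s.im|)) ≤
        C₂ * (Real.sqrt q * (2 * Real.sqrt (1 + |s.im|))) :=
          mul_le_mul_of_nonneg_left h2 (by linarith)
      _ = 2 * C₂ * Real.sqrt q * Real.sqrt (1 + |s.im|) := by ring) x hx2
  refine hmain.trans ?_
  refine w23_fin (S := Real.sqrt x) (D := 2 * C₂) A B (by linarith) hL1 (Real.sqrt_nonneg _)
    (Real.mul_self_sqrt (Nat.cast_nonneg x)) ?_ (by linarith) ?_
  · refine (w23_sqrt_le hH1).trans (mul_le_mul_of_nonneg_left ?_ (by linarith))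
    exact (w23_sqrt_le hq1).trans hq
  · refine le_trans (mul_le_mul_of_nonneg_right ?_ (pow_nonneg (by linarith) _)) hLS
    have h5 : 0 ≤ C₁ * (C₂ - 1) := mul_nonneg (by linarith) (by linarith)
    linarith

/-- Proof. `tauber` with `u = Λ - 1` (`‖u n‖ ≤ log n + 1`; at `n = 0`, `‖u 0‖ = 1`), `zeta_bound`. -/
theorem psi_one (A : ℕ) : ∃ x₀ : ℕ, ∀ x : ℕ, x₀ ≤ x →
    |∑ n ∈ Icc 1 x, vm n - x| ≤ (x : ℝ) / Real.log x ^ A := by
  obtain ⟨C₁, hC₁, ht⟩ := tauber (A + 0 + 1)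
  obtain ⟨C₂, hC₂, hl⟩ := zeta_bound (2 * (A + 0 + 1) + 1) (1 / 2) (by norm_num)
  obtain ⟨x₀, hx₀⟩ := w23_large A (4 * C₁ * C₂)
  refine ⟨x₀, fun x hx => ?_⟩
  obtain ⟨hx2, hL1, hLD, hLS⟩ := hx₀ x hx
  have hH1 : 1 ≤ 2 * C₂ := by linarith
  have hmain := ht (fun n => (vm n : ℂ) - 1) (2 * C₂) hH1 (fun n => by
    have h1 : ‖(vm n : ℂ) - 1‖ ≤ vm n + 1 := by
      refine (norm_sub_le _ _).trans ?_
      rw [Complex.norm_real, Real.norm_eq_abs, abs_of_nonneg (w23_vm_nonneg n), norm_one]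
    linarith [w23_vm_le n]) (fun s hs1 hs2 => by
    refine (hl s hs1 hs2).trans ?_
    rw [← Real.sqrt_eq_rpow]
    have h2 : Real.sqrt (2 + |s.im|) ≤ 2 * Real.sqrt (1 + |s.im|) := by
      have h4 : (2 : ℝ) * Real.sqrt (1 + |s.im|) = Real.sqrt (4 * (1 + |s.im|)) := by
        rw [Real.sqrt_mul (by norm_num), show (4 : ℝ) = 2 ^ 2 by norm_num,
          Real.sqrt_sq (by norm_num)]
      rw [h4]
      exact Real.sqrt_le_sqrt (by linarith [abs_nonneg s.im])
    calc C₂ * Real.sqrt (2 + |s.im|) ≤ C₂ * (2 * Real.sqrt (1 + |s.im|)) :=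
          mul_le_mul_of_nonneg_left h2 (by linarith)
      _ = 2 * C₂ * Real.sqrt (1 + |s.im|) := by ring) x hx2
  have hsum : ∑ n ∈ Icc 1 x, ((vm n : ℂ) - 1) = ((∑ n ∈ Icc 1 x, vm n - x : ℝ) : ℂ) := by
    rw [sum_sub_distrib, sum_const, Nat.card_Icc]
    push_cast
    simp
  rw [hsum, Complex.norm_real, Real.norm_eq_abs] at hmain
  refine hmain.trans ?_
  refine w23_fin (S := Real.sqrt x) (D := 2 * C₂) A 0 (by linarith) hL1 (Real.sqrt_nonneg _)
    (Real.mul_self_sqrt (Nat.cast_nonneg x)) ?_ (by linarith) ?_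
  · rw [pow_zero, mul_one]
    exact w23_sqrt_le hH1
  · refine le_trans (mul_le_mul_of_nonneg_right ?_ (pow_nonneg (by linarith) _)) hLS
    have h5 : 0 ≤ C₁ * (C₂ - 1) := mul_nonneg (by linarith) (by linarith)
    linarith

end Pool.Agent.Lib.MP_d9bc60_nt.UV
end

section
/-! Row W24 (about 160 lines): the Siegel-Walfisz theorem. -/

set_option autoImplicit false

namespace Pool.Agent.Lib.MP_d9bc60_nt.UV

open Finset

private lemma w24_nonneg (n : ℕ) : 0 ≤ vm n := ArithmeticFunction.vonMangoldt_nonneg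

private lemma w24_psi (t : ℕ) : ∑ n ∈ Icc 1 t, vm n ≤ 6 * t := by
  have h := Chebyshev.psi_le_const_mul_self (x := (t : ℝ)) (Nat.cast_nonneg t)
  have h2 : Chebyshev.psi (t : ℝ) = ∑ n ∈ Icc 1 t, vm n := by
    unfold Chebyshev.psi
    rw [Nat.floor_natCast]
    rfl
  rw [h2] at h
  refine h.trans ?_
  refine mul_le_mul_of_nonneg_right ?_ (Nat.cast_nonneg t)
  have h3 : Real.log 4 = 2 * Real.log 2 := by
    rw [show (4 : ℝ) = 2 ^ 2 by norm_num, Real.log_pow]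
    norm_num
  have h4 := Real.log_two_lt_d9
  rw [h3]
  linarith

private lemma w24_bad (q t : ℕ) (hq : 1 ≤ q) :
    ∑ n ∈ (Icc 1 t).filter (fun n : ℕ => ¬ n.Coprime q), vm n ≤
      q * Nat.log 2 t * Real.log q := by
  classical
  set s := (Icc 1 t).filter (fun n : ℕ => ¬ n.Coprime q) with hs
  have h1 : ∑ n ∈ s, vm n = ∑ n ∈ s.filter IsPrimePow, Real.log (n.minFac) := by
    conv_rhs => rw [sum_filter]
    refine sum_congr rfl fun n _ => ?_
    unfold vm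
    rw [ArithmeticFunction.vonMangoldt_apply]
  have hlogq : 0 ≤ Real.log q := Real.log_nonneg (by exact_mod_cast hq)
  have hpp : ∀ n ∈ s.filter IsPrimePow, ∃ p k : ℕ, p ∈ q.primeFactors ∧ k ∈ Icc 1 (Nat.log 2 t) ∧
      p ^ k = n := by
    intro n hn
    rw [mem_filter, hs, mem_filter, mem_Icc] at hn
    obtain ⟨⟨⟨hn1, hn2⟩, hn3⟩, hn4⟩ := hn
    obtain ⟨p, k, hp, hk, rfl⟩ := hn4
    have hp' : p.Prime := Nat.prime_iff.mpr hp
    have hdvd : p ∣ q := by
      by_contra hnd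
      exact hn3 (Nat.Coprime.pow_left k ((Nat.Prime.coprime_iff_not_dvd hp').mpr hnd))
    refine ⟨p, k, ?_, ?_, rfl⟩
    · rw [Nat.mem_primeFactors]
      exact ⟨hp', hdvd, by omega⟩
    · rw [mem_Icc]
      refine ⟨hk, Nat.le_log_of_pow_le (by norm_num) ?_⟩
      exact (Nat.pow_le_pow_left hp'.two_le k).trans hn2
  have h2 : ∑ n ∈ s.filter IsPrimePow, Real.log (n.minFac) ≤
      ∑ n ∈ s.filter IsPrimePow, Real.log q := by
    refine sum_le_sum fun n hn => ?_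
    obtain ⟨p, k, hp, hk, rfl⟩ := hpp n hn
    have hp' := Nat.prime_of_mem_primeFactors hp
    rw [mem_Icc] at hk
    rw [hp'.pow_minFac (by omega)]
    refine Real.log_le_log (by exact_mod_cast hp'.pos) ?_
    exact_mod_cast Nat.le_of_mem_primeFactors hp
  have h3 : (s.filter IsPrimePow).card ≤ q * Nat.log 2 t := by
    have h4 : s.filter IsPrimePow ⊆ (q.primeFactors ×ˢ Icc 1 (Nat.log 2 t)).image
        (fun pk : ℕ × ℕ => pk.1 ^ pk.2) := by
      intro n hn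
      obtain ⟨p, k, hp, hk, h5⟩ := hpp n hn
      rw [mem_image]
      exact ⟨(p, k), mem_product.mpr ⟨hp, hk⟩, h5⟩
    refine (card_le_card h4).trans (card_image_le.trans ?_)
    rw [card_product, Nat.card_Icc, Nat.add_sub_cancel]
    refine Nat.mul_le_mul_right _ ?_
    have h6 : q.primeFactors ⊆ Icc 1 q := by
      intro p hp
      rw [mem_Icc]
      exact ⟨(Nat.prime_of_mem_primeFactors hp).pos, Nat.le_of_mem_primeFactors hp⟩
    have h7 := card_le_card h6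
    rwa [Nat.card_Icc, Nat.add_sub_cancel] at h7
  rw [h1]
  refine h2.trans ?_
  rw [sum_const, nsmul_eq_mul]
  refine mul_le_mul_of_nonneg_right ?_ hlogq
  exact_mod_cast h3

/-- orthogonality of characters -/
private lemma w24_orth (q : ℕ) [NeZero q] (a t : ℕ) (ha : a.Coprime q) :
    (q.totient : ℂ) * ((∑ n ∈ (Icc 1 t).filter (fun n => n % q = a % q), vm n : ℝ) : ℂ) =
      ∑ χ : DirichletCharacter ℂ q, χ ((a : ZMod q)⁻¹) * ∑ n ∈ Icc 1 t, chL χ n := by
  classical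
  have hu : IsUnit (a : ZMod q) := (ZMod.isUnit_iff_coprime a q).mpr ha
  have h1 : ∑ χ : DirichletCharacter ℂ q, χ ((a : ZMod q)⁻¹) * ∑ n ∈ Icc 1 t, chL χ n =
      ∑ n ∈ Icc 1 t, (∑ χ : DirichletCharacter ℂ q, χ ((a : ZMod q)⁻¹) * χ (n : ZMod q)) *
        (vm n : ℂ) := by
    simp_rw [mul_sum, sum_mul]
    rw [sum_comm]
    refine sum_congr rfl fun n _ => sum_congr rfl fun χ _ => ?_
    unfold chL
    ring
  rw [h1]
  simp_rw [DirichletCharacter.sum_char_inv_mul_char_eq ℂ hu]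
  rw [sum_filter, Complex.ofReal_sum, mul_sum]
  refine sum_congr rfl fun n _ => ?_
  have h2 : ((a : ZMod q) = (n : ZMod q)) ↔ n % q = a % q := by
    rw [ZMod.natCast_eq_natCast_iff']
    exact eq_comm
  by_cases h3 : n % q = a % q
  · rw [if_pos h3, if_pos (h2.mpr h3)]
  · rw [if_neg h3, if_neg (fun h => h3 (h2.mp h))]
    simp

/-- the estimate for one `t` -/
private lemma w24_one (q : ℕ) [NeZero q] (a t : ℕ) (ha : a.Coprime q) (E F : ℝ) (hE0 : 0 ≤ E)
    (hF0 : 0 ≤ F)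
    (hE : ∀ χ : DirichletCharacter ℂ q, χ ≠ 1 → ‖∑ n ∈ Icc 1 t, chL χ n‖ ≤ E)
    (h1 : |∑ n ∈ Icc 1 t, vm n - t| ≤ E)
    (hF : ∑ n ∈ (Icc 1 t).filter (fun n : ℕ => ¬ n.Coprime q), vm n ≤ F) :
    |∑ n ∈ (Icc 1 t).filter (fun n => n % q = a % q), vm n - (t : ℝ) / q.totient| ≤ E + F := by
  classical
  have hu : IsUnit (a : ZMod q) := (ZMod.isUnit_iff_coprime a q).mpr ha
  have hq : 0 < q := Nat.pos_of_ne_zero (NeZero.ne q)
  have hφ : 0 < q.totient := Nat.totient_pos.mpr hq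
  have hφ1 : (1 : ℝ) ≤ q.totient := by exact_mod_cast hφ
  set S : ℝ := ∑ n ∈ (Icc 1 t).filter (fun n => n % q = a % q), vm n with hS
  have horth := w24_orth q a t ha
  rw [← hS] at horth
  -- the principal character
  have hinv : IsUnit ((a : ZMod q)⁻¹) := by
    have := hu
    rw [← ZMod.coe_unitOfCoprime a ha] 
    rw [ZMod.inv_coe_unit]
    exact Units.isUnit _
  have hone : (1 : DirichletCharacter ℂ q) ((a : ZMod q)⁻¹) = 1 := MulChar.one_apply hinv
  have hprin : ∑ n ∈ Icc 1 t, chL (1 : DirichletCharacter ℂ q) n =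
      ((∑ n ∈ Icc 1 t, vm n - ∑ n ∈ (Icc 1 t).filter (fun n : ℕ => ¬ n.Coprime q), vm n : ℝ) : ℂ)
      := by
    have h2 : ∑ n ∈ Icc 1 t, vm n =
        ∑ n ∈ (Icc 1 t).filter (fun n : ℕ => n.Coprime q), vm n +
        ∑ n ∈ (Icc 1 t).filter (fun n : ℕ => ¬ n.Coprime q), vm n :=
      (sum_filter_add_sum_filter_not _ _ _).symm
    rw [h2, add_sub_cancel_right, sum_filter, Complex.ofReal_sum]
    refine sum_congr rfl fun n _ => ?_
    unfold chL
    by_cases h3 : n.Coprime q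
    · rw [if_pos h3, MulChar.one_apply ((ZMod.isUnit_iff_coprime n q).mpr h3), one_mul]
    · rw [if_neg h3, MulChar.map_nonunit _ (fun h => h3 ((ZMod.isUnit_iff_coprime n q).mp h))]
      simp
  have hcard : (Finset.univ : Finset (DirichletCharacter ℂ q)).card = q.totient := by
    rw [Finset.card_univ, ← Nat.card_eq_fintype_card]
    exact DirichletCharacter.card_eq_totient_of_hasEnoughRootsOfUnity ℂ q
  have hsplit := Finset.add_sum_erase (Finset.univ : Finset (DirichletCharacter ℂ q))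
    (fun χ => χ ((a : ZMod q)⁻¹) * ∑ n ∈ Icc 1 t, chL χ n) (Finset.mem_univ 1)
  have hnorm : ‖∑ χ ∈ (Finset.univ : Finset (DirichletCharacter ℂ q)).erase 1,
      χ ((a : ZMod q)⁻¹) * ∑ n ∈ Icc 1 t, chL χ n‖ ≤ ((q.totient : ℝ) - 1) * E := by
    refine (norm_sum_le _ _).trans ?_
    have h4 : ∀ χ ∈ (Finset.univ : Finset (DirichletCharacter ℂ q)).erase 1,
        ‖χ ((a : ZMod q)⁻¹) * ∑ n ∈ Icc 1 t, chL χ n‖ ≤ E := by
      intro χ hχ
      rw [norm_mul]
      have h5 : ‖χ ((a : ZMod q)⁻¹)‖ ≤ 1 := DirichletCharacter.norm_le_one χ _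
      have h6 := hE χ (Finset.ne_of_mem_erase hχ)
      calc _ ≤ 1 * ‖∑ n ∈ Icc 1 t, chL χ n‖ := mul_le_mul_of_nonneg_right h5 (norm_nonneg _)
        _ ≤ E := by rwa [one_mul]
    refine (Finset.sum_le_card_nsmul _ _ _ h4).trans (le_of_eq ?_)
    rw [Finset.card_erase_of_mem (Finset.mem_univ _), hcard, nsmul_eq_mul, Nat.cast_sub hφ,
      Nat.cast_one]
  have hmain : ‖(((q.totient : ℝ) * S - t : ℝ) : ℂ)‖ ≤ E + F + ((q.totient : ℝ) - 1) * E := by
    have h7 : (((q.totient : ℝ) * S - t : ℝ) : ℂ) =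
        (((∑ n ∈ Icc 1 t, vm n - t) - ∑ n ∈ (Icc 1 t).filter (fun n : ℕ => ¬ n.Coprime q), vm n :
          ℝ) : ℂ) + ∑ χ ∈ (Finset.univ : Finset (DirichletCharacter ℂ q)).erase 1,
      χ ((a : ZMod q)⁻¹) * ∑ n ∈ Icc 1 t, chL χ n := by
      have h8 : (((q.totient : ℝ) * S - t : ℝ) : ℂ) = (q.totient : ℂ) * (S : ℂ) - t := by
        push_cast
        ring
      rw [h8, horth, ← hsplit]
      rw [hone, hprin]
      push_cast
      ring
    rw [h7]
    refine (norm_add_le _ _).trans (add_le_add ?_ hnorm)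
    rw [Complex.norm_real, Real.norm_eq_abs]
    refine (abs_sub _ _).trans (add_le_add h1 ?_)
    rwa [abs_of_nonneg (sum_nonneg fun n _ => w24_nonneg n)]
  rw [Complex.norm_real, Real.norm_eq_abs] at hmain
  have hφ0 : (0 : ℝ) < q.totient := by linarith
  have h9 : S - (t : ℝ) / q.totient = ((q.totient : ℝ) * S - t) / q.totient := by
    field_simp
  rw [h9, abs_div, abs_of_pos hφ0, div_le_iff₀ hφ0]
  refine hmain.trans ?_
  linarith [mul_nonneg hF0 (sub_nonneg.mpr hφ1)]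

private lemma w24_event (A B N : ℕ) : ∀ᶠ x : ℕ in Filter.atTop,
    2 ^ (A + 2) ≤ Real.log x ∧ 2 ^ (B + 1) ≤ Real.log x ∧ (N : ℝ) ≤ Real.sqrt x ∧
      4 * Real.log x ^ (A + B + 2) ≤ x ∧ 6 * Real.log x ^ A ≤ Real.sqrt x ∧
      Real.log x ^ B ≤ x ∧ 1 ≤ (x : ℝ) := by
  have hcast := tendsto_natCast_atTop_atTop (R := ℝ)
  have hlog : Filter.Tendsto (fun X : ℕ => Real.log X) Filter.atTop Filter.atTop :=
    Real.tendsto_log_atTop.comp hcast
  have hsq : Filter.Tendsto (fun X : ℕ => Real.sqrt X) Filter.atTop Filter.atTop :=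
    Real.tendsto_sqrt_atTop.comp hcast
  have e1 := hlog.eventually_ge_atTop (2 ^ (A + 2))
  have e1' := hlog.eventually_ge_atTop (2 ^ (B + 1))
  have e2 := hcast.eventually_ge_atTop 1
  have e3 := hsq.eventually_ge_atTop (N : ℝ)
  have e0 := hlog.eventually_ge_atTop 1
  have key : ∀ (k : ℕ) (c s : ℝ), 0 < c → 0 < s → ∀ᶠ X : ℕ in Filter.atTop,
      Real.log X ^ k ≤ c * (X : ℝ) ^ s := by
    intro k c s hc hs
    have h := (isLittleO_log_rpow_rpow_atTop (k : ℝ) hs).bound hc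
    have h2 := hcast.eventually h
    filter_upwards [h2, e0, e2] with X h3 h4 h5
    rwa [Real.rpow_natCast, Real.norm_of_nonneg (by positivity),
      Real.norm_of_nonneg (by positivity)] at h3
  have k1 := key (A + B + 2) (1 / 4) 1 (by norm_num) (by norm_num)
  have k2 := key A (1 / 6) (1 / 2) (by norm_num) (by norm_num)
  have k3 := key B 1 1 (by norm_num) (by norm_num)
  filter_upwards [e1, e1', e2, e3, k1, k2, k3] with X h1 h2 h3 h4 h5 h6 h7
  rw [Real.rpow_one] at h5 h7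
  rw [← Real.sqrt_eq_rpow] at h6
  exact ⟨h1, h2, h4, by linarith, by linarith, by linarith, h3⟩

/-- Proof. For `t ≤ √x`: both terms are `≤ 6√x`. For `√x < t ≤ x` (`log t ≥ ½ log x`):
orthogonality `∑_{n ≤ t, n ≡ a} Λ(n) = φ(q)^{-1} ∑_χ conj χ(a) ∑_{n ≤ t} χ(n)Λ(n)`
(`DirichletCharacter.sum_char_inv_mul_char_eq`); for `χ ≠ 1` use `psi_chi (A+1) (2B+1)` at `t`, for `χ = 1`
`∑_{n ≤ t} χ(n) Λ(n) = ψ(t) - ∑_{(n,q)>1} Λ(n)`, the last sum is `≤ ∑_{p ∣ q} log t ≤ (log t)(log q)/log 2`,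
and `psi_one (A+1)`. -/
theorem sw (A B : ℕ) : ∃ x₀ : ℕ, ∀ x : ℕ, x₀ ≤ x → ∀ q : ℕ, 1 ≤ q → (q : ℝ) ≤ Real.log x ^ B →
    ∀ a : ℕ, a.Coprime q → ∀ t : ℕ, t ≤ x →
    |∑ n ∈ (Icc 1 t).filter (fun n => n % q = a % q), vm n - (t : ℝ) / q.totient| ≤
      (x : ℝ) / Real.log x ^ A := by
  obtain ⟨x1, hchi⟩ := psi_chi (A + 1) (B + 1)
  obtain ⟨x2, hone⟩ := psi_one (A + 1)
  obtain ⟨x₀, hx₀⟩ := Filter.eventually_atTop.mp (w24_event A B (max x1 x2))
  refine ⟨x₀, fun x hx q hq hqB a ha t ht => ?_⟩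
  obtain ⟨hL1, hL2, hN, hx4, hx6, hBx, hx1⟩ := hx₀ x hx
  have : NeZero q := ⟨by omega⟩
  set L := Real.log x with hL
  have hLpos : 2 ≤ L := by
    refine le_trans ?_ hL2
    calc (2 : ℝ) = 2 ^ 1 := by norm_num
      _ ≤ 2 ^ (B + 1) := pow_le_pow_right₀ (by norm_num) (by omega)
  have hL0 : 0 < L := by linarith
  have hx0 : (0 : ℝ) < x := by linarith
  have hsx : Real.sqrt x * Real.sqrt x = x := Real.mul_self_sqrt hx0.le
  have hφ : 0 < q.totient := Nat.totient_pos.mpr hq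
  have hφ1 : (1 : ℝ) ≤ q.totient := by exact_mod_cast hφ
  have htR : (t : ℝ) ≤ x := by exact_mod_cast ht
  have ht0 : (0 : ℝ) ≤ t := Nat.cast_nonneg t
  rcases le_or_gt (t : ℝ) (Real.sqrt x) with hsm | hlg
  · -- small t
    have h1 : ∑ n ∈ (Icc 1 t).filter (fun n => n % q = a % q), vm n ≤ 6 * t :=
      (sum_le_sum_of_subset_of_nonneg (filter_subset _ _) fun n _ _ => w24_nonneg n).trans
        (w24_psi t)
    have h0 : 0 ≤ ∑ n ∈ (Icc 1 t).filter (fun n => n % q = a % q), vm n :=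
      sum_nonneg fun n _ => w24_nonneg n
    have h2 : (t : ℝ) / q.totient ≤ t := div_le_self ht0 hφ1
    have h3 : 0 ≤ (t : ℝ) / q.totient := by positivity
    have h4 : |∑ n ∈ (Icc 1 t).filter (fun n => n % q = a % q), vm n - (t : ℝ) / q.totient| ≤
        6 * Real.sqrt x := by
      rw [abs_le]
      constructor <;> linarith [Real.sqrt_nonneg (x : ℝ)]
    refine h4.trans ?_
    rw [le_div_iff₀ (by positivity)]
    calc 6 * Real.sqrt x * L ^ A = Real.sqrt x * (6 * L ^ A) := by ring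
      _ ≤ Real.sqrt x * Real.sqrt x := mul_le_mul_of_nonneg_left hx6 (Real.sqrt_nonneg _)
      _ = x := hsx
  · -- large t
    have hsqpos : 0 < Real.sqrt x := Real.sqrt_pos.mpr hx0
    have htpos : (0 : ℝ) < t := hsqpos.trans hlg
    have hlt : L / 2 ≤ Real.log t := by
      have h1 : Real.log (Real.sqrt x) ≤ Real.log t := Real.log_le_log hsqpos hlg.le
      rwa [Real.log_sqrt hx0.le] at h1
    have hNt : max x1 x2 ≤ t := by
      have : ((max x1 x2 : ℕ) : ℝ) ≤ t := hN.trans hlg.le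
      exact_mod_cast this
    have ht1 : x1 ≤ t := (le_max_left _ _).trans hNt
    have ht2 : x2 ≤ t := (le_max_right _ _).trans hNt
    have hltpos : 0 < Real.log t := by linarith
    have hqt : (q : ℝ) ≤ Real.log t ^ (B + 1) := by
      have h2B : (2 : ℝ) ^ B ≤ Real.log t := by
        have : (2 : ℝ) ^ (B + 1) = 2 ^ B * 2 := pow_succ _ _
        linarith
      calc (q : ℝ) ≤ L ^ B := hqB
        _ ≤ (2 * Real.log t) ^ B := pow_le_pow_left₀ hL0.le (by linarith) B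
        _ = 2 ^ B * Real.log t ^ B := mul_pow _ _ _
        _ ≤ Real.log t * Real.log t ^ B := mul_le_mul_of_nonneg_right h2B (by positivity)
        _ = Real.log t ^ (B + 1) := by ring
    set E := (t : ℝ) / Real.log t ^ (A + 1) with hE
    set F := (q : ℝ) * Nat.log 2 t * Real.log q with hF
    have hq1 : (1 : ℝ) ≤ q := by exact_mod_cast hq
    have hlogq : 0 ≤ Real.log q := Real.log_nonneg hq1
    have hmain := w24_one q a t ha E F (by positivity) (by positivity)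
      (fun χ hχ => hchi t ht1 q χ hqt hχ) (hone t ht2) (w24_bad q t hq)
    refine hmain.trans ?_
    have hEle : E ≤ (x : ℝ) / L ^ A / 2 := by
      have h5 : (L / 2) ^ (A + 1) ≤ Real.log t ^ (A + 1) :=
        pow_le_pow_left₀ (by positivity) hlt _
      have h6 : E ≤ (x : ℝ) / (L / 2) ^ (A + 1) := by
        rw [hE]
        exact div_le_div₀ hx0.le htR (by positivity) h5
      refine h6.trans ?_
      rw [div_pow, div_div, div_le_div_iff₀ (by positivity) (by positivity)]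
      have h7 : (x : ℝ) * (L ^ A * 2) = (x : ℝ) * ((L ^ A * 2 ^ (A + 2)) / 2 ^ (A + 1)) := by
        rw [pow_succ 2 (A + 1)]
        field_simp
      rw [h7]
      refine mul_le_mul_of_nonneg_left ?_ hx0.le
      refine div_le_div_of_nonneg_right ?_ (by positivity)
      calc L ^ A * 2 ^ (A + 2) ≤ L ^ A * L := mul_le_mul_of_nonneg_left hL1 (by positivity)
        _ = L ^ (A + 1) := by ring
    have hFle : F ≤ (x : ℝ) / L ^ A / 2 := by
      have h8 : Real.log q ≤ L := Real.log_le_log (by linarith) (hqB.trans hBx)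
      have h9 : (Nat.log 2 t : ℝ) ≤ 2 * L := by
        have h10 : (2 : ℝ) ^ (Nat.log 2 t) ≤ t := by
          have : t ≠ 0 := by
            rintro rfl
            simp at htpos
          exact_mod_cast Nat.pow_log_le_self 2 this
        have h11 := Real.log_le_log (by positivity) h10
        rw [Real.log_pow] at h11
        have h12 : Real.log t ≤ L := Real.log_le_log htpos htR
        have h13 := Real.log_two_gt_d9
        have h14 : (0 : ℝ) ≤ Nat.log 2 t := Nat.cast_nonneg _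
        have h15 := mul_le_mul_of_nonneg_left (show (1 / 2 : ℝ) ≤ Real.log 2 by linarith) h14
        linarith
      have h15 : F ≤ L ^ B * (2 * L) * L := by
        rw [hF]
        exact mul_le_mul (mul_le_mul hqB h9 (Nat.cast_nonneg _) (by positivity)) h8 hlogq
          (by positivity)
      refine h15.trans ?_
      rw [div_div, le_div_iff₀ (by positivity)]
      calc L ^ B * (2 * L) * L * (L ^ A * 2) = 4 * L ^ (A + B + 2) := by ring
        _ ≤ x := hx4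
    linarith

end Pool.Agent.Lib.MP_d9bc60_nt.UV
end
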