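import Pool.Agent.Lib.MP_d9bc60_nt.UV.PDefs
import Pool.Agent.Lib.MP_d9bc60_nt.UV.PTools

section
/-! Row U1 (about 150 lines): Vaughan's identity, in the form of an exact decomposition of
`∑ Λ(n) φ(n)`. -/

set_option autoImplicit false

namespace Pool.Agent.Lib.MP_d9bc60_nt.UV

open Finset

/-- `(μ_{≤V} * Λ_{≤U})(m)` -/
noncomputable def cUV (U V m : ℕ) : ℝ :=
  ∑ d ∈ m.divisors.filter (fun d => d ≤ V ∧ m / d ≤ U), mu d * vm (m / d)

/-- `(μ_{>V} * 1)(m)` -/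
noncomputable def aV (V m : ℕ) : ℝ := ∑ d ∈ m.divisors.filter (fun d => V < d), mu d

/-- double sums over `d k ≤ N` -/
theorem u1_dsum (N : ℕ) (F : ℕ → ℕ → ℂ) (φ : ℕ → ℂ) :
    ∑ n ∈ Icc 1 N, (∑ p ∈ n.divisorsAntidiagonal, F p.1 p.2) * φ n =
      ∑ d ∈ Icc 1 N, ∑ k ∈ Icc 1 (N / d), F d k * φ (d * k) := by
  simp_rw [Finset.sum_mul]
  rw [Finset.sum_sigma', Finset.sum_sigma']
  refine Finset.sum_bij' (fun x _ => ⟨x.2.1, x.2.2⟩) (fun x _ => ⟨x.1 * x.2, (x.1, x.2)⟩)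
    ?_ ?_ ?_ ?_ ?_
  · rintro ⟨n, d, k⟩ hx
    simp only [Finset.mem_sigma, Finset.mem_Icc, Nat.mem_divisorsAntidiagonal] at hx ⊢
    obtain ⟨⟨h1, h2⟩, h3, h4⟩ := hx
    have hd : d ≠ 0 := by rintro rfl; simp at h3; omega
    have hk : k ≠ 0 := by rintro rfl; simp at h3; omega
    have hdn : d ≤ n := by rw [← h3]; exact Nat.le_mul_of_pos_right d (Nat.pos_of_ne_zero hk)
    refine ⟨⟨Nat.pos_of_ne_zero hd, hdn.trans h2⟩, Nat.pos_of_ne_zero hk, ?_⟩
    rw [Nat.le_div_iff_mul_le (Nat.pos_of_ne_zero hd), mul_comm, h3]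
    exact h2
  · rintro ⟨d, k⟩ hx
    simp only [Finset.mem_sigma, Finset.mem_Icc, Nat.mem_divisorsAntidiagonal] at hx ⊢
    obtain ⟨⟨h1, h2⟩, h3, h4⟩ := hx
    rw [Nat.le_div_iff_mul_le h1, mul_comm] at h4
    have h5 : 0 < d * k := Nat.mul_pos h1 h3
    exact ⟨⟨h5, h4⟩, trivial, h5.ne'⟩
  · rintro ⟨n, d, k⟩ hx
    simp only [Finset.mem_sigma, Finset.mem_Icc, Nat.mem_divisorsAntidiagonal] at hx
    obtain ⟨⟨h1, h2⟩, h3, h4⟩ := hx
    subst h3
    rfl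
  · rintro ⟨d, k⟩ hx
    rfl
  · rintro ⟨n, d, k⟩ hx
    simp only [Finset.mem_sigma, Finset.mem_Icc, Nat.mem_divisorsAntidiagonal] at hx
    obtain ⟨⟨h1, h2⟩, h3, h4⟩ := hx
    subst h3
    rfl

/-- `μ_{≤V}` -/
noncomputable def u1_M1 (V : ℕ) : ArithmeticFunction ℝ :=
  ⟨fun n => if n ≤ V then mu n else 0, by simp [mu]⟩

/-- `μ_{>V}` -/
noncomputable def u1_M2 (V : ℕ) : ArithmeticFunction ℝ :=
  ⟨fun n => if V < n then mu n else 0, by simp⟩

/-- `Λ_{≤U}` -/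
noncomputable def u1_L1 (U : ℕ) : ArithmeticFunction ℝ :=
  ⟨fun n => if n ≤ U then vm n else 0, by simp [vm]⟩

/-- `Λ_{>U}` -/
noncomputable def u1_L2 (U : ℕ) : ArithmeticFunction ℝ :=
  ⟨fun n => if U < n then vm n else 0, by simp⟩

theorem u1_M1_apply (V n : ℕ) : u1_M1 V n = if n ≤ V then mu n else 0 := rfl
theorem u1_M2_apply (V n : ℕ) : u1_M2 V n = if V < n then mu n else 0 := rfl
theorem u1_L1_apply (U n : ℕ) : u1_L1 U n = if n ≤ U then vm n else 0 := rfl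
theorem u1_L2_apply (U n : ℕ) : u1_L2 U n = if U < n then vm n else 0 := rfl

theorem u1_M (V : ℕ) : u1_M1 V + u1_M2 V =
    ((ArithmeticFunction.moebius : ArithmeticFunction ℤ) : ArithmeticFunction ℝ) := by
  ext n
  rw [ArithmeticFunction.add_apply, u1_M1_apply, u1_M2_apply, ArithmeticFunction.intCoe_apply]
  by_cases h : n ≤ V
  · rw [if_pos h, if_neg (not_lt.2 h), add_zero]; rfl
  · rw [if_neg h, if_pos (not_le.1 h), zero_add]; rfl

theorem u1_L (U : ℕ) : u1_L1 U + u1_L2 U = ArithmeticFunction.vonMangoldt := by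
  ext n
  rw [ArithmeticFunction.add_apply, u1_L1_apply, u1_L2_apply]
  by_cases h : n ≤ U
  · rw [if_pos h, if_neg (not_lt.2 h), add_zero]; rfl
  · rw [if_neg h, if_pos (not_le.1 h), zero_add]; rfl

/-- the identity in the ring of arithmetic functions -/
theorem u1_ring (U V : ℕ) : (ArithmeticFunction.vonMangoldt : ArithmeticFunction ℝ) =
    u1_L1 U + u1_M1 V * ArithmeticFunction.log
      - u1_M1 V * u1_L1 U * ((ArithmeticFunction.zeta : ArithmeticFunction ℕ) :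
        ArithmeticFunction ℝ)
      + u1_M2 V * ((ArithmeticFunction.zeta : ArithmeticFunction ℕ) : ArithmeticFunction ℝ) *
        u1_L2 U := by
  have h1 : u1_M1 V = ((ArithmeticFunction.moebius : ArithmeticFunction ℤ) :
      ArithmeticFunction ℝ) - u1_M2 V := by rw [← u1_M V]; ring
  have h2 : u1_L1 U = ArithmeticFunction.vonMangoldt - u1_L2 U := by rw [← u1_L U]; ring
  have h3 : (ArithmeticFunction.log : ArithmeticFunction ℝ) = ArithmeticFunction.vonMangoldt *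
      ((ArithmeticFunction.zeta : ArithmeticFunction ℕ) : ArithmeticFunction ℝ) :=
    ArithmeticFunction.vonMangoldt_mul_zeta.symm
  have h4 : ((ArithmeticFunction.moebius : ArithmeticFunction ℤ) : ArithmeticFunction ℝ) *
      ((ArithmeticFunction.zeta : ArithmeticFunction ℕ) : ArithmeticFunction ℝ) = 1 :=
    ArithmeticFunction.coe_moebius_mul_coe_zeta
  rw [h1, h2, h3]
  linear_combination (-u1_L2 U) * h4

theorem u1_cUV (U V m : ℕ) : (u1_M1 V * u1_L1 U) m = cUV U V m := by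
  rw [ArithmeticFunction.mul_apply, Nat.sum_divisorsAntidiagonal
    (fun a b => u1_M1 V a * u1_L1 U b), cUV, Finset.sum_filter]
  refine Finset.sum_congr rfl fun d _ => ?_
  rw [u1_M1_apply, u1_L1_apply]
  by_cases h1 : d ≤ V <;> by_cases h2 : m / d ≤ U <;> simp [h1, h2]

theorem u1_aV (V m : ℕ) : (u1_M2 V * ((ArithmeticFunction.zeta : ArithmeticFunction ℕ) :
    ArithmeticFunction ℝ)) m = aV V m := by
  rw [ArithmeticFunction.coe_mul_zeta_apply, aV, Finset.sum_filter]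
  refine Finset.sum_congr rfl fun d _ => ?_
  rw [u1_M2_apply]

theorem u1_cUV_zero {U V m : ℕ} (h : U * V < m) : cUV U V m = 0 := by
  rw [cUV, Finset.filter_false_of_mem, Finset.sum_empty]
  intro d hd hh
  have h1 := Nat.div_mul_cancel (Nat.dvd_of_mem_divisors hd)
  have h2 : m / d * d ≤ U * V := Nat.mul_le_mul hh.2 hh.1
  omega

theorem u1_aV_zero {V m : ℕ} (h : m ≤ V) : aV V m = 0 := by
  rw [aV, Finset.filter_false_of_mem, Finset.sum_empty]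
  intro d hd
  have := Nat.divisor_le hd
  omega

theorem u1_point (U V n : ℕ) : vm n = (if n ≤ U then vm n else 0)
    + ∑ p ∈ n.divisorsAntidiagonal, (if p.1 ≤ V then mu p.1 else 0) * Real.log p.2
    - ∑ p ∈ n.divisorsAntidiagonal, cUV U V p.1
    + ∑ p ∈ n.divisorsAntidiagonal, aV V p.1 * (if U < p.2 then vm p.2 else 0) := by
  have h := congrArg (fun f : ArithmeticFunction ℝ => f n) (u1_ring U V)
  simp only [ArithmeticFunction.add_apply] at h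
  have hsub : ∀ f g : ArithmeticFunction ℝ, (f - g) n = f n - g n := by
    intro f g
    rw [sub_eq_add_neg, ArithmeticFunction.add_apply]
    rfl
  rw [hsub, ArithmeticFunction.add_apply] at h
  rw [ArithmeticFunction.mul_apply (f := u1_M1 V), ArithmeticFunction.coe_mul_zeta_apply,
    ArithmeticFunction.mul_apply] at h
  have h5 : ∑ i ∈ n.divisors, (u1_M1 V * u1_L1 U) i = ∑ p ∈ n.divisorsAntidiagonal, cUV U V p.1 := by
    rw [Nat.sum_divisorsAntidiagonal (fun a _ => cUV U V a)]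
    exact Finset.sum_congr rfl fun d _ => u1_cUV U V d
  rw [h5] at h
  have h6 : ∑ x ∈ n.divisorsAntidiagonal, (u1_M2 V * ((ArithmeticFunction.zeta :
      ArithmeticFunction ℕ) : ArithmeticFunction ℝ)) x.1 * u1_L2 U x.2 =
      ∑ p ∈ n.divisorsAntidiagonal, aV V p.1 * (if U < p.2 then vm p.2 else 0) :=
    Finset.sum_congr rfl fun p _ => by rw [u1_aV, u1_L2_apply]
  rw [h6] at h
  have h7 : ∑ x ∈ n.divisorsAntidiagonal, u1_M1 V x.1 * ArithmeticFunction.log x.2 =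
      ∑ p ∈ n.divisorsAntidiagonal, (if p.1 ≤ V then mu p.1 else 0) * Real.log p.2 :=
    Finset.sum_congr rfl fun p _ => by rw [u1_M1_apply, ArithmeticFunction.log_apply]
  rw [h7, u1_L1_apply] at h
  exact h

/-- Proof: `μ = μ_{≤V} + μ_{>V}`, `Λ = Λ_{≤U} + Λ_{>U}`; in the ring of arithmetic functions
`μ * 1 = ε`, `Λ * 1 = log` give
`Λ = Λ_{≤U} + μ_{≤V} * log - μ_{≤V} * Λ_{≤U} * 1 + μ_{>V} * Λ_{>U} * 1`
(`ArithmeticFunction.vonMangoldt_mul_zeta`, `moebius_mul_coe_zeta`). Multiply by `φ` and sum over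
`n ≤ N`, writing each convolution as a double sum over `d k ≤ N`; `cUV U V m = 0` for `m > UV`,
`aV V m = 0` for `m ≤ V`. -/
theorem vaughan_id (U V N : ℕ) (φ : ℕ → ℂ) :
    ∑ n ∈ Icc 1 N, (vm n : ℂ) * φ n =
      ∑ n ∈ Icc 1 (min U N), (vm n : ℂ) * φ n
      + ∑ d ∈ Icc 1 V, (mu d : ℂ) * ∑ k ∈ Icc 1 (N / d), ((Real.log k : ℝ) : ℂ) * φ (d * k)
      - ∑ m ∈ Icc 1 (U * V), (cUV U V m : ℂ) * ∑ k ∈ Icc 1 (N / m), φ (m * k)
      + ∑ m ∈ Ioc V N, ∑ k ∈ Ioc U (N / m), (aV V m : ℂ) * (vm k : ℂ) * φ (m * k) := by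
  have hdiv : ∀ m, N < m → Icc 1 (N / m) = ∅ := by
    intro m hm
    rw [Nat.div_eq_of_lt hm]
    rfl
  have e1 : ∑ n ∈ Icc 1 N, ((if n ≤ U then vm n else 0 : ℝ) : ℂ) * φ n =
      ∑ n ∈ Icc 1 (min U N), (vm n : ℂ) * φ n := by
    have hs : Icc 1 (min U N) = (Icc 1 N).filter (fun n => n ≤ U) := by
      ext n
      simp only [Finset.mem_Icc, Finset.mem_filter, le_min_iff]
      tauto
    rw [hs, Finset.sum_filter]
    refine Finset.sum_congr rfl fun n _ => ?_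
    split_ifs <;> simp
  have e2 : ∑ n ∈ Icc 1 N, ((∑ p ∈ n.divisorsAntidiagonal,
      (if p.1 ≤ V then mu p.1 else 0) * Real.log p.2 : ℝ) : ℂ) * φ n =
      ∑ d ∈ Icc 1 V, (mu d : ℂ) * ∑ k ∈ Icc 1 (N / d), ((Real.log k : ℝ) : ℂ) * φ (d * k) := by
    have h1 := u1_dsum N (fun d k => ((if d ≤ V then mu d else 0 : ℝ) : ℂ) *
      ((Real.log k : ℝ) : ℂ)) φ
    have h2 : ∀ n : ℕ, ((∑ p ∈ n.divisorsAntidiagonal,
        (if p.1 ≤ V then mu p.1 else 0) * Real.log p.2 : ℝ) : ℂ) =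
        ∑ p ∈ n.divisorsAntidiagonal, ((if p.1 ≤ V then mu p.1 else 0 : ℝ) : ℂ) *
      ((Real.log p.2 : ℝ) : ℂ) := by
      intro n
      push_cast
      rfl
    simp_rw [h2]
    rw [h1]
    have h3 : ∀ d ∈ Icc 1 N, ∑ k ∈ Icc 1 (N / d), ((if d ≤ V then mu d else 0 : ℝ) : ℂ) *
        ((Real.log k : ℝ) : ℂ) * φ (d * k) = if d ≤ V then
        (mu d : ℂ) * ∑ k ∈ Icc 1 (N / d), ((Real.log k : ℝ) : ℂ) * φ (d * k) else 0 := by
      intro d _
      split_ifs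
      · rw [Finset.mul_sum]
        exact Finset.sum_congr rfl fun k _ => by ring
      · simp
    rw [Finset.sum_congr rfl h3, ← Finset.sum_filter]
    apply Finset.sum_subset
    · intro d hd
      simp only [Finset.mem_Icc, Finset.mem_filter] at hd ⊢
      exact ⟨hd.1.1, hd.2⟩
    · intro d hd hd'
      simp only [Finset.mem_Icc, Finset.mem_filter] at hd hd'
      rw [hdiv d (by by_contra h; exact hd' ⟨⟨hd.1, not_lt.1 h⟩, hd.2⟩), Finset.sum_empty, mul_zero]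
  have e3 : ∑ n ∈ Icc 1 N, ((∑ p ∈ n.divisorsAntidiagonal, cUV U V p.1 : ℝ) : ℂ) * φ n =
      ∑ m ∈ Icc 1 (U * V), (cUV U V m : ℂ) * ∑ k ∈ Icc 1 (N / m), φ (m * k) := by
    have h1 := u1_dsum N (fun d _ => ((cUV U V d : ℝ) : ℂ)) φ
    have h2 : ∀ n : ℕ, ((∑ p ∈ n.divisorsAntidiagonal, cUV U V p.1 : ℝ) : ℂ) =
        ∑ p ∈ n.divisorsAntidiagonal, ((cUV U V p.1 : ℝ) : ℂ) := by
      intro n
      push_cast
      rfl
    simp_rw [h2]
    rw [h1]
    have h3 : ∀ d ∈ Icc 1 N, ∑ k ∈ Icc 1 (N / d), ((cUV U V d : ℝ) : ℂ) * φ (d * k) =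
        (cUV U V d : ℂ) * ∑ k ∈ Icc 1 (N / d), φ (d * k) := by
      intro d _
      rw [Finset.mul_sum]
    rw [Finset.sum_congr rfl h3]
    trans ∑ m ∈ Icc 1 (max N (U * V)), (cUV U V m : ℂ) * ∑ k ∈ Icc 1 (N / m), φ (m * k)
    · apply Finset.sum_subset
      · exact Finset.Icc_subset_Icc_right (le_max_left _ _)
      · intro d hd hd'
        simp only [Finset.mem_Icc] at hd hd'
        rw [hdiv d (by by_contra h; exact hd' ⟨hd.1, not_lt.1 h⟩), Finset.sum_empty, mul_zero]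
    · symm
      apply Finset.sum_subset
      · exact Finset.Icc_subset_Icc_right (le_max_right _ _)
      · intro d hd hd'
        simp only [Finset.mem_Icc] at hd hd'
        rw [u1_cUV_zero (by by_contra h; exact hd' ⟨hd.1, not_lt.1 h⟩)]
        simp
  have e4 : ∑ n ∈ Icc 1 N, ((∑ p ∈ n.divisorsAntidiagonal,
      aV V p.1 * (if U < p.2 then vm p.2 else 0) : ℝ) : ℂ) * φ n =
      ∑ m ∈ Ioc V N, ∑ k ∈ Ioc U (N / m), (aV V m : ℂ) * (vm k : ℂ) * φ (m * k) := by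
    have h1 := u1_dsum N (fun d k => ((aV V d : ℝ) : ℂ) *
      ((if U < k then vm k else 0 : ℝ) : ℂ)) φ
    have h2 : ∀ n : ℕ, ((∑ p ∈ n.divisorsAntidiagonal,
        aV V p.1 * (if U < p.2 then vm p.2 else 0) : ℝ) : ℂ) =
        ∑ p ∈ n.divisorsAntidiagonal, ((aV V p.1 : ℝ) : ℂ) *
      ((if U < p.2 then vm p.2 else 0 : ℝ) : ℂ) := by
      intro n
      push_cast
      rfl
    simp_rw [h2]
    rw [h1]
    have h3 : ∀ d ∈ Icc 1 N, ∑ k ∈ Icc 1 (N / d), ((aV V d : ℝ) : ℂ) *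
        ((if U < k then vm k else 0 : ℝ) : ℂ) * φ (d * k) =
        ∑ k ∈ Ioc U (N / d), (aV V d : ℂ) * (vm k : ℂ) * φ (d * k) := by
      intro d _
      have hs : Ioc U (N / d) = (Icc 1 (N / d)).filter (fun k => U < k) := by
        ext k
        simp only [Finset.mem_Icc, Finset.mem_filter, Finset.mem_Ioc]
        constructor
        · rintro ⟨h5, h6⟩
          exact ⟨⟨by omega, h6⟩, h5⟩
        · rintro ⟨⟨_, h6⟩, h5⟩
          exact ⟨h5, h6⟩
      rw [hs, Finset.sum_filter]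
      refine Finset.sum_congr rfl fun k _ => ?_
      split_ifs <;> simp
    rw [Finset.sum_congr rfl h3]
    symm
    apply Finset.sum_subset
    · intro m hm
      simp only [Finset.mem_Icc, Finset.mem_Ioc] at hm ⊢
      exact ⟨by omega, hm.2⟩
    · intro m hm hm'
      simp only [Finset.mem_Icc, Finset.mem_Ioc] at hm hm'
      refine Finset.sum_eq_zero fun k _ => ?_
      rw [u1_aV_zero (by by_contra h; exact hm' ⟨not_le.1 h, hm.2⟩)]
      simp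
  rw [← e1, ← e2, ← e3, ← e4, ← Finset.sum_add_distrib, ← Finset.sum_sub_distrib,
    ← Finset.sum_add_distrib]
  refine Finset.sum_congr rfl fun n _ => ?_
  conv_lhs => rw [u1_point U V n]
  rw [Complex.ofReal_add, Complex.ofReal_sub, Complex.ofReal_add]
  ring

end Pool.Agent.Lib.MP_d9bc60_nt.UV
end

section
/-! Row U2 (about 130 lines): the type I terms of Vaughan's identity. -/

set_option autoImplicit false

namespace Pool.Agent.Lib.MP_d9bc60_nt.UV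

open Finset

theorem u2_abs_mu (n : ℕ) : |mu n| ≤ 1 := by
  unfold mu
  have h : |ArithmeticFunction.moebius n| ≤ 1 := ArithmeticFunction.abs_moebius_le_one
  exact_mod_cast h

theorem u2_vm_nonneg (n : ℕ) : 0 ≤ vm n := ArithmeticFunction.vonMangoldt_nonneg

/-- Proof: `∑_{e ∣ m} Λ(e) = log m`, `|μ| ≤ 1`. -/
theorem abs_cUV_le (U V m : ℕ) : |cUV U V m| ≤ Real.log m := by
  unfold cUV
  calc |∑ d ∈ m.divisors.filter (fun d => d ≤ V ∧ m / d ≤ U), mu d * vm (m / d)|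
      ≤ ∑ d ∈ m.divisors.filter (fun d => d ≤ V ∧ m / d ≤ U), |mu d * vm (m / d)| :=
        Finset.abs_sum_le_sum_abs _ _
    _ ≤ ∑ d ∈ m.divisors, vm (m / d) := by
        refine (Finset.sum_le_sum fun d _ => ?_).trans
          (Finset.sum_le_sum_of_subset_of_nonneg (Finset.filter_subset _ _)
            fun d _ _ => u2_vm_nonneg (m / d))
        rw [abs_mul, abs_of_nonneg (u2_vm_nonneg (m / d))]
        exact mul_le_of_le_one_left (u2_vm_nonneg _) (u2_abs_mu d)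
    _ = ∑ d ∈ m.divisors, vm d := Nat.sum_div_divisors m vm
    _ = Real.log m := by
        unfold vm
        exact ArithmeticFunction.vonMangoldt_sum

theorem abs_aV_le (V m : ℕ) : |aV V m| ≤ (m.divisors.card : ℝ) := by
  unfold aV
  calc |∑ d ∈ m.divisors.filter (fun d => V < d), mu d|
      ≤ ∑ d ∈ m.divisors.filter (fun d => V < d), |mu d| := Finset.abs_sum_le_sum_abs _ _
    _ ≤ ∑ d ∈ m.divisors.filter (fun d => V < d), (1 : ℝ) :=
        Finset.sum_le_sum fun d _ => u2_abs_mu d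
    _ = ((m.divisors.filter (fun d => V < d)).card : ℝ) := by simp
    _ ≤ (m.divisors.card : ℝ) := by exact_mod_cast Finset.card_filter_le _ _

theorem u2_first (U N : ℕ) (φ : ℕ → ℂ) (hφ : ∀ n, ‖φ n‖ ≤ 1) :
    ‖∑ n ∈ Icc 1 (min U N), (vm n : ℂ) * φ n‖ ≤ 6 * U := by
  have h1 : ‖∑ n ∈ Icc 1 (min U N), (vm n : ℂ) * φ n‖ ≤ ∑ n ∈ Icc 1 (min U N), vm n := by
    refine (norm_sum_le _ _).trans (Finset.sum_le_sum fun n _ => ?_)
    rw [norm_mul, Complex.norm_real, Real.norm_of_nonneg (u2_vm_nonneg n)]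
    exact mul_le_of_le_one_right (u2_vm_nonneg n) (hφ n)
  have h2 : ∑ n ∈ Icc 1 (min U N), vm n ≤ ∑ n ∈ Icc 1 U, vm n :=
    Finset.sum_le_sum_of_subset_of_nonneg (Finset.Icc_subset_Icc le_rfl (min_le_left _ _))
      fun n _ _ => u2_vm_nonneg n
  have h3 : ∑ n ∈ Icc 1 U, vm n = Chebyshev.psi (U : ℝ) := by
    unfold Chebyshev.psi
    rw [Nat.floor_natCast]
    rfl
  have h4 := Chebyshev.psi_le_const_mul_self (Nat.cast_nonneg (α := ℝ) U)
  have h5 : Real.log 4 ≤ 2 := by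
    have h6 : Real.log 4 = 2 * Real.log 2 := by
      rw [show (4 : ℝ) = 2 ^ 2 by norm_num, Real.log_pow]
      push_cast
      ring
    rw [h6]
    have := Real.log_two_lt_d9
    linarith
  have h6 : (Real.log 4 + 4) * (U : ℝ) ≤ 6 * U :=
    mul_le_mul_of_nonneg_right (by linarith) (Nat.cast_nonneg U)
  linarith

theorem u2_log_div (N d : ℕ) : Real.log ((N / d : ℕ) : ℝ) ≤ Real.log N := by
  rcases Nat.eq_zero_or_pos (N / d) with h | h
  · rw [h]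
    simp only [Nat.cast_zero, Real.log_zero]
    exact Real.log_natCast_nonneg N
  · refine Real.log_le_log (by exact_mod_cast h) ?_
    exact_mod_cast Nat.div_le_self N d

/-- Proof: `vaughan_id`. First term `≤ ψ(U) ≤ (log 4 + 4) U ≤ 6U` (`Chebyshev.psi_le_const_mul_self`);
second: `abel_log` gives `2 log N G(d)` for `d ≤ V ≤ UV`; third: `abs_cUV_le`, `log m ≤ log N`
when the inner sum is nonempty. Note `0 ≤ G d` (take `t = 0`). If `V > N`/`U V > N` the extra terms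
are empty sums. -/
theorem vaughan_bound (U V N : ℕ) (hU : 1 ≤ U) (φ : ℕ → ℂ) (hφ : ∀ n, ‖φ n‖ ≤ 1) (G : ℕ → ℝ)
    (hG : ∀ d ∈ Icc 1 (U * V), ∀ t ≤ N / d, ‖∑ k ∈ Icc 1 t, φ (d * k)‖ ≤ G d) :
    ‖∑ n ∈ Icc 1 N, (vm n : ℂ) * φ n‖ ≤ 6 * U + 3 * Real.log N * ∑ d ∈ Icc 1 (U * V), G d +
      ‖∑ m ∈ Ioc V N, ∑ k ∈ Ioc U (N / m), (aV V m : ℂ) * (vm k : ℂ) * φ (m * k)‖ := by
  have hG0 : ∀ d ∈ Icc 1 (U * V), 0 ≤ G d := by
    intro d hd
    have h := hG d hd 0 (Nat.zero_le _)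
    simpa using h
  have hlog : 0 ≤ Real.log (N : ℝ) := Real.log_natCast_nonneg N
  rw [vaughan_id U V N φ]
  set T1 := ∑ n ∈ Icc 1 (min U N), (vm n : ℂ) * φ n with hT1
  set T2 := ∑ d ∈ Icc 1 V, (mu d : ℂ) * ∑ k ∈ Icc 1 (N / d), ((Real.log k : ℝ) : ℂ) * φ (d * k)
    with hT2
  set T3 := ∑ m ∈ Icc 1 (U * V), (cUV U V m : ℂ) * ∑ k ∈ Icc 1 (N / m), φ (m * k) with hT3
  set T4 := ∑ m ∈ Ioc V N, ∑ k ∈ Ioc U (N / m), (aV V m : ℂ) * (vm k : ℂ) * φ (m * k) with hT4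
  have b1 : ‖T1‖ ≤ 6 * U := u2_first U N φ hφ
  have b2 : ‖T2‖ ≤ 2 * Real.log N * ∑ d ∈ Icc 1 (U * V), G d := by
    have hsub : Icc 1 V ⊆ Icc 1 (U * V) :=
      Finset.Icc_subset_Icc le_rfl (Nat.le_mul_of_pos_left V hU)
    calc ‖T2‖ ≤ ∑ d ∈ Icc 1 V, 2 * Real.log N * G d := by
          refine (norm_sum_le _ _).trans (Finset.sum_le_sum fun d hd => ?_)
          have hd' := hsub hd
          rw [norm_mul, Complex.norm_real]
          have h1 : ‖mu d‖ ≤ 1 := u2_abs_mu d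
          have h2 := abel_log (fun k => φ (d * k)) (N / d) (G d) (hG d hd')
          have h3 : 2 * Real.log ((N / d : ℕ) : ℝ) * G d ≤ 2 * Real.log N * G d :=
            mul_le_mul_of_nonneg_right (by linarith [u2_log_div N d]) (hG0 d hd')
          calc ‖mu d‖ * ‖∑ k ∈ Icc 1 (N / d), ((Real.log k : ℝ) : ℂ) * φ (d * k)‖
              ≤ 1 * ‖∑ k ∈ Icc 1 (N / d), ((Real.log k : ℝ) : ℂ) * φ (d * k)‖ :=
                mul_le_mul_of_nonneg_right h1 (norm_nonneg _)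
            _ = ‖∑ k ∈ Icc 1 (N / d), ((Real.log k : ℝ) : ℂ) * φ (d * k)‖ := one_mul _
            _ ≤ 2 * Real.log ((N / d : ℕ) : ℝ) * G d := h2
            _ ≤ 2 * Real.log N * G d := h3
      _ ≤ ∑ d ∈ Icc 1 (U * V), 2 * Real.log N * G d :=
          Finset.sum_le_sum_of_subset_of_nonneg hsub fun d hd _ =>
            mul_nonneg (by linarith) (hG0 d hd)
      _ = 2 * Real.log N * ∑ d ∈ Icc 1 (U * V), G d := by rw [Finset.mul_sum]
  have b3 : ‖T3‖ ≤ Real.log N * ∑ d ∈ Icc 1 (U * V), G d := by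
    rw [Finset.mul_sum]
    refine (norm_sum_le _ _).trans (Finset.sum_le_sum fun m hm => ?_)
    rw [norm_mul, Complex.norm_real]
    rcases Nat.lt_or_ge N m with hmN | hmN
    · have h1 : N / m = 0 := Nat.div_eq_of_lt hmN
      rw [h1]
      simp only [show Icc 1 0 = (∅ : Finset ℕ) from rfl, Finset.sum_empty, norm_zero, mul_zero]
      exact mul_nonneg hlog (hG0 m hm)
    · have hm1 : 1 ≤ m := (Finset.mem_Icc.1 hm).1
      have h1 : ‖cUV U V m‖ ≤ Real.log N :=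
        (abs_cUV_le U V m).trans (Real.log_le_log (by exact_mod_cast hm1) (by exact_mod_cast hmN))
      exact mul_le_mul h1 (hG m hm (N / m) le_rfl) (norm_nonneg _) hlog
  have h1 : ‖T1 + T2 - T3 + T4‖ ≤ ‖T1‖ + ‖T2‖ + ‖T3‖ + ‖T4‖ := by
    calc ‖T1 + T2 - T3 + T4‖ ≤ ‖T1 + T2 - T3‖ + ‖T4‖ := norm_add_le _ _
      _ ≤ ‖T1 + T2‖ + ‖T3‖ + ‖T4‖ := by gcongr; exact norm_sub_le _ _
      _ ≤ ‖T1‖ + ‖T2‖ + ‖T3‖ + ‖T4‖ := by gcongr; exact norm_add_le _ _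
  linarith

end Pool.Agent.Lib.MP_d9bc60_nt.UV
end

section
/-! Row U3 (about 120 lines): dyadic splitting and Cauchy-Schwarz for the type II term. -/

set_option autoImplicit false

namespace Pool.Agent.Lib.MP_d9bc60_nt.UV

open Finset

/-- A dyadic piece of a bilinear form. -/
noncomputable def TII (a b φ : ℕ → ℂ) (M K N : ℕ) : ℂ :=
  ∑ m ∈ Ioc M (2 * M), ∑ k ∈ (Ioc K (2 * K)).filter (fun k => m * k ≤ N), a m * b k * φ (m * k)

/-- The correlation sum belonging to a dyadic piece. -/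
noncomputable def PS (φ : ℕ → ℂ) (M K N : ℕ) : ℝ :=
  ∑ k ∈ Ioc K (2 * K), ∑ k' ∈ Ioc K (2 * K),
    ‖∑ m ∈ (Ioc M (2 * M)).filter (fun m => m * k ≤ N ∧ m * k' ≤ N),
      φ (m * k) * (starRingEnd ℂ) (φ (m * k'))‖

theorem u3dyadic_sum (f : ℕ → ℂ) (V J : ℕ) :
    ∑ j ∈ range J, ∑ m ∈ Ioc (2 ^ j * V) (2 * (2 ^ j * V)), f m = ∑ m ∈ Ioc V (2 ^ J * V), f m := by
  induction J with
  | zero => simp
  | succ J ih =>
    rw [Finset.sum_range_succ, ih]
    have h1 : V ≤ 2 ^ J * V := Nat.le_mul_of_pos_left V (by positivity)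
    have h2 : 2 * (2 ^ J * V) = 2 ^ (J + 1) * V := by ring
    have h3 : 2 ^ J * V ≤ 2 ^ (J + 1) * V := by rw [← h2]; omega
    rw [h2, Finset.sum_Ioc_consecutive f h1 h3]

/-- Proof: `Ioc V N` and `Ioc U (N/m)` are split by the intervals `(2^j V, 2^(j+1) V]`,
`(2^i U, 2^(i+1) U]`, `i, j < J`: every `m ∈ (V, N]` lies in exactly one of them as
`N < 2^J ≤ 2^J V`; pairs with `m > N` do not contribute as `m k ≤ N` fails. -/
theorem dyadic_split (a b φ : ℕ → ℂ) (U V N J : ℕ) (hU : 1 ≤ U) (hV : 1 ≤ V) (hJ : N < 2 ^ J) :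
    ∑ m ∈ Ioc V N, ∑ k ∈ Ioc U (N / m), a m * b k * φ (m * k) =
      ∑ j ∈ range J, ∑ i ∈ range J, TII a b φ (2 ^ j * V) (2 ^ i * U) N := by
  have hNV : N < 2 ^ J * V := lt_of_lt_of_le hJ (Nat.le_mul_of_pos_right _ hV)
  have hNU : N < 2 ^ J * U := lt_of_lt_of_le hJ (Nat.le_mul_of_pos_right _ hU)
  have h1 : ∑ j ∈ range J, ∑ i ∈ range J, TII a b φ (2 ^ j * V) (2 ^ i * U) N
      = ∑ m ∈ Ioc V (2 ^ J * V), ∑ k ∈ Ioc U (2 ^ J * U),
          if m * k ≤ N then a m * b k * φ (m * k) else 0 := by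
    rw [← u3dyadic_sum]
    refine Finset.sum_congr rfl fun j _ => ?_
    unfold TII
    rw [Finset.sum_comm]
    refine Finset.sum_congr rfl fun m _ => ?_
    rw [← u3dyadic_sum]
    refine Finset.sum_congr rfl fun i _ => ?_
    rw [Finset.sum_filter]
  rw [h1]
  have h2 : ∀ m ∈ Ioc V (2 ^ J * V), m ∉ Ioc V N →
      ∑ k ∈ Ioc U (2 ^ J * U), (if m * k ≤ N then a m * b k * φ (m * k) else 0) = 0 := by
    intro m hm hm'
    rw [Finset.mem_Ioc] at hm hm'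
    have hmN : N < m := by omega
    refine Finset.sum_eq_zero fun k hk => ?_
    rw [Finset.mem_Ioc] at hk
    have hk1 : 1 ≤ k := by omega
    rw [if_neg]
    have : m ≤ m * k := Nat.le_mul_of_pos_right m hk1
    omega
  have hsub : Ioc V N ⊆ Ioc V (2 ^ J * V) := Finset.Ioc_subset_Ioc_right hNV.le
  rw [← Finset.sum_subset hsub h2]
  refine Finset.sum_congr rfl fun m hm => ?_
  rw [Finset.mem_Ioc] at hm
  have hm0 : 0 < m := by omega
  rw [← Finset.sum_filter]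
  refine Finset.sum_congr ?_ fun _ _ => rfl
  ext k
  simp only [Finset.mem_filter, Finset.mem_Ioc]
  constructor
  · rintro ⟨h3, h4⟩
    have h5 : k ≤ N := h4.trans (Nat.div_le_self N m)
    refine ⟨⟨h3, by omega⟩, ?_⟩
    rw [mul_comm]
    exact (Nat.le_div_iff_mul_le hm0).mp h4
  · rintro ⟨⟨h3, _⟩, h5⟩
    refine ⟨h3, ?_⟩
    rw [Nat.le_div_iff_mul_le hm0, mul_comm]
    exact h5

theorem u3dyadic_square (b φ : ℕ → ℂ) (M K N : ℕ) (B : ℝ) (hb : ∀ k ∈ Ioc K (2 * K), ‖b k‖ ≤ B) :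
    ∑ m ∈ Ioc M (2 * M), ‖∑ k ∈ Ioc K (2 * K), (if m * k ≤ N then b k * φ (m * k) else 0)‖ ^ 2
      ≤ B ^ 2 * PS φ M K N := by
  have h1 : ((∑ m ∈ Ioc M (2 * M), ‖∑ k ∈ Ioc K (2 * K),
      (if m * k ≤ N then b k * φ (m * k) else 0)‖ ^ 2 : ℝ) : ℂ)
      = ∑ k ∈ Ioc K (2 * K), ∑ k' ∈ Ioc K (2 * K), b k * (starRingEnd ℂ) (b k') *
        ∑ m ∈ (Ioc M (2 * M)).filter (fun m => m * k ≤ N ∧ m * k' ≤ N),
          φ (m * k) * (starRingEnd ℂ) (φ (m * k')) := by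
    rw [Complex.ofReal_sum]
    have h2 : ∀ m ∈ Ioc M (2 * M), (((‖∑ k ∈ Ioc K (2 * K),
        (if m * k ≤ N then b k * φ (m * k) else 0)‖ ^ 2 : ℝ)) : ℂ)
        = ∑ k ∈ Ioc K (2 * K), ∑ k' ∈ Ioc K (2 * K), if m * k ≤ N ∧ m * k' ≤ N then
          b k * (starRingEnd ℂ) (b k') * (φ (m * k) * (starRingEnd ℂ) (φ (m * k'))) else 0 := by
      intro m _
      rw [← Complex.normSq_eq_norm_sq, ← Complex.mul_conj, map_sum, Finset.sum_mul_sum]
      refine Finset.sum_congr rfl fun k _ => Finset.sum_congr rfl fun k' _ => ?_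
      by_cases h3 : m * k ≤ N
      · by_cases h4 : m * k' ≤ N
        · rw [if_pos h3, if_pos h4, if_pos ⟨h3, h4⟩, map_mul]
          ring
        · have h5 : ¬ (m * k ≤ N ∧ m * k' ≤ N) := fun h => h4 h.2
          rw [if_neg h5, if_neg h4, map_zero, mul_zero]
      · have h5 : ¬ (m * k ≤ N ∧ m * k' ≤ N) := fun h => h3 h.1
        rw [if_neg h5, if_neg h3, zero_mul]
    rw [Finset.sum_congr rfl h2, Finset.sum_comm]
    refine Finset.sum_congr rfl fun k _ => ?_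
    rw [Finset.sum_comm]
    refine Finset.sum_congr rfl fun k' _ => ?_
    rw [← Finset.sum_filter, Finset.mul_sum]
  have h5 : 0 ≤ ∑ m ∈ Ioc M (2 * M), ‖∑ k ∈ Ioc K (2 * K),
      (if m * k ≤ N then b k * φ (m * k) else 0)‖ ^ 2 := by positivity
  have h6 : ∑ m ∈ Ioc M (2 * M), ‖∑ k ∈ Ioc K (2 * K),
      (if m * k ≤ N then b k * φ (m * k) else 0)‖ ^ 2
      = ‖((∑ m ∈ Ioc M (2 * M), ‖∑ k ∈ Ioc K (2 * K),
      (if m * k ≤ N then b k * φ (m * k) else 0)‖ ^ 2 : ℝ) : ℂ)‖ := by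
    rw [Complex.norm_real, Real.norm_eq_abs, abs_of_nonneg h5]
  rw [h6, h1]
  unfold PS
  rw [Finset.mul_sum]
  refine (norm_sum_le _ _).trans (Finset.sum_le_sum fun k hk => ?_)
  rw [Finset.mul_sum]
  refine (norm_sum_le _ _).trans (Finset.sum_le_sum fun k' hk' => ?_)
  rw [norm_mul, norm_mul, RCLike.norm_conj, sq]
  have h7 := hb k hk
  have h8 := hb k' hk'
  have hB : 0 ≤ B := (norm_nonneg _).trans h7
  gcongr

/-- Proof: `‖TII‖² ≤ ∑‖a m‖² · ∑_m ‖∑_k b k φ(mk)‖²` (Cauchy-Schwarz), open the square, exchange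
the sums. -/
theorem TII_sq_le (a b φ : ℕ → ℂ) (M K N : ℕ) (B : ℝ) (hb : ∀ k ∈ Ioc K (2 * K), ‖b k‖ ≤ B) :
    ‖TII a b φ M K N‖ ^ 2 ≤ (∑ m ∈ Ioc M (2 * M), ‖a m‖ ^ 2) * B ^ 2 * PS φ M K N := by
  have h1 : TII a b φ M K N = ∑ m ∈ Ioc M (2 * M), a m * ∑ k ∈ Ioc K (2 * K),
      (if m * k ≤ N then b k * φ (m * k) else 0) := by
    unfold TII
    refine Finset.sum_congr rfl fun m _ => ?_
    rw [Finset.sum_filter, Finset.mul_sum]
    refine Finset.sum_congr rfl fun k _ => ?_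
    split_ifs
    · ring
    · rw [mul_zero]
  rw [h1]
  have h2 : ‖∑ m ∈ Ioc M (2 * M), a m * ∑ k ∈ Ioc K (2 * K),
      (if m * k ≤ N then b k * φ (m * k) else 0)‖ ≤ ∑ m ∈ Ioc M (2 * M), ‖a m‖ * ‖∑ k ∈ Ioc K (2 * K),
      (if m * k ≤ N then b k * φ (m * k) else 0)‖ := by
    refine (norm_sum_le _ _).trans (Finset.sum_le_sum fun m _ => ?_)
    rw [norm_mul]
  have h3 := Finset.sum_mul_sq_le_sq_mul_sq (Ioc M (2 * M)) (fun m => ‖a m‖)
    (fun m => ‖∑ k ∈ Ioc K (2 * K), (if m * k ≤ N then b k * φ (m * k) else 0)‖)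
  have h4 := u3dyadic_square b φ M K N B hb
  calc ‖∑ m ∈ Ioc M (2 * M), a m * ∑ k ∈ Ioc K (2 * K),
      (if m * k ≤ N then b k * φ (m * k) else 0)‖ ^ 2
      ≤ (∑ m ∈ Ioc M (2 * M), ‖a m‖ * ‖∑ k ∈ Ioc K (2 * K),
      (if m * k ≤ N then b k * φ (m * k) else 0)‖) ^ 2 := by gcongr
    _ ≤ (∑ m ∈ Ioc M (2 * M), ‖a m‖ ^ 2) * ∑ m ∈ Ioc M (2 * M), ‖∑ k ∈ Ioc K (2 * K),
      (if m * k ≤ N then b k * φ (m * k) else 0)‖ ^ 2 := h3
    _ ≤ (∑ m ∈ Ioc M (2 * M), ‖a m‖ ^ 2) * (B ^ 2 * PS φ M K N) := by gcongr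
    _ = _ := by ring

end Pool.Agent.Lib.MP_d9bc60_nt.UV
end

section
/-! Row U4 (about 150 lines): if `∑ Λ(n) φ(n)` is large then a type I or a type II sum is large. -/

set_option autoImplicit false

namespace Pool.Agent.Lib.MP_d9bc60_nt.UV

open Finset

theorem u4_harm (n : ℕ) : ∑ d ∈ Icc 1 n, ((d : ℝ))⁻¹ ≤ 1 + Real.log n := by
  have h1 := harmonic_le_one_add_log n
  rw [harmonic_eq_sum_Icc] at h1
  push_cast at h1
  exact h1

theorem u4_ev (A : ℕ) : ∃ N₀ : ℕ, ∀ N : ℕ, N₀ ≤ N → 17 ≤ Real.log N ∧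
    24 * Real.log N ^ A ≤ (N : ℝ) ^ (3 / 4 : ℝ) := by
  have h1 : ∀ᶠ x : ℝ in Filter.atTop, 17 ≤ Real.log x :=
    Real.tendsto_log_atTop.eventually_ge_atTop 17
  have h2 := (isLittleO_log_rpow_rpow_atTop (A : ℝ) (by norm_num : (0 : ℝ) < 3 / 4)).bound
    (by norm_num : (0 : ℝ) < 1 / 24)
  have h3 : ∀ᶠ x : ℝ in Filter.atTop, 17 ≤ Real.log x ∧ 24 * Real.log x ^ A ≤ x ^ (3 / 4 : ℝ) := by
    filter_upwards [h1, h2, Filter.eventually_gt_atTop 0] with x h4 h5 h6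
    refine ⟨h4, ?_⟩
    rw [Real.rpow_natCast, Real.norm_of_nonneg (by positivity),
      Real.norm_of_nonneg (by positivity)] at h5
    linarith
  exact Filter.eventually_atTop.1 (tendsto_natCast_atTop_atTop.eventually h3)

theorem u4_TII_zero (a b φ : ℕ → ℂ) (M K N : ℕ) (h : N < M * K) : TII a b φ M K N = 0 := by
  refine Finset.sum_eq_zero fun m hm => ?_
  rw [Finset.filter_false_of_mem, Finset.sum_empty]
  intro k hk
  rw [Finset.mem_Ioc] at hm hk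
  have := Nat.mul_le_mul hm.1.le hk.1.le
  omega

/-- Proof: write `L = log N` (large). Suppose the first alternative fails; then
`G(d) = N/(d L^(A+4))` is admissible in `vaughan_bound` with `U = V`, and
`6V + 3L ∑_{d ≤ V²} G(d) ≤ 6 N^(1/4) + 3 L · N/L^(A+4) · (1 + log V²) ≤ N/(2 L^A)`. So the type II
term is `≥ N/(2L^A)`. Take `J` with `N < 2^J ≤ 2N`, so `J ≤ 3L`; by `dyadic_split` some
`‖TII‖ ≥ N/(18 L^(A+2))` with `M = 2^j V`, `K = 2^i V`; if `M K > N` then `TII = 0`, so `M K ≤ N`.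
`TII_sq_le` with `∑ ‖aV m‖² ≤ ∑_{m ≤ 2M} τ(m)² ≤ 2M (1 + log 2M)^3 ≤ 2M (3L)^3` and `B = 2L`
(`Λ(k) ≤ log k`) gives `PS ≥ N²/(M L^(2A+13))`. -/
theorem dicho (A : ℕ) : ∃ N₀ : ℕ, ∀ N : ℕ, N₀ ≤ N → ∀ V : ℕ, 1 ≤ V → (V : ℝ) ≤ (N : ℝ) ^ (1 / 4 : ℝ) →
    ∀ φ : ℕ → ℂ, (∀ n, ‖φ n‖ ≤ 1) →
    (N : ℝ) / Real.log N ^ A ≤ ‖∑ n ∈ Icc 1 N, (vm n : ℂ) * φ n‖ →
    (∃ d ∈ Icc 1 (V * V), ∃ t ≤ N / d,
      (N : ℝ) / (d * Real.log N ^ (A + 4)) ≤ ‖∑ k ∈ Icc 1 t, φ (d * k)‖) ∨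
    (∃ M K : ℕ, V ≤ M ∧ V ≤ K ∧ M * K ≤ N ∧
      (N : ℝ) ^ 2 / (M * Real.log N ^ (2 * A + 13)) ≤ PS φ M K N) := by
  obtain ⟨N₀, hN₀⟩ := u4_ev A
  refine ⟨N₀, fun N hN V hV hVN φ hφ hbig => ?_⟩
  obtain ⟨hL17, hev⟩ := hN₀ N hN
  by_cases hfirst : ∃ d ∈ Icc 1 (V * V), ∃ t ≤ N / d,
      (N : ℝ) / (d * Real.log N ^ (A + 4)) ≤ ‖∑ k ∈ Icc 1 t, φ (d * k)‖
  · exact Or.inl hfirst
  right
  push Not at hfirst
  set L : ℝ := Real.log N with hLdef
  have hL0 : 0 < L := by linarith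
  have hNpos : 0 < N := by
    rcases Nat.eq_zero_or_pos N with h | h
    · rw [h] at hLdef
      simp at hLdef
      linarith
    · exact h
  have hNR : (0 : ℝ) < N := by exact_mod_cast hNpos
  set X : ℝ := (N : ℝ) / L ^ A with hX
  have hXpos : 0 < X := by positivity
  -- the type I part
  have hvb := vaughan_bound V V N hV φ hφ (fun d => (N : ℝ) / (d * L ^ (A + 4)))
    (fun d hd t ht => (hfirst d hd t ht).le)
  have hlogV : Real.log ((V * V : ℕ) : ℝ) ≤ L / 2 := by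
    have hVR : (0 : ℝ) < V := by exact_mod_cast hV
    have h1 : Real.log V ≤ L / 4 := by
      have h2 := Real.log_le_log hVR hVN
      rw [Real.log_rpow hNR] at h2
      linarith
    push_cast
    rw [Real.log_mul hVR.ne' hVR.ne']
    linarith
  have hsumG : ∑ d ∈ Icc 1 (V * V), (N : ℝ) / (d * L ^ (A + 4)) ≤ N / L ^ (A + 4) * L := by
    have h1 : ∀ d ∈ Icc 1 (V * V), (N : ℝ) / (d * L ^ (A + 4)) = N / L ^ (A + 4) * (d : ℝ)⁻¹ := by
      intro d hd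
      have hd0 : (0 : ℝ) < d := by exact_mod_cast (Finset.mem_Icc.1 hd).1
      field_simp
    rw [Finset.sum_congr rfl h1, ← Finset.mul_sum]
    refine mul_le_mul_of_nonneg_left ?_ (by positivity)
    have h2 := u4_harm (V * V)
    linarith
  have hpart1 : 3 * L * ∑ d ∈ Icc 1 (V * V), (N : ℝ) / (d * L ^ (A + 4)) ≤ X / 4 := by
    have h1 : 3 * L * (N / L ^ (A + 4) * L) = X * (3 / L ^ 2) := by
      rw [hX, pow_add]
      field_simp
      try ring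
    have h2 : (3 : ℝ) / L ^ 2 ≤ 1 / 4 := by
      rw [div_le_div_iff₀ (by positivity) (by norm_num)]
      nlinarith
    calc 3 * L * ∑ d ∈ Icc 1 (V * V), (N : ℝ) / (d * L ^ (A + 4))
        ≤ 3 * L * (N / L ^ (A + 4) * L) := mul_le_mul_of_nonneg_left hsumG (by positivity)
      _ = X * (3 / L ^ 2) := h1
      _ ≤ X * (1 / 4) := mul_le_mul_of_nonneg_left h2 hXpos.le
      _ = X / 4 := by ring
  have hpart2 : 6 * (V : ℝ) ≤ X / 4 := by
    have h1 : (N : ℝ) ^ (1 / 4 : ℝ) * (N : ℝ) ^ (3 / 4 : ℝ) = N := by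
      rw [← Real.rpow_add hNR]
      norm_num
    have h2 : (N : ℝ) ^ (1 / 4 : ℝ) * (24 * L ^ A) ≤ N := by
      calc (N : ℝ) ^ (1 / 4 : ℝ) * (24 * L ^ A) ≤ (N : ℝ) ^ (1 / 4 : ℝ) * (N : ℝ) ^ (3 / 4 : ℝ) :=
            mul_le_mul_of_nonneg_left hev (by positivity)
        _ = N := h1
    have h3 : (V : ℝ) * (24 * L ^ A) ≤ N :=
      (mul_le_mul_of_nonneg_right hVN (by positivity)).trans h2
    have h4 : 24 * (V : ℝ) ≤ X := by
      rw [hX, le_div_iff₀ (by positivity)]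
      linarith
    linarith
  set T : ℂ := ∑ m ∈ Ioc V N, ∑ k ∈ Ioc V (N / m), (aV V m : ℂ) * (vm k : ℂ) * φ (m * k) with hT
  have hTbig : X / 2 ≤ ‖T‖ := by linarith
  -- dyadic splitting
  set J : ℕ := Nat.log 2 N + 1 with hJ
  have hNJ : N < 2 ^ J := Nat.lt_pow_succ_log_self (by norm_num) N
  have hJL : (J : ℝ) ≤ 3 * L := by
    have h1 : 2 ^ Nat.log 2 N ≤ N := Nat.pow_log_le_self 2 hNpos.ne'
    have h2 : ((2 : ℝ)) ^ Nat.log 2 N ≤ N := by exact_mod_cast h1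
    have h3 := Real.log_le_log (by positivity) h2
    rw [Real.log_pow] at h3
    have h4 := Real.log_two_gt_d9
    have h5 : (Nat.log 2 N : ℝ) * 0.6931471803 ≤ (Nat.log 2 N : ℝ) * Real.log 2 :=
      mul_le_mul_of_nonneg_left h4.le (Nat.cast_nonneg _)
    have h6 : (J : ℝ) = (Nat.log 2 N : ℝ) + 1 := by rw [hJ]; push_cast; ring
    rw [h6]
    have h7 : (0 : ℝ) ≤ Nat.log 2 N := Nat.cast_nonneg _
    linarith
  have hsplit := dyadic_split (fun m => (aV V m : ℂ)) (fun k => (vm k : ℂ)) φ V V N J hV hV hNJ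
  have hTsum : ‖T‖ ≤ ∑ p ∈ range J ×ˢ range J,
      ‖TII (fun m => (aV V m : ℂ)) (fun k => (vm k : ℂ)) φ (2 ^ p.1 * V) (2 ^ p.2 * V) N‖ := by
    rw [hT, hsplit, Finset.sum_product]
    refine (norm_sum_le _ _).trans (Finset.sum_le_sum fun j _ => ?_)
    exact norm_sum_le _ _
  set Y : ℝ := X / (18 * L ^ 2) with hY
  have hYpos : 0 < Y := by positivity
  have hex : ∃ p ∈ range J ×ˢ range J, Y ≤
      ‖TII (fun m => (aV V m : ℂ)) (fun k => (vm k : ℂ)) φ (2 ^ p.1 * V) (2 ^ p.2 * V) N‖ := by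
    apply Finset.exists_le_of_sum_le (f := fun _ => Y)
    · exact ⟨(0, 0), by simp [hJ]⟩
    · rw [Finset.sum_const, Finset.card_product, Finset.card_range, nsmul_eq_mul]
      push_cast
      have h1 : (J : ℝ) * J ≤ (3 * L) * (3 * L) :=
        mul_le_mul hJL hJL (Nat.cast_nonneg _) (by positivity)
      have h2 : (3 * L) * (3 * L) * Y = X / 2 := by
        rw [hY]
        field_simp
        norm_num
      calc (J : ℝ) * J * Y ≤ (3 * L) * (3 * L) * Y := mul_le_mul_of_nonneg_right h1 hYpos.le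
        _ = X / 2 := h2
        _ ≤ ‖T‖ := hTbig
        _ ≤ _ := hTsum
  obtain ⟨⟨j, i⟩, _, hYle⟩ := hex
  simp only at hYle
  set M : ℕ := 2 ^ j * V with hM
  set K : ℕ := 2 ^ i * V with hK
  have hVM : V ≤ M := Nat.le_mul_of_pos_left V (by positivity)
  have hVK : V ≤ K := Nat.le_mul_of_pos_left V (by positivity)
  have hMK : M * K ≤ N := by
    by_contra hcon
    rw [u4_TII_zero _ _ _ _ _ _ (not_le.1 hcon), norm_zero] at hYle
    linarith
  refine ⟨M, K, hVM, hVK, hMK, ?_⟩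
  have hM1 : 1 ≤ M := hV.trans hVM
  have hK1 : 1 ≤ K := hV.trans hVK
  have hMN : M ≤ N := (Nat.le_mul_of_pos_right M hK1).trans hMK
  have hKN : K ≤ N := (Nat.le_mul_of_pos_left K hM1).trans hMK
  have hlog2 : Real.log 2 < 1 := by
    have := Real.log_two_lt_d9
    linarith
  have hlog2N : ∀ Q : ℕ, 1 ≤ Q → Q ≤ 2 * N → Real.log Q ≤ 1 + L := by
    intro Q hQ1 hQ
    have h1 : (Q : ℝ) ≤ 2 * N := by exact_mod_cast hQ
    have h2 := Real.log_le_log (by exact_mod_cast hQ1) h1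
    rw [Real.log_mul (by norm_num) hNR.ne'] at h2
    linarith
  have hb : ∀ k ∈ Ioc K (2 * K), ‖(vm k : ℂ)‖ ≤ 2 * L := by
    intro k hk
    rw [Finset.mem_Ioc] at hk
    have h0 : 0 ≤ vm k := ArithmeticFunction.vonMangoldt_nonneg
    rw [Complex.norm_real, Real.norm_of_nonneg h0]
    have h1 : vm k ≤ Real.log k := ArithmeticFunction.vonMangoldt_le_log
    have h2 := hlog2N k (by omega) (by omega)
    linarith
  have hsq := TII_sq_le (fun m => (aV V m : ℂ)) (fun k => (vm k : ℂ)) φ M K N (2 * L) hb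
  have hPS0 : 0 ≤ PS φ M K N :=
    Finset.sum_nonneg fun _ _ => Finset.sum_nonneg fun _ _ => norm_nonneg _
  have hSa : ∑ m ∈ Ioc M (2 * M), ‖(aV V m : ℂ)‖ ^ 2 ≤ 54 * M * L ^ 3 := by
    have h1 : ∑ m ∈ Ioc M (2 * M), ‖(aV V m : ℂ)‖ ^ 2 ≤
        ∑ n ∈ Icc 1 (2 * M), (n.divisors.card : ℝ) ^ 2 := by
      refine le_trans (Finset.sum_le_sum (g := fun n : ℕ => (n.divisors.card : ℝ) ^ 2)
        fun m _ => ?_) ?_
      · rw [Complex.norm_real, Real.norm_eq_abs]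
        exact pow_le_pow_left₀ (abs_nonneg _) (abs_aV_le V m) 2
      · refine Finset.sum_le_sum_of_subset_of_nonneg ?_ (fun _ _ _ => by positivity)
        intro m hm
        rw [Finset.mem_Ioc] at hm
        rw [Finset.mem_Icc]
        omega
    have h2 := sum_tau_sq_le (2 * M)
    have h3 := hlog2N (2 * M) (by omega) (by omega)
    have h4 : (1 + Real.log ((2 * M : ℕ) : ℝ)) ^ 3 ≤ (3 * L) ^ 3 := by
      refine pow_le_pow_left₀ ?_ (by linarith) 3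
      have := Real.log_natCast_nonneg (2 * M)
      linarith
    calc ∑ m ∈ Ioc M (2 * M), ‖(aV V m : ℂ)‖ ^ 2 ≤
        ((2 * M : ℕ) : ℝ) * (1 + Real.log ((2 * M : ℕ) : ℝ)) ^ 3 := h1.trans h2
      _ ≤ ((2 * M : ℕ) : ℝ) * (3 * L) ^ 3 := mul_le_mul_of_nonneg_left h4 (Nat.cast_nonneg _)
      _ = 54 * M * L ^ 3 := by push_cast; ring
  have hMR : (0 : ℝ) < M := by exact_mod_cast hM1
  have hmain : Y ^ 2 ≤ 216 * M * L ^ 5 * PS φ M K N := by
    calc Y ^ 2 ≤ ‖TII (fun m => (aV V m : ℂ)) (fun k => (vm k : ℂ)) φ M K N‖ ^ 2 :=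
          pow_le_pow_left₀ hYpos.le hYle 2
      _ ≤ (∑ m ∈ Ioc M (2 * M), ‖(aV V m : ℂ)‖ ^ 2) * (2 * L) ^ 2 * PS φ M K N := hsq
      _ ≤ (54 * M * L ^ 3) * (2 * L) ^ 2 * PS φ M K N := by
          refine mul_le_mul_of_nonneg_right ?_ hPS0
          exact mul_le_mul_of_nonneg_right hSa (by positivity)
      _ = 216 * M * L ^ 5 * PS φ M K N := by ring
  have hY2 : (N : ℝ) ^ 2 = Y ^ 2 * (324 * L ^ (2 * A + 4)) := by
    rw [hY, hX]
    field_simp
    ring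
  have hL4 : (69984 : ℝ) ≤ L ^ 4 := by
    have h1 : (17 : ℝ) ^ 4 ≤ L ^ 4 := pow_le_pow_left₀ (by norm_num) hL17 4
    have h2 : (69984 : ℝ) ≤ 17 ^ 4 := by norm_num
    linarith
  rw [div_le_iff₀ (by positivity), hY2]
  calc Y ^ 2 * (324 * L ^ (2 * A + 4)) ≤
      216 * M * L ^ 5 * PS φ M K N * (324 * L ^ (2 * A + 4)) :=
        mul_le_mul_of_nonneg_right hmain (by positivity)
    _ = 69984 * (PS φ M K N * (M * L ^ (2 * A + 9))) := by
        have : L ^ (2 * A + 9) = L ^ 5 * L ^ (2 * A + 4) := by rw [← pow_add]; congr 1; omega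
        rw [this]
        ring
    _ ≤ L ^ 4 * (PS φ M K N * (M * L ^ (2 * A + 9))) :=
        mul_le_mul_of_nonneg_right hL4 (by positivity)
    _ = PS φ M K N * (M * L ^ (2 * A + 13)) := by
        have : L ^ (2 * A + 13) = L ^ 4 * L ^ (2 * A + 9) := by rw [← pow_add]; congr 1; omega
        rw [this]
        ring

end Pool.Agent.Lib.MP_d9bc60_nt.UV
end
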