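import Pool.Agent.Lib.MP_d9bc60_nt.UV.PTools

section
/-! Row R0 (about 130 lines): Ramanujan sums. -/

set_option autoImplicit false

namespace Pool.Agent.Lib.MP_d9bc60_nt.UV

open Finset

theorem R0Ram_sum_mu (n : ℕ) : ∑ d ∈ n.divisors, mu d = if n = 1 then 1 else 0 := by
  have h := congrArg (fun f => f n) ArithmeticFunction.moebius_mul_coe_zeta
  simp only [ArithmeticFunction.coe_mul_zeta_apply, ArithmeticFunction.one_apply] at h
  unfold mu
  have h2 : ((∑ d ∈ n.divisors, (ArithmeticFunction.moebius d : ℤ) : ℤ) : ℝ)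
      = (((if n = 1 then 1 else 0 : ℤ)) : ℝ) := by rw [h]
  push_cast at h2
  exact h2

theorem R0Ram_geom (m : ℕ) (hm : 1 ≤ m) (n : ℤ) :
    ∑ j ∈ range m, e ((j : ℝ) * n / m) = if (m : ℤ) ∣ n then (m : ℂ) else 0 := by
  have hm0 : (m : ℝ) ≠ 0 := by positivity
  have h1 : ∀ j : ℕ, e ((j : ℝ) * n / m) = e ((n : ℝ) / m) ^ j := by
    intro j
    rw [← e_mul_nat]
    congr 1
    ring
  simp_rw [h1]
  split_ifs with h
  · obtain ⟨k, rfl⟩ := h
    have : ((((m : ℤ) * k : ℤ) : ℝ)) / m = (k : ℝ) := by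
      push_cast
      field_simp
    rw [this, e_int]
    simp
  · have hne : e ((n : ℝ) / m) ≠ 1 := by
      intro h2
      unfold e at h2
      rw [Complex.exp_eq_one_iff] at h2
      obtain ⟨k, hk⟩ := h2
      apply h
      have h3 : (((2 * Real.pi * ((n : ℝ) / m) : ℝ) : ℂ)) = k * (2 * Real.pi) := by
        have hI : Complex.I ≠ 0 := Complex.I_ne_zero
        apply mul_right_cancel₀ hI
        rw [hk]; ring
      have h4 : (2 * Real.pi * ((n : ℝ) / m) : ℝ) = k * (2 * Real.pi) := by exact_mod_cast h3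
      have h5 : (n : ℝ) / m = k := by
        have := Real.pi_pos
        have h6 : 2 * Real.pi ≠ 0 := by positivity
        apply mul_left_cancel₀ h6
        rw [h4]; ring
      rw [div_eq_iff hm0] at h5
      refine ⟨k, ?_⟩
      have : (n : ℝ) = ((k * m : ℤ) : ℝ) := by push_cast; exact h5
      have := Int.cast_injective this
      rw [this]; ring
    rw [geom_sum_eq hne, ← e_mul_nat, div_mul_cancel₀ _ hm0, e_int, sub_self, zero_div]

/-- Proof. Moebius inversion: `∑_{a < q} e(an/q) = q [q ∣ n]` equals `∑_{d ∣ q}` of the sums over the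
`a` with `gcd(a,q) = q/d`, i.e. `∑_{d ∣ q} ram(d)` with `ram(d) = ∑_{a mod d, (a,d)=1} e(an/d)`; so
`ram(q) = ∑_{d ∣ q} μ(q/d) d [d ∣ n] = cR q n` (`ArithmeticFunction.sum_eq_iff_sum_mul_moebius_eq`). Or
directly: `[gcd(a,q)=1] = ∑_{d ∣ gcd(a,q)} μ(d)`. -/
theorem cR_eq (q : ℕ) (hq : 1 ≤ q) (n : ℤ) :
    (cR q n : ℂ) = ∑ a ∈ (range q).filter (fun a => a.Coprime q), e ((a : ℝ) * n / q) := by
  have hq0 : q ≠ 0 := by omega
  -- rewrite the right side
  have h1 : ∑ a ∈ (range q).filter (fun a => a.Coprime q), e ((a : ℝ) * n / q)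
      = ∑ a ∈ range q, ∑ d ∈ q.divisors, (if d ∣ a then ((mu d : ℝ) : ℂ) else 0) *
        e ((a : ℝ) * n / q) := by
    rw [Finset.sum_filter]
    refine Finset.sum_congr rfl fun a _ => ?_
    rw [← Finset.sum_mul]
    have h2 : ∑ d ∈ q.divisors, (if d ∣ a then ((mu d : ℝ) : ℂ) else 0)
        = ((∑ d ∈ (Nat.gcd a q).divisors, mu d : ℝ) : ℂ) := by
      rw [← Finset.sum_filter]
      push_cast
      apply Finset.sum_congr _ fun _ _ => rfl
      ext d
      simp only [Finset.mem_filter, Nat.mem_divisors]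
      constructor
      · rintro ⟨⟨h1, _⟩, h2⟩
        exact ⟨Nat.dvd_gcd h2 h1, (Nat.gcd_pos_of_pos_right _ (by omega)).ne'⟩
      · rintro ⟨h1, _⟩
        exact ⟨⟨h1.trans (Nat.gcd_dvd_right _ _), hq0⟩, h1.trans (Nat.gcd_dvd_left _ _)⟩
    rw [h2, R0Ram_sum_mu _]
    by_cases h3 : a.Coprime q
    · rw [if_pos h3, if_pos h3]; simp
    · rw [if_neg h3, if_neg h3]; simp
  rw [h1, Finset.sum_comm]
  have h3 : ∀ d ∈ q.divisors, ∑ a ∈ range q, (if d ∣ a then ((mu d : ℝ) : ℂ) else 0) *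
      e ((a : ℝ) * n / q) = if ((q / d : ℕ) : ℤ) ∣ n then ((mu d : ℝ) : ℂ) * ((q / d : ℕ) : ℂ)
        else 0 := by
    intro d hd
    have hdq : d ∣ q := (Nat.mem_divisors.1 hd).1
    obtain ⟨m, rfl⟩ := hdq
    have hd0 : 0 < d := Nat.pos_of_ne_zero (by rintro rfl; simp at hq0)
    have hm0 : 0 < m := Nat.pos_of_ne_zero (by rintro rfl; simp at hq0)
    have h4 : ∑ a ∈ range (d * m), (if d ∣ a then ((mu d : ℝ) : ℂ) else 0) *
        e ((a : ℝ) * n / ((d * m : ℕ) : ℝ)) =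
        ∑ j ∈ range m, ((mu d : ℝ) : ℂ) * e ((j : ℝ) * n / m) := by
      have h5 : ∀ a : ℕ, (if d ∣ a then ((mu d : ℝ) : ℂ) else 0) * e ((a : ℝ) * n / ((d * m : ℕ) : ℝ))
          = if d ∣ a then ((mu d : ℝ) : ℂ) * e ((a : ℝ) * n / ((d * m : ℕ) : ℝ)) else 0 := by
        intro a; split_ifs <;> simp
      simp_rw [h5]
      rw [← Finset.sum_filter]
      symm
      apply Finset.sum_bij (fun j _ => d * j)
      · intro j hj
        simp only [Finset.mem_filter, Finset.mem_range] at hj ⊢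
        exact ⟨Nat.mul_lt_mul_of_pos_left hj hd0, dvd_mul_right _ _⟩
      · intro j _ j' _ h
        exact Nat.eq_of_mul_eq_mul_left hd0 h
      · intro a ha
        simp only [Finset.mem_filter, Finset.mem_range] at ha
        obtain ⟨ha1, j, rfl⟩ := ha
        exact ⟨j, Finset.mem_range.2 (Nat.lt_of_mul_lt_mul_left ha1), rfl⟩
      · intro j _
        congr 2
        have : (d : ℝ) ≠ 0 := by positivity
        have : (m : ℝ) ≠ 0 := by positivity
        push_cast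
        field_simp
    rw [h4, ← Finset.mul_sum, R0Ram_geom m hm0 n, Nat.mul_div_cancel_left m hd0]
    split_ifs <;> simp
  rw [Finset.sum_congr rfl h3]
  -- left side
  unfold cR
  rw [Finset.sum_filter, Complex.ofReal_sum]
  rw [← Nat.sum_div_divisors q (fun d => if (((q / d : ℕ) : ℤ) ∣ n) then
    ((mu d : ℝ) : ℂ) * ((q / d : ℕ) : ℂ) else 0)]
  refine Finset.sum_congr rfl fun d hd => ?_
  have hdq := (Nat.mem_divisors.1 hd).1
  rw [Nat.div_div_self hdq hq0]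
  split_ifs <;> simp

theorem R0Ram_abs_mu_le (n : ℕ) : |mu n| ≤ 1 := by
  unfold mu
  have h : |ArithmeticFunction.moebius n| ≤ 1 := ArithmeticFunction.abs_moebius_le_one
  exact_mod_cast h

theorem abs_cR_le (q : ℕ) (n : ℤ) : |cR q n| ≤ (q : ℝ) ^ 2 := by
  unfold cR
  refine (Finset.abs_sum_le_sum_abs _ _).trans ?_
  have h1 : ∀ d ∈ q.divisors.filter (fun d : ℕ => (d : ℤ) ∣ n), |mu (q / d) * d| ≤ (q : ℝ) := by
    intro d hd
    have hdq := (Nat.mem_divisors.1 (Finset.mem_filter.1 hd).1)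
    rw [abs_mul, Nat.abs_cast]
    have h2 : (d : ℝ) ≤ q := by
      exact_mod_cast Nat.le_of_dvd (Nat.pos_of_ne_zero hdq.2) hdq.1
    calc |mu (q / d)| * (d : ℝ) ≤ 1 * (q : ℝ) :=
          mul_le_mul (R0Ram_abs_mu_le _) h2 (Nat.cast_nonneg _) zero_le_one
      _ = q := one_mul _
  refine (Finset.sum_le_card_nsmul _ _ _ h1).trans ?_
  rw [nsmul_eq_mul, sq]
  apply mul_le_mul_of_nonneg_right _ (Nat.cast_nonneg _)
  have h3 : (q.divisors.filter (fun d : ℕ => (d : ℤ) ∣ n)).card ≤ q :=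
    (Finset.card_filter_le _ _).trans (Nat.card_divisors_le_self q)
  exact_mod_cast h3

theorem cR_periodic (q : ℕ) (n k : ℤ) : cR q (n + q * k) = cR q n := by
  unfold cR
  apply Finset.sum_congr _ fun _ _ => rfl
  apply Finset.filter_congr
  intro d hd
  have hdq : (d : ℤ) ∣ (q : ℤ) := Int.natCast_dvd_natCast.2 (Nat.mem_divisors.1 hd).1
  exact (Int.dvd_add_left (hdq.mul_right k))

/-- the arithmetic function `d ↦ d [d ∣ n]` -/
noncomputable def R0Ram_f (n : ℤ) : ArithmeticFunction ℝ :=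
  ⟨fun d => if (d : ℤ) ∣ n then (d : ℝ) else 0, by simp⟩

theorem R0Ram_f_apply (n : ℤ) (d : ℕ) : R0Ram_f n d = if (d : ℤ) ∣ n then (d : ℝ) else 0 := rfl

theorem R0Ram_f_mult (n : ℤ) : (R0Ram_f n).IsMultiplicative := by
  refine ⟨by simp [R0Ram_f_apply], ?_⟩
  intro a b hab
  simp only [R0Ram_f_apply]
  have h : (((a * b : ℕ) : ℤ) ∣ n) ↔ ((a : ℤ) ∣ n ∧ (b : ℤ) ∣ n) := by
    constructor
    · intro h
      push_cast at h
      exact ⟨(dvd_mul_right _ _).trans h, (dvd_mul_left _ _).trans h⟩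
    · rintro ⟨h1, h2⟩
      push_cast
      exact IsCoprime.mul_dvd (Nat.isCoprime_iff_coprime.2 hab) h1 h2
  by_cases ha : (a : ℤ) ∣ n
  · by_cases hb : (b : ℤ) ∣ n
    · rw [if_pos (h.2 ⟨ha, hb⟩), if_pos ha, if_pos hb]; push_cast; rfl
    · rw [if_neg (fun h' => hb (h.1 h').2), if_neg hb, mul_zero]
  · rw [if_neg (fun h' => ha (h.1 h').1), if_neg ha, zero_mul]

theorem R0Ram_cR (q : ℕ) (n : ℤ) :
    cR q n = (((ArithmeticFunction.moebius : ArithmeticFunction ℤ) : ArithmeticFunction ℝ) *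
      R0Ram_f n) q := by
  rw [ArithmeticFunction.mul_apply,
    Nat.sum_divisorsAntidiagonal' (f := fun x y =>
      ((ArithmeticFunction.moebius : ArithmeticFunction ℤ) : ArithmeticFunction ℝ) x *
      R0Ram_f n y)]
  unfold cR
  rw [Finset.sum_filter]
  refine Finset.sum_congr rfl fun d _ => ?_
  rw [R0Ram_f_apply]
  unfold mu
  split_ifs <;> simp

/-- Proof. Divisors of `q₁q₂` are products `d₁d₂`; `μ` is multiplicative on coprime arguments. -/
theorem cR_mul (q₁ q₂ : ℕ) (h : q₁.Coprime q₂) (n : ℤ) : cR (q₁ * q₂) n = cR q₁ n * cR q₂ n := by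
  rw [R0Ram_cR, R0Ram_cR, R0Ram_cR]
  exact (ArithmeticFunction.isMultiplicative_moebius.intCast.mul (R0Ram_f_mult n)).map_mul_of_coprime h

end Pool.Agent.Lib.MP_d9bc60_nt.UV
end

section
/-! Row M2 (about 180 lines): exponential sums over `Λ_Q`. -/

set_option autoImplicit false

namespace Pool.Agent.Lib.MP_d9bc60_nt.UV

open Finset

/-- Proof. `cR_eq` and exchange of sums. -/
theorem vmQ_sum (Q t : ℕ) (α : ℝ) : ∑ n ∈ Icc 1 t, (vmQ Q (n : ℤ) : ℂ) * e (α * n) =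
    ∑ q ∈ Icc 1 Q, ((mu q / q.totient : ℝ) : ℂ) * ∑ a ∈ (range q).filter (fun a => a.Coprime q),
      ∑ n ∈ Icc 1 t, e ((α + (a : ℝ) / q) * n) := by
  have h1 : ∀ n : ℕ, (vmQ Q (n : ℤ) : ℂ) * e (α * n) = ∑ q ∈ Icc 1 Q, ((mu q / q.totient : ℝ) : ℂ) *
      ∑ a ∈ (range q).filter (fun a => a.Coprime q), e ((α + (a : ℝ) / q) * n) := by
    intro n
    unfold vmQ
    rw [Complex.ofReal_sum, Finset.sum_mul]
    refine Finset.sum_congr rfl fun q hq => ?_
    rw [Complex.ofReal_mul, cR_eq q (Finset.mem_Icc.1 hq).1, mul_assoc, Finset.sum_mul]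
    congr 1
    refine Finset.sum_congr rfl fun a _ => ?_
    rw [← e_add]
    congr 1
    push_cast
    ring
  rw [Finset.sum_congr rfl fun n _ => h1 n, Finset.sum_comm]
  refine Finset.sum_congr rfl fun q _ => ?_
  rw [← Finset.mul_sum]
  congr 1
  exact Finset.sum_comm

/-- a number with denominator `D` that is not an integer -/
theorem M2VmQ_nn (x : ℝ) (D : ℕ) (hD : 1 ≤ D) (N : ℤ) (hx : x * D = N) (h : ∀ k : ℤ, x ≠ k) :
    1 / (D : ℝ) ≤ nn x := by
  have hD0 : (0 : ℝ) < D := by exact_mod_cast hD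
  unfold nn
  have h1 : (x - round x) * D = ((N - round x * D : ℤ) : ℝ) := by
    push_cast
    rw [sub_mul, hx]
  have h2 : (N - round x * D : ℤ) ≠ 0 := by
    intro h3
    rw [h3] at h1
    simp only [Int.cast_zero, mul_eq_zero] at h1
    rcases h1 with h1 | h1
    · exact h _ (sub_eq_zero.1 h1)
    · exact hD0.ne' h1
  have h3 : (1 : ℝ) ≤ |((N - round x * D : ℤ) : ℝ)| := by
    have : (1 : ℤ) ≤ |N - round x * D| := Int.one_le_abs h2
    exact_mod_cast this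
  rw [← h1, abs_mul, abs_of_pos hD0] at h3
  rwa [div_le_iff₀ hD0]

/-- the basic bound for the inner sums -/
theorem M2VmQ_inner (q q' : ℕ) (hq : 1 ≤ q) (hq' : 1 ≤ q') (a a' : ℤ)
    (h : ∀ k : ℤ, (a : ℝ) / q + (a' : ℝ) / q' ≠ k) (t : ℕ) :
    ‖∑ n ∈ Icc 1 t, e (((a : ℝ) / q + (a' : ℝ) / q') * n)‖ ≤ (q : ℝ) * q' / 2 := by
  have hq0 : (0 : ℝ) < q := by exact_mod_cast hq
  have hq0' : (0 : ℝ) < q' := by exact_mod_cast hq'
  have h1 : 1 / ((q * q' : ℕ) : ℝ) ≤ nn ((a : ℝ) / q + (a' : ℝ) / q') := by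
    apply M2VmQ_nn _ _ (Nat.mul_pos hq hq') (a * q' + a' * q) _ h
    push_cast
    field_simp
  have h2 : (0 : ℝ) < 1 / ((q * q' : ℕ) : ℝ) := by push_cast; positivity
  have h3 := geom_le ((a : ℝ) / q + (a' : ℝ) / q') 0 t (h2.trans_le h1)
  have h4 : Ioc 0 t = Icc 1 t := rfl
  rw [h4] at h3
  refine h3.trans ?_
  have h5 : 1 / (2 * nn ((a : ℝ) / q + (a' : ℝ) / q')) ≤ 1 / (2 * (1 / ((q * q' : ℕ) : ℝ))) := by
    apply one_div_le_one_div_of_le (by positivity)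
    linarith
  refine h5.trans (le_of_eq ?_)
  push_cast
  field_simp

/-- `a/q + a'/q'` an integer: the denominators agree -/
theorem M2VmQ_den (q q' : ℕ) (hq : 1 ≤ q) (hq' : 1 ≤ q') (a a' : ℤ) (ha : IsCoprime a q)
    (ha' : IsCoprime a' q') (k : ℤ) (h : (a : ℝ) / q + (a' : ℝ) / q' = k) :
    q' = q ∧ (q : ℤ) ∣ a + a' := by
  have hq0 : (q : ℝ) ≠ 0 := by positivity
  have hq0' : (q' : ℝ) ≠ 0 := by positivity
  have h1 : a * (q' : ℤ) + a' * q = k * (q * q') := by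
    have : (a : ℝ) * q' + a' * q = k * (q * q') := by
      rw [← h]; field_simp
    exact_mod_cast this
  have h2 : (q : ℤ) ∣ q' := by
    have : (q : ℤ) ∣ a * q' := ⟨k * q' - a', by linear_combination h1⟩
    exact ha.symm.dvd_of_dvd_mul_left this
  have h3 : (q' : ℤ) ∣ q := by
    have : (q' : ℤ) ∣ a' * q := ⟨k * q - a, by linear_combination h1⟩
    exact ha'.symm.dvd_of_dvd_mul_left this
  have h4 : q' = q := Nat.dvd_antisymm (Int.natCast_dvd_natCast.1 h3) (Int.natCast_dvd_natCast.1 h2)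
  refine ⟨h4, k, ?_⟩
  subst h4
  have h5 : (q' : ℤ) ≠ 0 := by positivity
  apply mul_right_cancel₀ h5
  linear_combination h1

theorem M2VmQ_abs_mu_le (n : ℕ) : |mu n| ≤ 1 := by
  unfold mu
  have h : |ArithmeticFunction.moebius n| ≤ 1 := ArithmeticFunction.abs_moebius_le_one
  exact_mod_cast h

theorem M2VmQ_coef (q : ℕ) : ‖((mu q / q.totient : ℝ) : ℂ)‖ ≤ 1 / (q.totient : ℝ) := by
  rw [Complex.norm_real, Real.norm_eq_abs, abs_div, Nat.abs_cast]
  exact div_le_div_of_nonneg_right (M2VmQ_abs_mu_le q) (Nat.cast_nonneg _)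

theorem M2VmQ_card (q : ℕ) :
    ((range q).filter (fun a => a.Coprime q)).card = q.totient := by
  rw [Nat.totient_eq_card_coprime]
  congr 1
  apply Finset.filter_congr
  intro a _
  exact Nat.coprime_comm

theorem M2VmQ_sumid (Q : ℕ) : ∑ q ∈ Icc 1 Q, (q : ℝ) ≤ (Q : ℝ) ^ 2 := by
  have h : ∀ q ∈ Icc 1 Q, (q : ℝ) ≤ Q := fun q hq => by exact_mod_cast (Finset.mem_Icc.1 hq).2
  refine (Finset.sum_le_card_nsmul _ _ _ h).trans (le_of_eq ?_)
  rw [Nat.card_Icc, nsmul_eq_mul, sq]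
  simp

/-- Proof. `vmQ_sum` with `α = a/q`: if `(q', a')` has `a/q + a'/q'` an integer then `q' = q` (both
fractions reduced) and `a' ≡ -a (q)`, exactly one such `a'`, contributing `μ(q)/φ(q) · t`. For all
others `nn(a/q + a'/q') ≥ 1/(q q')`, so the inner sum is `≤ q q'/2` (`geom_le`), total
`≤ ∑_{q' ≤ Q} (1/φ(q')) φ(q') q q'/2 ≤ Q³`. -/
theorem vmQ_exp (Q q a t : ℕ) (hq : 1 ≤ q) (hqQ : q ≤ Q) (ha : a.Coprime q) :
    ‖∑ n ∈ Icc 1 t, (vmQ Q (n : ℤ) : ℂ) * e ((a : ℝ) / q * n) -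
      ((mu q / q.totient * t : ℝ) : ℂ)‖ ≤ (Q : ℝ) ^ 3 := by
  classical
  have hq0 : (0 : ℝ) < q := by exact_mod_cast hq
  -- the special residue
  have hstar : ∃ a₀ ∈ (range q).filter (fun a => a.Coprime q), ∀ a' ∈ (range q).filter
      (fun a => a.Coprime q), ((q : ℤ) ∣ (a : ℤ) + a') ↔ a' = a₀ := by
    refine ⟨(q - a % q) % q, ?_, ?_⟩
    · rw [Finset.mem_filter, Finset.mem_range]
      refine ⟨Nat.mod_lt _ (by omega), ?_⟩
      rw [Nat.Coprime, ← Nat.gcd_rec, Nat.gcd_comm]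
      have h1 : a % q ≤ q := (Nat.mod_lt _ (by omega)).le
      have h2 : (a % q).Coprime q := by
        rw [Nat.Coprime, ← Nat.gcd_rec, Nat.gcd_comm]; exact ha
      have h3 : Nat.gcd (q - a % q) q = Nat.gcd (a % q) q := by
        rw [Nat.gcd_self_sub_left h1]
      rw [h3]; exact h2
    · intro a' ha'
      have ha'q : a' < q := Finset.mem_range.1 (Finset.mem_filter.1 ha').1
      have h1 : a % q < q := Nat.mod_lt _ (by omega)
      have h2 : ((q : ℤ) ∣ (a : ℤ) + a') ↔ (q ∣ a % q + a') := by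
        have : ((q : ℤ) ∣ (a : ℤ) + a') ↔ (q ∣ a + a') := by exact_mod_cast Iff.rfl
        rw [this, Nat.dvd_iff_mod_eq_zero, Nat.dvd_iff_mod_eq_zero, Nat.mod_add_mod]
      rw [h2]
      constructor
      · rintro ⟨k, hk⟩
        rcases Nat.eq_zero_or_pos (a % q) with h0 | h0
        · rw [h0] at hk ⊢
          simp only [Nat.sub_zero, Nat.mod_self]
          rw [zero_add] at hk
          rcases Nat.eq_zero_or_pos k with hk0 | hk0
          · rw [hk, hk0, mul_zero]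
          · exfalso
            have : q * 1 ≤ q * k := Nat.mul_le_mul_left q hk0
            omega
        · have hk1 : k = 1 := by
            have h3 : q * k < q * 2 := by omega
            have h4 : 0 < q * k := by omega
            have h5 : k < 2 := Nat.lt_of_mul_lt_mul_left h3
            have h6 : 0 < k := Nat.pos_of_mul_pos_left h4
            omega
          rw [Nat.mod_eq_of_lt (by omega)]
          subst hk1
          omega
      · intro h3
        rcases Nat.eq_zero_or_pos (a % q) with h0 | h0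
        · rw [h0] at h3 ⊢
          simp only [Nat.sub_zero, Nat.mod_self] at h3
          subst h3
          simp
        · rw [Nat.mod_eq_of_lt (by omega)] at h3
          exact ⟨1, by omega⟩
  obtain ⟨a₀, ha₀, hstar⟩ := hstar
  rw [vmQ_sum]
  -- the main term
  have hmain : ((mu q / q.totient * t : ℝ) : ℂ) = ∑ q' ∈ Icc 1 Q, ((mu q' / q'.totient : ℝ) : ℂ) *
      ∑ a' ∈ (range q').filter (fun a => a.Coprime q'),
        (if q' = q ∧ (q : ℤ) ∣ (a : ℤ) + a' then (t : ℂ) else 0) := by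
    rw [Finset.sum_eq_single q]
    · rw [Finset.sum_eq_single a₀]
      · rw [if_pos ⟨rfl, (hstar a₀ ha₀).2 rfl⟩]
        push_cast; ring
      · intro a' ha' hne
        rw [if_neg]
        rintro ⟨_, h⟩
        exact hne ((hstar a' ha').1 h)
      · intro h; exact absurd ha₀ h
    · intro q' _ hne
      rw [Finset.sum_eq_zero, mul_zero]
      intro a' _
      rw [if_neg]
      rintro ⟨h, _⟩
      exact hne h
    · intro h
      exact absurd (Finset.mem_Icc.2 ⟨hq, hqQ⟩) h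
  rw [hmain, ← Finset.sum_sub_distrib]
  have hterm : ∀ q' ∈ Icc 1 Q, ‖((mu q' / q'.totient : ℝ) : ℂ) *
      ∑ a' ∈ (range q').filter (fun a => a.Coprime q'),
        ∑ n ∈ Icc 1 t, e (((a : ℝ) / q + (a' : ℝ) / q') * n) -
      ((mu q' / q'.totient : ℝ) : ℂ) * ∑ a' ∈ (range q').filter (fun a => a.Coprime q'),
        (if q' = q ∧ (q : ℤ) ∣ (a : ℤ) + a' then (t : ℂ) else 0)‖ ≤ (q : ℝ) * q' / 2 := by
    intro q' hq'
    have hq'1 : 1 ≤ q' := (Finset.mem_Icc.1 hq').1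
    rw [← mul_sub, ← Finset.sum_sub_distrib, norm_mul]
    have h1 : ∀ a' ∈ (range q').filter (fun a => a.Coprime q'),
        ‖∑ n ∈ Icc 1 t, e (((a : ℝ) / q + (a' : ℝ) / q') * n) -
          (if q' = q ∧ (q : ℤ) ∣ (a : ℤ) + a' then (t : ℂ) else 0)‖ ≤ (q : ℝ) * q' / 2 := by
      intro a' ha'
      have hcop : IsCoprime (a : ℤ) (q : ℤ) := Nat.isCoprime_iff_coprime.2 ha
      have hcop' : IsCoprime (a' : ℤ) (q' : ℤ) :=
        Nat.isCoprime_iff_coprime.2 (Finset.mem_filter.1 ha').2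
      split_ifs with h2
      · obtain ⟨rfl, k, hk⟩ := h2
        have h3 : ∀ n : ℕ, e (((a : ℝ) / q' + (a' : ℝ) / q') * n) = 1 := by
          intro n
          have h4 : ((a : ℝ) / q' + (a' : ℝ) / q') * n = ((k * n : ℤ) : ℝ) := by
            have h5 : (a : ℝ) + a' = q' * k := by exact_mod_cast hk
            rw [← add_div, h5]
            push_cast
            field_simp
          rw [h4, e_int]
        rw [Finset.sum_congr rfl fun n _ => h3 n]
        simp only [Finset.sum_const, Nat.card_Icc, nsmul_eq_mul, mul_one]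
        simp
        positivity
      · rw [sub_zero]
        have h3 : ∀ k : ℤ, ((a : ℤ) : ℝ) / q + ((a' : ℤ) : ℝ) / q' ≠ k := by
          intro k hk
          exact h2 (M2VmQ_den q q' hq hq'1 a a' hcop hcop' k hk)
        have h4 := M2VmQ_inner q q' hq hq'1 a a' h3 t
        simpa using h4
    have h2 : ‖∑ a' ∈ (range q').filter (fun a => a.Coprime q'),
        (∑ n ∈ Icc 1 t, e (((a : ℝ) / q + (a' : ℝ) / q') * n) -
          (if q' = q ∧ (q : ℤ) ∣ (a : ℤ) + a' then (t : ℂ) else 0))‖ ≤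
        (q'.totient : ℝ) * ((q : ℝ) * q' / 2) := by
      refine (norm_sum_le _ _).trans ((Finset.sum_le_card_nsmul _ _ _ h1).trans (le_of_eq ?_))
      rw [M2VmQ_card q', nsmul_eq_mul]
    have htot : (0 : ℝ) < q'.totient := by exact_mod_cast Nat.totient_pos.2 hq'1
    calc ‖((mu q' / q'.totient : ℝ) : ℂ)‖ * _ ≤ (1 / (q'.totient : ℝ)) *
          ((q'.totient : ℝ) * ((q : ℝ) * q' / 2)) :=
          mul_le_mul (M2VmQ_coef q') h2 (norm_nonneg _) (by positivity)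
      _ = (q : ℝ) * q' / 2 := by field_simp
  refine (norm_sum_le _ _).trans ((Finset.sum_le_sum hterm).trans ?_)
  rw [← Finset.sum_div, ← Finset.mul_sum]
  have h3 := M2VmQ_sumid Q
  have h4 : (q : ℝ) ≤ Q := by exact_mod_cast hqQ
  have h5 : (0 : ℝ) ≤ ∑ q ∈ Icc 1 Q, (q : ℝ) := Finset.sum_nonneg fun _ _ => Nat.cast_nonneg _
  calc (q : ℝ) * (∑ q ∈ Icc 1 Q, (q : ℝ)) / 2 ≤ (q : ℝ) * ∑ q ∈ Icc 1 Q, (q : ℝ) := by
        have : (0 : ℝ) ≤ (q : ℝ) * ∑ q ∈ Icc 1 Q, (q : ℝ) := mul_nonneg hq0.le h5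
        linarith
    _ ≤ (Q : ℝ) * (Q : ℝ) ^ 2 := mul_le_mul h4 h3 h5 (Nat.cast_nonneg _)
    _ = (Q : ℝ) ^ 3 := by ring

theorem M2VmQ_tot (q : ℕ) (hq : 1 ≤ q) : 1 / (q.totient : ℝ) ≤ (q.divisors.card : ℝ) / q := by
  have h1 : q ≤ q.divisors.card * q.totient := by
    calc q = ∑ d ∈ q.divisors, d.totient := (Nat.sum_totient q).symm
      _ ≤ ∑ d ∈ q.divisors, q.totient := by
          apply Finset.sum_le_sum
          intro d hd
          have hdq := Nat.mem_divisors.1 hd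
          exact Nat.le_of_dvd (Nat.totient_pos.2 hq) (Nat.totient_dvd_of_dvd hdq.1)
      _ = q.divisors.card * q.totient := by rw [Finset.sum_const, smul_eq_mul]
  have hq0 : (0 : ℝ) < q := by exact_mod_cast hq
  have ht0 : (0 : ℝ) < q.totient := by exact_mod_cast Nat.totient_pos.2 hq
  rw [div_le_div_iff₀ ht0 hq0, one_mul]
  exact_mod_cast h1

/-- Proof. Write `vmQ Q n = ∑_{q ≤ Q} (μ(q)/φ(q)) ∑_a e(an/q)` (`cR_eq`; it is real, so its square is
`vmQ · conj vmQ`), expand and sum over `n`. Diagonal `(q,a) = (q',a')`: `N ∑_{q ≤ Q} 1/φ(q)`, and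
`1/φ(q) ≤ τ(q)/q` (`φ(q) τ(q) ≥ q`), so `≤ N (1 + log Q)²` (`sum_tau_div_le`). Off the diagonal
`nn(a/q - a'/q') ≥ 1/(qq')`, total `≤ ∑_{q,q'} qq'/2 ≤ Q⁴`. -/
theorem vmQ_sq (Q N : ℕ) : ∑ k ∈ Icc 1 N, vmQ Q (k : ℤ) ^ 2 ≤
    N * (1 + Real.log Q) ^ 2 + (Q : ℝ) ^ 4 := by
  classical
  -- the index set
  let I : Finset (ℕ × ℕ) := (Icc 1 Q).biUnion fun q =>
    ((range q).filter (fun a => a.Coprime q)).image fun a => (q, a)
  have hI : ∀ x, x ∈ I ↔ (1 ≤ x.1 ∧ x.1 ≤ Q) ∧ (x.2 < x.1 ∧ x.2.Coprime x.1) := by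
    rintro ⟨q, a⟩
    simp only [I, Finset.mem_biUnion, Finset.mem_Icc, Finset.mem_image, Finset.mem_filter,
      Finset.mem_range, Prod.mk.injEq]
    constructor
    · rintro ⟨q', h1, a', h2, rfl, rfl⟩
      exact ⟨h1, h2⟩
    · rintro ⟨h1, h2⟩
      exact ⟨q, h1, a, h2, rfl, rfl⟩
  have hsumI : ∀ (M : Type) [AddCommMonoid M] (F : ℕ → ℕ → M), ∑ x ∈ I, F x.1 x.2 =
      ∑ q ∈ Icc 1 Q, ∑ a ∈ (range q).filter (fun a => a.Coprime q), F q a := by
    intro M _ F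
    rw [Finset.sum_sigma']
    symm
    apply Finset.sum_bij (fun (x : (Σ _ : ℕ, ℕ)) _ => (x.1, x.2))
    · rintro ⟨q, a⟩ hx
      rw [Finset.mem_sigma] at hx
      rw [hI]
      exact ⟨Finset.mem_Icc.1 hx.1, by simpa using hx.2⟩
    · rintro ⟨q, a⟩ _ ⟨q', a'⟩ _ h
      simp only [Prod.mk.injEq] at h
      obtain ⟨rfl, rfl⟩ := h
      rfl
    · rintro ⟨q, a⟩ hx
      rw [hI] at hx
      exact ⟨⟨q, a⟩, by simpa using hx, rfl⟩
    · rintro ⟨q, a⟩ _
      rfl
  let c : ℕ → ℝ := fun q => mu q / q.totient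
  have hv : ∀ k : ℕ, (vmQ Q (k : ℤ) : ℂ) = ∑ x ∈ I, ((c x.1 : ℝ) : ℂ) * e ((x.2 : ℝ) / x.1 * k) := by
    intro k
    rw [hsumI ℂ (fun q a => ((c q : ℝ) : ℂ) * e ((a : ℝ) / q * k))]
    unfold vmQ
    rw [Complex.ofReal_sum]
    refine Finset.sum_congr rfl fun q hq => ?_
    rw [Complex.ofReal_mul, cR_eq q (Finset.mem_Icc.1 hq).1, Finset.mul_sum]
    refine Finset.sum_congr rfl fun a _ => ?_
    congr 2
    push_cast
    ring
  have hsq : ∀ k : ℕ, ((vmQ Q (k : ℤ) ^ 2 : ℝ) : ℂ) = ∑ x ∈ I, ∑ y ∈ I,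
      ((c x.1 * c y.1 : ℝ) : ℂ) * e (((x.2 : ℤ) : ℝ) / x.1 * k + ((-(y.2 : ℤ) : ℤ) : ℝ) / y.1 * k) := by
    intro k
    have h1 : ((vmQ Q (k : ℤ) ^ 2 : ℝ) : ℂ) = (vmQ Q (k : ℤ) : ℂ) *
        (starRingEnd ℂ) (vmQ Q (k : ℤ) : ℂ) := by
      rw [Complex.conj_ofReal]; push_cast; ring
    rw [h1, hv, map_sum, Finset.sum_mul_sum]
    refine Finset.sum_congr rfl fun x _ => Finset.sum_congr rfl fun y _ => ?_
    rw [map_mul, Complex.conj_ofReal]
    have h2 : e (((x.2 : ℤ) : ℝ) / x.1 * k + ((-(y.2 : ℤ) : ℤ) : ℝ) / y.1 * k) =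
        e ((x.2 : ℝ) / x.1 * k) * (starRingEnd ℂ) (e ((y.2 : ℝ) / y.1 * k)) := by
      rw [← e_sub]; congr 1; push_cast; ring
    rw [h2]; push_cast; ring
  have htotal : ((∑ k ∈ Icc 1 N, vmQ Q (k : ℤ) ^ 2 : ℝ) : ℂ) = ∑ x ∈ I, ∑ y ∈ I,
      ((c x.1 * c y.1 : ℝ) : ℂ) * ∑ k ∈ Icc 1 N,
        e ((((x.2 : ℤ) : ℝ) / x.1 + ((-(y.2 : ℤ) : ℤ) : ℝ) / y.1) * k) := by
    rw [Complex.ofReal_sum, Finset.sum_congr rfl fun k _ => hsq k, Finset.sum_comm]
    refine Finset.sum_congr rfl fun x _ => ?_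
    rw [Finset.sum_comm]
    refine Finset.sum_congr rfl fun y _ => ?_
    rw [Finset.mul_sum]
    refine Finset.sum_congr rfl fun k _ => ?_
    rw [add_mul]
  have hnorm : ∑ k ∈ Icc 1 N, vmQ Q (k : ℤ) ^ 2 ≤ ∑ x ∈ I, ∑ y ∈ I,
      (1 / (x.1.totient : ℝ) * (1 / (y.1.totient : ℝ))) *
        (if x = y then (N : ℝ) else (x.1 : ℝ) * y.1 / 2) := by
    have h0 : (0 : ℝ) ≤ ∑ k ∈ Icc 1 N, vmQ Q (k : ℤ) ^ 2 := Finset.sum_nonneg fun _ _ => sq_nonneg _
    calc ∑ k ∈ Icc 1 N, vmQ Q (k : ℤ) ^ 2 = ‖((∑ k ∈ Icc 1 N, vmQ Q (k : ℤ) ^ 2 : ℝ) : ℂ)‖ := by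
          rw [Complex.norm_real, Real.norm_eq_abs, abs_of_nonneg h0]
      _ ≤ _ := by
          rw [htotal]
          refine (norm_sum_le _ _).trans (Finset.sum_le_sum fun x hx => ?_)
          refine (norm_sum_le _ _).trans (Finset.sum_le_sum fun y hy => ?_)
          rw [norm_mul]
          obtain ⟨⟨hx1, hx2⟩, hx3, hx4⟩ := (hI x).1 hx
          obtain ⟨⟨hy1, hy2⟩, hy3, hy4⟩ := (hI y).1 hy
          apply mul_le_mul _ _ (norm_nonneg _) (by positivity)
          · rw [Complex.ofReal_mul, norm_mul]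
            exact mul_le_mul (M2VmQ_coef _) (M2VmQ_coef _) (norm_nonneg _) (by positivity)
          · split_ifs with hxy
            · refine (norm_sum_le _ _).trans ?_
              simp [norm_e]
            · apply M2VmQ_inner x.1 y.1 hx1 hy1
              intro k hk
              have hcx : IsCoprime (x.2 : ℤ) (x.1 : ℤ) := Nat.isCoprime_iff_coprime.2 hx4
              have hcy : IsCoprime (-(y.2 : ℤ)) (y.1 : ℤ) :=
                (Nat.isCoprime_iff_coprime.2 hy4).neg_left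
              obtain ⟨h1, h2⟩ := M2VmQ_den x.1 y.1 hx1 hy1 _ _ hcx hcy k hk
              apply hxy
              have h3 : (x.2 : ℤ) = y.2 := by
                rw [h1] at hy3
                have h4 : |(x.2 : ℤ) + -(y.2 : ℤ)| < x.1 := by
                  rw [abs_lt]; constructor <;> omega
                have h5 := Int.eq_zero_of_abs_lt_dvd h2 h4
                omega
              exact Prod.ext h1.symm (by exact_mod_cast h3)
  refine hnorm.trans ?_
  have hsplit : ∀ x ∈ I, ∑ y ∈ I, (1 / (x.1.totient : ℝ) * (1 / (y.1.totient : ℝ))) *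
        (if x = y then (N : ℝ) else (x.1 : ℝ) * y.1 / 2) ≤
      (1 / (x.1.totient : ℝ) * (1 / (x.1.totient : ℝ))) * N +
      ∑ y ∈ I, (1 / (x.1.totient : ℝ) * (1 / (y.1.totient : ℝ))) * ((x.1 : ℝ) * y.1 / 2) := by
    intro x hx
    rw [← Finset.add_sum_erase _ _ hx, if_pos rfl]
    have h1 : ∑ y ∈ I.erase x, (1 / (x.1.totient : ℝ) * (1 / (y.1.totient : ℝ))) *
        (if x = y then (N : ℝ) else (x.1 : ℝ) * y.1 / 2) ≤
        ∑ y ∈ I, (1 / (x.1.totient : ℝ) * (1 / (y.1.totient : ℝ))) * ((x.1 : ℝ) * y.1 / 2) := by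
      have h2 : ∑ y ∈ I.erase x, (1 / (x.1.totient : ℝ) * (1 / (y.1.totient : ℝ))) *
          (if x = y then (N : ℝ) else (x.1 : ℝ) * y.1 / 2) =
          ∑ y ∈ I.erase x, (1 / (x.1.totient : ℝ) * (1 / (y.1.totient : ℝ))) *
          ((x.1 : ℝ) * y.1 / 2) := by
        refine Finset.sum_congr rfl fun y hy => ?_
        rw [if_neg (Finset.ne_of_mem_erase hy).symm]
      rw [h2]
      exact Finset.sum_le_sum_of_subset_of_nonneg (Finset.erase_subset _ _)
        fun _ _ _ => by positivity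
    linarith
  refine (Finset.sum_le_sum hsplit).trans ?_
  rw [Finset.sum_add_distrib]
  apply add_le_add
  · rw [← Finset.sum_mul, mul_comm]
    apply mul_le_mul_of_nonneg_left _ (Nat.cast_nonneg _)
    rw [hsumI ℝ (fun q _ => 1 / (q.totient : ℝ) * (1 / (q.totient : ℝ)))]
    refine le_trans (Finset.sum_le_sum ?_) (sum_tau_div_le Q)
    intro q hq
    have hq1 := (Finset.mem_Icc.1 hq).1
    rw [Finset.sum_const, M2VmQ_card q, nsmul_eq_mul]
    refine le_trans (le_of_eq ?_) (M2VmQ_tot q hq1)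
    have htot : (0 : ℝ) < q.totient := by exact_mod_cast Nat.totient_pos.2 hq1
    field_simp
  · have h1 : ∑ x ∈ I, ∑ y ∈ I, (1 / (x.1.totient : ℝ) * (1 / (y.1.totient : ℝ))) *
        ((x.1 : ℝ) * y.1 / 2) = (∑ x ∈ I, 1 / (x.1.totient : ℝ) * x.1) *
        (∑ y ∈ I, 1 / (y.1.totient : ℝ) * y.1) / 2 := by
      rw [Finset.sum_mul_sum, Finset.sum_div]
      refine Finset.sum_congr rfl fun x _ => ?_
      rw [Finset.sum_div]
      refine Finset.sum_congr rfl fun y _ => ?_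
      ring
    have h2 : ∑ x ∈ I, 1 / (x.1.totient : ℝ) * x.1 ≤ (Q : ℝ) ^ 2 := by
      rw [hsumI ℝ (fun q _ => 1 / (q.totient : ℝ) * (q : ℝ))]
      refine le_trans (le_of_eq ?_) (M2VmQ_sumid Q)
      refine Finset.sum_congr rfl fun q hq => ?_
      have hq1 := (Finset.mem_Icc.1 hq).1
      rw [Finset.sum_const, M2VmQ_card q, nsmul_eq_mul]
      have htot : (0 : ℝ) < q.totient := by exact_mod_cast Nat.totient_pos.2 hq1
      field_simp
    have h3 : (0 : ℝ) ≤ ∑ x ∈ I, 1 / (x.1.totient : ℝ) * x.1 :=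
      Finset.sum_nonneg fun _ _ => by positivity
    rw [h1]
    have h4 := mul_le_mul h2 h2 h3 (by positivity)
    have h5 : (0 : ℝ) ≤ (Q : ℝ) ^ 2 * (Q : ℝ) ^ 2 := by positivity
    have h6 : (Q : ℝ) ^ 4 = (Q : ℝ) ^ 2 * (Q : ℝ) ^ 2 := by ring
    rw [h6]
    linarith

end Pool.Agent.Lib.MP_d9bc60_nt.UV
end
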