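import Mathlib

section
/-! Definitions for the uniform theorem (`|b| ≤ X^(5/6-ε)`). -/

set_option autoImplicit false

namespace Pool.Agent.Lib.MP_d9bc60_nt.UV

open Finset

/-- `e(x) = exp(2πix)`. -/
noncomputable def e (x : ℝ) : ℂ := Complex.exp (((2 * Real.pi * x : ℝ) : ℂ) * Complex.I)

/-- Distance to the nearest integer. -/
noncomputable def nn (x : ℝ) : ℝ := |x - round x|

/-- The von Mangoldt function. -/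
noncomputable def vm (n : ℕ) : ℝ := ArithmeticFunction.vonMangoldt n

/-- The Moebius function as a real number. -/
noncomputable def mu (n : ℕ) : ℝ := ((ArithmeticFunction.moebius n : ℤ) : ℝ)

/-- The coefficients `a(n) (log n)^j`. -/
noncomputable def lp (a : ℕ → ℂ) (j : ℕ) : ℕ → ℂ := fun n => a n * ((Real.log n : ℝ) : ℂ) ^ j

/-- Ramanujan's sum `c_q(n) = ∑_{d ∣ q, d ∣ n} μ(q/d) d`. -/
noncomputable def cR (q : ℕ) (n : ℤ) : ℝ :=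
  ∑ d ∈ q.divisors.filter (fun d : ℕ => (d : ℤ) ∣ n), mu (q / d) * d

/-- `Λ_Q(n) = ∑_{q ≤ Q} μ(q)/φ(q) c_q(n)`. -/
noncomputable def vmQ (Q : ℕ) (n : ℤ) : ℝ :=
  ∑ q ∈ Icc 1 Q, mu q / (q.totient : ℝ) * cR q n

/-- `g(x) = x^2 + b x`. -/
def gg (b : ℤ) (x : ℕ) : ℤ := (x : ℤ) ^ 2 + b * x

/-- `Y_q(m) = μ(q)/φ(q)^2 ∑_{x mod q, (x,q)=1} c_q(m - g(x))`. -/
noncomputable def YY (b : ℤ) (q : ℕ) (m : ℤ) : ℝ :=
  mu q / (q.totient : ℝ) ^ 2 * ∑ x ∈ (range q).filter (fun x => x.Coprime q), cR q (m - gg b x)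

/-- The truncated singular series. -/
noncomputable def SQ (b : ℤ) (Q : ℕ) (m : ℤ) : ℝ := ∑ q ∈ Icc 1 Q, YY b q m

/-- `u(k) = Λ(k) - Λ_Q(k)` for `1 ≤ k`. -/
noncomputable def uu (Q : ℕ) (k : ℕ) : ℝ := vm k - vmQ Q (k : ℤ)

/-- `S_f(α) = ∑_{n ≤ P} Λ(n) e(α g(n))`. -/
noncomputable def Sf (b : ℤ) (P : ℕ) (α : ℝ) : ℂ :=
  ∑ n ∈ Icc 1 P, (vm n : ℂ) * e (α * (gg b n : ℝ))

/-- `D_t(α) = ∑_{k ≤ t} u(k) e(αk)`. -/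
noncomputable def DD (Q t : ℕ) (α : ℝ) : ℂ := ∑ k ∈ Icc 1 t, (uu Q k : ℂ) * e (α * k)

/-- The length of the range of the first prime, `P = ⌊min(√X, X/|b|)/4⌋`. -/
noncomputable def PP (b : ℤ) (X : ℕ) : ℕ := ⌊min (Real.sqrt X) (X / |(b : ℝ)|) / 4⌋₊

/-- The modulus bound `⌊(log X)^C⌋`. -/
noncomputable def LC (C X : ℕ) : ℕ := ⌊Real.log X ^ C⌋₊

/-- `R(m) = ∑_{n ≤ P} Λ(n) Λ(m - g(n))`. -/
noncomputable def RL (b : ℤ) (P : ℕ) (m : ℤ) : ℝ :=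
  ∑ n ∈ Icc 1 P, vm n * vm (m - gg b n).toNat

/-- `R_Q(m) = ∑_{n ≤ P} Λ(n) Λ_Q(m - g(n))`. -/
noncomputable def RQ (b : ℤ) (Q P : ℕ) (m : ℤ) : ℝ :=
  ∑ n ∈ Icc 1 P, vm n * vmQ Q (m - gg b n)

end Pool.Agent.Lib.MP_d9bc60_nt.UV
end
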