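import Pool.Agent.Lib.MP_d9bc60_nt.UV.PVinoA
import Pool.Agent.Lib.MP_d9bc60_nt.UV.PVaughan
import Pool.Agent.Lib.MP_d9bc60_nt.UV.PTools

section
/-! Row V4 (about 110 lines): the type I case of the quadratic Vinogradov estimate. -/

set_option autoImplicit false

namespace Pool.Agent.Lib.MP_d9bc60_nt.UV

open Finset

/-- The conclusion of the quadratic Vinogradov estimate. -/
def Conc (C P : ℕ) (α γ : ℝ) : Prop :=
  ∃ q : ℕ, 1 ≤ q ∧ (q : ℝ) ≤ Real.log P ^ C ∧ nn (q * α) ≤ Real.log P ^ C / (P : ℝ) ^ 2 ∧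
    nn (q * γ) ≤ Real.log P ^ C / (P : ℝ)

theorem Conc.mono {C C' P : ℕ} {α γ : ℝ} (h : Conc C P α γ) (hC : C ≤ C') (hP : 3 ≤ P) :
    Conc C' P α γ := by
  obtain ⟨q, hq, h1, h2, h3⟩ := h
  have hP' : (3 : ℝ) ≤ P := by exact_mod_cast hP
  have hL : 1 ≤ Real.log P := by
    rw [Real.le_log_iff_exp_le (by linarith only [hP'])]
    exact Real.exp_one_lt_three.le.trans hP'
  have hpow : Real.log P ^ C ≤ Real.log P ^ C' := pow_le_pow_right₀ hL hC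
  exact ⟨q, hq, h1.trans hpow, h2.trans (div_le_div_of_nonneg_right hpow (by positivity)),
    h3.trans (div_le_div_of_nonneg_right hpow (by positivity))⟩

/-- Proof. `M = P/d` (natural division) satisfies `1 ≤ M` for large `P` and `t ≤ M`,
`M ≤ P/d ≤ 2M` (reals). `weyl_both` with `θ = αd²`, `η = γd`, `u = 0`, `v = t`, `δ = (log P)^(-A)`:
`q₁ ≤ C₁ (log P)^(8A)`, `nn(q₁ d² α) ≤ 4 C₁ (log P)^(8A) d²/P²`,
`nn(q₁ d γ) ≤ 2 C₁ (log P)^(17A) d/P`. Take `q = q₁ d²` (`nn_nat_mul` for `γ`). -/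
theorem vq_typeI (A C₀ : ℕ) : ∃ C P₀ : ℕ, ∀ P : ℕ, P₀ ≤ P → ∀ (α γ : ℝ) (d t : ℕ), 1 ≤ d →
    (d : ℝ) ≤ Real.log P ^ C₀ → t ≤ P / d →
    (P : ℝ) / (d * Real.log P ^ A) ≤
      ‖∑ k ∈ Icc 1 t, e (α * ((d * k : ℕ) : ℝ) ^ 2 + γ * ((d * k : ℕ) : ℝ))‖ →
    Conc C P α γ := by
  obtain ⟨C₁, hC₁, hwb⟩ := weyl_both
  have hC₁0 : 0 < C₁ := by linarith only [hC₁]
  have hev : ∀ᶠ P : ℕ in Filter.atTop, 4 * C₁ ≤ Real.log P ∧ Real.log P ^ C₀ ≤ P := by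
    refine Filter.Eventually.and ?_ ?_
    · exact (Real.tendsto_log_atTop.comp tendsto_natCast_atTop_atTop).eventually_ge_atTop _
    · have h1 := (Real.isLittleO_pow_log_id_atTop (n := C₀)).bound (zero_lt_one)
      have h2 := tendsto_natCast_atTop_atTop (R := ℝ) |>.eventually h1
      filter_upwards [h2] with P hP
      rw [one_mul, id, Real.norm_natCast] at hP
      exact (le_abs_self _).trans hP
  obtain ⟨P₀, hP₀⟩ := Filter.eventually_atTop.mp hev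
  refine ⟨17 * A + 2 * C₀ + 1, P₀, ?_⟩
  intro P hP α γ d t hd hdL ht h
  obtain ⟨hLC, hLP⟩ := hP₀ P hP
  obtain ⟨L, hL⟩ : ∃ L, L = Real.log P := ⟨_, rfl⟩
  rw [← hL] at hLC hLP hdL h
  have hL1 : 1 ≤ L := by linarith only [hC₁, hLC]
  have hL0 : 0 < L := by linarith only [hC₁, hLC]
  have hLp : ∀ a : ℕ, 0 < L ^ a := fun a => pow_pos hL0 a
  have hLp1 : ∀ a : ℕ, 1 ≤ L ^ a := fun a => one_le_pow₀ hL1
  have hd0 : (0 : ℝ) < d := by exact_mod_cast hd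
  have hdP : d ≤ P := by exact_mod_cast hdL.trans hLP
  have hP0 : (0 : ℝ) < P := hd0.trans_le (by exact_mod_cast hdP)
  have hM : 1 ≤ P / d := Nat.div_pos hdP hd
  have hM1 : (1 : ℝ) ≤ ((P / d : ℕ) : ℝ) := by exact_mod_cast hM
  have hMle : ((P / d : ℕ) : ℝ) ≤ (P : ℝ) / d := Nat.cast_div_le
  have hMge : (P : ℝ) / d ≤ 2 * ((P / d : ℕ) : ℝ) := by
    have h1 : P < (P / d + 1) * d := by
      have h2 := Nat.div_add_mod P d
      have h3 := Nat.mod_lt P hd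
      calc P = d * (P / d) + P % d := h2.symm
        _ < d * (P / d) + d := by omega
        _ = (P / d + 1) * d := by ring
    have h2 : (P : ℝ) < (((P / d : ℕ) : ℝ) + 1) * d := by exact_mod_cast h1
    rw [div_le_iff₀ hd0]
    linarith only [h2, mul_le_mul_of_nonneg_right hM1 hd0.le]
  obtain ⟨M, hMdef⟩ : ∃ M, M = P / d := ⟨_, rfl⟩
  rw [← hMdef] at hM hM1 hMle hMge ht
  have hM0 : (0 : ℝ) < M := by linarith only [hM1]
  obtain ⟨δ, hδ⟩ : ∃ δ, δ = (L ^ A)⁻¹ := ⟨_, rfl⟩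
  have hδ0 : 0 < δ := by rw [hδ]; exact inv_pos.mpr (hLp A)
  have hδ1 : δ ≤ 1 := by rw [hδ]; exact inv_le_one_of_one_le₀ (hLp1 A)
  have hδL : ∀ j : ℕ, δ ^ j = (L ^ (j * A))⁻¹ := by
    intro j
    rw [hδ, inv_pow, ← pow_mul, mul_comm]
  have hsum : ∑ k ∈ Icc 1 t, e (α * ((d * k : ℕ) : ℝ) ^ 2 + γ * ((d * k : ℕ) : ℝ)) =
      ∑ m ∈ Ioc 0 t, e ((α * (d : ℝ) ^ 2) * (m : ℝ) ^ 2 + (γ * d) * m) := by
    have hI : Icc 1 t = Ioc 0 t := by
      ext x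
      simp [Nat.succ_le_iff]
    rw [hI]
    refine Finset.sum_congr rfl fun m _ => ?_
    congr 1
    push_cast
    ring
  rw [hsum] at h
  obtain ⟨q₁, hq₁, hq₁le, hq₁α, hq₁γ⟩ := hwb δ (α * (d : ℝ) ^ 2) (γ * d) M 0 t hδ0 hδ1 hM
    (by omega) (by
      refine le_trans ?_ h
      rw [hδ, inv_mul_eq_div, div_le_div_iff₀ (hLp A) (by positivity)]
      rw [le_div_iff₀ hd0] at hMle
      calc (M : ℝ) * (d * L ^ A) = (M * d) * L ^ A := by ring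
        _ ≤ P * L ^ A := mul_le_mul_of_nonneg_right hMle (hLp A).le)
  rw [hδL, div_inv_eq_mul] at hq₁le
  have hα : nn ((q₁ : ℝ) * (α * (d : ℝ) ^ 2)) ≤ 4 * C₁ * L ^ (8 * A) * (d : ℝ) ^ 2 / (P : ℝ) ^ 2 := by
    refine hq₁α.trans ?_
    rw [hδL, div_le_div_iff₀ (by positivity) (by positivity)]
    have h1 : (P : ℝ) ^ 2 ≤ 4 * (d : ℝ) ^ 2 * (M : ℝ) ^ 2 := by
      rw [div_le_iff₀ hd0] at hMge
      calc (P : ℝ) ^ 2 ≤ (2 * M * d) ^ 2 := pow_le_pow_left₀ hP0.le hMge 2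
        _ = 4 * (d : ℝ) ^ 2 * (M : ℝ) ^ 2 := by ring
    calc C₁ * (P : ℝ) ^ 2 ≤ C₁ * (4 * (d : ℝ) ^ 2 * (M : ℝ) ^ 2) :=
          mul_le_mul_of_nonneg_left h1 hC₁0.le
      _ = 4 * C₁ * L ^ (8 * A) * (d : ℝ) ^ 2 * ((L ^ (8 * A))⁻¹ * (M : ℝ) ^ 2) := by
          field_simp
  have hγ : nn ((q₁ : ℝ) * (γ * d)) ≤ 2 * C₁ * L ^ (17 * A) * d / (P : ℝ) := by
    refine hq₁γ.trans ?_
    rw [hδL, div_le_div_iff₀ (by positivity) (by positivity)]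
    have h1 : (P : ℝ) ≤ 2 * d * M := by
      rw [div_le_iff₀ hd0] at hMge
      linarith only [hMge]
    calc C₁ * (P : ℝ) ≤ C₁ * (2 * d * M) := mul_le_mul_of_nonneg_left h1 hC₁0.le
      _ = 2 * C₁ * L ^ (17 * A) * d * ((L ^ (17 * A))⁻¹ * M) := by
          field_simp
  have hd2 : (d : ℝ) ^ 2 ≤ L ^ (2 * C₀) := by
    calc (d : ℝ) ^ 2 ≤ (L ^ C₀) ^ 2 := pow_le_pow_left₀ hd0.le hdL 2
      _ = L ^ (2 * C₀) := by rw [← pow_mul, mul_comm]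
  have hfin : ∀ a : ℕ, a ≤ 17 * A → 4 * C₁ * L ^ a * L ^ (2 * C₀) ≤ L ^ (17 * A + 2 * C₀ + 1) := by
    intro a ha
    calc 4 * C₁ * L ^ a * L ^ (2 * C₀) ≤ L * L ^ (17 * A) * L ^ (2 * C₀) := by
          refine mul_le_mul_of_nonneg_right ?_ (hLp _).le
          exact mul_le_mul hLC (pow_le_pow_right₀ hL1 ha) (hLp _).le hL0.le
      _ = L ^ (17 * A + 2 * C₀ + 1) := by ring
  refine ⟨q₁ * d ^ 2, Nat.mul_pos hq₁ (pow_pos hd 2), ?_, ?_, ?_⟩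
  · rw [← hL]
    push_cast
    calc (q₁ : ℝ) * (d : ℝ) ^ 2 ≤ (C₁ * L ^ (8 * A)) * L ^ (2 * C₀) :=
          mul_le_mul hq₁le hd2 (by positivity) (by positivity)
      _ ≤ 4 * C₁ * L ^ (8 * A) * L ^ (2 * C₀) := by
          refine mul_le_mul_of_nonneg_right ?_ (hLp _).le
          refine mul_le_mul_of_nonneg_right ?_ (hLp _).le
          linarith only [hC₁]
      _ ≤ L ^ (17 * A + 2 * C₀ + 1) := hfin _ (by omega)
  · rw [← hL]
    have h1 : (((q₁ * d ^ 2 : ℕ) : ℝ) * α) = (q₁ : ℝ) * (α * (d : ℝ) ^ 2) := by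
      push_cast
      ring
    rw [h1]
    refine hα.trans (div_le_div_of_nonneg_right ?_ (by positivity))
    exact (mul_le_mul_of_nonneg_left hd2 (by positivity)).trans (hfin _ (by omega))
  · rw [← hL]
    have h1 : (((q₁ * d ^ 2 : ℕ) : ℝ) * γ) = (d : ℝ) * ((q₁ : ℝ) * (γ * d)) := by
      push_cast
      ring
    rw [h1]
    refine (nn_nat_mul _ _).trans ?_
    calc (d : ℝ) * nn ((q₁ : ℝ) * (γ * d)) ≤ d * (2 * C₁ * L ^ (17 * A) * d / (P : ℝ)) :=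
          mul_le_mul_of_nonneg_left hγ hd0.le
      _ = 2 * C₁ * L ^ (17 * A) * (d : ℝ) ^ 2 / (P : ℝ) := by ring
      _ ≤ L ^ (17 * A + 2 * C₀ + 1) / (P : ℝ) := by
          refine div_le_div_of_nonneg_right ?_ hP0.le
          calc 2 * C₁ * L ^ (17 * A) * (d : ℝ) ^ 2 ≤ 2 * C₁ * L ^ (17 * A) * L ^ (2 * C₀) :=
                mul_le_mul_of_nonneg_left hd2 (by positivity)
            _ ≤ 4 * C₁ * L ^ (17 * A) * L ^ (2 * C₀) := by
                refine mul_le_mul_of_nonneg_right ?_ (hLp _).le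
                refine mul_le_mul_of_nonneg_right ?_ (hLp _).le
                linarith only [hC₁]
            _ ≤ L ^ (17 * A + 2 * C₀ + 1) := hfin _ le_rfl

end Pool.Agent.Lib.MP_d9bc60_nt.UV
end

section
/-! Row V5 (about 130 lines): type II case, extraction of many pairs with one denominator. -/

set_option autoImplicit false

namespace Pool.Agent.Lib.MP_d9bc60_nt.UV

open Finset

/-- an inner sum of `PS` -/
noncomputable def v5_f (α γ : ℝ) (M P : ℕ) (p : ℕ × ℕ) : ℝ :=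
  ‖∑ m ∈ (Ioc M (2 * M)).filter (fun m => m * p.1 ≤ P ∧ m * p.2 ≤ P),
      e (α * ((m * p.1 : ℕ) : ℝ) ^ 2 + γ * ((m * p.1 : ℕ) : ℝ)) *
        (starRingEnd ℂ) (e (α * ((m * p.2 : ℕ) : ℝ) ^ 2 + γ * ((m * p.2 : ℕ) : ℝ)))‖

theorem v5_f_le (α γ : ℝ) (M P : ℕ) (p : ℕ × ℕ) : v5_f α γ M P p ≤ M := by
  unfold v5_f
  calc ‖∑ m ∈ (Ioc M (2 * M)).filter (fun m => m * p.1 ≤ P ∧ m * p.2 ≤ P),
      e (α * ((m * p.1 : ℕ) : ℝ) ^ 2 + γ * ((m * p.1 : ℕ) : ℝ)) *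
        (starRingEnd ℂ) (e (α * ((m * p.2 : ℕ) : ℝ) ^ 2 + γ * ((m * p.2 : ℕ) : ℝ)))‖
      ≤ ∑ m ∈ (Ioc M (2 * M)).filter (fun m => m * p.1 ≤ P ∧ m * p.2 ≤ P), (1 : ℝ) := by
        refine norm_sum_le_of_le _ fun m _ => ?_
        rw [norm_mul, RCLike.norm_conj, norm_e, norm_e, mul_one]
    _ ≤ ∑ m ∈ Ioc M (2 * M), (1 : ℝ) :=
        Finset.sum_le_sum_of_subset_of_nonneg (Finset.filter_subset _ _)
          fun _ _ _ => zero_le_one
    _ = M := by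
        rw [Finset.sum_const, Nat.card_Ioc, nsmul_eq_mul, mul_one]
        congr 1
        omega

theorem v5_f_eq (α γ : ℝ) (M P : ℕ) (p : ℕ × ℕ) (h1 : 0 < p.1) (h2 : 0 < p.2) :
    v5_f α γ M P p = ‖∑ m ∈ Ioc M (min (2 * M) (min (P / p.1) (P / p.2))),
      e ((α * ((p.1 : ℝ) ^ 2 - (p.2 : ℝ) ^ 2)) * (m : ℝ) ^ 2 + (γ * ((p.1 : ℝ) - p.2)) * m)‖ := by
  unfold v5_f
  have h3 : (Ioc M (2 * M)).filter (fun m => m * p.1 ≤ P ∧ m * p.2 ≤ P) =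
      Ioc M (min (2 * M) (min (P / p.1) (P / p.2))) := by
    ext m
    simp only [Finset.mem_filter, Finset.mem_Ioc, le_min_iff, Nat.le_div_iff_mul_le h1,
      Nat.le_div_iff_mul_le h2, and_assoc]
  rw [h3]
  congr 1
  refine Finset.sum_congr rfl fun m _ => ?_
  rw [← e_sub]
  congr 1
  push_cast
  ring

/-- Proof. `φ(mk) conj φ(mk') = e(α(k²-k'²) m² + γ(k-k') m)` (`e_sub`), and the set of `m` is an
interval `Ioc M (min (2M) (min (P/k) (P/k')))`, so each inner norm is `≤ M`. The pairs with inner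
norm `< (δ/2) M` contribute `≤ (δ/2) K² M`, so at least `(δ/2) K²` pairs have inner norm
`≥ (δ/2) M`. For each, `weyl_both` with `δ/2` gives a `q ≤ C₁ (2/δ)^8`; pigeonhole over `q`
(`Finset.exists_le_card_fiber_of_mul_le_card_of_maps_to` or a sum over fibres). -/
theorem pairs_common : ∃ C : ℝ, 1 ≤ C ∧ ∀ (δ α γ : ℝ) (M K P : ℕ), 0 < δ → δ ≤ 1 → 1 ≤ M → 1 ≤ K →
    δ * (K : ℝ) ^ 2 * M ≤ PS (fun n => e (α * (n : ℝ) ^ 2 + γ * n)) M K P →
    ∃ q : ℕ, 1 ≤ q ∧ (q : ℝ) ≤ C / δ ^ 8 ∧ ∃ G : Finset (ℕ × ℕ), G ⊆ Ioc K (2 * K) ×ˢ Ioc K (2 * K) ∧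
      δ ^ 9 / C * (K : ℝ) ^ 2 ≤ (G.card : ℝ) ∧
      ∀ p ∈ G, nn (q * (α * ((p.1 : ℝ) ^ 2 - (p.2 : ℝ) ^ 2))) ≤ C / (δ ^ 8 * (M : ℝ) ^ 2) ∧
        nn (q * (γ * ((p.1 : ℝ) - p.2))) ≤ C / (δ ^ 17 * M) := by
  obtain ⟨C₁, hC₁, hwb⟩ := weyl_both
  have hC₁0 : 0 < C₁ := by linarith only [hC₁]
  refine ⟨2 ^ 17 * C₁, by linarith only [hC₁], ?_⟩
  intro δ α γ M K P hδ hδ1 hM hK hPS
  have hM0 : (0 : ℝ) < M := by exact_mod_cast hM
  have hK0 : (0 : ℝ) < K := by exact_mod_cast hK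
  obtain ⟨T, hT⟩ : ∃ T, T = Ioc K (2 * K) ×ˢ Ioc K (2 * K) := ⟨_, rfl⟩
  have hTc : (T.card : ℝ) = (K : ℝ) ^ 2 := by
    rw [hT, Finset.card_product, Nat.card_Ioc]
    have h1 : 2 * K - K = K := by omega
    rw [h1]
    push_cast
    ring
  have hPS' : PS (fun n => e (α * (n : ℝ) ^ 2 + γ * n)) M K P = ∑ p ∈ T, v5_f α γ M P p := by
    rw [hT, Finset.sum_product]
    rfl
  rw [hPS'] at hPS
  obtain ⟨G₀, hG₀⟩ : ∃ G₀, G₀ = T.filter (fun p => δ / 2 * M ≤ v5_f α γ M P p) := ⟨_, rfl⟩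
  have hG₀T : G₀ ⊆ T := by rw [hG₀]; exact Finset.filter_subset _ _
  have hG₀c : δ / 2 * (K : ℝ) ^ 2 ≤ (G₀.card : ℝ) := by
    have h1 : ∑ p ∈ T, v5_f α γ M P p ≤ G₀.card * (M : ℝ) + (K : ℝ) ^ 2 * (δ / 2 * M) := by
      rw [← Finset.sum_filter_add_sum_filter_not T (fun p => δ / 2 * M ≤ v5_f α γ M P p),
        ← hG₀]
      refine add_le_add ?_ ?_
      · calc ∑ p ∈ G₀, v5_f α γ M P p ≤ ∑ _p ∈ G₀, (M : ℝ) :=
              Finset.sum_le_sum fun p _ => v5_f_le α γ M P p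
          _ = G₀.card * (M : ℝ) := by rw [Finset.sum_const, nsmul_eq_mul]
      · calc ∑ p ∈ T.filter (fun p => ¬ δ / 2 * M ≤ v5_f α γ M P p), v5_f α γ M P p
            ≤ ∑ _p ∈ T.filter (fun p => ¬ δ / 2 * M ≤ v5_f α γ M P p), (δ / 2 * M) :=
              Finset.sum_le_sum fun p hp => (not_le.mp (Finset.mem_filter.mp hp).2).le
          _ = ((T.filter (fun p => ¬ δ / 2 * M ≤ v5_f α γ M P p)).card : ℝ) * (δ / 2 * M) := by
              rw [Finset.sum_const, nsmul_eq_mul]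
          _ ≤ (K : ℝ) ^ 2 * (δ / 2 * M) := by
              refine mul_le_mul_of_nonneg_right ?_ (by positivity)
              rw [← hTc]
              exact_mod_cast Finset.card_le_card (Finset.filter_subset _ _)
    have h2 : δ / 2 * (K : ℝ) ^ 2 * M ≤ G₀.card * M := by
      have h3 := hPS.trans h1
      linarith only [hPS, h1]
    exact le_of_mul_le_mul_right h2 hM0
  have hex : ∀ p ∈ G₀, ∃ q : ℕ, 1 ≤ q ∧ (q : ℝ) ≤ 2 ^ 8 * C₁ / δ ^ 8 ∧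
      nn (q * (α * ((p.1 : ℝ) ^ 2 - (p.2 : ℝ) ^ 2))) ≤ 2 ^ 8 * C₁ / (δ ^ 8 * (M : ℝ) ^ 2) ∧
        nn (q * (γ * ((p.1 : ℝ) - p.2))) ≤ 2 ^ 17 * C₁ / (δ ^ 17 * M) := by
    intro p hp
    rw [hG₀, Finset.mem_filter, hT, Finset.mem_product, Finset.mem_Ioc, Finset.mem_Ioc] at hp
    obtain ⟨⟨⟨h1, _⟩, ⟨h2, _⟩⟩, h3⟩ := hp
    rw [v5_f_eq α γ M P p (by omega) (by omega)] at h3
    obtain ⟨q, hq, hq1, hq2, hq3⟩ := hwb (δ / 2) (α * ((p.1 : ℝ) ^ 2 - (p.2 : ℝ) ^ 2))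
      (γ * ((p.1 : ℝ) - p.2)) M M (min (2 * M) (min (P / p.1) (P / p.2))) (by linarith only [hδ])
      (by linarith only [hδ1]) hM (min_le_left _ _) h3
    refine ⟨q, hq, hq1.trans (le_of_eq ?_), hq2.trans (le_of_eq ?_), hq3.trans (le_of_eq ?_)⟩
    · field_simp
    · field_simp
    · field_simp
  choose! qf hqf using hex
  have hQ1 : 1 ≤ 2 ^ 8 * C₁ / δ ^ 8 := by
    rw [le_div_iff₀ (by positivity)]
    have h1 : δ ^ 8 ≤ 1 := pow_le_one₀ hδ.le hδ1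
    linarith only [hC₁, h1]
  obtain ⟨Q, hQ⟩ : ∃ Q, Q = ⌊2 ^ 8 * C₁ / δ ^ 8⌋₊ := ⟨_, rfl⟩
  have hQle : (Q : ℝ) ≤ 2 ^ 8 * C₁ / δ ^ 8 := by
    rw [hQ]
    exact Nat.floor_le (by positivity)
  have hQpos : 1 ≤ Q := by
    rw [hQ]
    exact Nat.le_floor (by exact_mod_cast hQ1)
  have hmaps : ∀ p ∈ G₀, qf p ∈ Icc 1 Q := by
    intro p hp
    rw [Finset.mem_Icc]
    refine ⟨(hqf p hp).1, ?_⟩
    rw [hQ]
    exact Nat.le_floor (hqf p hp).2.1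
  obtain ⟨q, hq, hqc⟩ := Finset.exists_le_card_fiber_of_nsmul_le_card_of_maps_to hmaps
    ⟨1, Finset.mem_Icc.mpr ⟨le_rfl, hQpos⟩⟩ (b := δ ^ 9 / (2 ^ 17 * C₁) * (K : ℝ) ^ 2) (by
      rw [Nat.card_Icc, Nat.add_sub_cancel, nsmul_eq_mul]
      refine le_trans ?_ hG₀c
      calc (Q : ℝ) * (δ ^ 9 / (2 ^ 17 * C₁) * (K : ℝ) ^ 2)
          ≤ 2 ^ 8 * C₁ / δ ^ 8 * (δ ^ 9 / (2 ^ 17 * C₁) * (K : ℝ) ^ 2) :=
            mul_le_mul_of_nonneg_right hQle (by positivity)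
        _ = δ / 2 ^ 9 * (K : ℝ) ^ 2 := by
            field_simp
        _ ≤ δ / 2 * (K : ℝ) ^ 2 := by
            refine mul_le_mul_of_nonneg_right ?_ (by positivity)
            rw [div_le_div_iff₀ (by norm_num) (by norm_num)]
            nlinarith only [hδ])
  rw [Finset.mem_Icc] at hq
  have h817 : 2 ^ 8 * C₁ ≤ 2 ^ 17 * C₁ := by linarith only [hC₁]
  refine ⟨q, hq.1, ?_, G₀.filter (fun p => qf p = q), ?_, hqc, ?_⟩
  · have h1 : (q : ℝ) ≤ Q := by exact_mod_cast hq.2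
    exact (h1.trans hQle).trans (div_le_div_of_nonneg_right h817 (by positivity))
  · rw [← hT]
    exact (Finset.filter_subset _ _).trans hG₀T
  · intro p hp
    rw [Finset.mem_filter] at hp
    obtain ⟨hp1, hp2⟩ := hp
    have h1 := hqf p hp1
    rw [hp2] at h1
    exact ⟨h1.2.2.1.trans (div_le_div_of_nonneg_right h817 (by positivity)), h1.2.2.2⟩

end Pool.Agent.Lib.MP_d9bc60_nt.UV
end

section
/-! Row V6 (about 180 lines): type II case, the coefficient of `k² - k'²`. -/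

set_option autoImplicit false

namespace Pool.Agent.Lib.MP_d9bc60_nt.UV

open Finset

/-- difference of the components -/
def v6_d (p : ℕ × ℕ) : ℤ := (p.1 : ℤ) - p.2

theorem v6_d_mem {K : ℕ} {G : Finset (ℕ × ℕ)} (hG : G ⊆ Ioc K (2 * K) ×ˢ Ioc K (2 * K))
    {p : ℕ × ℕ} (hp : p ∈ G) : v6_d p ∈ Icc (-(K : ℤ)) (-(K : ℤ) + ((2 * K : ℕ) : ℤ)) := by
  have := hG hp
  rw [mem_product, mem_Ioc, mem_Ioc] at this
  rw [mem_Icc]
  unfold v6_d
  push_cast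
  omega

theorem v6_fiber {K : ℕ} {G : Finset (ℕ × ℕ)} (hG : G ⊆ Ioc K (2 * K) ×ˢ Ioc K (2 * K))
    (h : ℤ) : (G.filter (fun p => v6_d p = h)).card ≤ K := by
  have h1 : (G.filter (fun p => v6_d p = h)).card ≤ (Ioc K (2 * K)).card := by
    apply Finset.card_le_card_of_injOn Prod.fst
    · intro p hp
      rw [mem_coe, mem_filter] at hp
      exact (mem_product.mp (hG hp.1)).1
    · intro p hp p' hp' he
      rw [mem_coe, mem_filter] at hp hp'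
      have h2 := hp.2
      have h3 := hp'.2
      unfold v6_d at h2 h3
      refine Prod.ext he ?_
      have he' : (p.1 : ℤ) = p'.1 := by exact_mod_cast he
      omega
  refine h1.trans (le_of_eq ?_)
  rw [Nat.card_Ioc]
  omega

/-- Proof. For `h ∈ [-K, K]` let `n_h = #{p ∈ G : p.1 - p.2 = h} ≤ K`. The diagonal has at most
`K ≤ κK²/4` elements, so `∑_{h ≠ 0} n_h ≥ (3/4) κK²`, and the set `H` of `h ≠ 0` with
`n_h ≥ κK/8` has `#H ≥ κK/4` (the others contribute `≤ 2K·κK/8`). For `h ∈ H` the sums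
`s = p.1 + p.2` are distinct integers of `[2K, 4K]`, and `nn(αhs) ≤ ε`: `count_nn` with `N = 2K`,
`δ = κ/16` gives `q₂(h) ≤ 1600/κ`, `nn(q₂ α h) ≤ 800 ε/(κK)`. Pigeonhole: one `q₂` serves
`≥ κ²K/6400` of the `h`. `count_nn` for these `h` in `[-K, K]` (`N = 2K`, `δ = κ²/12800`,
`ε` replaced by `800ε/(κK)`) gives `q₃ ≤ 1280000/κ²`,
`nn(q₃ q₂ α) ≤ 10^9 ε/(κ³K²)`. Take `q = q₂ q₃`, `C = 10^10`. -/
theorem alpha_part : ∃ C : ℝ, 1 ≤ C ∧ ∀ (κ α ε : ℝ) (K : ℕ) (G : Finset (ℕ × ℕ)), 0 < κ → κ ≤ 1 →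
    G ⊆ Ioc K (2 * K) ×ˢ Ioc K (2 * K) → κ * (K : ℝ) ^ 2 ≤ (G.card : ℝ) →
    (∀ p ∈ G, nn (α * ((p.1 : ℝ) ^ 2 - (p.2 : ℝ) ^ 2)) ≤ ε) → 0 ≤ ε → ε ≤ κ ^ 2 / C →
    C / κ ^ 2 ≤ K →
    ∃ q : ℕ, 1 ≤ q ∧ (q : ℝ) ≤ C / κ ^ 3 ∧ nn (q * α) ≤ C * ε / (κ ^ 3 * (K : ℝ) ^ 2) := by
  refine ⟨10 ^ 10, by norm_num, ?_⟩
  intro κ α ε K G hκ hκ1 hG hcard hnn hε0 hε hK
  have hκ2 : κ ^ 2 ≤ κ := by nlinarith only [hκ, hκ1]
  have hK2 : (10 : ℝ) ^ 10 ≤ κ ^ 2 * K := by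
    rw [div_le_iff₀ (by positivity)] at hK
    linarith only [hK]
  have hε2 : (10 : ℝ) ^ 10 * ε ≤ κ ^ 2 := by
    rw [le_div_iff₀ (by norm_num)] at hε
    linarith only [hε]
  have hK0 : (0 : ℝ) ≤ K := Nat.cast_nonneg K
  have hK1 : (10 : ℝ) ^ 10 ≤ κ * K := hK2.trans (mul_le_mul_of_nonneg_right hκ2 hK0)
  have hKpos : (10 : ℝ) ^ 10 ≤ K := by nlinarith only [hK1, hκ1]
  have hKpos' : (0 : ℝ) < K := by linarith only [hKpos]
  -- the set H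
  set n : ℤ → ℕ := fun h => (G.filter (fun p => v6_d p = h)).card with hn
  set I : Finset ℤ := Icc (-(K : ℤ)) (-(K : ℤ) + ((2 * K : ℕ) : ℤ)) with hI
  have hsum : G.card = ∑ h ∈ I, n h :=
    Finset.card_eq_sum_card_fiberwise (fun p hp => v6_d_mem hG hp)
  set H : Finset ℤ := I.filter (fun h => h ≠ 0 ∧ κ * K / 8 ≤ (n h : ℝ)) with hH
  have hIcard : (I.card : ℝ) = 2 * K + 1 := by
    have h1 : I.card = 2 * K + 1 := by
      rw [hI, Int.card_Icc]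
      push_cast
      omega
    rw [h1]
    push_cast
    ring
  have hHcard : κ * K / 4 ≤ (H.card : ℝ) := by
    have h1 : ∀ h ∈ I, (n h : ℝ) ≤ (if h = 0 then (K : ℝ) else 0) +
        (if h ∈ H then (K : ℝ) else 0) + κ * K / 8 := by
      intro h hh
      have h2 : (n h : ℝ) ≤ K := by exact_mod_cast v6_fiber hG h
      have h3 : 0 ≤ κ * K / 8 := by positivity
      by_cases ha : h = 0
      · rw [if_pos ha]
        have h4 : (0 : ℝ) ≤ (if h ∈ H then (K : ℝ) else 0) := by split_ifs <;> positivity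
        linarith only [hK1, h2, h4]
      · rw [if_neg ha]
        by_cases hb : h ∈ H
        · rw [if_pos hb]
          linarith only [hK1, h2]
        · rw [if_neg hb]
          have h5 : ¬ (κ * K / 8 ≤ (n h : ℝ)) := by
            intro hc
            exact hb (mem_filter.mpr ⟨hh, ha, hc⟩)
          linarith only [h5]
    have h2 : (G.card : ℝ) ≤ K + H.card * K + (2 * K + 1) * (κ * K / 8) := by
      rw [hsum]
      push_cast
      refine (Finset.sum_le_sum h1).trans ?_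
      rw [sum_add_distrib, sum_add_distrib, sum_const, nsmul_eq_mul, hIcard]
      have h3 : ∑ h ∈ I, (if h = 0 then (K : ℝ) else 0) ≤ K := by
        rw [Finset.sum_ite_eq' I (0 : ℤ) (fun _ => (K : ℝ))]
        split_ifs
        · exact le_refl _
        · exact hK0
      have h4 : ∑ h ∈ I, (if h ∈ H then (K : ℝ) else 0) = H.card * K := by
        rw [← Finset.sum_filter, sum_const, nsmul_eq_mul]
        congr 2
        congr 1
        rw [hH]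
        ext x
        simp only [mem_filter]
        tauto
      rw [h4]
      linarith only [h3]
    have h6 : κ * (K : ℝ) ^ 2 ≤ K + H.card * K + (2 * K + 1) * (κ * K / 8) := hcard.trans h2
    have h7 : κ * K * K ≤ (1 + H.card + (2 * K + 1) * (κ / 8)) * K := by linarith only [hcard, h2]
    have h8 := le_of_mul_le_mul_right h7 hKpos'
    have h9 : κ ≤ κ * K := by nlinarith only [hκ1, hK1]
    nlinarith only [hκ1, hK1, h8]
  -- first application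
  have hq2 : ∀ h ∈ H, ∃ q : ℕ, 1 ≤ q ∧ (q : ℝ) ≤ 1600 / κ ∧
      nn (q * α * h) ≤ 800 * ε / (κ * K) := by
    intro h hh
    rw [hH, mem_filter] at hh
    obtain ⟨hhI, hh0, hhn⟩ := hh
    set S : Finset ℤ := (G.filter (fun p => v6_d p = h)).image
      (fun p => ((p.1 : ℤ) + p.2)) with hS
    have hScard : S.card = n h := by
      rw [hS, hn]
      apply Finset.card_image_of_injOn
      intro p hp p' hp' he
      rw [mem_coe, mem_filter] at hp hp'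
      have h2 := hp.2
      have h3 := hp'.2
      unfold v6_d at h2 h3
      simp only at he
      refine Prod.ext ?_ ?_
      · omega
      · omega
    obtain ⟨q, hq1, hq2, hq3⟩ := count_nn (2 * K) (2 * K : ℤ) S (by
        intro x hx
        rw [hS, mem_image] at hx
        obtain ⟨p, hp, rfl⟩ := hx
        have := hG (mem_filter.mp hp).1
        rw [mem_product, mem_Ioc, mem_Ioc] at this
        rw [mem_Icc]
        push_cast
        omega) (α * h) ε (κ / 16) (by positivity) (by linarith only [hκ1]) (by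
        rw [hScard]
        push_cast
        linarith only [hhn]) (by
        intro x hx
        rw [hS, mem_image] at hx
        obtain ⟨p, hp, rfl⟩ := hx
        rw [mem_filter] at hp
        have h4 := hnn p hp.1
        have h5 : α * ((p.1 : ℝ) ^ 2 - (p.2 : ℝ) ^ 2) =
            α * (h : ℝ) * (((p.1 : ℤ) + p.2 : ℤ) : ℝ) := by
          rw [← hp.2]
          unfold v6_d
          push_cast
          ring
        rwa [h5] at h4) (by nlinarith only [hκ, hε, hκ2]) (by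
        rw [div_le_iff₀ (by positivity)]
        push_cast
        linarith only [hK1])
    refine ⟨q, hq1, ?_, ?_⟩
    · refine hq2.trans (le_of_eq ?_)
      field_simp
      norm_num
    · have h5 : (q : ℝ) * (α * h) = q * α * h := by ring
      rw [h5] at hq3
      refine hq3.trans (le_of_eq ?_)
      push_cast
      field_simp
      ring
  choose! q₂ hq₂a hq₂b hq₂c using hq2
  -- pigeonhole
  set M : ℕ := ⌊1600 / κ⌋₊ with hM
  have hMle : (M : ℝ) ≤ 1600 / κ := Nat.floor_le (by positivity)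
  have hmaps : ∀ h ∈ H, q₂ h ∈ Icc 1 M := by
    intro h hh
    rw [mem_Icc]
    exact ⟨hq₂a h hh, Nat.le_floor (hq₂b h hh)⟩
  have hMpos : 0 < M := by
    have : (1 : ℕ) ≤ M := Nat.le_floor (by
      rw [le_div_iff₀ hκ]
      push_cast
      linarith only [hκ1])
    omega
  obtain ⟨q, hq, hqc⟩ : ∃ q ∈ Icc 1 M, (H.card : ℝ) ≤
      M * ((H.filter (fun h => q₂ h = q)).card : ℝ) := by
    by_contra hcon
    push Not at hcon
    have h1 : (H.card : ℝ) = ∑ q ∈ Icc 1 M, ((H.filter (fun h => q₂ h = q)).card : ℝ) := by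
      have := Finset.card_eq_sum_card_fiberwise (s := H) (t := Icc 1 M) (f := q₂)
        (fun h hh => hmaps h hh)
      exact_mod_cast this
    have h2 : M * (H.card : ℝ) < M * (H.card : ℝ) := by
      calc M * (H.card : ℝ) = ∑ q ∈ Icc 1 M, (M : ℝ) * ((H.filter (fun h => q₂ h = q)).card : ℝ) := by
            rw [← Finset.mul_sum, ← h1]
        _ < ∑ q ∈ Icc 1 M, (H.card : ℝ) := by
            apply Finset.sum_lt_sum_of_nonempty
            · exact ⟨1, mem_Icc.mpr ⟨le_refl _, hMpos⟩⟩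
            · intro q hq
              exact hcon q hq
        _ = M * (H.card : ℝ) := by
            rw [sum_const, nsmul_eq_mul, Nat.card_Icc]
            simp
    exact lt_irrefl _ h2
  set S : Finset ℤ := H.filter (fun h => q₂ h = q) with hS
  have hSH : ∀ h ∈ S, h ∈ H ∧ q₂ h = q := fun h hh => mem_filter.mp hh
  have hScard : κ ^ 2 / 12800 * ((2 * K : ℕ) : ℝ) ≤ (S.card : ℝ) := by
    have h1 : κ * K / 4 ≤ 1600 / κ * (S.card : ℝ) :=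
      hHcard.trans (hqc.trans (mul_le_mul_of_nonneg_right hMle (Nat.cast_nonneg _)))
    have h2 : κ * K / 4 * κ ≤ 1600 * (S.card : ℝ) := by
      have h3 := mul_le_mul_of_nonneg_right h1 hκ.le
      have h4 : 1600 / κ * (S.card : ℝ) * κ = 1600 * (S.card : ℝ) := by
        rw [mul_right_comm, div_mul_cancel₀ _ hκ.ne']
      rwa [h4] at h3
    push_cast
    linarith only [h2]
  set ε' : ℝ := 800 * ε / (κ * K) with hε'
  have hε'le : ε' ≤ κ ^ 2 / 12800 / 100 := by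
    rw [hε', div_le_iff₀ (by positivity)]
    have h1 : κ ^ 2 * 10 ^ 10 ≤ κ ^ 2 * (κ * K) := mul_le_mul_of_nonneg_left hK1 (by positivity)
    linarith only [hε, h1, sq_nonneg κ]
  obtain ⟨q₃, hq₃a, hq₃b, hq₃c⟩ := count_nn (2 * K) (-(K : ℤ)) S (by
      intro h hh
      exact (mem_filter.mp (hSH h hh).1).1) (q * α) ε' (κ ^ 2 / 12800) (by positivity)
      (by linarith only [hκ1, hκ2]) hScard (by
      intro h hh
      have h1 := hq₂c h (hSH h hh).1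
      rw [(hSH h hh).2] at h1
      exact h1) hε'le (by
      rw [div_le_iff₀ (by positivity)]
      push_cast
      linarith only [hK2])
  have hqb : (q : ℝ) ≤ 1600 / κ := by
    refine le_trans ?_ hMle
    exact_mod_cast (mem_Icc.mp hq).2
  refine ⟨q₃ * q, Nat.one_le_iff_ne_zero.mpr (by
    have := (mem_Icc.mp hq).1
    positivity), ?_, ?_⟩
  · push_cast
    calc (q₃ : ℝ) * q ≤ (100 / (κ ^ 2 / 12800)) * (1600 / κ) :=
          mul_le_mul hq₃b hqb (Nat.cast_nonneg _) (by positivity)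
      _ = 2048000000 / κ ^ 3 := by
          field_simp
          norm_num
      _ ≤ 10 ^ 10 / κ ^ 3 := by
          apply div_le_div_of_nonneg_right _ (by positivity)
          norm_num
  · push_cast
    rw [mul_assoc]
    refine hq₃c.trans ?_
    rw [hε']
    push_cast
    have h1 : 100 * (800 * ε / (κ * K)) / (κ ^ 2 / 12800 * (2 * K)) =
        512000000 * ε / (κ ^ 3 * (K : ℝ) ^ 2) := by
      field_simp
      ring
    rw [h1]
    apply div_le_div_of_nonneg_right _ (by positivity)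
    linarith only [hε0]

/-- Proof. At least `κK` integers `h ∈ [-K,K]` are of the form `p.1 - p.2`, `p ∈ G` (each has at most
`K` such `p`). `count_nn` with `N = 2K`, `δ = κ/2`. -/
theorem gamma_part : ∃ C : ℝ, 1 ≤ C ∧ ∀ (κ γ ε : ℝ) (K : ℕ) (G : Finset (ℕ × ℕ)), 0 < κ → κ ≤ 1 →
    G ⊆ Ioc K (2 * K) ×ˢ Ioc K (2 * K) → κ * (K : ℝ) ^ 2 ≤ (G.card : ℝ) →
    (∀ p ∈ G, nn (γ * ((p.1 : ℝ) - p.2)) ≤ ε) → 0 ≤ ε → ε ≤ κ / C → C / κ ≤ K →
    ∃ q : ℕ, 1 ≤ q ∧ (q : ℝ) ≤ C / κ ∧ nn (q * γ) ≤ C * ε / (κ * K) := by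
  refine ⟨200, by norm_num, ?_⟩
  intro κ γ ε K G hκ hκ1 hG hcard hnn hε0 hε hK
  have hK1 : 200 ≤ κ * K := by
    rw [div_le_iff₀ hκ] at hK
    linarith only [hK]
  have hK0 : (0 : ℝ) ≤ K := Nat.cast_nonneg K
  have hKpos : (0 : ℝ) < K := by nlinarith only [hK1, hκ1]
  have h1 : G.card ≤ K * (G.image v6_d).card := by
    apply Finset.card_le_mul_card_image
    intro h _
    exact v6_fiber hG h
  have h2 : κ * K ≤ ((G.image v6_d).card : ℝ) := by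
    have h3 : (G.card : ℝ) ≤ K * ((G.image v6_d).card : ℝ) := by exact_mod_cast h1
    have h4 : κ * K * K ≤ ((G.image v6_d).card : ℝ) * K := by linarith only [hcard, h3]
    exact le_of_mul_le_mul_right h4 hKpos
  obtain ⟨q, hq1, hq2, hq3⟩ := count_nn (2 * K) (-(K : ℤ)) (G.image v6_d) (by
      intro x hx
      obtain ⟨p, hp, rfl⟩ := mem_image.mp hx
      exact v6_d_mem hG hp) γ ε (κ / 2) (by positivity) (by linarith only [hκ1]) (by
      push_cast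
      linarith only [h2]) (by
      intro x hx
      obtain ⟨p, hp, rfl⟩ := mem_image.mp hx
      have h5 := hnn p hp
      have h6 : ((v6_d p : ℤ) : ℝ) = (p.1 : ℝ) - p.2 := by
        unfold v6_d
        push_cast
        ring
      rwa [h6]) (by linarith only [hε]) (by
      rw [div_le_iff₀ (by positivity)]
      push_cast
      linarith only [hK1])
  refine ⟨q, hq1, ?_, ?_⟩
  · refine hq2.trans (le_of_eq ?_)
    field_simp
    norm_num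
  · refine hq3.trans ?_
    push_cast
    have h7 : 100 * ε / (κ / 2 * (2 * K)) = 100 * ε / (κ * K) := by
      congr 1
      ring
    rw [h7]
    apply div_le_div_of_nonneg_right _ (by positivity)
    linarith only [hε0]

end Pool.Agent.Lib.MP_d9bc60_nt.UV
end

section
/-! Row V7 (about 160 lines): the type II case of the quadratic Vinogradov estimate. -/

set_option autoImplicit false

namespace Pool.Agent.Lib.MP_d9bc60_nt.UV

open Finset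

/-- the trivial bound -/
theorem v7_PS_le (φ : ℕ → ℂ) (hφ : ∀ n, ‖φ n‖ ≤ 1) (M K N : ℕ) :
    PS φ M K N ≤ (K : ℝ) ^ 2 * M := by
  have h1 : ∀ k k' : ℕ, ‖∑ m ∈ (Ioc M (2 * M)).filter (fun m => m * k ≤ N ∧ m * k' ≤ N),
      φ (m * k) * (starRingEnd ℂ) (φ (m * k'))‖ ≤ M := by
    intro k k'
    calc ‖∑ m ∈ (Ioc M (2 * M)).filter (fun m => m * k ≤ N ∧ m * k' ≤ N),
        φ (m * k) * (starRingEnd ℂ) (φ (m * k'))‖
        ≤ ∑ m ∈ (Ioc M (2 * M)).filter (fun m => m * k ≤ N ∧ m * k' ≤ N), (1 : ℝ) := by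
          refine norm_sum_le_of_le _ fun m _ => ?_
          rw [norm_mul, RCLike.norm_conj]
          exact mul_le_one₀ (hφ _) (norm_nonneg _) (hφ _)
      _ ≤ ∑ m ∈ Ioc M (2 * M), (1 : ℝ) :=
          Finset.sum_le_sum_of_subset_of_nonneg (Finset.filter_subset _ _)
            fun _ _ _ => zero_le_one
      _ = M := by
          rw [Finset.sum_const, Nat.card_Ioc, nsmul_eq_mul, mul_one]
          congr 1
          omega
  unfold PS
  calc ∑ k ∈ Ioc K (2 * K), ∑ k' ∈ Ioc K (2 * K),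
      ‖∑ m ∈ (Ioc M (2 * M)).filter (fun m => m * k ≤ N ∧ m * k' ≤ N),
        φ (m * k) * (starRingEnd ℂ) (φ (m * k'))‖
      ≤ ∑ _k ∈ Ioc K (2 * K), ∑ _k' ∈ Ioc K (2 * K), (M : ℝ) :=
        Finset.sum_le_sum fun k _ => Finset.sum_le_sum fun k' _ => h1 k k'
    _ = (K : ℝ) ^ 2 * M := by
        have h2 : 2 * K - K = K := by omega
        rw [Finset.sum_const, Finset.sum_const, Nat.card_Ioc, h2, nsmul_eq_mul, nsmul_eq_mul]
        ring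

/-- Proof. `L = log P`, `δ = L^(-A)`. As `M K ≤ P`, the hypothesis gives
`PS ≥ (MK)²/(M L^A) = δ K² M`; and `PS ≤ K² M` (each inner sum has at most `M` terms of norm 1), so
`(MK)² ≥ P²/L^A`. `pairs_common`: `q₁ ≤ C₁/δ^8`, `G` with density `κ = δ^9/C₁`, bounds
`ε₁ = C₁/(δ^8 M²)`, `ε₂ = C₁/(δ^17 M)`. As `M, K ≥ L^C₀` with `C₀` large, `alpha_part` applies
to `q₁α`, and `gamma_part` to `q₁γ`: `q₂ ≤ C₂/κ³`, `nn(q₂q₁α) ≤ C₂ε₁/(κ³K²)`; `q₃ ≤ C₃/κ`,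
`nn(q₃q₁γ) ≤ C₃ε₂/(κK)`. Take `q = q₁q₂q₃`: everything is a power of `L` over `(MK)²`, resp.
`MK`, and `MK ≥ P/L^A`. -/
theorem vq_typeII (A : ℕ) : ∃ C C₀ P₀ : ℕ, ∀ P : ℕ, P₀ ≤ P → ∀ (α γ : ℝ) (M K : ℕ),
    Real.log P ^ C₀ ≤ M → Real.log P ^ C₀ ≤ K → M * K ≤ P →
    (P : ℝ) ^ 2 / (M * Real.log P ^ A) ≤ PS (fun n => e (α * (n : ℝ) ^ 2 + γ * n)) M K P →
    Conc C P α γ := by
  obtain ⟨C₁, hC₁, hpc⟩ := pairs_common
  obtain ⟨C₂, hC₂, hap⟩ := alpha_part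
  obtain ⟨C₃, hC₃, hgp⟩ := gamma_part
  obtain ⟨B, hB⟩ : ∃ B, B = C₁ ^ 5 * C₂ * C₃ := ⟨_, rfl⟩
  have hC₁0 : 0 < C₁ := by linarith only [hC₁]
  have hC₂0 : 0 < C₂ := by linarith only [hC₂]
  have hC₃0 : 0 < C₃ := by linarith only [hC₃]
  refine ⟨54 * A + 1, 26 * A + 1, ⌈Real.exp B⌉₊, ?_⟩
  intro P hP α γ M K hM hK hMK hPS
  have hP1 : Real.exp B ≤ P := (Nat.le_ceil _).trans (by exact_mod_cast hP)
  have hP0 : (0 : ℝ) < P := (Real.exp_pos B).trans_le hP1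
  obtain ⟨L, hL⟩ : ∃ L, L = Real.log P := ⟨_, rfl⟩
  rw [← hL] at hM hK hPS
  have hBL : B ≤ L := by
    rw [hL, Real.le_log_iff_exp_le hP0]
    exact hP1
  have hB1 : 1 ≤ B := by
    rw [hB]
    have h1 : 1 ≤ C₁ ^ 5 := one_le_pow₀ hC₁
    have h2 : 1 ≤ C₁ ^ 5 * C₂ := one_le_mul_of_one_le_of_one_le h1 hC₂
    exact one_le_mul_of_one_le_of_one_le h2 hC₃
  have hL1 : 1 ≤ L := hB1.trans hBL
  have hL0 : 0 < L := by linarith only [hBL, hB1]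
  have hpow : ∀ a b : ℕ, a ≤ b → L ^ a ≤ L ^ b := fun a b hab => pow_le_pow_right₀ hL1 hab
  have hLp : ∀ a : ℕ, 0 < L ^ a := fun a => pow_pos hL0 a
  have hLp1 : ∀ a : ℕ, 1 ≤ L ^ a := fun a => one_le_pow₀ hL1
  have hM1' : (1 : ℝ) ≤ M := (hLp1 _).trans hM
  have hK1' : (1 : ℝ) ≤ K := (hLp1 _).trans hK
  have hM1 : 1 ≤ M := by exact_mod_cast hM1'
  have hK1 : 1 ≤ K := by exact_mod_cast hK1'
  have hM0 : (0 : ℝ) < M := by linarith only [hM1']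
  have hK0 : (0 : ℝ) < K := by linarith only [hK1']
  have hMKP : (M : ℝ) * K ≤ P := by exact_mod_cast hMK
  -- B times a power of L
  have hBM : ∀ a : ℕ, a ≤ 26 * A → B * L ^ a ≤ M := by
    intro a ha
    calc B * L ^ a ≤ L * L ^ (26 * A) := mul_le_mul hBL (hpow _ _ ha) (hLp _).le hL0.le
      _ = L ^ (26 * A + 1) := by ring
      _ ≤ M := hM
  have hBK : ∀ a : ℕ, a ≤ 26 * A → B * L ^ a ≤ K := by
    intro a ha
    calc B * L ^ a ≤ L * L ^ (26 * A) := mul_le_mul hBL (hpow _ _ ha) (hLp _).le hL0.le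
      _ = L ^ (26 * A + 1) := by ring
      _ ≤ K := hK
  -- constants are at most B
  have hcB : ∀ i : ℕ, i ≤ 5 → C₁ ^ i * C₂ * C₃ ≤ B := by
    intro i hi
    rw [hB]
    have h1 : C₁ ^ i ≤ C₁ ^ 5 := pow_le_pow_right₀ hC₁ hi
    exact mul_le_mul_of_nonneg_right (mul_le_mul_of_nonneg_right h1 hC₂0.le) hC₃0.le
  have hc2 : ∀ i : ℕ, i ≤ 5 → C₁ ^ i * C₂ ≤ B := by
    intro i hi
    refine le_trans ?_ (hcB i hi)
    exact le_mul_of_one_le_right (by positivity) hC₃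
  have hc3 : ∀ i : ℕ, i ≤ 5 → C₁ ^ i * C₃ ≤ B := by
    intro i hi
    refine le_trans ?_ (hcB i hi)
    exact mul_le_mul_of_nonneg_right (le_mul_of_one_le_right (by positivity) hC₂) hC₃0.le
  obtain ⟨δ, hδ⟩ : ∃ δ, δ = (L ^ A)⁻¹ := ⟨_, rfl⟩
  have hδ0 : 0 < δ := by rw [hδ]; exact inv_pos.mpr (hLp A)
  have hδ1 : δ ≤ 1 := by rw [hδ]; exact inv_le_one_of_one_le₀ (hLp1 A)
  have hδL : ∀ j : ℕ, δ ^ j = (L ^ (j * A))⁻¹ := by
    intro j
    rw [hδ, inv_pow, ← pow_mul, mul_comm]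
  have hPSle : PS (fun n => e (α * (n : ℝ) ^ 2 + γ * n)) M K P ≤ (K : ℝ) ^ 2 * M :=
    v7_PS_le _ (fun n => (norm_e _).le) M K P
  have hbig : (P : ℝ) ^ 2 ≤ L ^ A * ((M : ℝ) * K) ^ 2 := by
    have h1 := hPS.trans hPSle
    rw [div_le_iff₀ (mul_pos hM0 (hLp A))] at h1
    calc (P : ℝ) ^ 2 ≤ (K : ℝ) ^ 2 * M * (M * L ^ A) := h1
      _ = L ^ A * ((M : ℝ) * K) ^ 2 := by ring
  have hbig2 : (P : ℝ) ≤ L ^ A * ((M : ℝ) * K) := by
    have h1 : (P : ℝ) ^ 2 ≤ (L ^ A * ((M : ℝ) * K)) ^ 2 := by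
      calc (P : ℝ) ^ 2 ≤ L ^ A * ((M : ℝ) * K) ^ 2 := hbig
        _ ≤ (L ^ A) ^ 2 * ((M : ℝ) * K) ^ 2 := by
            refine mul_le_mul_of_nonneg_right ?_ (sq_nonneg _)
            exact le_self_pow₀ (hLp1 A) two_ne_zero
        _ = (L ^ A * ((M : ℝ) * K)) ^ 2 := by ring
    exact (sq_le_sq₀ hP0.le (by positivity)).mp h1
  have hPSge : δ * (K : ℝ) ^ 2 * M ≤ PS (fun n => e (α * (n : ℝ) ^ 2 + γ * n)) M K P := by
    refine le_trans ?_ hPS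
    rw [le_div_iff₀ (mul_pos hM0 (hLp A)), hδ]
    calc (L ^ A)⁻¹ * (K : ℝ) ^ 2 * M * (M * L ^ A) = ((M : ℝ) * K) ^ 2 := by
          field_simp
      _ ≤ (P : ℝ) ^ 2 := pow_le_pow_left₀ (by positivity) hMKP 2
  obtain ⟨q₁, hq₁, hq₁le, G, hG, hGc, hGp⟩ := hpc δ α γ M K P hδ0 hδ1 hM1 hK1 hPSge
  obtain ⟨κ, hκ⟩ : ∃ κ, κ = δ ^ 9 / C₁ := ⟨_, rfl⟩
  have hκ' : κ = (C₁ * L ^ (9 * A))⁻¹ := by
    rw [hκ, hδL, mul_inv, div_eq_mul_inv, mul_comm]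
  have hκ0 : 0 < κ := by rw [hκ']; positivity
  have hκ1 : κ ≤ 1 := by
    rw [hκ']
    exact inv_le_one_of_one_le₀ (one_le_mul_of_one_le_of_one_le hC₁ (hLp1 _))
  rw [← hκ] at hGc
  -- the coefficient of the square
  have hε₁ : C₁ / (δ ^ 8 * (M : ℝ) ^ 2) = C₁ * L ^ (8 * A) / (M : ℝ) ^ 2 := by
    rw [hδL]
    field_simp
  have hε₂ : C₁ / (δ ^ 17 * (M : ℝ)) = C₁ * L ^ (17 * A) / (M : ℝ) := by
    rw [hδL]
    field_simp
  rw [hε₁, hε₂] at hGp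
  have hMM : (M : ℝ) ≤ (M : ℝ) ^ 2 := le_self_pow₀ hM1' two_ne_zero
  obtain ⟨q₂, hq₂, hq₂le, hq₂n⟩ := hap κ (q₁ * α) (C₁ * L ^ (8 * A) / (M : ℝ) ^ 2) K G hκ0 hκ1 hG
    hGc (fun p hp => by
      have h1 := (hGp p hp).1
      rwa [← mul_assoc] at h1) (by positivity) (by
      rw [hκ', div_le_div_iff₀ (by positivity) hC₂0, inv_pow]
      rw [← div_eq_inv_mul, le_div_iff₀ (by positivity)]
      calc C₁ * L ^ (8 * A) * C₂ * (C₁ * L ^ (9 * A)) ^ 2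
          = (C₁ ^ 3 * C₂) * L ^ (26 * A) := by ring
        _ ≤ B * L ^ (26 * A) := mul_le_mul_of_nonneg_right (hc2 3 (by norm_num)) (hLp _).le
        _ ≤ M := hBM _ le_rfl
        _ ≤ (M : ℝ) ^ 2 := hMM) (by
      rw [hκ', inv_pow, div_inv_eq_mul]
      calc C₂ * (C₁ * L ^ (9 * A)) ^ 2 = (C₁ ^ 2 * C₂) * L ^ (18 * A) := by ring
        _ ≤ B * L ^ (18 * A) := mul_le_mul_of_nonneg_right (hc2 2 (by norm_num)) (hLp _).le
        _ ≤ K := hBK _ (by omega))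
  obtain ⟨q₃, hq₃, hq₃le, hq₃n⟩ := hgp κ (q₁ * γ) (C₁ * L ^ (17 * A) / (M : ℝ)) K G hκ0 hκ1 hG
    hGc (fun p hp => by
      have h1 := (hGp p hp).2
      rwa [← mul_assoc] at h1) (by positivity) (by
      rw [hκ', div_le_div_iff₀ (by positivity) hC₃0]
      rw [← div_eq_inv_mul, le_div_iff₀ (by positivity)]
      calc C₁ * L ^ (17 * A) * C₃ * (C₁ * L ^ (9 * A))
          = (C₁ ^ 2 * C₃) * L ^ (26 * A) := by ring
        _ ≤ B * L ^ (26 * A) := mul_le_mul_of_nonneg_right (hc3 2 (by norm_num)) (hLp _).le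
        _ ≤ M := hBM _ le_rfl) (by
      rw [hκ', div_inv_eq_mul]
      calc C₃ * (C₁ * L ^ (9 * A)) = (C₁ ^ 1 * C₃) * L ^ (9 * A) := by ring
        _ ≤ B * L ^ (9 * A) := mul_le_mul_of_nonneg_right (hc3 1 (by norm_num)) (hLp _).le
        _ ≤ K := hBK _ (by omega))
  have hq₁le' : (q₁ : ℝ) ≤ C₁ * L ^ (8 * A) := by
    rw [hδL, div_inv_eq_mul] at hq₁le
    exact hq₁le
  have hq₂le' : (q₂ : ℝ) ≤ C₁ ^ 3 * C₂ * L ^ (27 * A) := by
    rw [hκ', inv_pow, div_inv_eq_mul] at hq₂le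
    refine hq₂le.trans (le_of_eq ?_)
    ring
  have hq₃le' : (q₃ : ℝ) ≤ C₁ * C₃ * L ^ (9 * A) := by
    rw [hκ', div_inv_eq_mul] at hq₃le
    refine hq₃le.trans (le_of_eq ?_)
    ring
  have hfin : ∀ a : ℕ, a ≤ 54 * A → B * L ^ a ≤ L ^ (54 * A + 1) := by
    intro a ha
    calc B * L ^ a ≤ L * L ^ (54 * A) := mul_le_mul hBL (hpow _ _ ha) (hLp _).le hL0.le
      _ = L ^ (54 * A + 1) := by ring
  refine ⟨q₁ * q₂ * q₃, ?_, ?_, ?_, ?_⟩
  · exact Nat.mul_pos (Nat.mul_pos hq₁ hq₂) hq₃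
  · rw [← hL]
    push_cast
    calc (q₁ : ℝ) * q₂ * q₃
        ≤ (C₁ * L ^ (8 * A)) * (C₁ ^ 3 * C₂ * L ^ (27 * A)) * (C₁ * C₃ * L ^ (9 * A)) := by
          refine mul_le_mul (mul_le_mul hq₁le' hq₂le' (Nat.cast_nonneg _) (by positivity)) hq₃le'
            (Nat.cast_nonneg _) (by positivity)
      _ = B * L ^ (44 * A) := by rw [hB]; ring
      _ ≤ L ^ (54 * A + 1) := hfin _ (by omega)
  · rw [← hL]
    have h1 : (((q₁ * q₂ * q₃ : ℕ) : ℝ) * α) = (q₃ : ℝ) * ((q₂ : ℝ) * (q₁ * α)) := by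
      push_cast
      ring
    rw [h1]
    have h2 : C₂ * (C₁ * L ^ (8 * A) / (M : ℝ) ^ 2) / (κ ^ 3 * (K : ℝ) ^ 2) =
        C₁ ^ 4 * C₂ * L ^ (35 * A) / ((M : ℝ) * K) ^ 2 := by
      rw [hκ', inv_pow]
      field_simp
      ring
    rw [h2] at hq₂n
    have h3 : C₁ ^ 4 * C₂ * L ^ (35 * A) / ((M : ℝ) * K) ^ 2 ≤
        C₁ ^ 4 * C₂ * L ^ (36 * A) / (P : ℝ) ^ 2 := by
      rw [div_le_div_iff₀ (by positivity) (by positivity)]
      calc C₁ ^ 4 * C₂ * L ^ (35 * A) * (P : ℝ) ^ 2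
          ≤ C₁ ^ 4 * C₂ * L ^ (35 * A) * (L ^ A * ((M : ℝ) * K) ^ 2) :=
            mul_le_mul_of_nonneg_left hbig (by positivity)
        _ = C₁ ^ 4 * C₂ * L ^ (36 * A) * ((M : ℝ) * K) ^ 2 := by ring
    calc nn ((q₃ : ℝ) * ((q₂ : ℝ) * (q₁ * α))) ≤ q₃ * nn ((q₂ : ℝ) * (q₁ * α)) := nn_nat_mul _ _
      _ ≤ (C₁ * C₃ * L ^ (9 * A)) * (C₁ ^ 4 * C₂ * L ^ (36 * A) / (P : ℝ) ^ 2) :=
          mul_le_mul hq₃le' (hq₂n.trans h3) (nn_nonneg _) (by positivity)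
      _ = B * L ^ (45 * A) / (P : ℝ) ^ 2 := by rw [hB]; ring
      _ ≤ L ^ (54 * A + 1) / (P : ℝ) ^ 2 :=
          div_le_div_of_nonneg_right (hfin _ (by omega)) (by positivity)
  · rw [← hL]
    have h1 : (((q₁ * q₂ * q₃ : ℕ) : ℝ) * γ) = (q₂ : ℝ) * ((q₃ : ℝ) * (q₁ * γ)) := by
      push_cast
      ring
    rw [h1]
    have h2 : C₃ * (C₁ * L ^ (17 * A) / (M : ℝ)) / (κ * (K : ℝ)) =
        C₁ ^ 2 * C₃ * L ^ (26 * A) / ((M : ℝ) * K) := by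
      rw [hκ']
      field_simp
      ring
    rw [h2] at hq₃n
    have h3 : C₁ ^ 2 * C₃ * L ^ (26 * A) / ((M : ℝ) * K) ≤
        C₁ ^ 2 * C₃ * L ^ (27 * A) / (P : ℝ) := by
      rw [div_le_div_iff₀ (by positivity) (by positivity)]
      calc C₁ ^ 2 * C₃ * L ^ (26 * A) * (P : ℝ)
          ≤ C₁ ^ 2 * C₃ * L ^ (26 * A) * (L ^ A * ((M : ℝ) * K)) :=
            mul_le_mul_of_nonneg_left hbig2 (by positivity)
        _ = C₁ ^ 2 * C₃ * L ^ (27 * A) * ((M : ℝ) * K) := by ring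
    calc nn ((q₂ : ℝ) * ((q₃ : ℝ) * (q₁ * γ))) ≤ q₂ * nn ((q₃ : ℝ) * (q₁ * γ)) := nn_nat_mul _ _
      _ ≤ (C₁ ^ 3 * C₂ * L ^ (27 * A)) * (C₁ ^ 2 * C₃ * L ^ (27 * A) / (P : ℝ)) :=
          mul_le_mul hq₂le' (hq₃n.trans h3) (nn_nonneg _) (by positivity)
      _ = B * L ^ (54 * A) / (P : ℝ) := by rw [hB]; ring
      _ ≤ L ^ (54 * A + 1) / (P : ℝ) :=
          div_le_div_of_nonneg_right (hfin _ le_rfl) hP0.le

end Pool.Agent.Lib.MP_d9bc60_nt.UV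
end

section
/-! Row V8 (about 80 lines): the quadratic Vinogradov estimate. -/

set_option autoImplicit false

namespace Pool.Agent.Lib.MP_d9bc60_nt.UV

open Finset

/-- powers of the logarithm are small -/
theorem v8_event (C₀ : ℕ) : ∃ P₃ : ℕ, ∀ P : ℕ, P₃ ≤ P →
    Real.log P ^ (C₀ + 1) ≤ (P : ℝ) ^ (1 / 4 : ℝ) ∧ 2 ≤ Real.log P := by
  have h1 : ∀ᶠ x : ℝ in Filter.atTop, Real.log x ^ (C₀ + 1) ≤ x ^ (1 / 4 : ℝ) := by
    have h2 := isLittleO_log_rpow_rpow_atTop (s := (1 / 4 : ℝ)) ((C₀ + 1 : ℕ) : ℝ) (by norm_num)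
    have h3 := h2.bound (c := 1) (by norm_num)
    filter_upwards [h3, Filter.eventually_ge_atTop 1] with x hx hx1
    rw [one_mul, Real.rpow_natCast, Real.norm_eq_abs, Real.norm_eq_abs,
      abs_of_nonneg (pow_nonneg (Real.log_nonneg hx1) _), abs_of_nonneg (by positivity)] at hx
    exact hx
  have h4 : ∀ᶠ x : ℝ in Filter.atTop, 2 ≤ Real.log x :=
    Real.tendsto_log_atTop.eventually_ge_atTop 2
  have h5 : ∀ᶠ P : ℕ in Filter.atTop, Real.log P ^ (C₀ + 1) ≤ (P : ℝ) ^ (1 / 4 : ℝ) ∧ 2 ≤ Real.log P :=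
    tendsto_natCast_atTop_atTop.eventually (h1.and h4)
  exact Filter.eventually_atTop.mp h5

/-- Proof. `vq_typeII` with `2A + 13` gives `C₀`; let `V = ⌈(log P)^C₀⌉₊ ≤ P^(1/4)` for large
`P`; `dicho A` with `N = P`, this `V` and `φ n = e(αn² + γn)`. First case: `vq_typeI (A+4) (2C₀+2)`
(`d ≤ V² ≤ (log P)^(2C₀+2)`). Second case: `vq_typeII`. `Conc.mono`. -/
theorem vq (A : ℕ) : ∃ C P₀ : ℕ, ∀ P : ℕ, P₀ ≤ P → ∀ α γ : ℝ,
    (P : ℝ) / Real.log P ^ A ≤ ‖∑ n ∈ Icc 1 P, (vm n : ℂ) * e (α * (n : ℝ) ^ 2 + γ * n)‖ →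
    Conc C P α γ := by
  obtain ⟨C₂, C₀, P₂, h₂⟩ := vq_typeII (2 * A + 13)
  obtain ⟨C₁, P₁, h₁⟩ := vq_typeI (A + 4) (2 * C₀ + 2)
  obtain ⟨N₀, hd⟩ := dicho A
  obtain ⟨P₃, h₃⟩ := v8_event C₀
  refine ⟨max C₁ C₂, P₁ + P₂ + N₀ + P₃ + 3, fun P hP α γ hsum => ?_⟩
  have hP3 : 3 ≤ P := by omega
  obtain ⟨hlog, hL⟩ := h₃ P (by omega)
  have hL0 : 0 < Real.log P := by linarith only [hL]
  have hpow0 : 0 < Real.log P ^ C₀ := by positivity
  have hpow1 : 1 ≤ Real.log P ^ C₀ := one_le_pow₀ (by linarith only [hL])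
  have hV1 : 1 ≤ ⌈Real.log P ^ C₀⌉₊ := Nat.ceil_pos.mpr hpow0
  have hVge : Real.log P ^ C₀ ≤ (⌈Real.log P ^ C₀⌉₊ : ℝ) := Nat.le_ceil _
  have hVle : (⌈Real.log P ^ C₀⌉₊ : ℝ) ≤ Real.log P ^ (C₀ + 1) := by
    have h4 := Nat.ceil_lt_add_one hpow0.le
    have h5 : Real.log P ^ (C₀ + 1) = Real.log P * Real.log P ^ C₀ := by ring
    rw [h5]
    nlinarith only [hpow1, h4, hL, hpow0]
  rcases hd P (by omega) ⌈Real.log P ^ C₀⌉₊ hV1 (hVle.trans hlog)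
    (fun n => e (α * (n : ℝ) ^ 2 + γ * n)) (fun n => (norm_e _).le) hsum with
    ⟨d, hd1, t, ht, hle⟩ | ⟨M, K, hM, hK, hMK, hle⟩
  · rw [Finset.mem_Icc] at hd1
    have hd2 : (d : ℝ) ≤ Real.log P ^ (2 * C₀ + 2) := by
      have h6 : (d : ℝ) ≤ (⌈Real.log P ^ C₀⌉₊ : ℝ) * (⌈Real.log P ^ C₀⌉₊ : ℝ) := by
        exact_mod_cast hd1.2
      have h7 : Real.log P ^ (2 * C₀ + 2) = Real.log P ^ (C₀ + 1) * Real.log P ^ (C₀ + 1) := by
        rw [← pow_add]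
        congr 1
        ring
      rw [h7]
      refine h6.trans ?_
      gcongr
    exact (h₁ P (by omega) α γ d t hd1.1 hd2 ht hle).mono (le_max_left _ _) hP3
  · have hM' : Real.log P ^ C₀ ≤ (M : ℝ) := hVge.trans (by exact_mod_cast hM)
    have hK' : Real.log P ^ C₀ ≤ (K : ℝ) := hVge.trans (by exact_mod_cast hK)
    exact (h₂ P (by omega) α γ M K hM' hK' hMK hle).mono (le_max_right _ _) hP3

end Pool.Agent.Lib.MP_d9bc60_nt.UV
end
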