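import Pool.Agent.Lib.MP_d9bc60_nt.UV.PTools
import Pool.Agent.Lib.MP_d9bc60_nt.UV.PVinoB

section
/-! Row K0 (about 130 lines): Parseval. -/

set_option autoImplicit false

namespace Pool.Agent.Lib.MP_d9bc60_nt.UV

open Finset

theorem K0Parseval_cont (k : ℤ) : Continuous fun α : ℝ => e (α * k) := by
  unfold e
  fun_prop

theorem K0Parseval_int (k : ℤ) : ∫ α in (0 : ℝ)..1, e (α * k) = if k = 0 then 1 else 0 := by
  split_ifs with h
  · subst h
    simp [e_zero]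
  · have hc : (2 * Real.pi * k : ℂ) * Complex.I ≠ 0 := by
      have hpi : (Real.pi : ℂ) ≠ 0 := by exact_mod_cast Real.pi_ne_zero
      have hk : (k : ℂ) ≠ 0 := by exact_mod_cast h
      exact mul_ne_zero (mul_ne_zero (mul_ne_zero two_ne_zero hpi) hk) Complex.I_ne_zero
    have h1 : ∀ α : ℝ, e (α * k) = Complex.exp ((2 * Real.pi * k : ℂ) * Complex.I * α) := by
      intro α
      unfold e
      congr 1
      push_cast
      ring
    simp_rw [h1]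
    rw [integral_exp_mul_complex hc]
    have h2 : Complex.exp ((2 * Real.pi * k : ℂ) * Complex.I * ((1 : ℝ) : ℂ)) = 1 := by
      rw [Complex.exp_eq_one_iff]
      exact ⟨k, by push_cast; ring⟩
    rw [h2]
    simp

/-- Proof. `∫_0^1 e(mα) dα = [m = 0]`; expand. -/
theorem parseval (J : Finset ℤ) (c : ℤ → ℂ) :
    ∫ α in (0 : ℝ)..1, ‖∑ m ∈ J, c m * e (α * m)‖ ^ 2 = ∑ m ∈ J, ‖c m‖ ^ 2 := by
  have key : ((∫ α in (0 : ℝ)..1, ‖∑ m ∈ J, c m * e (α * m)‖ ^ 2 : ℝ) : ℂ)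
      = ((∑ m ∈ J, ‖c m‖ ^ 2 : ℝ) : ℂ) := by
    rw [← intervalIntegral.integral_ofReal]
    have h1 : ∀ α : ℝ, ((‖∑ m ∈ J, c m * e (α * m)‖ ^ 2 : ℝ) : ℂ) =
        ∑ m ∈ J, ∑ k ∈ J, c m * (starRingEnd ℂ) (c k) * e (α * ((m - k : ℤ) : ℝ)) := by
      intro α
      have h2 : ∀ z : ℂ, ((‖z‖ ^ 2 : ℝ) : ℂ) = z * (starRingEnd ℂ) z := by
        intro z
        rw [Complex.mul_conj, Complex.normSq_eq_norm_sq]
      rw [h2, map_sum, Finset.sum_mul_sum]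
      refine Finset.sum_congr rfl fun m _ => Finset.sum_congr rfl fun k _ => ?_
      rw [map_mul]
      have h3 : e (α * ((m - k : ℤ) : ℝ)) = e (α * m) * (starRingEnd ℂ) (e (α * k)) := by
        rw [← e_sub]; congr 1; push_cast; ring
      rw [h3]; ring
    have hc : ∀ m k : ℤ, Continuous fun α : ℝ =>
        c m * (starRingEnd ℂ) (c k) * e (α * ((m - k : ℤ) : ℝ)) := by
      intro m k
      exact continuous_const.mul (K0Parseval_cont (m - k))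
    simp_rw [h1]
    rw [intervalIntegral.integral_finsetSum
      (fun m _ => (continuous_finset_sum J fun k _ => hc m k).intervalIntegrable _ _)]
    rw [Complex.ofReal_sum]
    refine Finset.sum_congr rfl fun m hm => ?_
    rw [intervalIntegral.integral_finsetSum (fun k _ => (hc m k).intervalIntegrable _ _)]
    have h5 : ∀ k : ℤ, ∫ α in (0 : ℝ)..1, c m * (starRingEnd ℂ) (c k) * e (α * ((m - k : ℤ) : ℝ))
        = c m * (starRingEnd ℂ) (c k) * (if m - k = 0 then 1 else 0) := by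
      intro k
      rw [intervalIntegral.integral_const_mul, K0Parseval_int]
    rw [Finset.sum_congr rfl fun k _ => h5 k, Finset.sum_eq_single m]
    · rw [sub_self, if_pos rfl, mul_one, Complex.mul_conj, Complex.normSq_eq_norm_sq]
    · intro k _ hk
      rw [if_neg (sub_ne_zero.2 hk.symm), mul_zero]
    · intro h; exact absurd hm h
  exact_mod_cast key

theorem parseval_D (Q N : ℕ) :
    ∫ α in (0 : ℝ)..1, ‖DD Q N α‖ ^ 2 = ∑ k ∈ Icc 1 N, uu Q k ^ 2 := by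
  have h := parseval ((Icc 1 N).map Nat.castEmbedding) (fun m => ((uu Q m.toNat : ℝ) : ℂ))
  have h1 : ∀ α : ℝ, ∑ m ∈ (Icc 1 N).map (Nat.castEmbedding (R := ℤ)),
      ((uu Q m.toNat : ℝ) : ℂ) * e (α * m) = DD Q N α := by
    intro α
    rw [Finset.sum_map]
    unfold DD
    refine Finset.sum_congr rfl fun k _ => ?_
    simp
  simp_rw [h1] at h
  rw [h, Finset.sum_map]
  refine Finset.sum_congr rfl fun k _ => ?_
  simp

/-- Proof. `S_f D = ∑_m c(m) e(mα)` over a finite set of `m` containing `J`, with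
`c(m) = ∑_{n ≤ P} Λ(n) u(m - g(n))` where `u` is set to `0` outside `[1,N]`; for `m ∈ J` this is
`RL - RQ` by hypothesis (`uu Q k = vm k - vmQ Q k`, `k = m - g(n) = (k.toNat : ℤ)`). -/
theorem parseval_use (b : ℤ) (P Q N : ℕ) (J : Finset ℤ)
    (h : ∀ m ∈ J, ∀ n ∈ Icc 1 P, 1 ≤ m - gg b n ∧ m - gg b n ≤ N) :
    ∑ m ∈ J, (RL b P m - RQ b Q P m) ^ 2 ≤
      ∫ α in (0 : ℝ)..1, ‖Sf b P α‖ ^ 2 * ‖DD Q N α‖ ^ 2 := by
  classical
  let pr : Finset (ℕ × ℕ) := (Icc 1 P) ×ˢ (Icc 1 N)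
  let M : Finset ℤ := J ∪ pr.image (fun x => gg b x.1 + (x.2 : ℤ))
  let c : ℤ → ℝ := fun m => ∑ x ∈ pr.filter (fun x => gg b x.1 + (x.2 : ℤ) = m), vm x.1 * uu Q x.2
  have h1 : ∀ α : ℝ, Sf b P α * DD Q N α = ∑ m ∈ M, ((c m : ℝ) : ℂ) * e (α * m) := by
    intro α
    unfold Sf DD
    rw [Finset.sum_mul_sum, ← Finset.sum_product']
    have h2 : ∀ x ∈ pr, gg b x.1 + (x.2 : ℤ) ∈ M := by
      intro x hx
      exact Finset.mem_union_right _ (Finset.mem_image_of_mem _ hx)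
    rw [← Finset.sum_fiberwise_of_maps_to h2]
    refine Finset.sum_congr rfl fun m _ => ?_
    simp only [c]
    push_cast
    rw [Finset.sum_mul]
    refine Finset.sum_congr rfl fun x hx => ?_
    have hx2 := (Finset.mem_filter.1 hx).2
    have h3 : e (α * m) = e (α * (gg b x.1 : ℝ)) * e (α * (x.2 : ℝ)) := by
      rw [← e_add, ← hx2]; congr 1; push_cast; ring
    rw [h3]; ring
  have h4 : ∀ α : ℝ, ‖Sf b P α‖ ^ 2 * ‖DD Q N α‖ ^ 2 = ‖∑ m ∈ M, ((c m : ℝ) : ℂ) * e (α * m)‖ ^ 2 := by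
    intro α
    rw [← h1, norm_mul, mul_pow]
  simp_rw [h4]
  rw [parseval M (fun m => ((c m : ℝ) : ℂ))]
  have h5 : ∀ m ∈ J, RL b P m - RQ b Q P m = c m := by
    intro m hm
    unfold RL RQ
    rw [← Finset.sum_sub_distrib]
    simp only [c]
    rw [Finset.sum_filter, Finset.sum_product]
    refine Finset.sum_congr rfl fun n hn => ?_
    obtain ⟨ha, hb⟩ := h m hm n hn
    rw [Finset.sum_eq_single (m - gg b n).toNat]
    · have h6 : (((m - gg b n).toNat : ℕ) : ℤ) = m - gg b n := Int.toNat_of_nonneg (by omega)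
      rw [if_pos (by simp only [h6]; ring)]
      unfold uu
      rw [h6]; ring
    · intro k _ hk
      rw [if_neg]
      intro h7
      apply hk
      simp only at h7
      omega
    · intro h7
      exfalso
      apply h7
      rw [Finset.mem_Icc]
      omega
  rw [Finset.sum_congr rfl fun m hm => by rw [h5 m hm]]
  have h6 : ∀ m, ‖((c m : ℝ) : ℂ)‖ ^ 2 = c m ^ 2 := by
    intro m
    rw [Complex.norm_real, Real.norm_eq_abs, sq_abs]
  simp_rw [h6]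
  exact Finset.sum_le_sum_of_subset_of_nonneg Finset.subset_union_left fun _ _ _ => sq_nonneg _

end Pool.Agent.Lib.MP_d9bc60_nt.UV
end

section
/-! Row K1: where `S_f` is large. -/

set_option autoImplicit false

namespace Pool.Agent.Lib.MP_d9bc60_nt.UV

open Finset

theorem k1_ev_log (k : ℕ) (δ K : ℝ) (hδ : 0 < δ) :
    ∀ᶠ x : ℝ in Filter.atTop, K * Real.log x ^ k ≤ x ^ δ := by
  have h := isLittleO_log_rpow_rpow_atTop (s := δ) (k : ℝ) hδ
  have hK : (0 : ℝ) < 1 / (|K| + 1) := by positivity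
  filter_upwards [h.bound hK, Filter.eventually_ge_atTop 1] with x hx h1
  have hl : 0 ≤ Real.log x := Real.log_nonneg h1
  rw [Real.rpow_natCast, Real.norm_of_nonneg (by positivity),
    Real.norm_of_nonneg (Real.rpow_nonneg (by linarith) _)] at hx
  have h2 : K * Real.log x ^ k ≤ (|K| + 1) * Real.log x ^ k := by
    apply mul_le_mul_of_nonneg_right _ (by positivity)
    linarith [le_abs_self K]
  refine h2.trans ?_
  calc (|K| + 1) * Real.log x ^ k ≤ (|K| + 1) * (1 / (|K| + 1) * x ^ δ) :=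
        mul_le_mul_of_nonneg_left hx (by positivity)
    _ = x ^ δ := by field_simp

/-- `X/x ≥ X^(1/6)`, so `P ≥ min(√X, X/x)/5` and `P ≥ X^(1/6)/5` for large `X`. -/
theorem PP_bounds (ε : ℝ) (hε : 0 < ε) : ∃ X₀ : ℕ, ∀ X : ℕ, X₀ ≤ X → ∀ b : ℤ, b ≠ 0 →
    |(b : ℝ)| ≤ (X : ℝ) ^ (5 / 6 - ε) →
    (X : ℝ) ^ (1 / 10 : ℝ) ≤ PP b X ∧ min (Real.sqrt X) (X / |(b : ℝ)|) / 5 ≤ PP b X ∧
    (PP b X : ℝ) ≤ Real.sqrt X / 4 ∧ (PP b X : ℝ) * |(b : ℝ)| ≤ X / 4 := by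
  refine ⟨5 ^ 15, ?_⟩
  intro X hX b hb hbX
  have hXr : (5 : ℝ) ^ 15 ≤ (X : ℝ) := by exact_mod_cast hX
  have hX1 : (1 : ℝ) ≤ (X : ℝ) := le_trans (by norm_num) hXr
  have hX0 : (0 : ℝ) < (X : ℝ) := by linarith
  have hb1 : (1 : ℝ) ≤ |(b : ℝ)| := by
    have : (1 : ℤ) ≤ |b| := Int.one_le_abs hb
    exact_mod_cast this
  have hb0 : (0 : ℝ) < |(b : ℝ)| := by linarith
  set μ : ℝ := min (Real.sqrt X) (X / |(b : ℝ)|) with hμ
  have h16 : (X : ℝ) ^ (1 / 6 : ℝ) ≤ μ := by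
    refine le_min ?_ ?_
    · rw [Real.sqrt_eq_rpow]
      exact Real.rpow_le_rpow_of_exponent_le hX1 (by norm_num)
    · rw [le_div_iff₀ hb0]
      have h1 : |(b : ℝ)| ≤ (X : ℝ) ^ (5 / 6 : ℝ) :=
        hbX.trans (Real.rpow_le_rpow_of_exponent_le hX1 (by linarith))
      calc (X : ℝ) ^ (1 / 6 : ℝ) * |(b : ℝ)| ≤ (X : ℝ) ^ (1 / 6 : ℝ) * (X : ℝ) ^ (5 / 6 : ℝ) :=
            mul_le_mul_of_nonneg_left h1 (by positivity)
        _ = (X : ℝ) ^ (1 : ℝ) := by rw [← Real.rpow_add hX0]; norm_num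
        _ = X := Real.rpow_one _
  have h15 : (5 : ℝ) ≤ (X : ℝ) ^ (1 / 15 : ℝ) := by
    have : ((5 : ℝ) ^ 15) ^ (1 / 15 : ℝ) ≤ (X : ℝ) ^ (1 / 15 : ℝ) :=
      Real.rpow_le_rpow (by positivity) hXr (by norm_num)
    refine le_trans (le_of_eq ?_) this
    rw [← Real.rpow_natCast, ← Real.rpow_mul (by norm_num)]
    norm_num
  have h110 : (1 : ℝ) ≤ (X : ℝ) ^ (1 / 10 : ℝ) := Real.one_le_rpow hX1 (by norm_num)
  have h510 : 5 * (X : ℝ) ^ (1 / 10 : ℝ) ≤ (X : ℝ) ^ (1 / 6 : ℝ) := by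
    calc 5 * (X : ℝ) ^ (1 / 10 : ℝ) ≤ (X : ℝ) ^ (1 / 15 : ℝ) * (X : ℝ) ^ (1 / 10 : ℝ) :=
          mul_le_mul_of_nonneg_right h15 (by positivity)
      _ = (X : ℝ) ^ (1 / 6 : ℝ) := by rw [← Real.rpow_add hX0]; norm_num
  have h20 : (20 : ℝ) ≤ μ := by
    have h1 : ((5 : ℝ) ^ 15) ^ (1 / 6 : ℝ) ≤ (X : ℝ) ^ (1 / 6 : ℝ) :=
      Real.rpow_le_rpow (by positivity) hXr (by norm_num)
    have h2 : (20 : ℝ) ≤ ((5 : ℝ) ^ 15) ^ (1 / 6 : ℝ) := by
      have h3 : (20 : ℝ) = ((20 : ℝ) ^ 6) ^ (1 / 6 : ℝ) := by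
        rw [← Real.rpow_natCast, ← Real.rpow_mul (by norm_num)]
        norm_num
      rw [h3]
      exact Real.rpow_le_rpow (by positivity) (by norm_num) (by norm_num)
    linarith
  have hP1 : μ / 5 ≤ PP b X := by
    have h1 : μ / 4 < (PP b X : ℝ) + 1 := by
      unfold PP
      exact Nat.lt_floor_add_one _
    linarith
  have hP2 : (PP b X : ℝ) ≤ μ / 4 := by
    unfold PP
    exact Nat.floor_le (by linarith)
  refine ⟨?_, hP1, ?_, ?_⟩
  · linarith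
  · exact hP2.trans (by have := min_le_left (Real.sqrt X) (X / |(b : ℝ)|); rw [← hμ] at this; linarith)
  · have h1 : μ ≤ X / |(b : ℝ)| := min_le_right _ _
    calc (PP b X : ℝ) * |(b : ℝ)| ≤ (X / |(b : ℝ)|) / 4 * |(b : ℝ)| :=
          mul_le_mul_of_nonneg_right (by linarith) hb0.le
      _ = X / 4 := by field_simp

theorem k1_Sf_eq (b : ℤ) (P : ℕ) (α : ℝ) :
    Sf b P α = ∑ n ∈ Icc 1 P, (vm n : ℂ) * e (α * (n : ℝ) ^ 2 + (α * b) * n) := by
  unfold Sf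
  refine Finset.sum_congr rfl (fun n _ => ?_)
  congr 2
  unfold gg
  push_cast
  ring

theorem arcs_class (ε : ℝ) (hε : 0 < ε) (A : ℕ) : ∃ (C X₀ : ℕ) (η : ℝ), 0 < η ∧ η ≤ 1 / 8 ∧
    ∀ X : ℕ, X₀ ≤ X → ∀ b : ℤ, b ≠ 0 → |(b : ℝ)| ≤ (X : ℝ) ^ (5 / 6 - ε) →
    ∀ α : ℝ, 0 ≤ α → α ≤ 1 → (PP b X : ℝ) / Real.log X ^ A ≤ ‖Sf b (PP b X) α‖ →
    ∃ (q : ℕ) (a r : ℤ), 1 ≤ q ∧ (q : ℝ) ≤ Real.log X ^ C ∧ |(a : ℝ)| ≤ 2 * q ∧
      |(r : ℝ)| ≤ (X : ℝ) ^ (1 / 2 - η) ∧ |(r : ℝ)| ≤ |(b : ℝ)| * (X : ℝ) ^ (-η) ∧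
      |α - ((a : ℝ) / q + (r : ℝ) / (q * b))| ≤ Real.log X ^ C / X := by
  obtain ⟨C₁, P₀, hvq⟩ := vq (A + 1)
  obtain ⟨X₁, hPP⟩ := PP_bounds ε hε
  set η : ℝ := min ε (1 / 8) with hη
  have hη0 : 0 < η := lt_min hε (by norm_num)
  have hη1 : η ≤ 1 / 8 := min_le_right _ _
  have hηε : η ≤ ε := min_le_left _ _
  -- large `X`
  have hev : ∀ᶠ x : ℝ in Filter.atTop, (50 * Real.log x ^ C₁ ≤ x ^ (2 * ε)) ∧
      (50 * Real.log x ^ C₁ ≤ x ^ (5 / 24 : ℝ)) ∧ (60 * Real.log x ^ C₁ ≤ x ^ (1 / 10 : ℝ)) ∧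
      25 ≤ Real.log x ∧ 10 ^ (A + 1) ≤ Real.log x ∧ ((P₀ : ℝ) + 1) ^ 10 ≤ x ∧ 1 ≤ x := by
    refine (k1_ev_log C₁ (2 * ε) 50 (by linarith)).and ?_
    refine (k1_ev_log C₁ (5 / 24) 50 (by norm_num)).and ?_
    refine (k1_ev_log C₁ (1 / 10) 60 (by norm_num)).and ?_
    refine (Real.tendsto_log_atTop.eventually_ge_atTop _).and ?_
    refine (Real.tendsto_log_atTop.eventually_ge_atTop _).and ?_
    exact (Filter.eventually_ge_atTop _).and (Filter.eventually_ge_atTop _)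
  obtain ⟨x₀, hx₀⟩ := Filter.eventually_atTop.1 hev
  refine ⟨C₁ + 1, max X₁ ⌈x₀⌉₊, η, hη0, hη1, ?_⟩
  intro X hX b hb hbX α hα0 hα1 hS
  have hXx : x₀ ≤ (X : ℝ) := (Nat.le_ceil x₀).trans (by exact_mod_cast (le_max_right _ _).trans hX)
  obtain ⟨e1, e2, e3, hL25, hLA, hP10, hX1⟩ := hx₀ X hXx
  obtain ⟨p1, p2, p3, p4⟩ := hPP X ((le_max_left _ _).trans hX) b hb hbX
  have hX0 : (0 : ℝ) < (X : ℝ) := by linarith
  set L : ℝ := Real.log X with hL
  set P : ℕ := PP b X with hP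
  have hL0 : 0 < L := by linarith
  have hL1 : 1 ≤ L := by linarith
  have hb1 : (1 : ℝ) ≤ |(b : ℝ)| := by
    have : (1 : ℤ) ≤ |b| := Int.one_le_abs hb
    exact_mod_cast this
  have hb0 : (0 : ℝ) < |(b : ℝ)| := by linarith
  have hx110 : (1 : ℝ) ≤ (X : ℝ) ^ (1 / 10 : ℝ) := Real.one_le_rpow hX1 (by norm_num)
  have hPr : (0 : ℝ) < P := by linarith
  -- `P ≥ P₀`
  have hPP0 : P₀ ≤ P := by
    have h1 : ((P₀ : ℝ) + 1) ≤ (X : ℝ) ^ (1 / 10 : ℝ) := by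
      have h2 : (((P₀ : ℝ) + 1) ^ 10) ^ (1 / 10 : ℝ) ≤ (X : ℝ) ^ (1 / 10 : ℝ) :=
        Real.rpow_le_rpow (by positivity) hP10 (by norm_num)
      refine le_trans (le_of_eq ?_) h2
      rw [← Real.rpow_natCast, ← Real.rpow_mul (by positivity)]
      norm_num
    have h3 : (P₀ : ℝ) ≤ P := by linarith
    exact_mod_cast h3
  have hlogP : L / 10 ≤ Real.log P := by
    have h1 := Real.log_le_log (by positivity) p1
    rw [Real.log_rpow hX0] at h1
    linarith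
  have hsq : Real.sqrt X ≤ X := by
    rw [Real.sqrt_le_left hX0.le, sq]
    exact le_mul_of_one_le_left hX0.le hX1
  have hPX : (P : ℝ) ≤ X := by
    have : 0 ≤ Real.sqrt X := Real.sqrt_nonneg _
    linarith
  have hlogP2 : Real.log P ≤ L := Real.log_le_log hPr hPX
  have hlogP0 : 0 ≤ Real.log P := by linarith
  have hbound : (P : ℝ) / Real.log P ^ (A + 1) ≤ (P : ℝ) / L ^ A := by
    apply div_le_div_of_nonneg_left hPr.le (by positivity)
    calc L ^ A = L ^ A * 1 := by ring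
      _ ≤ L ^ A * (L / 10 ^ (A + 1)) := by
          apply mul_le_mul_of_nonneg_left _ (by positivity)
          rw [le_div_iff₀ (by positivity)]
          linarith
      _ = (L / 10) ^ (A + 1) := by rw [div_pow, pow_succ]; ring
      _ ≤ Real.log P ^ (A + 1) := pow_le_pow_left₀ (by positivity) hlogP _
  have hconc : Conc C₁ P α (α * b) := by
    apply hvq P hPP0
    rw [← k1_Sf_eq]
    exact hbound.trans hS
  obtain ⟨q, hq1, hq2, hq3, hq4⟩ := hconc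
  have hq0 : (0 : ℝ) < q := by exact_mod_cast hq1
  have hqr1 : (1 : ℝ) ≤ q := by exact_mod_cast hq1
  have hpow : Real.log P ^ C₁ ≤ L ^ C₁ := pow_le_pow_left₀ hlogP0 hlogP2 _
  have hLC0 : 0 < L ^ C₁ := by positivity
  have hLC1 : 1 ≤ L ^ C₁ := one_le_pow₀ hL1
  obtain ⟨a, ha⟩ := nn_exists (q * α)
  obtain ⟨s, hs⟩ := nn_exists (q * (α * b))
  rw [ha] at hq3
  rw [hs] at hq4
  have hq3' : |(q : ℝ) * α - a| ≤ L ^ C₁ / (P : ℝ) ^ 2 :=
    hq3.trans (div_le_div_of_nonneg_right hpow (by positivity))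
  have hq4' : |(q : ℝ) * (α * b) - s| ≤ L ^ C₁ / (P : ℝ) :=
    hq4.trans (div_le_div_of_nonneg_right hpow (by positivity))
  set r : ℤ := s - a * b with hr
  have hid : (q : ℝ) * b * (α - a / q) - r = q * (α * b) - s := by
    rw [hr]; push_cast; field_simp; ring
  have hbne : (b : ℝ) ≠ 0 := by exact_mod_cast hb
  -- `|α - (a/q + r/(qb))| ≤ L^C₁/(P |b|)`
  have hdist : |α - ((a : ℝ) / q + (r : ℝ) / (q * b))| ≤ L ^ C₁ / (P * |(b : ℝ)|) := by
    have h1 : α - ((a : ℝ) / q + (r : ℝ) / (q * b)) = (q * (α * b) - s) / (q * b) := by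
      rw [← hid]; field_simp; ring
    rw [h1, abs_div, abs_mul, abs_of_pos hq0]
    calc |(q : ℝ) * (α * b) - s| / (q * |(b : ℝ)|) ≤ (L ^ C₁ / P) / (1 * |(b : ℝ)|) := by
          apply div_le_div₀ (by positivity) hq4' (by positivity)
          exact mul_le_mul_of_nonneg_right hqr1 hb0.le
      _ = L ^ C₁ / (P * |(b : ℝ)|) := by rw [one_mul, div_div]
  -- bound for `r`
  have hrb : |(r : ℝ)| ≤ |(b : ℝ)| * (L ^ C₁ / (P : ℝ) ^ 2) + L ^ C₁ / P := by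
    have h1 : (r : ℝ) = (b : ℝ) * (q * α - a) - (q * (α * b) - s) := by
      rw [hr]; push_cast; ring
    rw [h1]
    refine (abs_sub _ _).trans ?_
    rw [abs_mul]
    exact add_le_add (mul_le_mul_of_nonneg_left hq3' (abs_nonneg _)) hq4'
  have haq : |(a : ℝ)| ≤ 2 * q := by
    have h1 : |(q : ℝ) * α - a| ≤ 1 / 2 := by rw [← ha]; exact nn_le_half _
    have h2 : |(a : ℝ)| ≤ |(q : ℝ) * α| + |(q : ℝ) * α - a| := by
      have : (a : ℝ) = q * α - (q * α - a) := by ring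
      calc |(a : ℝ)| = |(q : ℝ) * α - (q * α - a)| := by rw [← this]
        _ ≤ _ := abs_sub _ _
    have h3 : |(q : ℝ) * α| ≤ q := by
      rw [abs_of_nonneg (by positivity)]
      exact mul_le_of_le_one_right hq0.le hα1
    linarith
  have hqL : (q : ℝ) ≤ L ^ (C₁ + 1) := by
    refine hq2.trans (hpow.trans ?_)
    exact pow_le_pow_right₀ hL1 (Nat.le_succ _)
  have hsmall : L ^ C₁ / (P : ℝ) ≤ 1 / 60 := by
    rw [div_le_iff₀ hPr]
    linarith
  rcases le_or_gt (Real.sqrt X) |(b : ℝ)| with hcase | hcase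
  · -- `|b| ≥ √X`
    have hXb : (X : ℝ) / |(b : ℝ)| ≤ Real.sqrt X := by
      rw [div_le_iff₀ hb0]
      calc (X : ℝ) = Real.sqrt X * Real.sqrt X := (Real.mul_self_sqrt hX0.le).symm
        _ ≤ Real.sqrt X * |(b : ℝ)| := mul_le_mul_of_nonneg_left hcase (Real.sqrt_nonneg _)
    rw [min_eq_right hXb] at p2
    have hPb : (X : ℝ) / 5 ≤ P * |(b : ℝ)| := by
      have := mul_le_mul_of_nonneg_right p2 hb0.le
      calc (X : ℝ) / 5 = X / |(b : ℝ)| / 5 * |(b : ℝ)| := by field_simp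
        _ ≤ _ := this
    refine ⟨q, a, r, hq1, hqL, haq, ?_, ?_, ?_⟩
    · by_cases hr0 : r = 0
      · rw [hr0]; simp; positivity
      · have hr1 : (1 : ℝ) ≤ |(r : ℝ)| := by
          have : (1 : ℤ) ≤ |r| := Int.one_le_abs hr0
          exact_mod_cast this
        have h1 : |(r : ℝ)| ≤ 2 * (|(b : ℝ)| * (L ^ C₁ / (P : ℝ) ^ 2)) := by linarith
        have hP2 : (X : ℝ) ^ 2 / 25 ≤ ((P : ℝ) * |(b : ℝ)|) ^ 2 := by
          calc (X : ℝ) ^ 2 / 25 = (X / 5) ^ 2 := by ring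
            _ ≤ _ := pow_le_pow_left₀ (by positivity) hPb 2
        have h2 : |(b : ℝ)| * (L ^ C₁ / (P : ℝ) ^ 2) ≤ 25 * L ^ C₁ * (|(b : ℝ)| ^ 3 / (X : ℝ) ^ 2) := by
          have h3 : |(b : ℝ)| * (L ^ C₁ / (P : ℝ) ^ 2) =
              L ^ C₁ * |(b : ℝ)| ^ 3 / ((P : ℝ) * |(b : ℝ)|) ^ 2 := by
            rw [mul_pow]; field_simp
          rw [h3]
          calc L ^ C₁ * |(b : ℝ)| ^ 3 / ((P : ℝ) * |(b : ℝ)|) ^ 2
              ≤ L ^ C₁ * |(b : ℝ)| ^ 3 / ((X : ℝ) ^ 2 / 25) :=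
                div_le_div_of_nonneg_left (by positivity) (by positivity) hP2
            _ = _ := by field_simp
        have h4 : |(b : ℝ)| ^ 3 / (X : ℝ) ^ 2 ≤ (X : ℝ) ^ (1 / 2 - 3 * ε) := by
          rw [div_le_iff₀ (by positivity)]
          calc |(b : ℝ)| ^ 3 ≤ ((X : ℝ) ^ (5 / 6 - ε)) ^ 3 := pow_le_pow_left₀ hb0.le hbX 3
            _ = (X : ℝ) ^ (1 / 2 - 3 * ε) * (X : ℝ) ^ 2 := by
                rw [← Real.rpow_natCast, ← Real.rpow_mul hX0.le, ← Real.rpow_natCast,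
                  ← Real.rpow_add hX0]
                congr 1
                push_cast
                ring
        calc |(r : ℝ)| ≤ 2 * (25 * L ^ C₁ * (|(b : ℝ)| ^ 3 / (X : ℝ) ^ 2)) := by linarith
          _ ≤ 2 * (25 * L ^ C₁ * (X : ℝ) ^ (1 / 2 - 3 * ε)) := by gcongr
          _ = 50 * L ^ C₁ * (X : ℝ) ^ (1 / 2 - 3 * ε) := by ring
          _ ≤ (X : ℝ) ^ (2 * ε) * (X : ℝ) ^ (1 / 2 - 3 * ε) :=
              mul_le_mul_of_nonneg_right e1 (by positivity)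
          _ = (X : ℝ) ^ (1 / 2 - ε) := by rw [← Real.rpow_add hX0]; congr 1; ring
          _ ≤ (X : ℝ) ^ (1 / 2 - η) := Real.rpow_le_rpow_of_exponent_le hX1 (by linarith)
    · by_cases hr0 : r = 0
      · rw [hr0]; simp; positivity
      · have hr1 : (1 : ℝ) ≤ |(r : ℝ)| := by
          have : (1 : ℤ) ≤ |r| := Int.one_le_abs hr0
          exact_mod_cast this
        have h1 : |(r : ℝ)| ≤ 2 * (|(b : ℝ)| * (L ^ C₁ / (P : ℝ) ^ 2)) := by linarith
        have hP2 : (X : ℝ) ^ 2 / 25 ≤ ((P : ℝ) * |(b : ℝ)|) ^ 2 := by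
          calc (X : ℝ) ^ 2 / 25 = (X / 5) ^ 2 := by ring
            _ ≤ _ := pow_le_pow_left₀ (by positivity) hPb 2
        have h2 : L ^ C₁ / (P : ℝ) ^ 2 ≤ 25 * L ^ C₁ * (|(b : ℝ)| ^ 2 / (X : ℝ) ^ 2) := by
          have h3 : L ^ C₁ / (P : ℝ) ^ 2 =
              L ^ C₁ * |(b : ℝ)| ^ 2 / ((P : ℝ) * |(b : ℝ)|) ^ 2 := by
            rw [mul_pow]; field_simp
          rw [h3]
          calc L ^ C₁ * |(b : ℝ)| ^ 2 / ((P : ℝ) * |(b : ℝ)|) ^ 2
              ≤ L ^ C₁ * |(b : ℝ)| ^ 2 / ((X : ℝ) ^ 2 / 25) :=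
                div_le_div_of_nonneg_left (by positivity) (by positivity) hP2
            _ = _ := by field_simp
        have h4 : |(b : ℝ)| ^ 2 / (X : ℝ) ^ 2 ≤ (X : ℝ) ^ (-(1 / 3) : ℝ) := by
          rw [div_le_iff₀ (by positivity)]
          calc |(b : ℝ)| ^ 2 ≤ ((X : ℝ) ^ (5 / 6 - ε)) ^ 2 := pow_le_pow_left₀ hb0.le hbX 2
            _ ≤ ((X : ℝ) ^ (5 / 6 : ℝ)) ^ 2 := by
                apply pow_le_pow_left₀ (by positivity)
                exact Real.rpow_le_rpow_of_exponent_le hX1 (by linarith)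
            _ = (X : ℝ) ^ (-(1 / 3) : ℝ) * (X : ℝ) ^ 2 := by
                rw [← Real.rpow_natCast, ← Real.rpow_mul hX0.le, ← Real.rpow_natCast,
                  ← Real.rpow_add hX0]
                congr 1
                push_cast
                norm_num
        have h5 : 2 * (L ^ C₁ / (P : ℝ) ^ 2) ≤ (X : ℝ) ^ (-η) := by
          calc 2 * (L ^ C₁ / (P : ℝ) ^ 2) ≤ 2 * (25 * L ^ C₁ * (|(b : ℝ)| ^ 2 / (X : ℝ) ^ 2)) := by
                linarith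
            _ ≤ 2 * (25 * L ^ C₁ * (X : ℝ) ^ (-(1 / 3) : ℝ)) := by gcongr
            _ = 50 * L ^ C₁ * (X : ℝ) ^ (-(1 / 3) : ℝ) := by ring
            _ ≤ (X : ℝ) ^ (5 / 24 : ℝ) * (X : ℝ) ^ (-(1 / 3) : ℝ) :=
                mul_le_mul_of_nonneg_right e2 (by positivity)
            _ = (X : ℝ) ^ (-(1 / 8) : ℝ) := by rw [← Real.rpow_add hX0]; congr 1; norm_num
            _ ≤ (X : ℝ) ^ (-η) := Real.rpow_le_rpow_of_exponent_le hX1 (by linarith)
        calc |(r : ℝ)| ≤ |(b : ℝ)| * (2 * (L ^ C₁ / (P : ℝ) ^ 2)) := by linarith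
          _ ≤ _ := mul_le_mul_of_nonneg_left h5 hb0.le
    · refine hdist.trans ?_
      calc L ^ C₁ / (P * |(b : ℝ)|) ≤ L ^ C₁ / (X / 5) :=
            div_le_div_of_nonneg_left hLC0.le (by positivity) hPb
        _ = 5 * L ^ C₁ / X := by field_simp
        _ ≤ L ^ (C₁ + 1) / X := by
            apply div_le_div_of_nonneg_right _ hX0.le
            rw [pow_succ, mul_comm]
            exact mul_le_mul_of_nonneg_left (by linarith only [hL25]) hLC0.le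
  · -- `|b| < √X`
    have hXb : Real.sqrt X ≤ (X : ℝ) / |(b : ℝ)| := by
      rw [le_div_iff₀ hb0]
      calc Real.sqrt X * |(b : ℝ)| ≤ Real.sqrt X * Real.sqrt X :=
            mul_le_mul_of_nonneg_left hcase.le (Real.sqrt_nonneg _)
        _ = X := Real.mul_self_sqrt hX0.le
    rw [min_eq_left hXb] at p2
    have hs0 : 0 < Real.sqrt X := Real.sqrt_pos.2 hX0
    have hP2 : (X : ℝ) / 25 ≤ (P : ℝ) ^ 2 := by
      calc (X : ℝ) / 25 = (Real.sqrt X / 5) ^ 2 := by rw [div_pow, Real.sq_sqrt hX0.le]; norm_num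
        _ ≤ _ := pow_le_pow_left₀ (by positivity) p2 2
    have hr0 : r = 0 := by
      by_contra hne
      have hr1 : (1 : ℝ) ≤ |(r : ℝ)| := by
        have : (1 : ℤ) ≤ |r| := Int.one_le_abs hne
        exact_mod_cast this
      have h1 : |(b : ℝ)| * (L ^ C₁ / (P : ℝ) ^ 2) ≤ 1 / 2 := by
        have h2 : |(b : ℝ)| ≤ 5 * P := by linarith
        calc |(b : ℝ)| * (L ^ C₁ / (P : ℝ) ^ 2) ≤ (5 * P) * (L ^ C₁ / (P : ℝ) ^ 2) :=
              mul_le_mul_of_nonneg_right h2 (by positivity)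
          _ = 5 * (L ^ C₁ / P) := by field_simp
          _ ≤ 1 / 2 := by linarith
      linarith
    refine ⟨q, a, r, hq1, hqL, haq, ?_, ?_, ?_⟩
    · rw [hr0]; simp; positivity
    · rw [hr0]; simp; positivity
    · rw [hr0]
      have h1 : α - ((a : ℝ) / q + ((0 : ℤ) : ℝ) / (q * b)) = (q * α - a) / q := by
        field_simp; simp; ring
      rw [h1, abs_div, abs_of_pos hq0]
      calc |(q : ℝ) * α - a| / q ≤ (L ^ C₁ / (P : ℝ) ^ 2) / 1 := by
            apply div_le_div₀ (by positivity) hq3' (by norm_num) hqr1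
        _ = L ^ C₁ / (P : ℝ) ^ 2 := by rw [div_one]
        _ ≤ L ^ C₁ / (X / 25) := div_le_div_of_nonneg_left hLC0.le (by positivity) hP2
        _ = 25 * L ^ C₁ / X := by field_simp
        _ ≤ L ^ (C₁ + 1) / X := by
            apply div_le_div_of_nonneg_right _ hX0.le
            rw [pow_succ, mul_comm]
            exact mul_le_mul_of_nonneg_left hL25 hLC0.le

end Pool.Agent.Lib.MP_d9bc60_nt.UV
end
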