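import Pool.Agent.Lib.MP_d9bc60_nt.UV.PSW
import Pool.Agent.Lib.MP_d9bc60_nt.UV.PRam

section
/-! Row M1 (about 120 lines): `∑ Λ(n) e(an/q)` on the major arcs. -/

set_option autoImplicit false

namespace Pool.Agent.Lib.MP_d9bc60_nt.UV

open Finset

theorem m1_vm_nonneg (n : ℕ) : 0 ≤ vm n := ArithmeticFunction.vonMangoldt_nonneg

theorem m1_e_mod (a q n : ℕ) (hq : 1 ≤ q) :
    e ((a : ℝ) / q * n) = e ((a : ℝ) / q * ((n % q : ℕ) : ℝ)) := by
  have hq0 : (q : ℝ) ≠ 0 := by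
    have : (0 : ℝ) < q := by exact_mod_cast hq
    exact this.ne'
  have h1 : (a : ℝ) / q * n = (a : ℝ) / q * ((n % q : ℕ) : ℝ) + ((a * (n / q) : ℕ) : ℝ) := by
    have h2 : (n : ℝ) = q * ((n / q : ℕ) : ℝ) + ((n % q : ℕ) : ℝ) := by
      exact_mod_cast (Nat.div_add_mod n q).symm
    rw [Nat.cast_mul]
    calc (a : ℝ) / q * n = (a : ℝ) / q * (q * ((n / q : ℕ) : ℝ) + ((n % q : ℕ) : ℝ)) := by
          rw [← h2]
      _ = (a : ℝ) / q * ((n % q : ℕ) : ℝ) + (a : ℝ) * ((n / q : ℕ) : ℝ) := by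
          field_simp
          ring
  rw [h1, e_add, e_nat, mul_one]

theorem m1_noncoprime (q t : ℕ) (hq : 1 ≤ q) (L : ℝ) (hL : 0 ≤ L)
    (htL : ∀ n ∈ Icc 1 t, Real.log n ≤ L) (hlog : (Nat.log 2 t : ℝ) ≤ 2 * L) :
    ∑ n ∈ (Icc 1 t).filter (fun n => ¬ n.Coprime q), vm n ≤ q * (2 * L) * L := by
  classical
  set S := ((Icc 1 t).filter (fun n => ¬ n.Coprime q)).filter (fun n => vm n ≠ 0) with hS
  have h1 : ∑ n ∈ (Icc 1 t).filter (fun n => ¬ n.Coprime q), vm n = ∑ n ∈ S, vm n := by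
    rw [hS, Finset.sum_filter_ne_zero]
  have hsub : S ⊆ (q.primeFactors ×ˢ Icc 1 (Nat.log 2 t)).image (fun x : ℕ × ℕ => x.1 ^ x.2) := by
    intro n hn
    rw [hS, Finset.mem_filter, Finset.mem_filter, Finset.mem_Icc] at hn
    obtain ⟨⟨⟨hn1, hn2⟩, hnc⟩, hv⟩ := hn
    have hpp : IsPrimePow n := by
      unfold vm at hv
      exact ArithmeticFunction.vonMangoldt_ne_zero_iff.mp hv
    rw [isPrimePow_nat_iff] at hpp
    obtain ⟨p, k, hp, hk, rfl⟩ := hpp
    have hpq : p ∣ q := by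
      by_contra hdvd
      exact hnc (Nat.Coprime.pow_left k ((Nat.Prime.coprime_iff_not_dvd hp).mpr hdvd))
    rw [Finset.mem_image]
    refine ⟨(p, k), ?_, rfl⟩
    rw [Finset.mem_product, Finset.mem_Icc, Nat.mem_primeFactors]
    refine ⟨⟨hp, hpq, by omega⟩, hk, ?_⟩
    refine Nat.le_log_of_pow_le (by norm_num) ?_
    exact (Nat.pow_le_pow_left hp.two_le k).trans hn2
  have hcard : (S.card : ℝ) ≤ q * (2 * L) := by
    have h2 : S.card ≤ q * Nat.log 2 t := by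
      refine (Finset.card_le_card hsub).trans (Finset.card_image_le.trans ?_)
      rw [Finset.card_product, Nat.card_Icc]
      refine Nat.mul_le_mul ?_ (by omega)
      have h3 : q.primeFactors ⊆ Icc 1 q := by
        intro p hp
        rw [Finset.mem_Icc]
        exact ⟨(Nat.pos_of_mem_primeFactors hp), Nat.le_of_mem_primeFactors hp⟩
      have h4 := Finset.card_le_card h3
      rw [Nat.card_Icc] at h4
      omega
    calc (S.card : ℝ) ≤ ((q * Nat.log 2 t : ℕ) : ℝ) := by exact_mod_cast h2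
      _ = q * (Nat.log 2 t : ℝ) := by push_cast; ring
      _ ≤ q * (2 * L) := by gcongr
  rw [h1]
  calc ∑ n ∈ S, vm n ≤ ∑ _n ∈ S, L := by
        refine Finset.sum_le_sum fun n hn => ?_
        rw [hS, Finset.mem_filter, Finset.mem_filter] at hn
        exact ArithmeticFunction.vonMangoldt_le_log.trans (htL n hn.1.1)
    _ = S.card * L := by rw [Finset.sum_const, nsmul_eq_mul]
    _ ≤ q * (2 * L) * L := by gcongr

/-- Proof. The `n` with `(n,q) > 1` contribute `≤ ∑_{p ∣ q} log t ≤ 2 (log x)(log q) + ...`, tiny. Split the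
others by the residue `r` mod `q`: `∑_r e(ar/q) (t/φ(q) + O(x/(log x)^(A+B+1)))` by `sw (A+B+1) B`, and
`∑_{(r,q)=1} e(ar/q) = cR q a = μ(q)` (`cR_eq`; only `d = 1` divides both). -/
theorem sw_exp (A B : ℕ) : ∃ x₀ : ℕ, ∀ x : ℕ, x₀ ≤ x → ∀ q : ℕ, 1 ≤ q → (q : ℝ) ≤ Real.log x ^ B →
    ∀ a : ℕ, a.Coprime q → ∀ t : ℕ, t ≤ x →
    ‖∑ n ∈ Icc 1 t, (vm n : ℂ) * e ((a : ℝ) / q * n) - ((mu q / q.totient * t : ℝ) : ℂ)‖ ≤
      (x : ℝ) / Real.log x ^ A := by
  obtain ⟨x₁, hx₁⟩ := sw (A + B + 1) B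
  -- growth
  have hgrow : ∀ᶠ x : ℕ in Filter.atTop, 2 ≤ Real.log x ∧
      4 * Real.log x ^ (A + B + 2) ≤ (x : ℝ) := by
    have h1 : ∀ᶠ x : ℝ in Filter.atTop, 2 ≤ Real.log x :=
      Real.tendsto_log_atTop.eventually_ge_atTop 2
    have h2 : ∀ᶠ x : ℝ in Filter.atTop, 4 * Real.log x ^ (A + B + 2) ≤ x := by
      have h3 : (fun x : ℝ => Real.log x ^ (A + B + 2)) =o[Filter.atTop] (fun x : ℝ => x) :=
        Real.isLittleO_pow_log_id_atTop
      filter_upwards [h3.def (c := 1 / 4) (by norm_num), Filter.eventually_ge_atTop (1 : ℝ)]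
        with x hx hx1
      rw [Real.norm_eq_abs, Real.norm_eq_abs, abs_of_nonneg (by linarith : (0 : ℝ) ≤ x)] at hx
      have := le_abs_self (Real.log x ^ (A + B + 2))
      linarith
    exact (tendsto_natCast_atTop_atTop (R := ℝ)).eventually (h1.and h2)
  obtain ⟨x₂, hx₂⟩ := Filter.eventually_atTop.mp hgrow
  refine ⟨max (max x₁ x₂) 1, ?_⟩
  intro x hx q hq hqB a haq t ht
  have hxx1 : x₁ ≤ x := (le_max_left _ _).trans ((le_max_left _ _).trans hx)
  have hxx2 : x₂ ≤ x := (le_max_right _ _).trans ((le_max_left _ _).trans hx)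
  have hx1 : 1 ≤ x := (le_max_right _ _).trans hx
  obtain ⟨hL2, hbig⟩ := hx₂ x hxx2
  set L := Real.log x with hL
  have hL0 : 0 < L := by linarith
  have hq0 : (0 : ℝ) < q := by exact_mod_cast hq
  have hx0 : (0 : ℝ) < x := by exact_mod_cast hx1
  set ψ : ℕ → ℝ := fun r => ∑ n ∈ (Icc 1 t).filter (fun n => n % q = r), vm n with hψ
  have hψ0 : ∀ r, 0 ≤ ψ r := fun r => Finset.sum_nonneg fun n _ => m1_vm_nonneg n
  -- split by residues
  have hsplit : ∑ n ∈ Icc 1 t, (vm n : ℂ) * e ((a : ℝ) / q * n) =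
      ∑ r ∈ range q, (ψ r : ℂ) * e ((a : ℝ) / q * (r : ℝ)) := by
    rw [← Finset.sum_fiberwise_of_maps_to (s := Icc 1 t) (t := range q) (g := fun n => n % q)
      (fun n _ => Finset.mem_range.mpr (Nat.mod_lt n hq))]
    refine Finset.sum_congr rfl fun r _ => ?_
    rw [hψ]
    simp only
    push_cast
    rw [Finset.sum_mul]
    refine Finset.sum_congr rfl fun n hn => ?_
    rw [m1_e_mod a q n hq, (Finset.mem_filter.mp hn).2]
  have hram : ∑ r ∈ (range q).filter (fun r => r.Coprime q), e ((a : ℝ) / q * (r : ℝ)) =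
      ((mu q : ℝ) : ℂ) := by
    have h1 := cR_eq q hq (a : ℤ)
    have h2 : cR q (a : ℤ) = mu q := by
      unfold cR
      have h3 : q.divisors.filter (fun d : ℕ => (d : ℤ) ∣ (a : ℤ)) = {1} := by
        ext d
        rw [Finset.mem_filter, Finset.mem_singleton, Nat.mem_divisors, Int.natCast_dvd_natCast]
        constructor
        · rintro ⟨⟨h4, _⟩, h5⟩
          exact Nat.eq_one_of_dvd_coprimes haq h5 h4
        · rintro rfl
          exact ⟨⟨one_dvd _, by omega⟩, one_dvd _⟩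
      rw [h3, Finset.sum_singleton]
      simp
    rw [← h2, h1]
    refine Finset.sum_congr rfl fun r _ => ?_
    congr 1
    push_cast
    ring
  set T : ℝ := (t : ℝ) / q.totient with hT
  have hmain : ∑ n ∈ Icc 1 t, (vm n : ℂ) * e ((a : ℝ) / q * n) -
      ((mu q / q.totient * t : ℝ) : ℂ) =
      ∑ r ∈ (range q).filter (fun r => r.Coprime q), ((ψ r - T : ℝ) : ℂ) * e ((a : ℝ) / q * (r : ℝ)) +
        ∑ r ∈ (range q).filter (fun r => ¬ r.Coprime q), (ψ r : ℂ) * e ((a : ℝ) / q * (r : ℝ)) := by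
    have h1 : ((mu q / q.totient * t : ℝ) : ℂ) =
        ∑ r ∈ (range q).filter (fun r => r.Coprime q), (T : ℂ) * e ((a : ℝ) / q * (r : ℝ)) := by
      rw [← Finset.mul_sum, hram, hT]
      push_cast
      ring
    rw [hsplit, h1, ← Finset.sum_filter_add_sum_filter_not (range q) (fun r => r.Coprime q)]
    have h2 : ∑ r ∈ (range q).filter (fun r => r.Coprime q),
        ((ψ r - T : ℝ) : ℂ) * e ((a : ℝ) / q * (r : ℝ)) =
        ∑ r ∈ (range q).filter (fun r => r.Coprime q), (ψ r : ℂ) * e ((a : ℝ) / q * (r : ℝ)) -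
        ∑ r ∈ (range q).filter (fun r => r.Coprime q), (T : ℂ) * e ((a : ℝ) / q * (r : ℝ)) := by
      rw [← Finset.sum_sub_distrib]
      refine Finset.sum_congr rfl fun r _ => ?_
      push_cast
      ring
    rw [h2]
    ring
  rw [hmain]
  refine (norm_add_le _ _).trans ?_
  -- coprime residues
  have hcop : ‖∑ r ∈ (range q).filter (fun r => r.Coprime q),
      ((ψ r - T : ℝ) : ℂ) * e ((a : ℝ) / q * (r : ℝ))‖ ≤ q * ((x : ℝ) / L ^ (A + B + 1)) := by
    refine (norm_sum_le _ _).trans ?_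
    calc ∑ r ∈ (range q).filter (fun r => r.Coprime q),
          ‖((ψ r - T : ℝ) : ℂ) * e ((a : ℝ) / q * (r : ℝ))‖
        ≤ ∑ _r ∈ (range q).filter (fun r => r.Coprime q), (x : ℝ) / L ^ (A + B + 1) := by
          refine Finset.sum_le_sum fun r hr => ?_
          rw [Finset.mem_filter, Finset.mem_range] at hr
          rw [norm_mul, norm_e, mul_one, Complex.norm_real, Real.norm_eq_abs]
          have := hx₁ x hxx1 q hq hqB r hr.2 t ht
          rw [Nat.mod_eq_of_lt hr.1] at this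
          exact this
      _ = (((range q).filter (fun r => r.Coprime q)).card : ℝ) * ((x : ℝ) / L ^ (A + B + 1)) := by
          rw [Finset.sum_const, nsmul_eq_mul]
      _ ≤ q * ((x : ℝ) / L ^ (A + B + 1)) := by
          refine mul_le_mul_of_nonneg_right ?_ (by positivity)
          have h5 := Finset.card_filter_le (range q) (fun r => r.Coprime q)
          rw [Finset.card_range] at h5
          exact_mod_cast h5
  -- the others
  have hnon : ‖∑ r ∈ (range q).filter (fun r => ¬ r.Coprime q),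
      (ψ r : ℂ) * e ((a : ℝ) / q * (r : ℝ))‖ ≤ q * (2 * L) * L := by
    refine (norm_sum_le _ _).trans ?_
    have h1 : ∑ r ∈ (range q).filter (fun r => ¬ r.Coprime q),
        ‖(ψ r : ℂ) * e ((a : ℝ) / q * (r : ℝ))‖ =
        ∑ r ∈ (range q).filter (fun r => ¬ r.Coprime q), ψ r := by
      refine Finset.sum_congr rfl fun r _ => ?_
      rw [norm_mul, norm_e, mul_one, Complex.norm_real, Real.norm_eq_abs, abs_of_nonneg (hψ0 r)]
    rw [h1]
    have h2 : ∑ r ∈ (range q).filter (fun r => ¬ r.Coprime q), ψ r =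
        ∑ n ∈ (Icc 1 t).filter (fun n => ¬ n.Coprime q), vm n := by
      rw [← Finset.sum_fiberwise_of_maps_to (s := (Icc 1 t).filter (fun n => ¬ n.Coprime q))
        (t := (range q).filter (fun r => ¬ r.Coprime q)) (g := fun n => n % q)]
      · refine Finset.sum_congr rfl fun r hr => ?_
        rw [hψ]
        simp only
        refine Finset.sum_congr ?_ fun _ _ => rfl
        rw [Finset.filter_filter]
        refine Finset.filter_congr fun n _ => ?_
        constructor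
        · rintro rfl
          rw [Finset.mem_filter] at hr
          refine ⟨?_, rfl⟩
          intro h3
          exact hr.2 (by
            rw [Nat.coprime_iff_gcd_eq_one, ← Nat.gcd_rec, Nat.gcd_comm]
            exact h3)
        · exact fun h3 => h3.2
      · intro n hn
        rw [Finset.mem_filter, Finset.mem_range]
        refine ⟨Nat.mod_lt n hq, ?_⟩
        intro h3
        refine (Finset.mem_filter.mp hn).2 ?_
        rw [Nat.coprime_iff_gcd_eq_one] at h3 ⊢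
        rw [Nat.gcd_comm, Nat.gcd_rec]
        exact h3
    rw [h2]
    refine m1_noncoprime q t hq L hL0.le ?_ ?_
    · intro n hn
      rw [Finset.mem_Icc] at hn
      refine Real.log_le_log (by exact_mod_cast hn.1) ?_
      exact_mod_cast hn.2.trans ht
    · rcases Nat.eq_zero_or_pos t with h0 | hpos
      · subst h0
        simp
        exact hL0.le
      · have h4 : ((2 ^ Nat.log 2 t : ℕ) : ℝ) ≤ x := by
          exact_mod_cast (Nat.pow_log_le_self 2 (by omega)).trans ht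
        have h5 := Real.log_le_log (by positivity) h4
        push_cast at h5
        rw [Real.log_pow] at h5
        have h6 := Real.log_two_gt_d9
        have h7 : (0 : ℝ) ≤ (Nat.log 2 t : ℝ) := Nat.cast_nonneg _
        nlinarith
  have hfin1 : (q : ℝ) * ((x : ℝ) / L ^ (A + B + 1)) ≤ (x : ℝ) / L ^ A / 2 := by
    calc (q : ℝ) * ((x : ℝ) / L ^ (A + B + 1)) ≤ L ^ B * ((x : ℝ) / L ^ (A + B + 1)) := by
          gcongr
      _ = (x : ℝ) / L ^ A / L := by
        rw [pow_add, pow_add, pow_one]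
        field_simp
      _ ≤ (x : ℝ) / L ^ A / 2 := by gcongr
  have hfin2 : (q : ℝ) * (2 * L) * L ≤ (x : ℝ) / L ^ A / 2 := by
    rw [div_div, le_div_iff₀ (by positivity)]
    calc (q : ℝ) * (2 * L) * L * (L ^ A * 2) ≤ L ^ B * (2 * L) * L * (L ^ A * 2) := by gcongr
      _ = 4 * L ^ (A + B + 2) := by ring
      _ ≤ x := hbig
  calc _ ≤ q * ((x : ℝ) / L ^ (A + B + 1)) + q * (2 * L) * L := add_le_add hcop hnon
    _ ≤ (x : ℝ) / L ^ A / 2 + (x : ℝ) / L ^ A / 2 := add_le_add hfin1 hfin2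
    _ = (x : ℝ) / L ^ A := by ring

end Pool.Agent.Lib.MP_d9bc60_nt.UV
end

section
/-! Row M3 (about 120 lines): `D_t(a/q)` is small; the mean square of `u`. -/

set_option autoImplicit false

namespace Pool.Agent.Lib.MP_d9bc60_nt.UV

open Finset

/-- lowest terms -/
theorem m3_reduce (q : ℕ) (hq : 1 ≤ q) (a : ℤ) : ∃ a' q' : ℕ, 1 ≤ q' ∧ q' ≤ q ∧ a'.Coprime q' ∧
    ∀ k : ℕ, e ((a : ℝ) / q * k) = e ((a' : ℝ) / q' * k) := by
  set a1 : ℕ := (a % q).toNat with ha1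
  have hq0 : (q : ℤ) ≠ 0 := by exact_mod_cast (by omega : q ≠ 0)
  have ha1' : (a1 : ℤ) = a % q := Int.toNat_of_nonneg (Int.emod_nonneg a hq0)
  have hqr : (q : ℝ) ≠ 0 := by exact_mod_cast (by omega : q ≠ 0)
  have hdiv : (a : ℝ) = a1 + q * (a / (q : ℤ) : ℤ) := by
    have h1 := Int.emod_add_mul_ediv a q
    rw [← ha1'] at h1
    have h2 : ((a1 : ℤ) : ℝ) + (q : ℝ) * ((a / (q : ℤ) : ℤ) : ℝ) = (a : ℝ) := by
      exact_mod_cast h1
    rw [← h2]
    norm_cast
  set d := Nat.gcd a1 q with hd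
  have hdpos : 0 < d := Nat.gcd_pos_of_pos_right _ (by omega)
  have hda : d ∣ a1 := Nat.gcd_dvd_left _ _
  have hdq : d ∣ q := Nat.gcd_dvd_right _ _
  refine ⟨a1 / d, q / d, ?_, Nat.div_le_self _ _, Nat.coprime_div_gcd_div_gcd hdpos, fun k => ?_⟩
  · exact Nat.div_pos (Nat.le_of_dvd (by omega) hdq) hdpos
  · have hdr : (d : ℝ) ≠ 0 := by exact_mod_cast hdpos.ne'
    have h3 : (((a1 / d : ℕ) : ℝ)) / ((q / d : ℕ) : ℝ) = (a1 : ℝ) / q := by
      rw [Nat.cast_div hda hdr, Nat.cast_div hdq hdr, div_div_div_cancel_right₀ hdr]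
    rw [h3]
    have h4 : (a : ℝ) / q * k = (a1 : ℝ) / q * k + (((a / (q : ℤ)) * (k : ℤ) : ℤ) : ℝ) := by
      rw [hdiv]
      push_cast
      field_simp
    rw [h4, e_add_int]

theorem m3_large (A C : ℕ) : ∃ X₀ : ℕ, ∀ X : ℕ, X₀ ≤ X → 2 ≤ X ∧ (200 : ℝ) ≤ Real.log X ∧
    2 * Real.log X ^ (3 * C + A) ≤ X ∧ 2 * Real.log X ^ (4 * C) ≤ X ∧
    C * Real.log (Real.log X) ≤ Real.log X := by
  have h1 : ∀ᶠ X : ℕ in Filter.atTop, (200 : ℝ) ≤ Real.log X :=
    (Real.tendsto_log_atTop.comp tendsto_natCast_atTop_atTop).eventually_ge_atTop 200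
  have h2 : ∀ m : ℕ, ∀ᶠ X : ℕ in Filter.atTop, ‖Real.log X ^ (m : ℝ)‖ ≤ (1 / 2) * ‖(X : ℝ) ^ (1 : ℝ)‖ :=
    fun m => (tendsto_natCast_atTop_atTop (R := ℝ)).eventually
      ((isLittleO_log_rpow_rpow_atTop (m : ℝ) (by norm_num : (0 : ℝ) < 1)).bound (by norm_num))
  have h3 : ∀ᶠ X : ℕ in Filter.atTop, ‖Real.log (Real.log X)‖ ≤ (1 / (C + 1)) * ‖Real.log X‖ :=
    (Real.tendsto_log_atTop.comp tendsto_natCast_atTop_atTop).eventually
      (Real.isLittleO_log_id_atTop.bound (by positivity))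
  obtain ⟨X₀, h4⟩ := Filter.eventually_atTop.1 ((h1.and (h2 (3 * C + A))).and ((h2 (4 * C)).and h3))
  refine ⟨max X₀ 2, fun X hX => ?_⟩
  obtain ⟨⟨h5, h6⟩, h7, h8⟩ := h4 X (le_trans (le_max_left _ _) hX)
  have hX2 : 2 ≤ X := le_trans (le_max_right _ _) hX
  have hL0 : (0 : ℝ) < Real.log X := by linarith
  refine ⟨hX2, h5, ?_, ?_, ?_⟩
  · rw [Real.rpow_natCast, Real.rpow_one, Real.norm_of_nonneg (by positivity),
      Real.norm_of_nonneg (by positivity)] at h6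
    linarith
  · rw [Real.rpow_natCast, Real.rpow_one, Real.norm_of_nonneg (by positivity),
      Real.norm_of_nonneg (by positivity)] at h7
    linarith
  · rw [Real.norm_of_nonneg hL0.le, Real.norm_of_nonneg (Real.log_nonneg (by linarith))] at h8
    have hC : (0 : ℝ) ≤ C := Nat.cast_nonneg C
    calc C * Real.log (Real.log X) ≤ C * ((1 / (C + 1)) * Real.log X) :=
          mul_le_mul_of_nonneg_left h8 hC
      _ = (C / (C + 1)) * Real.log X := by ring
      _ ≤ 1 * Real.log X := by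
          refine mul_le_mul_of_nonneg_right ?_ hL0.le
          rw [div_le_one (by positivity)]
          linarith
      _ = Real.log X := one_mul _

theorem m3_vm_sq (X : ℕ) (hX : 2 ≤ X) : ∑ k ∈ Icc 1 (2 * X), vm k ^ 2 ≤
    24 * X * Real.log X := by
  have hlog : Real.log ((2 * X : ℕ) : ℝ) ≤ 2 * Real.log X := by
    have h1 : ((2 * X : ℕ) : ℝ) ≤ (X : ℝ) ^ 2 := by
      have : 2 * X ≤ X ^ 2 := by nlinarith
      exact_mod_cast this
    have h2 := Real.log_le_log (by positivity) h1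
    rwa [Real.log_pow] at h2
  have hL0 : 0 ≤ Real.log X := Real.log_natCast_nonneg X
  have h1 : ∑ k ∈ Icc 1 (2 * X), vm k ^ 2 ≤ ∑ k ∈ Icc 1 (2 * X), vm k * (2 * Real.log X) := by
    refine Finset.sum_le_sum fun k hk => ?_
    rw [pow_two]
    refine mul_le_mul_of_nonneg_left ?_ ArithmeticFunction.vonMangoldt_nonneg
    refine le_trans ArithmeticFunction.vonMangoldt_le_log (le_trans ?_ hlog)
    rw [Finset.mem_Icc] at hk
    exact Real.log_le_log (by exact_mod_cast hk.1) (by exact_mod_cast hk.2)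
  rw [← Finset.sum_mul] at h1
  have h2 : ∑ k ∈ Icc 1 (2 * X), vm k ≤ 6 * ((2 * X : ℕ) : ℝ) := by
    have h3 := Chebyshev.psi_le_const_mul_self (x := ((2 * X : ℕ) : ℝ)) (by positivity)
    have h4 : Chebyshev.psi ((2 * X : ℕ) : ℝ) = ∑ k ∈ Icc 1 (2 * X), vm k := by
      rw [Chebyshev.psi, Nat.floor_natCast]
      rfl
    have h5 : Real.log 4 ≤ 2 := by
      have : Real.log 4 = 2 * Real.log 2 := by
        rw [(by norm_num : (4 : ℝ) = 2 ^ 2), Real.log_pow]
        norm_num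
      rw [this]
      have := Real.log_two_lt_d9
      linarith
    rw [← h4]
    refine h3.trans ?_
    refine mul_le_mul_of_nonneg_right (by linarith) (by positivity)
  refine h1.trans ?_
  calc (∑ k ∈ Icc 1 (2 * X), vm k) * (2 * Real.log X)
      ≤ (6 * ((2 * X : ℕ) : ℝ)) * (2 * Real.log X) := mul_le_mul_of_nonneg_right h2 (by positivity)
    _ = 24 * X * Real.log X := by push_cast; ring

/-- Proof. Reduce `a/q` to lowest terms with `0 ≤ a` (`e` has period 1 and `n` is an integer), then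
`sw_exp (A+1) B` at `x = 2X` (`(log X)^B ≤ (log 2X)^B`) and `vmQ_exp` with `Q = LC C X`, `q ≤ Q` since
`q ≤ (log X)^B ≤ (log X)^C`; `Q³ ≤ (log X)^(3C)`. -/
theorem D_major (A B C : ℕ) (hBC : B ≤ C) : ∃ X₀ : ℕ, ∀ X : ℕ, X₀ ≤ X → ∀ q : ℕ, 1 ≤ q →
    (q : ℝ) ≤ Real.log X ^ B → ∀ a : ℤ, ∀ t : ℕ, t ≤ 2 * X →
    ‖DD (LC C X) t ((a : ℝ) / q)‖ ≤ (X : ℝ) / Real.log X ^ A := by
  obtain ⟨x₀, h1⟩ := sw_exp (A + 1) B
  obtain ⟨X₁, h2⟩ := m3_large A C
  refine ⟨max x₀ X₁, fun X hX q hq hqX a t ht => ?_⟩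
  obtain ⟨hX2, hL, hX3, -, -⟩ := h2 X (le_trans (le_max_right _ _) hX)
  obtain ⟨a', q', hq1, hqq, hco, he⟩ := m3_reduce q hq a
  have hXr : (2 : ℝ) ≤ X := by exact_mod_cast hX2
  set L := Real.log X with hLdef
  have hL1 : (1 : ℝ) ≤ L := by linarith
  have hL0 : (0 : ℝ) < L := by linarith
  have hLL : L ≤ Real.log ((2 * X : ℕ) : ℝ) := by
    refine Real.log_le_log (by linarith) ?_
    push_cast
    linarith
  have hq'X : (q' : ℝ) ≤ L ^ B := le_trans (by exact_mod_cast hqq) hqX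
  have hq'Q : q' ≤ LC C X := by
    refine Nat.le_floor (le_trans hq'X ?_)
    exact pow_le_pow_right₀ hL1 hBC
  have e1 := h1 (2 * X) (le_trans (le_trans (le_max_left _ _) hX) (by omega)) q' hq1
    (hq'X.trans (pow_le_pow_left₀ hL0.le hLL B)) a' hco t ht
  have e2 := vmQ_exp (LC C X) q' a' t hq1 hq'Q hco
  have e3 : DD (LC C X) t ((a : ℝ) / q) =
      (∑ n ∈ Icc 1 t, (vm n : ℂ) * e ((a' : ℝ) / q' * n) -
        ((mu q' / q'.totient * t : ℝ) : ℂ)) -
      (∑ n ∈ Icc 1 t, (vmQ (LC C X) (n : ℤ) : ℂ) * e ((a' : ℝ) / q' * n) -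
        ((mu q' / q'.totient * t : ℝ) : ℂ)) := by
    rw [sub_sub_sub_cancel_right, ← Finset.sum_sub_distrib]
    unfold DD
    refine Finset.sum_congr rfl fun k _ => ?_
    rw [he, uu]
    push_cast
    ring
  rw [e3]
  refine (norm_sub_le _ _).trans ((add_le_add e1 e2).trans ?_)
  have hQ : ((LC C X : ℕ) : ℝ) ≤ L ^ C := Nat.floor_le (by positivity)
  have e4 : ((LC C X : ℕ) : ℝ) ^ 3 ≤ (X : ℝ) / L ^ A / 2 := by
    rw [div_div, le_div_iff₀ (by positivity)]
    calc ((LC C X : ℕ) : ℝ) ^ 3 * (L ^ A * 2) ≤ (L ^ C) ^ 3 * (L ^ A * 2) := by gcongr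
      _ = 2 * L ^ (3 * C + A) := by rw [← pow_mul, pow_add, mul_comm C 3]; ring
      _ ≤ X := hX3
  have e5 : ((2 * X : ℕ) : ℝ) / Real.log ((2 * X : ℕ) : ℝ) ^ (A + 1) ≤ (X : ℝ) / L ^ A / 2 := by
    calc ((2 * X : ℕ) : ℝ) / Real.log ((2 * X : ℕ) : ℝ) ^ (A + 1)
        ≤ ((2 * X : ℕ) : ℝ) / L ^ (A + 1) := by
          refine div_le_div_of_nonneg_left (by positivity) (by positivity) ?_
          exact pow_le_pow_left₀ hL0.le hLL _
      _ = (X : ℝ) / L ^ A * (2 / L) := by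
          rw [pow_succ]
          push_cast
          field_simp
      _ ≤ (X : ℝ) / L ^ A * (1 / 2) := by
          refine mul_le_mul_of_nonneg_left ?_ (by positivity)
          rw [div_le_div_iff₀ hL0 (by norm_num)]
          linarith
      _ = (X : ℝ) / L ^ A / 2 := by ring
  linarith

/-- Proof. `u² ≤ 2Λ² + 2Λ_Q²`; `∑ Λ² ≤ log(2X) ψ(2X) ≤ 12 X log(2X)`
(`Chebyshev.psi_le_const_mul_self`) and `vmQ_sq`. -/
theorem uu_sq (C : ℕ) : ∃ X₀ : ℕ, ∀ X : ℕ, X₀ ≤ X →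
    ∑ k ∈ Icc 1 (2 * X), uu (LC C X) k ^ 2 ≤ X * Real.log X ^ 3 := by
  obtain ⟨X₁, h2⟩ := m3_large 0 C
  refine ⟨X₁, fun X hX => ?_⟩
  obtain ⟨hX2, hL, -, hX4, hX5⟩ := h2 X hX
  have hXr : (2 : ℝ) ≤ X := by exact_mod_cast hX2
  have h1 := m3_vm_sq X hX2
  set L := Real.log X with hLdef
  have hL1 : (1 : ℝ) ≤ L := by linarith
  have hL0 : (0 : ℝ) < L := by linarith
  set Q := LC C X with hQdef
  have hQ : (Q : ℝ) ≤ L ^ C := Nat.floor_le (by positivity)
  have hQ1 : 1 ≤ Q := Nat.le_floor (by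
    rw [Nat.cast_one]
    exact one_le_pow₀ hL1)
  have hlogQ : Real.log Q ≤ L := by
    calc Real.log Q ≤ Real.log (L ^ C) := Real.log_le_log (by exact_mod_cast hQ1) hQ
      _ = C * Real.log L := Real.log_pow _ _
      _ ≤ L := hX5
  have hlogQ0 : 0 ≤ Real.log Q := Real.log_natCast_nonneg Q
  have e1 : ∑ k ∈ Icc 1 (2 * X), uu Q k ^ 2 ≤
      2 * ∑ k ∈ Icc 1 (2 * X), vm k ^ 2 + 2 * ∑ k ∈ Icc 1 (2 * X), vmQ Q (k : ℤ) ^ 2 := by
    rw [Finset.mul_sum, Finset.mul_sum, ← Finset.sum_add_distrib]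
    refine Finset.sum_le_sum fun k _ => ?_
    rw [uu]
    nlinarith [sq_nonneg (vm k + vmQ Q (k : ℤ))]
  have e2 := vmQ_sq Q (2 * X)
  have e3 : ((2 * X : ℕ) : ℝ) * (1 + Real.log Q) ^ 2 ≤ 8 * X * L ^ 2 := by
    have h3 : (1 + Real.log Q) ^ 2 ≤ (2 * L) ^ 2 := pow_le_pow_left₀ (by linarith) (by linarith) 2
    calc ((2 * X : ℕ) : ℝ) * (1 + Real.log Q) ^ 2 ≤ ((2 * X : ℕ) : ℝ) * (2 * L) ^ 2 :=
          mul_le_mul_of_nonneg_left h3 (by positivity)
      _ = 8 * X * L ^ 2 := by push_cast; ring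
  have e4 : (Q : ℝ) ^ 4 ≤ X := by
    calc (Q : ℝ) ^ 4 ≤ (L ^ C) ^ 4 := by gcongr
      _ = L ^ (4 * C) := by rw [← pow_mul, mul_comm]
      _ ≤ 2 * L ^ (4 * C) := by
          have : 0 ≤ L ^ (4 * C) := by positivity
          linarith
      _ ≤ X := hX4
  have e5 : 48 * X * L + 16 * X * L ^ 2 + 2 * X ≤ X * L ^ 3 := by
    have h4 : 48 * L + 16 * L ^ 2 + 2 ≤ L ^ 3 := by nlinarith
    have h5 := mul_le_mul_of_nonneg_left h4 (by positivity : (0 : ℝ) ≤ X)
    linarith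
  linarith

end Pool.Agent.Lib.MP_d9bc60_nt.UV
end

section
/-! Row M4 (about 150 lines): `R_Q(m) = P 𝔖_Q(m) + small`. -/

set_option autoImplicit false

namespace Pool.Agent.Lib.MP_d9bc60_nt.UV

open Finset

theorem m4_vm_nonneg (n : ℕ) : 0 ≤ vm n := ArithmeticFunction.vonMangoldt_nonneg

/-- One modulus: equidistribution of `Λ` in the reduced classes gives the sum of `Λ(n) c(n)` for a `q`-periodic `c`. -/
theorem m4_mod (q P : ℕ) (hq : 1 ≤ q) (c : ℕ → ℝ) (K E : ℝ) (hK : ∀ n, |c n| ≤ K)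
    (hc : ∀ n, c n = c (n % q)) (h1 : |∑ n ∈ Icc 1 P, vm n - P| ≤ E)
    (h2 : ∀ x ∈ (range q).filter (fun x => x.Coprime q),
      |∑ n ∈ (Icc 1 P).filter (fun n => n % q = x), vm n - (P : ℝ) / q.totient| ≤ E) :
    |∑ n ∈ Icc 1 P, vm n * c n - (P : ℝ) / q.totient * ∑ x ∈ (range q).filter (fun x => x.Coprime q), c x| ≤
      K * (1 + 2 * q) * E := by
  classical
  set V : ℕ → ℝ := fun x => ∑ n ∈ (Icc 1 P).filter (fun n => n % q = x), vm n with hV
  have hV0 : ∀ x, 0 ≤ V x := fun x => Finset.sum_nonneg fun n _ => m4_vm_nonneg n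
  have hK0 : 0 ≤ K := (abs_nonneg _).trans (hK 0)
  have hE0 : 0 ≤ E := (abs_nonneg _).trans h1
  have hmaps : ∀ n ∈ Icc 1 P, n % q ∈ range q := fun n _ => mem_range.2 (Nat.mod_lt _ (by omega))
  have e1 : ∑ n ∈ Icc 1 P, vm n = ∑ x ∈ range q, V x := (Finset.sum_fiberwise_of_maps_to hmaps _).symm
  have e2 : ∑ n ∈ Icc 1 P, vm n * c n = ∑ x ∈ range q, c x * V x := by
    rw [← Finset.sum_fiberwise_of_maps_to hmaps]
    refine Finset.sum_congr rfl fun x _ => ?_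
    rw [hV, Finset.mul_sum]
    refine Finset.sum_congr rfl fun n hn => ?_
    rw [hc n, (mem_filter.1 hn).2, mul_comm]
  have hcard : ((range q).filter (fun x => x.Coprime q)).card = q.totient := by
    rw [Nat.totient_eq_card_coprime]
    congr 1
    ext x
    simp only [mem_filter]
    rw [Nat.coprime_comm]
  have hφ : (0 : ℝ) < q.totient := by exact_mod_cast Nat.totient_pos.2 (by omega)
  have hφq : (q.totient : ℝ) ≤ q := by exact_mod_cast Nat.totient_le q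
  set S := (range q).filter (fun x => x.Coprime q) with hS
  set S' := (range q).filter (fun x => ¬ x.Coprime q) with hS'
  have s1 : ∑ x ∈ range q, V x = ∑ x ∈ S, V x + ∑ x ∈ S', V x :=
    (Finset.sum_filter_add_sum_filter_not _ _ _).symm
  have s2 : ∑ x ∈ range q, c x * V x = ∑ x ∈ S, c x * V x + ∑ x ∈ S', c x * V x :=
    (Finset.sum_filter_add_sum_filter_not _ _ _).symm
  have b1 : (P : ℝ) - q.totient * E ≤ ∑ x ∈ S, V x := by
    have : ∑ x ∈ S, ((P : ℝ) / q.totient - E) ≤ ∑ x ∈ S, V x := by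
      refine Finset.sum_le_sum fun x hx => ?_
      have := (abs_le.1 (h2 x hx)).1
      simp only [hV]
      linarith
    rw [Finset.sum_const, hcard, nsmul_eq_mul, mul_sub, mul_div_cancel₀ _ hφ.ne'] at this
    exact this
  have b2 : ∑ x ∈ S', V x ≤ (1 + q) * E := by
    have h3 := (abs_le.1 h1).2
    rw [e1, s1] at h3
    have h4 : (q.totient : ℝ) * E ≤ q * E := mul_le_mul_of_nonneg_right hφq hE0
    linarith
  have b3 : |∑ x ∈ S', c x * V x| ≤ K * ((1 + q) * E) := by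
    refine (Finset.abs_sum_le_sum_abs _ _).trans ?_
    refine le_trans ?_ (mul_le_mul_of_nonneg_left b2 hK0)
    rw [Finset.mul_sum]
    refine Finset.sum_le_sum fun x _ => ?_
    rw [abs_mul, abs_of_nonneg (hV0 x)]
    exact mul_le_mul_of_nonneg_right (hK x) (hV0 x)
  have b4 : |∑ x ∈ S, c x * V x - (P : ℝ) / q.totient * ∑ x ∈ S, c x| ≤ K * (q * E) := by
    rw [Finset.mul_sum, ← Finset.sum_sub_distrib]
    refine (Finset.abs_sum_le_sum_abs _ _).trans ?_
    have h3 : ∑ x ∈ S, |c x * V x - (P : ℝ) / q.totient * c x| ≤ ∑ _x ∈ S, K * E := by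
      refine Finset.sum_le_sum fun x hx => ?_
      have h5 : c x * V x - (P : ℝ) / q.totient * c x = c x * (V x - (P : ℝ) / q.totient) := by ring
      rw [h5, abs_mul]
      exact mul_le_mul (hK x) (h2 x hx) (abs_nonneg _) hK0
    refine h3.trans ?_
    rw [Finset.sum_const, hcard, nsmul_eq_mul]
    have h4 : (q.totient : ℝ) * (K * E) ≤ q * (K * E) := mul_le_mul_of_nonneg_right hφq (mul_nonneg hK0 hE0)
    linarith
  rw [e2, s2]
  have h6 : ∑ x ∈ S, c x * V x + ∑ x ∈ S', c x * V x - (P : ℝ) / q.totient * ∑ x ∈ S, c x =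
      (∑ x ∈ S, c x * V x - (P : ℝ) / q.totient * ∑ x ∈ S, c x) + ∑ x ∈ S', c x * V x := by ring
  rw [h6]
  refine (abs_add_le _ _).trans ?_
  linarith

theorem m4_per (b m : ℤ) (q n : ℕ) : cR q (m - gg b n) = cR q (m - gg b (n % q : ℕ)) := by
  have h : m - gg b n = m - gg b (n % q : ℕ) + q * (-(((n / q : ℕ) : ℤ) * ((n : ℤ) + ((n % q : ℕ) : ℤ) + b))) := by
    have h1 : (n : ℤ) = (q : ℤ) * ((n / q : ℕ) : ℤ) + ((n % q : ℕ) : ℤ) := by
      exact_mod_cast (Nat.div_add_mod n q).symm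
    unfold gg
    generalize ((n / q : ℕ) : ℤ) = t at *
    generalize ((n % q : ℕ) : ℤ) = r at *
    rw [h1]
    ring
  rw [h, cR_periodic]

theorem m4_abs_mu (q : ℕ) : |mu q| ≤ 1 := by
  unfold mu
  have := ArithmeticFunction.abs_moebius_le_one (n := q)
  exact_mod_cast this

/-- Proof. `RQ = ∑_{q ≤ Q} (μ(q)/φ(q)) ∑_{n ≤ P} Λ(n) c_q(m - g(n))`. The `n` with `(n,q) > 1` contribute
`≤ q² ∑_{p ∣ q} log P` each `q`. For the others split by `n ≡ x (q)`: `c_q(m - g(n)) = c_q(m - g(x))`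
(`cR_periodic`), and `sw A' B'` at `x = P` (`A' = A + 4C + 2`, `B' = C + 1`; `log P ≥ (log X)/10`, so
`q ≤ (log X)^C ≤ (log P)^(C+1)`, and `(log P)^(-A') ≤ 10^A' (log X)^(-A')`) gives
`P/φ(q) ∑_x c_q(m-g(x)) + O(q³ P/(log P)^A')`. Sum over `q ≤ Q ≤ (log X)^C`. -/
theorem RQ_eq (A C : ℕ) : ∃ X₀ : ℕ, ∀ X : ℕ, X₀ ≤ X → ∀ P : ℕ, (X : ℝ) ^ (1 / 10 : ℝ) ≤ P → P ≤ X →
    ∀ b m : ℤ, |RQ b (LC C X) P m - P * SQ b (LC C X) m| ≤ (P : ℝ) / Real.log X ^ A := by
  classical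
  obtain ⟨x₀, hx₀⟩ := sw (A + 4 * C + 1) (C + 1)
  set M : ℝ := 3 * 10 ^ (A + 4 * C + 1) + 10 ^ (C + 1) with hM
  refine ⟨max (x₀ ^ 10 + 1) (⌈Real.exp M⌉₊), fun X hX P hP1 hP2 b m => ?_⟩
  have hX1 : x₀ ^ 10 + 1 ≤ X := (le_max_left _ _).trans hX
  have hX2 : Real.exp M ≤ X := (Nat.le_ceil _).trans (by exact_mod_cast (le_max_right _ _).trans hX)
  have hXpos : (0 : ℝ) < X := (Real.exp_pos _).trans_le hX2
  have hL : M ≤ Real.log X := (Real.le_log_iff_exp_le hXpos).2 hX2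
  set L := Real.log X with hLdef
  have hp1 : (1 : ℝ) ≤ 10 ^ (A + 4 * C + 1) := one_le_pow₀ (by norm_num)
  have hp2 : (1 : ℝ) ≤ 10 ^ (C + 1) := one_le_pow₀ (by norm_num)
  have hL1 : 1 ≤ L := by linarith
  have hL3 : 3 * 10 ^ (A + 4 * C + 1) ≤ L := by linarith
  have hL4 : 10 ^ (C + 1) ≤ L := by linarith
  have hPpos : (0 : ℝ) < P := (Real.rpow_pos_of_pos hXpos _).trans_le hP1
  have hlogP : L / 10 ≤ Real.log P := by
    have := Real.log_le_log (Real.rpow_pos_of_pos hXpos _) hP1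
    rw [Real.log_rpow hXpos] at this
    linarith
  have hPx : x₀ ≤ P := by
    have h1 : ((x₀ : ℝ) ^ 10) ^ (1 / 10 : ℝ) ≤ (X : ℝ) ^ (1 / 10 : ℝ) := by
      refine Real.rpow_le_rpow (by positivity) ?_ (by norm_num)
      have : x₀ ^ 10 ≤ X := by omega
      exact_mod_cast this
    have h2 : ((x₀ : ℝ) ^ 10) ^ (1 / 10 : ℝ) = x₀ := by
      rw [← Real.rpow_natCast, ← Real.rpow_mul (Nat.cast_nonneg _)]
      norm_num
    rw [h2] at h1
    exact_mod_cast h1.trans hP1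
  set l := Real.log P with hl
  have hl0 : 0 < l := by linarith
  have hl1 : 10 ^ C ≤ l := by
    have : (10 : ℝ) ^ (C + 1) = 10 ^ C * 10 := pow_succ _ _
    linarith
  set E : ℝ := (P : ℝ) / l ^ (A + 4 * C + 1) with hE
  have hE0 : 0 ≤ E := by positivity
  set Q := LC C X with hQ
  have hQL : (Q : ℝ) ≤ L ^ C := Nat.floor_le (by positivity)
  have hLl : L ^ C ≤ l ^ (C + 1) := by
    have h1 : L ^ C ≤ (10 * l) ^ C := pow_le_pow_left₀ (by linarith) (by linarith) _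
    have h2 : (10 * l) ^ C = 10 ^ C * l ^ C := mul_pow _ _ _
    have h3 : (10 : ℝ) ^ C * l ^ C ≤ l * l ^ C := mul_le_mul_of_nonneg_right hl1 (by positivity)
    rw [pow_succ]
    linarith
  have hlp1 : 1 ≤ l := (one_le_pow₀ (by norm_num)).trans hl1
  have key : ∀ q ∈ Icc 1 Q, |∑ n ∈ Icc 1 P, vm n * cR q (m - gg b n) -
      (P : ℝ) / q.totient * ∑ x ∈ (range q).filter (fun x => x.Coprime q), cR q (m - gg b x)| ≤
      (q : ℝ) ^ 2 * (1 + 2 * q) * E := by
    intro q hq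
    obtain ⟨hq1, hqQ⟩ := mem_Icc.1 hq
    have hqQ' : (q : ℝ) ≤ Q := by exact_mod_cast hqQ
    refine m4_mod q P hq1 (fun n => cR q (m - gg b n)) _ E (fun n => abs_cR_le _ _) (fun n => m4_per b m q n) ?_ ?_
    · have h := hx₀ P hPx 1 le_rfl (by rw [Nat.cast_one]; exact one_le_pow₀ hlp1) 1 (by simp) P le_rfl
      simp only [Nat.mod_one, Finset.filter_true, Nat.totient_one, Nat.cast_one, div_one] at h
      exact h
    · intro x hx
      obtain ⟨hx1, hx2⟩ := mem_filter.1 hx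
      have h := hx₀ P hPx q hq1 (by linarith) x hx2 P le_rfl
      rw [Nat.mod_eq_of_lt (mem_range.1 hx1)] at h
      exact h
  have eq1 : RQ b Q P m - P * SQ b Q m = ∑ q ∈ Icc 1 Q, mu q / q.totient *
      (∑ n ∈ Icc 1 P, vm n * cR q (m - gg b n) -
      (P : ℝ) / q.totient * ∑ x ∈ (range q).filter (fun x => x.Coprime q), cR q (m - gg b x)) := by
    have h1 : RQ b Q P m = ∑ q ∈ Icc 1 Q, mu q / q.totient * ∑ n ∈ Icc 1 P, vm n * cR q (m - gg b n) := by
      unfold RQ vmQ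
      simp only [Finset.mul_sum]
      rw [Finset.sum_comm]
      refine Finset.sum_congr rfl fun q _ => Finset.sum_congr rfl fun n _ => ?_
      ring
    have h2 : P * SQ b Q m = ∑ q ∈ Icc 1 Q, mu q / q.totient * ((P : ℝ) / q.totient *
        ∑ x ∈ (range q).filter (fun x => x.Coprime q), cR q (m - gg b x)) := by
      unfold SQ YY
      rw [Finset.mul_sum]
      refine Finset.sum_congr rfl fun q _ => ?_
      ring
    rw [h1, h2, ← Finset.sum_sub_distrib]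
    refine Finset.sum_congr rfl fun q _ => ?_
    ring
  rw [eq1]
  have hQ0 : (0 : ℝ) ≤ Q := Nat.cast_nonneg _
  have tot : |∑ q ∈ Icc 1 Q, mu q / q.totient *
      (∑ n ∈ Icc 1 P, vm n * cR q (m - gg b n) -
      (P : ℝ) / q.totient * ∑ x ∈ (range q).filter (fun x => x.Coprime q), cR q (m - gg b x))| ≤
      3 * (Q : ℝ) ^ 4 * E := by
    refine (Finset.abs_sum_le_sum_abs _ _).trans ?_
    have h1 : ∀ q ∈ Icc 1 Q, |mu q / q.totient * (∑ n ∈ Icc 1 P, vm n * cR q (m - gg b n) -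
      (P : ℝ) / q.totient * ∑ x ∈ (range q).filter (fun x => x.Coprime q), cR q (m - gg b x))| ≤
        3 * (Q : ℝ) ^ 3 * E := by
      intro q hq
      obtain ⟨hq1, hqQ⟩ := mem_Icc.1 hq
      have hqQ' : (q : ℝ) ≤ Q := by exact_mod_cast hqQ
      have hq1' : (1 : ℝ) ≤ q := by exact_mod_cast hq1
      have hφ : (1 : ℝ) ≤ q.totient := by exact_mod_cast Nat.totient_pos.2 (by omega)
      have h2 : |mu q / q.totient| ≤ 1 := by
        rw [abs_div, abs_of_nonneg (by linarith : (0 : ℝ) ≤ q.totient), div_le_one (by linarith)]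
        exact (m4_abs_mu q).trans hφ
      rw [abs_mul]
      have h3 := key q hq
      refine (mul_le_mul h2 h3 (abs_nonneg _) zero_le_one).trans ?_
      rw [one_mul]
      refine mul_le_mul_of_nonneg_right ?_ hE0
      have h4 : (q : ℝ) ^ 2 * (1 + 2 * q) ≤ 3 * (q : ℝ) ^ 3 := by nlinarith [sq_nonneg (q : ℝ)]
      have h5 : (q : ℝ) ^ 3 ≤ (Q : ℝ) ^ 3 := pow_le_pow_left₀ (by linarith) hqQ' _
      linarith
    refine (Finset.sum_le_sum h1).trans ?_
    rw [Finset.sum_const, Nat.card_Icc, nsmul_eq_mul, Nat.add_sub_cancel]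
    apply le_of_eq
    ring
  refine tot.trans ?_
  have hL0 : 0 < L := by linarith
  have h1 : (Q : ℝ) ^ 4 ≤ L ^ (4 * C) := by
    rw [mul_comm 4 C, pow_mul]
    exact pow_le_pow_left₀ hQ0 hQL _
  have h2 : E ≤ P * (10 ^ (A + 4 * C + 1) / L ^ (A + 4 * C + 1)) := by
    rw [hE, div_eq_mul_inv, ← div_pow]
    refine mul_le_mul_of_nonneg_left ?_ hPpos.le
    rw [← inv_pow]
    refine pow_le_pow_left₀ (by positivity) ?_ _
    rw [inv_le_comm₀ hl0 (by positivity), inv_div]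
    exact hlogP
  have h3 : 3 * (Q : ℝ) ^ 4 * E ≤ 3 * L ^ (4 * C) * (P * (10 ^ (A + 4 * C + 1) / L ^ (A + 4 * C + 1))) :=
    mul_le_mul (mul_le_mul_of_nonneg_left h1 (by norm_num)) h2 hE0 (by positivity)
  refine h3.trans ?_
  have h4 : 3 * L ^ (4 * C) * (P * (10 ^ (A + 4 * C + 1) / L ^ (A + 4 * C + 1))) =
      P / L ^ A * (3 * 10 ^ (A + 4 * C + 1) / L) := by
    rw [show L ^ (A + 4 * C + 1) = L ^ A * L ^ (4 * C) * L by rw [← pow_add, ← pow_succ]]
    field_simp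
  rw [h4]
  refine mul_le_of_le_one_right (by positivity) ?_
  rw [div_le_one hL0]
  exact hL3

end Pool.Agent.Lib.MP_d9bc60_nt.UV
end
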