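import Pool.Agent.Lib.MP_d9bc60_nt.UV.PRam
import Pool.Agent.Lib.MP_d9bc60_nt.UV.PTools
import Pool.Agent.Lib.MP_d9bc60_nt.UV.PDefs
import Pool.Agent.Lib.MP_d9bc60_nt.TH.R3Mertens

section
/-! Row G1 (about 150 lines): `Y_q` is multiplicative in `q` and periodic in `m`. -/

set_option autoImplicit false

namespace Pool.Agent.Lib.MP_d9bc60_nt.UV

open Finset

/-- Proof. `cR_periodic`. -/
theorem YY_periodic (b : ℤ) (q : ℕ) (m k : ℤ) : YY b q (m + q * k) = YY b q m := by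
  unfold YY
  congr 1
  apply sum_congr rfl
  intro x _
  have : m + q * k - gg b x = m - gg b x + q * k := by ring
  rw [this, cR_periodic]

theorem g1_mod (b : ℤ) (q x : ℕ) (m : ℤ) : cR q (m - gg b x) = cR q (m - gg b (x % q)) := by
  have h := Nat.mod_add_div x q
  have h1 : (x : ℤ) = ((x % q : ℕ) : ℤ) + q * ((x / q : ℕ) : ℤ) := by exact_mod_cast h.symm
  have h2 : m - gg b (x % q) = m - gg b x +
      q * (((x / q : ℕ) : ℤ) * ((x : ℤ) + ((x % q : ℕ) : ℤ) + b)) := by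
    unfold gg
    rw [h1]
    push_cast
    ring
  rw [h2, cR_periodic]

theorem g1_cop (q x : ℕ) : (x % q).Coprime q ↔ x.Coprime q := by
  unfold Nat.Coprime
  rw [← Nat.gcd_rec, Nat.gcd_comm]

/-- Proof. `μ` and `φ` are multiplicative; `cR_mul`; the sum over `x mod q₁q₂`, `(x, q₁q₂) = 1`, is a
product by the Chinese remainder theorem (`Nat.chineseRemainder` / `ZMod.chineseRemainder`), since
`c_{q₁}(m - g(x))` depends only on `x mod q₁` (`cR_periodic`). -/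
theorem YY_mul (b : ℤ) (q₁ q₂ : ℕ) (h : q₁.Coprime q₂) (m : ℤ) :
    YY b (q₁ * q₂) m = YY b q₁ m * YY b q₂ m := by
  have hmu0 : mu 0 = 0 := by
    unfold mu
    simp
  rcases Nat.eq_zero_or_pos q₁ with h1 | h1
  · subst h1
    unfold YY
    simp [hmu0]
  rcases Nat.eq_zero_or_pos q₂ with h2 | h2
  · subst h2
    unfold YY
    simp [hmu0]
  have hsum : ∑ x ∈ (range (q₁ * q₂)).filter (fun x => x.Coprime (q₁ * q₂)),
      cR (q₁ * q₂) (m - gg b x) =
      (∑ x ∈ (range q₁).filter (fun x => x.Coprime q₁), cR q₁ (m - gg b x)) *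
      ∑ x ∈ (range q₂).filter (fun x => x.Coprime q₂), cR q₂ (m - gg b x) := by
    rw [sum_mul_sum, ← sum_product']
    apply sum_nbij (fun x => (x % q₁, x % q₂))
    · intro x hx
      rw [mem_filter, mem_range] at hx
      rw [mem_product, mem_filter, mem_filter, mem_range, mem_range]
      have hc := Nat.Coprime.coprime_mul_right_right hx.2
      have hc' := Nat.Coprime.coprime_mul_left_right hx.2
      exact ⟨⟨Nat.mod_lt _ h1, (g1_cop q₁ x).mpr hc⟩, ⟨Nat.mod_lt _ h2, (g1_cop q₂ x).mpr hc'⟩⟩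
    · intro x hx y hy hxy
      rw [mem_coe, mem_filter, mem_range] at hx hy
      have e1 : x % q₁ = y % q₁ := congrArg Prod.fst hxy
      have e2 : x % q₂ = y % q₂ := congrArg Prod.snd hxy
      have e3 : x ≡ y [MOD q₁ * q₂] := (Nat.modEq_and_modEq_iff_modEq_mul h).mp ⟨e1, e2⟩
      exact e3.eq_of_lt_of_lt hx.1 hy.1
    · intro y hy
      rw [mem_coe, mem_product, mem_filter, mem_filter, mem_range, mem_range] at hy
      obtain ⟨z, hz1, hz2⟩ := Nat.chineseRemainder h y.1 y.2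
      have hz3 : z % (q₁ * q₂) % q₁ = y.1 := by
        rw [Nat.mod_mul_right_mod]
        exact (Nat.ModEq.eq_1 _ _ _ ▸ hz1).trans (Nat.mod_eq_of_lt hy.1.1)
      have hz4 : z % (q₁ * q₂) % q₂ = y.2 := by
        rw [Nat.mod_mul_left_mod]
        exact (Nat.ModEq.eq_1 _ _ _ ▸ hz2).trans (Nat.mod_eq_of_lt hy.2.1)
      refine ⟨z % (q₁ * q₂), ?_, ?_⟩
      · rw [mem_coe, mem_filter, mem_range]
        refine ⟨Nat.mod_lt _ (Nat.mul_pos h1 h2), ?_⟩
        apply Nat.Coprime.mul_right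
        · rw [← g1_cop, hz3]
          exact hy.1.2
        · rw [← g1_cop, hz4]
          exact hy.2.2
      · show (z % (q₁ * q₂) % q₁, z % (q₁ * q₂) % q₂) = y
        rw [hz3, hz4]
    · intro x _
      rw [cR_mul _ _ h, g1_mod b q₁ x m, g1_mod b q₂ x m]
  unfold YY
  rw [hsum]
  have hm : mu (q₁ * q₂) = mu q₁ * mu q₂ := by
    unfold mu
    rw [ArithmeticFunction.isMultiplicative_moebius.map_mul_of_coprime h]
    push_cast
    rfl
  rw [hm, Nat.totient_mul h]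
  have t1 : ((q₁.totient : ℕ) : ℝ) ≠ 0 := by exact_mod_cast (Nat.totient_pos.mpr h1).ne'
  have t2 : ((q₂.totient : ℕ) : ℝ) ≠ 0 := by exact_mod_cast (Nat.totient_pos.mpr h2).ne'
  push_cast
  field_simp

theorem YY_one (b m : ℤ) : YY b 1 m = 1 := by
  unfold YY cR mu
  have h : ((1 : ℕ).divisors.filter (fun d : ℕ => (d : ℤ) ∣ m - gg b 0)) = {1} := by
    ext d
    rw [mem_filter, Nat.divisors_one, mem_singleton]
    constructor
    · exact fun h => h.1
    · rintro rfl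
      exact ⟨rfl, by simp⟩
  have h2 : (range 1).filter (fun x => x.Coprime 1) = {0} := by
    ext x
    rw [mem_filter, mem_range, mem_singleton]
    constructor
    · rintro ⟨h, _⟩
      omega
    · rintro rfl
      exact ⟨by norm_num, by simp⟩
  rw [h2, sum_singleton, h, sum_singleton]
  simp

/-- Proof. `μ(q) = 0`. -/
theorem YY_not_squarefree (b : ℤ) (q : ℕ) (h : ¬ Squarefree q) (m : ℤ) : YY b q m = 0 := by
  unfold YY mu
  rw [ArithmeticFunction.moebius_eq_zero_of_not_squarefree h]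
  simp

end Pool.Agent.Lib.MP_d9bc60_nt.UV
end

section
/-! Row G2 (about 170 lines): `Y_l` at primes. -/

set_option autoImplicit false

namespace Pool.Agent.Lib.MP_d9bc60_nt.UV

open Finset

/-- `ρ(m) = #{x ∈ [1, l-1] : g(x) ≡ m (l)}`. -/
def rho (b : ℤ) (l : ℕ) (m : ℤ) : ℕ :=
  ((range l).filter (fun x => x.Coprime l ∧ (l : ℤ) ∣ m - gg b x)).card

theorem g2_cR (l : ℕ) (hl : l.Prime) (n : ℤ) :
    cR l n = (if (l : ℤ) ∣ n then (l : ℝ) else 0) - 1 := by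
  classical
  have hmu1 : mu 1 = 1 := by simp [mu]
  have hmul : mu l = -1 := by simp [mu, ArithmeticFunction.moebius_apply_prime hl]
  have hne : (1 : ℕ) ≠ l := hl.one_lt.ne
  rw [cR, Finset.sum_filter, hl.divisors, Finset.sum_pair hne]
  simp only [Nat.cast_one, isUnit_one, IsUnit.dvd, if_true, Nat.div_one, mul_one,
    Nat.div_self hl.pos]
  rw [hmu1, hmul]
  split_ifs <;> ring

theorem g2_card (l : ℕ) (hl : l.Prime) :
    (((range l).filter (fun x => x.Coprime l)).card : ℝ) = (l : ℝ) - 1 := by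
  have h1 : ((range l).filter (fun x => x.Coprime l)).card = l.totient := by
    rw [Nat.totient_eq_card_coprime]
    congr 1
    refine Finset.filter_congr (fun x _ => ?_)
    exact Nat.coprime_comm
  rw [h1, Nat.totient_prime hl, Nat.cast_sub hl.one_le, Nat.cast_one]

theorem g2_rho (b : ℤ) (l : ℕ) (m : ℤ) : (rho b l m : ℝ) =
    ∑ x ∈ (range l).filter (fun x => x.Coprime l), (if (l : ℤ) ∣ m - gg b x then (1 : ℝ) else 0) := by
  classical
  rw [rho, ← Finset.filter_filter, Finset.card_filter]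
  push_cast
  rfl

/-- Proof. `c_l(n) = l [l ∣ n] - 1`, `μ(l) = -1`, `φ(l) = l-1`, there are `l - 1` residues `x`. -/
theorem YY_prime (b : ℤ) (l : ℕ) (hl : l.Prime) (m : ℤ) :
    YY b l m = ((l : ℝ) - 1 - l * rho b l m) / ((l : ℝ) - 1) ^ 2 := by
  classical
  have hmul : mu l = -1 := by simp [mu, ArithmeticFunction.moebius_apply_prime hl]
  have htot : (l.totient : ℝ) = (l : ℝ) - 1 := by
    rw [Nat.totient_prime hl, Nat.cast_sub hl.one_le, Nat.cast_one]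
  have hsum : ∑ x ∈ (range l).filter (fun x => x.Coprime l), cR l (m - gg b x)
      = l * rho b l m - ((l : ℝ) - 1) := by
    rw [g2_rho, Finset.mul_sum, ← g2_card l hl, Finset.card_eq_sum_ones]
    push_cast
    rw [← Finset.sum_sub_distrib]
    refine Finset.sum_congr rfl (fun x _ => ?_)
    rw [g2_cR l hl]
    split_ifs <;> ring
  rw [YY, hmul, htot, hsum]
  ring

/-- Proof. A quadratic congruence modulo a prime has at most 2 roots. -/
theorem rho_le_two (b : ℤ) (l : ℕ) (hl : l.Prime) (m : ℤ) : rho b l m ≤ 2 := by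
  classical
  by_contra hcon
  push Not at hcon
  rw [rho, Finset.two_lt_card] at hcon
  obtain ⟨x, hx, y, hy, z, hz, hxy, hxz, hyz⟩ := hcon
  simp only [Finset.mem_filter, Finset.mem_range] at hx hy hz
  have hlp : Prime (l : ℤ) := Nat.prime_iff_prime_int.mp hl
  have hdist : ∀ u v : ℕ, u < l → v < l → u ≠ v → ¬ (l : ℤ) ∣ (u : ℤ) - v := by
    intro u v hu hv huv hd
    have h1 : (v : ℤ) ≡ u [ZMOD l] := Int.modEq_iff_dvd.mpr hd
    have h2 : v ≡ u [MOD l] := (Int.natCast_modEq_iff).mp h1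
    rw [Nat.ModEq, Nat.mod_eq_of_lt hu, Nat.mod_eq_of_lt hv] at h2
    exact huv h2.symm
  have hkey : ∀ u v : ℕ, u < l → v < l → u ≠ v → (l : ℤ) ∣ m - gg b u → (l : ℤ) ∣ m - gg b v →
      (l : ℤ) ∣ (u : ℤ) + v + b := by
    intro u v hu hv huv h1 h2
    have h3 : (l : ℤ) ∣ ((u : ℤ) - v) * ((u : ℤ) + v + b) := by
      have := dvd_sub h2 h1
      have h4 : (m - gg b v) - (m - gg b u) = ((u : ℤ) - v) * ((u : ℤ) + v + b) := by
        simp only [gg]; ring
      rw [h4] at this; exact this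
    exact (hlp.dvd_or_dvd h3).resolve_left (hdist u v hu hv huv)
  have h1 := hkey x y hx.1 hy.1 hxy hx.2.2 hy.2.2
  have h2 := hkey x z hx.1 hz.1 hxz hx.2.2 hz.2.2
  have h3 : (l : ℤ) ∣ (y : ℤ) - z := by
    have := dvd_sub h1 h2
    have h4 : ((x : ℤ) + y + b) - ((x : ℤ) + z + b) = (y : ℤ) - z := by ring
    rw [h4] at this; exact this
  exact hdist y z hy.1 hz.1 hyz h3

/-- Proof. For `l = 3` and `3 ∤ b`: `g(1) = 1 + b`, `g(2) ≡ 1 + 2b` are distinct mod 3. -/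
theorem rho_three (b : ℤ) (h : ¬ (3 : ℤ) ∣ b) (m : ℤ) : rho b 3 m ≤ 1 := by
  classical
  by_contra hcon
  push Not at hcon
  rw [rho, Finset.one_lt_card] at hcon
  obtain ⟨x, hx, y, hy, hxy⟩ := hcon
  rw [Finset.mem_filter, Finset.mem_range] at hx hy
  simp only [gg, Nat.cast_ofNat] at hx hy
  have h3 : ∀ u : ℕ, u < 3 → u.Coprime 3 → u = 1 ∨ u = 2 := by
    intro u hu hc
    interval_cases u
    · simp at hc
    · left; rfl
    · right; rfl
  rcases h3 x hx.1 hx.2.1 with hx1 | hx1 <;> rcases h3 y hy.1 hy.2.1 with hy1 | hy1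
  · omega
  · rw [hx1] at hx; rw [hy1] at hy
    obtain ⟨c, hc⟩ := hx.2.2
    obtain ⟨e, he⟩ := hy.2.2
    push_cast at hc he
    apply h
    refine ⟨c - e - 1, ?_⟩
    linarith only [he, hc]
  · rw [hx1] at hx; rw [hy1] at hy
    obtain ⟨c, hc⟩ := hx.2.2
    obtain ⟨e, he⟩ := hy.2.2
    push_cast at hc he
    apply h
    refine ⟨e - c - 1, ?_⟩
    linarith only [hc, he]
  · omega

/-- Proof. `x = 1`: `m - g(1) = m - 1 - b` is odd, so `ρ = 0` and `Y_2 = 1`. -/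
theorem YY_two (b m : ℤ) (h : (2 : ℤ) ∣ m - b) : YY b 2 m = 1 := by
  have h0 : rho b 2 m = 0 := by
    rw [rho, Finset.card_eq_zero, Finset.filter_eq_empty_iff]
    intro x hx hcon
    rw [Finset.mem_range] at hx
    have hx1 : x = 1 := by
      have := hcon.1
      interval_cases x
      · simp at this
      · rfl
    rw [hx1] at hcon
    obtain ⟨c, hc⟩ := hcon.2
    obtain ⟨e, he⟩ := h
    simp only [gg] at hc
    push_cast at hc
    (clear * - hcon he hc; omega)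
  rw [YY_prime b 2 Nat.prime_two, h0]
  norm_num

/-- Proof. `|l - 1 - lρ| ≤ l + 1` (`ρ ∈ {0,1,2}`) and `l (l+1) ≤ 4 (l-1)²` for `l ≥ 3`. -/
theorem abs_YY_prime_le (b : ℤ) (l : ℕ) (hl : l.Prime) (h3 : 3 ≤ l) (m : ℤ) : |YY b l m| ≤ 4 / l := by
  have h3' : (3 : ℝ) ≤ l := by exact_mod_cast h3
  have hr := rho_le_two b l hl m
  have hpos : 0 < ((l : ℝ) - 1) ^ 2 := by
    have : (0 : ℝ) < (l : ℝ) - 1 := by linarith only [h3']
    (clear * - this; positivity)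
  rw [YY_prime b l hl, abs_div, abs_of_pos hpos, div_le_div_iff₀ hpos (by linarith only [h3'])]
  have h1 : |(l : ℝ) - 1 - l * rho b l m| ≤ l + 1 := by
    have hr' : (rho b l m : ℝ) ≤ 2 := by exact_mod_cast hr
    have hr0 : (0 : ℝ) ≤ rho b l m := Nat.cast_nonneg _
    rw [abs_le]
    constructor
    · nlinarith only [hr']
    · nlinarith only []
  nlinarith only [h3', h1]

/-- Proof. `1 + Y_l = l(l - 1 - ρ)/(l-1)²`. For `l ≥ 5`: `≥ l(l-3)/(l-1)² ≥ (1 - 1/l)^4`; for `l = 3`: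
`≥ 3/4` by `rho_three`. -/
theorem one_add_YY_ge (b : ℤ) (h : ¬ (3 : ℤ) ∣ b) (l : ℕ) (hl : l.Prime) (h3 : 3 ≤ l) (m : ℤ) :
    (1 - 1 / (l : ℝ)) ^ 4 ≤ 1 + YY b l m := by
  have h3' : (3 : ℝ) ≤ l := by exact_mod_cast h3
  have hl0 : (0 : ℝ) < l := by linarith only [h3']
  have hpos : 0 < ((l : ℝ) - 1) ^ 2 := by
    have : (0 : ℝ) < (l : ℝ) - 1 := by linarith only [h3']
    (clear * - this; positivity)
  have h1 : 1 + YY b l m = (l * ((l : ℝ) - 1 - rho b l m)) / ((l : ℝ) - 1) ^ 2 := by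
    rw [YY_prime b l hl]
    rw [eq_div_iff hpos.ne', add_mul, div_mul_cancel₀ _ hpos.ne']
    ring
  have h2 : (1 - 1 / (l : ℝ)) ^ 4 = ((l : ℝ) - 1) ^ 4 / (l : ℝ) ^ 4 := by
    rw [← div_pow]; congr 1; field_simp
  rw [h1, h2, div_le_div_iff₀ (by (clear * - h3; positivity)) hpos]
  by_cases h5 : 5 ≤ l
  · have h5' : (5 : ℝ) ≤ l := by exact_mod_cast h5
    have hr : (rho b l m : ℝ) ≤ 2 := by exact_mod_cast rho_le_two b l hl m
    have h4 : ((l : ℝ) - 1) ^ 4 * ((l : ℝ) - 1) ^ 2 ≤ (l * ((l : ℝ) - 3)) * (l : ℝ) ^ 4 := by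
      have h6 : (l * ((l : ℝ) - 3)) * (l : ℝ) ^ 4 - ((l : ℝ) - 1) ^ 4 * ((l : ℝ) - 1) ^ 2
          = 3 * (l : ℝ) ^ 4 * (l - 5) + (l : ℝ) ^ 2 * (20 * l - 15) + (6 * l - 1) := by ring
      have h7 : 0 ≤ 3 * (l : ℝ) ^ 4 * (l - 5) := by
        have : 0 ≤ (l : ℝ) - 5 := by linarith only [h5']
        (clear * - h3 h5'; positivity)
      have h8 : 0 ≤ (l : ℝ) ^ 2 * (20 * l - 15) := by
        have : 0 ≤ 20 * (l : ℝ) - 15 := by linarith only [h5']
        (clear * - h3 this; positivity)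
      linarith only [h5', h7, h8]
    refine h4.trans ?_
    refine mul_le_mul_of_nonneg_right ?_ (by positivity)
    exact mul_le_mul_of_nonneg_left (by linarith only [hr]) hl0.le
  · have hl3 : l = 3 := by
      have : l ≠ 4 := by
        intro h4; rw [h4] at hl; exact absurd hl (by decide)
      omega
    subst hl3
    have hr : (rho b 3 m : ℝ) ≤ 1 := by exact_mod_cast rho_three b h m
    push_cast
    norm_num
    linarith only [hr]

/-- Proof. `∑_m ρ(m) = l - 1`. -/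
theorem sum_YY_prime (b : ℤ) (l : ℕ) (hl : l.Prime) : ∑ m ∈ range l, YY b l (m : ℤ) = 0 := by
  classical
  have hl1 : (1 : ℝ) < l := by exact_mod_cast hl.one_lt
  have hne : ((l : ℝ) - 1) ^ 2 ≠ 0 := by
    have : (0 : ℝ) < (l : ℝ) - 1 := by linarith only [hl1]
    (clear * - hl1; positivity)
  have hrho : ∑ m ∈ range l, (rho b l (m : ℤ) : ℝ) = (l : ℝ) - 1 := by
    have h0 : ∑ m ∈ range l, (rho b l (m : ℤ) : ℝ) = ∑ m ∈ range l,
        ∑ x ∈ (range l).filter (fun x => x.Coprime l),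
          (if (l : ℤ) ∣ (m : ℤ) - gg b x then (1 : ℝ) else 0) :=
      Finset.sum_congr rfl (fun m _ => g2_rho b l (m : ℤ))
    rw [h0, Finset.sum_comm, ← g2_card l hl, Finset.card_eq_sum_ones]
    push_cast
    refine Finset.sum_congr rfl (fun x _ => ?_)
    rw [← Finset.sum_filter, Finset.sum_const, nsmul_eq_mul, mul_one]
    have h1 : ((range l).filter (fun m : ℕ => (l : ℤ) ∣ (m : ℤ) - gg b x)).card = 1 := by
      rw [Finset.card_eq_one]
      have hlz : (0 : ℤ) < l := by exact_mod_cast hl.pos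
      have hr0 : 0 ≤ gg b x % l := Int.emod_nonneg _ hlz.ne'
      have hr1 : gg b x % l < l := Int.emod_lt_of_pos _ hlz
      refine ⟨(gg b x % l).toNat, ?_⟩
      ext m
      simp only [Finset.mem_filter, Finset.mem_range, Finset.mem_singleton]
      constructor
      · rintro ⟨hm, hd⟩
        have h4 : (gg b x) ≡ (m : ℤ) [ZMOD l] := Int.modEq_iff_dvd.mpr hd
        have h2 : (m : ℤ) % l = gg b x % l := h4.symm
        have h3 : (m : ℤ) % l = m := Int.emod_eq_of_lt (by (clear * -; positivity)) (by exact_mod_cast hm)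
        rw [h3] at h2
        omega
      · intro hm
        have h2 : (m : ℤ) = gg b x % l := by omega
        refine ⟨by omega, ?_⟩
        rw [h2]
        refine ⟨-(gg b x / l), ?_⟩
        have h5 := Int.emod_add_mul_ediv (gg b x) l
        linarith only [h5]
    rw [h1]; norm_num
  have h1 : ∑ m ∈ range l, YY b l (m : ℤ)
      = (∑ m ∈ range l, ((l : ℝ) - 1 - l * rho b l (m : ℤ))) / ((l : ℝ) - 1) ^ 2 := by
    rw [Finset.sum_div]
    exact Finset.sum_congr rfl (fun m _ => YY_prime b l hl m)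
  rw [h1, Finset.sum_sub_distrib, ← Finset.mul_sum, hrho, Finset.sum_const, Finset.card_range,
    nsmul_eq_mul, sub_self, zero_div]

end Pool.Agent.Lib.MP_d9bc60_nt.UV
end

section
/-! Row G3 (about 150 lines): size of `Y_q`, tail sums. -/

set_option autoImplicit false

namespace Pool.Agent.Lib.MP_d9bc60_nt.UV

open Finset

theorem g3_sqfree (b : ℤ) (m : ℤ) (q : ℕ) : Odd q → Squarefree q →
    |YY b q m| ≤ (q.divisors.card : ℝ) ^ 2 / q := by
  induction q using Nat.recOnPosPrimePosCoprime with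
  | prime_pow p n hp hn =>
    intro hodd hsq
    have hn1 : n = 1 := by
      rcases (Nat.squarefree_pow_iff hp.ne_one hn.ne').1 hsq with ⟨-, h⟩
      exact h
    subst hn1
    rw [pow_one] at hodd ⊢
    have h3 : 3 ≤ p := by
      have h2 := hp.two_le
      have : p ≠ 2 := by
        rintro rfl
        exact absurd hodd (by decide)
      omega
    have h1 := abs_YY_prime_le b p hp h3 m
    have h2 : p.divisors.card = 2 := by
      rw [hp.divisors, Finset.card_pair hp.ne_one.symm]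
    rw [h2]
    norm_num at h1 ⊢
    exact h1
  | zero => intro h; exact absurd h (by decide)
  | one => intro _ _; rw [YY_one]; norm_num
  | coprime a c ha hc hac iha ihc =>
    intro hodd hsq
    have hodd' := Nat.odd_mul.1 hodd
    have hsq' := (Nat.squarefree_mul hac).1 hsq
    have h1 := iha hodd'.1 hsq'.1
    have h2 := ihc hodd'.2 hsq'.2
    rw [YY_mul b a c hac m, abs_mul, Nat.Coprime.card_divisors_mul hac]
    push_cast
    have e : ((a.divisors.card : ℝ) * c.divisors.card) ^ 2 / (a * c) =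
        ((a.divisors.card : ℝ) ^ 2 / a) * ((c.divisors.card : ℝ) ^ 2 / c) := by
      rw [mul_pow, mul_div_mul_comm]
    rw [e]
    exact mul_le_mul h1 h2 (abs_nonneg _) ((abs_nonneg _).trans h1)

/-- Proof. Squarefree: multiplicativity, `abs_YY_prime_le`, `4^ω(q) = τ(q)²`. Otherwise `0`. -/
theorem abs_YY_le (b : ℤ) (q : ℕ) (hq : Odd q) (m : ℤ) :
    |YY b q m| ≤ (q.divisors.card : ℝ) ^ 2 / q := by
  by_cases h : Squarefree q
  · exact g3_sqfree b m q hq h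
  · rw [YY_not_squarefree b q h m, abs_zero]
    (clear * -; positivity)

theorem g3_term (q : ℕ) (hq : 1 ≤ q) :
    1 / ((q + 1 : ℝ) * Real.sqrt (q + 1)) ≤ 2 / Real.sqrt q - 2 / Real.sqrt (q + 1) := by
  have hq' : (1 : ℝ) ≤ q := by exact_mod_cast hq
  set a := Real.sqrt q with ha
  set c := Real.sqrt ((q : ℝ) + 1) with hc
  have ha0 : 0 < a := Real.sqrt_pos.2 (by linarith only [hq'])
  have hc0 : 0 < c := Real.sqrt_pos.2 (by linarith only [hq'])
  have ha2 : a ^ 2 = q := Real.sq_sqrt (by linarith only [hq'])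
  have hc2 : c ^ 2 = (q : ℝ) + 1 := Real.sq_sqrt (by linarith only [hq'])
  have hac : a ≤ c := Real.sqrt_le_sqrt (by linarith only [])
  rw [← hc2, div_sub_div _ _ ha0.ne' hc0.ne', div_le_div_iff₀ (by (clear * - hq; positivity)) (by positivity)]
  have h1 : (c - a) * (c + a) = 1 := by
    have : (c - a) * (c + a) = c ^ 2 - a ^ 2 := by ring
    rw [this, hc2, ha2]; ring
  have h2 : 1 ≤ (c - a) * (2 * c) := by
    have : 0 ≤ (c - a) * (c - a) := mul_self_nonneg _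
    nlinarith only [ha2, hc2]
  have h3 : 1 * (a * c) ≤ c * (c * (a * ((c - a) * (2 * c)))) := by
    have h4 : a * c ≤ a * c * ((c - a) * (2 * c)) := by
      have := mul_le_mul_of_nonneg_left h2 (mul_pos ha0 hc0).le
      linarith only [this]
    have h5 : 0 ≤ a * c * ((c - a) * (2 * c)) := by
      have := (mul_pos ha0 hc0).le
      exact mul_nonneg this (by linarith only [h2])
    have hc1 : 1 ≤ c := by
      rw [hc]; exact Real.one_le_sqrt.2 (by linarith only [hq'])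
    have h6 : a * c * ((c - a) * (2 * c)) ≤ c * (a * c * ((c - a) * (2 * c))) := by
      nlinarith only [hq', hc0, ha2, hc2, h2, h4]
    nlinarith only [h4, h6]
  nlinarith only [h2]

theorem g3_sum (z D : ℕ) (hz : 1 ≤ z) (hD : z ≤ D) :
    ∑ q ∈ Ioc z D, 1 / ((q : ℝ) * Real.sqrt q) ≤ 2 / Real.sqrt z - 2 / Real.sqrt D := by
  induction D, hD using Nat.le_induction with
  | base => simp
  | succ D hD ih =>
    rw [← Finset.insert_Ioc_right_eq_Ioc_add_one hD, Finset.sum_insert (by simp)]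
    have h1 := g3_term D (hz.trans hD)
    push_cast
    linarith only [ih, h1]

/-- Proof. `tau_le (1/8)`: `τ^4 ≤ C q^(1/2)`, and `∑_{q > z} q^(-3/2) ≤ 3 z^(-1/2)`. -/
theorem tau_tail : ∃ C : ℝ, 1 ≤ C ∧ ∀ z D : ℕ, 1 ≤ z →
    ∑ q ∈ Ioc z D, (q.divisors.card : ℝ) ^ 4 / (q : ℝ) ^ 2 ≤ C / Real.sqrt z := by
  obtain ⟨C0, hC0, hτ⟩ := tau_le (1 / 8) (by norm_num)
  have hC4 : 1 ≤ C0 ^ 4 := one_le_pow₀ hC0
  refine ⟨2 * C0 ^ 4, by linarith only [hC4], fun z D hz => ?_⟩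
  have hz0 : 0 < Real.sqrt z := Real.sqrt_pos.2 (by exact_mod_cast hz)
  rcases Nat.lt_or_ge D z with h | h
  · rw [Finset.Ioc_eq_empty_of_le h.le, Finset.sum_empty]
    (clear * - hC0 hz; positivity)
  have hterm : ∀ q ∈ Ioc z D, (q.divisors.card : ℝ) ^ 4 / (q : ℝ) ^ 2 ≤
      C0 ^ 4 * (1 / ((q : ℝ) * Real.sqrt q)) := by
    intro q hq
    have hq1 : 1 ≤ q := hz.trans (Finset.mem_Ioc.1 hq).1.le
    have hq0 : (0 : ℝ) < q := by exact_mod_cast hq1
    have h1 := hτ q hq1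
    have h2 : (q.divisors.card : ℝ) ^ 4 ≤ C0 ^ 4 * Real.sqrt q := by
      have h3 := pow_le_pow_left₀ (Nat.cast_nonneg _) h1 4
      rw [mul_pow, ← Real.rpow_natCast, ← Real.rpow_natCast ((q : ℝ) ^ (1 / 8 : ℝ)),
        ← Real.rpow_mul hq0.le] at h3
      rw [Real.sqrt_eq_rpow]
      norm_num at h3 ⊢
      exact h3
    have hs : 0 < Real.sqrt q := Real.sqrt_pos.2 hq0
    have hss : Real.sqrt q * Real.sqrt q = q := Real.mul_self_sqrt hq0.le
    rw [div_le_iff₀ (by (clear * - hq1; positivity))]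
    calc (q.divisors.card : ℝ) ^ 4 ≤ C0 ^ 4 * Real.sqrt q := h2
      _ = C0 ^ 4 * (1 / ((q : ℝ) * Real.sqrt q)) * (q : ℝ) ^ 2 := by
        field_simp
        nlinarith only [hss]
  refine (Finset.sum_le_sum hterm).trans ?_
  rw [← Finset.mul_sum]
  have h1 := g3_sum z D hz h
  have h2 : 0 ≤ 2 / Real.sqrt D := by (clear * -; positivity)
  calc C0 ^ 4 * ∑ q ∈ Ioc z D, 1 / ((q : ℝ) * Real.sqrt q) ≤ C0 ^ 4 * (2 / Real.sqrt z) :=
        mul_le_mul_of_nonneg_left (by linarith only [h1, h2]) (by linarith only [hC4])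
    _ = 2 * C0 ^ 4 / Real.sqrt z := by ring

end Pool.Agent.Lib.MP_d9bc60_nt.UV
end

section
/-! Row G4 (about 190 lines): second moment of sums of `Y_q` over `m ≤ X`. -/

set_option autoImplicit false

namespace Pool.Agent.Lib.MP_d9bc60_nt.UV

open Finset

/-- `k ↦ r + M k` permutes the residues modulo `l` -/
theorem g4_perm {l : ℕ} (hl : l.Prime) {G : ℤ → ℝ} (hG : ∀ m k : ℤ, G (m + l * k) = G m)
    {M : ℕ} (hM : M.Coprime l) (r : ℤ) :
    ∑ k ∈ range l, G (r + M * (k : ℤ)) = ∑ j ∈ range l, G (j : ℤ) := by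
  have : Fact l.Prime := ⟨hl⟩
  have hmod : ∀ a b : ℤ, ((a : ℤ) : ZMod l) = ((b : ℤ) : ZMod l) → G a = G b := by
    intro a b hab
    rw [ZMod.intCast_eq_intCast_iff_dvd_sub] at hab
    obtain ⟨k, hk⟩ := hab
    have h1 : b = a + l * k := by linarith only [hk]
    rw [h1, hG]
  have hrange : ∀ F : ℕ → ℝ, ∑ k ∈ range l, F k = ∑ x : ZMod l, F x.val := by
    intro F
    refine Finset.sum_nbij' (fun k => (k : ZMod l)) (fun x => x.val) ?_ ?_ ?_ ?_ ?_
    · intro k _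
      exact mem_univ _
    · intro x _
      exact mem_range.mpr (ZMod.val_lt x)
    · intro k hk
      exact ZMod.val_cast_of_lt (mem_range.mp hk)
    · intro x _
      exact ZMod.natCast_zmod_val x
    · intro k hk
      rw [ZMod.val_cast_of_lt (mem_range.mp hk)]
  have hM0 : (M : ZMod l) ≠ 0 := by
    intro h0
    rw [ZMod.natCast_eq_zero_iff] at h0
    have h1 : l ∣ Nat.gcd M l := Nat.dvd_gcd h0 (dvd_refl l)
    rw [Nat.Coprime.gcd_eq_one hM] at h1
    exact hl.one_lt.ne' (Nat.dvd_one.mp h1)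
  rw [hrange (fun k => G (r + M * (k : ℤ))), hrange (fun j => G (j : ℤ))]
  refine Fintype.sum_bijective (fun x : ZMod l => (r : ZMod l) + M * x) ?_ _ _ ?_
  · refine Finite.injective_iff_bijective.mp ?_
    intro x y hxy
    exact mul_left_cancel₀ hM0 (add_left_cancel hxy)
  · intro x
    apply hmod
    push_cast
    rw [ZMod.natCast_zmod_val, ZMod.natCast_zmod_val]

/-- one prime divides exactly one of the two numbers -/
theorem g4_orth_aux (b : ℤ) {l q₁ q' : ℕ} (hl : l.Prime) (h1 : l.Coprime q₁) (h2 : l.Coprime q') :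
    ∑ m ∈ range (l * (q₁ * q')), YY b (l * q₁) (m : ℤ) * YY b q' (m : ℤ) = 0 := by
  set M : ℕ := q₁ * q' with hM
  have hcop : M.Coprime l := (Nat.Coprime.mul_right h1 h2).symm
  have h3 : ∀ m : ℤ, YY b (l * q₁) m * YY b q' m = YY b l m * (YY b q₁ m * YY b q' m) := by
    intro m
    rw [YY_mul b l q₁ h1 m, mul_assoc]
  have hper : ∀ m k : ℤ, YY b q₁ (m + M * k) * YY b q' (m + M * k) = YY b q₁ m * YY b q' m := by
    intro m k
    have h4 : m + (M : ℤ) * k = m + q₁ * (q' * k) := by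
      rw [hM]
      push_cast
      ring
    have h5 : m + (M : ℤ) * k = m + q' * (q₁ * k) := by
      rw [hM]
      push_cast
      ring
    conv_lhs => rw [h4]
    rw [YY_periodic, ← h4, h5, YY_periodic]
  rw [Finset.sum_range, ← (finProdFinEquiv (m := l) (n := M)).sum_comp, Fintype.sum_prod_type_right]
  refine Finset.sum_eq_zero fun r _ => ?_
  have h6 : ∀ k : Fin l, YY b (l * q₁) (((finProdFinEquiv (k, r) : Fin (l * M)) : ℕ) : ℤ) *
      YY b q' (((finProdFinEquiv (k, r) : Fin (l * M)) : ℕ) : ℤ) =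
      (YY b q₁ ((r : ℕ) : ℤ) * YY b q' ((r : ℕ) : ℤ)) *
        YY b l (((r : ℕ) : ℤ) + M * (((k : ℕ) : ℤ))) := by
    intro k
    have h7 : (((finProdFinEquiv (k, r) : Fin (l * M)) : ℕ) : ℤ) =
        ((r : ℕ) : ℤ) + M * (((k : ℕ) : ℤ)) := by
      rw [finProdFinEquiv_apply_val]
      push_cast
      ring
    rw [h7, h3, hper, mul_comm]
  rw [Finset.sum_congr rfl fun k _ => h6 k, ← Finset.mul_sum]
  have h8 := g4_perm hl (G := fun m => YY b l m) (fun m k => YY_periodic b l m k) hcop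
    ((r : ℕ) : ℤ)
  rw [Finset.sum_range, sum_YY_prime b l hl] at h8
  rw [h8, mul_zero]

/-- Proof. One of `q, q'` (both squarefree) has a prime `l` not dividing the other; say `l ∣ q`, `l ∤ q'`,
`q = l q₁`. `Y_q Y_q' = Y_l · h`, `h = Y_{q₁} Y_{q'}` periodic mod `M = q₁ q'`, `(l, M) = 1`
(`q` squarefree). For fixed `m mod M`, `m + M k` (`k < l`) runs through all residues mod `l`, so
the sum over a full period `l M = q q'` vanishes by `sum_YY_prime`. If `q` or `q'` is not squarefree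
the terms are `0`. -/
theorem YY_orth (b : ℤ) (q q' : ℕ) (h : q ≠ q') (hq : 1 ≤ q) (hq' : 1 ≤ q') :
    ∑ m ∈ range (q * q'), YY b q (m : ℤ) * YY b q' (m : ℤ) = 0 := by
  by_cases hs : Squarefree q
  · by_cases hs' : Squarefree q'
    · have key : ∀ a c : ℕ, Squarefree a → (∃ l, l.Prime ∧ l ∣ a ∧ ¬ l ∣ c) →
          ∑ m ∈ range (a * c), YY b a (m : ℤ) * YY b c (m : ℤ) = 0 := by
        intro a c ha ⟨l, hl, hla, hlc⟩
        obtain ⟨a₁, rfl⟩ := hla
        rw [mul_assoc]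
        refine g4_orth_aux b hl ?_ ((Nat.Prime.coprime_iff_not_dvd hl).mpr hlc)
        exact Nat.coprime_of_squarefree_mul ha
      have hex : (∃ l, l.Prime ∧ l ∣ q ∧ ¬ l ∣ q') ∨ (∃ l, l.Prime ∧ l ∣ q' ∧ ¬ l ∣ q) := by
        by_contra hcon
        push Not at hcon
        apply h
        exact (Nat.Squarefree.ext_iff hs hs').mpr fun p hp =>
          ⟨fun h1 => hcon.1 p hp h1, fun h1 => hcon.2 p hp h1⟩
      rcases hex with h1 | h1
      · exact key q q' hs h1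
      · rw [mul_comm q q']
        rw [← key q' q hs' h1]
        exact Finset.sum_congr rfl fun m _ => mul_comm _ _
    · refine Finset.sum_eq_zero fun m _ => ?_
      rw [YY_not_squarefree b q' hs', mul_zero]
  · refine Finset.sum_eq_zero fun m _ => ?_
    rw [YY_not_squarefree b q hs, zero_mul]

/-- incomplete periods -/
theorem g4_incomplete {N : ℕ} (hN : 0 < N) {H : ℕ → ℝ} (hper : ∀ m, H (N + m) = H m)
    (hsum : ∑ m ∈ range N, H m = 0) {K : ℝ} (hK : ∀ m, |H m| ≤ K) (X : ℕ) :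
    |∑ m ∈ range X, H m| ≤ N * K := by
  induction X using Nat.strong_induction_on with
  | _ X ih =>
    have hK0 : 0 ≤ K := (abs_nonneg _).trans (hK 0)
    rcases le_or_gt N X with h | h
    · obtain ⟨Y, rfl⟩ := Nat.exists_eq_add_of_le h
      rw [Finset.sum_range_add, hsum, zero_add, Finset.sum_congr rfl fun m _ => hper m]
      exact ih Y (by omega)
    · calc |∑ m ∈ range X, H m| ≤ ∑ m ∈ range X, |H m| := Finset.abs_sum_le_sum_abs _ _
        _ ≤ ∑ _m ∈ range X, K := Finset.sum_le_sum fun m _ => hK m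
        _ = X * K := by rw [Finset.sum_const, card_range, nsmul_eq_mul]
        _ ≤ N * K := by
            refine mul_le_mul_of_nonneg_right ?_ hK0
            exact_mod_cast h.le

theorem g4_incomplete' {N : ℕ} (hN : 0 < N) {G : ℤ → ℝ} (hper : ∀ m : ℤ, G (m + N) = G m)
    (hsum : ∑ m ∈ range N, G (m : ℤ) = 0) {K : ℝ} (hK : ∀ m, |G m| ≤ K) (X : ℕ) :
    |∑ m ∈ Icc 1 X, G (m : ℤ)| ≤ N * K := by
  have h1 : ∀ Y : ℕ, ∑ m ∈ Icc 1 Y, G (m : ℤ) = ∑ m ∈ range Y, G ((m : ℤ) + 1) := by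
    intro Y
    induction Y with
    | zero => simp
    | succ n ih =>
      rw [Finset.sum_Icc_succ_top (by omega), Finset.sum_range_succ, ih]
      push_cast
      rfl
  rw [h1]
  refine g4_incomplete (H := fun m => G ((m : ℤ) + 1)) hN ?_ ?_ (fun m => hK _) X
  · intro m
    have h2 : (((N + m : ℕ) : ℤ) + 1) = ((m : ℤ) + 1) + N := by
      push_cast
      ring
    simp only [h2, hper]
  · have h2 := Finset.sum_range_succ (fun m : ℕ => G (m : ℤ)) N
    have h3 := Finset.sum_range_succ' (fun m : ℕ => G (m : ℤ)) N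
    have h4 : G (N : ℤ) = G 0 := by
      have := hper 0
      rwa [zero_add] at this
    push_cast at h3
    rw [h2, hsum, h4] at h3
    linarith only [h3]

theorem g4_cross (b : ℤ) (X : ℕ) {q q' : ℕ} (h : q ≠ q') (hq : Odd q) (hq' : Odd q') :
    |∑ m ∈ Icc 1 X, YY b q (m : ℤ) * YY b q' (m : ℤ)| ≤
      (q.divisors.card : ℝ) ^ 2 * (q'.divisors.card : ℝ) ^ 2 := by
  have h1 : 1 ≤ q := hq.pos
  have h2 : 1 ≤ q' := hq'.pos
  have h3 : (0 : ℝ) < q := by exact_mod_cast h1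
  have h4 : (0 : ℝ) < q' := by exact_mod_cast h2
  have h5 := g4_incomplete' (N := q * q') (Nat.mul_pos h1 h2)
    (G := fun m => YY b q m * YY b q' m)
    (fun m => by
      have h6 : m + ((q * q' : ℕ) : ℤ) = m + q * (q' : ℤ) := by push_cast; ring
      have h7 : m + ((q * q' : ℕ) : ℤ) = m + q' * (q : ℤ) := by push_cast; ring
      have h8 : YY b q (m + ((q * q' : ℕ) : ℤ)) = YY b q m := by
        rw [h6, YY_periodic]
      have h9 : YY b q' (m + ((q * q' : ℕ) : ℤ)) = YY b q' m := by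
        rw [h7, YY_periodic]
      simp only [h8, h9])
    (YY_orth b q q' h h1 h2)
    (K := ((q.divisors.card : ℝ) ^ 2 / q) * ((q'.divisors.card : ℝ) ^ 2 / q'))
    (fun m => by
      rw [abs_mul]
      exact mul_le_mul (abs_YY_le b q hq m) (abs_YY_le b q' hq' m) (abs_nonneg _)
        (by (clear * - h1; positivity))) X
  refine h5.trans (le_of_eq ?_)
  push_cast
  field_simp

/-- Proof. Expand the square. `q = q'`: `abs_YY_le`, `X τ(q)^4/q²`. `q ≠ q'`: by periodicity mod `qq'`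
and `YY_orth` only an incomplete period contributes: `≤ q q' · (τ(q)²/q)(τ(q')²/q')`. -/
theorem second_moment (b : ℤ) (X : ℕ) (S : Finset ℕ) (hS : ∀ q ∈ S, Odd q) :
    ∑ m ∈ Icc 1 X, (∑ q ∈ S, YY b q (m : ℤ)) ^ 2 ≤
      X * ∑ q ∈ S, (q.divisors.card : ℝ) ^ 4 / (q : ℝ) ^ 2 +
        (∑ q ∈ S, (q.divisors.card : ℝ) ^ 2) ^ 2 := by
  have h1 : ∑ m ∈ Icc 1 X, (∑ q ∈ S, YY b q (m : ℤ)) ^ 2 =
      ∑ q ∈ S, ∑ q' ∈ S, ∑ m ∈ Icc 1 X, YY b q (m : ℤ) * YY b q' (m : ℤ) := by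
    simp_rw [sq, Finset.sum_mul_sum]
    rw [Finset.sum_comm]
    refine Finset.sum_congr rfl fun q _ => ?_
    rw [Finset.sum_comm]
  have h2 : ∀ q ∈ S, ∀ q' ∈ S, ∑ m ∈ Icc 1 X, YY b q (m : ℤ) * YY b q' (m : ℤ) ≤
      (if q = q' then (X : ℝ) * ((q.divisors.card : ℝ) ^ 4 / (q : ℝ) ^ 2) else 0) +
        (q.divisors.card : ℝ) ^ 2 * (q'.divisors.card : ℝ) ^ 2 := by
    intro q hq q' hq'
    split_ifs with h
    · subst h
      have h3 : ∀ m ∈ Icc 1 X, YY b q (m : ℤ) * YY b q (m : ℤ) ≤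
          (q.divisors.card : ℝ) ^ 4 / (q : ℝ) ^ 2 := by
        intro m _
        have h4 := abs_YY_le b q (hS q hq) m
        calc YY b q (m : ℤ) * YY b q (m : ℤ) = |YY b q (m : ℤ)| ^ 2 := by rw [sq_abs, sq]
          _ ≤ ((q.divisors.card : ℝ) ^ 2 / q) ^ 2 := pow_le_pow_left₀ (abs_nonneg _) h4 2
          _ = _ := by rw [div_pow, ← pow_mul]
      have h5 := Finset.sum_le_sum h3
      rw [Finset.sum_const, Nat.card_Icc, nsmul_eq_mul, Nat.add_sub_cancel] at h5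
      have h6 : (0 : ℝ) ≤ (q.divisors.card : ℝ) ^ 2 * (q.divisors.card : ℝ) ^ 2 := by (clear * -; positivity)
      linarith only [h5, h6]
    · rw [zero_add]
      exact (le_abs_self _).trans (g4_cross b X h (hS q hq) (hS q' hq'))
  rw [h1]
  calc ∑ q ∈ S, ∑ q' ∈ S, ∑ m ∈ Icc 1 X, YY b q (m : ℤ) * YY b q' (m : ℤ) ≤
        ∑ q ∈ S, ∑ q' ∈ S,
          ((if q = q' then (X : ℝ) * ((q.divisors.card : ℝ) ^ 4 / (q : ℝ) ^ 2) else 0) +
        (q.divisors.card : ℝ) ^ 2 * (q'.divisors.card : ℝ) ^ 2) :=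
        Finset.sum_le_sum fun q hq => Finset.sum_le_sum fun q' hq' => h2 q hq q' hq'
    _ = _ := by
        simp_rw [Finset.sum_add_distrib]
        congr 1
        · rw [Finset.mul_sum]
          refine Finset.sum_congr rfl fun q hq => ?_
          rw [Finset.sum_ite_eq, if_pos hq]
        · rw [sq, Finset.sum_mul_sum]

theorem g4_large : ∃ X₀ : ℕ, ∀ X : ℕ, X₀ ≤ X → ∀ D : ℕ, (D : ℝ) ≤ (X : ℝ) ^ (1 / 8 : ℝ) →
    ((D : ℝ) * (1 + Real.log D) ^ 3) ^ 2 ≤ Real.sqrt X := by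
  have h1 := (isLittleO_log_rpow_atTop (show (0 : ℝ) < 1 / 24 by norm_num)).bound
    (show (0 : ℝ) < 1 / 2 by norm_num)
  have h2 := (tendsto_rpow_atTop (show (0 : ℝ) < 1 / 24 by norm_num)).eventually_ge_atTop 2
  have h3 := tendsto_natCast_atTop_atTop.eventually (h1.and (h2.and
    (Filter.eventually_ge_atTop (1 : ℝ))))
  obtain ⟨X₀, hX₀⟩ := Filter.eventually_atTop.mp h3
  refine ⟨X₀, fun X hX D hD => ?_⟩
  obtain ⟨h4, h5, h6⟩ := hX₀ X hX
  have hX0 : (0 : ℝ) < X := by linarith only [h6]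
  have hlogX : 0 ≤ Real.log X := Real.log_nonneg h6
  rw [Real.norm_of_nonneg hlogX, Real.norm_of_nonneg (Real.rpow_nonneg hX0.le _)] at h4
  have hD0 : (0 : ℝ) ≤ D := Nat.cast_nonneg D
  have hlogD0 : 0 ≤ Real.log D := Real.log_natCast_nonneg D
  have hlogD : Real.log D ≤ Real.log X := by
    rcases Nat.eq_zero_or_pos D with h | h
    · rw [h, Nat.cast_zero, Real.log_zero]
      exact hlogX
    · refine Real.log_le_log (by exact_mod_cast h) (hD.trans ?_)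
      calc (X : ℝ) ^ (1 / 8 : ℝ) ≤ (X : ℝ) ^ (1 : ℝ) :=
            Real.rpow_le_rpow_of_exponent_le h6 (by norm_num)
        _ = X := Real.rpow_one _
  have h7 : 1 + Real.log D ≤ (X : ℝ) ^ (1 / 24 : ℝ) := by linarith only [h4, h5, hlogD]
  have h8 : (D : ℝ) * (1 + Real.log D) ^ 3 ≤ (X : ℝ) ^ (1 / 8 : ℝ) * ((X : ℝ) ^ (1 / 24 : ℝ)) ^ 3 :=
    mul_le_mul hD (pow_le_pow_left₀ (by linarith only [hlogD0]) h7 3) (by (clear * -; positivity))
      (Real.rpow_nonneg hX0.le _)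
  have h9 : ((X : ℝ) ^ (1 / 8 : ℝ) * ((X : ℝ) ^ (1 / 24 : ℝ)) ^ 3) ^ 2 = Real.sqrt X := by
    rw [Real.sqrt_eq_rpow, ← Real.rpow_natCast ((X : ℝ) ^ (1 / 24 : ℝ)) 3,
      ← Real.rpow_mul hX0.le, ← Real.rpow_add hX0, ← Real.rpow_natCast _ 2,
      ← Real.rpow_mul hX0.le]
    norm_num
  rw [← h9]
  exact pow_le_pow_left₀ (by (clear * -; positivity)) h8 2

/-- Proof. `second_moment` with `S ⊆ (z, D]`, `tau_tail`, `sum_tau_sq_le`:
`(D (1 + log D)^3)² ≤ X^(1/2)` for `D ≤ X^(1/8)`, `X` large; then Markov. -/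
theorem few_large : ∃ (C : ℝ) (X₀ : ℕ), 1 ≤ C ∧ ∀ X : ℕ, X₀ ≤ X → ∀ (b : ℤ) (z : ℕ) (S : Finset ℕ) (T : ℝ),
    1 ≤ z → 0 < T → (∀ q ∈ S, Odd q ∧ z < q ∧ (q : ℝ) ≤ (X : ℝ) ^ (1 / 8 : ℝ)) →
    (((Icc 1 X).filter (fun m : ℕ => T ≤ |∑ q ∈ S, YY b q (m : ℤ)|)).card : ℝ) ≤
      (C * X / Real.sqrt z + Real.sqrt X) / T ^ 2 := by
  obtain ⟨C, hC, htail⟩ := tau_tail
  obtain ⟨X₀, hX₀⟩ := g4_large
  refine ⟨C, X₀, hC, fun X hX b z S T hz hT hS => ?_⟩
  set D : ℕ := ⌊(X : ℝ) ^ (1 / 8 : ℝ)⌋₊ with hD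
  have hDle : (D : ℝ) ≤ (X : ℝ) ^ (1 / 8 : ℝ) :=
    Nat.floor_le (Real.rpow_nonneg (Nat.cast_nonneg X) _)
  have hsub : ∀ q ∈ S, q ∈ Ioc z D := by
    intro q hq
    rw [mem_Ioc]
    exact ⟨(hS q hq).2.1, Nat.le_floor (hS q hq).2.2⟩
  have hsub2 : ∀ q ∈ S, q ∈ Icc 1 D := by
    intro q hq
    have h1 := mem_Ioc.mp (hsub q hq)
    rw [mem_Icc]
    exact ⟨by omega, h1.2⟩
  have h1 := second_moment b X S (fun q hq => (hS q hq).1)
  have h2 : ∑ q ∈ S, (q.divisors.card : ℝ) ^ 4 / (q : ℝ) ^ 2 ≤ C / Real.sqrt z :=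
    (Finset.sum_le_sum_of_subset_of_nonneg hsub (fun _ _ _ => by (clear * -; positivity))).trans
      (htail z D hz)
  have h3 : ∑ q ∈ S, (q.divisors.card : ℝ) ^ 2 ≤ D * (1 + Real.log D) ^ 3 :=
    (Finset.sum_le_sum_of_subset_of_nonneg hsub2 (fun _ _ _ => by (clear * -; positivity))).trans
      (sum_tau_sq_le D)
  have h4 : (∑ q ∈ S, (q.divisors.card : ℝ) ^ 2) ^ 2 ≤ Real.sqrt X :=
    (pow_le_pow_left₀ (Finset.sum_nonneg fun _ _ => by (clear * -; positivity)) h3 2).trans (hX₀ X hX D hDle)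
  have h5 : ∑ m ∈ Icc 1 X, (∑ q ∈ S, YY b q (m : ℤ)) ^ 2 ≤ C * X / Real.sqrt z + Real.sqrt X := by
    have h6 : (X : ℝ) * ∑ q ∈ S, (q.divisors.card : ℝ) ^ 4 / (q : ℝ) ^ 2 ≤
        X * (C / Real.sqrt z) := mul_le_mul_of_nonneg_left h2 (Nat.cast_nonneg X)
    have h7 : (X : ℝ) * (C / Real.sqrt z) = C * X / Real.sqrt z := by ring
    linarith only [h1, h4, h6, h7]
  rw [le_div_iff₀ (by positivity)]
  refine le_trans ?_ h5
  calc (((Icc 1 X).filter (fun m : ℕ => T ≤ |∑ q ∈ S, YY b q (m : ℤ)|)).card : ℝ) * T ^ 2 =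
        ∑ _m ∈ (Icc 1 X).filter (fun m : ℕ => T ≤ |∑ q ∈ S, YY b q (m : ℤ)|), T ^ 2 := by
        rw [Finset.sum_const, nsmul_eq_mul]
    _ ≤ ∑ m ∈ (Icc 1 X).filter (fun m : ℕ => T ≤ |∑ q ∈ S, YY b q (m : ℤ)|),
          (∑ q ∈ S, YY b q (m : ℤ)) ^ 2 := by
        refine Finset.sum_le_sum fun m hm => ?_
        have h8 := (mem_filter.mp hm).2
        rw [← sq_abs (∑ q ∈ S, YY b q (m : ℤ))]
        exact pow_le_pow_left₀ hT.le h8 2
    _ ≤ ∑ m ∈ Icc 1 X, (∑ q ∈ S, YY b q (m : ℤ)) ^ 2 :=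
        Finset.sum_le_sum_of_subset_of_nonneg (Finset.filter_subset _ _)
          (fun _ _ _ => sq_nonneg _)

end Pool.Agent.Lib.MP_d9bc60_nt.UV
end

section
/-! Row G5 (about 150 lines): large smooth moduli (Rankin's trick). -/

set_option autoImplicit false

namespace Pool.Agent.Lib.MP_d9bc60_nt.UV

open Finset

/-- The product of the odd primes `≤ z`. -/
def WW (z : ℕ) : ℕ := ∏ p ∈ (Icc 3 z).filter Nat.Prime, p

theorem g5_primeFactors (z : ℕ) : (WW z).primeFactors = (Icc 3 z).filter Nat.Prime :=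
  Nat.primeFactors_prod fun _ hp => (Finset.mem_filter.1 hp).2

theorem g5_squarefree (z : ℕ) : Squarefree (WW z) := by
  refine Finset.squarefree_prod_of_pairwise_isCoprime (fun p hp q hq hpq => ?_)
    (fun p hp => (Finset.mem_filter.1 hp).2.prime.squarefree)
  rw [Finset.mem_coe, Finset.mem_filter] at hp hq
  exact Nat.coprime_iff_isRelPrime.1 ((Nat.coprime_primes hp.2 hq.2).2 hpq)

/-- the multiplicative function `τ(q)² q^(σ-1)` -/
noncomputable def g5F (s : ℝ) (hs : s ≠ 0) : ArithmeticFunction ℝ :=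
  ⟨fun n => (n.divisors.card : ℝ) ^ 2 * (n : ℝ) ^ s, by simp [Real.zero_rpow hs]⟩

theorem g5F_apply (s : ℝ) (hs : s ≠ 0) (n : ℕ) :
    g5F s hs n = (n.divisors.card : ℝ) ^ 2 * (n : ℝ) ^ s := rfl

theorem g5F_mul (s : ℝ) (hs : s ≠ 0) : (g5F s hs).IsMultiplicative := by
  refine ⟨?_, ?_⟩
  · simp [g5F_apply]
  · intro m n hmn
    rw [g5F_apply, g5F_apply, g5F_apply, hmn.card_divisors_mul, Nat.cast_mul, Nat.cast_mul,
      Real.mul_rpow (Nat.cast_nonneg _) (Nat.cast_nonneg _)]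
    ring

theorem g5_sum (s : ℝ) (hs : s ≠ 0) (σ : ℝ) (hσ : 0 ≤ σ) (hsσ : s = σ - 1) (z : ℕ) :
    ∑ q ∈ (WW z).divisors, (q.divisors.card : ℝ) ^ 2 * (q : ℝ) ^ s ≤
      Real.exp (4 * (z : ℝ) ^ σ * (1 + Real.log z)) := by
  have h1 := (g5F_mul s hs).prodPrimeFactors_one_add_of_squarefree (g5_squarefree z)
  simp only [g5F_apply] at h1
  rw [← h1, g5_primeFactors]
  clear h1
  have h2 : ∀ p ∈ (Icc 3 z).filter Nat.Prime,
      (1 : ℝ) + (p.divisors.card : ℝ) ^ 2 * (p : ℝ) ^ s ≤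
        Real.exp (4 * (z : ℝ) ^ σ * (p : ℝ)⁻¹) := by
    intro p hp
    rw [Finset.mem_filter, Finset.mem_Icc] at hp
    obtain ⟨⟨hp3, hpz⟩, hpp⟩ := hp
    have hp0 : (0 : ℝ) < p := by exact_mod_cast (by omega : 0 < p)
    have h3 : p.divisors.card = 2 := by
      rw [hpp.divisors, Finset.card_pair hpp.one_lt.ne]
    rw [h3, add_comm]
    refine le_trans (Real.add_one_le_exp _) (Real.exp_le_exp.2 ?_)
    have h4 : (p : ℝ) ^ s = (p : ℝ) ^ σ * (p : ℝ)⁻¹ := by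
      rw [hsσ, Real.rpow_sub_one hp0.ne', div_eq_mul_inv]
    rw [h4]
    have h5 : (p : ℝ) ^ σ ≤ (z : ℝ) ^ σ :=
      Real.rpow_le_rpow hp0.le (by exact_mod_cast hpz) hσ
    have h6 : (0 : ℝ) ≤ (p : ℝ)⁻¹ := by (clear * - hp3; positivity)
    calc (((2 : ℕ) : ℝ)) ^ 2 * ((p : ℝ) ^ σ * (p : ℝ)⁻¹) = 4 * ((p : ℝ) ^ σ * (p : ℝ)⁻¹) := by
          norm_num
      _ ≤ 4 * ((z : ℝ) ^ σ * (p : ℝ)⁻¹) := by gcongr
      _ = 4 * (z : ℝ) ^ σ * (p : ℝ)⁻¹ := by ring
  refine le_trans (Finset.prod_le_prod (fun p _ => by (clear * -; positivity)) h2) ?_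
  rw [← Real.exp_sum, ← Finset.mul_sum]
  refine Real.exp_le_exp.2 (mul_le_mul_of_nonneg_left ?_ (by (clear * -; positivity)))
  have h7 : ∑ p ∈ (Icc 3 z).filter Nat.Prime, (p : ℝ)⁻¹ ≤ ∑ p ∈ Icc 1 z, (p : ℝ)⁻¹ := by
    refine Finset.sum_le_sum_of_subset_of_nonneg ?_ (fun _ _ _ => by (clear * -; positivity))
    intro p hp
    rw [Finset.mem_filter, Finset.mem_Icc] at hp
    rw [Finset.mem_Icc]
    omega
  refine h7.trans ?_
  have h8 := harmonic_le_one_add_log z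
  rw [harmonic_eq_sum_Icc] at h8
  push_cast at h8
  exact h8

theorem g5_large (B : ℕ) (σ : ℝ) (hσ : 0 < σ) : ∃ X₀ : ℕ, ∀ X : ℕ, X₀ ≤ X → 1 ≤ X ∧
    (1 : ℝ) ≤ Real.log X ∧
    4 * Real.log X ^ (1 / 2 : ℝ) * (1 + B * Real.log (Real.log X)) + Real.log (Real.log X) ≤
      σ / 8 * Real.log X := by
  set K : ℝ := 8 * (8 + 16 * B) / σ with hK
  have h1 : ∀ᶠ X : ℕ in Filter.atTop, max 1 (K ^ 4) ≤ Real.log X :=
    (Real.tendsto_log_atTop.comp tendsto_natCast_atTop_atTop).eventually_ge_atTop _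
  obtain ⟨X₀, h4⟩ := Filter.eventually_atTop.1 h1
  refine ⟨max X₀ 1, fun X hX => ?_⟩
  have h5 := h4 X (le_trans (le_max_left _ _) hX)
  have hL1 : (1 : ℝ) ≤ Real.log X := le_trans (le_max_left _ _) h5
  have hLK : K ^ 4 ≤ Real.log X := le_trans (le_max_right _ _) h5
  refine ⟨le_trans (le_max_right _ _) hX, hL1, ?_⟩
  set L := Real.log X with hL
  have hL0 : 0 < L := by linarith only [hL1]
  have hK0 : 0 ≤ K := by (clear * - hσ; positivity)
  have hK4 : K ≤ L ^ (1 / 4 : ℝ) := by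
    have h6 : (K ^ 4) ^ (1 / 4 : ℝ) = K := by
      rw [← Real.rpow_natCast, ← Real.rpow_mul hK0]
      norm_num
    rw [← h6]
    exact Real.rpow_le_rpow (by (clear * - hσ; positivity)) hLK (by norm_num)
  have hlog : Real.log L ≤ 4 * L ^ (1 / 4 : ℝ) := by
    have := Real.log_le_rpow_div hL0.le (by norm_num : (0 : ℝ) < 1 / 4)
    linarith only [this]
  set y := L ^ (1 / 4 : ℝ) with hy
  have hy1 : 1 ≤ y := Real.one_le_rpow hL1 (by norm_num)
  have hy2 : L ^ (1 / 2 : ℝ) = y ^ 2 := by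
    rw [hy, ← Real.rpow_natCast, ← Real.rpow_mul hL0.le]
    norm_num
  have hy4 : L = y ^ 4 := by
    rw [hy, ← Real.rpow_natCast, ← Real.rpow_mul hL0.le]
    norm_num
  have hB : (0 : ℝ) ≤ B := Nat.cast_nonneg B
  rw [hy2]
  have h9 : 4 * y ^ 2 * (1 + B * Real.log L) + Real.log L ≤
      4 * y ^ 2 * (1 + B * (4 * y)) + 4 * y := by gcongr
  have h10 : 4 * y ^ 2 * (1 + B * (4 * y)) + 4 * y ≤ (8 + 16 * B) * y ^ 3 := by
    have h11 : y ^ 2 ≤ y ^ 3 := pow_le_pow_right₀ hy1 (by norm_num)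
    have h12 : y ≤ y ^ 3 := by
      calc y = y ^ 1 := (pow_one y).symm
        _ ≤ y ^ 3 := pow_le_pow_right₀ hy1 (by norm_num)
    nlinarith only [h11, h12]
  have h13 : (8 + 16 * B) * y ^ 3 ≤ σ / 8 * y ^ 4 := by
    have h14 : 8 + 16 * (B : ℝ) ≤ σ / 8 * y := by
      have h15 : σ / 8 * K ≤ σ / 8 * y := mul_le_mul_of_nonneg_left hK4 (by positivity)
      have h16 : σ / 8 * K = 8 + 16 * B := by
        rw [hK]
        field_simp
      linarith only [h15, h16]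
    calc (8 + 16 * B) * y ^ 3 ≤ (σ / 8 * y) * y ^ 3 :=
          mul_le_mul_of_nonneg_right h14 (by positivity)
      _ = σ / 8 * y ^ 4 := by ring
  calc 4 * y ^ 2 * (1 + B * Real.log L) + Real.log L ≤ σ / 8 * y ^ 4 := by linarith only [h9, h10, h13]
    _ = σ / 8 * L := by rw [← hy4]

/-- Proof. `σ = 1/(2B+2)`, `z = LC B X`, so `z^σ ≤ (log X)^(1/2)`. For `q > X^(1/8)`:
`1 ≤ X^(-σ/8) q^σ`, so the sum is
`≤ X^(-σ/8) ∑_{q ∣ W} τ(q)² q^(σ-1) = X^(-σ/8) ∏_{p ∣ W} (1 + 4 p^(σ-1)) ≤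
X^(-σ/8) exp(4 z^σ ∑_{n ≤ z} 1/n) ≤ exp(-σ L/8 + 4 L^(1/2) (1 + B log L))`, `L = log X`. (`W` is
squarefree; `∑_{q ∣ W} f(q) = ∏_{p ∣ W}(1 + f(p))` for multiplicative `f`:
`Finset.prod_one_add`/`Finset.prod_add` over subsets of the set of primes also works.) -/
theorem rankin (B : ℕ) : ∃ X₀ : ℕ, ∀ X : ℕ, X₀ ≤ X →
    ∑ q ∈ (WW (LC B X)).divisors.filter (fun q : ℕ => (X : ℝ) ^ (1 / 8 : ℝ) < q),
      (q.divisors.card : ℝ) ^ 2 / q ≤ 1 / Real.log X := by
  set σ : ℝ := 1 / (2 * B + 2) with hσdef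
  have hB : (0 : ℝ) ≤ B := Nat.cast_nonneg B
  have hσ : 0 < σ := by (clear * -; positivity)
  have hσ1 : σ ≤ 1 / 2 := by
    rw [hσdef, div_le_div_iff₀ (by (clear * -; positivity)) (by norm_num)]
    linarith only []
  have hσB : B * σ ≤ 1 / 2 := by
    rw [hσdef, mul_one_div, div_le_div_iff₀ (by (clear * -; positivity)) (by norm_num)]
    linarith only [hσ, hσ1]
  have hs : σ - 1 ≠ 0 := by linarith only [hσ, hσ1]
  obtain ⟨X₀, h1⟩ := g5_large B σ hσ
  refine ⟨X₀, fun X hX => ?_⟩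
  obtain ⟨hX1, hL1, hmain⟩ := h1 X hX
  have hXp : (0 : ℝ) < X := by exact_mod_cast hX1
  set L := Real.log X with hL
  have hL0 : 0 < L := by linarith only [hσ, hσ1, hL1]
  set z := LC B X with hz
  have hzL : (z : ℝ) ≤ L ^ B := Nat.floor_le (by positivity)
  have hz1 : 1 ≤ z := Nat.le_floor (by
    rw [Nat.cast_one]
    exact one_le_pow₀ hL1)
  have hzr : (1 : ℝ) ≤ z := by exact_mod_cast hz1
  have hlogz : Real.log z ≤ B * Real.log L := by
    calc Real.log z ≤ Real.log (L ^ B) := Real.log_le_log (by linarith only [hσ, hσ1, hzr]) hzL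
      _ = B * Real.log L := Real.log_pow _ _
  have hlogz0 : 0 ≤ Real.log z := Real.log_nonneg hzr
  have hzσ : (z : ℝ) ^ σ ≤ L ^ (1 / 2 : ℝ) := by
    calc (z : ℝ) ^ σ ≤ (L ^ B) ^ σ := Real.rpow_le_rpow (by linarith only [hσ, hσ1, hzr]) hzL hσ.le
      _ = L ^ (B * σ) := by rw [← Real.rpow_natCast, ← Real.rpow_mul hL0.le]
      _ ≤ L ^ (1 / 2 : ℝ) := Real.rpow_le_rpow_of_exponent_le hL1 hσB
  have h2 : ∑ q ∈ (WW z).divisors.filter (fun q : ℕ => (X : ℝ) ^ (1 / 8 : ℝ) < q),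
      (q.divisors.card : ℝ) ^ 2 / q ≤
      (X : ℝ) ^ (-(σ / 8)) * ∑ q ∈ (WW z).divisors, (q.divisors.card : ℝ) ^ 2 *
        (q : ℝ) ^ (σ - 1) := by
    rw [Finset.mul_sum]
    refine le_trans (Finset.sum_le_sum fun q hq => ?_)
      (Finset.sum_le_sum_of_subset_of_nonneg (Finset.filter_subset _ _)
        (fun _ _ _ => by (clear * - hX1; positivity)))
    rw [Finset.mem_filter] at hq
    have hq0 : (0 : ℝ) < q := lt_trans (by positivity) hq.2
    have h3 : (1 : ℝ) ≤ (X : ℝ) ^ (-(σ / 8)) * (q : ℝ) ^ σ := by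
      have h4 : ((X : ℝ) ^ (1 / 8 : ℝ)) ^ σ ≤ (q : ℝ) ^ σ :=
        Real.rpow_le_rpow (by positivity) hq.2.le hσ.le
      rw [← Real.rpow_mul hXp.le] at h4
      calc (1 : ℝ) = (X : ℝ) ^ (-(σ / 8)) * (X : ℝ) ^ (1 / 8 * σ) := by
            rw [← Real.rpow_add hXp]
            have h8 : -(σ / 8) + 1 / 8 * σ = 0 := by ring
            rw [h8, Real.rpow_zero]
        _ ≤ (X : ℝ) ^ (-(σ / 8)) * (q : ℝ) ^ σ :=
            mul_le_mul_of_nonneg_left h4 (by positivity)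
    rw [Real.rpow_sub_one hq0.ne']
    calc (q.divisors.card : ℝ) ^ 2 / q = 1 * ((q.divisors.card : ℝ) ^ 2 / q) := (one_mul _).symm
      _ ≤ ((X : ℝ) ^ (-(σ / 8)) * (q : ℝ) ^ σ) * ((q.divisors.card : ℝ) ^ 2 / q) :=
          mul_le_mul_of_nonneg_right h3 (by (clear * - hq0; positivity))
      _ = (X : ℝ) ^ (-(σ / 8)) * ((q.divisors.card : ℝ) ^ 2 * ((q : ℝ) ^ σ / q)) := by ring
  refine h2.trans ?_
  have h5 := g5_sum (σ - 1) hs σ hσ.le rfl z
  have h6 : (X : ℝ) ^ (-(σ / 8)) = Real.exp (-(σ / 8) * L) := by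
    rw [Real.rpow_def_of_pos hXp, mul_comm]
  calc (X : ℝ) ^ (-(σ / 8)) * ∑ q ∈ (WW z).divisors, (q.divisors.card : ℝ) ^ 2 *
        (q : ℝ) ^ (σ - 1)
      ≤ (X : ℝ) ^ (-(σ / 8)) * Real.exp (4 * (z : ℝ) ^ σ * (1 + Real.log z)) :=
        mul_le_mul_of_nonneg_left h5 (by positivity)
    _ = Real.exp (-(σ / 8) * L + 4 * (z : ℝ) ^ σ * (1 + Real.log z)) := by
        rw [h6, ← Real.exp_add]
    _ ≤ Real.exp (-Real.log L) := by
        refine Real.exp_le_exp.2 ?_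
        have h7 : 4 * (z : ℝ) ^ σ * (1 + Real.log z) ≤
            4 * L ^ (1 / 2 : ℝ) * (1 + B * Real.log L) := by gcongr
        linarith only [hmain, h7]
    _ = 1 / L := by rw [Real.exp_neg, Real.exp_log hL0, one_div]

end Pool.Agent.Lib.MP_d9bc60_nt.UV
end

section
/-! Row G6 (about 120 lines): the product. -/

set_option autoImplicit false

namespace Pool.Agent.Lib.MP_d9bc60_nt.UV

open Finset

/-- `q ↦ Y_q(m)` as an arithmetic function -/
noncomputable def g6_af (b : ℤ) (m : ℤ) : ArithmeticFunction ℝ :=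
  ⟨fun q => YY b q m, by simp [YY]⟩

theorem g6_mult (b m : ℤ) : (g6_af b m).IsMultiplicative :=
  ⟨YY_one b m, fun {q₁ q₂} h => YY_mul b q₁ q₂ h m⟩

theorem g6_squarefree (s : Finset ℕ) (hs : ∀ p ∈ s, p.Prime) : Squarefree (∏ p ∈ s, p) := by
  classical
  induction s using Finset.induction_on with
  | empty => simp
  | insert a s ha ih =>
    rw [Finset.prod_insert ha]
    have h1 : Nat.Coprime a (∏ p ∈ s, p) := by
      refine Nat.Coprime.prod_right fun p hp => ?_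
      exact (Nat.coprime_primes (hs a (Finset.mem_insert_self a s))
        (hs p (Finset.mem_insert_of_mem hp))).mpr (fun h => ha (h ▸ hp))
    rw [Nat.squarefree_mul h1]
    exact ⟨(hs a (Finset.mem_insert_self a s)).squarefree,
      ih fun p hp => hs p (Finset.mem_insert_of_mem hp)⟩

/-- Proof. `YY b · m` is multiplicative (`YY_mul`, `YY_one`) and `WW z` is squarefree with prime factors
`(Icc 3 z).filter Nat.Prime` (`ArithmeticFunction.IsMultiplicative.prodPrimeFactors_one_add_of_squarefree`, or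
induction on `z`). -/
theorem sum_div_eq_prod (b : ℤ) (z : ℕ) (m : ℤ) :
    ∑ q ∈ (WW z).divisors, YY b q m = ∏ p ∈ (Icc 3 z).filter Nat.Prime, (1 + YY b p m) := by
  have hs : ∀ p ∈ (Icc 3 z).filter Nat.Prime, p.Prime := fun p hp => (Finset.mem_filter.mp hp).2
  have h1 : (WW z).primeFactors = (Icc 3 z).filter Nat.Prime := Nat.primeFactors_prod hs
  have h2 := (g6_mult b m).prodPrimeFactors_one_add_of_squarefree (g6_squarefree _ hs)
  have h3 : (∏ p ∈ (Icc 3 z).filter Nat.Prime, p).primeFactors = (Icc 3 z).filter Nat.Prime := h1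
  rw [h3] at h2
  exact h2.symm

/-- Proof. `one_add_YY_ge` and `TH.primorial_ratio` with `a = 1/(100 B + 100)`:
`∏_{3 ≤ p ≤ z} (1 - 1/p)^4 ≥ (φ(z#)/z#)^4 ≥ C^(-4) z^(-4a)`, and `z^(4a) ≤ (log X)^(1/25)`. -/
theorem prod_ge (B : ℕ) : ∃ (c : ℝ) (X₀ : ℕ), 0 < c ∧ ∀ X : ℕ, X₀ ≤ X → ∀ b : ℤ, ¬ (3 : ℤ) ∣ b → ∀ m : ℤ,
    c * Real.log X ^ (-(1 / 25) : ℝ) ≤
      ∏ p ∈ (Icc 3 (LC B X)).filter Nat.Prime, (1 + YY b p m) := by
  set a : ℝ := 1 / (100 * B + 100) with ha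
  have ha0 : 0 < a := by (clear * -; positivity)
  obtain ⟨C, hC, hprim⟩ := TH.primorial_ratio ha0
  refine ⟨(C ^ 4)⁻¹, 3, by (clear * - hC; positivity), ?_⟩
  intro X hX b hb m
  have hlog : 1 ≤ Real.log X := by
    rw [Real.le_log_iff_exp_le (by
      have : (3 : ℝ) ≤ X := by exact_mod_cast hX
      linarith only [this])]
    have h3 : (3 : ℝ) ≤ X := by exact_mod_cast hX
    have := Real.exp_one_lt_d9
    linarith only [h3, this]
  have hlog0 : 0 < Real.log X := by linarith only [hlog]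
  set z := LC B X with hz
  have hz1 : 1 ≤ z := by
    rw [hz]
    unfold LC
    rw [Nat.one_le_floor_iff]
    exact one_le_pow₀ hlog
  have hz2 : (z : ℝ) ≤ Real.log X ^ B := Nat.floor_le (by positivity)
  have hz0 : (0 : ℝ) < z := by exact_mod_cast hz1
  -- the product over the odd primes
  have hstep : (TH.r3_f z ^ 4)⁻¹ ≤ ∏ p ∈ (Icc 3 z).filter Nat.Prime, (1 - 1 / (p : ℝ)) ^ 4 := by
    rw [Finset.prod_pow, ← inv_pow]
    refine pow_le_pow_left₀ (inv_nonneg.mpr (TH.r3_f_pos z).le) ?_ 4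
    unfold TH.r3_f
    rw [← Finset.prod_inv_distrib]
    have hsub : (Icc 3 z).filter Nat.Prime ⊆ (Icc 1 z).filter Nat.Prime := by
      intro p hp
      rw [Finset.mem_filter, Finset.mem_Icc] at hp ⊢
      exact ⟨⟨by omega, hp.1.2⟩, hp.2⟩
    have hval : ∀ p ∈ (Icc 1 z).filter Nat.Prime, ((p : ℝ) / ((p : ℝ) - 1))⁻¹ = 1 - 1 / (p : ℝ) := by
      intro p hp
      have hp2 : (2 : ℝ) ≤ p := by exact_mod_cast (Finset.mem_filter.mp hp).2.two_le
      have h1 : (p : ℝ) ≠ 0 := by linarith only [hp2]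
      rw [inv_div]
      field_simp
    rw [Finset.prod_congr rfl hval]
    have hnn : ∀ p ∈ (Icc 1 z).filter Nat.Prime, 0 ≤ 1 - 1 / (p : ℝ) := by
      intro p hp
      have hp2 : (2 : ℝ) ≤ p := by exact_mod_cast (Finset.mem_filter.mp hp).2.two_le
      rw [sub_nonneg, div_le_one (by linarith only [hp2])]
      linarith only [hp2]
    have hle : ∀ p ∈ (Icc 1 z).filter Nat.Prime, 1 - 1 / (p : ℝ) ≤ 1 := by
      intro p hp
      have : 0 ≤ 1 / (p : ℝ) := by (clear * -; positivity)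
      linarith only [this]
    rw [← Finset.prod_sdiff hsub]
    refine mul_le_of_le_one_left (Finset.prod_nonneg fun p hp => hnn p (hsub hp)) ?_
    exact Finset.prod_le_one (fun p hp => hnn p (Finset.mem_sdiff.mp hp).1)
      (fun p hp => hle p (Finset.mem_sdiff.mp hp).1)
  have hprod : ∏ p ∈ (Icc 3 z).filter Nat.Prime, (1 - 1 / (p : ℝ)) ^ 4 ≤
      ∏ p ∈ (Icc 3 z).filter Nat.Prime, (1 + YY b p m) := by
    refine Finset.prod_le_prod (fun p _ => by (clear * -; positivity)) fun p hp => ?_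
    rw [Finset.mem_filter, Finset.mem_Icc] at hp
    exact one_add_YY_ge b hb p hp.2 hp.1.1 m
  refine le_trans ?_ (hstep.trans hprod)
  have hr := hprim z hz1
  rw [TH.r3_eq] at hr
  have hza : (z : ℝ) ^ a ≤ Real.log X ^ (1 / 100 : ℝ) := by
    calc (z : ℝ) ^ a ≤ (Real.log X ^ B) ^ a := Real.rpow_le_rpow hz0.le hz2 ha0.le
      _ = Real.log X ^ ((B : ℝ) * a) := by
        rw [← Real.rpow_natCast, ← Real.rpow_mul hlog0.le]
      _ ≤ Real.log X ^ (1 / 100 : ℝ) := by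
        refine Real.rpow_le_rpow_of_exponent_le hlog ?_
        rw [ha, mul_one_div, div_le_div_iff₀ (by (clear * -; positivity)) (by norm_num)]
        linarith only []
  have hr2 : TH.r3_f z ≤ C * Real.log X ^ (1 / 100 : ℝ) :=
    hr.trans (mul_le_mul_of_nonneg_left hza hC.le)
  have hr4 : TH.r3_f z ^ 4 ≤ C ^ 4 * Real.log X ^ (1 / 25 : ℝ) := by
    calc TH.r3_f z ^ 4 ≤ (C * Real.log X ^ (1 / 100 : ℝ)) ^ 4 :=
          pow_le_pow_left₀ (TH.r3_f_pos z).le hr2 4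
      _ = C ^ 4 * Real.log X ^ (1 / 25 : ℝ) := by
        rw [mul_pow, ← Real.rpow_natCast (Real.log X ^ (1 / 100 : ℝ)) 4, ← Real.rpow_mul hlog0.le]
        norm_num
  have hfin : (C ^ 4)⁻¹ * Real.log X ^ (-(1 / 25) : ℝ) = (C ^ 4 * Real.log X ^ (1 / 25 : ℝ))⁻¹ := by
    rw [Real.rpow_neg hlog0.le, mul_inv]
  rw [hfin]
  exact inv_anti₀ (pow_pos (TH.r3_f_pos z) 4) hr4

end Pool.Agent.Lib.MP_d9bc60_nt.UV
end

section
/-! Row G7 (about 190 lines): the singular series is large for almost all `m`. -/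

set_option autoImplicit false

namespace Pool.Agent.Lib.MP_d9bc60_nt.UV

open Finset

/-- a divisor of `WW z` is odd -/
private lemma g7_odd {z q : ℕ} (h : q ∣ WW z) : Odd q := by
  refine Odd.of_dvd_nat ?_ h
  unfold WW
  refine Finset.prod_induction _ Odd (fun a b ha hb => ha.mul hb) odd_one fun p hp => ?_
  rw [mem_filter, mem_Icc] at hp
  exact hp.2.odd_of_ne_two (by omega)

private lemma g7_dvd {z q : ℕ} (h1 : Odd q) (h2 : Squarefree q) (h3 : q ≤ z) : q ∣ WW z := by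
  rw [← Nat.prod_primeFactors_of_squarefree h2]
  unfold WW
  refine Finset.prod_dvd_prod_of_subset _ _ _ fun p hp => ?_
  have hp1 := Nat.prime_of_mem_primeFactors hp
  have hp2 := Nat.dvd_of_mem_primeFactors hp
  have hq : 0 < q := Nat.pos_of_ne_zero h2.ne_zero
  have hp3 : p ≤ q := Nat.le_of_dvd hq hp2
  have hp4 : p ≠ 2 := by
    rintro rfl
    exact (Nat.not_even_iff_odd.mpr h1) (even_iff_two_dvd.mpr hp2)
  have hp5 := hp1.two_le
  rw [mem_filter, mem_Icc]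
  exact ⟨⟨by omega, by omega⟩, hp1⟩

private lemma g7_WW_ne (z : ℕ) : WW z ≠ 0 := by
  unfold WW
  rw [Finset.prod_ne_zero_iff]
  intro p hp
  rw [mem_filter] at hp
  exact hp.2.ne_zero

/-- the decomposition of the sum over odd `q ≤ Q / 2` -/
private lemma g7_decomp (b : ℤ) (m : ℤ) (z N : ℕ) (y : ℝ) (hN : (N : ℝ) ≤ y) :
    ∑ q ∈ (Icc 1 N).filter (fun q => Odd q), YY b q m =
      ∑ q ∈ (WW z).divisors, YY b q m
      - ∑ q ∈ (WW z).divisors.filter (fun q : ℕ => N < q ∧ (q : ℝ) ≤ y), YY b q m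
      - ∑ q ∈ (WW z).divisors.filter (fun q : ℕ => y < q), YY b q m
      + ∑ q ∈ (Icc 1 N).filter (fun q => Odd q ∧ ¬ q ∣ WW z ∧ z < q), YY b q m := by
  classical
  have h1 : ∑ q ∈ (Icc 1 N).filter (fun q => Odd q), YY b q m =
      ∑ q ∈ ((Icc 1 N).filter (fun q => Odd q)).filter (fun q => q ∣ WW z), YY b q m +
      ∑ q ∈ ((Icc 1 N).filter (fun q => Odd q)).filter (fun q => ¬ q ∣ WW z), YY b q m :=
    (sum_filter_add_sum_filter_not _ _ _).symm
  have h2 : ∑ q ∈ (WW z).divisors, YY b q m =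
      ∑ q ∈ (WW z).divisors.filter (fun q => q ≤ N), YY b q m +
      ∑ q ∈ (WW z).divisors.filter (fun q => ¬ q ≤ N), YY b q m :=
    (sum_filter_add_sum_filter_not _ _ _).symm
  have h3 : ∑ q ∈ (WW z).divisors.filter (fun q => ¬ q ≤ N), YY b q m =
      ∑ q ∈ ((WW z).divisors.filter (fun q => ¬ q ≤ N)).filter (fun q : ℕ => (q : ℝ) ≤ y),
        YY b q m +
      ∑ q ∈ ((WW z).divisors.filter (fun q => ¬ q ≤ N)).filter (fun q : ℕ => ¬ (q : ℝ) ≤ y),
        YY b q m :=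
    (sum_filter_add_sum_filter_not _ _ _).symm
  have h4 : ((WW z).divisors.filter (fun q => ¬ q ≤ N)).filter (fun q : ℕ => (q : ℝ) ≤ y) =
      (WW z).divisors.filter (fun q : ℕ => N < q ∧ (q : ℝ) ≤ y) := by
    ext q
    simp only [mem_filter, not_le]
    tauto
  have h5 : ((WW z).divisors.filter (fun q => ¬ q ≤ N)).filter (fun q : ℕ => ¬ (q : ℝ) ≤ y) =
      (WW z).divisors.filter (fun q : ℕ => y < q) := by
    ext q
    simp only [mem_filter, not_le]
    constructor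
    · rintro ⟨⟨h6, _⟩, h7⟩
      exact ⟨h6, h7⟩
    · rintro ⟨h6, h7⟩
      refine ⟨⟨h6, ?_⟩, h7⟩
      have : (N : ℝ) < q := lt_of_le_of_lt hN h7
      exact_mod_cast this
  have h6 : ((Icc 1 N).filter (fun q => Odd q)).filter (fun q => q ∣ WW z) =
      (WW z).divisors.filter (fun q => q ≤ N) := by
    ext q
    simp only [mem_filter, mem_Icc, Nat.mem_divisors]
    constructor
    · rintro ⟨⟨⟨_, h7⟩, _⟩, h8⟩
      exact ⟨⟨h8, g7_WW_ne z⟩, h7⟩
    · rintro ⟨⟨h7, _⟩, h8⟩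
      exact ⟨⟨⟨Nat.pos_of_dvd_of_pos h7 (Nat.pos_of_ne_zero (g7_WW_ne z)), h8⟩, g7_odd h7⟩, h7⟩
  have h7 : ∑ q ∈ ((Icc 1 N).filter (fun q => Odd q)).filter (fun q => ¬ q ∣ WW z), YY b q m =
      ∑ q ∈ (Icc 1 N).filter (fun q => Odd q ∧ ¬ q ∣ WW z ∧ z < q), YY b q m := by
    symm
    refine sum_subset ?_ ?_
    · intro q hq
      simp only [mem_filter] at hq ⊢
      tauto
    · intro q hq hq'
      simp only [mem_filter] at hq hq'
      have hz : q ≤ z := by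
        by_contra hlt
        push Not at hlt
        exact hq' ⟨hq.1.1, hq.1.2, hq.2, hlt⟩
      refine YY_not_squarefree b q (fun hsq => ?_) m
      exact hq.2 (g7_dvd hq.1.2 hsq hz)
  rw [h1, h2, h3, h4, h5, h6, h7]
  ring

/-- the lower bound for `SQ` for one `m` -/
private lemma g7_lower (b : ℤ) (m : ℤ) (z Q : ℕ) (y T P : ℝ) (hb : (2 : ℤ) ∣ m - b)
    (hQ : ((Q / 2 : ℕ) : ℝ) ≤ y)
    (hP : P ≤ ∑ q ∈ (WW z).divisors, YY b q m)
    (h1 : |∑ q ∈ (WW z).divisors.filter (fun q : ℕ => Q / 2 < q ∧ (q : ℝ) ≤ y), YY b q m| < T)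
    (h2 : |∑ q ∈ (WW z).divisors.filter (fun q : ℕ => y < q), YY b q m| ≤ T)
    (h3 : |∑ q ∈ (Icc 1 (Q / 2)).filter (fun q => Odd q ∧ ¬ q ∣ WW z ∧ z < q), YY b q m| < T)
    (h4 : |∑ q ∈ (Ioc (Q / 2) Q).filter (fun q => Odd q), YY b q m| < T)
    (hsplit : SQ b Q m = 2 * ∑ q ∈ (Icc 1 (Q / 2)).filter (fun q => Odd q), YY b q m +
      ∑ q ∈ (Ioc (Q / 2) Q).filter (fun q => Odd q), YY b q m) :
    2 * P - 7 * T ≤ SQ b Q m := by
  have hd := g7_decomp b m z (Q / 2) y hQ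
  rw [abs_lt] at h1 h3 h4
  rw [abs_le] at h2
  linarith only [h1.1, h1.2, h2.1, h2.2, h3.1, h3.2, h4.1, h4.2, hP, h1, h2, h3, h4, hsplit, hd]

/-- the analytic conditions for large `X` -/
private lemma g7_event (A C : ℕ) (hC : 2 * A + 11 ≤ C) (c C0 : ℝ) (hc : 0 < c) :
    ∀ᶠ X : ℕ in Filter.atTop, 2 ≤ Real.log X ∧ 1 ≤ (X : ℝ) ∧
      Real.log X ^ C ≤ (X : ℝ) ^ (1 / 8 : ℝ) ∧
      4 ≤ c * Real.log X ^ (3 / 50 : ℝ) ∧
      12 * C0 ≤ Real.log X ^ 3 ∧
      6 * Real.log X ^ (A + 2) ≤ Real.sqrt X := by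
  have hcast := tendsto_natCast_atTop_atTop (R := ℝ)
  have hlog : Filter.Tendsto (fun X : ℕ => Real.log X) Filter.atTop Filter.atTop :=
    Real.tendsto_log_atTop.comp hcast
  have e1 := hlog.eventually_ge_atTop 2
  have e2 := hcast.eventually_ge_atTop 1
  have e3 : ∀ᶠ X : ℕ in Filter.atTop, Real.log X ^ C ≤ (X : ℝ) ^ (1 / 8 : ℝ) := by
    have h := (isLittleO_log_rpow_rpow_atTop (C : ℝ) (show (0 : ℝ) < 1 / 8 by norm_num)).bound
      (show (0 : ℝ) < 1 by norm_num)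
    have h2 := hcast.eventually h
    filter_upwards [h2, e1, e2] with X h3 h4 h5
    rw [Real.rpow_natCast, Real.norm_of_nonneg (by positivity),
      Real.norm_of_nonneg (by (clear * - h5; positivity)), one_mul] at h3
    exact h3
  have e4 : ∀ᶠ X : ℕ in Filter.atTop, 4 ≤ c * Real.log X ^ (3 / 50 : ℝ) :=
    (((tendsto_rpow_atTop (show (0 : ℝ) < 3 / 50 by norm_num)).comp hlog).const_mul_atTop
      hc).eventually_ge_atTop 4
  have e5 : ∀ᶠ X : ℕ in Filter.atTop, 12 * C0 ≤ Real.log X ^ 3 :=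
    ((Filter.tendsto_pow_atTop (by norm_num)).comp hlog).eventually_ge_atTop _
  have e6 : ∀ᶠ X : ℕ in Filter.atTop, 6 * Real.log X ^ (A + 2) ≤ Real.sqrt X := by
    have h := (isLittleO_log_rpow_rpow_atTop ((A + 2 : ℕ) : ℝ)
      (show (0 : ℝ) < 1 / 2 by norm_num)).bound (show (0 : ℝ) < 1 / 6 by norm_num)
    have h2 := hcast.eventually h
    filter_upwards [h2, e1, e2] with X h3 h4 h5
    rw [Real.rpow_natCast, Real.norm_of_nonneg (by positivity),
      Real.norm_of_nonneg (by (clear * - h5; positivity)), ← Real.sqrt_eq_rpow] at h3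
    linarith only [h3]
  filter_upwards [e1, e2, e3, e4, e5, e6] with X h1 h2 h3 h4 h5 h6
  exact ⟨h1, h2, h3, h4, h5, h6⟩

/-- Proof. Only squarefree `q` matter; even squarefree `q` are `2q'`, `q'` odd, and
`Y_{2q'} = Y_2 Y_{q'} = Y_{q'}` (`YY_two`). -/
theorem SQ_split (b : ℤ) (Q : ℕ) (m : ℤ) (h : (2 : ℤ) ∣ m - b) :
    SQ b Q m = 2 * ∑ q ∈ (Icc 1 (Q / 2)).filter (fun q => Odd q), YY b q m +
      ∑ q ∈ (Ioc (Q / 2) Q).filter (fun q => Odd q), YY b q m := by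
  classical
  unfold SQ
  have h1 : ∑ q ∈ Icc 1 Q, YY b q m = ∑ q ∈ (Icc 1 Q).filter (fun q => Odd q), YY b q m +
      ∑ q ∈ (Icc 1 Q).filter (fun q => ¬ Odd q), YY b q m :=
    (sum_filter_add_sum_filter_not _ _ _).symm
  have h2 : ∑ q ∈ (Icc 1 Q).filter (fun q => ¬ Odd q), YY b q m =
      ∑ q ∈ Icc 1 (Q / 2), YY b (2 * q) m := by
    symm
    refine sum_bij (fun q _ => 2 * q) ?_ ?_ ?_ ?_
    · intro q hq
      rw [mem_Icc] at hq
      rw [mem_filter, mem_Icc]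
      refine ⟨by (clear * - hq; omega), ?_⟩
      rw [Nat.not_odd_iff_even]
      exact even_two_mul q
    · intro a _ a' _ h
      (clear * - h; omega)
    · intro q hq
      rw [mem_filter, mem_Icc, Nat.not_odd_iff_even] at hq
      obtain ⟨k, hk⟩ := hq.2
      refine ⟨k, ?_, ?_⟩
      · rw [mem_Icc]
        (clear * - hq hk; omega)
      · omega
    · intro q _
      rfl
  have h3 : ∑ q ∈ Icc 1 (Q / 2), YY b (2 * q) m =
      ∑ q ∈ (Icc 1 (Q / 2)).filter (fun q => Odd q), YY b q m := by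
    rw [sum_filter]
    refine sum_congr rfl fun q _ => ?_
    split_ifs with ho
    · rw [YY_mul b 2 q (Nat.coprime_two_left.mpr ho) m, YY_two b m h, one_mul]
    · rw [Nat.not_odd_iff_even] at ho
      obtain ⟨k, hk⟩ := ho
      refine YY_not_squarefree b _ (fun hsq => ?_) m
      have h4 : 2 * 2 ∣ 2 * q := ⟨k, by (clear * - hk; omega)⟩
      have := hsq 2 h4
      rw [Nat.isUnit_iff] at this
      omega
  have h4 : (Icc 1 Q).filter (fun q => Odd q) = (Icc 1 (Q / 2)).filter (fun q => Odd q) ∪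
      (Ioc (Q / 2) Q).filter (fun q => Odd q) := by
    ext q
    simp only [mem_filter, mem_union, mem_Icc, mem_Ioc]
    constructor
    · rintro ⟨⟨h5, h6⟩, h7⟩
      by_cases h8 : q ≤ Q / 2
      · exact Or.inl ⟨⟨h5, h8⟩, h7⟩
      · exact Or.inr ⟨⟨by omega, h6⟩, h7⟩
    · rintro (⟨⟨h5, h6⟩, h7⟩ | ⟨⟨h5, h6⟩, h7⟩)
      · exact ⟨⟨h5, by omega⟩, h7⟩
      · exact ⟨⟨by omega, h6⟩, h7⟩
  have h5 : Disjoint ((Icc 1 (Q / 2)).filter (fun q => Odd q))
      ((Ioc (Q / 2) Q).filter (fun q => Odd q)) := by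
    rw [disjoint_left]
    intro q hq hq'
    simp only [mem_filter, mem_Icc, mem_Ioc] at hq hq'
    omega
  rw [h1, h2, h3, h4, sum_union h5]
  ring

/-- Proof. `B = 2A + 10`, `z = LC B X`, `C₁ = B + 1`, so `z ≤ Q/2` for `Q = LC C X`, `C ≥ C₁`; `W = WW z`. With
`Π = ∑_{q ∣ W} Y_q`:
`∑_{odd q ≤ Q/2} Y_q = Π - ∑_{q ∣ W, Q/2 < q ≤ X^(1/8)} Y_q - ∑_{q ∣ W, q > X^(1/8)} Y_q +
∑_{q ≤ Q/2 odd, q ∤ W} Y_q`. In the last sum only squarefree `q` matter, and these have a prime factor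
`> z`, so `q > z`. `few_large` with this `z` and `T = 1/log X` for the three families (last one,
`q ∣ W` in `(Q/2, X^(1/8)]`, and odd `q ∈ (Q/2, Q]`): at most `3 (CX/√z + √X)(log X)² ≤ X/(log X)^A`
exceptional `m` (`√z ≥ (log X)^(A+5)/2`). For the others, by `rankin` and `abs_YY_le`,
`SQ ≥ 2Π - 10/log X`, and `prod_ge`, `sum_div_eq_prod` give `SQ ≥ (log X)^(-1/10)`. -/
theorem sing_large (A : ℕ) : ∃ C₁ : ℕ, ∀ C : ℕ, C₁ ≤ C → ∃ X₀ : ℕ, ∀ X : ℕ, X₀ ≤ X →
    ∀ b : ℤ, ¬ (3 : ℤ) ∣ b →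
    (((Icc 1 X).filter (fun m : ℕ => (2 : ℤ) ∣ (m : ℤ) - b ∧
      SQ b (LC C X) (m : ℤ) < Real.log X ^ (-(1 / 10) : ℝ))).card : ℝ) ≤
      (X : ℝ) / Real.log X ^ A := by
  classical
  obtain ⟨C0, X1, hC0, hfew⟩ := few_large
  obtain ⟨c, X2, hc, hprod⟩ := prod_ge (2 * A + 10)
  obtain ⟨X3, hran⟩ := rankin (2 * A + 10)
  refine ⟨2 * A + 11, fun C hC => ?_⟩
  obtain ⟨X4, hX4⟩ := Filter.eventually_atTop.mp (g7_event A C hC c C0 hc)
  refine ⟨max (max X1 X2) (max X3 X4), fun X hX b hb3 => ?_⟩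
  have hX1 : X1 ≤ X := (le_max_left _ _).trans ((le_max_left _ _).trans hX)
  have hX2 : X2 ≤ X := (le_max_right _ _).trans ((le_max_left _ _).trans hX)
  have hX3 : X3 ≤ X := (le_max_left _ _).trans ((le_max_right _ _).trans hX)
  obtain ⟨hL2, hXone, hLC, hcL, hCL, hAL⟩ := hX4 X ((le_max_right _ _).trans
    ((le_max_right _ _).trans hX))
  have hf := hfew X hX1 b (LC (2 * A + 10) X)
  have hp := hprod X hX2 b hb3
  have hr := hran X hX3
  set L := Real.log X with hLdef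
  have hL0 : 0 < L := by linarith only [hL2]
  set z := LC (2 * A + 10) X with hz
  set Q := LC C X with hQ
  have hzle : (z : ℝ) ≤ L ^ (2 * A + 10) := Nat.floor_le (by (clear * - hL2; positivity))
  have hQle : (Q : ℝ) ≤ L ^ C := Nat.floor_le (by (clear * - hL2; positivity))
  have hLB : 1 ≤ L ^ (2 * A + 10) := one_le_pow₀ (by linarith only [hL2])
  have hLB2 : (2 : ℝ) ≤ L ^ (2 * A + 10) := by
    calc (2 : ℝ) ≤ L ^ 1 := by rwa [pow_one]
      _ ≤ L ^ (2 * A + 10) := pow_le_pow_right₀ (by linarith only [hL2]) (by (clear * -; omega))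
  have hz1 : 1 ≤ z := Nat.le_floor (by exact_mod_cast hLB)
  have hzge : L ^ (2 * A + 10) / 2 ≤ z := by
    have := Nat.lt_floor_add_one (L ^ (2 * A + 10))
    have h2 : L ^ (2 * A + 10) < (z : ℝ) + 1 := this
    linarith only [hLB2, h2]
  have hzQ : z ≤ Q / 2 := by
    have h1 : ((2 * z : ℕ) : ℝ) ≤ L ^ C := by
      push_cast
      calc 2 * (z : ℝ) ≤ L * L ^ (2 * A + 10) := by
            refine mul_le_mul hL2 hzle (by (clear * - hz1; positivity)) hL0.le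
        _ = L ^ (2 * A + 11) := by ring
        _ ≤ L ^ C := pow_le_pow_right₀ (by linarith only [hL2]) hC
    have h2 : 2 * z ≤ Q := Nat.le_floor h1
    (clear * - h2; omega)
  have hQ8 : (Q : ℝ) ≤ (X : ℝ) ^ (1 / 8 : ℝ) := hQle.trans hLC
  have hQ28 : ((Q / 2 : ℕ) : ℝ) ≤ (X : ℝ) ^ (1 / 8 : ℝ) := by
    refine le_trans ?_ hQ8
    exact_mod_cast Nat.div_le_self Q 2
  set y := (X : ℝ) ^ (1 / 8 : ℝ) with hy
  have hT : 0 < 1 / L := by (clear * - hL2; positivity)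
  set S1 := (WW z).divisors.filter (fun q : ℕ => Q / 2 < q ∧ (q : ℝ) ≤ y) with hS1
  set S2 := (Icc 1 (Q / 2)).filter (fun q => Odd q ∧ ¬ q ∣ WW z ∧ z < q) with hS2
  set S3 := (Ioc (Q / 2) Q).filter (fun q => Odd q) with hS3
  have c1 := hf S1 (1 / L) hz1 hT (by
    intro q hq
    rw [hS1, mem_filter, Nat.mem_divisors] at hq
    exact ⟨g7_odd hq.1.1, by omega, hq.2.2⟩)
  have c2 := hf S2 (1 / L) hz1 hT (by
    intro q hq
    rw [hS2, mem_filter, mem_Icc] at hq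
    refine ⟨hq.2.1, hq.2.2.2, ?_⟩
    refine le_trans ?_ hQ28
    exact_mod_cast hq.1.2)
  have c3 := hf S3 (1 / L) hz1 hT (by
    intro q hq
    rw [hS3, mem_filter, mem_Ioc] at hq
    refine ⟨hq.2, by omega, ?_⟩
    refine le_trans ?_ hQ8
    exact_mod_cast hq.1.2)
  have hsub : (Icc 1 X).filter (fun m : ℕ => (2 : ℤ) ∣ (m : ℤ) - b ∧
      SQ b Q (m : ℤ) < L ^ (-(1 / 10) : ℝ)) ⊆
      ((Icc 1 X).filter (fun m : ℕ => 1 / L ≤ |∑ q ∈ S1, YY b q (m : ℤ)|) ∪
      (Icc 1 X).filter (fun m : ℕ => 1 / L ≤ |∑ q ∈ S2, YY b q (m : ℤ)|)) ∪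
      (Icc 1 X).filter (fun m : ℕ => 1 / L ≤ |∑ q ∈ S3, YY b q (m : ℤ)|) := by
    intro m hm
    rw [mem_filter] at hm
    obtain ⟨hm1, hm2, hm3⟩ := hm
    rw [mem_union, mem_union, mem_filter, mem_filter, mem_filter]
    by_contra hno
    simp only [hm1, true_and, not_or, not_le] at hno
    obtain ⟨⟨n1, n2⟩, n3⟩ := hno
    have hran2 : |∑ q ∈ (WW z).divisors.filter (fun q : ℕ => y < q), YY b q (m : ℤ)| ≤ 1 / L := by
      refine (abs_sum_le_sum_abs _ _).trans (le_trans (sum_le_sum fun q hq => ?_) hr)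
      rw [mem_filter, Nat.mem_divisors] at hq
      exact abs_YY_le b q (g7_odd hq.1.1) m
    have hpp := hp (m : ℤ)
    rw [← sum_div_eq_prod] at hpp
    have hlow := g7_lower b (m : ℤ) z Q y (1 / L) _ hm2 hQ28 hpp n1 hran2 n2 n3
      (SQ_split b Q (m : ℤ) hm2)
    -- the analytic inequality
    have k1 : L ^ (-(1 / 25) : ℝ) = L ^ (3 / 50 : ℝ) * L ^ (-(1 / 10) : ℝ) := by
      rw [← Real.rpow_add hL0]
      norm_num
    have k2 : 1 / L ≤ L ^ (-(1 / 10) : ℝ) := by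
      rw [one_div, ← Real.rpow_neg_one]
      exact Real.rpow_le_rpow_of_exponent_le (by linarith only [hL2]) (by norm_num)
    have k3 : 0 < L ^ (-(1 / 10) : ℝ) := Real.rpow_pos_of_pos hL0 _
    have k4 : 4 * L ^ (-(1 / 10) : ℝ) ≤ c * L ^ (-(1 / 25) : ℝ) := by
      rw [k1, ← mul_assoc]
      exact mul_le_mul_of_nonneg_right hcL k3.le
    linarith only [hm3, hlow, k2, k4]
  have hcard : (((Icc 1 X).filter (fun m : ℕ => (2 : ℤ) ∣ (m : ℤ) - b ∧
      SQ b Q (m : ℤ) < L ^ (-(1 / 10) : ℝ))).card : ℝ) ≤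
      3 * ((C0 * X / Real.sqrt z + Real.sqrt X) / (1 / L) ^ 2) := by
    have h1 := (card_le_card hsub).trans ((card_union_le _ _).trans
      (Nat.add_le_add_right (card_union_le _ _) _))
    have h2 : (((Icc 1 X).filter (fun m : ℕ => (2 : ℤ) ∣ (m : ℤ) - b ∧
      SQ b Q (m : ℤ) < L ^ (-(1 / 10) : ℝ))).card : ℝ) ≤
      (((Icc 1 X).filter (fun m : ℕ => 1 / L ≤ |∑ q ∈ S1, YY b q (m : ℤ)|)).card : ℝ) +
      (((Icc 1 X).filter (fun m : ℕ => 1 / L ≤ |∑ q ∈ S2, YY b q (m : ℤ)|)).card : ℝ) +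
      (((Icc 1 X).filter (fun m : ℕ => 1 / L ≤ |∑ q ∈ S3, YY b q (m : ℤ)|)).card : ℝ) := by
      exact_mod_cast h1
    linarith only [c1, c2, c3, h2]
  refine hcard.trans ?_
  -- the final estimate
  have hsz : L ^ (A + 5) / 2 ≤ Real.sqrt z := by
    apply Real.le_sqrt_of_sq_le
    have h1 : (L ^ (A + 5) / 2) ^ 2 = L ^ (2 * A + 10) / 4 := by
      rw [div_pow, ← pow_mul]
      norm_num
      ring_nf
    rw [h1]
    have : 0 < L ^ (2 * A + 10) := by (clear * - hL2; positivity)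
    linarith only [hLB2, hzge]
  have hX0 : (0 : ℝ) ≤ X := Nat.cast_nonneg X
  have hC00 : 0 ≤ C0 := by linarith only [hC0]
  have hLA : 0 < L ^ A := by positivity
  have m1 : C0 * X / Real.sqrt z ≤ 2 * C0 * X / L ^ (A + 5) := by
    have h5 : 0 < L ^ (A + 5) / 2 := by (clear * - hL2; positivity)
    calc C0 * X / Real.sqrt z ≤ C0 * X / (L ^ (A + 5) / 2) :=
          div_le_div_of_nonneg_left (by (clear * - hC0 hXone; positivity)) h5 hsz
      _ = 2 * C0 * X / L ^ (A + 5) := by field_simp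
  have m2 : 3 * (2 * C0 * X / L ^ (A + 5) / (1 / L) ^ 2) ≤ (X : ℝ) / L ^ A / 2 := by
    have h6 : 3 * (2 * C0 * X / L ^ (A + 5) / (1 / L) ^ 2) = (X : ℝ) / L ^ A * (6 * C0 / L ^ 3) := by
      field_simp
      ring
    rw [h6]
    have h7 : 6 * C0 / L ^ 3 ≤ 1 / 2 := by
      rw [div_le_div_iff₀ (by positivity) (by norm_num)]
      linarith only [hCL]
    calc (X : ℝ) / L ^ A * (6 * C0 / L ^ 3) ≤ (X : ℝ) / L ^ A * (1 / 2) :=
          mul_le_mul_of_nonneg_left h7 (by (clear * - hXone hL2; positivity))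
      _ = _ := by ring
  have m3 : 3 * (Real.sqrt X / (1 / L) ^ 2) ≤ (X : ℝ) / L ^ A / 2 := by
    have h8 : (X : ℝ) = Real.sqrt X * Real.sqrt X := (Real.mul_self_sqrt hX0).symm
    have h9 : 3 * (Real.sqrt X / (1 / L) ^ 2) = Real.sqrt X * (6 * L ^ (A + 2)) / L ^ A / 2 := by
      field_simp
      ring
    rw [h9]
    conv_rhs => rw [h8]
    have h10 : Real.sqrt X * (6 * L ^ (A + 2)) ≤ Real.sqrt X * Real.sqrt X :=
      mul_le_mul_of_nonneg_left hAL (Real.sqrt_nonneg _)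
    exact div_le_div_of_nonneg_right (div_le_div_of_nonneg_right h10 hLA.le) (by norm_num)
  have m4 : 0 < (1 / L) ^ 2 := by positivity
  have m5 : 3 * ((C0 * X / Real.sqrt z + Real.sqrt X) / (1 / L) ^ 2) ≤
      3 * (2 * C0 * X / L ^ (A + 5) / (1 / L) ^ 2) + 3 * (Real.sqrt X / (1 / L) ^ 2) := by
    rw [← mul_add, ← add_div]
    refine mul_le_mul_of_nonneg_left ?_ (by norm_num)
    exact div_le_div_of_nonneg_right (by linarith only [m1]) m4.le
  linarith only [m2, m3, m5]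

end Pool.Agent.Lib.MP_d9bc60_nt.UV
end
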