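import Pool.Agent.Lib.MP_d9bc60_nt.UV.PInt
import Pool.Agent.Lib.MP_d9bc60_nt.UV.PMajor
import Pool.Agent.Lib.MP_d9bc60_nt.UV.PSing

section
/-! Row Z1 (about 150 lines): `R(m)` is large for almost all `m` in `(X/2, X]`. -/

set_option autoImplicit false

namespace Pool.Agent.Lib.MP_d9bc60_nt.UV

open Finset

theorem z1_log_ineq (L : ℝ) (hL : 1024 ≤ L) :
    L ^ (-(1 / 5) : ℝ) ≤ L ^ (-(1 / 10) : ℝ) - 2 / L := by
  have hL0 : 0 < L := by linarith
  set u : ℝ := L ^ (-(1 / 10) : ℝ) with hu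
  have hu0 : 0 < u := Real.rpow_pos_of_pos hL0 _
  have h1 : L ^ (-(1 / 5) : ℝ) = u ^ 2 := by
    rw [hu, ← Real.rpow_natCast, ← Real.rpow_mul hL0.le]
    congr 1
    norm_num
  have h2 : 2 / L = 2 * u ^ 10 := by
    rw [hu, ← Real.rpow_natCast, ← Real.rpow_mul hL0.le]
    have : (-(1 / 10) : ℝ) * ((10 : ℕ) : ℝ) = -1 := by norm_num
    rw [this, Real.rpow_neg_one]
    rfl
  have h3 : u ≤ 1 / 2 := by
    have h4 : u ≤ (1024 : ℝ) ^ (-(1 / 10) : ℝ) :=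
      Real.rpow_le_rpow_of_nonpos (by norm_num) hL (by norm_num)
    have h5 : (1024 : ℝ) ^ (-(1 / 10) : ℝ) = 1 / 2 := by
      have : (1024 : ℝ) = 2 ^ ((10 : ℕ) : ℝ) := by rw [Real.rpow_natCast]; norm_num
      rw [this, ← Real.rpow_mul (by norm_num)]
      have : ((10 : ℕ) : ℝ) * (-(1 / 10) : ℝ) = -1 := by norm_num
      rw [this, Real.rpow_neg_one]
      norm_num
    linarith
  rw [h1, h2]
  have h6 : u ^ 9 ≤ (1 / 2) ^ 9 := pow_le_pow_left₀ hu0.le h3 9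
  have h7 : u ^ 2 + 2 * u ^ 10 = u * (u + 2 * u ^ 9) := by ring
  have h8 : u + 2 * u ^ 9 ≤ 1 := by
    norm_num at h6
    linarith
  nlinarith [mul_le_mul_of_nonneg_left h8 hu0.le]

/-- Proof. `C = max C₁ C₁'` (`main_int ε (A+3)`, `sing_large (A+1)`), `Q = LC C X`, `P = PP b X`. For
`m ∈ (X/2, X]`, `n ≤ P`: `|g(n)| ≤ P² + |b|P ≤ 5X/16` (`PP_bounds`), so `1 ≤ m - g(n) ≤ 2X`;
`parseval_use` with `N = 2X` and `main_int`: at most `X (log X)²/(log X)^(A+3)` of the `m` have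
`|RL - RQ| > P/log X`. `RQ_eq 1 C`: `|RQ - P·SQ| ≤ P/log X`. Outside the exceptional set of
`sing_large`, `RL ≥ P ((log X)^(-1/10) - 2/log X) ≥ P (log X)^(-1/5)`. -/
theorem RL_large (ε : ℝ) (hε : 0 < ε) (A : ℕ) : ∃ X₀ : ℕ, ∀ X : ℕ, X₀ ≤ X →
    ∀ b : ℤ, ¬ (3 : ℤ) ∣ b → |(b : ℝ)| ≤ (X : ℝ) ^ (5 / 6 - ε) →
    (((Ioc (X / 2) X).filter (fun m : ℕ => (2 : ℤ) ∣ (m : ℤ) - b ∧
      RL b (PP b X) (m : ℤ) < PP b X * Real.log X ^ (-(1 / 5) : ℝ))).card : ℝ) ≤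
      (X : ℝ) / Real.log X ^ A := by
  obtain ⟨C₁, hC₁⟩ := main_int ε hε (A + 3)
  obtain ⟨C₂, hC₂⟩ := sing_large (A + 1)
  obtain ⟨X₁, hX₁⟩ := hC₁ (max C₁ C₂) (le_max_left _ _)
  obtain ⟨X₂, hX₂⟩ := hC₂ (max C₁ C₂) (le_max_right _ _)
  obtain ⟨X₃, hX₃⟩ := RQ_eq 1 (max C₁ C₂)
  obtain ⟨X₄, hX₄⟩ := PP_bounds ε hε
  set C := max C₁ C₂
  refine ⟨max (max X₁ X₂) (max (max X₃ X₄) ⌈Real.exp 1024⌉₊), ?_⟩
  intro X hX b hb3 hb
  have g1 : X₁ ≤ X := (le_max_left _ _).trans ((le_max_left _ _).trans hX)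
  have g2 : X₂ ≤ X := (le_max_right _ _).trans ((le_max_left _ _).trans hX)
  have g3 : X₃ ≤ X := (le_max_left _ _).trans ((le_max_left _ _).trans ((le_max_right _ _).trans hX))
  have g4 : X₄ ≤ X := (le_max_right _ _).trans ((le_max_left _ _).trans ((le_max_right _ _).trans hX))
  have g5 : ⌈Real.exp 1024⌉₊ ≤ X := (le_max_right _ _).trans ((le_max_right _ _).trans hX)
  have g6 : Real.exp 1024 ≤ X := (Nat.le_ceil _).trans (by exact_mod_cast g5)
  have hX0 : (0 : ℝ) < X := (Real.exp_pos _).trans_le g6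
  have hX1 : (1 : ℝ) ≤ X := (Real.one_le_exp (by norm_num)).trans g6
  have hXn : 1 ≤ X := by exact_mod_cast hX1
  set L := Real.log X with hLdef
  have hL : 1024 ≤ L := by
    rw [hLdef, Real.le_log_iff_exp_le hX0]
    exact g6
  have hL0 : 0 < L := by linarith
  have hb0 : b ≠ 0 := by
    rintro rfl
    exact hb3 (dvd_zero _)
  obtain ⟨p1, _, p3, p4⟩ := hX₄ X g4 b hb0 hb
  set P := PP b X with hPdef
  have hP1 : (1 : ℝ) ≤ P := le_trans (Real.one_le_rpow hX1 (by norm_num)) p1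
  have hP0 : (0 : ℝ) < P := by linarith
  have hPX : P ≤ X := by
    have h1 : Real.sqrt X ≤ X := by
      rw [Real.sqrt_le_left hX0.le]
      nlinarith
    have h2 : (P : ℝ) ≤ X := by
      have := Real.sqrt_nonneg (X : ℝ)
      linarith
    exact_mod_cast h2
  set Q := LC C X with hQdef
  -- the two exceptional sets
  set E₁ := (Ioc (X / 2) X).filter (fun m : ℕ => (P : ℝ) / L < |RL b P (m : ℤ) - RQ b Q P (m : ℤ)|)
    with hE₁
  set E₂ := (Icc 1 X).filter (fun m : ℕ => (2 : ℤ) ∣ (m : ℤ) - b ∧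
      SQ b Q (m : ℤ) < L ^ (-(1 / 10) : ℝ)) with hE₂
  have hsub : (Ioc (X / 2) X).filter (fun m : ℕ => (2 : ℤ) ∣ (m : ℤ) - b ∧
      RL b P (m : ℤ) < P * L ^ (-(1 / 5) : ℝ)) ⊆ E₁ ∪ E₂ := by
    intro m hm
    rw [mem_filter, mem_Ioc] at hm
    rw [mem_union]
    by_contra hcon
    rw [not_or] at hcon
    obtain ⟨hc1, hc2⟩ := hcon
    rw [hE₁, mem_filter, mem_Ioc, not_and, not_lt] at hc1
    rw [hE₂, mem_filter, mem_Icc, not_and, not_and, not_lt] at hc2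
    have h1 := hc1 hm.1
    have h2 := hc2 ⟨by omega, hm.1.2⟩ hm.2.1
    have h3 := hX₃ X g3 P p1 hPX b (m : ℤ)
    rw [pow_one] at h3
    have h4 := z1_log_ineq L hL
    have h5 := hm.2.2
    have h6 := (abs_le.mp h1).1
    have h7 := (abs_le.mp h3).1
    have h8 : (P : ℝ) * L ^ (-(1 / 10) : ℝ) ≤ P * SQ b Q (m : ℤ) :=
      mul_le_mul_of_nonneg_left h2 hP0.le
    have h9 : (P : ℝ) * L ^ (-(1 / 5) : ℝ) ≤ P * (L ^ (-(1 / 10) : ℝ) - 2 / L) :=
      mul_le_mul_of_nonneg_left h4 hP0.le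
    have h10 : (P : ℝ) * (L ^ (-(1 / 10) : ℝ) - 2 / L) =
        P * L ^ (-(1 / 10) : ℝ) - P / L - P / L := by
      field_simp
      ring
    rw [← hQdef] at h7
    linarith
  -- size of `E₂`
  have hcard2 : (E₂.card : ℝ) ≤ X / L ^ (A + 1) := hX₂ X g2 b hb3
  -- size of `E₁`
  have hcard1 : (E₁.card : ℝ) ≤ X / L ^ (A + 1) := by
    set J : Finset ℤ := (Ioc (X / 2) X).image (fun m : ℕ => (m : ℤ)) with hJ
    have hrange : ∀ m ∈ J, ∀ n ∈ Icc 1 P, 1 ≤ m - gg b n ∧ m - gg b n ≤ ((2 * X : ℕ) : ℤ) := by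
      intro m hm n hn
      rw [hJ, mem_image] at hm
      obtain ⟨k, hk, rfl⟩ := hm
      rw [mem_Ioc] at hk
      rw [mem_Icc] at hn
      have hk1 : (X : ℝ) ≤ 2 * k := by
        have : X ≤ 2 * k := by omega
        exact_mod_cast this
      have hk2 : (k : ℝ) ≤ X := by exact_mod_cast hk.2
      have hn1 : (n : ℝ) ≤ P := by exact_mod_cast hn.2
      have hn0 : (0 : ℝ) ≤ n := Nat.cast_nonneg n
      have hsq : (P : ℝ) ^ 2 ≤ X / 16 := by
        have h1 : (P : ℝ) ^ 2 ≤ (Real.sqrt X / 4) ^ 2 := pow_le_pow_left₀ hP0.le p3 2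
        rw [div_pow, Real.sq_sqrt hX0.le] at h1
        norm_num at h1
        exact h1
      have hg : |((gg b n : ℤ) : ℝ)| ≤ 5 * X / 16 := by
        unfold gg
        push_cast
        have h1 : |(n : ℝ) ^ 2 + b * n| ≤ |(n : ℝ) ^ 2| + |(b : ℝ) * n| := abs_add_le _ _
        have h2 : |(n : ℝ) ^ 2| ≤ (P : ℝ) ^ 2 := by
          rw [abs_of_nonneg (by positivity)]
          exact pow_le_pow_left₀ hn0 hn1 2
        have h3 : |(b : ℝ) * n| ≤ X / 4 := by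
          rw [abs_mul, abs_of_nonneg hn0]
          calc |(b : ℝ)| * n ≤ |(b : ℝ)| * P := mul_le_mul_of_nonneg_left hn1 (abs_nonneg _)
            _ = P * |(b : ℝ)| := by ring
            _ ≤ _ := p4
        linarith
      have hg' := abs_le.mp hg
      constructor
      · have h1 : (0 : ℝ) < (((k : ℤ) - gg b n : ℤ) : ℝ) := by
          push_cast
          linarith
        have h2 : (0 : ℤ) < (k : ℤ) - gg b n := by exact_mod_cast h1
        omega
      · have h1 : (((k : ℤ) - gg b n : ℤ) : ℝ) ≤ ((2 * X : ℕ) : ℝ) := by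
          push_cast
          linarith
        exact_mod_cast h1
    have hpars := parseval_use b P Q (2 * X) J hrange
    have hint := hX₁ X g1 b hb0 hb
    have hsum : ∑ m ∈ J, (RL b P m - RQ b Q P m) ^ 2 =
        ∑ k ∈ Ioc (X / 2) X, (RL b P (k : ℤ) - RQ b Q P (k : ℤ)) ^ 2 := by
      rw [hJ, sum_image (by intro a _ c _ h; exact Nat.cast_injective (R := ℤ) h)]
    have h1 : (E₁.card : ℝ) * (P / L) ^ 2 ≤
        ∑ k ∈ Ioc (X / 2) X, (RL b P (k : ℤ) - RQ b Q P (k : ℤ)) ^ 2 := by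
      calc (E₁.card : ℝ) * (P / L) ^ 2 = ∑ k ∈ E₁, (P / L) ^ 2 := by
            rw [sum_const, nsmul_eq_mul]
        _ ≤ ∑ k ∈ E₁, (RL b P (k : ℤ) - RQ b Q P (k : ℤ)) ^ 2 := by
            apply sum_le_sum
            intro k hk
            rw [hE₁, mem_filter] at hk
            rw [← sq_abs (RL b P (k : ℤ) - RQ b Q P (k : ℤ))]
            exact pow_le_pow_left₀ (by positivity) hk.2.le 2
        _ ≤ _ := sum_le_sum_of_subset_of_nonneg (filter_subset _ _) (fun _ _ _ => sq_nonneg _)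
    have h2 : (E₁.card : ℝ) * (P / L) ^ 2 ≤ (P : ℝ) ^ 2 * X / L ^ (A + 3) := by
      refine h1.trans ?_
      rw [← hsum]
      exact hpars.trans hint
    have h3 : (E₁.card : ℝ) = (E₁.card : ℝ) * (P / L) ^ 2 * (L ^ 2 / (P : ℝ) ^ 2) := by
      field_simp
    rw [h3]
    calc (E₁.card : ℝ) * (P / L) ^ 2 * (L ^ 2 / (P : ℝ) ^ 2)
        ≤ (P : ℝ) ^ 2 * X / L ^ (A + 3) * (L ^ 2 / (P : ℝ) ^ 2) :=
          mul_le_mul_of_nonneg_right h2 (by positivity)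
      _ = X / L ^ (A + 1) := by
          have : L ^ (A + 3) = L ^ (A + 1) * L ^ 2 := by ring
          rw [this]
          field_simp
  have hcard : (((Ioc (X / 2) X).filter (fun m : ℕ => (2 : ℤ) ∣ (m : ℤ) - b ∧
      RL b P (m : ℤ) < P * L ^ (-(1 / 5) : ℝ))).card : ℝ) ≤ E₁.card + E₂.card := by
    exact_mod_cast (card_le_card hsub).trans (card_union_le _ _)
  refine hcard.trans ((add_le_add hcard1 hcard2).trans ?_)
  have h1 : (X : ℝ) / L ^ (A + 1) + X / L ^ (A + 1) = X / L ^ A * (2 / L) := by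
    rw [pow_succ]
    field_simp
    ring
  rw [h1]
  have h2 : 2 / L ≤ 1 := by
    rw [div_le_one hL0]
    linarith
  have h3 : 0 ≤ (X : ℝ) / L ^ A := by positivity
  nlinarith

end Pool.Agent.Lib.MP_d9bc60_nt.UV
end

section
/-! Row Z2 (about 190 lines): from `Λ` to primes. -/

set_option autoImplicit false

namespace Pool.Agent.Lib.MP_d9bc60_nt.UV

open Finset

/-- Number of primes `p ≤ P` with `m - g(p)` prime. -/
def cnt (b : ℤ) (P : ℕ) (m : ℤ) : ℕ :=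
  ((Icc 1 P).filter (fun p => p.Prime ∧ (m - gg b p).toNat.Prime)).card

/-- the proper prime powers up to `N` -/
theorem z2_card_ppw (N : ℕ) :
    ((Icc 1 N).filter (fun n => IsPrimePow n ∧ ¬ n.Prime)).card ≤ Nat.sqrt N * Nat.log 2 N := by
  classical
  have h1 : (Icc 1 N).filter (fun n => IsPrimePow n ∧ ¬ n.Prime) ⊆
      ((Icc 1 (Nat.sqrt N)) ×ˢ (Icc 1 (Nat.log 2 N))).image (fun p => p.1 ^ p.2) := by
    intro n hn
    rw [mem_filter, mem_Icc] at hn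
    obtain ⟨⟨hn1, hnN⟩, hpp, hnp⟩ := hn
    obtain ⟨p, k, hp, hk, hpk⟩ := (isPrimePow_nat_iff n).1 hpp
    rw [mem_image]
    have hk2 : 2 ≤ k := by
      by_contra hcon
      have hk1 : k = 1 := by omega
      rw [hk1, pow_one] at hpk
      exact hnp (hpk ▸ hp)
    refine ⟨(p, k), ?_, hpk⟩
    rw [mem_product, mem_Icc, mem_Icc]
    refine ⟨⟨hp.one_le, ?_⟩, ⟨hk, ?_⟩⟩
    · rw [Nat.le_sqrt']
      calc p ^ 2 ≤ p ^ k := Nat.pow_le_pow_right hp.pos hk2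
        _ ≤ N := by rw [hpk]; exact hnN
    · refine Nat.le_log_of_pow_le (by norm_num) ?_
      calc 2 ^ k ≤ p ^ k := Nat.pow_le_pow_left hp.two_le k
        _ ≤ N := by rw [hpk]; exact hnN
  refine (card_le_card h1).trans (card_image_le.trans ?_)
  rw [card_product, Nat.card_Icc, Nat.card_Icc]
  simp

theorem z2_card_ppw_real (N X : ℕ) (hX : 2 ≤ X) (hN : N ≤ 2 * X) :
    (((Icc 1 N).filter (fun n => IsPrimePow n ∧ ¬ n.Prime)).card : ℝ) ≤
      Real.sqrt N * (4 * Real.log X) := by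
  have h1 : (((Icc 1 N).filter (fun n => IsPrimePow n ∧ ¬ n.Prime)).card : ℝ) ≤
      (Nat.sqrt N : ℝ) * (Nat.log 2 N : ℝ) := by exact_mod_cast z2_card_ppw N
  have h2 : (Nat.sqrt N : ℝ) ≤ Real.sqrt N := Real.nat_sqrt_le_real_sqrt
  have hX' : (2 : ℝ) ≤ X := by exact_mod_cast hX
  have hlog2 : (1 / 2 : ℝ) ≤ Real.log 2 := by
    have := Real.log_two_gt_d9
    linarith
  have hlogX : Real.log 2 ≤ Real.log X := Real.log_le_log (by norm_num) hX'
  have h3 : (Nat.log 2 N : ℝ) ≤ 4 * Real.log X := by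
    have h4 : (Nat.log 2 N : ℝ) ≤ (Nat.log 2 (2 * X) : ℝ) := by
      exact_mod_cast Nat.log_mono_right hN
    have h5 : (Nat.log 2 (2 * X) : ℝ) ≤ Real.logb 2 ((2 * X : ℕ) : ℝ) := by
      have := Real.natLog_le_logb (2 * X) 2
      exact_mod_cast this
    have h6 : Real.logb 2 ((2 * X : ℕ) : ℝ) ≤ 4 * Real.log X := by
      rw [Real.logb, div_le_iff₀ (by linarith)]
      push_cast
      rw [Real.log_mul (by norm_num) (by positivity)]
      nlinarith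
    linarith
  calc (((Icc 1 N).filter (fun n => IsPrimePow n ∧ ¬ n.Prime)).card : ℝ)
      ≤ (Nat.sqrt N : ℝ) * (Nat.log 2 N : ℝ) := h1
    _ ≤ Real.sqrt N * (4 * Real.log X) := by gcongr

theorem z2_vm_nonneg (n : ℕ) : 0 ≤ vm n := ArithmeticFunction.vonMangoldt_nonneg

theorem z2_vm_le (n X : ℕ) (hX : 2 ≤ X) (hn : n ≤ 2 * X) : vm n ≤ 2 * Real.log X := by
  have hX' : (2 : ℝ) ≤ X := by exact_mod_cast hX
  have hlogX : Real.log 2 ≤ Real.log X := Real.log_le_log (by norm_num) hX'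
  have h0 : 0 ≤ Real.log X := Real.log_nonneg (by linarith)
  have h1 : vm n ≤ Real.log n := ArithmeticFunction.vonMangoldt_le_log
  rcases Nat.eq_zero_or_pos n with rfl | hpos
  · refine h1.trans ?_
    simp
    linarith
  · refine h1.trans ?_
    have h2 : Real.log n ≤ Real.log (2 * X) := by
      refine Real.log_le_log (by exact_mod_cast hpos) ?_
      exact_mod_cast hn
    rw [Real.log_mul (by norm_num) (by positivity)] at h2
    linarith

theorem z2_vm_le' (n X : ℕ) (hX : 2 ≤ X) (hn : n ≤ X) : vm n ≤ Real.log X := by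
  have hX' : (2 : ℝ) ≤ X := by exact_mod_cast hX
  have h0 : 0 ≤ Real.log X := Real.log_nonneg (by linarith)
  have h1 : vm n ≤ Real.log n := ArithmeticFunction.vonMangoldt_le_log
  rcases Nat.eq_zero_or_pos n with rfl | hpos
  · refine h1.trans ?_
    simp
    linarith
  · refine h1.trans (Real.log_le_log (by exact_mod_cast hpos) ?_)
    exact_mod_cast hn

theorem z2_vm_zero (n : ℕ) (h : ¬ IsPrimePow n) : vm n = 0 := by
  unfold vm
  exact ArithmeticFunction.vonMangoldt_eq_zero_iff.2 h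

/-- the bad pairs for `m` -/
def z2_S3 (b : ℤ) (P : ℕ) (m : ℕ) : Finset ℕ :=
  (Icc 1 P).filter (fun n => IsPrimePow ((m : ℤ) - gg b n).toNat ∧
    ¬ ((m : ℤ) - gg b n).toNat.Prime)

theorem z2_RL_le (b : ℤ) (P m X : ℕ) (hX : 2 ≤ X) (hP : P ≤ X)
    (hk : ∀ n ∈ Icc 1 P, ((m : ℤ) - gg b n).toNat ≤ 2 * X) :
    RL b P (m : ℤ) ≤ 2 * Real.log X ^ 2 * ((cnt b P (m : ℤ) : ℝ) +
      (((Icc 1 P).filter (fun n => IsPrimePow n ∧ ¬ n.Prime)).card : ℝ) +
        ((z2_S3 b P m).card : ℝ)) := by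
  classical
  have hX' : (2 : ℝ) ≤ X := by exact_mod_cast hX
  have h0 : 0 ≤ Real.log X := Real.log_nonneg (by linarith)
  have hc : ((cnt b P (m : ℤ) : ℕ) : ℝ) = ∑ n ∈ Icc 1 P,
      (if (n.Prime ∧ ((m : ℤ) - gg b n).toNat.Prime) then (1 : ℝ) else 0) := by
    unfold cnt
    rw [Finset.sum_boole]
  have hc2 : (((Icc 1 P).filter (fun n => IsPrimePow n ∧ ¬ n.Prime)).card : ℝ) =
      ∑ n ∈ Icc 1 P, (if (IsPrimePow n ∧ ¬ n.Prime) then (1 : ℝ) else 0) := by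
    rw [Finset.sum_boole]
  have hc3 : ((z2_S3 b P m).card : ℝ) = ∑ n ∈ Icc 1 P,
      (if (IsPrimePow ((m : ℤ) - gg b n).toNat ∧ ¬ ((m : ℤ) - gg b n).toNat.Prime)
        then (1 : ℝ) else 0) := by
    unfold z2_S3
    rw [Finset.sum_boole]
  rw [hc, hc2, hc3, ← Finset.sum_add_distrib, ← Finset.sum_add_distrib, Finset.mul_sum]
  unfold RL
  refine Finset.sum_le_sum fun n hn => ?_
  have hn' := mem_Icc.1 hn
  have hv1 : vm n ≤ Real.log X := z2_vm_le' n X hX (hn'.2.trans hP)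
  have hv2 : vm ((m : ℤ) - gg b n).toNat ≤ 2 * Real.log X := z2_vm_le _ X hX (hk n hn)
  have hv3 := z2_vm_nonneg n
  have hv4 := z2_vm_nonneg ((m : ℤ) - gg b n).toNat
  have hT : vm n * vm ((m : ℤ) - gg b n).toNat ≤ 2 * Real.log X ^ 2 := by
    calc vm n * vm ((m : ℤ) - gg b n).toNat ≤ Real.log X * (2 * Real.log X) := by gcongr
      _ = 2 * Real.log X ^ 2 := by ring
  have hpos : 0 ≤ 2 * Real.log X ^ 2 := by positivity
  have i1 : (0 : ℝ) ≤ if (n.Prime ∧ ((m : ℤ) - gg b n).toNat.Prime) then (1 : ℝ) else 0 := by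
    split_ifs <;> norm_num
  have i2 : (0 : ℝ) ≤ if (IsPrimePow n ∧ ¬ n.Prime) then (1 : ℝ) else 0 := by
    split_ifs <;> norm_num
  have i3 : (0 : ℝ) ≤ if (IsPrimePow ((m : ℤ) - gg b n).toNat ∧
      ¬ ((m : ℤ) - gg b n).toNat.Prime) then (1 : ℝ) else 0 := by
    split_ifs <;> norm_num
  by_cases c1 : IsPrimePow n
  · by_cases c2 : IsPrimePow ((m : ℤ) - gg b n).toNat
    · by_cases c3 : n.Prime
      · by_cases c4 : ((m : ℤ) - gg b n).toNat.Prime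
        · rw [if_pos ⟨c3, c4⟩] at i1 ⊢
          nlinarith
        · rw [if_pos (⟨c2, c4⟩ : IsPrimePow ((m : ℤ) - gg b n).toNat ∧
            ¬ ((m : ℤ) - gg b n).toNat.Prime)] at i3 ⊢
          nlinarith
      · rw [if_pos (⟨c1, c3⟩ : IsPrimePow n ∧ ¬ n.Prime)] at i2 ⊢
        nlinarith
    · rw [z2_vm_zero _ c2, mul_zero]
      positivity
  · rw [z2_vm_zero _ c1, zero_mul]
    positivity

/-- the average of `z2_S3` -/
theorem z2_sum_S3 (b : ℤ) (P X : ℕ)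
    (hk : ∀ m ∈ Ioc (X / 2) X, ∀ n ∈ Icc 1 P, ((m : ℤ) - gg b n).toNat ≤ 2 * X) :
    ∑ m ∈ Ioc (X / 2) X, (z2_S3 b P m).card ≤
      P * ((Icc 1 (2 * X)).filter (fun n => IsPrimePow n ∧ ¬ n.Prime)).card := by
  classical
  have h1 : ∀ m, (z2_S3 b P m).card = ∑ n ∈ Icc 1 P,
      (if (IsPrimePow ((m : ℤ) - gg b n).toNat ∧ ¬ ((m : ℤ) - gg b n).toNat.Prime)
        then 1 else 0) := by
    intro m
    unfold z2_S3
    rw [Finset.card_filter]
  simp only [h1]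
  rw [Finset.sum_comm]
  have h2 : ∀ n ∈ Icc 1 P, ∑ m ∈ Ioc (X / 2) X,
      (if (IsPrimePow ((m : ℤ) - gg b n).toNat ∧ ¬ ((m : ℤ) - gg b n).toNat.Prime)
        then 1 else 0) ≤ ((Icc 1 (2 * X)).filter (fun n => IsPrimePow n ∧ ¬ n.Prime)).card := by
    intro n hn
    rw [← Finset.card_filter]
    refine Finset.card_le_card_of_injOn (fun m : ℕ => ((m : ℤ) - gg b n).toNat) ?_ ?_
    · intro m hm
      rw [mem_coe, mem_filter] at hm
      rw [mem_coe, mem_filter, mem_Icc]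
      exact ⟨⟨hm.2.1.one_lt.le, hk m hm.1 n hn⟩, hm.2⟩
    · intro m hm m' hm' heq
      rw [mem_coe, mem_filter] at hm hm'
      have e1 := hm.2.1.one_lt
      have e2 := hm'.2.1.one_lt
      simp only at heq
      omega
  calc ∑ n ∈ Icc 1 P, ∑ m ∈ Ioc (X / 2) X,
      (if (IsPrimePow ((m : ℤ) - gg b n).toNat ∧ ¬ ((m : ℤ) - gg b n).toNat.Prime)
        then 1 else 0) ≤ ∑ n ∈ Icc 1 P,
          ((Icc 1 (2 * X)).filter (fun n => IsPrimePow n ∧ ¬ n.Prime)).card :=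
        Finset.sum_le_sum h2
    _ = P * ((Icc 1 (2 * X)).filter (fun n => IsPrimePow n ∧ ¬ n.Prime)).card := by
        rw [Finset.sum_const, Nat.card_Icc, smul_eq_mul, Nat.add_sub_cancel]

/-- the pure inequality -/
theorem z2_ineq {a P cn S2 S3 R : ℝ} (ha : 1 ≤ a) (ha3 : 6 ≤ a ^ 3) (hP : 0 < P)
    (hP4 : 4 * a ^ 50 ≤ Real.sqrt P) (hR : P * (a ^ 2)⁻¹ ≤ R)
    (hle : R ≤ 2 * a ^ 20 * (cn + S2 + S3)) (hS2 : S2 ≤ Real.sqrt P * (4 * a ^ 10))
    (hS3 : S3 ≤ P / a ^ 40) : P / a ^ 25 ≤ cn := by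
  by_contra hcon
  push Not at hcon
  have ha0 : 0 < a := by linarith
  have hsq : Real.sqrt P * Real.sqrt P = P := Real.mul_self_sqrt hP.le
  have hs0 : 0 < Real.sqrt P := Real.sqrt_pos.2 hP
  have h1 : Real.sqrt P * (4 * a ^ 10) ≤ P / a ^ 40 := by
    rw [le_div_iff₀ (by positivity)]
    calc Real.sqrt P * (4 * a ^ 10) * a ^ 40 = Real.sqrt P * (4 * a ^ 50) := by ring
      _ ≤ Real.sqrt P * Real.sqrt P := by gcongr
      _ = P := hsq
  have h2 : R < 2 * a ^ 20 * (P / a ^ 25 + P / a ^ 40 + P / a ^ 40) := by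
    refine lt_of_le_of_lt hle ?_
    have h3 : cn + S2 + S3 < P / a ^ 25 + P / a ^ 40 + P / a ^ 40 := by linarith
    gcongr
  have h3 : 2 * a ^ 20 * (P / a ^ 25 + P / a ^ 40 + P / a ^ 40) ≤ P * (a ^ 2)⁻¹ := by
    have e1 : 2 * a ^ 20 * (P / a ^ 25 + P / a ^ 40 + P / a ^ 40) =
        P * (2 * (a ^ 5)⁻¹ + 4 * (a ^ 20)⁻¹) := by
      field_simp
      ring
    rw [e1]
    have e2 : (a ^ 20)⁻¹ ≤ (a ^ 5)⁻¹ :=
      inv_anti₀ (by positivity) (pow_le_pow_right₀ ha (by norm_num))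
    have e3 : 6 * (a ^ 5)⁻¹ ≤ (a ^ 2)⁻¹ := by
      have e4 : (a ^ 2)⁻¹ = a ^ 3 * (a ^ 5)⁻¹ := by
        field_simp
      rw [e4]
      gcongr
    have e5 : 2 * (a ^ 5)⁻¹ + 4 * (a ^ 20)⁻¹ ≤ (a ^ 2)⁻¹ := by linarith
    gcongr
  linarith

/-- Proof. `P = PP b X`, `L = log X`. Terms of `RL` with `n` a proper prime power (`Λ(n) ≠ 0`, `n` not
prime): at most `√P · 2L` of them, each `≤ 2L²`, total `≤ 4√P L³ ≤ P/L`. Terms with `n = p` prime and
`m - g(p)` a proper prime power `≤ 2X`: their number summed over `m ∈ (X/2, X]` is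
`≤ P · #{proper prime powers ≤ 2X} ≤ P · 2√(2X) · 2L`, so except for `≤ 12 √X L^5` of the `m` there are
at most `P/L^4` of them, contributing `≤ 2P/L²`. The remaining terms contribute
`≤ cnt · L · 2L`. So outside the exceptional sets
`cnt ≥ P (L^(-1/5) - 3/L)/(2L²) ≥ P/L^(5/2)`. -/
theorem cnt_large (ε : ℝ) (hε : 0 < ε) (A : ℕ) : ∃ X₀ : ℕ, ∀ X : ℕ, X₀ ≤ X →
    ∀ b : ℤ, ¬ (3 : ℤ) ∣ b → |(b : ℝ)| ≤ (X : ℝ) ^ (5 / 6 - ε) →
    (((Ioc (X / 2) X).filter (fun m : ℕ => (2 : ℤ) ∣ (m : ℤ) - b ∧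
      (cnt b (PP b X) (m : ℤ) : ℝ) < PP b X / Real.log X ^ (5 / 2 : ℝ))).card : ℝ) ≤
      (X : ℝ) / Real.log X ^ A := by
  classical
  obtain ⟨X₁, hRL⟩ := RL_large ε hε (A + 1)
  obtain ⟨X₂, hPP⟩ := PP_bounds ε hε
  -- analytic conditions
  have hcast : Filter.Tendsto (fun X : ℕ => (X : ℝ)) Filter.atTop Filter.atTop :=
    tendsto_natCast_atTop_atTop
  have hlogt : Filter.Tendsto (fun X : ℕ => Real.log (X : ℝ)) Filter.atTop Filter.atTop :=
    Real.tendsto_log_atTop.comp hcast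
  have ev1 : ∀ᶠ X : ℕ in Filter.atTop, (6 : ℝ) ^ (10 : ℕ) ≤ Real.log (X : ℝ) :=
    hlogt.eventually_ge_atTop _
  have ev2 : ∀ᶠ X : ℕ in Filter.atTop, 4 * Real.log (X : ℝ) ^ 5 ≤ (X : ℝ) ^ (1 / 20 : ℝ) := by
    have h1 := (isLittleO_log_rpow_rpow_atTop (5 : ℝ) (by norm_num : (0 : ℝ) < 1 / 20)).bound
      (by norm_num : (0 : ℝ) < 1 / 4)
    filter_upwards [hcast.eventually h1, hlogt.eventually_ge_atTop 0] with X h2 h3
    rw [Real.norm_of_nonneg (by positivity), Real.norm_of_nonneg (by positivity)] at h2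
    have h4 : Real.log (X : ℝ) ^ (5 : ℝ) = Real.log (X : ℝ) ^ 5 := by
      exact_mod_cast Real.rpow_natCast (Real.log (X : ℝ)) 5
    rw [h4] at h2
    linarith
  have ev3 : ∀ᶠ X : ℕ in Filter.atTop,
      32 * Real.log (X : ℝ) ^ (A + 5) ≤ (X : ℝ) ^ (1 / 2 : ℝ) := by
    have h1 := (isLittleO_log_rpow_rpow_atTop ((A + 5 : ℕ) : ℝ)
      (by norm_num : (0 : ℝ) < 1 / 2)).bound (by norm_num : (0 : ℝ) < 1 / 32)
    filter_upwards [hcast.eventually h1, hlogt.eventually_ge_atTop 0] with X h2 h3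
    rw [Real.norm_of_nonneg (by positivity), Real.norm_of_nonneg (by positivity),
      Real.rpow_natCast] at h2
    linarith
  obtain ⟨X₃, hX₃⟩ := Filter.eventually_atTop.1 (ev1.and (ev2.and ev3))
  refine ⟨max (max X₁ X₂) (max X₃ 2), fun X hX b hb3 hb => ?_⟩
  have hX1 : X₁ ≤ X := le_trans (le_max_left _ _) (le_trans (le_max_left _ _) hX)
  have hX2 : X₂ ≤ X := le_trans (le_max_right _ _) (le_trans (le_max_left _ _) hX)
  have hX3 : X₃ ≤ X := le_trans (le_max_left _ _) (le_trans (le_max_right _ _) hX)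
  have hX4 : 2 ≤ X := le_trans (le_max_right _ _) (le_trans (le_max_right _ _) hX)
  obtain ⟨c1, c2, c3⟩ := hX₃ X hX3
  have hb0 : b ≠ 0 := by
    rintro rfl
    exact hb3 (dvd_zero _)
  obtain ⟨p1, -, p3, p4⟩ := hPP X hX2 b hb0 hb
  have hex := hRL X hX1 b hb3 hb
  set P := PP b X with hP
  have hX4' : (2 : ℝ) ≤ X := by exact_mod_cast hX4
  have hXpos : (0 : ℝ) < X := by linarith
  -- the parameter `a`
  set Lg := Real.log (X : ℝ) with hLg
  have hLg1 : 1 ≤ Lg := le_trans (by norm_num) c1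
  have hLg0 : 0 < Lg := by linarith
  set a : ℝ := Lg ^ (1 / 10 : ℝ) with ha
  have ha10 : a ^ 10 = Lg := by
    rw [ha, ← Real.rpow_natCast, ← Real.rpow_mul hLg0.le]
    norm_num
  have ha1 : 1 ≤ a := Real.one_le_rpow hLg1 (by norm_num)
  have ha0 : 0 < a := by linarith
  have ha6 : 6 ≤ a := by
    have h1 : ((6 : ℝ) ^ (10 : ℕ)) ^ (1 / 10 : ℝ) ≤ a := by
      rw [ha]
      gcongr
    have h2 : ((6 : ℝ) ^ (10 : ℕ)) ^ (1 / 10 : ℝ) = 6 := by
      rw [← Real.rpow_natCast, ← Real.rpow_mul (by norm_num)]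
      norm_num
    linarith
  have ha3 : 6 ≤ a ^ 3 := by nlinarith [pow_pos ha0 2, sq_nonneg (a - 1)]
  have hL15 : Lg ^ (-(1 / 5) : ℝ) = (a ^ 2)⁻¹ := by
    rw [← Real.rpow_natCast a 2, ← Real.rpow_neg ha0.le, ha, ← Real.rpow_mul hLg0.le]
    norm_num
  have hL52 : Lg ^ (5 / 2 : ℝ) = a ^ 25 := by
    rw [← Real.rpow_natCast a 25, ha, ← Real.rpow_mul hLg0.le]
    norm_num
  -- facts on `P`
  have hPX : P ≤ X := by
    have h1 : (P : ℝ) ≤ X := by
      have h2 : Real.sqrt X ≤ X := by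
        rw [Real.sqrt_le_left (by linarith)]
        nlinarith
      have h3 := Real.sqrt_nonneg (X : ℝ)
      linarith
    exact_mod_cast h1
  have hP1 : (1 : ℝ) ≤ P := by
    refine le_trans ?_ p1
    exact Real.one_le_rpow (by linarith) (by norm_num)
  have hP0 : (0 : ℝ) < P := by linarith
  have hPs : 4 * a ^ 50 ≤ Real.sqrt P := by
    have h1 : a ^ 50 = Lg ^ 5 := by
      rw [← ha10]
      ring
    rw [h1]
    refine c2.trans ?_
    refine Real.le_sqrt_of_sq_le ?_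
    refine le_trans (le_of_eq ?_) p1
    rw [← Real.rpow_natCast, ← Real.rpow_mul hXpos.le]
    norm_num
  have hk : ∀ m ∈ Ioc (X / 2) X, ∀ n ∈ Icc 1 P, ((m : ℤ) - gg b n).toNat ≤ 2 * X := by
    intro m hm n hn
    rw [mem_Ioc] at hm
    rw [mem_Icc] at hn
    have h1 : ((m : ℤ) - gg b n : ℤ) ≤ 2 * X := by
      have h2 : ((((m : ℤ) - gg b n : ℤ)) : ℝ) ≤ ((2 * X : ℤ) : ℝ) := by
        unfold gg
        push_cast
        have h3 : (m : ℝ) ≤ X := by exact_mod_cast hm.2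
        have h4 : (n : ℝ) ≤ P := by exact_mod_cast hn.2
        have h5 : -((b : ℝ) * n) ≤ |(b : ℝ)| * P := by
          calc -((b : ℝ) * n) ≤ |(b : ℝ) * n| := neg_le_abs _
            _ = |(b : ℝ)| * n := by rw [abs_mul, Nat.abs_cast]
            _ ≤ |(b : ℝ)| * P := by gcongr
        nlinarith [sq_nonneg (n : ℝ)]
      exact_mod_cast h2
    omega
  -- the exceptional sets
  set W : ℕ := ((Icc 1 (2 * X)).filter (fun n => IsPrimePow n ∧ ¬ n.Prime)).card with hW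
  have hWle : (W : ℝ) ≤ 8 * Real.sqrt X * Lg := by
    have h1 := z2_card_ppw_real (2 * X) X hX4 le_rfl
    refine h1.trans ?_
    have h2 : Real.sqrt ((2 * X : ℕ) : ℝ) ≤ 2 * Real.sqrt X := by
      rw [Real.sqrt_le_left (by positivity), mul_pow, Real.sq_sqrt hXpos.le]
      push_cast
      linarith
    calc Real.sqrt ((2 * X : ℕ) : ℝ) * (4 * Real.log X) ≤ 2 * Real.sqrt X * (4 * Real.log X) := by
          gcongr
      _ = 8 * Real.sqrt X * Lg := by rw [← hLg]; ring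
  set E2 : Finset ℕ := (Ioc (X / 2) X).filter
    (fun m : ℕ => (P : ℝ) / a ^ 40 < ((z2_S3 b P m).card : ℝ)) with hE2
  have hE2c : (E2.card : ℝ) ≤ a ^ 40 * W := by
    have h1 : (E2.card : ℝ) * (P / a ^ 40) ≤ P * W := by
      calc (E2.card : ℝ) * (P / a ^ 40) = ∑ _m ∈ E2, (P : ℝ) / a ^ 40 := by
            rw [Finset.sum_const, nsmul_eq_mul]
        _ ≤ ∑ m ∈ E2, ((z2_S3 b P m).card : ℝ) := by
            refine Finset.sum_le_sum fun m hm => ?_
            rw [hE2, mem_filter] at hm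
            exact hm.2.le
        _ ≤ ∑ m ∈ Ioc (X / 2) X, ((z2_S3 b P m).card : ℝ) :=
            Finset.sum_le_sum_of_subset_of_nonneg (Finset.filter_subset _ _)
              fun _ _ _ => by positivity
        _ ≤ P * W := by exact_mod_cast z2_sum_S3 b P X hk
    have h2 : (E2.card : ℝ) * (P / a ^ 40) = P * ((E2.card : ℝ) / a ^ 40) := by ring
    rw [h2] at h1
    have h3 := le_of_mul_le_mul_left h1 hP0
    rw [div_le_iff₀ (by positivity)] at h3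
    linarith
  -- the inclusion
  have hsub : (Ioc (X / 2) X).filter (fun m : ℕ => (2 : ℤ) ∣ (m : ℤ) - b ∧
      (cnt b P (m : ℤ) : ℝ) < P / Lg ^ (5 / 2 : ℝ)) ⊆
      (Ioc (X / 2) X).filter (fun m : ℕ => (2 : ℤ) ∣ (m : ℤ) - b ∧
        RL b P (m : ℤ) < P * Lg ^ (-(1 / 5) : ℝ)) ∪ E2 := by
    intro m hm
    rw [mem_filter] at hm
    obtain ⟨hm1, hm2, hm3⟩ := hm
    rw [mem_union]
    by_contra hcon
    rw [not_or] at hcon
    obtain ⟨k1, k2⟩ := hcon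
    have k3 : P * Lg ^ (-(1 / 5) : ℝ) ≤ RL b P (m : ℤ) := by
      by_contra h
      exact k1 (mem_filter.2 ⟨hm1, hm2, not_le.1 h⟩)
    have k4 : ((z2_S3 b P m).card : ℝ) ≤ P / a ^ 40 := by
      by_contra h
      exact k2 (mem_filter.2 ⟨hm1, not_le.1 h⟩)
    rw [hL15] at k3
    have k5 := z2_RL_le b P m X hX4 hPX (hk m hm1)
    have k6 := z2_card_ppw_real P X hX4 (by omega)
    rw [← hLg] at k5 k6
    have k7 : 2 * Lg ^ 2 = 2 * a ^ 20 := by
      rw [← ha10]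
      ring
    rw [k7] at k5
    rw [← ha10] at k6
    have k8 := z2_ineq ha1 ha3 hP0 hPs k3 k5 k6 k4
    rw [hL52] at hm3
    linarith
  have hfin : ((((Ioc (X / 2) X).filter (fun m : ℕ => (2 : ℤ) ∣ (m : ℤ) - b ∧
      (cnt b P (m : ℤ) : ℝ) < P / Lg ^ (5 / 2 : ℝ))).card : ℕ) : ℝ) ≤
      (((Ioc (X / 2) X).filter (fun m : ℕ => (2 : ℤ) ∣ (m : ℤ) - b ∧
        RL b P (m : ℤ) < P * Lg ^ (-(1 / 5) : ℝ))).card : ℝ) + (E2.card : ℝ) := by
    exact_mod_cast (card_le_card hsub).trans (card_union_le _ _)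
  refine hfin.trans ?_
  have g1 : (E2.card : ℝ) ≤ 8 * Real.sqrt X * Lg ^ 5 := by
    refine hE2c.trans ?_
    have h1 : a ^ 40 = Lg ^ 4 := by
      rw [← ha10]
      ring
    rw [h1]
    calc Lg ^ 4 * (W : ℝ) ≤ Lg ^ 4 * (8 * Real.sqrt X * Lg) := by gcongr
      _ = 8 * Real.sqrt X * Lg ^ 5 := by ring
  have g2 : 8 * Real.sqrt X * Lg ^ 5 ≤ X / (4 * Lg ^ A) := by
    rw [le_div_iff₀ (by positivity)]
    rw [← Real.sqrt_eq_rpow] at c3
    have h1 : Real.sqrt X * Real.sqrt X = X := Real.mul_self_sqrt hXpos.le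
    calc 8 * Real.sqrt X * Lg ^ 5 * (4 * Lg ^ A) = Real.sqrt X * (32 * Lg ^ (A + 5)) := by ring
      _ ≤ Real.sqrt X * Real.sqrt X := by gcongr
      _ = X := h1
  have g3 : (X : ℝ) / Lg ^ (A + 1) ≤ X / (2 * Lg ^ A) := by
    have h1 : 2 * Lg ^ A ≤ Lg ^ (A + 1) := by
      rw [pow_succ, mul_comm]
      have : (2 : ℝ) ≤ Lg := le_trans (by norm_num) c1
      gcongr
    gcongr
  have g4 : (X : ℝ) / (2 * Lg ^ A) + X / (4 * Lg ^ A) ≤ X / Lg ^ A := by
    have h1 : (X : ℝ) / (2 * Lg ^ A) = X / Lg ^ A / 2 := by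
      rw [div_div, mul_comm]
    have h2 : (X : ℝ) / (4 * Lg ^ A) = X / Lg ^ A / 4 := by
      rw [div_div, mul_comm]
    rw [h1, h2]
    have h3 : 0 ≤ (X : ℝ) / Lg ^ A := by positivity
    linarith
  linarith

end Pool.Agent.Lib.MP_d9bc60_nt.UV
end

section
/-! Row Z3 (about 200 lines): the theorem. -/

set_option autoImplicit false

namespace Pool.Agent.Lib.MP_d9bc60_nt.UV

open Finset

/-- The representations `n = f(p₁) + p₂`, `f = x² + b x + c`. -/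
def Reps (b c n : ℤ) : Set (ℕ × ℕ) :=
  {p | p.1.Prime ∧ p.2.Prime ∧ n = (p.1 : ℤ) ^ 2 + b * p.1 + c + p.2}

/-- The odd `n` in `(c, c+X]` with fewer than `min(√m, m/|b|)/(log m)^3` representations, `m = n - c`. -/
def Few (b c : ℤ) (X : ℝ) : Set ℤ :=
  {n | Odd n ∧ c < n ∧ (n : ℝ) ≤ c + X ∧
    ((Reps b c n).ncard : ℝ) <
      min (Real.sqrt ((n : ℝ) - c)) (((n : ℝ) - c) / |(b : ℝ)|) / Real.log ((n : ℝ) - c) ^ 3}

/-- the bad `m` -/
def Z3Bad (b c : ℤ) (m : ℕ) : Prop :=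
  (2 : ℤ) ∣ (m : ℤ) - b ∧ ((Reps b c (c + m)).ncard : ℝ) <
    min (Real.sqrt m) ((m : ℝ) / |(b : ℝ)|) / Real.log m ^ 3

theorem Z3_finite (b c : ℤ) (m : ℕ) : (Reps b c (c + m)).Finite := by
  refine Set.Finite.subset (Finset.finite_toSet ((Finset.range (b.natAbs + m + 1)).image
    (fun p : ℕ => (p, ((m : ℤ) - gg b p).toNat)))) ?_
  rintro ⟨p, q⟩ ⟨hp, hq, h⟩
  simp only at hp hq h
  rw [Finset.coe_image]
  refine ⟨p, ?_, ?_⟩
  · rw [Finset.mem_coe, Finset.mem_range]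
    by_contra hcon
    push Not at hcon
    have hb : |b| = (b.natAbs : ℤ) := (Int.natCast_natAbs b).symm
    have h1 : (|b| + m + 1 : ℤ) ≤ p := by
      rw [hb]; exact_mod_cast hcon
    have h2 : -|b| ≤ b := neg_abs_le b
    have h3 : (0 : ℤ) ≤ |b| := abs_nonneg b
    have h4 : (0 : ℤ) ≤ (m : ℤ) := Int.natCast_nonneg m
    have h5 : (0 : ℤ) ≤ (q : ℤ) := Int.natCast_nonneg q
    have h6 : (p : ℤ) ^ 2 + b * p + q = m := by linarith
    nlinarith
  · have hg : (m : ℤ) - gg b p = q := by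
      rw [gg]; linarith
    simp only [hg, Int.toNat_natCast]

theorem Z3_cnt_le (b c : ℤ) (P m : ℕ) : cnt b P (m : ℤ) ≤ (Reps b c (c + m)).ncard := by
  rw [cnt, ← Finset.card_image_of_injective (f := fun p : ℕ => (p, ((m : ℤ) - gg b p).toNat)),
    ← Set.ncard_coe_finset]
  · refine Set.ncard_le_ncard ?_ (Z3_finite b c m)
    intro x hx
    rw [Finset.mem_coe, Finset.mem_image] at hx
    obtain ⟨p, hp, rfl⟩ := hx
    rw [Finset.mem_filter] at hp
    refine ⟨hp.2.1, hp.2.2, ?_⟩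
    have h1 : 0 < ((m : ℤ) - gg b p).toNat := hp.2.2.pos
    have h2 : 0 ≤ (m : ℤ) - gg b p := by omega
    simp only
    rw [Int.toNat_of_nonneg h2, gg]
    ring
  · intro p q h
    exact (Prod.mk.inj h).1

open Classical in
/-- one dyadic block -/
theorem Z3_block (ε : ℝ) (hε : 0 < ε) (A : ℕ) : ∃ X₀ : ℕ, ∀ X : ℕ, X₀ ≤ X →
    ∀ b c : ℤ, ¬ (3 : ℤ) ∣ b → |(b : ℝ)| ≤ (X : ℝ) ^ (5 / 6 - ε) →
    (((Ioc (X / 2) X).filter (Z3Bad b c)).card : ℝ) ≤ (X : ℝ) / Real.log X ^ A := by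
  obtain ⟨X₁, h₁⟩ := cnt_large ε hε A
  obtain ⟨X₂, h₂⟩ := PP_bounds ε hε
  obtain ⟨X₃, h₃⟩ : ∃ X₃ : ℕ, ∀ X : ℕ, X₃ ≤ X → (100 : ℝ) ≤ Real.log X := by
    have h : Filter.Tendsto (fun X : ℕ => Real.log (X : ℝ)) Filter.atTop Filter.atTop :=
      Real.tendsto_log_atTop.comp tendsto_natCast_atTop_atTop
    obtain ⟨X₃, h⟩ := Filter.eventually_atTop.1 (h.eventually_ge_atTop 100)
    exact ⟨X₃, h⟩
  refine ⟨max X₁ (max X₂ (max X₃ 2)), fun X hX b c hb3 hb => ?_⟩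
  have hX1 : X₁ ≤ X := (le_max_left _ _).trans hX
  have hX2 : X₂ ≤ X := (le_max_left _ _).trans ((le_max_right _ _).trans hX)
  have hX3 : X₃ ≤ X := (le_max_left _ _).trans ((le_max_right _ _).trans
    ((le_max_right _ _).trans hX))
  have hX4 : 2 ≤ X := (le_max_right _ _).trans ((le_max_right _ _).trans
    ((le_max_right _ _).trans hX))
  have hb0 : b ≠ 0 := by
    rintro rfl
    exact hb3 (dvd_zero 3)
  have hbpos : 0 < |(b : ℝ)| := abs_pos.2 (by exact_mod_cast hb0)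
  have hPP := (h₂ X hX2 b hb0 hb).2.1
  have hlog := h₃ X hX3
  refine le_trans ?_ (h₁ X hX1 b hb3 hb)
  have hsub : (Ioc (X / 2) X).filter (Z3Bad b c) ⊆
      (Ioc (X / 2) X).filter (fun m : ℕ => (2 : ℤ) ∣ (m : ℤ) - b ∧
        (cnt b (PP b X) (m : ℤ) : ℝ) < PP b X / Real.log X ^ (5 / 2 : ℝ)) := by
    intro m hm
    rw [Finset.mem_filter] at hm ⊢
    refine ⟨hm.1, hm.2.1, ?_⟩
    by_contra hcon
    push Not at hcon
    have hmI := Finset.mem_Ioc.1 hm.1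
    have hm1 : 1 ≤ m := by omega
    have hmX : (m : ℝ) ≤ X := by exact_mod_cast hmI.2
    have hmX2 : (X : ℝ) / 2 ≤ m := by
      have h4 : X ≤ 2 * m := by omega
      have h5 : (X : ℝ) ≤ 2 * m := by exact_mod_cast h4
      linarith
    have hm0 : (0 : ℝ) < m := by exact_mod_cast hm1
    have hX0 : (0 : ℝ) < X := by linarith
    -- comparison of the logarithms
    have hlm : Real.log X - 1 ≤ Real.log m := by
      have h6 : Real.log (X / 2 : ℝ) ≤ Real.log m := Real.log_le_log (by positivity) hmX2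
      rw [Real.log_div hX0.ne' (by norm_num)] at h6
      have h7 : Real.log 2 ≤ 1 := by
        have := Real.log_two_lt_d9
        linarith
      linarith
    set l := Real.log (X : ℝ) with hl
    have hl0 : (0 : ℝ) < l := by linarith
    have hpow : (5 : ℝ) * l ^ (5 / 2 : ℝ) ≤ Real.log m ^ 3 := by
      have h8 : (l - 1) ^ 3 ≤ Real.log m ^ 3 := pow_le_pow_left₀ (by linarith) hlm 3
      have h9 : l ^ (5 / 2 : ℝ) = l ^ 3 * (l ^ (1 / 2 : ℝ))⁻¹ := by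
        rw [← Real.rpow_neg hl0.le, ← Real.rpow_natCast l 3, ← Real.rpow_add hl0]
        norm_num
      have h10 : (10 : ℝ) ≤ l ^ (1 / 2 : ℝ) := by
        rw [← Real.sqrt_eq_rpow]
        apply Real.le_sqrt_of_sq_le
        linarith
      have h11 : (l ^ (1 / 2 : ℝ))⁻¹ ≤ 1 / 10 := by
        rw [inv_eq_one_div]
        exact one_div_le_one_div_of_le (by norm_num) h10
      have h12 : l ^ (5 / 2 : ℝ) ≤ l ^ 3 / 10 := by
        rw [h9]
        have : 0 < l ^ 3 := by positivity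
        nlinarith
      have h13 : l ^ 3 / 2 ≤ (l - 1) ^ 3 := by nlinarith [sq_nonneg (l - 1), sq_nonneg l]
      linarith
    have hlm0 : 0 < Real.log m ^ 3 := pow_pos (by linarith) 3
    have hle : (cnt b (PP b X) (m : ℤ) : ℝ) ≤ ((Reps b c (c + m)).ncard : ℝ) := by
      exact_mod_cast Z3_cnt_le b c (PP b X) m
    have hmin : min (Real.sqrt m) ((m : ℝ) / |(b : ℝ)|) ≤
        min (Real.sqrt X) ((X : ℝ) / |(b : ℝ)|) :=
      min_le_min (Real.sqrt_le_sqrt hmX) (by gcongr)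
    have hmin0 : 0 ≤ min (Real.sqrt m) ((m : ℝ) / |(b : ℝ)|) :=
      le_min (Real.sqrt_nonneg _) (by positivity)
    have hr0 : 0 < l ^ (5 / 2 : ℝ) := Real.rpow_pos_of_pos hl0 _
    have h14 : min (Real.sqrt m) ((m : ℝ) / |(b : ℝ)|) / Real.log m ^ 3 ≤
        min (Real.sqrt m) ((m : ℝ) / |(b : ℝ)|) / (5 * l ^ (5 / 2 : ℝ)) :=
      div_le_div_of_nonneg_left hmin0 (by positivity) hpow
    have h15 : min (Real.sqrt m) ((m : ℝ) / |(b : ℝ)|) / (5 * l ^ (5 / 2 : ℝ)) ≤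
        PP b X / l ^ (5 / 2 : ℝ) := by
      rw [← div_div]
      gcongr
      exact (div_le_div_of_nonneg_right hmin (by norm_num)).trans hPP
    linarith [hm.2.2]
  exact_mod_cast Finset.card_le_card hsub

open Classical in
theorem Z3_few_le (b c : ℤ) (X : ℝ) (hX : 0 ≤ X) (hbc : Odd (b + c)) :
    (Few b c X).ncard ≤ ((Icc 1 ⌊X⌋₊).filter (Z3Bad b c)).card := by
  have hsub : Few b c X ⊆ (((Icc 1 ⌊X⌋₊).filter (Z3Bad b c)).image
      (fun m : ℕ => c + (m : ℤ)) : Finset ℤ) := by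
    rintro n ⟨hodd, hcn, hnX, hfew⟩
    rw [Finset.mem_coe, Finset.mem_image]
    have hm : ((n - c).toNat : ℤ) = n - c := Int.toNat_of_nonneg (by omega)
    have hmR : ((n - c).toNat : ℝ) = (n : ℝ) - c := by
      have h1 : (((n - c).toNat : ℤ) : ℝ) = ((n - c : ℤ) : ℝ) := by rw [hm]
      push_cast at h1
      exact_mod_cast h1
    refine ⟨(n - c).toNat, ?_, by rw [hm]; ring⟩
    rw [Finset.mem_filter, Finset.mem_Icc]
    refine ⟨⟨by omega, ?_⟩, ?_, ?_⟩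
    · apply Nat.le_floor
      rw [hmR]; linarith
    · rw [hm]
      obtain ⟨u, hu⟩ := hodd
      obtain ⟨v, hv⟩ := hbc
      exact ⟨u - v, by omega⟩
    · rw [hmR, hm, add_sub_cancel]
      exact hfew
  refine (Set.ncard_le_ncard hsub (Finset.finite_toSet _)).trans ?_
  rw [Set.ncard_coe_finset]
  exact Finset.card_image_le

open Classical in
/-- summation over the dyadic blocks -/
theorem Z3_sum (Bad : ℕ → Prop) (M Q : ℝ) (hM : 0 < M) (hQ : 0 ≤ Q) (Y : ℝ)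
    (h : ∀ N : ℕ, M ≤ N → (N : ℝ) ≤ Y → (((Ioc (N / 2) N).filter Bad).card : ℝ) ≤ N * Q) :
    ∀ N : ℕ, (N : ℝ) ≤ Y → (((Icc 1 N).filter Bad).card : ℝ) ≤ M + 2 * N * Q := by
  intro N
  induction N using Nat.strong_induction_on with
  | _ N ih =>
    intro hN
    by_cases hlt : (N : ℝ) < M
    · have h1 : (((Icc 1 N).filter Bad).card : ℝ) ≤ N := by
        have h2 := (Finset.card_filter_le (Icc 1 N) Bad)
        rw [Nat.card_Icc, Nat.add_sub_cancel] at h2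
        exact_mod_cast h2
      have h3 : 0 ≤ 2 * (N : ℝ) * Q := by positivity
      linarith
    · push Not at hlt
      have hN0 : 0 < N := by
        have : (0 : ℝ) < N := by linarith
        exact_mod_cast this
      have hhalf : ((N / 2 : ℕ) : ℝ) ≤ (N : ℝ) / 2 := Nat.cast_div_le
      have hNr : (0 : ℝ) < N := by linarith
      have h4 := ih (N / 2) (by omega) (by linarith)
      have h5 := h N hlt hN
      have h6 : (Icc 1 N).filter Bad ⊆ (Icc 1 (N / 2)).filter Bad ∪ (Ioc (N / 2) N).filter Bad := by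
        intro m hm
        rw [Finset.mem_filter, Finset.mem_Icc] at hm
        rw [Finset.mem_union, Finset.mem_filter, Finset.mem_filter, Finset.mem_Icc, Finset.mem_Ioc]
        by_cases h7 : m ≤ N / 2
        · exact Or.inl ⟨⟨hm.1.1, h7⟩, hm.2⟩
        · exact Or.inr ⟨⟨by omega, hm.1.2⟩, hm.2⟩
      have h8 : (((Icc 1 N).filter Bad).card : ℝ) ≤ (((Icc 1 (N / 2)).filter Bad).card : ℝ) +
          (((Ioc (N / 2) N).filter Bad).card : ℝ) := by
        exact_mod_cast (Finset.card_le_card h6).trans (Finset.card_union_le _ _)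
      have h9 : 2 * ((N / 2 : ℕ) : ℝ) * Q ≤ N * Q := by
        refine mul_le_mul_of_nonneg_right ?_ hQ
        linarith
      linarith

/-- Proof. `m = n - c ≥ 1`; `n` odd and `b + c` odd give `2 ∣ m - b`. `A' = ⌈A⌉₊ + 2`, `N = ⌊X⌋₊`,
`N_j = N / 2^j`. For `j ≤ J` with `N_J ≥ X/(log X)^(A'+1) - ...`: `|b| ≤ X^(5/6-ε) ≤ N_j^(5/6-ε/2)`
for `X` large, so `cnt_large (ε/2) A'` applies to `(N_{j+1}, N_j]`: outside `≤ N_j/(log N_j)^A'` of the `m`,
`#Reps ≥ cnt ≥ P_j/(log N_j)^(5/2) ≥ min(√m, m/|b|)/(5 (log N_j)^(5/2)) ≥ min(√m,m/|b|)/(log m)^3`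
(`m > N_j/2`, `PP_bounds`; `cnt` injects into `Reps` by `p ↦ (p, (m - g(p)).toNat)`, and `Reps` is
finite). The `m ≤ N_{J+1}` number at most `X/(log X)^(A'+1)`. Sum of the geometric series. -/
theorem uniform (ε A : ℝ) (hε : 0 < ε) : ∃ X₀ : ℝ, ∀ X : ℝ, X₀ ≤ X → ∀ b c : ℤ, Odd (b + c) →
    ¬ (3 : ℤ) ∣ b → |(b : ℝ)| ≤ X ^ (5 / 6 - ε) →
    ((Few b c X).ncard : ℝ) ≤ X / Real.log X ^ A := by
  classical
  set ε₁ : ℝ := min ε (1 / 2) with hε₁
  have hε₁0 : 0 < ε₁ := lt_min hε (by norm_num)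
  have hε₁h : ε₁ ≤ 1 / 2 := min_le_right _ _
  set K : ℕ := ⌈A⌉₊ + 1 with hK
  obtain ⟨X₁, hblock⟩ := Z3_block (ε₁ / 2) (by linarith) (K + 1)
  set δ : ℝ := ε₁ / 2 with hδ
  have hδ0 : 0 < δ := by linarith
  -- eventually `2 (log X)^K ≤ X^δ`
  have hev1 : ∀ᶠ X : ℝ in Filter.atTop, 2 * Real.log X ^ K ≤ X ^ δ := by
    have h1 := (isLittleO_log_rpow_rpow_atTop (K : ℝ) hδ0).def (c := 1 / 2) (by norm_num)
    filter_upwards [h1, Filter.eventually_ge_atTop (1 : ℝ)] with X h2 hX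
    have h3 : 0 ≤ Real.log X := Real.log_nonneg hX
    rw [Real.rpow_natCast, Real.norm_of_nonneg (by positivity),
      Real.norm_of_nonneg (by positivity)] at h2
    linarith
  have hev2 : ∀ᶠ X : ℝ in Filter.atTop, (2 : ℝ) ^ (K + 4) ≤ Real.log X :=
    Real.tendsto_log_atTop.eventually_ge_atTop _
  have hev3 : ∀ᶠ X : ℝ in Filter.atTop, ((X₁ : ℝ) + 1) ^ 2 ≤ X :=
    Filter.eventually_ge_atTop _
  obtain ⟨X₀, hX₀⟩ := Filter.eventually_atTop.1
    ((hev1.and hev2).and (hev3.and (Filter.eventually_ge_atTop (2 : ℝ))))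
  refine ⟨X₀, fun X hXX b c hbc hb3 hb => ?_⟩
  obtain ⟨⟨h1, h2⟩, h3, h4⟩ := hX₀ X hXX
  have hX0 : (0 : ℝ) < X := by linarith
  have hX1 : (1 : ℝ) ≤ X := by linarith
  have h2K : (1 : ℝ) ≤ (2 : ℝ) ^ (K + 4) := one_le_pow₀ (by norm_num)
  have hl1 : (1 : ℝ) ≤ Real.log X := h2K.trans h2
  have hl0 : (0 : ℝ) < Real.log X := by linarith
  have hlK : (0 : ℝ) < Real.log X ^ K := by positivity
  set M : ℝ := X / (2 * Real.log X ^ K) with hM
  have hM0 : 0 < M := by positivity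
  -- `M ≥ X^(1-δ)`
  have hM1 : X ^ (1 - δ) ≤ M := by
    rw [hM, Real.rpow_sub hX0, Real.rpow_one]
    exact div_le_div_of_nonneg_left hX0.le (by positivity) h1
  have hM2 : Real.sqrt X ≤ M := by
    refine le_trans ?_ hM1
    rw [Real.sqrt_eq_rpow]
    exact Real.rpow_le_rpow_of_exponent_le hX1 (by linarith)
  have hM3 : (X₁ : ℝ) + 1 ≤ M := by
    refine le_trans ?_ hM2
    exact Real.le_sqrt_of_sq_le h3
  have hM4 : Real.log X / 2 ≤ Real.log M := by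
    have h5 : Real.log (Real.sqrt X) ≤ Real.log M := Real.log_le_log (Real.sqrt_pos.2 hX0) hM2
    rwa [Real.log_sqrt hX0.le] at h5
  have hbM : |(b : ℝ)| ≤ M ^ (5 / 6 - δ) := by
    have h6 : X ^ (5 / 6 - ε) ≤ X ^ ((1 - δ) * (5 / 6 - δ)) := by
      apply Real.rpow_le_rpow_of_exponent_le hX1
      have h7 : ε₁ ≤ ε := min_le_left _ _
      have h8 : ε₁ = 2 * δ := by rw [hδ]; ring
      nlinarith
    rw [Real.rpow_mul hX0.le] at h6
    exact hb.trans (h6.trans (Real.rpow_le_rpow (by positivity) hM1 (by linarith)))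
  -- the blocks
  have hlM0 : 0 < Real.log M := by linarith
  have hb' : ∀ N : ℕ, M ≤ N → (N : ℝ) ≤ X →
      (((Ioc (N / 2) N).filter (Z3Bad b c)).card : ℝ) ≤ N * (1 / Real.log M ^ (K + 1)) := by
    intro N hMN _
    have h9 : X₁ ≤ N := by
      have : (X₁ : ℝ) ≤ N := by linarith
      exact_mod_cast this
    have h10 : |(b : ℝ)| ≤ (N : ℝ) ^ (5 / 6 - ε₁ / 2) :=
      hbM.trans (Real.rpow_le_rpow hM0.le hMN (by linarith))
    refine (hblock N h9 b c hb3 h10).trans ?_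
    rw [div_eq_mul_one_div]
    have hlog : Real.log M ≤ Real.log N := Real.log_le_log hM0 hMN
    have hN0 : (0 : ℝ) ≤ N := Nat.cast_nonneg N
    gcongr
  have hfloor : ((⌊X⌋₊ : ℕ) : ℝ) ≤ X := Nat.floor_le hX0.le
  have hsum := Z3_sum (Z3Bad b c) M (1 / Real.log M ^ (K + 1)) hM0 (by positivity) X hb' ⌊X⌋₊ hfloor
  have hfew : ((Few b c X).ncard : ℝ) ≤ (((Icc 1 ⌊X⌋₊).filter (Z3Bad b c)).card : ℝ) := by
    exact_mod_cast Z3_few_le b c X hX0.le hbc
  -- final numerics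
  have h11 : 2 * ((⌊X⌋₊ : ℕ) : ℝ) * (1 / Real.log M ^ (K + 1)) ≤ X / (2 * Real.log X ^ K) := by
    have h12 : (Real.log X / 2) ^ (K + 1) ≤ Real.log M ^ (K + 1) :=
      pow_le_pow_left₀ (by positivity) hM4 _
    have h13 : 4 * Real.log X ^ K ≤ (Real.log X / 2) ^ (K + 1) := by
      have h14 : (Real.log X / 2) ^ (K + 1) = Real.log X ^ K * (Real.log X / 2 ^ (K + 1)) := by
        rw [div_pow, pow_succ]; ring
      rw [h14, mul_comm]
      refine mul_le_mul_of_nonneg_left ?_ hlK.le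
      rw [le_div_iff₀ (by positivity)]
      have h15 : (2 : ℝ) ^ (K + 4) = 8 * 2 ^ (K + 1) := by ring
      have h16 : (0 : ℝ) < 2 ^ (K + 1) := by positivity
      linarith
    have h17 : 4 * Real.log X ^ K ≤ Real.log M ^ (K + 1) := h13.trans h12
    calc 2 * ((⌊X⌋₊ : ℕ) : ℝ) * (1 / Real.log M ^ (K + 1)) ≤ 2 * X * (1 / (4 * Real.log X ^ K)) := by
          gcongr
      _ = X / (2 * Real.log X ^ K) := by field_simp; norm_num
  have h18 : M + X / (2 * Real.log X ^ K) = X / Real.log X ^ K := by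
    rw [hM]; field_simp; norm_num
  have h19 : X / Real.log X ^ K ≤ X / Real.log X ^ A := by
    apply div_le_div_of_nonneg_left hX0.le (Real.rpow_pos_of_pos hl0 _)
    rw [← Real.rpow_natCast]
    apply Real.rpow_le_rpow_of_exponent_le hl1
    have := Nat.le_ceil A
    rw [hK]; push_cast; linarith
  linarith

end Pool.Agent.Lib.MP_d9bc60_nt.UV
end
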