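import Pool.Agent.Lib.MP_d9bc60_nt.UV.PTools
import Pool.Agent.Lib.MP_d9bc60_nt.UV.PVaughan
import Pool.Agent.Lib.MP_d9bc60_nt.UV.PRam

section
/-! Row S1 (about 120 lines): duality for a bilinear form and a family of frequencies. -/

set_option autoImplicit false

namespace Pool.Agent.Lib.MP_d9bc60_nt.UV

open Finset

theorem s1_dual {π : Type*} (P : Finset π) (Ms : Finset ℕ) (w : π → ℂ) (f : π → ℕ → ℂ) :
    ∑ m ∈ Ms, ‖∑ p ∈ P, w p * f p m‖ ^ 2 ≤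
      ∑ p ∈ P, ∑ p' ∈ P, ‖w p‖ * ‖w p'‖ * ‖∑ m ∈ Ms, f p m * (starRingEnd ℂ) (f p' m)‖ := by
  have h1 : ((∑ m ∈ Ms, ‖∑ p ∈ P, w p * f p m‖ ^ 2 : ℝ) : ℂ) =
      ∑ p ∈ P, ∑ p' ∈ P, w p * (starRingEnd ℂ) (w p') *
        ∑ m ∈ Ms, f p m * (starRingEnd ℂ) (f p' m) := by
    push_cast
    have h2 : ∀ m ∈ Ms, ((‖∑ p ∈ P, w p * f p m‖ : ℂ)) ^ 2 =
        ∑ p ∈ P, ∑ p' ∈ P, w p * (starRingEnd ℂ) (w p') *
          (f p m * (starRingEnd ℂ) (f p' m)) := by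
      intro m _
      rw [← Complex.mul_conj', map_sum, sum_mul_sum]
      refine sum_congr rfl fun p _ => sum_congr rfl fun p' _ => ?_
      rw [map_mul]
      ring
    rw [sum_congr rfl h2, sum_comm]
    refine sum_congr rfl fun p _ => ?_
    rw [sum_comm]
    refine sum_congr rfl fun p' _ => ?_
    rw [mul_sum]
  have h3 : ∑ m ∈ Ms, ‖∑ p ∈ P, w p * f p m‖ ^ 2 =
      ‖((∑ m ∈ Ms, ‖∑ p ∈ P, w p * f p m‖ ^ 2 : ℝ) : ℂ)‖ := by
    rw [Complex.norm_real, Real.norm_eq_abs, abs_of_nonneg (sum_nonneg fun _ _ => by positivity)]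
  rw [h3, h1]
  refine (norm_sum_le _ _).trans (sum_le_sum fun p _ => (norm_sum_le _ _).trans
    (sum_le_sum fun p' _ => ?_))
  rw [norm_mul, norm_mul, RCLike.norm_conj]

theorem s1_sym {π : Type*} (P : Finset π) (u : π → ℝ) (N : π → π → ℝ) (G : ℝ)
    (hN0 : ∀ p ∈ P, ∀ p' ∈ P, 0 ≤ N p p') (hsym : ∀ p ∈ P, ∀ p' ∈ P, N p p' = N p' p)
    (hG : ∀ p ∈ P, ∑ p' ∈ P, N p p' ≤ G) :
    ∑ p ∈ P, ∑ p' ∈ P, u p * u p' * N p p' ≤ G * ∑ p ∈ P, u p ^ 2 := by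
  have h1 : ∑ p ∈ P, ∑ p' ∈ P, u p * u p' * N p p' ≤
      ∑ p ∈ P, ∑ p' ∈ P, (1 / 2 * (u p ^ 2 * N p p') + 1 / 2 * (u p' ^ 2 * N p p')) := by
    refine sum_le_sum fun p hp => sum_le_sum fun p' hp' => ?_
    have h2 := hN0 p hp p' hp'
    have h3 : u p * u p' ≤ 1 / 2 * u p ^ 2 + 1 / 2 * u p' ^ 2 := by
      nlinarith only [sq_nonneg (u p - u p')]
    calc u p * u p' * N p p' ≤ (1 / 2 * u p ^ 2 + 1 / 2 * u p' ^ 2) * N p p' :=
          mul_le_mul_of_nonneg_right h3 h2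
      _ = _ := by ring
  have h4 : ∑ p ∈ P, ∑ p' ∈ P, (1 / 2 * (u p ^ 2 * N p p') + 1 / 2 * (u p' ^ 2 * N p p')) =
      ∑ p ∈ P, u p ^ 2 * ∑ p' ∈ P, N p p' := by
    simp only [sum_add_distrib]
    have h5 : ∑ p ∈ P, ∑ p' ∈ P, 1 / 2 * (u p' ^ 2 * N p p') =
        ∑ p ∈ P, ∑ p' ∈ P, 1 / 2 * (u p ^ 2 * N p p') := by
      rw [sum_comm]
      refine sum_congr rfl fun p hp => sum_congr rfl fun p' hp' => ?_
      rw [hsym p' hp' p hp]
    rw [h5, ← sum_add_distrib]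
    refine sum_congr rfl fun p _ => ?_
    rw [← sum_add_distrib, mul_sum]
    refine sum_congr rfl fun p' _ => ?_
    ring
  refine h1.trans (le_trans (le_of_eq h4) ?_)
  rw [mul_sum]
  refine sum_le_sum fun p hp => ?_
  rw [mul_comm G]
  exact mul_le_mul_of_nonneg_left (hG p hp) (sq_nonneg _)

/-- Proof. `T r = ∑_m a m x_m(r)`, `x_m(r) = ∑_k b k [mk ≤ t] e(c_r m k)`,
`Z = ∑_r ‖T r‖² = ∑_m a m ∑_r conj(T r) x_m(r) ≤ (∑‖a m‖²)^(1/2) (∑_m ‖∑_{r,k} conj(T r) b k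
[mk ≤ t] e(c_r m k)‖²)^(1/2)`; open the square:
`≤ B² ∑_{(r,k),(r',k')} ‖T r‖ ‖T r'‖ ‖∑_m e(m(c_r k - c_r' k'))‖ ≤ B² ∑_{(r,k)} ‖T r‖² · G = B² K Z G`
(`2xy ≤ x² + y²` and symmetry; `∑_k 1 = K`). So `Z² ≤ A² M · B² K Z G`. -/
theorem bilin {ι : Type*} (I : Finset ι) (c : ι → ℝ) (a b : ℕ → ℂ) (M K t : ℕ) (A B G : ℝ)
    (hA : ∀ m ∈ Ioc M (2 * M), ‖a m‖ ≤ A) (hB : ∀ k ∈ Ioc K (2 * K), ‖b k‖ ≤ B) (hA0 : 0 ≤ A)
    (hB0 : 0 ≤ B) (hG0 : 0 ≤ G)
    (hG : ∀ r ∈ I, ∀ k ∈ Ioc K (2 * K), ∑ r' ∈ I, ∑ k' ∈ Ioc K (2 * K),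
      ‖∑ m ∈ (Ioc M (2 * M)).filter (fun m => m * k ≤ t ∧ m * k' ≤ t),
        e ((c r * k - c r' * k') * m)‖ ≤ G) :
    ∑ r ∈ I, ‖TII a b (fun n => e (c r * n)) M K t‖ ^ 2 ≤ A ^ 2 * B ^ 2 * M * K * G := by
  set T : ι → ℂ := fun r => TII a b (fun n => e (c r * n)) M K t with hT
  set P : Finset (ι × ℕ) := I ×ˢ Ioc K (2 * K) with hP
  set Ms : Finset ℕ := Ioc M (2 * M) with hMs
  set f : ι × ℕ → ℕ → ℂ := fun p m =>
    if m * p.2 ≤ t then e (c p.1 * ((m * p.2 : ℕ) : ℝ)) else 0 with hf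
  set w : ι × ℕ → ℂ := fun p => (starRingEnd ℂ) (T p.1) * b p.2 with hw
  set Z : ℝ := ∑ r ∈ I, ‖T r‖ ^ 2 with hZ
  have hZ0 : 0 ≤ Z := sum_nonneg fun _ _ => by positivity
  -- `Z` as a sum over `m`
  have hT2 : ∀ r, T r = ∑ m ∈ Ms, a m * ∑ k ∈ Ioc K (2 * K), b k * f (r, k) m := by
    intro r
    rw [hT]
    simp only [TII]
    refine sum_congr rfl fun m _ => ?_
    rw [sum_filter, mul_sum]
    refine sum_congr rfl fun k _ => ?_
    rw [hf]
    simp only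
    split_ifs
    · ring
    · simp
  have hZ2 : (Z : ℂ) = ∑ m ∈ Ms, a m * ∑ p ∈ P, w p * f p m := by
    rw [hZ]
    push_cast
    have h1 : ∀ r ∈ I, ((‖T r‖ : ℂ)) ^ 2 =
        ∑ m ∈ Ms, a m * ∑ k ∈ Ioc K (2 * K), w (r, k) * f (r, k) m := by
      intro r _
      rw [← Complex.conj_mul']
      conv_lhs => rw [hT2 r]
      rw [mul_sum]
      refine sum_congr rfl fun m _ => ?_
      rw [mul_left_comm, mul_sum]
      congr 1
      refine sum_congr rfl fun k _ => ?_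
      rw [hw]
      simp only
      rw [← hT2 r]
      ring
    rw [sum_congr rfl h1, sum_comm]
    refine sum_congr rfl fun m _ => ?_
    rw [← mul_sum, hP, sum_product]
  have hZ3 : Z ≤ ∑ m ∈ Ms, ‖a m‖ * ‖∑ p ∈ P, w p * f p m‖ := by
    have h1 : Z = ‖(Z : ℂ)‖ := by
      rw [Complex.norm_real, Real.norm_eq_abs, abs_of_nonneg hZ0]
    rw [h1, hZ2]
    refine (norm_sum_le _ _).trans (sum_le_sum fun m _ => ?_)
    rw [norm_mul]
  have hZ4 : Z ^ 2 ≤ (∑ m ∈ Ms, ‖a m‖ ^ 2) * ∑ m ∈ Ms, ‖∑ p ∈ P, w p * f p m‖ ^ 2 := by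
    refine (pow_le_pow_left₀ hZ0 hZ3 2).trans ?_
    exact sum_mul_sq_le_sq_mul_sq _ _ _
  have ha : ∑ m ∈ Ms, ‖a m‖ ^ 2 ≤ A ^ 2 * M := by
    have h1 : ∑ m ∈ Ms, ‖a m‖ ^ 2 ≤ Ms.card • (A ^ 2) :=
      sum_le_card_nsmul _ _ _ fun m hm => pow_le_pow_left₀ (norm_nonneg _) (hA m hm) 2
    have h2 : Ms.card = M := by
      rw [hMs, Nat.card_Ioc]
      omega
    rw [h2, nsmul_eq_mul] at h1
    linarith only [h1]
  have hN : ∀ p p' : ι × ℕ, ∑ m ∈ Ms, f p m * (starRingEnd ℂ) (f p' m) =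
      ∑ m ∈ Ms.filter (fun m => m * p.2 ≤ t ∧ m * p'.2 ≤ t),
        e ((c p.1 * p.2 - c p'.1 * p'.2) * m) := by
    intro p p'
    rw [sum_filter]
    refine sum_congr rfl fun m _ => ?_
    rw [hf]
    simp only
    by_cases h1 : m * p.2 ≤ t
    · by_cases h2 : m * p'.2 ≤ t
      · rw [if_pos h1, if_pos h2, if_pos ⟨h1, h2⟩, ← e_sub]
        congr 1
        push_cast
        ring
      · have h3 : ¬ (m * p.2 ≤ t ∧ m * p'.2 ≤ t) := fun h => h2 h.2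
        rw [if_neg h2, if_neg h3, map_zero, mul_zero]
    · have h3 : ¬ (m * p.2 ≤ t ∧ m * p'.2 ≤ t) := fun h => h1 h.1
      rw [if_neg h1, if_neg h3, zero_mul]
  have hy : ∑ m ∈ Ms, ‖∑ p ∈ P, w p * f p m‖ ^ 2 ≤ B ^ 2 * K * Z * G := by
    refine (s1_dual P Ms w f).trans ?_
    have h1 : ∀ p ∈ P, ‖w p‖ ≤ ‖T p.1‖ * B := by
      intro p hp
      rw [hP, mem_product] at hp
      rw [hw]
      simp only
      rw [norm_mul, RCLike.norm_conj]
      exact mul_le_mul_of_nonneg_left (hB _ hp.2) (norm_nonneg _)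
    have h2 : ∑ p ∈ P, ∑ p' ∈ P, ‖w p‖ * ‖w p'‖ *
        ‖∑ m ∈ Ms, f p m * (starRingEnd ℂ) (f p' m)‖ ≤
        G * ∑ p ∈ P, ‖w p‖ ^ 2 := by
      refine s1_sym P (fun p => ‖w p‖)
        (fun p p' => ‖∑ m ∈ Ms, f p m * (starRingEnd ℂ) (f p' m)‖) G
        (fun _ _ _ _ => norm_nonneg _) (fun p _ p' _ => ?_) (fun p hp => ?_)
      · rw [← RCLike.norm_conj, map_sum]
        congr 1
        refine sum_congr rfl fun m _ => ?_
        rw [map_mul, Complex.conj_conj, mul_comm]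
      · rw [hP, mem_product] at hp
        have h3 := hG p.1 hp.1 p.2 hp.2
        rw [hP, sum_product]
        refine le_trans (le_of_eq ?_) h3
        refine sum_congr rfl fun r' _ => sum_congr rfl fun k' _ => ?_
        rw [hN p (r', k')]
    refine h2.trans ?_
    have h4 : ∑ p ∈ P, ‖w p‖ ^ 2 ≤ ∑ p ∈ P, (‖T p.1‖ ^ 2 * B ^ 2) := by
      refine sum_le_sum fun p hp => ?_
      rw [← mul_pow]
      exact pow_le_pow_left₀ (norm_nonneg _) (h1 p hp) 2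
    have h5 : ∑ p ∈ P, (‖T p.1‖ ^ 2 * B ^ 2) = B ^ 2 * K * Z := by
      rw [hP, sum_product]
      have h6 : ∀ r ∈ I, ∑ k ∈ Ioc K (2 * K), (‖T (r, k).1‖ ^ 2 * B ^ 2) =
          B ^ 2 * K * ‖T r‖ ^ 2 := by
        intro r _
        have h7 : (Ioc K (2 * K)).card = K := by
          rw [Nat.card_Ioc]
          omega
        change ∑ _k ∈ Ioc K (2 * K), (‖T r‖ ^ 2 * B ^ 2) = _
        rw [sum_const, h7, nsmul_eq_mul]
        ring
      rw [sum_congr rfl h6, ← mul_sum]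
    rw [h5] at h4
    calc G * ∑ p ∈ P, ‖w p‖ ^ 2 ≤ G * (B ^ 2 * K * Z) := mul_le_mul_of_nonneg_left h4 hG0
      _ = B ^ 2 * K * Z * G := by ring
  have hfin : Z ^ 2 ≤ A ^ 2 * B ^ 2 * M * K * G * Z := by
    refine hZ4.trans ((mul_le_mul ha hy (sum_nonneg fun _ _ => by positivity)
      (by positivity)).trans (le_of_eq ?_))
    ring
  rcases hZ0.eq_or_lt with h0 | h0
  · rw [← h0]
    positivity
  · rw [sq] at hfin
    exact le_of_mul_le_mul_right hfin h0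

end Pool.Agent.Lib.MP_d9bc60_nt.UV
end

section
/-! Row S2 (about 120 lines): the correlation sum for the frequencies `a/q + r/(qB)`. -/

set_option autoImplicit false

namespace Pool.Agent.Lib.MP_d9bc60_nt.UV

open Finset

theorem s2_ioc (M t k k' : ℕ) (hk : 0 < k) (hk' : 0 < k') :
    (Ioc M (2 * M)).filter (fun m => m * k ≤ t ∧ m * k' ≤ t) =
      Ioc M (min (2 * M) (min (t / k) (t / k'))) := by
  ext m
  rw [mem_filter, mem_Ioc, mem_Ioc, le_min_iff, le_min_iff, Nat.le_div_iff_mul_le hk,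
    Nat.le_div_iff_mul_le hk']
  tauto

theorem s2_nn_pos (B : ℕ) (hB : 0 < B) (w : ℤ) (h : ¬ (B : ℤ) ∣ w) : 0 < nn ((w : ℝ) / B) := by
  rcases (nn_nonneg ((w : ℝ) / B)).lt_or_eq with h1 | h1
  · exact h1
  · exfalso
    apply h
    obtain ⟨n, hn⟩ := nn_exists ((w : ℝ) / B)
    rw [← h1] at hn
    have h2 : (w : ℝ) / B - n = 0 := abs_eq_zero.mp hn.symm
    have hB' : (B : ℝ) ≠ 0 := by exact_mod_cast hB.ne'
    have h3 : (w : ℝ) = B * n := by
      have : (w : ℝ) / B = n := by linarith only [h2]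
      rw [div_eq_iff hB'] at this
      rw [this]; ring
    exact ⟨n, by exact_mod_cast h3⟩

theorem s2_term (a : ℤ) (q B M t k k' r r' : ℕ) (hq : 1 ≤ q) (hB : 1 ≤ B) (hk : 0 < k)
    (hk' : 0 < k') :
    ‖∑ m ∈ (Ioc M (2 * M)).filter (fun m => m * k ≤ t ∧ m * k' ≤ t),
        e ((((a : ℝ) / q + (r : ℝ) / (q * B)) * k - ((a : ℝ) / q + (r' : ℝ) / (q * B)) * k') * m)‖ ≤
      (q : ℝ) / 2 * (if (B : ℤ) ∣ (((k * r : ℕ) : ℤ) - ((k' * r' : ℕ) : ℤ)) then 2 * (M : ℝ) / q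
        else 1 / nn (((((k * r : ℕ) : ℤ) : ℝ) - ((k' * r' : ℕ) : ℝ)) / B)) := by
  have hq0 : (0 : ℝ) < q := by exact_mod_cast hq
  have hB0 : (0 : ℝ) < B := by exact_mod_cast hB
  split_ifs with h
  · refine (norm_sum_le _ _).trans ?_
    have h1 : ∀ m ∈ (Ioc M (2 * M)).filter (fun m => m * k ≤ t ∧ m * k' ≤ t),
        ‖e ((((a : ℝ) / q + (r : ℝ) / (q * B)) * k -
          ((a : ℝ) / q + (r' : ℝ) / (q * B)) * k') * m)‖ = 1 := fun m _ => norm_e _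
    rw [sum_congr rfl h1, sum_const, nsmul_eq_mul, mul_one]
    have h2 : ((Ioc M (2 * M)).filter (fun m => m * k ≤ t ∧ m * k' ≤ t)).card ≤ M := by
      refine (card_filter_le _ _).trans ?_
      rw [Nat.card_Ioc]
      omega
    have h3 : (q : ℝ) / 2 * (2 * (M : ℝ) / q) = M := by field_simp
    rw [h3]
    exact_mod_cast h2
  · set x : ℝ := ((a : ℝ) / q + (r : ℝ) / (q * B)) * k - ((a : ℝ) / q + (r' : ℝ) / (q * B)) * k'
      with hx
    set w : ℤ := ((k * r : ℕ) : ℤ) - ((k' * r' : ℕ) : ℤ) with hw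
    have hqx : (q : ℝ) * x = (w : ℝ) / B + ((a * ((k : ℤ) - k') : ℤ) : ℝ) := by
      rw [hx, hw]
      push_cast
      field_simp
      ring
    have h1 : nn ((w : ℝ) / B) ≤ q * nn x := by
      rw [← nn_add_int ((w : ℝ) / B) (a * ((k : ℤ) - k')), ← hqx]
      exact nn_nat_mul q x
    have h2 : 0 < nn ((w : ℝ) / B) := s2_nn_pos B hB w h
    have h3 : 0 < nn x := by
      by_contra h4
      have : nn x = 0 := le_antisymm (not_lt.mp h4) (nn_nonneg x)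
      rw [this, mul_zero] at h1
      linarith only [h1, h2]
    rw [s2_ioc M t k k' hk hk']
    refine (geom_le x M _ h3).trans ?_
    have h4 : ((((k * r : ℕ) : ℤ) : ℝ) - ((k' * r' : ℕ) : ℝ)) / B = (w : ℝ) / B := by
      rw [hw]
      push_cast
      ring
    rw [h4]
    have h5 : (q : ℝ) / 2 * (1 / nn ((w : ℝ) / B)) = q / (2 * nn ((w : ℝ) / B)) := by
      field_simp
    rw [h5, div_le_div_iff₀ (by positivity) (by positivity)]
    nlinarith only [h1]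

/-- Proof. Let `w = kr - k'r'` (an integer), `x = c_r k - c_r' k' = (a(k-k') + w/B)/q`, so
`q nn(x) ≥ nn(qx) = nn(w/B)` (`nn_nat_mul`). The `m`-sum runs over an interval: it is `≤ M` if
`B ∣ w` and `≤ 1/(2 nn x) ≤ (q/2)/nn(w/B)` otherwise (`geom_le`). Given `v = k'r' ≤ 2KR`, there are at
most `τ(v) ≤ T` pairs. So the sum is
`≤ T ∑_{1 ≤ v ≤ 2KR} (if B ∣ kr - v then M else (q/2)/nn((kr-v)/B))
 ≤ T (2KR/B + 1)(M + q B (1 + log B))` by `spaced_sum` (with `M` replaced by `2M/q`). -/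
theorem G_bound (a : ℤ) (q B M K R t k r : ℕ) (T : ℝ) (hq : 1 ≤ q) (hB : 1 ≤ B)
    (hT : ∀ v ∈ Icc 1 (2 * K * R), (v.divisors.card : ℝ) ≤ T)
    (hk : k ∈ Ioc K (2 * K)) (hr : r ∈ Icc 1 R) :
    ∑ r' ∈ Icc 1 R, ∑ k' ∈ Ioc K (2 * K),
      ‖∑ m ∈ (Ioc M (2 * M)).filter (fun m => m * k ≤ t ∧ m * k' ≤ t),
        e ((((a : ℝ) / q + (r : ℝ) / (q * B)) * k - ((a : ℝ) / q + (r' : ℝ) / (q * B)) * k') * m)‖ ≤
      T * (2 * (K : ℝ) * R / B + 1) * (M + q * B * (1 + Real.log B)) := by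
  have hq0 : (0 : ℝ) < q := by exact_mod_cast hq
  have hB0 : (0 : ℝ) < B := by exact_mod_cast hB
  rw [mem_Ioc] at hk
  rw [mem_Icc] at hr
  set h : ℕ → ℝ := fun v => (if (B : ℤ) ∣ (((k * r : ℕ) : ℤ) - (v : ℤ)) then 2 * (M : ℝ) / q
        else 1 / nn (((((k * r : ℕ) : ℤ) : ℝ) - v) / B)) with hh
  have hh0 : ∀ v, 0 ≤ h v := by
    intro v
    rw [hh]
    show 0 ≤ (if (B : ℤ) ∣ (((k * r : ℕ) : ℤ) - (v : ℤ)) then 2 * (M : ℝ) / q
        else 1 / nn (((((k * r : ℕ) : ℤ) : ℝ) - v) / B))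
    split_ifs
    · positivity
    · exact one_div_nonneg.mpr (nn_nonneg _)
  have h1 : ∑ r' ∈ Icc 1 R, ∑ k' ∈ Ioc K (2 * K),
      ‖∑ m ∈ (Ioc M (2 * M)).filter (fun m => m * k ≤ t ∧ m * k' ≤ t),
        e ((((a : ℝ) / q + (r : ℝ) / (q * B)) * k - ((a : ℝ) / q + (r' : ℝ) / (q * B)) * k') * m)‖ ≤
      ∑ r' ∈ Icc 1 R, ∑ k' ∈ Ioc K (2 * K), (q : ℝ) / 2 * h (k' * r') := by
    apply sum_le_sum
    intro r' _
    apply sum_le_sum
    intro k' hk'
    rw [mem_Ioc] at hk'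
    exact s2_term a q B M t k k' r r' hq hB (by omega) (by omega)
  refine h1.trans ?_
  rw [← sum_product' (Icc 1 R) (Ioc K (2 * K)) (fun r' k' => (q : ℝ) / 2 * h (k' * r')),
    ← mul_sum]
  have hmaps : ∀ x ∈ Icc 1 R ×ˢ Ioc K (2 * K), x.2 * x.1 ∈ Icc 1 (2 * K * R) := by
    intro x hx
    rw [mem_product, mem_Icc, mem_Ioc] at hx
    rw [mem_Icc]
    constructor
    · exact Nat.mul_pos (by omega) (by omega)
    · exact Nat.mul_le_mul hx.2.2 hx.1.2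
  rw [← sum_fiberwise_of_maps_to hmaps]
  have h2 : ∀ v ∈ Icc 1 (2 * K * R), ∑ x ∈ (Icc 1 R ×ˢ Ioc K (2 * K)).filter
      (fun x => x.2 * x.1 = v), h (x.2 * x.1) ≤ T * h v := by
    intro v hv
    have h3 : ∀ x ∈ (Icc 1 R ×ˢ Ioc K (2 * K)).filter (fun x => x.2 * x.1 = v),
        h (x.2 * x.1) = h v := by
      intro x hx
      rw [mem_filter] at hx
      rw [hx.2]
    rw [sum_congr rfl h3, sum_const, nsmul_eq_mul]
    apply mul_le_mul_of_nonneg_right _ (hh0 v)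
    refine le_trans ?_ (hT v hv)
    rw [mem_Icc] at hv
    have h4 : ((Icc 1 R ×ˢ Ioc K (2 * K)).filter (fun x => x.2 * x.1 = v)).card ≤
        v.divisors.card := by
      apply card_le_card_of_injOn (fun x => x.1)
      · intro x hx
        rw [mem_coe, mem_filter] at hx
        rw [mem_coe, Nat.mem_divisors]
        exact ⟨⟨x.2, by rw [← hx.2]; ring⟩, by omega⟩
      · intro x hx y hy hxy
        rw [mem_coe, mem_filter, mem_product, mem_Icc, mem_Ioc] at hx hy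
        have hxy' : x.1 = y.1 := hxy
        ext
        · exact hxy'
        · have h5 : x.2 * x.1 = y.2 * x.1 := by rw [hx.2, hxy', hy.2]
          exact Nat.eq_of_mul_eq_mul_right (by omega) h5
    exact_mod_cast h4
  have h3 := sum_le_sum h2
  rw [← mul_sum] at h3
  have hT0 : 0 ≤ T := by
    have hv : 1 ∈ Icc 1 (2 * K * R) := by
      rw [mem_Icc]
      exact ⟨le_rfl, Nat.mul_pos (by omega) (by omega)⟩
    exact (Nat.cast_nonneg _).trans (hT 1 hv)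
  have h4 := spaced_sum B (2 * K * R) hB ((k * r : ℕ) : ℤ) (2 * (M : ℝ) / q) (by positivity)
  have h5 : ∑ v ∈ Icc 1 (2 * K * R), h v ≤
      (((2 * K * R : ℕ) : ℝ) / B + 1) * (2 * (M : ℝ) / q + 2 * B * (1 + Real.log B)) := h4
  calc (q : ℝ) / 2 * ∑ v ∈ Icc 1 (2 * K * R), ∑ x ∈ (Icc 1 R ×ˢ Ioc K (2 * K)).filter
        (fun x => x.2 * x.1 = v), h (x.2 * x.1)
      ≤ (q : ℝ) / 2 * (T * ∑ v ∈ Icc 1 (2 * K * R), h v) :=
        mul_le_mul_of_nonneg_left h3 (by positivity)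
    _ ≤ (q : ℝ) / 2 * (T * ((((2 * K * R : ℕ) : ℝ) / B + 1) *
          (2 * (M : ℝ) / q + 2 * B * (1 + Real.log B)))) :=
        mul_le_mul_of_nonneg_left (mul_le_mul_of_nonneg_left h5 hT0) (by positivity)
    _ = T * (2 * (K : ℝ) * R / B + 1) * (M + q * B * (1 + Real.log B)) := by
        push_cast
        field_simp

end Pool.Agent.Lib.MP_d9bc60_nt.UV
end

section
/-! Row S3 (about 60 lines): type I sums at the frequencies `a/q + r/(qB)`. -/

set_option autoImplicit false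

namespace Pool.Agent.Lib.MP_d9bc60_nt.UV

open Finset

/-- Proof. `q nn(d c_r) ≥ nn(q d c_r) = nn(dr/B) = dr/B` (`nn_of_abs_le_half`), then `geom_le`. -/
theorem typeI_sec (a : ℤ) (q B r d t : ℕ) (hq : 1 ≤ q) (hB : 1 ≤ B) (hr : 1 ≤ r) (hd : 1 ≤ d)
    (h : 2 * d * r ≤ B) :
    ‖∑ k ∈ Icc 1 t, e (((a : ℝ) / q + (r : ℝ) / (q * B)) * ((d * k : ℕ) : ℝ))‖ ≤
      (q : ℝ) * B / (2 * d * r) := by
  have hq0 : (0 : ℝ) < q := by exact_mod_cast hq
  have hB0 : (0 : ℝ) < B := by exact_mod_cast hB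
  have hr0 : (0 : ℝ) < r := by exact_mod_cast hr
  have hd0 : (0 : ℝ) < d := by exact_mod_cast hd
  have hh : 2 * (d : ℝ) * r ≤ B := by exact_mod_cast h
  set α : ℝ := ((a : ℝ) / q + (r : ℝ) / (q * B)) * d with hα
  have h1 : (q : ℝ) * α = (d : ℝ) * r / B + ((a * d : ℤ) : ℝ) := by
    rw [hα]; push_cast; field_simp; ring
  have h2 : nn ((q : ℝ) * α) = (d : ℝ) * r / B := by
    rw [h1, nn_add_int, nn_of_abs_le_half, abs_of_pos (by positivity)]
    rw [abs_of_pos (by positivity), div_le_iff₀ hB0]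
    linarith only [hh]
  have h3 : (d : ℝ) * r / B ≤ q * nn α := by
    rw [← h2]; exact nn_nat_mul q α
  have h4 : (d : ℝ) * r / (q * B) ≤ nn α := by
    rw [div_le_iff₀ (by positivity)]
    rw [div_le_iff₀ hB0] at h3
    nlinarith only [h3]
  have hpos : 0 < (d : ℝ) * r / (q * B) := by positivity
  have h5 : ∑ k ∈ Icc 1 t, e (((a : ℝ) / q + (r : ℝ) / (q * B)) * ((d * k : ℕ) : ℝ)) =
      ∑ k ∈ Ioc 0 t, e (α * k) := by
    have : Icc 1 t = Ioc 0 t := by ext x; simp [Nat.lt_iff_add_one_le]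
    rw [this]
    refine Finset.sum_congr rfl fun k _ => ?_
    rw [hα]; push_cast; ring_nf
  rw [h5]
  refine (geom_le α 0 t (lt_of_lt_of_le hpos h4)).trans ?_
  calc 1 / (2 * nn α) ≤ 1 / (2 * ((d : ℝ) * r / (q * B))) :=
        one_div_le_one_div_of_le (by positivity) (by linarith only [h4])
    _ = (q : ℝ) * B / (2 * d * r) := by field_simp

/-- Proof. `nn(c_r + a'/q') ≥ nn(q q'(...))/(q q') = nn(q' r/B)/(q q') = r/(q B)` for
`2 q' r ≤ B`; then `geom_le`. -/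
theorem typeI_sec' (a : ℤ) (q B r q' a' t : ℕ) (hq : 1 ≤ q) (hB : 1 ≤ B) (hr : 1 ≤ r) (hq' : 1 ≤ q')
    (h : 2 * q' * r ≤ B) :
    ‖∑ n ∈ Icc 1 t, e (((a : ℝ) / q + (r : ℝ) / (q * B) + (a' : ℝ) / q') * n)‖ ≤
      (q : ℝ) * B / (2 * r) := by
  have hq0 : (0 : ℝ) < q := by exact_mod_cast hq
  have hB0 : (0 : ℝ) < B := by exact_mod_cast hB
  have hr0 : (0 : ℝ) < r := by exact_mod_cast hr
  have hd0 : (0 : ℝ) < q' := by exact_mod_cast hq'
  have hh : 2 * (q' : ℝ) * r ≤ B := by exact_mod_cast h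
  set α : ℝ := (a : ℝ) / q + (r : ℝ) / (q * B) + (a' : ℝ) / q' with hα
  have h1 : ((q * q' : ℕ) : ℝ) * α = (q' : ℝ) * r / B + ((a * q' + a' * q : ℤ) : ℝ) := by
    rw [hα]; push_cast; field_simp; ring
  have h2 : nn (((q * q' : ℕ) : ℝ) * α) = (q' : ℝ) * r / B := by
    rw [h1, nn_add_int, nn_of_abs_le_half, abs_of_pos (by positivity)]
    rw [abs_of_pos (by positivity), div_le_iff₀ hB0]
    linarith only [hh]
  have h3 : (q' : ℝ) * r / B ≤ ((q * q' : ℕ) : ℝ) * nn α := by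
    rw [← h2]; exact nn_nat_mul (q * q') α
  have h4 : (r : ℝ) / (q * B) ≤ nn α := by
    rw [div_le_iff₀ (by positivity)]
    rw [div_le_iff₀ hB0] at h3
    push_cast at h3
    have h6 : (q' : ℝ) * r ≤ q' * (nn α * (q * B)) := by nlinarith only [h3]
    exact le_of_mul_le_mul_left h6 hd0
  have hpos : 0 < (r : ℝ) / (q * B) := by positivity
  have h5 : Icc 1 t = Ioc 0 t := by ext x; simp [Nat.lt_iff_add_one_le]
  rw [h5]
  refine (geom_le α 0 t (lt_of_lt_of_le hpos h4)).trans ?_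
  calc 1 / (2 * nn α) ≤ 1 / (2 * ((r : ℝ) / (q * B))) :=
        one_div_le_one_div_of_le (by positivity) (by linarith only [h4])
    _ = (q : ℝ) * B / (2 * r) := by field_simp

end Pool.Agent.Lib.MP_d9bc60_nt.UV
end

section
/-! Row S4 (about 170 lines): the type II sums on the secondary arcs, in mean square over `r`. -/

set_option autoImplicit false

namespace Pool.Agent.Lib.MP_d9bc60_nt.UV

open Finset

theorem s4_swap (a b φ : ℕ → ℂ) (M K t : ℕ) : TII a b φ M K t = TII b a φ K M t := by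
  unfold TII
  simp only [sum_filter]
  rw [sum_comm]
  refine sum_congr rfl fun k _ => sum_congr rfl fun m _ => ?_
  rw [mul_comm m k, mul_comm (a m) (b k)]

theorem s4_empty (a b φ : ℕ → ℂ) (M K t : ℕ) (h : t < M * K) : TII a b φ M K t = 0 := by
  unfold TII
  refine sum_eq_zero fun m hm => sum_eq_zero fun k hk => ?_
  rw [mem_filter, mem_Ioc] at hk
  rw [mem_Ioc] at hm
  exfalso
  have h1 : M * K ≤ m * k := Nat.mul_le_mul hm.1.le hk.1.1.le
  omega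

/-- the numerical inequality -/
theorem s4_num {x s y W W' M K R B : ℝ} (hs0 : 0 ≤ s) (hs : s * s = x) (hy0 : 0 ≤ y)
    (hM0 : 0 ≤ M) (hK0 : 0 ≤ K) (hR0 : 0 ≤ R) (hB : 1 ≤ B) (hW0 : 0 ≤ W) (hW : W ≤ W')
    (hW1 : 1 ≤ W')
    (hMK : M * K ≤ 2 * x) (hKM : K ≤ M) (hRs : R ≤ s * y) (hRB : R ≤ B * y) (hBx : B ≤ x * y)
    (hKy : 1 ≤ K * y) :
    M * K * ((2 * K * R / B + 1) * (M + W * B)) ≤ 20 * x ^ 2 * y * W' := by
  have hx0 : 0 ≤ x := by rw [← hs]; positivity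
  have hB0 : 0 < B := by linarith only [hB]
  have hMK0 : 0 ≤ M * K := mul_nonneg hM0 hK0
  -- `K ≤ 3 / 2 * s`
  have hKs : K ≤ 3 / 2 * s := by
    by_contra hcon
    push Not at hcon
    have h1 : (3 / 2 * s) * (3 / 2 * s) ≤ K * K := mul_self_le_mul_self (by positivity) hcon.le
    have h2 : K * K ≤ M * K := mul_le_mul_of_nonneg_right hKM hK0
    have h3 : 9 / 4 * x ≤ 2 * x := by nlinarith only [hs, hMK, h1, h2]
    have h4 : x = 0 := by linarith only [hx0, hs, hMK, h1, h2]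
    have h5 : s = 0 := by
      rw [h4] at hs
      exact mul_self_eq_zero.1 hs
    rw [h4] at hMK
    rw [h5, mul_zero] at hcon
    have h6 : 0 < M * K := mul_pos (hcon.trans_le hKM) hcon
    linarith only [hMK, h6]
  have hRdivB : R / B ≤ y := by
    rw [div_le_iff₀ hB0]
    linarith only [hRB]
  have hRdivB0 : 0 ≤ R / B := by positivity
  have e1 : M * K * ((2 * K * R / B + 1) * (M + W * B)) =
      2 * (M * K) * (M * K) * (R / B) + 2 * (M * K) * (K * R * W) + M * (M * K) +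
        M * K * (W * B) := by
    field_simp
    ring
  have i1 : 2 * (M * K) * (M * K) * (R / B) ≤ 8 * x ^ 2 * y := by
    have h1 : (M * K) * (M * K) ≤ (2 * x) * (2 * x) :=
      mul_le_mul hMK hMK hMK0 (by positivity)
    have h2 : (M * K) * (M * K) * (R / B) ≤ (2 * x) * (2 * x) * y :=
      mul_le_mul h1 hRdivB hRdivB0 (by positivity)
    nlinarith only [h2]
  have i2 : 2 * (M * K) * (K * R * W) ≤ 6 * x ^ 2 * y * W := by
    have h1 : K * R ≤ (3 / 2 * s) * (s * y) := mul_le_mul hKs hRs hR0 (by positivity)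
    have h2 : K * R * W ≤ (3 / 2 * s) * (s * y) * W := mul_le_mul_of_nonneg_right h1 hW0
    have h3 : (M * K) * (K * R * W) ≤ (2 * x) * ((3 / 2 * s) * (s * y) * W) :=
      mul_le_mul hMK h2 (by positivity) (by positivity)
    have h4 : (2 * x) * ((3 / 2 * s) * (s * y) * W) = 3 * x * (s * s) * y * W := by ring
    rw [h4, hs] at h3
    nlinarith only [h3]
  have i3 : M * (M * K) ≤ 4 * x ^ 2 * y := by
    have h1 : M ≤ 2 * x * y := by
      calc M = M * 1 := (mul_one M).symm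
        _ ≤ M * (K * y) := mul_le_mul_of_nonneg_left hKy hM0
        _ = (M * K) * y := by ring
        _ ≤ 2 * x * y := mul_le_mul_of_nonneg_right hMK hy0
    have h2 : M * (M * K) ≤ (2 * x * y) * (2 * x) := mul_le_mul h1 hMK hMK0 (by positivity)
    nlinarith only [h2]
  have i4 : M * K * (W * B) ≤ 2 * x ^ 2 * y * W := by
    have h1 : W * B ≤ W * (x * y) := mul_le_mul_of_nonneg_left hBx hW0
    have h2 : M * K * (W * B) ≤ (2 * x) * (W * (x * y)) :=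
      mul_le_mul hMK h1 (by positivity) (by positivity)
    nlinarith only [h2]
  have hxy0 : 0 ≤ x ^ 2 * y := by positivity
  have j1 : x ^ 2 * y * W ≤ x ^ 2 * y * W' := mul_le_mul_of_nonneg_left hW hxy0
  have j2 : x ^ 2 * y ≤ x ^ 2 * y * W' := le_mul_of_one_le_right hxy0 hW1
  rw [e1]
  nlinarith only [i1, i2, i3, i4, j1, j2]

theorem s4_core {X : ℕ} {x s y z : ℝ} (hx : x = (X : ℝ)) (hs0 : 0 ≤ s) (hs : s * s = x)
    (hy0 : 0 ≤ y) (hy1 : y ≤ 1) (hx1 : 1 ≤ x) (hz1 : 1 ≤ z)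
    (hτ : ∀ n : ℕ, 1 ≤ n → n ≤ 4 * X → (n.divisors.card : ℝ) ≤ z ^ 2)
    (a' b' : ℕ → ℂ) (A B' : ℝ) (hA0 : 0 ≤ A) (hB'0 : 0 ≤ B')
    (a : ℤ) (q B R M K t : ℕ) (hA : ∀ m ∈ Ioc M (2 * M), ‖a' m‖ ≤ A)
    (hB' : ∀ k ∈ Ioc K (2 * K), ‖b' k‖ ≤ B') (hq : 1 ≤ q) (hB : 1 ≤ B)
    (hW : (q : ℝ) * (1 + Real.log B) ≤ z ^ 2)
    (hMK : (M : ℝ) * K ≤ 2 * x) (hKM : (K : ℝ) ≤ M) (hRs : (R : ℝ) ≤ s * y)
    (hRB : (R : ℝ) ≤ B * y) (hBx : (B : ℝ) ≤ x * y) (hKy : 1 ≤ (K : ℝ) * y) :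
    ∑ r ∈ Icc 1 R, ‖TII a' b'
      (fun n => e (((a : ℝ) / q + (r : ℝ) / (q * B)) * n)) M K t‖ ^ 2 ≤
      A ^ 2 * B' ^ 2 * (20 * x ^ 2 * y * z ^ 4) := by
  have hx0 : 0 ≤ x := by linarith only [hx1]
  have hB1 : (1 : ℝ) ≤ B := by exact_mod_cast hB
  have hlogB : 0 ≤ Real.log B := Real.log_nonneg hB1
  have hKs : (K : ℝ) * R ≤ 2 * x := by
    have h2 : (K : ℝ) * K ≤ 2 * x :=
      (mul_le_mul_of_nonneg_right hKM (Nat.cast_nonneg K)).trans hMK
    have h3 : (R : ℝ) ≤ s := hRs.trans (mul_le_of_le_one_right hs0 hy1)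
    have h4 : (R : ℝ) * R ≤ x := by
      rw [← hs]
      exact mul_self_le_mul_self (Nat.cast_nonneg R) h3
    nlinarith only [sq_nonneg ((K : ℝ) - R), hx1, h2, h4]
  have hT : ∀ v ∈ Icc 1 (2 * K * R), (v.divisors.card : ℝ) ≤ z ^ 2 := by
    intro v hv
    rw [mem_Icc] at hv
    refine hτ v hv.1 ?_
    have h5 : ((2 * K * R : ℕ) : ℝ) ≤ ((4 * X : ℕ) : ℝ) := by
      push_cast
      rw [← hx]
      linarith only [hKs]
    have h6 : 2 * K * R ≤ 4 * X := by exact_mod_cast h5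
    omega
  set G : ℝ := z ^ 2 * (2 * (K : ℝ) * R / B + 1) * (M + q * B * (1 + Real.log B)) with hG
  have hG0 : 0 ≤ G := by positivity
  have hb := bilin (Icc 1 R) (fun r : ℕ => (a : ℝ) / q + (r : ℝ) / (q * B)) a' b' M K t A B' G
    hA hB' hA0 hB'0 hG0
    (fun r hr k hk => G_bound a q B M K R t k r (z ^ 2) hq hB hT hk hr)
  refine hb.trans ?_
  have hn := s4_num (x := x) (s := s) (y := y) (W := (q : ℝ) * (1 + Real.log B)) (W' := z ^ 2)
    (M := M) (K := K) (R := R) (B := B) hs0 hs hy0 (Nat.cast_nonneg M) (Nat.cast_nonneg K)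
    (Nat.cast_nonneg R) hB1 (by positivity) hW (by nlinarith only [hz1]) hMK hKM hRs hRB hBx hKy
  have hAB : 0 ≤ A ^ 2 * B' ^ 2 := by positivity
  have hfin : (M : ℝ) * K * G ≤ 20 * x ^ 2 * y * z ^ 4 := by
    have h7 : (M : ℝ) * K * G = z ^ 2 * (M * K * ((2 * K * R / B + 1) *
        (M + (q : ℝ) * (1 + Real.log B) * B))) := by
      rw [hG]
      ring
    rw [h7]
    calc z ^ 2 * (M * K * ((2 * K * R / B + 1) * (M + (q : ℝ) * (1 + Real.log B) * B)))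
        ≤ z ^ 2 * (20 * x ^ 2 * y * z ^ 2) := mul_le_mul_of_nonneg_left hn (by positivity)
      _ = 20 * x ^ 2 * y * z ^ 4 := by ring
  calc A ^ 2 * B' ^ 2 * M * K * G = A ^ 2 * B' ^ 2 * (M * K * G) := by ring
    _ ≤ A ^ 2 * B' ^ 2 * (20 * x ^ 2 * y * z ^ 4) := mul_le_mul_of_nonneg_left hfin hAB

/-- the conditions on the size of `X` -/
theorem s4_large (ε : ℝ) (hε : 0 < ε) (B₀ : ℕ) (C : ℝ) : ∃ X₀ : ℕ, ∀ X : ℕ, X₀ ≤ X →
    (1 : ℝ) ≤ X ∧ C * (4 * (X : ℝ)) ^ ε ≤ ((X : ℝ) ^ ε) ^ 2 ∧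
      Real.log (4 * X) ≤ (X : ℝ) ^ ε ∧ Real.log X ^ B₀ ≤ (X : ℝ) ^ ε ∧
      1 + Real.log X ≤ (X : ℝ) ^ ε ∧ 20 ≤ ((X : ℝ) ^ ε) ^ 10 := by
  have h1 : ∀ᶠ x : ℝ in Filter.atTop, (4 : ℝ) ≤ x := Filter.eventually_ge_atTop 4
  have h2 : ∀ᶠ x : ℝ in Filter.atTop, C * 4 ^ ε ≤ x ^ ε :=
    (tendsto_rpow_atTop hε).eventually_ge_atTop _
  have h3 : ∀ᶠ x : ℝ in Filter.atTop, (20 : ℝ) ≤ x ^ ε :=
    (tendsto_rpow_atTop hε).eventually_ge_atTop _
  have h4 : ∀ᶠ x : ℝ in Filter.atTop, Real.log x ≤ 1 / 2 * x ^ ε := by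
    have h := (isLittleO_log_rpow_atTop hε).bound (show (0 : ℝ) < 1 / 2 by norm_num)
    filter_upwards [h, h1] with x hx hx4
    rw [Real.norm_eq_abs, Real.norm_eq_abs, abs_of_nonneg (Real.log_nonneg (by linarith only [hx4])),
      abs_of_nonneg (Real.rpow_nonneg (by linarith only [hx4]) _)] at hx
    exact hx
  have h5 : ∀ᶠ x : ℝ in Filter.atTop, Real.log x ^ B₀ ≤ x ^ ε := by
    have h := (isLittleO_log_rpow_rpow_atTop (B₀ : ℝ) hε).bound one_pos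
    filter_upwards [h, h1] with x hx hx4
    rw [Real.norm_eq_abs, Real.norm_eq_abs,
      abs_of_nonneg (Real.rpow_nonneg (Real.log_nonneg (by linarith only [hx4])) _),
      abs_of_nonneg (Real.rpow_nonneg (by linarith only [hx4]) _), Real.rpow_natCast, one_mul] at hx
    exact hx
  have hall := (((((h1.and h2).and h3).and h4).and h5))
  obtain ⟨X₀, hX₀⟩ := Filter.eventually_atTop.1 (tendsto_natCast_atTop_atTop.eventually hall)
  refine ⟨X₀, fun X hX => ?_⟩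
  obtain ⟨⟨⟨⟨g1, g2⟩, g3⟩, g4⟩, g5⟩ := hX₀ X hX
  have hX0 : (0 : ℝ) ≤ X := by linarith only [g1]
  have hlog4 : Real.log 4 ≤ Real.log X := Real.log_le_log (by norm_num) g1
  have hlog1 : 1 ≤ Real.log 4 := by
    have h6 : Real.exp 1 ≤ 4 := by
      have := Real.exp_one_lt_d9
      linarith only [this]
    exact (Real.le_log_iff_exp_le (by norm_num)).2 h6
  refine ⟨by linarith only [g1], ?_, ?_, g5, by linarith only [g4, g3], ?_⟩
  · rw [Real.mul_rpow (by norm_num) hX0, sq, ← mul_assoc]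
    exact mul_le_mul_of_nonneg_right g2 (Real.rpow_nonneg hX0 _)
  · rw [Real.log_mul (by norm_num) (by linarith only [g1])]
    linarith only [g4, hlog4]
  · have h7 : (1 : ℝ) ≤ (X : ℝ) ^ ε := by linarith only [g3]
    calc (20 : ℝ) ≤ (X : ℝ) ^ ε := g3
      _ = ((X : ℝ) ^ ε) ^ 1 := (pow_one _).symm
      _ ≤ ((X : ℝ) ^ ε) ^ 10 := pow_le_pow_right₀ h7 (by norm_num)

/-- Proof. If `MK > t` the sum is empty. Let `MK ≤ t ≤ 2X`, coefficients `a = aV V` (`|aV| ≤ τ ≤ X^ε'`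
on `m ≤ 2M ≤ 4X` for large `X`, by `tau_le`; `abs_aV_le`-type bound: `|μ| ≤ 1`) and `b = Λ ≤ log(4X)`.
First case `K ≤ M`, so `K² ≤ 2X`: `bilin` with `I = Icc 1 R`, `G` from `G_bound`, `T = X^ε'`:
`∑ ≤ X^(4ε') MK (2KR/B + 1)(M + qB(1+log B))
 ≤ X^(5ε') · 2X · (2·2X·R/B + 2KR·q(1+log B)·... + M + qB ...)`; here
`MK·(KR/B)·M = (MK)(MK) R/B ≤ 4X² X^(-η)`, `MK·KR ≤ 2X · (2X)^(1/2) X^(1/2-η)`, `MK·M ≤ 2X · 2X/K ≤
4 X² X^(-η)` (`K ≥ X^η`), `MK·B ≤ 2X · X^(1-η)`; with `ε' = η/20`, `q, log ≤ X^ε'` the total is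
`≤ X^(2-η/2)`. Second case `M < K`: the same with the roles of `m` and `k` exchanged (`TII` is
symmetric: swap the two sums, `TII a b φ M K t = TII b a φ K M t`, and use `M ≥ X^η`). -/
theorem TII_sec (η : ℝ) (hη : 0 < η) (hη1 : η ≤ 1 / 2) (B₀ : ℕ) : ∃ X₀ : ℕ, ∀ X : ℕ, X₀ ≤ X →
    ∀ (a : ℤ) (q B R V M K t : ℕ), 1 ≤ q → (q : ℝ) ≤ Real.log X ^ B₀ → 1 ≤ B →
    (B : ℝ) ≤ (X : ℝ) ^ (1 - η) → (R : ℝ) ≤ (X : ℝ) ^ (1 / 2 - η) → (R : ℝ) ≤ B * (X : ℝ) ^ (-η) →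
    (X : ℝ) ^ η ≤ M → (X : ℝ) ^ η ≤ K → t ≤ 2 * X →
    ∑ r ∈ Icc 1 R, ‖TII (fun m => (aV V m : ℂ)) (fun k => (vm k : ℂ))
      (fun n => e (((a : ℝ) / q + (r : ℝ) / (q * B)) * n)) M K t‖ ^ 2 ≤ (X : ℝ) ^ (2 - η / 2) := by
  obtain ⟨C, hC1, hC⟩ := tau_le (η / 40) (by positivity)
  obtain ⟨X₀, hX₀⟩ := s4_large (η / 40) (by positivity) B₀ C
  refine ⟨X₀, fun X hX a q B R V M K t hq hqlog hB hBX hRX hRB hMη hKη ht => ?_⟩
  obtain ⟨hx1, hτz, hlog4, hlogB₀, hlog1, h20⟩ := hX₀ X hX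
  have hx0 : (0 : ℝ) < X := by linarith only [hη, hη1, hx1]
  set z : ℝ := (X : ℝ) ^ (η / 40) with hz
  have hz1 : 1 ≤ z := Real.one_le_rpow hx1 (by positivity)
  have hz0 : 0 ≤ z := by linarith only [hη, hη1, hz1]
  set s : ℝ := (X : ℝ) ^ (1 / 2 : ℝ) with hs
  have hs0 : 0 ≤ s := Real.rpow_nonneg hx0.le _
  have hss : s * s = X := by
    rw [hs, ← Real.rpow_add hx0]
    norm_num
  set y : ℝ := (X : ℝ) ^ (-η) with hy
  have hy0 : 0 < y := Real.rpow_pos_of_pos hx0 _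
  have hy1 : y ≤ 1 := Real.rpow_le_one_of_one_le_of_nonpos hx1 (by linarith only [hη])
  have hXη : (X : ℝ) ^ η * y = 1 := by
    rw [hy, ← Real.rpow_add hx0, add_neg_cancel, Real.rpow_zero]
  have hMy : 1 ≤ (M : ℝ) * y := by
    rw [← hXη]
    exact mul_le_mul_of_nonneg_right hMη hy0.le
  have hKy : 1 ≤ (K : ℝ) * y := by
    rw [← hXη]
    exact mul_le_mul_of_nonneg_right hKη hy0.le
  have hBx : (B : ℝ) ≤ (X : ℝ) * y := by
    refine hBX.trans (le_of_eq ?_)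
    rw [hy, sub_eq_add_neg, Real.rpow_add hx0, Real.rpow_one]
  have hRs : (R : ℝ) ≤ s * y := by
    refine hRX.trans (le_of_eq ?_)
    rw [hy, hs, sub_eq_add_neg, Real.rpow_add hx0]
  have hXpos : (0 : ℝ) ≤ (X : ℝ) ^ (2 - η / 2) := Real.rpow_nonneg hx0.le _
  rcases lt_or_ge t (M * K) with hlt | hge
  · refine le_trans (le_of_eq (sum_eq_zero fun r _ => ?_)) hXpos
    rw [s4_empty _ _ _ _ _ _ hlt, norm_zero]
    norm_num
  have hMKX : (M : ℝ) * K ≤ 2 * X := by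
    have : M * K ≤ 2 * X := hge.trans ht
    exact_mod_cast this
  have hone : 1 ≤ (X : ℝ) ^ η := Real.one_le_rpow hx1 hη.le
  have hM1 : (1 : ℝ) ≤ M := hone.trans hMη
  have hK1 : (1 : ℝ) ≤ K := hone.trans hKη
  have hM2X : (M : ℝ) ≤ 2 * X := (le_mul_of_one_le_right (by linarith only [hη, hη1, hMη, hone]) hK1).trans hMKX
  have hK2X : (K : ℝ) ≤ 2 * X := (le_mul_of_one_le_left (by linarith only [hη, hη1, hKη, hone]) hM1).trans hMKX
  have hM2X' : M ≤ 2 * X := by exact_mod_cast hM2X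
  have hK2X' : K ≤ 2 * X := by exact_mod_cast hK2X
  have hτ : ∀ n : ℕ, 1 ≤ n → n ≤ 4 * X → (n.divisors.card : ℝ) ≤ z ^ 2 := by
    intro n hn1 hn4
    refine (hC n hn1).trans (le_trans ?_ hτz)
    have hn4' : (n : ℝ) ≤ 4 * X := by exact_mod_cast hn4
    exact mul_le_mul_of_nonneg_left
      (Real.rpow_le_rpow (Nat.cast_nonneg n) hn4' (by positivity)) (by linarith only [hη, hη1, hC1])
  have haV : ∀ m ∈ Ioc M (2 * M), ‖((aV V m : ℝ) : ℂ)‖ ≤ z ^ 2 := by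
    intro m hm
    rw [mem_Ioc] at hm
    rw [Complex.norm_real, Real.norm_eq_abs]
    exact (abs_aV_le V m).trans (hτ m (by omega) (by omega))
  have hvm : ∀ k ∈ Ioc K (2 * K), ‖((vm k : ℝ) : ℂ)‖ ≤ z := by
    intro k hk
    rw [mem_Ioc] at hk
    have hk1 : (1 : ℝ) ≤ k := by
      have : 1 ≤ k := by omega
      exact_mod_cast this
    have hk4 : (k : ℝ) ≤ 4 * X := by
      have : k ≤ 4 * X := by omega
      exact_mod_cast this
    rw [Complex.norm_real, Real.norm_eq_abs, vm,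
      abs_of_nonneg ArithmeticFunction.vonMangoldt_nonneg]
    refine ArithmeticFunction.vonMangoldt_le_log.trans (le_trans ?_ hlog4)
    exact Real.log_le_log (by linarith only [hη, hη1, hk1]) hk4
  have hB1 : (1 : ℝ) ≤ B := by exact_mod_cast hB
  have hW : (q : ℝ) * (1 + Real.log B) ≤ z ^ 2 := by
    have h1 : Real.log B ≤ Real.log X := by
      refine Real.log_le_log (by linarith only [hη, hη1, hB1]) (hBx.trans ?_)
      exact mul_le_of_le_one_right hx0.le hy1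
    have h2 : (q : ℝ) ≤ z := hqlog.trans hlogB₀
    have h3 : 0 ≤ Real.log B := Real.log_nonneg hB1
    rw [sq]
    exact mul_le_mul h2 (by linarith only [hlog1, h1]) (by linarith only [hη, hη1, h3]) hz0
  have hfin : (z ^ 2) ^ 2 * z ^ 2 * (20 * (X : ℝ) ^ 2 * y * z ^ 4) ≤ (X : ℝ) ^ (2 - η / 2) := by
    have h4 : (z ^ 2) ^ 2 * z ^ 2 * (20 * (X : ℝ) ^ 2 * y * z ^ 4) =
        20 * (z ^ 10 * ((X : ℝ) ^ 2 * y)) := by ring
    have h5 : (X : ℝ) ^ (2 - η / 2) = z ^ 10 * (z ^ 10 * ((X : ℝ) ^ 2 * y)) := by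
      have h6 : z ^ 10 = (X : ℝ) ^ (η / 4) := by
        rw [hz, ← Real.rpow_natCast, ← Real.rpow_mul hx0.le]
        congr 1
        push_cast
        ring
      have h7 : (X : ℝ) ^ 2 = (X : ℝ) ^ (2 : ℝ) := by
        rw [← Real.rpow_natCast]
        norm_num
      rw [h6, h7, hy, ← Real.rpow_add hx0, ← Real.rpow_add hx0, ← Real.rpow_add hx0]
      congr 1
      ring
    rw [h4, h5]
    exact mul_le_mul_of_nonneg_right h20 (by positivity)
  rcases le_or_gt K M with hKM | hMK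
  · have hKM' : (K : ℝ) ≤ M := by exact_mod_cast hKM
    exact (s4_core (X := X) rfl hs0 hss hy0.le hy1 hx1 hz1 hτ _ _ (z ^ 2) z (by positivity) hz0
      a q B R M K t haV hvm hq hB hW hMKX hKM' hRs hRB hBx hKy).trans hfin
  · have hMK' : (M : ℝ) ≤ K := by exact_mod_cast hMK.le
    have h8 : ∀ r : ℕ, TII (fun m => (aV V m : ℂ)) (fun k => (vm k : ℂ))
        (fun n => e (((a : ℝ) / q + (r : ℝ) / (q * B)) * n)) M K t =
        TII (fun k => (vm k : ℂ)) (fun m => (aV V m : ℂ))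
        (fun n => e (((a : ℝ) / q + (r : ℝ) / (q * B)) * n)) K M t := fun r => s4_swap _ _ _ _ _ _
    simp only [h8]
    have hMKX' : (K : ℝ) * M ≤ 2 * X := by
      rw [mul_comm]
      exact hMKX
    refine (s4_core (X := X) rfl hs0 hss hy0.le hy1 hx1 hz1 hτ _ _ z (z ^ 2) hz0 (by positivity)
      a q B R K M t hvm haV hq hB hW hMKX' hMK' hRs hRB hBx hMy).trans (le_trans (le_of_eq ?_) hfin)
    ring

end Pool.Agent.Lib.MP_d9bc60_nt.UV
end

section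
/-! Row S5 (about 180 lines): `∑_r ‖D_t(a/q + r/(qB))‖²` on the secondary arcs. -/

set_option autoImplicit false

namespace Pool.Agent.Lib.MP_d9bc60_nt.UV

open Finset

/-- powers of the logarithm are eventually small -/
theorem s5_log (δ : ℝ) (hδ : 0 < δ) (c : ℝ) (k : ℕ) :
    ∀ᶠ X : ℕ in Filter.atTop, c * Real.log X ^ k ≤ (X : ℝ) ^ δ := by
  have h := (isLittleO_log_rpow_rpow_atTop (k : ℝ) hδ).def
    (show (0 : ℝ) < 1 / (|c| + 1) by positivity)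
  have h2 := tendsto_natCast_atTop_atTop (R := ℝ) |>.eventually h
  filter_upwards [h2, Filter.eventually_ge_atTop 1] with X hX hX1
  have hx : (1 : ℝ) ≤ X := by exact_mod_cast hX1
  have hL : 0 ≤ Real.log X := Real.log_nonneg hx
  have hLk : 0 ≤ Real.log X ^ k := by positivity
  have hXd : 0 ≤ (X : ℝ) ^ δ := by positivity
  have hc0 : 0 < |c| + 1 := by positivity
  rw [Real.rpow_natCast, Real.norm_of_nonneg hLk, Real.norm_of_nonneg hXd,
    div_mul_eq_mul_div, one_mul, le_div_iff₀ hc0] at hX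
  have h3 : c * Real.log X ^ k ≤ |c| * Real.log X ^ k :=
    mul_le_mul_of_nonneg_right (le_abs_self c) (by positivity)
  have h4 : 0 ≤ Real.log X ^ k := by positivity
  nlinarith only [hX, hLk, h3]

theorem s5_inv_sq (R : ℕ) : ∑ r ∈ Icc 1 R, 1 / (r : ℝ) ^ 2 ≤ 2 := by
  have key : ∀ n : ℕ, ∑ r ∈ Icc 1 (n + 1), 1 / (r : ℝ) ^ 2 ≤ 2 - 1 / ((n : ℝ) + 1) := by
    intro n
    induction n with
    | zero => norm_num
    | succ n ih =>
      rw [Finset.sum_Icc_succ_top (by omega)]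
      have h1 : 1 / (((n + 1 + 1 : ℕ) : ℝ)) ^ 2 ≤ 1 / ((n : ℝ) + 1) - 1 / (((n + 1 : ℕ) : ℝ) + 1) := by
        push_cast
        rw [div_sub_div _ _ (by positivity) (by positivity), div_le_div_iff₀ (by positivity)
          (by positivity)]
        nlinarith only [Nat.cast_nonneg (α := ℝ) n]
      linarith only [ih, h1]
  rcases Nat.eq_zero_or_pos R with h | h
  · subst h
    norm_num
  · obtain ⟨n, rfl⟩ : ∃ n, R = n + 1 := ⟨R - 1, by omega⟩
    have h1 := key n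
    have h2 : 0 ≤ 1 / ((n : ℝ) + 1) := by positivity
    linarith only [h1, h2]

theorem s5_harm (n : ℕ) : ∑ d ∈ Icc 1 n, 1 / (d : ℝ) ≤ 1 + Real.log n := by
  have h := harmonic_le_one_add_log n
  rw [harmonic_eq_sum_Icc] at h
  push_cast at h
  simpa [one_div] using h

theorem s5_point (a : ℤ) (q B r t U : ℕ) (hq : 1 ≤ q) (hB : 1 ≤ B) (hr : 1 ≤ r) (hU : 1 ≤ U)
    (h : 2 * (U * U) * r ≤ B) :
    ‖∑ n ∈ Icc 1 t, (vm n : ℂ) * e (((a : ℝ) / q + (r : ℝ) / (q * B)) * n)‖ ≤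
      6 * U + 3 * Real.log t * ((q : ℝ) * B / (2 * r) * (1 + Real.log (U * U : ℕ))) +
      ‖∑ m ∈ Ioc U t, ∑ k ∈ Ioc U (t / m), (aV U m : ℂ) * (vm k : ℂ) *
        e (((a : ℝ) / q + (r : ℝ) / (q * B)) * ((m * k : ℕ) : ℝ))‖ := by
  have h1 := vaughan_bound U U t hU
    (fun n => e (((a : ℝ) / q + (r : ℝ) / (q * B)) * (n : ℝ))) (fun n => (norm_e _).le)
    (fun d => (q : ℝ) * B / (2 * d * r)) (by
      intro d hd t' _
      rw [mem_Icc] at hd
      refine typeI_sec a q B r d t' hq hB hr hd.1 ?_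
      refine le_trans ?_ h
      exact Nat.mul_le_mul_right r (Nat.mul_le_mul_left 2 hd.2))
  refine h1.trans ?_
  have h2 : ∑ d ∈ Icc 1 (U * U), (q : ℝ) * B / (2 * d * r) ≤
      (q : ℝ) * B / (2 * r) * (1 + Real.log (U * U : ℕ)) := by
    have h3 : ∑ d ∈ Icc 1 (U * U), (q : ℝ) * B / (2 * d * r) =
        (q : ℝ) * B / (2 * r) * ∑ d ∈ Icc 1 (U * U), 1 / (d : ℝ) := by
      rw [Finset.mul_sum]
      apply Finset.sum_congr rfl
      intro d hd
      have hd1 : (d : ℝ) ≠ 0 := by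
        have := (mem_Icc.mp hd).1
        positivity
      have hr1 : (r : ℝ) ≠ 0 := by positivity
      field_simp
    rw [h3]
    exact mul_le_mul_of_nonneg_left (s5_harm _) (by positivity)
  have h4 : 0 ≤ 3 * Real.log t := by
    have := Real.log_natCast_nonneg t
    positivity
  have h5 := mul_le_mul_of_nonneg_left h2 h4
  linarith only [h5]

theorem s5_cs (J : ℕ) (f : ℕ → ℕ → ℂ) :
    ‖∑ j ∈ range J, ∑ i ∈ range J, f j i‖ ^ 2 ≤
      (J : ℝ) ^ 2 * ∑ j ∈ range J, ∑ i ∈ range J, ‖f j i‖ ^ 2 := by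
  rw [← Finset.sum_product' (range J) (range J) f,
    ← Finset.sum_product' (range J) (range J) (fun j i => ‖f j i‖ ^ 2)]
  calc ‖∑ x ∈ range J ×ˢ range J, f x.1 x.2‖ ^ 2
      ≤ (∑ x ∈ range J ×ˢ range J, ‖f x.1 x.2‖) ^ 2 := by
        gcongr
        exact norm_sum_le _ _
    _ ≤ ((range J ×ˢ range J).card : ℝ) * ∑ x ∈ range J ×ˢ range J, ‖f x.1 x.2‖ ^ 2 :=
        sq_sum_le_card_mul_sum_sq
    _ = (J : ℝ) ^ 2 * ∑ x ∈ range J ×ˢ range J, ‖f x.1 x.2‖ ^ 2 := by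
        rw [card_product, card_range]
        push_cast
        ring

/-- Proof. `vaughan_bound` with `U = V = ⌈X^(η/4)⌉₊` (so `V ≤ 2X^(η/4)`, `V² ≤ X^(3η/4)/...`), `N = t`,
`φ n = e(c_r n)` and `G(d) = qB/(2dr)` (`typeI_sec`: `2dr ≤ 2V²R ≤ B` as `R ≤ B X^(-η)`): the first two
terms are `≤ 6V + 3 log(2X) (qB/(2r))(1 + log V²) ≤ B X^ε'/r + X^η`; squared and summed over `r ≤ R`:
`≤ 2 B² X^(2ε')·2 + 2 R X^(2η) ≤ X^(2-η)` (`B ≤ X^(1-η)`). Third term: `dyadic_split` into at most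
`(2 log X)²` pieces with `M, K ≥ X^(η/4)`, Cauchy-Schwarz over the pieces and `TII_sec` with `η/4` in
place of `η` (all its hypotheses are weaker). Total `≤ X^(2-η/10)`. -/
theorem vs_Lam (η : ℝ) (hη : 0 < η) (hη1 : η ≤ 1 / 4) (B₀ : ℕ) : ∃ X₀ : ℕ, ∀ X : ℕ, X₀ ≤ X →
    ∀ (a : ℤ) (q B R t : ℕ), 1 ≤ q → (q : ℝ) ≤ Real.log X ^ B₀ → 1 ≤ B →
    (B : ℝ) ≤ (X : ℝ) ^ (1 - η) → (R : ℝ) ≤ (X : ℝ) ^ (1 / 2 - η) → (R : ℝ) ≤ B * (X : ℝ) ^ (-η) →
    t ≤ 2 * X →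
    ∑ r ∈ Icc 1 R, ‖∑ n ∈ Icc 1 t, (vm n : ℂ) * e (((a : ℝ) / q + (r : ℝ) / (q * B)) * n)‖ ^ 2 ≤
      (X : ℝ) ^ (2 - η / 10) := by
  obtain ⟨X1, hX1⟩ := TII_sec (η / 4) (by positivity) (by linarith only [hη, hη1]) B₀
  obtain ⟨X2, hX2⟩ := Filter.eventually_atTop.mp
    ((s5_log (η / 2) (by positivity) 6 (B₀ + 2)).and
      ((s5_log (η / 40) (by positivity) 3072 4).and (Filter.eventually_ge_atTop 3)))
  refine ⟨max X1 X2, ?_⟩
  intro X hX a q B R t hq hqL hB hBX hRX hRB ht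
  have hTII := hX1 X (le_trans (le_max_left _ _) hX)
  obtain ⟨hb, hc, hX3⟩ := hX2 X (le_trans (le_max_right _ _) hX)
  set x : ℝ := (X : ℝ) with hx
  set L : ℝ := Real.log x with hL
  have hx3 : (3 : ℝ) ≤ x := by rw [hx]; exact_mod_cast hX3
  have hx0 : 0 < x := by linarith only [hη, hη1, hx3]
  have hx1 : 1 ≤ x := by linarith only [hη, hη1, hx3]
  have hL1 : 1 ≤ L := by
    rw [hL, Real.le_log_iff_exp_le hx0]
    have := Real.exp_one_lt_d9
    linarith only [hη, hη1, hx3, this]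
  -- powers
  have hpow : ∀ u v : ℝ, u ≤ v → x ^ u ≤ x ^ v := fun u v huv =>
    Real.rpow_le_rpow_of_exponent_le hx1 huv
  have hpos : ∀ u : ℝ, 0 < x ^ u := fun u => Real.rpow_pos_of_pos hx0 u
  have hadd : ∀ u v : ℝ, x ^ u * x ^ v = x ^ (u + v) := fun u v => (Real.rpow_add hx0 u v).symm
  have h40 : (3072 : ℝ) ≤ x ^ (η / 40) := by
    have h1 : (1 : ℝ) ≤ L ^ 4 := one_le_pow₀ hL1
    linarith only [hc, h1]
  -- U
  set U : ℕ := ⌈x ^ (η / 4)⌉₊ with hU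
  have hUge : x ^ (η / 4) ≤ U := Nat.le_ceil _
  have hUle : (U : ℝ) ≤ 2 * x ^ (η / 4) := by
    have h1 := Nat.ceil_lt_add_one (hpos (η / 4)).le
    have h2 : (1 : ℝ) ≤ x ^ (η / 4) := Real.one_le_rpow hx1 (by positivity)
    linarith only [h1, h2]
  have hU1 : 1 ≤ U := by
    have h2 : (1 : ℝ) ≤ x ^ (η / 4) := Real.one_le_rpow hx1 (by positivity)
    exact_mod_cast h2.trans hUge
  have hUU : ((U * U : ℕ) : ℝ) ≤ 4 * x ^ (η / 2) := by
    push_cast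
    have h1 : (U : ℝ) * U ≤ (2 * x ^ (η / 4)) * (2 * x ^ (η / 4)) :=
      mul_le_mul hUle hUle (Nat.cast_nonneg _) (by positivity)
    have h2 : (2 * x ^ (η / 4)) * (2 * x ^ (η / 4)) = 4 * x ^ (η / 2) := by
      have h3 := hadd (η / 4) (η / 4)
      have h4 : η / 4 + η / 4 = η / 2 := by ring
      rw [h4] at h3
      linarith only [h3]
    linarith only [h1, h2]
  have h8 : 8 ≤ x ^ (η / 2) := by
    have := hpow (η / 40) (η / 2) (by linarith only [hη])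
    linarith only [hη, hη1, h40, this]
  -- type I admissibility
  have hadm : ∀ r ∈ Icc 1 R, 2 * (U * U) * r ≤ B := by
    intro r hr
    have hrR : (r : ℝ) ≤ R := by exact_mod_cast (mem_Icc.mp hr).2
    have h1 : (2 : ℝ) * ((U * U : ℕ) : ℝ) * r ≤ 2 * (4 * x ^ (η / 2)) * (B * x ^ (-η)) :=
      mul_le_mul (by linarith only [hUU]) (hrR.trans hRB) (Nat.cast_nonneg _) (by positivity)
    have h2 : 2 * (4 * x ^ (η / 2)) * (B * x ^ (-η)) = B * (8 * x ^ (-(η / 2))) := by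
      have h3 := hadd (η / 2) (-η)
      have h4 : η / 2 + -η = -(η / 2) := by ring
      rw [h4] at h3
      rw [← h3]
      ring
    have h5 : 8 * x ^ (-(η / 2)) ≤ 1 := by
      rw [Real.rpow_neg hx0.le, ← div_eq_mul_inv, div_le_one (hpos _)]
      exact h8
    have h6 : (2 : ℝ) * ((U * U : ℕ) : ℝ) * r ≤ B := by
      rw [h2] at h1
      refine h1.trans ?_
      have : (0 : ℝ) ≤ B := Nat.cast_nonneg _
      nlinarith only [h5]
    exact_mod_cast h6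
  -- logs
  have hlogt : Real.log t ≤ 2 * L := by
    rcases Nat.eq_zero_or_pos t with h | h
    · subst h
      simp
      linarith only [hη, hη1, hL1]
    · have h1 : (t : ℝ) ≤ 2 * x := by rw [hx]; exact_mod_cast ht
      have h2 : Real.log t ≤ Real.log (2 * x) :=
        Real.log_le_log (by exact_mod_cast h) h1
      rw [Real.log_mul (by norm_num) hx0.ne'] at h2
      have h3 : Real.log 2 ≤ 1 := by
        have := Real.log_two_lt_d9
        linarith only [hη, hη1, this]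
      linarith only [hL1, h2, h3]
  have hlogU : 1 + Real.log (U * U : ℕ) ≤ 2 * L := by
    have h1 : ((U * U : ℕ) : ℝ) ≤ x := by
      refine hUU.trans ?_
      have h2 : 4 * x ^ (η / 2) ≤ x ^ (η / 2) * x ^ (η / 2) := by nlinarith only [hpos (η / 2), h8, hη, hη1, hUU]
      rw [hadd] at h2
      refine h2.trans ?_
      have h3 := hpow (η / 2 + η / 2) 1 (by linarith only [hη, hη1])
      rwa [Real.rpow_one] at h3
    have h2 : Real.log (U * U : ℕ) ≤ L := by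
      apply Real.log_le_log _ h1
      have : 0 < U * U := by positivity
      exact_mod_cast this
    linarith only [hL1, h2]
  -- J
  set J : ℕ := Nat.log 2 (2 * X) + 1 with hJ
  have hJt : t < 2 ^ J := lt_of_le_of_lt ht (Nat.lt_pow_succ_log_self (by norm_num) _)
  have hJL : (J : ℝ) ≤ 4 * L := by
    have h1 : ((Nat.log 2 (2 * X) : ℕ) : ℝ) ≤ Real.logb ((2 : ℕ) : ℝ) ((2 * X : ℕ) : ℝ) :=
      Real.natLog_le_logb (2 * X) 2
    have h2 : Real.logb ((2 : ℕ) : ℝ) ((2 * X : ℕ) : ℝ) = 1 + L / Real.log 2 := by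
      push_cast
      rw [Real.logb, ← hx, Real.log_mul (by norm_num) hx0.ne', add_div,
        div_self (Real.log_pos (by norm_num)).ne']
    have h3 : L / Real.log 2 ≤ 2 * L := by
      rw [div_le_iff₀ (Real.log_pos (by norm_num))]
      have := Real.log_two_gt_d9
      nlinarith only [hη1, hL1, hη, this]
    rw [h2] at h1
    rw [hJ]
    push_cast
    linarith only [hL1, h1, h3]
  -- pointwise bound
  set T : ℕ → ℕ → ℕ → ℂ := fun r j i => TII (fun m => (aV U m : ℂ)) (fun k => (vm k : ℂ))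
      (fun n => e (((a : ℝ) / q + (r : ℝ) / (q * B)) * n)) (2 ^ j * U) (2 ^ i * U) t with hT
  have hpt : ∀ r ∈ Icc 1 R,
      ‖∑ n ∈ Icc 1 t, (vm n : ℂ) * e (((a : ℝ) / q + (r : ℝ) / (q * B)) * n)‖ ^ 2 ≤
        432 * x ^ (η / 2) + 3 * (x ^ η * (B : ℝ) ^ 2) * (1 / (r : ℝ) ^ 2) +
          3 * (J : ℝ) ^ 2 * ∑ j ∈ range J, ∑ i ∈ range J, ‖T r j i‖ ^ 2 := by
    intro r hr
    have hr1 := (mem_Icc.mp hr).1
    have hr0 : (0 : ℝ) < r := by exact_mod_cast hr1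
    have h1 := s5_point a q B r t U hq hB hr1 hU1 (hadm r hr)
    have h2 := dyadic_split (fun m => (aV U m : ℂ)) (fun k => (vm k : ℂ))
      (fun n => e (((a : ℝ) / q + (r : ℝ) / (q * B)) * n)) U U t J hU1 hU1 hJt
    rw [h2] at h1
    have h3 : 3 * Real.log t * ((q : ℝ) * B / (2 * r) * (1 + Real.log (U * U : ℕ))) ≤
        x ^ (η / 2) * B / r := by
      have h4 : 3 * Real.log t * ((q : ℝ) * B / (2 * r) * (1 + Real.log (U * U : ℕ))) ≤
          3 * (2 * L) * (L ^ B₀ * B / (2 * r) * (2 * L)) := by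
        have h40 : 0 ≤ 1 + Real.log (U * U : ℕ) := by
          have := Real.log_natCast_nonneg (U * U)
          linarith only [hη, hη1, this]
        have h41 := Real.log_natCast_nonneg t
        gcongr
      refine h4.trans ?_
      have h5 : 3 * (2 * L) * (L ^ B₀ * B / (2 * r) * (2 * L)) =
          6 * L ^ (B₀ + 2) * (B / r) := by
        rw [pow_add]
        field_simp
        ring
      rw [h5, mul_div_assoc]
      exact mul_le_mul_of_nonneg_right hb (by positivity)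
    have h6 : ‖∑ n ∈ Icc 1 t, (vm n : ℂ) * e (((a : ℝ) / q + (r : ℝ) / (q * B)) * n)‖ ≤
        12 * x ^ (η / 4) + x ^ (η / 2) * B / r + ‖∑ j ∈ range J, ∑ i ∈ range J, T r j i‖ := by
      refine h1.trans ?_
      have h7 : (6 : ℝ) * U ≤ 12 * x ^ (η / 4) := by linarith only [hUle]
      have h8 := add_le_add (add_le_add h7 h3)
        (le_refl ‖∑ j ∈ range J, ∑ i ∈ range J, T r j i‖)
      exact h8
    have h9 := s5_cs J (T r)
    set u := 12 * x ^ (η / 4)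
    set v := x ^ (η / 2) * B / r
    set w := ‖∑ j ∈ range J, ∑ i ∈ range J, T r j i‖
    have h10 : (u + v + w) ^ 2 ≤ 3 * u ^ 2 + 3 * v ^ 2 + 3 * w ^ 2 := by
      nlinarith only [sq_nonneg (u - v), sq_nonneg (u - w), sq_nonneg (v - w)]
    have h11 : ‖∑ n ∈ Icc 1 t, (vm n : ℂ) * e (((a : ℝ) / q + (r : ℝ) / (q * B)) * n)‖ ^ 2 ≤
        (u + v + w) ^ 2 := pow_le_pow_left₀ (norm_nonneg _) h6 2
    have h12 : u ^ 2 = 144 * x ^ (η / 2) := by
      have h3 := hadd (η / 4) (η / 4)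
      have h4 : η / 4 + η / 4 = η / 2 := by ring
      rw [h4] at h3
      rw [← h3]
      ring
    have h13 : v ^ 2 = x ^ η * (B : ℝ) ^ 2 * (1 / (r : ℝ) ^ 2) := by
      have h3 := hadd (η / 2) (η / 2)
      have h4 : η / 2 + η / 2 = η := by ring
      rw [h4] at h3
      rw [← h3]
      simp only [v]
      field_simp
    rw [h12, h13] at h10
    linarith only [h9, h10, h11]
  -- the bilinear part
  have hII : ∀ j ∈ range J, ∀ i ∈ range J, ∑ r ∈ Icc 1 R, ‖T r j i‖ ^ 2 ≤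
      x ^ (2 - η / 8) := by
    intro j _ i _
    have hge : ∀ j : ℕ, x ^ (η / 4) ≤ ((2 ^ j * U : ℕ) : ℝ) := by
      intro j
      refine hUge.trans ?_
      have : U ≤ 2 ^ j * U := Nat.le_mul_of_pos_left _ (by positivity)
      exact_mod_cast this
    have h1 := hTII a q B R U (2 ^ j * U) (2 ^ i * U) t hq hqL hB
      (hBX.trans (hpow _ _ (by linarith only [hη]))) (hRX.trans (hpow _ _ (by linarith only [hη])))
      (hRB.trans (mul_le_mul_of_nonneg_left (hpow _ _ (by linarith only [hη])) (Nat.cast_nonneg _)))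
      (hge j) (hge i) ht
    have h2 : η / 4 / 2 = η / 8 := by ring
    rw [h2] at h1
    exact h1
  calc ∑ r ∈ Icc 1 R, ‖∑ n ∈ Icc 1 t, (vm n : ℂ) * e (((a : ℝ) / q + (r : ℝ) / (q * B)) * n)‖ ^ 2
      ≤ ∑ r ∈ Icc 1 R, (432 * x ^ (η / 2) + 3 * (x ^ η * (B : ℝ) ^ 2) * (1 / (r : ℝ) ^ 2) +
          3 * (J : ℝ) ^ 2 * ∑ j ∈ range J, ∑ i ∈ range J, ‖T r j i‖ ^ 2) :=
        Finset.sum_le_sum hpt
    _ = R * (432 * x ^ (η / 2)) + 3 * (x ^ η * (B : ℝ) ^ 2) * ∑ r ∈ Icc 1 R, (1 / (r : ℝ) ^ 2) +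
          3 * (J : ℝ) ^ 2 * ∑ j ∈ range J, ∑ i ∈ range J, ∑ r ∈ Icc 1 R, ‖T r j i‖ ^ 2 := by
        have hcomm : ∑ r ∈ Icc 1 R, ∑ j ∈ range J, ∑ i ∈ range J, ‖T r j i‖ ^ 2 =
            ∑ j ∈ range J, ∑ i ∈ range J, ∑ r ∈ Icc 1 R, ‖T r j i‖ ^ 2 := by
          rw [Finset.sum_comm]
          apply Finset.sum_congr rfl
          intro j _
          rw [Finset.sum_comm]
        rw [sum_add_distrib, sum_add_distrib, sum_const, nsmul_eq_mul, Nat.card_Icc,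
          Nat.add_sub_cancel, ← Finset.mul_sum, ← Finset.mul_sum, hcomm]
    _ ≤ x ^ (1 / 2 - η) * (432 * x ^ (η / 2)) + 3 * (x ^ η * (x ^ (1 - η)) ^ 2) * 2 +
          3 * (4 * L) ^ 2 * ∑ j ∈ range J, ∑ i ∈ range J, x ^ (2 - η / 8) := by
        refine add_le_add (add_le_add ?_ ?_) ?_
        · exact mul_le_mul_of_nonneg_right hRX (by positivity)
        · refine mul_le_mul ?_ (s5_inv_sq R) (Finset.sum_nonneg (fun _ _ => by positivity))
            (by positivity)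
          gcongr
        · refine mul_le_mul ?_ ?_ (Finset.sum_nonneg (fun _ _ => Finset.sum_nonneg
            (fun _ _ => Finset.sum_nonneg (fun _ _ => by positivity)))) (by positivity)
          · gcongr
          · exact Finset.sum_le_sum (fun j hj => Finset.sum_le_sum (fun i hi => hII j hj i hi))
    _ = 432 * x ^ (1 / 2 - η / 2) + 6 * x ^ (2 - η) +
          3 * (4 * L) ^ 2 * ((J : ℝ) ^ 2 * x ^ (2 - η / 8)) := by
        have e1 : x ^ (1 / 2 - η) * x ^ (η / 2) = x ^ (1 / 2 - η / 2) := by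
          rw [hadd]; congr 1; ring
        have e2 : x ^ η * (x ^ (1 - η)) ^ 2 = x ^ (2 - η) := by
          rw [← Real.rpow_natCast, ← Real.rpow_mul hx0.le, hadd]; congr 1; push_cast; ring
        rw [e2, ← e1]
        simp only [sum_const, card_range, nsmul_eq_mul]
        ring
    _ ≤ x ^ (2 - η / 10) := by
        have g1 : 432 * x ^ (1 / 2 - η / 2) ≤ x ^ (2 - η / 10) / 4 := by
          have k1 : 3072 * x ^ (1 / 2 - η / 2) ≤ x ^ (η / 40) * x ^ (1 / 2 - η / 2) :=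
            mul_le_mul_of_nonneg_right h40 (hpos _).le
          rw [hadd] at k1
          have k2 := hpow (η / 40 + (1 / 2 - η / 2)) (2 - η / 10) (by linarith only [hη, hη1])
          linarith only [hpos (1 / 2 - η / 2), k1, k2, hpos]
        have g2 : 6 * x ^ (2 - η) ≤ x ^ (2 - η / 10) / 4 := by
          have k1 : 3072 * x ^ (2 - η) ≤ x ^ (η / 40) * x ^ (2 - η) :=
            mul_le_mul_of_nonneg_right h40 (hpos _).le
          rw [hadd] at k1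
          have k2 := hpow (η / 40 + (2 - η)) (2 - η / 10) (by linarith only [hη])
          linarith only [hpos (2 - η), k1, k2, hpos]
        have g3 : 3 * (4 * L) ^ 2 * ((J : ℝ) ^ 2 * x ^ (2 - η / 8)) ≤ x ^ (2 - η / 10) / 4 := by
          have k0 : (J : ℝ) ^ 2 ≤ (4 * L) ^ 2 := pow_le_pow_left₀ (Nat.cast_nonneg _) hJL 2
          have k1 : 3 * (4 * L) ^ 2 * ((J : ℝ) ^ 2 * x ^ (2 - η / 8)) ≤
              3 * (4 * L) ^ 2 * ((4 * L) ^ 2 * x ^ (2 - η / 8)) := by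
            gcongr
          have k2 : 3 * (4 * L) ^ 2 * ((4 * L) ^ 2 * x ^ (2 - η / 8)) =
              3072 * L ^ 4 * x ^ (2 - η / 8) / 4 := by ring
          have k3 : 3072 * L ^ 4 * x ^ (2 - η / 8) ≤ x ^ (η / 40) * x ^ (2 - η / 8) :=
            mul_le_mul_of_nonneg_right hc (hpos _).le
          rw [hadd] at k3
          have k4 : η / 40 + (2 - η / 8) = 2 - η / 10 := by ring
          rw [k4] at k3
          linarith only [k1, k3]
        linarith only [hpos (2 - η / 10), g1, g2, g3, hpos]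

/-- Proof. `vs_Lam` for the `Λ` part. `Λ_Q` part: `vmQ_sum` and `typeI_sec'`
(`2 q' r ≤ 2 Q R ≤ B`): `‖·‖ ≤ ∑_{q' ≤ Q} (1/φ(q')) φ(q') qB/(2r) ≤ Q q B/(2r)`, squared and summed over
`r`: `≤ Q² q² B² ≤ X^(2-η)`. -/
theorem vs_D (η : ℝ) (hη : 0 < η) (hη1 : η ≤ 1 / 4) (B₀ C : ℕ) : ∃ X₀ : ℕ, ∀ X : ℕ, X₀ ≤ X →
    ∀ (a : ℤ) (q B R t : ℕ), 1 ≤ q → (q : ℝ) ≤ Real.log X ^ B₀ → 1 ≤ B →
    (B : ℝ) ≤ (X : ℝ) ^ (1 - η) → (R : ℝ) ≤ (X : ℝ) ^ (1 / 2 - η) → (R : ℝ) ≤ B * (X : ℝ) ^ (-η) →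
    t ≤ 2 * X →
    ∑ r ∈ Icc 1 R, ‖DD (LC C X) t ((a : ℝ) / q + (r : ℝ) / (q * B))‖ ^ 2 ≤
      (X : ℝ) ^ (2 - η / 20) := by
  obtain ⟨X1, hX1⟩ := vs_Lam η hη hη1 B₀
  obtain ⟨X2, hX2⟩ := Filter.eventually_atTop.mp
    ((s5_log (η / 2) (by positivity) 1 (C + B₀)).and
      ((s5_log (η / 20) (by positivity) 3 0).and
        ((s5_log η hη 2 C).and (Filter.eventually_ge_atTop 3))))
  refine ⟨max X1 X2, ?_⟩
  intro X hX a q B R t hq hqL hB hBX hRX hRB ht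
  have hLam := hX1 X (le_trans (le_max_left _ _) hX) a q B R t hq hqL hB hBX hRX hRB ht
  obtain ⟨hb, hc, hd, hX3⟩ := hX2 X (le_trans (le_max_right _ _) hX)
  set x : ℝ := (X : ℝ) with hx
  set L : ℝ := Real.log x with hL
  have hx3 : (3 : ℝ) ≤ x := by rw [hx]; exact_mod_cast hX3
  have hx0 : 0 < x := by linarith only [hη, hη1, hx3]
  have hx1 : 1 ≤ x := by linarith only [hη, hη1, hx3]
  have hL1 : 1 ≤ L := by
    rw [hL, Real.le_log_iff_exp_le hx0]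
    have := Real.exp_one_lt_d9
    linarith only [hη, hη1, hx3, this]
  have hpow : ∀ u v : ℝ, u ≤ v → x ^ u ≤ x ^ v := fun u v huv =>
    Real.rpow_le_rpow_of_exponent_le hx1 huv
  have hpos : ∀ u : ℝ, 0 < x ^ u := fun u => Real.rpow_pos_of_pos hx0 u
  have hadd : ∀ u v : ℝ, x ^ u * x ^ v = x ^ (u + v) := fun u v => (Real.rpow_add hx0 u v).symm
  set Q : ℕ := LC C X with hQ
  have hQL : (Q : ℝ) ≤ L ^ C := by
    rw [hQ, LC]
    exact Nat.floor_le (by positivity)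
  -- the part with `Λ_Q`
  have hSQ : ∀ r ∈ Icc 1 R,
      ‖∑ n ∈ Icc 1 t, (vmQ Q (n : ℤ) : ℂ) * e (((a : ℝ) / q + (r : ℝ) / (q * B)) * n)‖ ≤
        x ^ (η / 2) * B / (2 * r) := by
    intro r hr
    have hr1 := (mem_Icc.mp hr).1
    have hr0 : (0 : ℝ) < r := by exact_mod_cast hr1
    have hrR : (r : ℝ) ≤ R := by exact_mod_cast (mem_Icc.mp hr).2
    rw [vmQ_sum]
    have h1 : ∀ q' ∈ Icc 1 Q, ‖((mu q' / q'.totient : ℝ) : ℂ) *
        ∑ a' ∈ (range q').filter (fun a' => a'.Coprime q'),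
          ∑ n ∈ Icc 1 t, e (((a : ℝ) / q + (r : ℝ) / (q * B) + (a' : ℝ) / q') * n)‖ ≤
        (q : ℝ) * B / (2 * r) := by
      intro q' hq'
      rw [mem_Icc] at hq'
      have hq'Q : (q' : ℝ) ≤ Q := by exact_mod_cast hq'.2
      have hadm : 2 * q' * r ≤ B := by
        have h2 : (2 : ℝ) * q' * r ≤ 2 * L ^ C * (B * x ^ (-η)) :=
          mul_le_mul (by linarith only [hQL, hq'Q]) (hrR.trans hRB) (Nat.cast_nonneg _) (by positivity)
        have h3 : 2 * L ^ C * (B * x ^ (-η)) ≤ x ^ η * (B * x ^ (-η)) :=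
          mul_le_mul_of_nonneg_right hd (by positivity)
        have h4 : x ^ η * (B * x ^ (-η)) = B := by
          have h5 := hadd η (-η)
          rw [add_neg_cancel, Real.rpow_zero] at h5
          calc x ^ η * (B * x ^ (-η)) = B * (x ^ η * x ^ (-η)) := by ring
            _ = B := by rw [h5, mul_one]
        have h6 : (2 : ℝ) * q' * r ≤ B := by linarith only [h2, h3, h4]
        exact_mod_cast h6
      have hφ : 0 < q'.totient := Nat.totient_pos.mpr hq'.1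
      have hφ0 : (0 : ℝ) < q'.totient := by exact_mod_cast hφ
      rw [norm_mul, Complex.norm_real, Real.norm_eq_abs, abs_div, abs_of_pos hφ0]
      have hmu : |mu q'| ≤ 1 := by
        unfold mu
        have := ArithmeticFunction.abs_moebius_le_one (n := q')
        exact_mod_cast this
      have h7 : ‖∑ a' ∈ (range q').filter (fun a' => a'.Coprime q'),
          ∑ n ∈ Icc 1 t, e (((a : ℝ) / q + (r : ℝ) / (q * B) + (a' : ℝ) / q') * n)‖ ≤
          q'.totient * ((q : ℝ) * B / (2 * r)) := by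
        refine (norm_sum_le _ _).trans ?_
        refine (Finset.sum_le_card_nsmul _ _ ((q : ℝ) * B / (2 * r)) ?_).trans (le_of_eq ?_)
        · intro a' _
          exact typeI_sec' a q B r q' a' t hq hB hr1 hq'.1 hadm
        · rw [nsmul_eq_mul]
          congr 2
          rw [Nat.totient_eq_card_coprime]
          congr 1
          ext z
          simp only [mem_filter, mem_range]
          rw [Nat.coprime_comm]
      calc |mu q'| / q'.totient * ‖∑ a' ∈ (range q').filter (fun a' => a'.Coprime q'),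
          ∑ n ∈ Icc 1 t, e (((a : ℝ) / q + (r : ℝ) / (q * B) + (a' : ℝ) / q') * n)‖
          ≤ 1 / q'.totient * (q'.totient * ((q : ℝ) * B / (2 * r))) := by
            gcongr
        _ = (q : ℝ) * B / (2 * r) := by field_simp
    refine (norm_sum_le _ _).trans ((Finset.sum_le_card_nsmul _ _ _ h1).trans ?_)
    rw [nsmul_eq_mul, Nat.card_Icc, Nat.add_sub_cancel]
    calc (Q : ℝ) * ((q : ℝ) * B / (2 * r)) ≤ L ^ C * (L ^ B₀ * B / (2 * r)) := by
          gcongr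
      _ = L ^ (C + B₀) * (B / (2 * r)) := by rw [pow_add]; ring
      _ ≤ x ^ (η / 2) * (B / (2 * r)) := by
          apply mul_le_mul_of_nonneg_right _ (by positivity)
          linarith only [hb]
      _ = x ^ (η / 2) * B / (2 * r) := by ring
  have hpt : ∀ r ∈ Icc 1 R, ‖DD Q t ((a : ℝ) / q + (r : ℝ) / (q * B))‖ ^ 2 ≤
      2 * ‖∑ n ∈ Icc 1 t, (vm n : ℂ) * e (((a : ℝ) / q + (r : ℝ) / (q * B)) * n)‖ ^ 2 +
        x ^ η * (B : ℝ) ^ 2 / 2 * (1 / (r : ℝ) ^ 2) := by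
    intro r hr
    have hr1 := (mem_Icc.mp hr).1
    have hr0 : (0 : ℝ) < r := by exact_mod_cast hr1
    have h1 : DD Q t ((a : ℝ) / q + (r : ℝ) / (q * B)) =
        ∑ n ∈ Icc 1 t, (vm n : ℂ) * e (((a : ℝ) / q + (r : ℝ) / (q * B)) * n) -
        ∑ n ∈ Icc 1 t, (vmQ Q (n : ℤ) : ℂ) * e (((a : ℝ) / q + (r : ℝ) / (q * B)) * n) := by
      unfold DD uu
      rw [← Finset.sum_sub_distrib]
      apply Finset.sum_congr rfl
      intro n _
      push_cast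
      ring
    rw [h1]
    set u := ∑ n ∈ Icc 1 t, (vm n : ℂ) * e (((a : ℝ) / q + (r : ℝ) / (q * B)) * n)
    have h2 := hSQ r hr
    set w := ∑ n ∈ Icc 1 t, (vmQ Q (n : ℤ) : ℂ) * e (((a : ℝ) / q + (r : ℝ) / (q * B)) * n)
    have h3 : ‖u - w‖ ≤ ‖u‖ + ‖w‖ := norm_sub_le u w
    have h4 : ‖u - w‖ ^ 2 ≤ 2 * ‖u‖ ^ 2 + 2 * ‖w‖ ^ 2 := by
      have := pow_le_pow_left₀ (norm_nonneg _) h3 2
      nlinarith only [sq_nonneg (‖u‖ - ‖w‖), this]
    have h5 : ‖w‖ ^ 2 ≤ (x ^ (η / 2) * B / (2 * r)) ^ 2 := pow_le_pow_left₀ (norm_nonneg _) h2 2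
    have h6 : (x ^ (η / 2) * B / (2 * r)) ^ 2 = x ^ η * (B : ℝ) ^ 2 / 4 * (1 / (r : ℝ) ^ 2) := by
      have h7 := hadd (η / 2) (η / 2)
      have h8 : η / 2 + η / 2 = η := by ring
      rw [h8] at h7
      rw [← h7]
      field_simp
      ring
    rw [h6] at h5
    linarith only [h4, h5]
  calc ∑ r ∈ Icc 1 R, ‖DD Q t ((a : ℝ) / q + (r : ℝ) / (q * B))‖ ^ 2
      ≤ ∑ r ∈ Icc 1 R, (2 * ‖∑ n ∈ Icc 1 t, (vm n : ℂ) *
          e (((a : ℝ) / q + (r : ℝ) / (q * B)) * n)‖ ^ 2 +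
          x ^ η * (B : ℝ) ^ 2 / 2 * (1 / (r : ℝ) ^ 2)) := Finset.sum_le_sum hpt
    _ = 2 * ∑ r ∈ Icc 1 R, ‖∑ n ∈ Icc 1 t, (vm n : ℂ) *
          e (((a : ℝ) / q + (r : ℝ) / (q * B)) * n)‖ ^ 2 +
          x ^ η * (B : ℝ) ^ 2 / 2 * ∑ r ∈ Icc 1 R, 1 / (r : ℝ) ^ 2 := by
        rw [sum_add_distrib, ← Finset.mul_sum, ← Finset.mul_sum]
    _ ≤ 2 * x ^ (2 - η / 10) + x ^ η * (x ^ (1 - η)) ^ 2 / 2 * 2 := by
        refine add_le_add (mul_le_mul_of_nonneg_left hLam (by norm_num)) ?_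
        refine mul_le_mul ?_ (s5_inv_sq R) (Finset.sum_nonneg (fun _ _ => by positivity))
          (by positivity)
        gcongr
    _ = 2 * x ^ (2 - η / 10) + x ^ (2 - η) := by
        have e2 : x ^ η * (x ^ (1 - η)) ^ 2 = x ^ (2 - η) := by
          rw [← Real.rpow_natCast, ← Real.rpow_mul hx0.le, hadd]; congr 1; push_cast; ring
        rw [e2]
        ring
    _ ≤ 3 * x ^ (2 - η / 10) := by
        have := hpow (2 - η) (2 - η / 10) (by linarith only [hη])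
        linarith only [this]
    _ ≤ x ^ (η / 20) * x ^ (2 - η / 10) := by
        apply mul_le_mul_of_nonneg_right _ (hpos _).le
        simpa using hc
    _ = x ^ (2 - η / 20) := by
        rw [hadd]; congr 1; ring

end Pool.Agent.Lib.MP_d9bc60_nt.UV
end
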