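import Pool.Agent.Lib.MP_d9bc60_nt.UV.PMajor
import Pool.Agent.Lib.MP_d9bc60_nt.UV.PSecond
import Pool.Agent.Lib.MP_d9bc60_nt.UV.PTools
import Pool.Agent.Lib.MP_d9bc60_nt.UV.PArcs

section
/-! Row K2 (about 180 lines): the integral of `‖D‖²` over the arcs belonging to one `a/q`. -/

set_option autoImplicit false

namespace Pool.Agent.Lib.MP_d9bc60_nt.UV

open Finset

theorem k2_cont_e : Continuous e := by
  unfold e
  fun_prop

theorem k2_cont (Q t : ℕ) : Continuous (fun α => DD Q t α) := by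
  unfold DD
  refine continuous_finsetSum _ fun k _ => ?_
  exact continuous_const.mul (k2_cont_e.comp (continuous_id.mul continuous_const))

theorem k2_neg (Q t : ℕ) (α : ℝ) : ‖DD Q t (-α)‖ = ‖DD Q t α‖ := by
  have : DD Q t (-α) = (starRingEnd ℂ) (DD Q t α) := by
    unfold DD
    rw [map_sum]
    refine Finset.sum_congr rfl fun k _ => ?_
    rw [map_mul, Complex.conj_ofReal, ← e_neg, neg_mul]
  rw [this, RCLike.norm_conj]

theorem k2_sum (F : ℤ → ℝ) (R : ℕ) :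
    ∑ r ∈ Icc (-(R : ℤ)) R, F r = F 0 + ∑ r ∈ Icc 1 R, (F (r : ℤ) + F (-(r : ℤ))) := by
  induction R with
  | zero => simp
  | succ R ih =>
    have h1 : Icc (-((R + 1 : ℕ) : ℤ)) ((R + 1 : ℕ) : ℤ) =
        insert (-((R + 1 : ℕ) : ℤ)) (insert ((R + 1 : ℕ) : ℤ) (Icc (-(R : ℤ)) R)) := by
      ext x
      simp only [mem_Icc, mem_insert]
      push_cast
      omega
    rw [h1, Finset.sum_insert, Finset.sum_insert, ih, Finset.sum_Icc_succ_top (by omega)]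
    · ring
    · simp only [mem_Icc]
      push_cast
      omega
    · simp only [mem_insert, mem_Icc]
      push_cast
      omega

/-- the bound at the centres -/
theorem k2_centres {Q t : ℕ} {E1 E2 : ℝ} {a b : ℤ} {q R : ℕ} (hb : b ≠ 0)
    (h1 : ‖DD Q t ((a : ℝ) / q)‖ ≤ E1)
    (h2 : ∀ a' : ℤ, ∑ r ∈ Icc 1 R, ‖DD Q t ((a' : ℝ) / q + (r : ℝ) / (q * b.natAbs))‖ ^ 2 ≤ E2) :
    ∑ r ∈ Icc (-(R : ℤ)) R, ‖DD Q t ((a : ℝ) / q + (r : ℝ) / (q * b))‖ ^ 2 ≤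
      E1 ^ 2 + 2 * E2 := by
  rw [k2_sum (fun r : ℤ => ‖DD Q t ((a : ℝ) / q + (r : ℝ) / (q * b))‖ ^ 2)]
  have e0 : ‖DD Q t ((a : ℝ) / q + ((0 : ℤ) : ℝ) / (q * b))‖ ^ 2 ≤ E1 ^ 2 := by
    rw [Int.cast_zero, zero_div, add_zero]
    exact pow_le_pow_left₀ (norm_nonneg _) h1 2
  have e1 : ∑ r ∈ Icc 1 R, (‖DD Q t ((a : ℝ) / q + (((r : ℕ) : ℤ) : ℝ) / (q * b))‖ ^ 2 +
      ‖DD Q t ((a : ℝ) / q + ((-((r : ℕ) : ℤ) : ℤ) : ℝ) / (q * b))‖ ^ 2) ≤ 2 * E2 := by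
    have ha := h2 a
    have hna := h2 (-a)
    rw [two_mul]
    refine le_trans (le_of_eq ?_) (add_le_add ha hna)
    rw [← Finset.sum_add_distrib]
    refine Finset.sum_congr rfl fun r _ => ?_
    rcases lt_or_gt_of_ne hb with hneg | hpos
    · have hB : ((b.natAbs : ℕ) : ℝ) = -(b : ℝ) := by
        have h3 : ((b.natAbs : ℤ)) = -b := by omega
        rw [← Int.cast_natCast, h3, Int.cast_neg]
      rw [add_comm]
      congr 2
      · rw [hB]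
        congr 2
        push_cast
        rw [mul_neg, div_neg, neg_div]
      · rw [← k2_neg, hB]
        congr 2
        push_cast
        rw [mul_neg, div_neg, neg_div]
        ring
    · have hB : ((b.natAbs : ℕ) : ℝ) = (b : ℝ) := by
        have h3 : ((b.natAbs : ℤ)) = b := by omega
        rw [← Int.cast_natCast, h3]
      congr 2
      · rw [hB]
        congr 2
      · rw [← k2_neg, hB]
        congr 2
        push_cast
        rw [neg_div, neg_div]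
        ring
  exact add_le_add e0 e1

theorem k2_large (η : ℝ) (hη : 0 < η) (m : ℕ) : ∃ X₀ : ℕ, ∀ X : ℕ, X₀ ≤ X →
    (1280 : ℝ) ≤ Real.log X ∧ 2 * (X : ℝ) ^ (2 - η / 20) ≤ (X : ℝ) ^ 2 / Real.log X ^ m := by
  have h1 : ∀ᶠ X : ℕ in Filter.atTop, (1280 : ℝ) ≤ Real.log X :=
    (Real.tendsto_log_atTop.comp tendsto_natCast_atTop_atTop).eventually_ge_atTop 1280
  have h2 : ∀ᶠ x : ℝ in Filter.atTop, ‖Real.log x ^ (m : ℝ)‖ ≤ (1 / 2) * ‖x ^ (η / 20)‖ :=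
    (isLittleO_log_rpow_rpow_atTop (m : ℝ) (by positivity : 0 < η / 20)).bound (by norm_num)
  have h3 := (tendsto_natCast_atTop_atTop (R := ℝ)).eventually h2
  obtain ⟨X₀, h4⟩ := Filter.eventually_atTop.1 (h1.and h3)
  refine ⟨max X₀ 1, fun X hX => ?_⟩
  obtain ⟨h5, h6⟩ := h4 X (le_trans (le_max_left _ _) hX)
  have hX1 : (0 : ℝ) < X := by
    have : 1 ≤ X := le_trans (le_max_right _ _) hX
    exact_mod_cast this
  refine ⟨h5, ?_⟩
  have hL : (0 : ℝ) < Real.log X := by linarith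
  rw [Real.rpow_natCast, Real.norm_of_nonneg (by positivity),
    Real.norm_of_nonneg (by positivity)] at h6
  rw [le_div_iff₀ (by positivity)]
  have h7 : (X : ℝ) ^ (2 - η / 20) * (X : ℝ) ^ (η / 20) = (X : ℝ) ^ 2 := by
    rw [← Real.rpow_add hX1, ← Real.rpow_natCast]
    congr 1
    push_cast
    ring
  calc 2 * (X : ℝ) ^ (2 - η / 20) * Real.log X ^ m
      ≤ 2 * (X : ℝ) ^ (2 - η / 20) * (1 / 2 * (X : ℝ) ^ (η / 20)) := by
        refine mul_le_mul_of_nonneg_left h6 (by positivity)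
    _ = (X : ℝ) ^ (2 - η / 20) * (X : ℝ) ^ (η / 20) := by ring
    _ = (X : ℝ) ^ 2 := h7

/-- Proof. For `|β| ≤ ρ`, `ρ = (log X)^C₁/X`: `abel_sq` with the family `c_r`, `|r| ≤ R`,
`R = ⌊min(X^(1/2-η), |b| X^(-η))⌋`, `N = 2X`. For each `t ≤ 2X`:
`∑_{|r| ≤ R} ‖D_t(c_r)‖² ≤ X²/(log X)^(2A') + 2 X^(2-η/20)` : `r = 0` is `D_major A' C₁ C`; `r > 0` is
`vs_D` with `B = |b|` if `b > 0`; if `b < 0` or `r < 0` write `r/(qb) = ∓ r'/(q|b|)` and use
`D_t(-α) = conj D_t(α)`. So the integral is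
`≤ 2ρ · 2(1 + (4π (log X)^C₁)²) · 2X²/(log X)^(2A') ≤ X/(log X)^A` with `A' = A + 4C₁ + 2`, `X` large. -/
theorem arc_int (η : ℝ) (hη : 0 < η) (hη1 : η ≤ 1 / 8) (A C₁ C : ℕ) (hC : C₁ ≤ C) :
    ∃ X₀ : ℕ, ∀ X : ℕ, X₀ ≤ X →
    ∀ b : ℤ, b ≠ 0 → |(b : ℝ)| ≤ (X : ℝ) ^ (5 / 6 : ℝ) → ∀ (q R : ℕ) (a : ℤ), 1 ≤ q →
    (q : ℝ) ≤ Real.log X ^ C₁ → (R : ℝ) ≤ (X : ℝ) ^ (1 / 2 - η) →
    (R : ℝ) ≤ |(b : ℝ)| * (X : ℝ) ^ (-η) →
    ∑ r ∈ Icc (-(R : ℤ)) R, ∫ β in (-(Real.log X ^ C₁ / X))..(Real.log X ^ C₁ / X),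
      ‖DD (LC C X) (2 * X) ((a : ℝ) / q + (r : ℝ) / (q * b) + β)‖ ^ 2 ≤
      (X : ℝ) / Real.log X ^ A := by
  set A' := A + 3 * C₁ + 1 with hA'
  obtain ⟨X₁, h1⟩ := D_major A' C₁ C hC
  obtain ⟨X₂, h2⟩ := vs_D η hη (by linarith) C₁ C
  obtain ⟨X₃, h3⟩ := k2_large η hη (2 * A')
  refine ⟨max (max X₁ X₂) (max X₃ 1), ?_⟩
  intro X hX b hb hbX q R a hq hqX hR1 hR2
  have hX1 : X₁ ≤ X := le_trans (le_trans (le_max_left _ _) (le_max_left _ _)) hX
  have hX2 : X₂ ≤ X := le_trans (le_trans (le_max_right _ _) (le_max_left _ _)) hX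
  have hX3 : X₃ ≤ X := le_trans (le_trans (le_max_left _ _) (le_max_right _ _)) hX
  have hXone : 1 ≤ X := le_trans (le_trans (le_max_right _ _) (le_max_right _ _)) hX
  obtain ⟨hL, hE⟩ := h3 X hX3
  have hXr : (1 : ℝ) ≤ X := by exact_mod_cast hXone
  have hXp : (0 : ℝ) < X := by linarith
  set L := Real.log X with hLdef
  have hL1 : (1 : ℝ) ≤ L := by linarith
  have hL0 : (0 : ℝ) < L := by linarith
  -- uniform bound at the centres
  have hBabs : ((b.natAbs : ℕ) : ℝ) = |(b : ℝ)| := by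
    rw [← Int.cast_natCast, Int.natCast_natAbs, Int.cast_abs]
  have hB1 : 1 ≤ b.natAbs := Int.natAbs_pos.2 hb
  have hBX : ((b.natAbs : ℕ) : ℝ) ≤ (X : ℝ) ^ (1 - η) := by
    rw [hBabs]
    refine hbX.trans (Real.rpow_le_rpow_of_exponent_le hXr (by linarith))
  have hRB : (R : ℝ) ≤ ((b.natAbs : ℕ) : ℝ) * (X : ℝ) ^ (-η) := by rw [hBabs]; exact hR2
  set E := ((X : ℝ) / L ^ A') ^ 2 + 2 * (X : ℝ) ^ (2 - η / 20) with hEdef
  have hcen : ∀ t ≤ 2 * X, ∑ r ∈ Icc (-(R : ℤ)) R,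
      ‖DD (LC C X) t ((a : ℝ) / q + (r : ℝ) / (q * b))‖ ^ 2 ≤ E := by
    intro t ht
    refine k2_centres hb (h1 X hX1 q hq hqX a t ht) (fun a' => ?_)
    exact h2 X hX2 a' q b.natAbs R t hq hqX hB1 hBX hR1 hRB ht
  have hE2 : E ≤ 2 * ((X : ℝ) ^ 2 / L ^ (2 * A')) := by
    rw [hEdef, div_pow, ← pow_mul, mul_comm A' 2]
    linarith
  have hE0 : 0 ≤ E := by positivity
  -- pointwise bound
  set ρ := L ^ C₁ / X with hρ
  have hρ0 : 0 ≤ ρ := by positivity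
  have hpt : ∀ β ∈ Set.Icc (-ρ) ρ, ∑ r ∈ Icc (-(R : ℤ)) R,
      ‖DD (LC C X) (2 * X) ((a : ℝ) / q + (r : ℝ) / (q * b) + β)‖ ^ 2 ≤
        320 * L ^ (2 * C₁) * E := by
    intro β hβ
    have hab := abel_sq (Icc (-(R : ℤ)) R) (fun r : ℤ => (a : ℝ) / q + (r : ℝ) / (q * b))
      (fun n => ((uu (LC C X) n : ℝ) : ℂ)) β (2 * X) E hcen
    refine le_trans hab ?_
    refine mul_le_mul_of_nonneg_right ?_ hE0
    have hβ2 : β ^ 2 ≤ ρ ^ 2 := by
      rw [← sq_abs β]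
      exact pow_le_pow_left₀ (abs_nonneg _) (abs_le.2 hβ) 2
    have h5 : (2 * Real.pi * β * ((2 * X : ℕ) : ℝ)) ^ 2 ≤ 159 * L ^ (2 * C₁) := by
      have hpi : Real.pi ^ 2 ≤ 9.9 := by
        have := Real.pi_lt_d4
        have := Real.pi_pos
        nlinarith
      have h6 : (2 * Real.pi * β * ((2 * X : ℕ) : ℝ)) ^ 2 =
          16 * Real.pi ^ 2 * (β ^ 2 * (X : ℝ) ^ 2) := by
        push_cast
        ring
      have h7 : β ^ 2 * (X : ℝ) ^ 2 ≤ L ^ (2 * C₁) := by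
        calc β ^ 2 * (X : ℝ) ^ 2 ≤ ρ ^ 2 * (X : ℝ) ^ 2 :=
              mul_le_mul_of_nonneg_right hβ2 (by positivity)
          _ = L ^ (2 * C₁) := by
              rw [hρ, div_pow, div_mul_cancel₀ _ (by positivity), ← pow_mul, mul_comm C₁ 2]
      rw [h6]
      calc 16 * Real.pi ^ 2 * (β ^ 2 * (X : ℝ) ^ 2)
          ≤ 16 * 9.9 * L ^ (2 * C₁) := by
            refine mul_le_mul ?_ h7 (by positivity) (by norm_num)
            linarith
        _ ≤ 159 * L ^ (2 * C₁) := by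
            refine mul_le_mul_of_nonneg_right (by norm_num) (by positivity)
    have h8 : (1 : ℝ) ≤ L ^ (2 * C₁) := one_le_pow₀ hL1
    linarith
  have hcont : ∀ r : ℤ, Continuous (fun β : ℝ =>
      ‖DD (LC C X) (2 * X) ((a : ℝ) / q + (r : ℝ) / (q * b) + β)‖ ^ 2) := by
    intro r
    exact ((k2_cont (LC C X) (2 * X)).comp (continuous_const.add continuous_id)).norm.pow 2
  rw [← intervalIntegral.integral_finsetSum (fun r _ => (hcont r).intervalIntegrable _ _)]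
  have hle : ∫ β in (-ρ)..ρ, ∑ r ∈ Icc (-(R : ℤ)) R,
      ‖DD (LC C X) (2 * X) ((a : ℝ) / q + (r : ℝ) / (q * b) + β)‖ ^ 2 ≤
      ∫ _β in (-ρ)..ρ, 320 * L ^ (2 * C₁) * E := by
    refine intervalIntegral.integral_mono_on (by linarith) ?_ (by simp) hpt
    exact (continuous_finsetSum _ fun r _ => hcont r).intervalIntegrable _ _
  refine hle.trans ?_
  rw [intervalIntegral.integral_const, smul_eq_mul]
  have h9 : (ρ - -ρ) * (320 * L ^ (2 * C₁) * E) ≤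
      (ρ - -ρ) * (320 * L ^ (2 * C₁) * (2 * ((X : ℝ) ^ 2 / L ^ (2 * A')))) := by
    refine mul_le_mul_of_nonneg_left ?_ (by linarith)
    exact mul_le_mul_of_nonneg_left hE2 (by positivity)
  refine h9.trans ?_
  have h10 : (ρ - -ρ) * (320 * L ^ (2 * C₁) * (2 * ((X : ℝ) ^ 2 / L ^ (2 * A')))) =
      1280 * L ^ (3 * C₁) * X / L ^ (2 * A') := by
    rw [hρ]
    have : L ^ (3 * C₁) = L ^ C₁ * L ^ (2 * C₁) := by rw [← pow_add]; congr 1; ring
    rw [this]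
    field_simp
    ring
  rw [h10, div_le_div_iff₀ (by positivity) (by positivity)]
  have h11 : L ^ (2 * A') = L ^ (3 * C₁) * L ^ A * L * L ^ (A + 3 * C₁ + 1) := by
    rw [hA', ← pow_add, ← pow_succ, ← pow_add]
    congr 1
    ring
  rw [h11]
  have h12 : (1 : ℝ) ≤ L ^ (A + 3 * C₁ + 1) := one_le_pow₀ hL1
  calc 1280 * L ^ (3 * C₁) * X * L ^ A ≤ L * L ^ (3 * C₁) * X * L ^ A := by gcongr
    _ = X * (L ^ (3 * C₁) * L ^ A * L * 1) := by ring
    _ ≤ X * (L ^ (3 * C₁) * L ^ A * L * L ^ (A + 3 * C₁ + 1)) := by gcongr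

end Pool.Agent.Lib.MP_d9bc60_nt.UV
end

section
/-! Row K3 (about 180 lines): the integral over `[0,1]`. -/

set_option autoImplicit false

namespace Pool.Agent.Lib.MP_d9bc60_nt.UV

open Finset

private lemma k3_e_cont : Continuous e := by
  unfold e
  fun_prop

private lemma k3_Sf_cont (b : ℤ) (P : ℕ) : Continuous (Sf b P) := by
  unfold Sf
  refine continuous_finsetSum _ (fun n _ => ?_)
  exact continuous_const.mul (k3_e_cont.comp (by fun_prop))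

private lemma k3_DD_cont (Q t : ℕ) : Continuous (DD Q t) := by
  unfold DD
  refine continuous_finsetSum _ (fun n _ => ?_)
  exact continuous_const.mul (k3_e_cont.comp (by fun_prop))

private lemma k3_ind_int (G : ℝ → ℝ) (hG : Continuous G) (s : Set ℝ) (hs : MeasurableSet s) :
    IntervalIntegrable (s.indicator G) MeasureTheory.volume 0 1 := by
  rw [intervalIntegrable_iff_integrableOn_Ioc_of_le (by norm_num)]
  have h := hG.intervalIntegrable (μ := MeasureTheory.volume) 0 1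
  rw [intervalIntegrable_iff_integrableOn_Ioc_of_le (by norm_num)] at h
  exact h.indicator hs

private lemma k3_arc (G : ℝ → ℝ) (hG : Continuous G) (h0 : ∀ x, 0 ≤ G x) (c ρ : ℝ)
    (hρ : 0 ≤ ρ) :
    ∫ α in (0 : ℝ)..1, (Set.Icc (c - ρ) (c + ρ)).indicator G α ≤
      ∫ β in (-ρ)..ρ, G (c + β) := by
  rw [intervalIntegral.integral_of_le (by norm_num),
    MeasureTheory.setIntegral_indicator measurableSet_Icc]
  have h1 : ∫ β in (-ρ)..ρ, G (c + β) = ∫ x in Set.Icc (c - ρ) (c + ρ), G x := by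
    rw [intervalIntegral.integral_comp_add_left (fun x => G x) c,
      intervalIntegral.integral_of_le (by linarith),
      ← MeasureTheory.integral_Icc_eq_integral_Ioc, ← sub_eq_add_neg]
  rw [h1]
  refine MeasureTheory.setIntegral_mono_set (hG.continuousOn.integrableOn_Icc)
    (Filter.Eventually.of_forall h0) (Filter.Eventually.of_forall ?_)
  intro x hx
  exact hx.2

private lemma k3_cover {ι : Type*} (I : Finset ι) (c : ι → ℝ) (ρ : ℝ) (hρ : 0 ≤ ρ)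
    (F G : ℝ → ℝ) (hF : Continuous F) (hG : Continuous G) (h0 : ∀ x, 0 ≤ G x) (B₁ B₂ : ℝ)
    (hB₁ : 0 ≤ B₁) (hB₂ : 0 ≤ B₂)
    (h : ∀ α, 0 ≤ α → α ≤ 1 → F α ≤ B₁ * G α ∨ ∃ i ∈ I, |α - c i| ≤ ρ ∧ F α ≤ B₂ * G α) :
    ∫ α in (0 : ℝ)..1, F α ≤ B₁ * (∫ α in (0 : ℝ)..1, G α) +
      B₂ * ∑ i ∈ I, ∫ β in (-ρ)..ρ, G (c i + β) := by
  classical
  set K : ι → ℝ → ℝ := fun i => (Set.Icc (c i - ρ) (c i + ρ)).indicator G with hK
  have hKint : ∀ i ∈ I, IntervalIntegrable (K i) MeasureTheory.volume 0 1 :=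
    fun i _ => k3_ind_int G hG _ measurableSet_Icc
  have hK0 : ∀ i x, 0 ≤ K i x := fun i x => Set.indicator_nonneg (fun y _ => h0 y) x
  have hGint : IntervalIntegrable G MeasureTheory.volume 0 1 := hG.intervalIntegrable 0 1
  have hsumint : IntervalIntegrable (fun α => ∑ i ∈ I, K i α) MeasureTheory.volume 0 1 := by
    have := IntervalIntegrable.sum I hKint
    refine this.congr ?_
    intro x _
    simp
  have h1 : ∫ α in (0 : ℝ)..1, F α ≤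
      ∫ α in (0 : ℝ)..1, (B₁ * G α + B₂ * ∑ i ∈ I, K i α) := by
    refine intervalIntegral.integral_mono_on (by norm_num) (hF.intervalIntegrable 0 1)
      ((hGint.const_mul B₁).add (hsumint.const_mul B₂)) ?_
    intro α hα
    rcases h α hα.1 hα.2 with h2 | ⟨i, hi, h2, h3⟩
    · have : 0 ≤ B₂ * ∑ i ∈ I, K i α := mul_nonneg hB₂ (Finset.sum_nonneg fun i _ => hK0 i α)
      linarith
    · have h4 : K i α ≤ ∑ i ∈ I, K i α :=
        Finset.single_le_sum (f := fun i => K i α) (fun j _ => hK0 j α) hi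
      have h5 : K i α = G α := by
        rw [hK]
        refine Set.indicator_of_mem ?_ _
        rw [abs_le] at h2
        constructor <;> linarith [h2.1, h2.2]
      have h6 : 0 ≤ B₁ * G α := mul_nonneg hB₁ (h0 α)
      have h7 : B₂ * G α ≤ B₂ * ∑ i ∈ I, K i α := by
        refine mul_le_mul_of_nonneg_left ?_ hB₂
        rw [← h5]; exact h4
      linarith
  refine h1.trans ?_
  rw [intervalIntegral.integral_add (hGint.const_mul B₁) (hsumint.const_mul B₂),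
    intervalIntegral.integral_const_mul, intervalIntegral.integral_const_mul,
    intervalIntegral.integral_finsetSum hKint]
  have h2 : ∑ i ∈ I, ∫ α in (0 : ℝ)..1, K i α ≤ ∑ i ∈ I, ∫ β in (-ρ)..ρ, G (c i + β) :=
    Finset.sum_le_sum fun i _ => k3_arc G hG h0 (c i) ρ hρ
  have h3 := mul_le_mul_of_nonneg_left h2 hB₂
  linarith

private lemma k3_Sf_le (b : ℤ) (P : ℕ) (α : ℝ) : ‖Sf b P α‖ ≤ 6 * P := by
  unfold Sf
  refine (norm_sum_le _ _).trans ?_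
  have h1 : ∀ n ∈ Icc 1 P, ‖(vm n : ℂ) * e (α * (gg b n : ℝ))‖ =
      ArithmeticFunction.vonMangoldt n := by
    intro n _
    rw [norm_mul, norm_e, mul_one, Complex.norm_real, Real.norm_of_nonneg]
    · rfl
    · exact ArithmeticFunction.vonMangoldt_nonneg
  rw [Finset.sum_congr rfl h1]
  have h2 : ∑ n ∈ Icc 1 P, ArithmeticFunction.vonMangoldt n = Chebyshev.psi (P : ℝ) := by
    unfold Chebyshev.psi
    rw [Nat.floor_natCast]
    rfl
  rw [h2]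
  refine (Chebyshev.psi_le_const_mul_self (Nat.cast_nonneg P)).trans ?_
  have h3 : Real.log 4 ≤ 2 := by
    have h4 : (4 : ℝ) = 2 ^ 2 := by norm_num
    rw [h4, Real.log_pow]
    have := Real.log_two_lt_d9
    push_cast
    linarith
  exact mul_le_mul_of_nonneg_right (by linarith) (Nat.cast_nonneg P)

/-- Proof. `arcs_class ε A₁` with `2A₁ ≥ A + 5` gives `C₁, η`; let `C ≥ C₁`, `P = PP b X`,
`‖S_f‖ ≤ ψ(P) ≤ 6P`. Pointwise on `[0,1]`:
`‖S_f‖²‖D‖² ≤ (P/L^A₁)² ‖D‖² + ∑_{q ≤ L^C₁} ∑_{|a| ≤ 2q} ∑_{|r| ≤ R} 1[|α - c| ≤ L^C₁/X] 36P²‖D‖²`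
with `R = ⌊min(X^(1/2-η), |b|X^(-η))⌋`. Integrate: first term `P² L^(-2A₁) ∑ u² ≤ P² X L^(3-2A₁)`
(`parseval_D`, `uu_sq`); second: `arc_int` with `A' = A + 2C₁ + 3`, at most `L^C₁ (4L^C₁ + 1)` pairs
`(q,a)` (substitute `α = c + β`; extend each arc to the whole interval `[c-ρ, c+ρ]`). -/
theorem main_int (ε : ℝ) (hε : 0 < ε) (A : ℕ) : ∃ C₁ : ℕ, ∀ C : ℕ, C₁ ≤ C → ∃ X₀ : ℕ, ∀ X : ℕ, X₀ ≤ X →
    ∀ b : ℤ, b ≠ 0 → |(b : ℝ)| ≤ (X : ℝ) ^ (5 / 6 - ε) →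
    ∫ α in (0 : ℝ)..1, ‖Sf b (PP b X) α‖ ^ 2 * ‖DD (LC C X) (2 * X) α‖ ^ 2 ≤
      (PP b X : ℝ) ^ 2 * X / Real.log X ^ A := by
  obtain ⟨C₁, X₁, η, hη, hη1, hcls⟩ := arcs_class ε hε (A + 4)
  refine ⟨C₁, ?_⟩
  intro C hC
  obtain ⟨X₂, harc⟩ := arc_int η hη hη1 (A + 2 * C₁ + 1) C₁ C hC
  obtain ⟨X₃, huu⟩ := uu_sq C
  obtain ⟨X₄, hX₄⟩ : ∃ X₄ : ℕ, Real.exp 400 ≤ X₄ := exists_nat_ge _
  refine ⟨max (max X₁ X₂) (max X₃ X₄), ?_⟩
  intro X hX b hb hbX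
  have hX1 : X₁ ≤ X := le_trans (le_trans (le_max_left _ _) (le_max_left _ _)) hX
  have hX2 : X₂ ≤ X := le_trans (le_trans (le_max_right _ _) (le_max_left _ _)) hX
  have hX3 : X₃ ≤ X := le_trans (le_trans (le_max_left _ _) (le_max_right _ _)) hX
  have hX4 : X₄ ≤ X := le_trans (le_trans (le_max_right _ _) (le_max_right _ _)) hX
  have hXe : Real.exp 400 ≤ X := hX₄.trans (by exact_mod_cast hX4)
  have hXpos : (0 : ℝ) < X := lt_of_lt_of_le (Real.exp_pos _) hXe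
  have hXone : (1 : ℝ) ≤ X := (Real.one_le_exp (by norm_num)).trans hXe
  set L : ℝ := Real.log X with hLdef
  have hL : 400 ≤ L := by rw [hLdef, Real.le_log_iff_exp_le hXpos]; exact hXe
  have hL0 : 0 < L := by linarith
  have hL1 : 1 ≤ L := by linarith
  set P : ℕ := PP b X with hP
  set G : ℝ → ℝ := fun α => ‖DD (LC C X) (2 * X) α‖ ^ 2 with hG
  have hGc : Continuous G := (k3_DD_cont _ _).norm.pow 2
  have hG0 : ∀ x, 0 ≤ G x := fun x => by rw [hG]; positivity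
  set ρ : ℝ := L ^ C₁ / X with hρ
  have hρ0 : 0 ≤ ρ := by rw [hρ]; positivity
  set R : ℕ := ⌊min ((X : ℝ) ^ (1 / 2 - η)) (|(b : ℝ)| * (X : ℝ) ^ (-η))⌋₊ with hR
  have hR0 : 0 ≤ min ((X : ℝ) ^ (1 / 2 - η)) (|(b : ℝ)| * (X : ℝ) ^ (-η)) :=
    le_min (by positivity) (by positivity)
  have hR1 : (R : ℝ) ≤ (X : ℝ) ^ (1 / 2 - η) :=
    (Nat.floor_le hR0).trans (min_le_left _ _)
  have hR2 : (R : ℝ) ≤ |(b : ℝ)| * (X : ℝ) ^ (-η) :=
    (Nat.floor_le hR0).trans (min_le_right _ _)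
  set Qb : ℕ := ⌊L ^ C₁⌋₊ with hQb
  have hQb1 : (Qb : ℝ) ≤ L ^ C₁ := Nat.floor_le (by positivity)
  set I : Finset (Σ _ : ℕ, ℤ × ℤ) := (Icc 1 Qb).sigma
    (fun q => Icc (-(2 * (q : ℤ))) (2 * (q : ℤ)) ×ˢ Icc (-(R : ℤ)) (R : ℤ)) with hI
  set c : (Σ _ : ℕ, ℤ × ℤ) → ℝ :=
    fun i => (i.2.1 : ℝ) / (i.1 : ℝ) + (i.2.2 : ℝ) / ((i.1 : ℝ) * b) with hc
  have hcov := k3_cover I c ρ hρ0
    (fun α => ‖Sf b P α‖ ^ 2 * G α) G
    (((k3_Sf_cont b P).norm.pow 2).mul hGc) hGc hG0 ((P / L ^ (A + 4)) ^ 2) (36 * (P : ℝ) ^ 2)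
    (by positivity) (by positivity) (by
      intro α hα0 hα1
      by_cases hbig : (P : ℝ) / L ^ (A + 4) ≤ ‖Sf b P α‖
      · right
        obtain ⟨q, a, r, hq1, hq2, ha, hr1, hr2, hd⟩ := hcls X hX1 b hb hbX α hα0 hα1 hbig
        refine ⟨⟨q, (a, r)⟩, ?_, hd, ?_⟩
        · rw [hI, Finset.mem_sigma, Finset.mem_product]
          refine ⟨?_, ?_, ?_⟩
          · rw [Finset.mem_Icc]
            exact ⟨hq1, Nat.le_floor hq2⟩
          · rw [Finset.mem_Icc]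
            rw [abs_le] at ha
            constructor
            · have := ha.1
              have h2 : ((-(2 * (q : ℤ)) : ℤ) : ℝ) ≤ (a : ℝ) := by push_cast; exact this
              exact_mod_cast h2
            · have := ha.2
              have h2 : (a : ℝ) ≤ ((2 * (q : ℤ) : ℤ) : ℝ) := by push_cast; exact this
              exact_mod_cast h2
          · rw [Finset.mem_Icc, ← abs_le]
            have h2 : r.natAbs ≤ R := by
              refine Nat.le_floor ?_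
              rw [Nat.cast_natAbs, Int.cast_abs]
              exact le_min hr1 hr2
            have h3 : |r| ≤ (R : ℤ) := by
              rw [Int.abs_eq_natAbs]; exact_mod_cast h2
            exact h3
        · have h1 := k3_Sf_le b P α
          have h2 : ‖Sf b P α‖ ^ 2 ≤ (6 * P) ^ 2 :=
            pow_le_pow_left₀ (norm_nonneg _) h1 2
          have h3 : (6 * (P : ℝ)) ^ 2 = 36 * (P : ℝ) ^ 2 := by ring
          rw [h3] at h2
          exact mul_le_mul_of_nonneg_right h2 (hG0 α)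
      · left
        push Not at hbig
        exact mul_le_mul_of_nonneg_right (pow_le_pow_left₀ (norm_nonneg _) hbig.le 2) (hG0 α))
  have hXA : (X : ℝ) ^ (5 / 6 - ε) ≤ (X : ℝ) ^ (5 / 6 : ℝ) :=
    Real.rpow_le_rpow_of_exponent_le hXone (by linarith)
  have hsecond : ∑ i ∈ I, ∫ β in (-ρ)..ρ, G (c i + β) ≤
      5 * L ^ (2 * C₁) * (X / L ^ (A + 2 * C₁ + 1)) := by
    rw [hI, Finset.sum_sigma]
    have h1 : ∀ q ∈ Icc 1 Qb, ∑ p ∈ Icc (-(2 * (q : ℤ))) (2 * (q : ℤ)) ×ˢ Icc (-(R : ℤ)) (R : ℤ),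
        ∫ β in (-ρ)..ρ, G (c ⟨q, p⟩ + β) ≤ 5 * L ^ C₁ * (X / L ^ (A + 2 * C₁ + 1)) := by
      intro q hq
      rw [Finset.mem_Icc] at hq
      have hq2 : (q : ℝ) ≤ L ^ C₁ := le_trans (by exact_mod_cast hq.2) hQb1
      have hq1 : (1 : ℝ) ≤ q := by exact_mod_cast hq.1
      rw [Finset.sum_product]
      have h2 : ∀ a ∈ Icc (-(2 * (q : ℤ))) (2 * (q : ℤ)), ∑ r ∈ Icc (-(R : ℤ)) (R : ℤ),
          ∫ β in (-ρ)..ρ, G (c ⟨q, (a, r)⟩ + β) ≤ X / L ^ (A + 2 * C₁ + 1) := by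
        intro a _
        exact harc X hX2 b hb (hbX.trans hXA) q R a hq.1 hq2 hR1 hR2
      refine (Finset.sum_le_sum h2).trans ?_
      rw [Finset.sum_const, nsmul_eq_mul]
      refine mul_le_mul_of_nonneg_right ?_ (by positivity)
      rw [Int.card_Icc]
      have h3 : ((2 * (q : ℤ) + 1 - -(2 * (q : ℤ))).toNat : ℝ) = 4 * q + 1 := by
        have : (2 * (q : ℤ) + 1 - -(2 * (q : ℤ))).toNat = 4 * q + 1 := by omega
        rw [this]; push_cast; ring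
      rw [h3]; linarith
    refine (Finset.sum_le_sum h1).trans ?_
    rw [Finset.sum_const, Nat.card_Icc, nsmul_eq_mul, Nat.add_sub_cancel]
    have h4 : 5 * L ^ (2 * C₁) * (X / L ^ (A + 2 * C₁ + 1)) =
        L ^ C₁ * (5 * L ^ C₁ * (X / L ^ (A + 2 * C₁ + 1))) := by
      rw [two_mul, pow_add]; ring
    rw [h4]
    exact mul_le_mul_of_nonneg_right hQb1 (by positivity)
  have hfirst : ∫ α in (0 : ℝ)..1, G α ≤ X * L ^ 3 := by
    rw [hG, parseval_D]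
    exact huu X hX3
  refine hcov.trans ?_
  have e1 : (P / L ^ (A + 4)) ^ 2 * (∫ α in (0 : ℝ)..1, G α) ≤
      (P / L ^ (A + 4)) ^ 2 * (X * L ^ 3) := mul_le_mul_of_nonneg_left hfirst (by positivity)
  have e2 : 36 * (P : ℝ) ^ 2 * ∑ i ∈ I, ∫ β in (-ρ)..ρ, G (c i + β) ≤
      36 * (P : ℝ) ^ 2 * (5 * L ^ (2 * C₁) * (X / L ^ (A + 2 * C₁ + 1))) :=
    mul_le_mul_of_nonneg_left hsecond (by positivity)
  have hLA : (1 : ℝ) ≤ L ^ A := one_le_pow₀ hL1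
  have e3 : (P / L ^ (A + 4)) ^ 2 * (X * L ^ 3) = (P : ℝ) ^ 2 * X / L ^ A * (1 / (L ^ A * L ^ 5)) := by
    field_simp
    ring
  have e4 : 36 * (P : ℝ) ^ 2 * (5 * L ^ (2 * C₁) * (X / L ^ (A + 2 * C₁ + 1))) =
      (P : ℝ) ^ 2 * X / L ^ A * (180 / L) := by
    rw [pow_add, pow_add]
    field_simp
    ring
  have e5 : (1 : ℝ) / (L ^ A * L ^ 5) ≤ 1 / 2 := by
    refine one_div_le_one_div_of_le (by norm_num) ?_
    have h5 : (2 : ℝ) ≤ L ^ 5 := by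
      have : L ^ 1 ≤ L ^ 5 := pow_le_pow_right₀ hL1 (by norm_num)
      rw [pow_one] at this
      linarith
    nlinarith
  have e6 : (180 : ℝ) / L ≤ 1 / 2 := by
    rw [div_le_iff₀ hL0]; linarith
  have e7 : 0 ≤ (P : ℝ) ^ 2 * X / L ^ A := by positivity
  have e8 := mul_le_mul_of_nonneg_left e5 e7
  have e9 := mul_le_mul_of_nonneg_left e6 e7
  rw [e3] at e1
  rw [e4] at e2
  linarith

end Pool.Agent.Lib.MP_d9bc60_nt.UV
end
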