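import Pool.Agent.Lib.MP_d9bc60_nt.UV.PDefs

section
/-! Row W04 (about 170 lines): Dirichlet series with bounded partial sums, near `Re s = 1`. -/

set_option autoImplicit false

namespace Pool.Agent.Lib.MP_d9bc60_nt.UV

open Finset

/-- the weight `(log y)^j y^{-s}` -/
private noncomputable def w4F (j : ℕ) (s : ℂ) (y : ℝ) : ℂ :=
  ((Real.log y : ℝ) : ℂ) ^ j * (y : ℂ) ^ (-s)

private noncomputable def w4F' (j : ℕ) (s : ℂ) (y : ℝ) : ℂ :=
  ((j : ℂ) * ((Real.log y : ℝ) : ℂ) ^ (j - 1) * ((y⁻¹ : ℝ) : ℂ)) * (y : ℂ) ^ (-s) +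
    ((Real.log y : ℝ) : ℂ) ^ j * (-s * (y : ℂ) ^ (-s - 1))

private lemma w4_deriv (j : ℕ) (s : ℂ) {y : ℝ} (hy : 0 < y) :
    HasDerivAt (w4F j s) (w4F' j s y) y := by
  have h1 : HasDerivAt (fun y : ℝ => ((Real.log y : ℝ) : ℂ)) ((y⁻¹ : ℝ) : ℂ) y :=
    (Real.hasDerivAt_log hy.ne').ofReal_comp
  have h2 := h1.pow j
  have h3 : HasDerivAt (fun y : ℝ => (y : ℂ) ^ (-s)) (-s * (y : ℂ) ^ (-s - 1)) y := by
    have := (Complex.hasStrictDerivAt_cpow_const (x := (y : ℂ)) (c := -s)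
      (Complex.ofReal_mem_slitPlane.2 hy)).hasDerivAt.comp_ofReal
    exact this
  exact h2.mul h3

private lemma w4_norm (j : ℕ) (s : ℂ) {y : ℝ} (hy : 1 ≤ y) :
    ‖w4F j s y‖ = Real.log y ^ j * y ^ (-s.re) := by
  unfold w4F
  rw [norm_mul, norm_pow, Complex.norm_real, Real.norm_eq_abs, abs_of_nonneg (Real.log_nonneg hy),
    Complex.norm_cpow_eq_rpow_re_of_pos (by linarith only [hy])]
  simp

private lemma w4_norm_le (j : ℕ) (s : ℂ) (hs : 1 ≤ s.re) {y : ℝ} (hy : 1 ≤ y) :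
    ‖w4F j s y‖ ≤ Real.log y ^ j / y := by
  rw [w4_norm j s hy, div_eq_mul_inv]
  apply mul_le_mul_of_nonneg_left _ (pow_nonneg (Real.log_nonneg hy) j)
  rw [← Real.rpow_neg_one]
  exact Real.rpow_le_rpow_of_exponent_le hy (by linarith only [hs])

private lemma w4_deriv_norm (j : ℕ) (s : ℂ) (hs : 1 ≤ s.re) {y : ℝ} (hy : 3 ≤ y) :
    ‖w4F' j s y‖ ≤ ((j : ℝ) + ‖s‖) * Real.log y ^ j / y ^ 2 := by
  have hy0 : 0 < y := by linarith only [hy]
  have hl : 1 ≤ Real.log y := by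
    rw [Real.le_log_iff_exp_le hy0]
    exact (Real.exp_one_lt_d9.le.trans (by norm_num)).trans hy
  have hr : y ^ (-s.re) ≤ y⁻¹ := by
    rw [← Real.rpow_neg_one]
    exact Real.rpow_le_rpow_of_exponent_le (by linarith only [hy]) (by linarith only [hs])
  have hr2 : y ^ (-s.re - 1) ≤ (y ^ 2)⁻¹ := by
    rw [← Real.rpow_natCast, ← Real.rpow_neg hy0.le]
    exact Real.rpow_le_rpow_of_exponent_le (by linarith only [hy]) (by push_cast; linarith only [hs])
  have h1 : ‖((j : ℂ) * ((Real.log y : ℝ) : ℂ) ^ (j - 1) * ((y⁻¹ : ℝ) : ℂ)) * (y : ℂ) ^ (-s)‖ ≤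
      (j : ℝ) * Real.log y ^ j * (y ^ 2)⁻¹ := by
    rw [norm_mul, norm_mul, norm_mul, norm_pow, Complex.norm_real, Complex.norm_real,
      Complex.norm_natCast, Real.norm_eq_abs, Real.norm_eq_abs, abs_of_nonneg (by linarith only [hl]),
      abs_of_pos (inv_pos.2 hy0), Complex.norm_cpow_eq_rpow_re_of_pos hy0, Complex.neg_re]
    have h2 : Real.log y ^ (j - 1) ≤ Real.log y ^ j := pow_le_pow_right₀ hl (Nat.sub_le j 1)
    have h3 : (y ^ 2)⁻¹ = y⁻¹ * y⁻¹ := by rw [sq, mul_inv]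
    rw [h3]
    calc (j : ℝ) * Real.log y ^ (j - 1) * y⁻¹ * y ^ (-s.re)
        ≤ (j : ℝ) * Real.log y ^ j * y⁻¹ * y⁻¹ := by gcongr
      _ = _ := by ring
  have h2 : ‖((Real.log y : ℝ) : ℂ) ^ j * (-s * (y : ℂ) ^ (-s - 1))‖ ≤
      Real.log y ^ j * (‖s‖ * (y ^ 2)⁻¹) := by
    rw [norm_mul, norm_mul, norm_neg, norm_pow, Complex.norm_real, Real.norm_eq_abs,
      abs_of_nonneg (by linarith only [hl]), Complex.norm_cpow_eq_rpow_re_of_pos hy0]
    simp only [Complex.sub_re, Complex.neg_re, Complex.one_re]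
    gcongr
  calc ‖w4F' j s y‖ ≤ _ := norm_add_le _ _
    _ ≤ _ := add_le_add h1 h2
    _ = _ := by rw [div_eq_mul_inv]; ring

private lemma w4_step (j : ℕ) (s : ℂ) (hs : 1 ≤ s.re) {n : ℕ} (hn : 3 ≤ n) :
    ‖w4F j s ((n + 1 : ℕ) : ℝ) - w4F j s (n : ℝ)‖ ≤
      ((j : ℝ) + ‖s‖) * Real.log ((n : ℝ) + 1) ^ j / (n : ℝ) ^ 2 := by
  have hn' : (3 : ℝ) ≤ n := by exact_mod_cast hn
  have hn0 : (0 : ℝ) < n := by linarith only [hn']
  have h := norm_image_sub_le_of_norm_deriv_le_segment' (f := w4F j s) (f' := w4F' j s)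
    (a := (n : ℝ)) (b := (n : ℝ) + 1)
    (C := ((j : ℝ) + ‖s‖) * Real.log ((n : ℝ) + 1) ^ j / (n : ℝ) ^ 2)
    (fun x hx => (w4_deriv j s (by linarith only [hx.1, hn', hx])).hasDerivWithinAt)
    (fun x hx => by
      have hx1 := hx.1
      have hx2 := hx.2
      refine (w4_deriv_norm j s hs (by linarith only [hn', hx1])).trans ?_
      have hlx : 0 ≤ Real.log x := Real.log_nonneg (by linarith only [hn', hx1])
      have hll : Real.log x ≤ Real.log ((n : ℝ) + 1) := Real.log_le_log (by linarith only [hn', hx1]) (by linarith only [hx2])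
      have hln : 0 ≤ Real.log ((n : ℝ) + 1) := hlx.trans hll
      have h0 : 0 ≤ ((j : ℝ) + ‖s‖) * Real.log ((n : ℝ) + 1) ^ j := by positivity
      gcongr) ((n : ℝ) + 1) ⟨by linarith only [], le_refl _⟩
  push_cast
  simpa using h

private lemma w4_abel (a : ℕ → ℂ) (F : ℕ → ℂ) (N : ℕ) : ∀ M : ℕ, N ≤ M →
    ∑ n ∈ Icc (N + 1) M, a n * F n = (∑ n ∈ Icc 1 M, a n) * F M - (∑ n ∈ Icc 1 N, a n) * F N -
      ∑ n ∈ Ico N M, (∑ m ∈ Icc 1 n, a m) * (F (n + 1) - F n) := by
  intro M hM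
  induction M, hM using Nat.le_induction with
  | base => simp
  | succ M hM ih =>
    rw [Finset.sum_Icc_succ_top (by omega), ih, Finset.sum_Ico_succ_top hM,
      Finset.sum_Icc_succ_top (by omega : 1 ≤ M + 1)]
    ring

private lemma w4_log (j : ℕ) {N y : ℝ} (hN : 3 ≤ N) (hy : N ≤ y) :
    Real.log y ^ j ≤ (4 * j + 5) ^ j * Real.log N ^ j * Real.sqrt (y / N) := by
  have hN0 : 0 < N := by linarith only [hN]
  have hz : 1 ≤ y / N := by rw [le_div_iff₀ hN0]; linarith only [hy]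
  have hl : 1 ≤ Real.log N := by
    rw [Real.le_log_iff_exp_le hN0]
    exact (Real.exp_one_lt_d9.le.trans (by norm_num)).trans hN
  have hj : (0 : ℝ) < 1 / (2 * (j + 1)) := by positivity
  have h1 : Real.log (y / N) ≤ (y / N) ^ (1 / (2 * ((j : ℝ) + 1))) / (1 / (2 * (j + 1))) :=
    Real.log_le_rpow_div (by linarith only [hz]) hj
  set w := (y / N) ^ (1 / (2 * ((j : ℝ) + 1))) with hw
  have hw1 : 1 ≤ w := Real.one_le_rpow hz hj.le
  have h2 : Real.log y = Real.log N + Real.log (y / N) := by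
    rw [Real.log_div (by linarith only [hN, hy]) hN0.ne']; ring
  have h3 : Real.log y ≤ (4 * j + 5) * Real.log N * w := by
    rw [h2]
    have h4 : w / (1 / (2 * ((j : ℝ) + 1))) = 2 * (j + 1) * w := by
      field_simp
    rw [h4] at h1
    have hj0 : (0 : ℝ) ≤ j := Nat.cast_nonneg j
    have h5 : Real.log N ≤ Real.log N * w := le_mul_of_one_le_right (by linarith only [hl]) hw1
    have h6 : 2 * ((j : ℝ) + 1) * w ≤ 2 * (j + 1) * w * Real.log N :=
      le_mul_of_one_le_right (by positivity) hl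
    linarith only [mul_nonneg (mul_nonneg hj0 (by linarith only [hl] : (0:ℝ) ≤ Real.log N)) (by linarith only [hw1] : (0:ℝ) ≤ w), mul_nonneg (by linarith only [hl] : (0:ℝ) ≤ Real.log N) (by linarith only [hw1] : (0:ℝ) ≤ w), h1, h5, h6]
  have hly : 0 ≤ Real.log y := Real.log_nonneg (by linarith only [hN, hy])
  calc Real.log y ^ j ≤ ((4 * j + 5) * Real.log N * w) ^ j := pow_le_pow_left₀ hly h3 j
    _ = (4 * j + 5) ^ j * Real.log N ^ j * w ^ j := by rw [mul_pow, mul_pow]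
    _ ≤ (4 * j + 5) ^ j * Real.log N ^ j * Real.sqrt (y / N) := by
      apply mul_le_mul_of_nonneg_left _ (by positivity)
      rw [hw, ← Real.rpow_natCast, ← Real.rpow_mul (by linarith only [hz]), Real.sqrt_eq_rpow]
      apply Real.rpow_le_rpow_of_exponent_le hz
      rw [one_div, inv_mul_le_iff₀ (by positivity)]
      have hj0 : (0 : ℝ) ≤ j := Nat.cast_nonneg j
      linarith only []

private lemma w4_tele (N : ℕ) (hN : 3 ≤ N) : ∀ M : ℕ, N ≤ M →
    ∑ n ∈ Ico N M, 1 / ((n : ℝ) * Real.sqrt n) ≤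
      2 / Real.sqrt ((N : ℝ) - 1) - 2 / Real.sqrt ((M : ℝ) - 1) := by
  intro M hM
  induction M, hM using Nat.le_induction with
  | base => simp
  | succ M hM ih =>
    rw [Finset.sum_Ico_succ_top hM]
    have hM' : (3 : ℝ) ≤ M := by exact_mod_cast hN.trans hM
    have h1 : 1 / ((M : ℝ) * Real.sqrt M) ≤ 2 / Real.sqrt ((M : ℝ) - 1) - 2 / Real.sqrt M := by
      set u := Real.sqrt ((M : ℝ) - 1) with hu
      set v := Real.sqrt (M : ℝ) with hv
      have hu0 : 0 < u := Real.sqrt_pos.2 (by linarith only [hM'])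
      have hv0 : 0 < v := Real.sqrt_pos.2 (by linarith only [hM'])
      have hu2 : u ^ 2 = M - 1 := Real.sq_sqrt (by linarith only [hM'])
      have hv2 : v ^ 2 = M := Real.sq_sqrt (by linarith only [hM'])
      have huv : u ≤ v := Real.sqrt_le_sqrt (by linarith only [])
      have hM2 : (M : ℝ) = v ^ 2 := hv2.symm
      rw [hM2, div_sub_div _ _ hu0.ne' hv0.ne', div_le_div_iff₀ (by positivity) (by positivity)]
      have h3 : (v - u) * (v + u) = 1 := by linear_combination hv2 - hu2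
      have h4 : 0 ≤ v - u := by linarith only [huv]
      -- u v <= 2 (v - u) v^2 v
      have h5 : u * v * 1 ≤ v * v * ((v - u) * (v + u)) := by rw [h3, mul_one, mul_one]; exact mul_le_mul_of_nonneg_right huv hv0.le
      linarith only [mul_nonneg (mul_nonneg hv0.le hv0.le) (mul_nonneg h4 h4), h5]
    push_cast
    have h2 : (M : ℝ) + 1 - 1 = M := by ring
    rw [h2]
    linarith only [ih, h1]

/-- Proof. Let `N = ⌈q(2+|t|)⌉`, `ℓ = log N`. The terms `n ≤ N` contribute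
`≤ 2 ∑_{n ≤ N} (log n)^j / n ≤ 2 ℓ^j (1 + ℓ)`. The terms `n > N`: Abel summation with
`A(n) = ∑_{m ≤ n} a(m)`, `‖A‖ ≤ q`, and `f(y) = (log y)^j y^{-s}`:
`≤ 2 q ‖f(N)‖ + q ∫_N^∞ |f'|`, `|f'(y)| ≤ (|s| + j) (log y)^j y^{-2} · (log y ≥ 1)` up to a constant,
and `∫_N^∞ (log y)^j y^{-2} dy ≤ C_j ℓ^j/N`. Since `q(|s| + j)/N ≤ C_j`, the total is
`≤ C ℓ^(j+1)` and `ℓ ≤ C log(q(2+|t|))`. (A discrete version: `‖f(n+1) - f(n)‖ ≤ C_j(|s|+1)
(log n)^j/n²` for `n ≥ 3`; partial sums over `(N, N']` and `N' → ∞` by absolute convergence.) -/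
theorem lp_bdd (j : ℕ) : ∃ C : ℝ, 1 ≤ C ∧ ∀ (a : ℕ → ℂ) (q : ℝ), 1 ≤ q → (∀ n, ‖a n‖ ≤ 2) →
    (∀ N : ℕ, ‖∑ n ∈ Icc 1 N, a n‖ ≤ q) → ∀ s : ℂ, 1 < s.re → s.re ≤ 2 →
    ‖LSeries (lp a j) s‖ ≤ C * Real.log (q * (2 + |s.im|)) ^ (j + 1) := by
  set K : ℝ := (4 * j + 5) ^ j with hK
  have hK1 : 1 ≤ K := one_le_pow₀ (by have : (0:ℝ) ≤ j := Nat.cast_nonneg j; linarith only [])
  refine ⟨(4 + 2 * K + 12 * (j + 1) * K) * 2 ^ (j + 1), ?_, ?_⟩
  · have h1 : (1 : ℝ) ≤ 2 ^ (j + 1) := one_le_pow₀ (by norm_num)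
    have h2 : (0 : ℝ) ≤ 12 * (j + 1) * K := by positivity
    exact one_le_mul_of_one_le_of_one_le (by linarith only [hK1, h2]) h1
  intro a q hq ha hA s hs1 hs2
  set t := |s.im| with ht
  have ht0 : 0 ≤ t := abs_nonneg _
  set x := q * (2 + t) with hx
  have hx2 : 2 ≤ x := (by linarith only [ht0] : (2:ℝ) ≤ 2 + t).trans (le_mul_of_one_le_left (by linarith only [ht0]) hq)
  set N : ℕ := ⌈x⌉₊ + 1 with hN
  have hNx : x + 1 ≤ (N : ℝ) := by
    have := Nat.le_ceil x
    rw [hN]; push_cast; linarith only [this]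
  have hNx2 : (N : ℝ) ≤ x + 2 := by
    have := (Nat.ceil_lt_add_one (by linarith only [hx2] : 0 ≤ x)).le
    rw [hN]; push_cast; linarith only [this]
  have hN3' : (3 : ℝ) ≤ N := by linarith only [hx2, hNx]
  have hN3 : 3 ≤ N := by exact_mod_cast hN3'
  have hN0 : (0 : ℝ) < N := by linarith only [hx2, hNx]
  set l := Real.log N with hl
  have hl1 : 1 ≤ l := by
    rw [hl, Real.le_log_iff_exp_le hN0]
    exact (Real.exp_one_lt_d9.le.trans (by norm_num)).trans hN3'
  have hlx : l ≤ 2 * Real.log x := by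
    rw [hl, ← Real.log_rpow (by linarith only [hx2])]
    apply Real.log_le_log hN0
    have : x ^ (2 : ℝ) = x ^ 2 := by norm_cast
    rw [this]
    linarith only [mul_le_mul_of_nonneg_left hx2 (by linarith only [hx2] : (0:ℝ) ≤ x), hNx2, hx2]
  have hsn : ‖s‖ ≤ 2 + t := by
    have := Complex.norm_le_abs_re_add_abs_im s
    rw [abs_of_pos (by linarith only [hs1])] at this
    linarith only [hs2, this]
  -- first part
  have hF : ∀ n : ℕ, 1 ≤ n → n ≤ N → ‖a n * w4F j s (n : ℝ)‖ ≤ 2 * (l ^ j * (n : ℝ)⁻¹) := by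
    intro n hn hnN
    have hn1 : (1 : ℝ) ≤ n := by exact_mod_cast hn
    rw [norm_mul]
    apply mul_le_mul (ha n) _ (norm_nonneg _) (by norm_num)
    refine (w4_norm_le j s hs1.le hn1).trans ?_
    rw [div_eq_mul_inv]
    apply mul_le_mul_of_nonneg_right _ (by positivity)
    exact pow_le_pow_left₀ (Real.log_nonneg hn1)
      (Real.log_le_log (by linarith only [hn1]) (by exact_mod_cast hnN)) j
  have hsmall : ∀ M : ℕ, M ≤ N → ‖∑ n ∈ Icc 1 M, a n * w4F j s (n : ℝ)‖ ≤ 4 * l ^ (j + 1) := by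
    intro M hM
    have h1 : ‖∑ n ∈ Icc 1 M, a n * w4F j s (n : ℝ)‖ ≤ ∑ n ∈ Icc 1 N, 2 * (l ^ j * (n : ℝ)⁻¹) := by
      refine (norm_sum_le _ _).trans ?_
      refine (Finset.sum_le_sum fun n hn => hF n (Finset.mem_Icc.1 hn).1
        ((Finset.mem_Icc.1 hn).2.trans hM)).trans ?_
      apply Finset.sum_le_sum_of_subset_of_nonneg
      · exact Finset.Icc_subset_Icc_right hM
      · intro i _ _; positivity
    refine h1.trans ?_
    rw [← Finset.mul_sum, ← Finset.mul_sum]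
    have h2 : ∑ n ∈ Icc 1 N, (n : ℝ)⁻¹ ≤ 1 + l := by
      have := harmonic_le_one_add_log N
      rw [harmonic_eq_sum_Icc] at this
      push_cast at this
      exact this
    have h3 : (0 : ℝ) ≤ l ^ j := by positivity
    have h4 : l ^ j ≤ l ^ (j + 1) := pow_le_pow_right₀ hl1 (Nat.le_succ j)
    have h5 : l ^ (j + 1) = l ^ j * l := pow_succ l j
    linarith only [mul_le_mul_of_nonneg_left h2 h3, h4, h5]
  -- large part
  have hFn : ∀ n : ℕ, N ≤ n → q * ‖w4F j s (n : ℝ)‖ ≤ K * l ^ j := by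
    intro n hn
    have hn' : (N : ℝ) ≤ n := by exact_mod_cast hn
    have h1 := w4_norm_le j s hs1.le (y := (n : ℝ)) (by linarith only [hx2, hNx, hn'])
    have h2 := w4_log j hN3' hn'
    have h3 : Real.sqrt ((n : ℝ) / N) ≤ n / N := by
      rw [Real.sqrt_le_left (by positivity)]
      have : 1 ≤ (n : ℝ) / N := by rw [le_div_iff₀ hN0]; linarith only [hn']
      rw [sq]; exact le_mul_of_one_le_left (by linarith only [this]) this
    have h4 : ‖w4F j s (n : ℝ)‖ ≤ K * l ^ j / N := by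
      refine h1.trans ?_
      rw [div_le_div_iff₀ (by linarith only [hx2, hNx, hn']) hN0]
      calc Real.log n ^ j * N ≤ (K * l ^ j * Real.sqrt ((n : ℝ) / N)) * N := by gcongr
        _ ≤ (K * l ^ j * (n / N)) * N := by gcongr
        _ = K * l ^ j * n := by field_simp
    calc q * ‖w4F j s (n : ℝ)‖ ≤ q * (K * l ^ j / N) := by gcongr
      _ = K * l ^ j * (q / N) := by ring
      _ ≤ K * l ^ j * 1 := by
        apply mul_le_mul_of_nonneg_left _ (by positivity)
        rw [div_le_one hN0]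
        linarith only [mul_nonneg (by linarith only [hq] : (0:ℝ) ≤ q) ht0, hx, hNx, hq]
      _ = _ := mul_one _
  have hlarge : ∀ M : ℕ, N ≤ M → ‖∑ n ∈ Icc (N + 1) M, a n * w4F j s (n : ℝ)‖ ≤
      (2 * K + 12 * (j + 1) * K) * l ^ j := by
    intro M hM
    have hab := w4_abel a (fun n => w4F j s (n : ℝ)) N M hM
    simp only at hab
    rw [hab]
    have h1 : ‖(∑ n ∈ Icc 1 M, a n) * w4F j s (M : ℝ)‖ ≤ K * l ^ j := by
      rw [norm_mul]
      exact (mul_le_mul_of_nonneg_right (hA M) (norm_nonneg _)).trans (hFn M hM)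
    have h2 : ‖(∑ n ∈ Icc 1 N, a n) * w4F j s (N : ℝ)‖ ≤ K * l ^ j := by
      rw [norm_mul]
      exact (mul_le_mul_of_nonneg_right (hA N) (norm_nonneg _)).trans (hFn N le_rfl)
    have h3 : ‖∑ n ∈ Ico N M, (∑ m ∈ Icc 1 n, a m) * (w4F j s ((n + 1 : ℕ) : ℝ) - w4F j s (n : ℝ))‖ ≤
        12 * (j + 1) * K * l ^ j := by
      have hterm : ∀ n ∈ Ico N M,
          ‖(∑ m ∈ Icc 1 n, a m) * (w4F j s ((n + 1 : ℕ) : ℝ) - w4F j s (n : ℝ))‖ ≤
          (q * ((j : ℝ) + ‖s‖) * (K * l ^ j) * (2 / Real.sqrt N)) * (1 / ((n : ℝ) * Real.sqrt n)) := by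
        intro n hn
        have hnN := (Finset.mem_Ico.1 hn).1
        have hn' : (N : ℝ) ≤ n := by exact_mod_cast hnN
        have hn0 : (0 : ℝ) < n := by linarith only [hx2, hNx, hn']
        rw [norm_mul]
        have g1 := w4_step j s hs1.le (hN3.trans hnN)
        have g2 := w4_log j hN3' (y := (n : ℝ) + 1) (by linarith only [hn'])
        have g3 : Real.sqrt (((n : ℝ) + 1) / N) ≤ 2 * Real.sqrt n / Real.sqrt N := by
          rw [Real.sqrt_div (by linarith only [hx2, hNx, hn'])]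
          apply div_le_div_of_nonneg_right _ (Real.sqrt_nonneg _)
          rw [Real.sqrt_le_left (by positivity), mul_pow, Real.sq_sqrt hn0.le]
          linarith only [hx2, hNx, hn']
        calc ‖∑ m ∈ Icc 1 n, a m‖ * ‖w4F j s ((n + 1 : ℕ) : ℝ) - w4F j s (n : ℝ)‖
            ≤ q * (((j : ℝ) + ‖s‖) * Real.log ((n : ℝ) + 1) ^ j / (n : ℝ) ^ 2) :=
              mul_le_mul (hA n) g1 (norm_nonneg _) (by linarith only [hq])
          _ ≤ q * (((j : ℝ) + ‖s‖) * (K * l ^ j * (2 * Real.sqrt n / Real.sqrt N)) / (n : ℝ) ^ 2) := by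
              have : Real.log ((n : ℝ) + 1) ^ j ≤ K * l ^ j * (2 * Real.sqrt n / Real.sqrt N) :=
                g2.trans (mul_le_mul_of_nonneg_left g3 (by positivity))
              gcongr
          _ = (q * ((j : ℝ) + ‖s‖) * (K * l ^ j) * (2 / Real.sqrt N)) * (1 / ((n : ℝ) * Real.sqrt n)) := by
              have hsq : Real.sqrt n * Real.sqrt n = n := Real.mul_self_sqrt hn0.le
              have hsn0 : 0 < Real.sqrt n := Real.sqrt_pos.2 hn0
              have hsN0 : 0 < Real.sqrt N := Real.sqrt_pos.2 hN0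
              field_simp
              rw [sq, hsq]
      refine (norm_sum_le _ _).trans ((Finset.sum_le_sum hterm).trans ?_)
      rw [← Finset.mul_sum]
      have htele := w4_tele N hN3 M hM
      have hM1 : (0 : ℝ) ≤ 2 / Real.sqrt ((M : ℝ) - 1) := by positivity
      have h4 : ∑ n ∈ Ico N M, 1 / ((n : ℝ) * Real.sqrt n) ≤ 2 / Real.sqrt ((N : ℝ) - 1) := by linarith only [htele, hM1]
      have h5 : 2 / Real.sqrt ((N : ℝ) - 1) ≤ 3 / Real.sqrt N := by
        have e1 : 0 < Real.sqrt ((N : ℝ) - 1) := Real.sqrt_pos.2 (by linarith only [hx2, hNx])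
        have e2 : 0 < Real.sqrt (N : ℝ) := Real.sqrt_pos.2 hN0
        rw [div_le_div_iff₀ e1 e2]
        apply le_of_sq_le_sq _ (by positivity)
        rw [mul_pow, mul_pow, Real.sq_sqrt (show (0 : ℝ) ≤ (N : ℝ) - 1 by linarith only [hx2, hNx]),
          Real.sq_sqrt hN0.le]
        linarith only [hx2, hNx]
      have hpos : 0 ≤ q * ((j : ℝ) + ‖s‖) * (K * l ^ j) * (2 / Real.sqrt N) := by positivity
      refine (mul_le_mul_of_nonneg_left (h4.trans h5) hpos).trans ?_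
      have h6 : (2 / Real.sqrt N) * (3 / Real.sqrt N) = 6 / N := by
        rw [div_mul_div_comm, Real.mul_self_sqrt hN0.le]; norm_num
      have h7 : q * ((j : ℝ) + ‖s‖) * (K * l ^ j) * (2 / Real.sqrt N) * (3 / Real.sqrt N) =
          6 * (q * ((j : ℝ) + ‖s‖) / N) * (K * l ^ j) := by
        rw [mul_assoc (q * ((j : ℝ) + ‖s‖) * (K * l ^ j)), h6]; ring
      rw [h7]
      have h8 : q * ((j : ℝ) + ‖s‖) / N ≤ (j : ℝ) + 1 := by
        rw [div_le_iff₀ hN0]
        have hj0 : (0 : ℝ) ≤ j := Nat.cast_nonneg j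
        have e1 : (j : ℝ) + ‖s‖ ≤ (j + 1) * (2 + t) := by linarith only [mul_nonneg hj0 ht0, hsn, hj0]
        calc q * ((j : ℝ) + ‖s‖) ≤ q * ((j + 1) * (2 + t)) := by gcongr
          _ = (j + 1) * x := by rw [hx]; ring
          _ ≤ (j + 1) * N := by gcongr; linarith only [hNx]
      calc 6 * (q * ((j : ℝ) + ‖s‖) / N) * (K * l ^ j) ≤ 6 * ((j : ℝ) + 1) * (K * l ^ j) := by gcongr
        _ ≤ 12 * (j + 1) * K * l ^ j := by
          have : 0 ≤ ((j : ℝ) + 1) * (K * l ^ j) := by positivity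
          linarith only [this]
    calc _ ≤ ‖(∑ n ∈ Icc 1 M, a n) * w4F j s (M : ℝ) - (∑ n ∈ Icc 1 N, a n) * w4F j s (N : ℝ)‖ +
          ‖∑ n ∈ Ico N M, (∑ m ∈ Icc 1 n, a m) * (w4F j s ((n + 1 : ℕ) : ℝ) - w4F j s (n : ℝ))‖ :=
          norm_sub_le _ _
      _ ≤ (‖(∑ n ∈ Icc 1 M, a n) * w4F j s (M : ℝ)‖ + ‖(∑ n ∈ Icc 1 N, a n) * w4F j s (N : ℝ)‖) +
          ‖∑ n ∈ Ico N M, (∑ m ∈ Icc 1 n, a m) * (w4F j s ((n + 1 : ℕ) : ℝ) - w4F j s (n : ℝ))‖ :=
          add_le_add_left (norm_sub_le _ _) _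
      _ ≤ (K * l ^ j + K * l ^ j) + 12 * (j + 1) * K * l ^ j := add_le_add (add_le_add h1 h2) h3
      _ = _ := by ring
  have hall : ∀ M : ℕ, ‖∑ n ∈ Icc 1 M, a n * w4F j s (n : ℝ)‖ ≤
      (4 + 2 * K + 12 * (j + 1) * K) * l ^ (j + 1) := by
    intro M
    have h4 : l ^ j ≤ l ^ (j + 1) := pow_le_pow_right₀ hl1 (Nat.le_succ j)
    have h5 : 0 ≤ l ^ j := by positivity
    have h6 : 0 ≤ 2 * K + 12 * (j + 1) * K := by positivity
    rcases le_total M N with hM | hM
    · refine (hsmall M hM).trans ?_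
      have h7 : 0 ≤ l ^ (j + 1) := by positivity
      linarith only [mul_nonneg h6 h7]
    · have hsplit : ∑ n ∈ Icc 1 M, a n * w4F j s (n : ℝ) =
          ∑ n ∈ Icc 1 N, a n * w4F j s (n : ℝ) + ∑ n ∈ Icc (N + 1) M, a n * w4F j s (n : ℝ) := by
        have hI : Icc 1 M = Icc 1 N ∪ Icc (N + 1) M := by
          ext i; simp only [Finset.mem_union, Finset.mem_Icc]; omega
        rw [hI, Finset.sum_union]
        rw [Finset.disjoint_left]
        intro i hi hi'
        rw [Finset.mem_Icc] at hi hi'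
        omega
      rw [hsplit]
      refine (norm_add_le _ _).trans ((add_le_add (hsmall N le_rfl) (hlarge M hM)).trans ?_)
      linarith only [mul_le_mul_of_nonneg_left h4 h6]
  -- the series
  have hfin : ‖LSeries (lp a j) s‖ ≤ (4 + 2 * K + 12 * (j + 1) * K) * l ^ (j + 1) := by
    by_cases hsum : LSeriesSummable (lp a j) s
    · have htend := hsum.hasSum.tendsto_sum_nat
      refine le_of_tendsto htend.norm (Filter.Eventually.of_forall fun M => ?_)
      have hterm : ∀ n : ℕ, LSeries.term (lp a j) s n = if n = 0 then 0 else a n * w4F j s (n : ℝ) := by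
        intro n
        rw [LSeries.term_def]
        split_ifs with h
        · rfl
        · unfold lp w4F
          rw [Complex.cpow_neg, div_eq_mul_inv, mul_assoc]
          simp
      rcases Nat.eq_zero_or_pos M with rfl | hM
      · simp only [Finset.range_zero, Finset.sum_empty, norm_zero]
        positivity
      · have hR : ∑ n ∈ Finset.range M, LSeries.term (lp a j) s n =
            ∑ n ∈ Icc 1 (M - 1), a n * w4F j s (n : ℝ) := by
          have : Finset.range M = insert 0 (Icc 1 (M - 1)) := by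
            ext i; simp only [Finset.mem_range, Finset.mem_insert, Finset.mem_Icc]; omega
          rw [this, Finset.sum_insert (by simp), hterm 0, if_pos rfl, zero_add]
          apply Finset.sum_congr rfl
          intro n hn
          rw [hterm n, if_neg (by have := (Finset.mem_Icc.1 hn).1; omega)]
        rw [hR]
        exact hall (M - 1)
    · have : LSeries (lp a j) s = 0 := tsum_eq_zero_of_not_summable hsum
      rw [this, norm_zero]
      positivity
  have hpl : l ^ (j + 1) ≤ 2 ^ (j + 1) * Real.log x ^ (j + 1) := by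
    rw [← mul_pow]
    exact pow_le_pow_left₀ (by linarith only [hl1]) hlx (j + 1)
  calc ‖LSeries (lp a j) s‖ ≤ (4 + 2 * K + 12 * (j + 1) * K) * l ^ (j + 1) := hfin
    _ ≤ (4 + 2 * K + 12 * (j + 1) * K) * (2 ^ (j + 1) * Real.log x ^ (j + 1)) :=
      mul_le_mul_of_nonneg_left hpl (by positivity)
    _ = _ := by ring

end Pool.Agent.Lib.MP_d9bc60_nt.UV
end

section
/-! Row W06 (about 90 lines): partial sums of characters. -/

set_option autoImplicit false

namespace Pool.Agent.Lib.MP_d9bc60_nt.UV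

open Finset

theorem w06_total (q : ℕ) [NeZero q] (f : ZMod q → ℂ) :
    ∑ n ∈ range q, f (n : ZMod q) = ∑ a, f a := by
  refine Finset.sum_nbij' (fun n => (n : ZMod q)) ZMod.val ?_ ?_ ?_ ?_ ?_
  · intro n _
    exact mem_univ _
  · intro a _
    exact mem_range.2 (ZMod.val_lt a)
  · intro n hn
    exact ZMod.val_cast_of_lt (mem_range.1 hn)
  · intro a _
    exact ZMod.natCast_zmod_val a
  · intro n _
    rfl

theorem w06_shift (q : ℕ) [NeZero q] (f : ZMod q → ℂ) (N : ℕ) :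
    ∑ n ∈ range q, f (((N + n + 1 : ℕ)) : ZMod q) = ∑ a, f a := by
  rw [← Equiv.sum_comp (Equiv.addLeft ((N : ZMod q) + 1)) f, ← w06_total q (fun a => f (Equiv.addLeft ((N : ZMod q) + 1) a))]
  refine Finset.sum_congr rfl fun n _ => ?_
  simp only [Equiv.coe_addLeft]
  congr 1
  push_cast
  ring

theorem w06_range (g : ℕ → ℂ) (N : ℕ) : ∑ n ∈ Icc 1 N, g n = ∑ n ∈ range N, g (n + 1) := by
  induction N with
  | zero => simp
  | succ n ih => rw [Finset.sum_Icc_succ_top (by omega), Finset.sum_range_succ, ih]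

/-- Proof. `N = q m + r`, `r < q`: by periodicity the sum is `m S + ∑_{r terms}` with
`S = ∑_{a mod q} χ(a)`, which is `φ(q)` if `χ = 1` (count units) and `0` else
(`MulChar.sum_eq_zero_of_ne_one`). The rest and `r S/q` have norm `≤ q`. -/
theorem char_sum (q : ℕ) [NeZero q] (χ : DirichletCharacter ℂ q) (N : ℕ) :
    ‖∑ n ∈ Icc 1 N, χ (n : ZMod q) -
      (if χ = 1 then ((q.totient : ℂ) / q) else 0) * N‖ ≤ 2 * q := by
  have hq : (q : ℂ) ≠ 0 := by exact_mod_cast NeZero.ne q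
  have hq1 : 0 < q := Nat.pos_of_ne_zero (NeZero.ne q)
  set c : ℂ := if χ = 1 then ((q.totient : ℂ) / q) else 0 with hc
  have hS : ∑ a : ZMod q, χ a = c * q := by
    rw [hc]
    split_ifs with h
    · rw [h, MulChar.sum_one_eq_card_units, div_mul_cancel₀ _ hq, ZMod.card_units_eq_totient]
    · rw [zero_mul]
      exact MulChar.sum_eq_zero_of_ne_one h
  have hc1 : ‖c‖ ≤ 1 := by
    rw [hc]
    split_ifs with h
    · rw [norm_div, Complex.norm_natCast, Complex.norm_natCast, div_le_one (by exact_mod_cast hq1)]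
      exact_mod_cast Nat.totient_le q
    · simp
  rw [w06_range (fun n => χ (n : ZMod q)) N]
  induction N using Nat.strong_induction_on with
  | _ N ih =>
    rcases Nat.lt_or_ge N q with h | h
    · have h1 : ‖∑ n ∈ range N, χ ((n + 1 : ℕ) : ZMod q)‖ ≤ N := by
        refine (norm_sum_le _ _).trans ?_
        refine (Finset.sum_le_card_nsmul _ _ 1 (fun n _ => DirichletCharacter.norm_le_one χ _)).trans ?_
        simp
      have h2 : ‖c * N‖ ≤ N := by
        rw [norm_mul, Complex.norm_natCast]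
        exact mul_le_of_le_one_left (Nat.cast_nonneg _) hc1
      have h3 : (N : ℝ) ≤ q := by exact_mod_cast h.le
      refine (norm_sub_le _ _).trans ?_
      linarith only [h1, h2, h3]
    · obtain ⟨M, rfl⟩ := Nat.exists_eq_add_of_le' h
      have h1 := ih M (by omega)
      rw [Finset.sum_range_add, w06_shift q (fun a => χ a) M, hS]
      have h2 : ∑ n ∈ range M, χ ((n + 1 : ℕ) : ZMod q) + c * q - c * ((M + q : ℕ) : ℂ) =
          ∑ n ∈ range M, χ ((n + 1 : ℕ) : ZMod q) - c * M := by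
        push_cast
        ring
      rw [h2]
      exact h1

end Pool.Agent.Lib.MP_d9bc60_nt.UV
end
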