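import Pool.Agent.Lib.MP_d9bc60_nt.UV.PTools

section
/-! Row V1 (about 170 lines): many `n` in an interval with `αn` near an integer. -/

set_option autoImplicit false

namespace Pool.Agent.Lib.MP_d9bc60_nt.UV

open Finset

/-- Integers pairwise congruent modulo `q` with differences at most `L`. -/
theorem v1_card (F : Finset ℤ) (q : ℕ) (hq : 1 ≤ q) (L : ℝ) (hL : 0 ≤ L)
    (h1 : ∀ x ∈ F, ∀ y ∈ F, (q : ℤ) ∣ x - y) (h2 : ∀ x ∈ F, ∀ y ∈ F, ((x - y : ℤ) : ℝ) ≤ L) :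
    (F.card : ℝ) ≤ L / q + 1 := by
  have hq0 : (0 : ℝ) < q := by exact_mod_cast hq
  rcases F.eq_empty_or_nonempty with rfl | hne
  · simp; positivity
  · set n0 := F.min' hne with hn0
    have hmem : n0 ∈ F := F.min'_mem hne
    have hfl : (0 : ℤ) ≤ ⌊L / q⌋ := Int.floor_nonneg.mpr (by positivity)
    have hcard : F.card ≤ (Icc (0 : ℤ) ⌊L / q⌋).card := by
      apply card_le_card_of_injOn (fun n => (n - n0) / (q : ℤ))
      · intro n hn
        rw [mem_coe] at hn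
        have hle : n0 ≤ n := F.min'_le n hn
        rw [mem_coe, mem_Icc]
        refine ⟨Int.ediv_nonneg (by linarith) (by positivity), ?_⟩
        rw [Int.le_floor, le_div_iff₀ hq0]
        obtain ⟨j, hj⟩ := h1 n hn n0 hmem
        have h3 := h2 n hn n0 hmem
        have h4 : (n - n0) / (q : ℤ) = j := by
          rw [hj]
          exact Int.mul_ediv_cancel_left _ (by positivity)
        simp only [h4]
        rw [hj] at h3
        push_cast at h3
        linarith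
      · intro x hx y hy hxy
        rw [mem_coe] at hx hy
        simp only at hxy
        obtain ⟨j, hj⟩ := h1 x hx n0 hmem
        obtain ⟨i, hi⟩ := h1 y hy n0 hmem
        rw [hj, hi, Int.mul_ediv_cancel_left _ (by positivity),
          Int.mul_ediv_cancel_left _ (by positivity)] at hxy
        rw [hxy] at hj
        linarith
    rw [Int.card_Icc] at hcard
    have h5 : ((⌊L / q⌋ + 1 - 0).toNat : ℝ) = (⌊L / q⌋ : ℝ) + 1 := by
      have : ((⌊L / q⌋ + 1 - 0).toNat : ℤ) = ⌊L / q⌋ + 1 - 0 := Int.toNat_of_nonneg (by linarith)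
      have h6 : (((⌊L / q⌋ + 1 - 0).toNat : ℤ) : ℝ) = ((⌊L / q⌋ + 1 - 0 : ℤ) : ℝ) := by rw [this]
      push_cast at h6
      rw [h6]; ring
    calc (F.card : ℝ) ≤ ((⌊L / q⌋ + 1 - 0).toNat : ℝ) := by exact_mod_cast hcard
      _ = (⌊L / q⌋ : ℝ) + 1 := h5
      _ ≤ L / q + 1 := by linarith [Int.floor_le (L / q)]

/-- Proof. Fix `n₀ ∈ S` and let `T = S - n₀ ⊆ [-N, N]`; on `T` one has `nn(αn) ≤ 2ε =: ε'`. As
`nn` is even, one of `T ∩ [0,N]`, `(-T) ∩ [0,N]` has at least `δN/2` elements; call it `T'`.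
Dirichlet (`Real.exists_int_int_abs_mul_sub_le` or `Real.exists_nat_abs_mul_sub_round_le` with
`4N`): `q ≥ 1`, `q ≤ 4N`, `|qα - a| ≤ 1/(4N)`, and we may take `a/q` reduced; `β = α - a/q`,
`|β| ≤ 1/(4Nq)`. For `n ∈ T'`: `nn(a n/q) ≤ ε' + 1/(4q)`. In `q` consecutive integers `n` the
residues `a n mod q` are distinct, and at most `2 ε' q + 3/2` of them satisfy this. So
`δN/2 ≤ (N/q + 1)(2ε'q + 3/2) ≤ 10 ε' N + (3/2) N/q + 3/2`, and `10ε' ≤ δ/5`, `3/2 ≤ 0.015 δN`,
so `q ≤ 6/δ`. Then `q ε' ≤ 0.12`, so `q ∣ a n`, `q ∣ n` for all `n ∈ T'`; write `n = q j`: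
`nn(αn) = |nβ| = j q |β| ≤ ε'` as `|nβ| ≤ 1/4`. So the number of `j` is `≤ ε'/(q|β|) + 1`, whence
`q|β| ≤ 5 ε/(δN)` and `nn(qα) ≤ q|β|`. (If `β = 0` there is nothing to show.) -/
theorem count_nn (N : ℕ) (u : ℤ) (S : Finset ℤ) (hS : S ⊆ Icc u (u + N)) (α ε δ : ℝ) (hδ : 0 < δ)
    (hδ1 : δ ≤ 1) (hcard : δ * N ≤ (S.card : ℝ)) (hε : ∀ n ∈ S, nn (α * n) ≤ ε) (h1 : ε ≤ δ / 100)
    (h2 : 100 / δ ≤ N) :
    ∃ q : ℕ, 1 ≤ q ∧ (q : ℝ) ≤ 100 / δ ∧ nn (q * α) ≤ 100 * ε / (δ * N) := by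
  have hδN : 100 ≤ δ * N := by rwa [div_le_iff₀' hδ] at h2
  have hN1 : (100 : ℝ) ≤ N := hδN.trans (mul_le_of_le_one_left (Nat.cast_nonneg N) hδ1)
  have hN0 : (0 : ℝ) < N := by linarith
  have hNn : 0 < N := by exact_mod_cast hN0
  have hSne : S.Nonempty := by
    rw [← card_pos]
    have : (0 : ℝ) < S.card := by linarith
    exact_mod_cast this
  obtain ⟨n0, hn0⟩ := hSne
  have hε0 : 0 ≤ ε := (nn_nonneg _).trans (hε n0 hn0)
  set T : Finset ℤ := S.image (fun n => n - n0) with hT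
  have hTcard : T.card = S.card := card_image_of_injective _ (fun x y h => by simpa using h)
  have hTb : ∀ n ∈ T, |(n : ℝ)| ≤ N := by
    intro n hn
    obtain ⟨m, hm, rfl⟩ := mem_image.mp hn
    have ha := mem_Icc.mp (hS hm)
    have hb := mem_Icc.mp (hS hn0)
    have hc : |m - n0| ≤ (N : ℤ) := by rw [abs_le]; constructor <;> linarith
    have hd : ((|m - n0| : ℤ) : ℝ) ≤ ((N : ℤ) : ℝ) := by exact_mod_cast hc
    rw [Int.cast_abs] at hd
    exact_mod_cast hd
  have hTε : ∀ n ∈ T, nn (α * n) ≤ 2 * ε := by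
    intro n hn
    obtain ⟨m, hm, rfl⟩ := mem_image.mp hn
    have : α * ((m - n0 : ℤ) : ℝ) = α * m - α * n0 := by push_cast; ring
    rw [this]
    refine (nn_sub_le _ _).trans ?_
    linarith [hε m hm, hε n0 hn0]
  obtain ⟨r, hr1, hr2⟩ := Real.exists_rat_abs_sub_le_and_den_le α (n := 4 * N) (by omega)
  set q : ℕ := r.den with hq
  have hq1 : 1 ≤ q := r.den_pos
  have hq1' : (1 : ℝ) ≤ q := by exact_mod_cast hq1
  have hq0 : (0 : ℝ) < q := by linarith
  have hq4 : (q : ℝ) ≤ 4 * N := by exact_mod_cast hr2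
  set β : ℝ := α - r with hβ
  have hrq : (r : ℝ) = (r.num : ℝ) / q := by
    rw [hq]; exact_mod_cast (Rat.num_div_den r).symm
  have hβN : |β| * (4 * N) * q ≤ 1 := by
    have h3 : |β| ≤ 1 / (((4 * N : ℕ) : ℝ) + 1) / q := by
      rw [div_div]
      exact_mod_cast hr1
    rw [le_div_iff₀ hq0, le_div_iff₀ (by positivity)] at h3
    push_cast at h3
    linarith [mul_nonneg (abs_nonneg β) hq0.le]
  -- `nβ` is small
  have hnβ : ∀ n ∈ T, |(n : ℝ) * β| * q ≤ 1 / 4 := by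
    intro n hn
    rw [abs_mul]
    have h3 := hTb n hn
    linarith [mul_le_mul_of_nonneg_right h3 (mul_nonneg (abs_nonneg β) hq0.le)]
  have hnβ4 : ∀ n ∈ T, |(n : ℝ) * β| ≤ 1 / 4 := by
    intro n hn
    have h3 := hnβ n hn
    exact (le_mul_of_one_le_right (abs_nonneg _) hq1').trans h3
  -- the integer `m(n)`
  set K : ℝ := 2 * ε * q + 1 / 4 with hK
  have hK0 : 0 ≤ K := by positivity
  have hkey : ∀ n ∈ T, |((r.num * n - q * round ((r : ℝ) * n) : ℤ) : ℝ)| ≤ K := by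
    intro n hn
    have h3 : nn ((r : ℝ) * n) ≤ 2 * ε + |(n : ℝ) * β| := by
      have : (r : ℝ) * n = α * n - n * β := by rw [hβ]; ring
      rw [this]
      refine (nn_sub_le _ _).trans ?_
      exact add_le_add (hTε n hn) (nn_le_abs _)
    have h4 : ((r.num * n - q * round ((r : ℝ) * n) : ℤ) : ℝ) =
        q * ((r : ℝ) * n - round ((r : ℝ) * n)) := by
      push_cast
      have h5 : (r.num : ℝ) = q * r := by rw [hrq]; field_simp
      rw [h5]; ring
    rw [h4, abs_mul, abs_of_pos hq0]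
    have h5 : |(r : ℝ) * n - round ((r : ℝ) * n)| = nn ((r : ℝ) * n) := rfl
    rw [h5, hK]
    have h6 := hnβ n hn
    linarith [mul_le_mul_of_nonneg_left h3 hq0.le]
  have hcop : IsCoprime (q : ℤ) r.num := by
    rw [Int.isCoprime_iff_gcd_eq_one, Int.gcd_comm]
    have := r.reduced
    rw [Nat.coprime_iff_gcd_eq_one] at this
    simpa [Int.gcd, hq] using this
  -- first count
  have hcount1 : (T.card : ℝ) ≤ (2 * K + 1) * (2 * N / q + 1) := by
    set k : ℤ := ⌊K⌋ with hk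
    have hk0 : 0 ≤ k := Int.floor_nonneg.mpr hK0
    have hmaps : ∀ n ∈ T, (r.num * n - q * round ((r : ℝ) * n)) ∈ Icc (-k) k := by
      intro n hn
      have h3 := hkey n hn
      rw [abs_le] at h3
      rw [mem_Icc]
      constructor
      · have : -(r.num * n - q * round ((r : ℝ) * n)) ≤ k := by
          rw [hk, Int.le_floor]; push_cast at h3 ⊢; linarith [h3.1]
        linarith
      · rw [hk, Int.le_floor]; exact h3.2
    have hsum := card_eq_sum_card_fiberwise (f := fun n : ℤ => r.num * n - q * round ((r : ℝ) * n))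
      (s := T) (t := Icc (-k) k) (fun n hn => by exact_mod_cast hmaps n hn)
    rw [hsum]
    push_cast
    have hfib : ∀ b ∈ Icc (-k) k,
        ((T.filter (fun n : ℤ => r.num * n - q * round ((r : ℝ) * n) = b)).card : ℝ) ≤
          2 * N / q + 1 := by
      intro b _
      apply v1_card _ q hq1 _ (by positivity)
      · intro x hx y hy
        rw [mem_filter] at hx hy
        have h3 : r.num * (x - y) = q * (round ((r : ℝ) * x) - round ((r : ℝ) * y)) := by
          linear_combination hx.2 - hy.2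
        exact hcop.dvd_of_dvd_mul_left ⟨_, h3⟩
      · intro x hx y hy
        rw [mem_filter] at hx hy
        have h3 := abs_le.mp (hTb x hx.1)
        have h4 := abs_le.mp (hTb y hy.1)
        push_cast
        linarith [h3.2, h4.1]
    refine (sum_le_sum hfib).trans ?_
    rw [sum_const, nsmul_eq_mul, Int.card_Icc]
    apply mul_le_mul_of_nonneg_right _ (by positivity)
    have h5 : (((k + 1 - -k).toNat : ℕ) : ℝ) = 2 * k + 1 := by
      have h6 : ((k + 1 - -k).toNat : ℤ) = k + 1 - -k := Int.toNat_of_nonneg (by linarith)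
      have h7 : (((k + 1 - -k).toNat : ℤ) : ℝ) = ((k + 1 - -k : ℤ) : ℝ) := by rw [h6]
      push_cast at h7
      rw [h7]; ring
    rw [h5]
    have := Int.floor_le K
    rw [← hk] at this
    linarith
  have hTc : δ * N ≤ (T.card : ℝ) := by rw [hTcard]; exact hcard
  -- `q ≤ 5/δ`
  have hqδ : (q : ℝ) * δ ≤ 5 := by
    have h3 : δ * N ≤ (2 * K + 1) * (2 * N / q + 1) := hTc.trans hcount1
    have h4 : (2 * K + 1) * (2 * N / q + 1) = 8 * ε * N + 4 * ε * q + 3 * N / q + 3 / 2 := by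
      rw [hK]; field_simp; ring
    rw [h4] at h3
    have h5 : 4 * ε * q ≤ 16 * ε * N := by linarith [mul_le_mul_of_nonneg_left hq4 hε0]
    have h6 : ε * N ≤ δ * N / 100 := by linarith [mul_le_mul_of_nonneg_right h1 hN0.le]
    have h7 : (745 / 1000) * (δ * N) ≤ 3 * N / q := by linarith
    rw [le_div_iff₀ hq0] at h7
    have h8 : (745 / 1000) * (q * δ) ≤ 3 := by
      by_contra hcon
      push Not at hcon
      linarith [mul_lt_mul_of_pos_right hcon hN0]
    linarith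
  have hqε : (q : ℝ) * (2 * ε) ≤ 1 / 10 := by linarith [mul_le_mul_of_nonneg_left h1 hq0.le]
  -- divisibility
  have hdiv : ∀ n ∈ T, (q : ℤ) ∣ n := by
    intro n hn
    have h3 := hkey n hn
    have h4 : K < 1 := by rw [hK]; linarith
    have h5 : |((r.num * n - q * round ((r : ℝ) * n) : ℤ) : ℝ)| < 1 := lt_of_le_of_lt h3 h4
    have h6 : |r.num * n - q * round ((r : ℝ) * n)| < 1 := by
      rw [← Int.cast_abs] at h5
      exact_mod_cast h5
    have h7 : r.num * n - q * round ((r : ℝ) * n) = 0 := Int.abs_lt_one_iff.mp h6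
    have h8 : r.num * n = q * round ((r : ℝ) * n) := by linarith
    exact hcop.dvd_of_dvd_mul_left ⟨_, h8⟩
  have hsmall : ∀ n ∈ T, |(n : ℝ)| * |β| ≤ 2 * ε := by
    intro n hn
    obtain ⟨j, hj⟩ := hdiv n hn
    have h3 : α * n = n * β + ((r.num * j : ℤ) : ℝ) := by
      have h4 : α = β + r := by rw [hβ]; ring
      rw [h4, hrq, hj]
      push_cast
      field_simp
    have h4 := hTε n hn
    rw [h3, nn_add_int, nn_of_abs_le_half (by linarith [hnβ4 n hn]), abs_mul] at h4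
    exact h4
  refine ⟨q, hq1, ?_, ?_⟩
  · rw [le_div_iff₀ hδ]; linarith
  · have hle : nn (q * α) ≤ q * |β| := by
      have h3 : (q : ℝ) * α = q * β + ((r.num : ℤ) : ℝ) := by
        have h4 : α = β + r := by rw [hβ]; ring
        rw [h4, hrq]
        field_simp
      rw [h3, nn_add_int]
      refine (nn_le_abs _).trans ?_
      rw [abs_mul, abs_of_pos hq0]
    refine hle.trans ?_
    rw [le_div_iff₀ (by positivity)]
    by_cases hβ0 : β = 0
    · rw [hβ0]; simp; linarith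
    · have hβp : 0 < |β| := abs_pos.mpr hβ0
      have hc2 : (T.card : ℝ) ≤ (2 * (2 * ε / |β|)) / q + 1 := by
        apply v1_card _ q hq1 _ (by positivity)
        · intro x hx y hy
          exact dvd_sub (hdiv x hx) (hdiv y hy)
        · intro x hx y hy
          have h3 := hsmall x hx
          have h4 := hsmall y hy
          rw [← le_div_iff₀ hβp] at h3 h4
          push_cast
          have h5 := (abs_le.mp h3).2
          have h6 := (abs_le.mp h4).1
          linarith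
      have h3 : δ * N - 1 ≤ (2 * (2 * ε / |β|)) / q := by linarith
      have h4 : (2 * (2 * ε / |β|)) / q = 4 * ε / (|β| * q) := by field_simp; ring
      rw [h4, le_div_iff₀ (by positivity)] at h3
      have h5 : (0 : ℝ) ≤ |β| * q := by positivity
      linarith [mul_le_mul_of_nonneg_left hδN h5]

end Pool.Agent.Lib.MP_d9bc60_nt.UV
end

section
/-! Row V2 (about 180 lines): Weyl's inequality for quadratic phases, the leading coefficient. -/

set_option autoImplicit false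

namespace Pool.Agent.Lib.MP_d9bc60_nt.UV

open Finset

theorem v2_reindex (F : ℕ → ℕ → ℂ) (u v H : ℕ) (hH : v ≤ H) :
    ∑ m' ∈ Ioc u v, ∑ m ∈ (Ioc u v).filter (fun m => m' < m), F m m' =
      ∑ h ∈ Icc 1 H, ∑ m' ∈ Ioc u (v - h), F (m' + h) m' := by
  have h1 : ∀ m' ∈ Ioc u v, ∑ m ∈ (Ioc u v).filter (fun m => m' < m), F m m' =
      ∑ h ∈ Icc 1 H, if m' + h ≤ v then F (m' + h) m' else 0 := by
    intro m' hm'
    rw [← Finset.sum_filter]
    refine Finset.sum_nbij' (fun m => m - m') (fun h => m' + h) ?_ ?_ ?_ ?_ ?_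
    · intro m hm
      simp only [Finset.mem_filter, Finset.mem_Ioc, Finset.mem_Icc] at hm hm' ⊢
      omega
    · intro h hh
      simp only [Finset.mem_filter, Finset.mem_Ioc, Finset.mem_Icc] at hh hm' ⊢
      omega
    · intro m hm
      simp only [Finset.mem_filter, Finset.mem_Ioc] at hm
      omega
    · intro h hh
      simp only [Finset.mem_filter, Finset.mem_Icc] at hh
      omega
    · intro m hm
      simp only [Finset.mem_filter, Finset.mem_Ioc] at hm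
      have h2 : m' + (m - m') = m := by omega
      rw [h2]
  rw [Finset.sum_congr rfl h1, Finset.sum_comm]
  refine Finset.sum_congr rfl fun h hh => ?_
  rw [← Finset.sum_filter]
  refine Finset.sum_congr ?_ fun _ _ => rfl
  ext m'
  simp only [Finset.mem_filter, Finset.mem_Ioc, Finset.mem_Icc] at hh ⊢
  omega

theorem v2_diff (f : ℕ → ℂ) (hf : ∀ m, ‖f m‖ = 1) (u v H : ℕ) (hH : v ≤ H) :
    ‖∑ m ∈ Ioc u v, f m‖ ^ 2 ≤ v + 2 * ∑ h ∈ Icc 1 H,
      ‖∑ m ∈ Ioc u (v - h), f (m + h) * (starRingEnd ℂ) (f m)‖ := by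
  set S := ∑ m ∈ Ioc u v, f m with hS
  set A := ∑ m' ∈ Ioc u v, ∑ m ∈ (Ioc u v).filter (fun m => m' < m),
    f m * (starRingEnd ℂ) (f m') with hA
  have hdec : S * (starRingEnd ℂ) S = A + (∑ m ∈ Ioc u v, f m * (starRingEnd ℂ) (f m)) +
      (starRingEnd ℂ) A := by
    have h1 : S * (starRingEnd ℂ) S = ∑ m' ∈ Ioc u v, ∑ m ∈ Ioc u v,
        f m * (starRingEnd ℂ) (f m') := by
      rw [hS, map_sum, Finset.sum_mul_sum, Finset.sum_comm]
    have h2 : ∀ m' ∈ Ioc u v, ∑ m ∈ Ioc u v, f m * (starRingEnd ℂ) (f m') =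
        ∑ m ∈ (Ioc u v).filter (fun m => m' < m), f m * (starRingEnd ℂ) (f m') +
        f m' * (starRingEnd ℂ) (f m') +
        ∑ m ∈ (Ioc u v).filter (fun m => m < m'), f m * (starRingEnd ℂ) (f m') := by
      intro m' hm'
      have e1 : f m' * (starRingEnd ℂ) (f m') =
          ∑ m ∈ Ioc u v, if m = m' then f m * (starRingEnd ℂ) (f m') else 0 := by
        rw [Finset.sum_ite_eq', if_pos hm']
      rw [e1, Finset.sum_filter, Finset.sum_filter, ← Finset.sum_add_distrib,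
        ← Finset.sum_add_distrib]
      refine Finset.sum_congr rfl fun m _ => ?_
      rcases lt_trichotomy m m' with h | h | h
      · rw [if_neg (by omega), if_neg (by omega), if_pos h, zero_add, zero_add]
      · rw [if_neg (by omega), if_pos h, if_neg (by omega), zero_add, add_zero]
      · rw [if_pos h, if_neg (by omega), if_neg (by omega), add_zero, add_zero]
    have h3 : ∑ m' ∈ Ioc u v, ∑ m ∈ (Ioc u v).filter (fun m => m < m'),
        f m * (starRingEnd ℂ) (f m') = (starRingEnd ℂ) A := by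
      rw [hA, map_sum]
      have e1 : ∀ m' ∈ Ioc u v, (starRingEnd ℂ) (∑ m ∈ (Ioc u v).filter (fun m => m' < m),
          f m * (starRingEnd ℂ) (f m')) = ∑ m ∈ Ioc u v,
          if m' < m then f m' * (starRingEnd ℂ) (f m) else 0 := by
        intro m' _
        rw [map_sum, Finset.sum_filter]
        refine Finset.sum_congr rfl fun m _ => ?_
        split_ifs
        · rw [map_mul, Complex.conj_conj]
          ring
        · rfl
      rw [Finset.sum_congr rfl e1, Finset.sum_comm]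
      refine Finset.sum_congr rfl fun m' _ => ?_
      rw [Finset.sum_filter]
    rw [h1, Finset.sum_congr rfl h2, Finset.sum_add_distrib, Finset.sum_add_distrib, h3]
  have hS2 : ‖S‖ ^ 2 = ‖S * (starRingEnd ℂ) S‖ := by
    rw [norm_mul, RCLike.norm_conj, sq]
  have hD : ‖∑ m ∈ Ioc u v, f m * (starRingEnd ℂ) (f m)‖ ≤ v := by
    refine (norm_sum_le _ _).trans ?_
    have e1 : ∀ m ∈ Ioc u v, ‖f m * (starRingEnd ℂ) (f m)‖ = 1 := by
      intro m _
      rw [norm_mul, RCLike.norm_conj, hf m, one_mul]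
    rw [Finset.sum_congr rfl e1, Finset.sum_const, Nat.card_Ioc, nsmul_eq_mul, mul_one]
    exact_mod_cast Nat.sub_le v u
  have hAn : ‖A‖ ≤ ∑ h ∈ Icc 1 H,
      ‖∑ m ∈ Ioc u (v - h), f (m + h) * (starRingEnd ℂ) (f m)‖ := by
    rw [hA, v2_reindex (fun m m' => f m * (starRingEnd ℂ) (f m')) u v H hH]
    exact norm_sum_le _ _
  rw [hS2, hdec]
  calc ‖A + (∑ m ∈ Ioc u v, f m * (starRingEnd ℂ) (f m)) + (starRingEnd ℂ) A‖
      ≤ ‖A + (∑ m ∈ Ioc u v, f m * (starRingEnd ℂ) (f m))‖ + ‖(starRingEnd ℂ) A‖ :=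
        norm_add_le _ _
    _ ≤ ‖A‖ + ‖∑ m ∈ Ioc u v, f m * (starRingEnd ℂ) (f m)‖ + ‖(starRingEnd ℂ) A‖ := by
        gcongr
        exact norm_add_le _ _
    _ ≤ _ := by
        rw [RCLike.norm_conj]
        linarith

theorem v2_count (B : ℕ → ℝ) (M : ℕ) (δ : ℝ) (hM : 1 ≤ M) (hB : ∀ h, B h ≤ 2 * M)
    (hsum : δ ^ 2 * M ^ 2 ≤ 2 * M + 2 * ∑ h ∈ Icc 1 (2 * M), B h) (hbig : 4 ≤ δ ^ 2 * M) :
    δ ^ 2 * M / 16 ≤ (((Icc 1 (2 * M)).filter (fun h => δ ^ 2 * M / 16 ≤ B h)).card : ℝ) := by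
  have hM' : (1 : ℝ) ≤ M := by exact_mod_cast hM
  set Hs := (Icc 1 (2 * M)).filter (fun h => δ ^ 2 * M / 16 ≤ B h) with hHs
  have h1 : ∑ h ∈ Icc 1 (2 * M), B h ≤ (Hs.card : ℝ) * (2 * M) + (2 * M) * (δ ^ 2 * M / 16) := by
    rw [← Finset.sum_filter_add_sum_filter_not (Icc 1 (2 * M)) (fun h => δ ^ 2 * M / 16 ≤ B h)]
    refine add_le_add ?_ ?_
    · calc ∑ h ∈ Hs, B h ≤ ∑ h ∈ Hs, (2 * M : ℝ) := Finset.sum_le_sum fun h _ => hB h
        _ = (Hs.card : ℝ) * (2 * M) := by rw [Finset.sum_const, nsmul_eq_mul]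
    · calc ∑ h ∈ (Icc 1 (2 * M)).filter (fun h => ¬ δ ^ 2 * M / 16 ≤ B h), B h
          ≤ ∑ h ∈ (Icc 1 (2 * M)).filter (fun h => ¬ δ ^ 2 * M / 16 ≤ B h), δ ^ 2 * M / 16 :=
            Finset.sum_le_sum fun h hh => (not_le.1 (Finset.mem_filter.1 hh).2).le
        _ = (((Icc 1 (2 * M)).filter (fun h => ¬ δ ^ 2 * M / 16 ≤ B h)).card : ℝ) *
              (δ ^ 2 * M / 16) := by rw [Finset.sum_const, nsmul_eq_mul]
        _ ≤ (2 * M) * (δ ^ 2 * M / 16) := by
            refine mul_le_mul_of_nonneg_right ?_ (by linarith)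
            have h2 := Finset.card_filter_le (Icc 1 (2 * M)) (fun h => ¬ δ ^ 2 * M / 16 ≤ B h)
            rw [Nat.card_Icc] at h2
            have h3 : 2 * M + 1 - 1 = 2 * M := by omega
            rw [h3] at h2
            exact_mod_cast h2
  have h2 : (4 : ℝ) * M ≤ δ ^ 2 * M * M := mul_le_mul_of_nonneg_right hbig (by linarith)
  have h3 : δ ^ 2 * M * M ≤ 16 * (Hs.card : ℝ) * M := by linarith
  have h4 : δ ^ 2 * M ≤ 16 * (Hs.card : ℝ) := le_of_mul_le_mul_right h3 (by linarith)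
  linarith

/-- Proof. `C = 6400²` (or larger). If `M < 6400/δ^4` take `q = 1` (`nn ≤ 1/2`). Otherwise
`|S|² = ∑_{h} ∑_{m, m+h ∈ (u,v]} e(2θhm + θh² + ηh)`, `|h| < 2M`, so by `geom_le`
`δ²M² ≤ |S|² ≤ ∑_{|h| < 2M} min(2M, 1/(2 nn(2θh)))` (read the min as `2M` when `nn(2θh) = 0`). Let
`H` be the set of `h ∈ [-2M, 2M]` for which the minimum is `≥ δ²M/8`: the others contribute at most
`4M·δ²M/8`, so `#H ≥ δ²M/4 = (δ²/16)·4M`, and `nn(2θh) ≤ 4/(δ²M)` on `H`. `count_nn` with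
`N = 4M`, `u = -2M`, `α = 2θ`, `ε = 4/(δ²M)`, density `δ²/16` gives `q₁ ≤ 1600/δ²` and
`nn(2q₁θ) ≤ 1600/(δ^4 M²)`; take `q = 2q₁`. -/
theorem weyl_lead : ∃ C : ℝ, 1 ≤ C ∧ ∀ (δ θ η : ℝ) (M u v : ℕ), 0 < δ → δ ≤ 1 → 1 ≤ M → v ≤ 2 * M →
    δ * M ≤ ‖∑ m ∈ Ioc u v, e (θ * (m : ℝ) ^ 2 + η * m)‖ →
    ∃ q : ℕ, 1 ≤ q ∧ (q : ℝ) ≤ C / δ ^ 8 ∧ nn (q * θ) ≤ C / (δ ^ 8 * (M : ℝ) ^ 2) := by
  refine ⟨25600 ^ 2, by norm_num, ?_⟩
  intro δ θ η M u v hδ hδ1 hM hv hS
  have hM' : (1 : ℝ) ≤ M := by exact_mod_cast hM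
  have hM0 : (0 : ℝ) < M := by linarith
  have hδ8 : δ ^ 8 ≤ 1 := pow_le_one₀ hδ.le hδ1
  have hδ80 : 0 < δ ^ 8 := by positivity
  have hδ4 : 0 < δ ^ 4 := by positivity
  rcases lt_or_ge (M : ℝ) (25600 / δ ^ 4) with hsmall | hbig
  · refine ⟨1, le_rfl, ?_, ?_⟩
    · rw [le_div_iff₀ hδ80, Nat.cast_one, one_mul]
      exact hδ8.trans (by norm_num)
    · refine (nn_le_half _).trans ?_
      rw [le_div_iff₀ (by positivity)]
      rw [lt_div_iff₀ hδ4] at hsmall
      have h1 : ((M : ℝ) * δ ^ 4) ^ 2 ≤ 25600 ^ 2 :=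
        pow_le_pow_left₀ (by positivity) hsmall.le 2
      have h2 : δ ^ 8 * (M : ℝ) ^ 2 = ((M : ℝ) * δ ^ 4) ^ 2 := by ring
      rw [h2]
      have h3 : 0 ≤ ((M : ℝ) * δ ^ 4) ^ 2 := by positivity
      linarith
  · rw [div_le_iff₀ hδ4] at hbig
    set f : ℕ → ℂ := fun m => e (θ * (m : ℝ) ^ 2 + η * m) with hf
    set B : ℕ → ℝ := fun h => ‖∑ m ∈ Ioc u (v - h), e (2 * θ * h * m)‖ with hB
    have hBf : ∀ h : ℕ, ‖∑ m ∈ Ioc u (v - h), f (m + h) * (starRingEnd ℂ) (f m)‖ = B h := by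
      intro h
      have e1 : ∀ m ∈ Ioc u (v - h), f (m + h) * (starRingEnd ℂ) (f m) =
          e (θ * (h : ℝ) ^ 2 + η * h) * e (2 * θ * h * m) := by
        intro m _
        rw [hf]
        simp only
        rw [← e_sub, ← e_add]
        congr 1
        push_cast
        ring
      rw [Finset.sum_congr rfl e1, ← Finset.mul_sum, norm_mul, norm_e, one_mul]
    have hd := v2_diff f (fun m => norm_e _) u v (2 * M) hv
    rw [Finset.sum_congr rfl fun h _ => hBf h] at hd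
    have hB2 : ∀ h, B h ≤ 2 * M := by
      intro h
      rw [hB]
      simp only
      refine (norm_sum_le _ _).trans ?_
      rw [Finset.sum_congr rfl fun m _ => norm_e _, Finset.sum_const, Nat.card_Ioc, nsmul_eq_mul,
        mul_one]
      have h1 : v - h - u ≤ 2 * M := by omega
      exact_mod_cast h1
    have hδ2 : δ ^ 4 ≤ δ ^ 2 := pow_le_pow_of_le_one hδ.le hδ1 (by norm_num)
    have hδ21 : δ ^ 2 ≤ 1 := pow_le_one₀ hδ.le hδ1
    have hbig2 : 25600 ≤ δ ^ 2 * M := by linarith [mul_le_mul_of_nonneg_left hδ2 hM0.le]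
    have hS2 : δ ^ 2 * M ^ 2 ≤ 2 * M + 2 * ∑ h ∈ Icc 1 (2 * M), B h := by
      have h1 : (δ * M) ^ 2 ≤ ‖∑ m ∈ Ioc u v, f m‖ ^ 2 := pow_le_pow_left₀ (by positivity) hS 2
      have h2 : (v : ℝ) ≤ 2 * M := by exact_mod_cast hv
      have h3 : (δ * M) ^ 2 = δ ^ 2 * M ^ 2 := by ring
      linarith
    have hcount := v2_count B M δ hM hB2 hS2 (by linarith)
    set Hs := (Icc 1 (2 * M)).filter (fun h => δ ^ 2 * M / 16 ≤ B h) with hHs
    -- the set of integers
    have hcardZ : (Hs.image (fun h : ℕ => (h : ℤ))).card = Hs.card :=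
      Finset.card_image_of_injective _ Nat.cast_injective
    obtain ⟨q, hq1, hq2, hq3⟩ := count_nn (2 * M) 0 (Hs.image (fun h : ℕ => (h : ℤ)))
      (by
        intro n hn
        obtain ⟨h, hh, rfl⟩ := Finset.mem_image.1 hn
        have h1 := (Finset.mem_Icc.1 (Finset.mem_filter.1 hh).1).2
        rw [Finset.mem_Icc]
        constructor
        · exact Int.natCast_nonneg h
        · rw [zero_add]
          exact_mod_cast h1) (2 * θ) (8 / (δ ^ 2 * M)) (δ ^ 2 / 32) (by positivity)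
      (by linarith)
      (by
        rw [hcardZ]
        have h1 : δ ^ 2 / 32 * ((2 * M : ℕ) : ℝ) = δ ^ 2 * M / 16 := by
          push_cast
          ring
        rw [h1]
        exact hcount)
      (by
        intro n hn
        obtain ⟨h, hh, rfl⟩ := Finset.mem_image.1 hn
        have h1 := (Finset.mem_filter.1 hh).2
        have e1 : 2 * θ * ((h : ℤ) : ℝ) = 2 * θ * (h : ℝ) := by push_cast; ring
        rw [e1]
        rcases (nn_nonneg (2 * θ * h)).lt_or_eq with hpos | h0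
        · have h2 : B h ≤ 1 / (2 * nn (2 * θ * h)) := geom_le (2 * θ * h) u (v - h) hpos
          have h3 : δ ^ 2 * M / 16 ≤ 1 / (2 * nn (2 * θ * h)) := h1.trans h2
          rw [le_div_iff₀ (by positivity)] at h3
          rw [le_div_iff₀ (by positivity)]
          linarith
        · rw [← h0]
          positivity)
      (by
        rw [div_le_iff₀ (by positivity)]
        have h1 : δ ^ 2 / 32 / 100 * (δ ^ 2 * M) = M * δ ^ 4 / 3200 := by ring
        rw [h1]
        linarith)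
      (by
        rw [div_le_iff₀ (by positivity)]
        push_cast
        linarith)
    refine ⟨2 * q, by omega, ?_, ?_⟩
    · have h1 : (100 : ℝ) / (δ ^ 2 / 32) = 3200 / δ ^ 2 := by field_simp; norm_num
      rw [h1] at hq2
      push_cast
      have h2 : 3200 / δ ^ 2 ≤ 3200 / δ ^ 8 := by
        apply div_le_div_of_nonneg_left (by norm_num) hδ80
        exact pow_le_pow_of_le_one hδ.le hδ1 (by norm_num)
      have h3 : (2 : ℝ) * (3200 / δ ^ 8) ≤ 25600 ^ 2 / δ ^ 8 := by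
        rw [← mul_div_assoc]
        exact div_le_div_of_nonneg_right (by norm_num) hδ80.le
      linarith
    · have e1 : ((2 * q : ℕ) : ℝ) * θ = (q : ℝ) * (2 * θ) := by push_cast; ring
      rw [e1]
      refine hq3.trans ?_
      have h1 : 100 * (8 / (δ ^ 2 * (M : ℝ))) / (δ ^ 2 / 32 * ((2 * M : ℕ) : ℝ)) =
          12800 / (δ ^ 4 * (M : ℝ) ^ 2) := by
        push_cast
        field_simp
        norm_num
      rw [h1, div_le_div_iff₀ (by positivity) (by positivity)]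
      have h2 : δ ^ 8 ≤ δ ^ 4 := pow_le_pow_of_le_one hδ.le hδ1 (by norm_num)
      have h3 : 0 < (M : ℝ) ^ 2 := by positivity
      calc 12800 * (δ ^ 8 * (M : ℝ) ^ 2) ≤ 12800 * (δ ^ 4 * (M : ℝ) ^ 2) := by
            have := mul_le_mul_of_nonneg_right h2 h3.le
            linarith
        _ ≤ 25600 ^ 2 * (δ ^ 4 * (M : ℝ) ^ 2) :=
            mul_le_mul_of_nonneg_right (by norm_num) (by positivity)

end Pool.Agent.Lib.MP_d9bc60_nt.UV
end

section
/-! Row V3 (about 150 lines): Weyl's inequality for quadratic phases, both coefficients. -/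

set_option autoImplicit false

namespace Pool.Agent.Lib.MP_d9bc60_nt.UV

open Finset

/-- Proof. Let `a` be the integer with `nn(qθ) = |qθ - a|`, `θ = a/q + β`, `|β| ≤ ρ/(qM²)`. If
`nn(qη) = 0` the claim is trivial. Split the sum by the residue `r` of `m` mod `q`:
`e(a m²/q) = e(a r²/q)`, so the sum is at most
`∑_{r < q} ‖∑_{m ∈ (u,v], m ≡ r (q)} e(βm²) e(ηm)‖ ≤ q (1 + 2π|β| v²)/(2 nn(qη))`
by `abel_quad` (with `F m = e(ηm)` if `m % q = r`, else `0`) and `geom_ap_le`; and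
`2π|β|v² ≤ 8πρ ≤ 26ρ`. -/
theorem weyl_lin (θ η δ ρ : ℝ) (M u v q : ℕ) (hδ : 0 < δ) (hM : 1 ≤ M) (hv : v ≤ 2 * M) (hq : 1 ≤ q)
    (hθ : nn (q * θ) ≤ ρ / (M : ℝ) ^ 2)
    (h : δ * M ≤ ‖∑ m ∈ Ioc u v, e (θ * (m : ℝ) ^ 2 + η * m)‖) :
    nn (q * η) ≤ q * (1 + 26 * ρ) / (2 * δ * M) := by
  have hMr : (0 : ℝ) < M := by exact_mod_cast hM
  have hqr : (0 : ℝ) < q := by exact_mod_cast hq
  have hρ : 0 ≤ ρ := by
    have h1 := (nn_nonneg (q * θ)).trans hθ
    rw [div_nonneg_iff] at h1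
    rcases h1 with ⟨h2, _⟩ | ⟨_, h2⟩
    · exact h2
    · exact absurd h2 (not_le.mpr (by positivity))
  rcases (nn_nonneg (q * η)).eq_or_lt with h0 | h0
  · rw [← h0]
    positivity
  obtain ⟨a, ha⟩ := nn_exists (q * θ)
  obtain ⟨β, hβ⟩ : ∃ β, β = θ - a / q := ⟨_, rfl⟩
  have hqβ : (q : ℝ) * β = q * θ - a := by
    rw [hβ]
    field_simp
  have hβle : |β| * (M : ℝ) ^ 2 ≤ ρ := by
    have h1 : |(q : ℝ) * β| ≤ ρ / (M : ℝ) ^ 2 := by
      rw [hqβ, ← ha]
      exact hθ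
    rw [abs_mul, Nat.abs_cast, le_div_iff₀ (by positivity)] at h1
    have h2 : |β| * (M : ℝ) ^ 2 ≤ (q : ℝ) * |β| * (M : ℝ) ^ 2 := by
      refine mul_le_mul_of_nonneg_right ?_ (by positivity)
      exact le_mul_of_one_le_left (abs_nonneg _) (by exact_mod_cast hq)
    exact h2.trans h1
  -- the sum over a residue class
  have hclass : ∀ r : ℕ, ‖∑ m ∈ (Ioc u v).filter (fun m => m % q = r),
      e (θ * (m : ℝ) ^ 2 + η * m)‖ ≤ (1 + 26 * ρ) * (1 / (2 * nn (q * η))) := by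
    intro r
    have h1 : ∑ m ∈ (Ioc u v).filter (fun m => m % q = r), e (θ * (m : ℝ) ^ 2 + η * m) =
        e (a / q * (r : ℝ) ^ 2) * ∑ m ∈ Ioc u v, (if m % q = r then e (η * m) else 0) *
          e (β * (m : ℝ) ^ 2) := by
      rw [Finset.sum_filter, Finset.mul_sum]
      refine Finset.sum_congr rfl fun m _ => ?_
      split_ifs with hm
      · have h2 : ∃ k : ℤ, (a : ℝ) / q * (m : ℝ) ^ 2 = a / q * (r : ℝ) ^ 2 + k := by
          have h3 : (q : ℤ) ∣ (m : ℤ) ^ 2 - (r : ℤ) ^ 2 := by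
            have h4 : (q : ℤ) ∣ (m : ℤ) - r := by
              have h5 : m = q * (m / q) + r := by
                rw [← hm]
                exact (Nat.div_add_mod m q).symm
              refine ⟨((m / q : ℕ) : ℤ), ?_⟩
              have h6 : (m : ℤ) = q * ((m / q : ℕ) : ℤ) + r := by exact_mod_cast h5
              linarith
            have h7 : (m : ℤ) ^ 2 - (r : ℤ) ^ 2 = ((m : ℤ) - r) * (m + r) := by ring
            rw [h7]
            exact Dvd.dvd.mul_right h4 _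
          obtain ⟨k, hk⟩ := h3
          refine ⟨a * k, ?_⟩
          have h8 : (m : ℝ) ^ 2 = (r : ℝ) ^ 2 + q * k := by
            have h9 : (m : ℤ) ^ 2 = (r : ℤ) ^ 2 + q * k := by linarith
            exact_mod_cast h9
          rw [h8]
          push_cast
          field_simp
        obtain ⟨k, hk⟩ := h2
        have h3 : θ * (m : ℝ) ^ 2 + η * m = ((a / q * (r : ℝ) ^ 2 + k) + η * m) +
            β * (m : ℝ) ^ 2 := by
          rw [← hk, hβ]
          ring
        rw [h3, e_add, e_add, e_add_int]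
        ring
      · rw [zero_mul, mul_zero]
    rw [h1, norm_mul, norm_e, one_mul]
    have h2 := abel_quad (fun m => if m % q = r then e (η * m) else 0) β u v
      (1 / (2 * nn (q * η))) (fun v' _ => by
        rw [← Finset.sum_filter]
        exact geom_ap_le η q r u v' hq h0)
    refine h2.trans ?_
    refine mul_le_mul_of_nonneg_right ?_ (by positivity)
    have h3 : (v : ℝ) ^ 2 ≤ 4 * (M : ℝ) ^ 2 := by
      have h4 : (v : ℝ) ≤ 2 * M := by exact_mod_cast hv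
      linarith [pow_le_pow_left₀ (Nat.cast_nonneg v) h4 2]
    have h4 : 2 * Real.pi * |β| * (v : ℝ) ^ 2 ≤ 2 * Real.pi * |β| * (4 * (M : ℝ) ^ 2) :=
      mul_le_mul_of_nonneg_left h3 (by positivity)
    have h5 : 2 * Real.pi * |β| * (4 * (M : ℝ) ^ 2) = 8 * Real.pi * (|β| * (M : ℝ) ^ 2) := by
      ring
    have h6 : 8 * Real.pi * (|β| * (M : ℝ) ^ 2) ≤ 26 * ρ := by
      have h7 : 8 * Real.pi ≤ 26 := by linarith [Real.pi_lt_d2]
      exact mul_le_mul h7 hβle (by positivity) (by norm_num)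
    linarith
  have hsplit : ∑ m ∈ Ioc u v, e (θ * (m : ℝ) ^ 2 + η * m) =
      ∑ r ∈ range q, ∑ m ∈ (Ioc u v).filter (fun m => m % q = r),
        e (θ * (m : ℝ) ^ 2 + η * m) := by
    symm
    exact Finset.sum_fiberwise_of_maps_to (fun m _ => Finset.mem_range.mpr (Nat.mod_lt m hq)) _
  have hfin : δ * M ≤ q * ((1 + 26 * ρ) * (1 / (2 * nn (q * η)))) := by
    refine h.trans ?_
    rw [hsplit]
    calc ‖∑ r ∈ range q, ∑ m ∈ (Ioc u v).filter (fun m => m % q = r),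
        e (θ * (m : ℝ) ^ 2 + η * m)‖
        ≤ ∑ r ∈ range q, (1 + 26 * ρ) * (1 / (2 * nn (q * η))) :=
          norm_sum_le_of_le _ fun r _ => hclass r
      _ = q * ((1 + 26 * ρ) * (1 / (2 * nn (q * η)))) := by
          rw [Finset.sum_const, Finset.card_range, nsmul_eq_mul]
  rw [le_div_iff₀ (by positivity)]
  have h1 : q * ((1 + 26 * ρ) * (1 / (2 * nn (q * η)))) = q * (1 + 26 * ρ) / (2 * nn (q * η)) := by
    ring
  rw [h1, le_div_iff₀ (by positivity)] at hfin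
  linarith

/-- Proof: `weyl_lead` and `weyl_lin` with `ρ = C/δ^8`. -/
theorem weyl_both : ∃ C : ℝ, 1 ≤ C ∧ ∀ (δ θ η : ℝ) (M u v : ℕ), 0 < δ → δ ≤ 1 → 1 ≤ M → v ≤ 2 * M →
    δ * M ≤ ‖∑ m ∈ Ioc u v, e (θ * (m : ℝ) ^ 2 + η * m)‖ →
    ∃ q : ℕ, 1 ≤ q ∧ (q : ℝ) ≤ C / δ ^ 8 ∧ nn (q * θ) ≤ C / (δ ^ 8 * (M : ℝ) ^ 2) ∧
      nn (q * η) ≤ C / (δ ^ 17 * (M : ℝ)) := by
  obtain ⟨C₀, hC₀, hl⟩ := weyl_lead
  refine ⟨14 * C₀ ^ 2, ?_, ?_⟩
  · linarith [one_le_pow₀ hC₀ (n := 2)]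
  intro δ θ η M u v hδ hδ1 hM hv h
  obtain ⟨q, hq, hqle, hqn⟩ := hl δ θ η M u v hδ hδ1 hM hv h
  have hMr : (0 : ℝ) < M := by exact_mod_cast hM
  have hCC : C₀ ≤ 14 * C₀ ^ 2 := by linarith [mul_le_mul_of_nonneg_left hC₀ (le_trans zero_le_one hC₀)]
  have hC00 : 0 < C₀ := by linarith
  have h8 : 0 < δ ^ 8 := by positivity
  have h81 : δ ^ 8 ≤ 1 := pow_le_one₀ hδ.le hδ1
  refine ⟨q, hq, hqle.trans (div_le_div_of_nonneg_right hCC h8.le),
    hqn.trans (div_le_div_of_nonneg_right hCC (by positivity)), ?_⟩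
  have h1 := weyl_lin θ η δ (C₀ / δ ^ 8) M u v q hδ hM hv hq (by
    rw [div_div]
    exact hqn) h
  refine h1.trans ?_
  have h2 : 1 ≤ C₀ / δ ^ 8 := by
    rw [le_div_iff₀ h8]
    linarith
  have h3 : (q : ℝ) * (1 + 26 * (C₀ / δ ^ 8)) ≤ C₀ / δ ^ 8 * (27 * (C₀ / δ ^ 8)) :=
    mul_le_mul hqle (by linarith) (by positivity) (by positivity)
  calc (q : ℝ) * (1 + 26 * (C₀ / δ ^ 8)) / (2 * δ * M)
      ≤ C₀ / δ ^ 8 * (27 * (C₀ / δ ^ 8)) / (2 * δ * M) :=
        div_le_div_of_nonneg_right h3 (by positivity)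
    _ = (27 / 2) * C₀ ^ 2 / (δ ^ 17 * M) := by
        field_simp
    _ ≤ 14 * C₀ ^ 2 / (δ ^ 17 * M) := by
        refine div_le_div_of_nonneg_right ?_ (by positivity)
        linarith [sq_nonneg C₀]

end Pool.Agent.Lib.MP_d9bc60_nt.UV
end
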